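import Pool.Agent.P.MP_56a1cd_gt.Basic

namespace Pool.Agent.P.MP_56a1cd_gt

open MeasureTheory Matrix Set Filter Topology
open scoped ContDiff ENNReal

variable {m n : ℕ}

/-! The real-number inequality that closes the argument: all parameters are powers of a small `u`. -/

namespace ArithAux

lemma err {Ts : ℝ} (hT : 0 < Ts) : ∃ K : ℝ, 0 ≤ K ∧ ∀ T w : ℝ, 0 < T → T ≤ 2 * Ts → 0 ≤ w →
    T / 4 * (w * √(4 * Real.pi * T)) ≤ K * w := by
  refine ⟨Ts / 2 * √(4 * Real.pi * (2 * Ts)), by positivity, fun T w h0 h1 hw => ?_⟩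
  have h2 : √(4 * Real.pi * T) ≤ √(4 * Real.pi * (2 * Ts)) :=
    Real.sqrt_le_sqrt (mul_le_mul_of_nonneg_left h1 (by positivity))
  calc T / 4 * (w * √(4 * Real.pi * T)) ≤ Ts / 2 * (w * √(4 * Real.pi * (2 * Ts))) :=
        mul_le_mul (by linarith) (mul_le_mul_of_nonneg_left h2 hw) (by positivity) (by positivity)
    _ = _ := by ring

lemma small {K a : ℝ} (hK : 0 ≤ K) (ha : 0 < a) : ∃ u : ℝ, 0 < u ∧ u ≤ 1 ∧ K * u < a := by
  refine ⟨min 1 (a / (K + 1)), lt_min one_pos (by positivity), min_le_left _ _, ?_⟩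
  calc K * min 1 (a / (K + 1)) ≤ K * (a / (K + 1)) :=
        mul_le_mul_of_nonneg_left (min_le_right _ _) hK
    _ < (K + 1) * (a / (K + 1)) := mul_lt_mul_of_pos_right (by linarith) (by positivity)
    _ = a := by field_simp

lemma sqrt_le {x K e : ℝ} (he : 0 ≤ e) (h : x ≤ K * e ^ 2) : √x ≤ √K * e := by
  calc √x ≤ √(K * e ^ 2) := Real.sqrt_le_sqrt h
    _ = √K * e := by rw [Real.sqrt_mul' _ (sq_nonneg e), Real.sqrt_sq he]

lemma first {p Ts K e T d : ℝ} (hp : 0 < p) (hT : 0 < Ts) (hK : 0 ≤ K) (h0 : 0 < T) (hd : 0 ≤ d)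
    (he : e ^ 2 ≤ Ts) (h1 : T < Ts + e ^ 2) (h : p * Ts ^ 2 + d ≤ p * T ^ 2 + K * e ^ 2) :
    d ≤ (3 * p * Ts + K) * e ^ 2 ∧ Ts - K / (p * Ts) * e ^ 2 ≤ T := by
  have h2 := sq_nonneg e
  constructor
  · have h3 : T ^ 2 ≤ Ts ^ 2 + 3 * Ts * e ^ 2 := by nlinarith
    nlinarith [mul_le_mul_of_nonneg_left h3 hp.le]
  · have h3 : 0 ≤ K / (p * Ts) * e ^ 2 := by positivity
    by_cases h4 : Ts ≤ T
    · linarith
    have h5 : (Ts - T) * (p * Ts) ≤ K * e ^ 2 := by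
      nlinarith [mul_pos hp (mul_pos h0 (sub_pos.mpr (not_le.mp h4)))]
    have h6 : Ts - T ≤ K * e ^ 2 / (p * Ts) := (le_div_iff₀ (by positivity)).mpr h5
    have h7 : K * e ^ 2 / (p * Ts) = K / (p * Ts) * e ^ 2 := by ring
    linarith

end ArithAux

open ArithAux in
theorem arith {Ts X Y c : ℝ} (hT : 0 < Ts) (hY : 0 ≤ Y) (hXY : Y < X) (hc : 0 ≤ c) :
    ∃ ε η ϖ s : ℝ, 0 < ε ∧ 0 < η ∧ 0 < ϖ ∧ 0 < s ∧ ∀ T₀ T d₀ d En γ Θ : ℝ, 0 < T₀ → 0 < T →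
      0 ≤ d₀ → 0 ≤ d → 0 ≤ En → 0 ≤ γ →
      Real.pi * Ts ^ 2 + d₀ ≤ Real.pi * T₀ ^ 2 + T₀ / 4 * (ϖ * √(4 * Real.pi * T₀)) →
      Real.pi * Ts ^ 2 + d + T / 2 * γ ≤ Real.pi * T ^ 2 + T / 4 * (ϖ * √(4 * Real.pi * T)) →
      En ≤ 4 * Real.pi * (T - T₀) → 4 * Real.pi * (T - T₀) ≤ Θ →
      Θ ≤ ε * (Y + c * √d₀ + c * d₀) + s * (c + d₀) →
      ε * (X - c * √d - c * √((ε * c + s) * En)) - c / T * ((ε * c + s) * En) ≤ γ →
      Ts + η ≤ T₀ := by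
  have hp := Real.pi_pos
  obtain ⟨K1, k1, hK1⟩ := err hT
  generalize Real.pi = p at *
  obtain ⟨K2, e2⟩ : ∃ K, K = 3 * p * Ts + K1 := ⟨_, rfl⟩
  obtain ⟨K3, e3⟩ : ∃ K, K = K1 / (p * Ts) := ⟨_, rfl⟩
  have k2 : 0 ≤ K2 := by rw [e2]; positivity
  have k3 : 0 ≤ K3 := by rw [e3]; positivity
  obtain ⟨K4, e4⟩ : ∃ K, K = c * √K2 + c * K2 + c + K2 := ⟨_, rfl⟩
  have k4 : 0 ≤ K4 := by rw [e4]; positivity
  obtain ⟨K6, e6⟩ : ∃ K, K = 1 + (Y + K4) / (4 * p) := ⟨_, rfl⟩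
  have k6 : 1 ≤ K6 := by
    rw [e6]
    exact le_add_of_nonneg_right (by positivity)
  obtain ⟨K7, e7⟩ : ∃ K, K = 2 * p * Ts + Ts * K4 / 2 + p * K6 ^ 2 + K1 := ⟨_, rfl⟩
  have k7 : 0 ≤ K7 := by rw [e7]; positivity
  obtain ⟨K8, e8⟩ : ∃ K, K = Ts * Y / 2 + K7 := ⟨_, rfl⟩
  obtain ⟨K9, e9⟩ : ∃ K, K = (c + 1) * (Y + K4) := ⟨_, rfl⟩
  have k9 : 0 ≤ K9 := by rw [e9]; positivity
  obtain ⟨K10, e10⟩ : ∃ K, K = c * √K8 + c * √K9 + c / (Ts / 2) * K9 := ⟨_, rfl⟩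
  have k10 : 0 ≤ K10 := by rw [e10]; positivity
  have hX : 0 ≤ X := hY.trans hXY.le
  obtain ⟨K11, e11⟩ : ∃ K, K = K3 * X / 2 + Ts * K10 + K7 := ⟨_, rfl⟩
  have k11 : 0 ≤ K11 := by rw [e11]; positivity
  obtain ⟨u, u0, u1, hu⟩ := small (K := K6 + K3 + K11) (a := min (Ts / 2) (Ts * (X - Y) / 2))
    (by linarith) (lt_min (by positivity) (by have := sub_pos.mpr hXY; positivity))
  obtain ⟨hu1, hu2⟩ := lt_min_iff.mp hu
  obtain ⟨e, he⟩ : ∃ e, e = u ^ 2 := ⟨_, rfl⟩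
  have e0 : 0 < e := by rw [he]; positivity
  have eu : e ≤ u := by rw [he]; exact pow_le_of_le_one u0.le u1 two_ne_zero
  have e1 : e ≤ 1 := eu.trans u1
  have ee : e ^ 2 ≤ e := pow_le_of_le_one e0.le e1 two_ne_zero
  have k6' : 0 ≤ K6 := zero_le_one.trans k6
  have m3 := mul_nonneg k3 u0.le
  have m6 := mul_nonneg k6' u0.le
  have m11 := mul_nonneg k11 u0.le
  have a6 : K6 * e ≤ Ts := by
    linarith only [m3, m11, hu1, hT, mul_le_mul_of_nonneg_left eu k6']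
  have a3 : K3 * e ^ 2 ≤ Ts / 2 := by
    linarith only [mul_le_mul_of_nonneg_left (ee.trans eu) k3, m6, m11, hu1]
  have a11 : K11 * u < Ts * (X - Y) / 2 := by linarith only [m3, m6, hu2]
  have a0 : e ^ 2 ≤ Ts := by
    linarith only [ee, a6, mul_le_mul_of_nonneg_right k6 e0.le]
  refine ⟨e, e ^ 2, e ^ 2, e ^ 2, e0, by positivity, by positivity, by positivity, ?_⟩
  intro T₀ T d₀ d En γ Θ t0 t1 hd0 hd hE hγ h1 h2 h3 h4 h5 h6
  by_contra hcon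
  have hlt := not_le.mp hcon
  obtain ⟨b1, b2⟩ := first hp hT k1 t0 hd0 a0 hlt
    (h1.trans (add_le_add le_rfl (hK1 T₀ _ t0 (by linarith only [hlt, a0]) (sq_nonneg e))))
  rw [← e2] at b1
  rw [← e3] at b2
  have b3 := sqrt_le e0.le b1
  have b4 : Θ ≤ e * Y + K4 * e ^ 2 := by
    have c1 : d₀ ≤ K2 * e := b1.trans (mul_le_mul_of_nonneg_left ee k2)
    have c2 : d₀ ≤ K2 := c1.trans (mul_le_of_le_one_right k2 e1)
    have c3 : e * (Y + c * √d₀ + c * d₀) ≤ e * (Y + c * (√K2 * e) + c * (K2 * e)) := by gcongr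
    have c4 : e ^ 2 * (c + d₀) ≤ e ^ 2 * (c + K2) := by gcongr
    rw [e4]
    linarith only [c3, c4, h5]
  have b5 : Θ ≤ (Y + K4) * e := by linarith only [b4, mul_le_mul_of_nonneg_left ee k4]
  have b6 : T₀ ≤ T := by
    by_contra h
    linarith only [mul_pos hp (sub_pos.mpr (not_le.mp h)), hE, h3]
  obtain ⟨δ, hδ⟩ : ∃ δ, δ = e ^ 2 + Θ / (4 * p) := ⟨_, rfl⟩
  have b7 : T ≤ Ts + δ := by
    have c1 : T - T₀ ≤ Θ / (4 * p) := (le_div_iff₀ (by positivity)).mpr (by linarith only [h4])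
    linarith only [c1, hδ, hlt]
  have hΘ : 0 ≤ Θ := hE.trans (h3.trans h4)
  have d0 : 0 ≤ δ := by rw [hδ]; positivity
  have b8 : δ ≤ K6 * e := by
    have c1 : Θ / (4 * p) ≤ (Y + K4) * e / (4 * p) := by gcongr
    have c2 : K6 * e = e + (Y + K4) * e / (4 * p) := by rw [e6]; ring
    linarith only [c1, c2, hδ, ee]
  have b9 : T ≤ 2 * Ts := by linarith only [b7, b8, a6]
  have b10 : d + T / 2 * γ ≤ Ts * Y / 2 * e + K7 * e ^ 2 := by
    have c1 := hK1 T _ t1 b9 (sq_nonneg e)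
    have c2 : T ^ 2 ≤ (Ts + δ) ^ 2 := by gcongr
    have c3 : δ ^ 2 ≤ (K6 * e) ^ 2 := by gcongr
    have c4 : 2 * p * Ts * δ = 2 * p * Ts * e ^ 2 + Ts * Θ / 2 := by
      rw [hδ]
      field_simp
      ring
    have c5 := mul_le_mul_of_nonneg_left c2 hp.le
    have c6 := mul_le_mul_of_nonneg_left c3 hp.le
    have c7 := mul_le_mul_of_nonneg_left b4 hT.le
    rw [e7]
    linarith only [c1, c4, c5, c6, c7, h2]
  have b11 : d ≤ K8 * u ^ 2 := by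
    have c1 : 0 ≤ T / 2 * γ := by positivity
    have c2 := mul_le_mul_of_nonneg_left ee k7
    rw [e8, ← he]
    linarith only [c1, c2, b10]
  have b12 := sqrt_le u0.le b11
  have b13 : (e * c + e ^ 2) * En ≤ K9 * e ^ 2 := by
    have c1 : e * c + e ^ 2 ≤ (c + 1) * e := by linarith only [ee]
    calc (e * c + e ^ 2) * En ≤ ((c + 1) * e) * ((Y + K4) * e) :=
          mul_le_mul c1 (h3.trans (h4.trans b5)) hE (by positivity)
      _ = _ := by rw [e9]; ring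
  have b14 : √((e * c + e ^ 2) * En) ≤ √K9 * u :=
    (sqrt_le e0.le b13).trans (mul_le_mul_of_nonneg_left eu (Real.sqrt_nonneg _))
  have b15 : c / T * ((e * c + e ^ 2) * En) ≤ c / (Ts / 2) * (K9 * (e * u)) := by
    refine mul_le_mul
      (div_le_div_of_nonneg_left hc (by positivity) (by linarith only [b2, b6, a3]))
      (b13.trans (mul_le_mul_of_nonneg_left ?_ k9)) (by positivity) (by positivity)
    linarith only [mul_le_mul_of_nonneg_left eu e0.le]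
  have b16 : e * X - K10 * (e * u) ≤ γ := by
    have c1 : e * (X - c * (√K8 * u) - c * (√K9 * u)) ≤
        e * (X - c * √d - c * √((e * c + e ^ 2) * En)) := by gcongr
    rw [e10]
    linarith only [c1, b15, h6]
  have b17 : (Ts - K3 * e ^ 2) / 2 * (e * X) - Ts * (K10 * (e * u)) ≤ T / 2 * γ := by
    have c1 := mul_le_mul_of_nonneg_left b16 (by positivity : 0 ≤ T / 2)
    have c2 : (Ts - K3 * e ^ 2) / 2 * (e * X) ≤ T / 2 * (e * X) :=
      mul_le_mul_of_nonneg_right (by linarith only [b2, b6]) (by positivity)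
    have c3 : T / 2 * (K10 * (e * u)) ≤ Ts * (K10 * (e * u)) :=
      mul_le_mul_of_nonneg_right (by linarith only [b9]) (by positivity)
    linarith only [c1, c2, c3]
  have b18 : e * (Ts * (X - Y) / 2) ≤ e * (K11 * u) := by
    have c1 : K3 * X / 2 * e * e ^ 2 ≤ K3 * X / 2 * e * u :=
      mul_le_mul_of_nonneg_left (ee.trans eu) (by positivity)
    have c2 : K7 * e * e ≤ K7 * e * u := mul_le_mul_of_nonneg_left eu (by positivity)
    rw [e11]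
    linarith only [c1, c2, b17, b10, hd]
  exact absurd (le_of_mul_le_mul_left b18 e0) (not_le.mpr a11)

end Pool.Agent.P.MP_56a1cd_gt
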