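import Pool.Agent.P.MP_56a1cd_gt.ChartI

namespace Pool.Agent.P.MP_56a1cd_gt

open MeasureTheory Matrix Set Filter Topology
open scoped ContDiff ENNReal

variable {m n : ℕ}

/-! PLAN. The transition maps are charts (`isChart_of_leftInverse`). For `μ_apply`: the pieces are
measurable, disjoint and cover; `μ B = ∑ j, ∫⁻ over e j '' (B ∩ piece j)`, and for `B ⊆ source i` each term is
transported to the chart `i` by `IsChart.lintegral` (with `f = 1`) and `compat`. This says
`μ.restrict (source i) = map (e i).symm ((volume.restrict target).withDensity vol)`, from which the integral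
formulas follow (`MeasurableEmbedding` of the restricted map, or `integral_map` with
`ContinuousOn.measurableEmbedding`; compare `Pool/Agent/P/MP_07ee5e_gt/Param.lean`). Finiteness: every point has
a neighbourhood of finite measure (preimage of a small closed ball), `IsCompact.measure_lt_top`-type argument. -/

namespace AtAAux

variable {S : Type} [TopologicalSpace S] [MeasurableSpace S] [BorelSpace S]
  (e : OpenPartialHomeomorph S (E 2)) {D : Set S}

theorem meas_image (hD : MeasurableSet D) (hs : D ⊆ e.source) : MeasurableSet (e '' D) := by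
  have h : e '' D = e.source.domRestrict e '' (Subtype.val ⁻¹' D) := by
    ext y
    exact ⟨fun ⟨x, hx, h⟩ => ⟨⟨x, hs hx⟩, hx, h⟩, fun ⟨x, hx, h⟩ => ⟨x.1, hx, h⟩⟩
  rw [h]
  exact e.isOpenEmbedding_restrict.measurableEmbedding.measurableSet_image.2
    (measurable_subtype_coe hD)

omit [MeasurableSpace S] [BorelSpace S] in
theorem image_sub (hs : D ⊆ e.source) : e '' D ⊆ e.target := by
  rintro _ ⟨x, hx, rfl⟩
  exact e.map_source (hs hx)

theorem aem_symm (hD : MeasurableSet D) (hs : D ⊆ e.source) :
    AEMeasurable e.symm (volume.restrict (e '' D)) :=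
  (e.continuousOn_symm.mono (image_sub e hs)).aemeasurable (meas_image e hD hs)

theorem map_wd (hD : MeasurableSet D) (hs : D ⊆ e.source) (ρ : E 2 → ℝ≥0∞) {B : Set S}
    (hB : MeasurableSet B) :
    Measure.map e.symm ((volume.restrict (e '' D)).withDensity ρ) B =
      ∫⁻ y in e '' (B ∩ D), ρ y := by
  have h1 := aem_symm e hD hs
  have h2 : e.symm ⁻¹' B ∩ e '' D = e '' (B ∩ D) := by
    ext y
    constructor
    · rintro ⟨h, x, hx, rfl⟩
      rw [mem_preimage, e.left_inv (hs hx)] at h
      exact ⟨x, ⟨h, hx⟩, rfl⟩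
    · rintro ⟨x, hx, rfl⟩
      refine ⟨?_, x, hx.2, rfl⟩
      rw [mem_preimage, e.left_inv (hs hx.2)]
      exact hx.1
  rw [Measure.map_apply_of_aemeasurable (h1.mono_ac (withDensity_absolutelyContinuous _ _)) hB,
    withDensity_apply₀ _ (h1.nullMeasurable hB),
    Measure.restrict_restrict₀ (h1.nullMeasurable hB), h2]

/-- Both the measure on the plane and its image come from a measure on the target. -/
theorem exists_sub (hD : MeasurableSet D) (hs : D ⊆ e.source) (ρ : E 2 → ℝ≥0∞) :
    ∃ κ : Measure e.target, Measure.map Subtype.val κ = (volume.restrict (e '' D)).withDensity ρ ∧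
      Measure.map (e.target.domRestrict e.symm) κ =
        Measure.map e.symm ((volume.restrict (e '' D)).withDensity ρ) := by
  have h1 : Measure.map Subtype.val (Measure.comap (Subtype.val : e.target → E 2)
      ((volume.restrict (e '' D)).withDensity ρ)) = (volume.restrict (e '' D)).withDensity ρ := by
    rw [map_comap_subtype_coe e.open_target.measurableSet,
      restrict_withDensity e.open_target.measurableSet,
      Measure.restrict_restrict e.open_target.measurableSet,
      inter_eq_self_of_subset_right (image_sub e hs)]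
  refine ⟨_, h1, ?_⟩
  have h2 := (aem_symm e hD hs).mono_ac (withDensity_absolutelyContinuous _ ρ)
  rw [← h1] at h2
  conv_rhs => rw [← h1]
  exact (h2.map_map_of_aemeasurable measurable_subtype_coe.aemeasurable).symm

theorem emb_symm : MeasurableEmbedding (e.target.domRestrict e.symm) :=
  e.symm.isOpenEmbedding_restrict.measurableEmbedding

omit [MeasurableSpace S] [BorelSpace S] in
theorem emb_val : MeasurableEmbedding (Subtype.val : e.target → E 2) :=
  MeasurableEmbedding.subtype_coe e.open_target.measurableSet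

theorem meas_piece (A : Atlas2 S) (j : Fin A.k) : MeasurableSet (A.piece j) :=
  (A.e j).open_source.measurableSet.diff
    (isOpen_biUnion fun l _ => (A.e l).open_source).measurableSet

omit [MeasurableSpace S] [BorelSpace S] in
theorem disj_piece (A : Atlas2 S) : Pairwise (Function.onFun Disjoint A.piece) := by
  have key : ∀ i j, i < j → Disjoint (A.piece i) (A.piece j) := fun i j h =>
    disjoint_left.2 fun x hx hx' => hx'.2 (mem_biUnion (s := {l | l < j}) h hx.1)
  intro i j h
  rcases lt_or_gt_of_ne h with h | h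
  · exact key i j h
  · exact (key j i h).symm

omit [MeasurableSpace S] [BorelSpace S] in
theorem cover_piece (A : Atlas2 S) (x : S) : ∃ j, x ∈ A.piece j := by
  obtain ⟨j, hj, h⟩ := wellFounded_lt.has_min {j | x ∈ (A.e j).source} (A.cover x)
  refine ⟨j, hj, fun hx => ?_⟩
  obtain ⟨l, hl, hl'⟩ := mem_iUnion₂.1 hx
  exact h l hl' hl

theorem aem_vol (A : Atlas2 S) (i : Fin A.k) (hD : MeasurableSet D) (hs : D ⊆ (A.e i).source) :
    AEMeasurable (fun y => ENNReal.ofReal (vol (A.γ i) y)) (volume.restrict (A.e i '' D)) :=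
  (((A.met i).sm_vol.continuousOn.mono (image_sub _ hs)).aemeasurable
    (meas_image _ hD hs)).ennreal_ofReal

end AtAAux

open AtAAux

namespace Atlas2

variable {S : Type} [TopologicalSpace S] (A : Atlas2 S)

theorem mem_ch (x : S) : x ∈ (A.e (A.ch x)).source := Classical.choose_spec (A.cover x)

theorem isOpen_dom (i : Fin A.k) {O : Set S} (hO : IsOpen O) :
    IsOpen ((A.e i).target ∩ (A.e i).symm ⁻¹' O) := (A.e i).isOpen_inter_preimage_symm hO

theorem isChart_trans (i j : Fin A.k) :
    IsChart (fun y => A.e j ((A.e i).symm y)) ((A.e i).target ∩ (A.e i).symm ⁻¹' (A.e j).source) :=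
  isChart_of_leftInverse (A.isOpen_dom i (A.e j).open_source) (A.trans_sm i j) (A.trans_sm j i)
    (fun y hy => ⟨(A.e j).map_source hy.2, by
      rw [mem_preimage, (A.e j).left_inv hy.2]
      exact (A.e i).map_target hy.1⟩)
    fun y hy => by rw [(A.e j).left_inv hy.2, (A.e i).right_inv hy.1]

variable [MeasurableSpace S] [BorelSpace S] [T2Space S]

theorem μ_apply (i : Fin A.k) {B : Set S} (hB : MeasurableSet B) (hs : B ⊆ (A.e i).source) :
    A.μ B = ∫⁻ y in A.e i '' B, ENNReal.ofReal (vol (A.γ i) y) := by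
  have hm : ∀ j, MeasurableSet (A.e i '' (B ∩ A.piece j)) := fun j =>
    meas_image _ (hB.inter (meas_piece A j)) (inter_subset_left.trans hs)
  have h1 : ∀ j, ∫⁻ y in A.e j '' (B ∩ A.piece j), ENNReal.ofReal (vol (A.γ j) y) =
      ∫⁻ y in A.e i '' (B ∩ A.piece j), ENNReal.ofReal (vol (A.γ i) y) := by
    intro j
    have h2 : A.e i '' (B ∩ A.piece j) ⊆ (A.e i).target ∩ (A.e i).symm ⁻¹' (A.e j).source := by
      rintro _ ⟨x, hx, rfl⟩
      refine ⟨(A.e i).map_source (hs hx.1), ?_⟩
      rw [mem_preimage, (A.e i).left_inv (hs hx.1)]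
      exact hx.2.1
    have h3 : A.e j '' (B ∩ A.piece j) =
        (fun y => A.e j ((A.e i).symm y)) '' (A.e i '' (B ∩ A.piece j)) := by
      rw [image_image]
      exact image_congr fun x hx => by rw [(A.e i).left_inv (hs hx.1)]
    have h4 := (A.isChart_trans i j).lintegral (A.γ j) (hm j) h2 fun _ => 1
    simp only [one_mul] at h4
    rw [h3, h4]
    refine setLIntegral_congr_fun (hm j) fun y hy => ?_
    simp only [vol, A.compat i j y (h2 hy)]
  have h5 : A.e i '' B = ⋃ j, A.e i '' (B ∩ A.piece j) := by
    rw [← image_iUnion, ← inter_iUnion, eq_univ_of_forall fun x => mem_iUnion.2 (cover_piece A x),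
      inter_univ]
  have h6 : Pairwise (Function.onFun Disjoint fun j => A.e i '' (B ∩ A.piece j)) := fun j l h =>
    disjoint_image_image fun x hx z hz hxz => disjoint_left.1 (disj_piece A h) hx.2
      ((A.e i).injOn (hs hx.1) (hs hz.1) hxz ▸ hz.2)
  rw [h5, lintegral_iUnion hm h6, tsum_fintype, Atlas2.μ, Measure.finsetSum_apply]
  refine Finset.sum_congr rfl fun j _ => ?_
  rw [map_wd _ (meas_piece A j) sdiff_subset _ hB, h1]

private theorem restrict_eq (i : Fin A.k) {B : Set S} (hB : MeasurableSet B)
    (hs : B ⊆ (A.e i).source) : A.μ.restrict B = Measure.map (A.e i).symm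
      ((volume.restrict (A.e i '' B)).withDensity fun y => ENNReal.ofReal (vol (A.γ i) y)) := by
  ext s h
  rw [Measure.restrict_apply h, A.μ_apply i (h.inter hB) (inter_subset_right.trans hs),
    map_wd _ hB hs _ h]

theorem lintegral_chart (i : Fin A.k) {B : Set S} (hB : MeasurableSet B) (hs : B ⊆ (A.e i).source)
    (f : S → ℝ≥0∞) :
    ∫⁻ x in B, f x ∂A.μ = ∫⁻ y in A.e i '' B, f ((A.e i).symm y) * ENNReal.ofReal (vol (A.γ i) y) := by
  obtain ⟨κ, h1, h2⟩ := exists_sub (A.e i) hB hs fun y => ENNReal.ofReal (vol (A.γ i) y)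
  have h3 := lintegral_withDensity_eq_lintegral_mul_non_measurable₀ _ (aem_vol A i hB hs)
    (Eventually.of_forall fun _ => ENNReal.ofReal_lt_top) fun y => f ((A.e i).symm y)
  rw [← h1, (emb_val _).lintegral_map] at h3
  rw [A.restrict_eq i hB hs, ← h2, (emb_symm _).lintegral_map]
  exact h3.trans (lintegral_congr fun y => mul_comm _ _)

theorem integral_chart (i : Fin A.k) {B : Set S} (hB : MeasurableSet B) (hs : B ⊆ (A.e i).source)
    (f : S → ℝ) :
    (IntegrableOn f B A.μ ↔
      IntegrableOn (fun y => f ((A.e i).symm y) * vol (A.γ i) y) (A.e i '' B)) ∧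
    ∫ x in B, f x ∂A.μ = ∫ y in A.e i '' B, f ((A.e i).symm y) * vol (A.γ i) y := by
  obtain ⟨κ, h1, h2⟩ := exists_sub (A.e i) hB hs fun y => ENNReal.ofReal (vol (A.γ i) y)
  have e : (fun y => (ENNReal.ofReal (vol (A.γ i) y)).toReal • f ((A.e i).symm y)) =
      fun y => f ((A.e i).symm y) * vol (A.γ i) y :=
    funext fun y => by rw [ENNReal.toReal_ofReal (vol_nonneg _ _), smul_eq_mul, mul_comm]
  have h3 := integrable_withDensity_iff_integrable_smul₀' (aem_vol A i hB hs)
    (Eventually.of_forall fun _ => ENNReal.ofReal_lt_top) (g := fun y => f ((A.e i).symm y))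
  have h4 := integral_withDensity_eq_integral_toReal_smul₀ (aem_vol A i hB hs)
    (Eventually.of_forall fun _ => ENNReal.ofReal_lt_top) fun y => f ((A.e i).symm y)
  have h5 : A.μ.restrict B = _ := (A.restrict_eq i hB hs).trans h2.symm
  refine ⟨?_, ?_⟩
  · have h6 : Integrable f (A.μ.restrict B) ↔ Integrable (fun y => f ((A.e i).symm y))
        ((volume.restrict (A.e i '' B)).withDensity fun y => ENNReal.ofReal (vol (A.γ i) y)) :=
      h5.symm ▸ h1 ▸ ((emb_symm _).integrable_map_iff.trans
        ((emb_val (A.e i)).integrable_map_iff (g := fun y => f ((A.e i).symm y))).symm)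
    exact h6.trans (h3.trans ⟨fun h => h.congr (Eventually.of_forall (congrFun e)),
      fun h => h.congr (Eventually.of_forall (congrFun e.symm))⟩)
  · rw [← h1, (emb_val _).integral_map, e] at h4
    rw [h5, (emb_symm _).integral_map]
    exact h4

theorem measurableSet_image (i : Fin A.k) {B : Set S} (hB : MeasurableSet B)
    (hs : B ⊆ (A.e i).source) : MeasurableSet (A.e i '' B) := meas_image _ hB hs

theorem isFiniteMeasure_μ [CompactSpace S] : IsFiniteMeasure A.μ := by
  have : IsLocallyFiniteMeasure A.μ := by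
    refine ⟨fun x => ?_⟩
    obtain ⟨K, hK, h1, h2⟩ := local_compact_nhds
      ((A.e (A.ch x)).open_target.mem_nhds ((A.e (A.ch x)).map_source (A.mem_ch x)))
    have hU := (A.e (A.ch x)).isOpen_inter_preimage (isOpen_interior (s := K))
    refine ⟨_, hU.mem_nhds ⟨A.mem_ch x, mem_interior_iff_mem_nhds.2 hK⟩, ?_⟩
    rw [A.μ_apply (A.ch x) hU.measurableSet inter_subset_left]
    refine (lintegral_mono_set (t := K) ?_).trans_lt
      (((A.met _).sm_vol.continuousOn.mono h1).integrableOn_compact h2).lintegral_lt_top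
    rintro _ ⟨z, hz, rfl⟩
    exact interior_subset hz.2
  infer_instance

theorem μ_ne_zero {U : Set S} (hU : IsOpen U) (hne : U.Nonempty) : A.μ U ≠ 0 := by
  obtain ⟨x, hx⟩ := hne
  have hV : IsOpen (U ∩ (A.e (A.ch x)).source) := hU.inter (A.e _).open_source
  intro h0
  have h1 := measure_mono_null (inter_subset_left (t := (A.e (A.ch x)).source)) h0
  rw [A.μ_apply (A.ch x) hV.measurableSet inter_subset_right,
    lintegral_eq_zero_iff' (aem_vol A _ hV.measurableSet inter_subset_right)] at h1
  have h2 : IsOpen (A.e (A.ch x) '' (U ∩ (A.e (A.ch x)).source)) :=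
    (A.e _).isOpen_image_of_subset_source hV inter_subset_right
  have h3 : ∀ᵐ y : E 2, y ∉ A.e (A.ch x) '' (U ∩ (A.e (A.ch x)).source) := by
    filter_upwards [(ae_restrict_iff' h2.measurableSet).1 h1] with y hy hy'
    exact (ENNReal.ofReal_pos.2
      ((A.met _).vol_pos (image_sub _ inter_subset_right hy'))).ne' (hy hy')
  exact h2.measure_ne_zero volume ⟨_, x, ⟨hx, A.mem_ch x⟩, rfl⟩ (measure_eq_zero_iff_ae_notMem.2 h3)

theorem μ_singleton (p : S) : A.μ {p} = 0 := by
  rw [A.μ_apply (A.ch p) (measurableSet_singleton p) (singleton_subset_iff.2 (A.mem_ch p)),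
    image_singleton]
  exact setLIntegral_measure_zero _ _ (measure_singleton _)

theorem integrable_of_continuous [CompactSpace S] {f : S → ℝ} (hf : Continuous f) :
    Integrable f A.μ := by
  have := A.isFiniteMeasure_μ
  exact integrableOn_univ.1 (hf.continuousOn.integrableOn_compact isCompact_univ)

end Atlas2

end Pool.Agent.P.MP_56a1cd_gt
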