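import Pool.Agent.P.MP_56a1cd_gt.Compat

namespace Pool.Agent.P.MP_56a1cd_gt

open MeasureTheory Matrix Set Filter Topology
open scoped ContDiff ENNReal

variable {m n : ℕ}

/-! The Bochner formula is proved with the vector field `v = grad f`: the Laplacian is the trace of
the covariant derivative of the gradient, and the contracted Ricci identity for `v` produces the
Ricci tensor. -/

namespace BochnerAux
variable {g : Met n} {U : Set (E n)} {f : E n → ℝ} {x : E n}

theorem chr_trace (hg : IsMet g U) (hx : x ∈ U) (i : Fin n) :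
    ∑ k, chr g k i k x = (1 / 2) * ∑ k, ∑ l, (g x)⁻¹ k l * pd i (fun y => g y k l) x := by
  have h : ∑ k, ∑ l, (g x)⁻¹ k l * pd k (fun y => g y i l) x =
      ∑ k, ∑ l, (g x)⁻¹ k l * pd l (fun y => g y i k) x := by
    rw [Finset.sum_comm]
    exact Finset.sum_congr rfl fun k _ => Finset.sum_congr rfl fun l _ => by
      rw [hg.inv_symm hx l k]
  simp only [chr, mul_add, mul_sub, Finset.sum_add_distrib, Finset.sum_sub_distrib,
    ← Finset.mul_sum]
  rw [h]
  ring

theorem inv_deriv (hg : IsMet g U) (hx : x ∈ U) (j : Fin n) :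
    (Matrix.of fun a b => pd j (fun y => (g y)⁻¹ a b) x) =
      -((g x)⁻¹ * (Matrix.of fun a b => pd j (fun y => g y a b) x) * (g x)⁻¹) := by
  have h1 : (Matrix.of fun a b => pd j (fun y => (g y)⁻¹ a b) x) * g x +
      (g x)⁻¹ * (Matrix.of fun a b => pd j (fun y => g y a b) x) = 0 := by
    ext a b
    have h := pd_congr_on hg.opn (f := fun y => ∑ k, (g y)⁻¹ a k * g y k b)
      (h := fun _ => if a = b then 1 else 0) (fun y hy => hg.inv_mul hy a b) hx j
    rw [pd_const, pd_sum _ (fun k _ => (sm_da hg.opn (hg.sm_inv a k) hx).fun_mul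
      (sm_da hg.opn (hg.sm k b) hx))] at h
    simp only [pd_mul (sm_da hg.opn (hg.sm_inv a _) hx) (sm_da hg.opn (hg.sm _ b) hx),
      Finset.sum_add_distrib] at h
    simpa [Matrix.mul_apply] using h
  have h2 : g x * (g x)⁻¹ = 1 := by
    ext a b
    rw [Matrix.mul_apply, hg.mul_inv hx, Matrix.one_apply]
  have h3 := congrArg (· * (g x)⁻¹) h1
  simp only [Matrix.add_mul, Matrix.mul_assoc _ (g x), h2, Matrix.mul_one, Matrix.zero_mul] at h3
  exact eq_neg_of_add_eq_zero_left h3

theorem pd_chr_trace (hg : IsMet g U) (hx : x ∈ U) (i j : Fin n) :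
    ∑ k, pd j (chr g k i k) x = (1 / 2) * (∑ k, ∑ l, pd j (fun y => (g y)⁻¹ k l) x *
      pd i (fun y => g y k l) x + ∑ k, ∑ l, (g x)⁻¹ k l * pd j (pd i (fun y => g y k l)) x) := by
  have d1 := fun k l => sm_da hg.opn (hg.sm_inv k l) hx
  have d2 := fun k l => sm_da hg.opn (sm_pd hg.opn (hg.sm k l) i) hx
  rw [← pd_sum _ (fun k _ => sm_da hg.opn (hg.sm_chr k i k) hx),
    pd_congr_on hg.opn (fun y hy => chr_trace hg hy i) hx, pd_const_mul,
    pd_sum _ (fun k _ => DifferentiableAt.fun_sum fun l _ => (d1 k l).fun_mul (d2 k l))]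
  simp only [pd_sum _ (fun l _ => (d1 _ l).fun_mul (d2 _ l)), pd_mul (d1 _ _) (d2 _ _),
    Finset.sum_add_distrib]

theorem pd_chr_trace_symm (hg : IsMet g U) (hx : x ∈ U) (i j : Fin n) :
    ∑ k, pd j (chr g k i k) x = ∑ k, pd i (chr g k j k) x := by
  have key : ∀ i j : Fin n, ∑ k, ∑ l, pd j (fun y => (g y)⁻¹ k l) x * pd i (fun y => g y k l) x =
      -Matrix.trace ((g x)⁻¹ * (Matrix.of fun a b => pd j (fun y => g y a b) x) *
        ((g x)⁻¹ * (Matrix.of fun a b => pd i (fun y => g y a b) x))) := by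
    intro i j
    rw [← Matrix.mul_assoc, ← Matrix.trace_neg, ← Matrix.neg_mul, ← inv_deriv hg hx j]
    simp only [Matrix.trace, Matrix.diag, Matrix.mul_apply, Matrix.of_apply]
    exact Finset.sum_congr rfl fun k _ => Finset.sum_congr rfl fun l _ => by
      rw [pd_congr_on hg.opn (fun y hy => hg.symm hy k l) hx i]
  rw [pd_chr_trace hg hx, pd_chr_trace hg hx, key, key, Matrix.trace_mul_comm]
  simp only [pd_comm hg.opn (hg.sm _ _) hx i j]

/-- the covariant derivative of the gradient -/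
noncomputable def cd (g : Met n) (f : E n → ℝ) (k i : Fin n) (x : E n) : ℝ :=
  pd i (gr g f k) x + ∑ a, chr g k i a x * gr g f a x

theorem sm_cd (hg : IsMet g U) (hf : Sm U f) (k i : Fin n) : Sm U (cd g f k i) :=
  (sm_pd hg.opn (hg.sm_gr hf k) i).add
    (ContDiffOn.sum fun a _ => (hg.sm_chr k i a).mul (hg.sm_gr hf a))

theorem cd_eq (hg : IsMet g U) (hf : Sm U f) (hx : x ∈ U) (k i : Fin n) :
    cd g f k i x = ∑ a, (g x)⁻¹ k a * hess g f i a x := by
  have d1 := fun l => sm_da hg.opn (hg.sm_inv k l) hx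
  have d2 := fun l => sm_da hg.opn (sm_pd hg.opn hf l) hx
  have h1 : pd i (gr g f k) x = ∑ j, (pd i (fun y => (g y)⁻¹ k j) x * pd j f x +
      (g x)⁻¹ k j * pd i (pd j f) x) := by
    rw [show gr g f k = fun y => ∑ j, (g y)⁻¹ k j * pd j f y from rfl,
      pd_sum _ (fun l _ => (d1 l).fun_mul (d2 l))]
    simp only [pd_mul (d1 _) (d2 _)]
  have h2 : ∑ j, (∑ a, chr g k i a x * (g x)⁻¹ a j) * pd j f x =
      ∑ a, chr g k i a x * gr g f a x := by
    simp only [gr, Finset.sum_mul, Finset.mul_sum, mul_assoc]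
    rw [Finset.sum_comm]
  have h3 : ∑ j, (∑ a, chr g j i a x * (g x)⁻¹ k a) * pd j f x =
      ∑ a, (g x)⁻¹ k a * ∑ j, chr g j i a x * pd j f x := by
    simp only [Finset.sum_mul, Finset.mul_sum]
    rw [Finset.sum_comm]
    exact Finset.sum_congr rfl fun a _ => Finset.sum_congr rfl fun j _ => by ring
  rw [cd, h1]
  simp only [pd_inv hg hx, hess, Finset.sum_add_distrib, neg_mul, add_mul, mul_sub,
    Finset.sum_sub_distrib, Finset.sum_neg_distrib, h2, h3]
  ring

theorem lap_eq (hg : IsMet g U) (hf : Sm U f) (hx : x ∈ U) : lap g f x = ∑ k, cd g f k k x := by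
  simp only [cd_eq hg hf hx, lap]

theorem gr_gam (hg : IsMet g U) (hf : Sm U f) (hx : x ∈ U) (k : Fin n) :
    gr g (gam g f f) k x = 2 * ∑ i, cd g f k i x * gr g f i x := by
  rw [gr]
  simp only [pd_gam hg hf hf hx, cd_eq hg hf hx, Finset.sum_mul, Finset.mul_sum]
  rw [Finset.sum_comm]
  exact Finset.sum_congr rfl fun i _ => Finset.sum_congr rfl fun j _ => by
    rw [hg.hess_symm hf hx i j]; ring

theorem pd_cd (hg : IsMet g U) (hf : Sm U f) (hx : x ∈ U) (j k i : Fin n) :
    pd j (cd g f k i) x = pd j (pd i (gr g f k)) x +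
      ∑ a, (pd j (chr g k i a) x * gr g f a x + chr g k i a x * pd j (gr g f a) x) := by
  have d1 := fun a => sm_da hg.opn (hg.sm_chr k i a) hx
  have d2 := fun a => sm_da hg.opn (hg.sm_gr hf a) hx
  rw [show cd g f k i = fun y => pd i (gr g f k) y + ∑ a, chr g k i a y * gr g f a y from rfl,
    pd_add (sm_da hg.opn (sm_pd hg.opn (hg.sm_gr hf k) i) hx)
      (DifferentiableAt.fun_sum fun a _ => (d1 a).fun_mul (d2 a)),
    pd_sum _ (fun a _ => (d1 a).fun_mul (d2 a))]
  simp only [pd_mul (d1 _) (d2 _)]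

/-- the contracted Ricci identity -/
theorem ricci_id (hg : IsMet g U) (hf : Sm U f) (hx : x ∈ U) (i : Fin n) :
    ∑ k, pd k (cd g f k i) x + ∑ k, ∑ a, chr g k k a x * cd g f a i x -
      ∑ k, ∑ a, cd g f k a x * chr g a k i x =
      pd i (lap g f) x + ∑ b, ric g b i x * gr g f b x := by
  have h0 : pd i (lap g f) x = ∑ k, pd i (cd g f k k) x := by
    rw [pd_congr_on hg.opn (fun y hy => lap_eq hg hf hy) hx,
      pd_sum _ (fun k _ => sm_da hg.opn (sm_cd hg hf k k) hx)]
  have s1 : ∀ j k a b, pd j (chr g k a b) x = pd j (chr g k b a) x := fun j k a b =>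
    pd_congr_on hg.opn (fun y hy => hg.chr_symm hy k a b) hx j
  have e1 : ∑ k, ∑ a, pd a (gr g f k) x * chr g a k i x =
      ∑ k, ∑ a, chr g k i a x * pd k (gr g f a) x := by
    rw [Finset.sum_comm]
    exact Finset.sum_congr rfl fun k _ => Finset.sum_congr rfl fun a _ => by
      rw [hg.chr_symm hx k a i, mul_comm]
  have e2 : ∑ b, (∑ k, pd k (chr g k b i) x) * gr g f b x =
      ∑ k, ∑ a, pd k (chr g k i a) x * gr g f a x := by
    simp only [Finset.sum_mul]
    rw [Finset.sum_comm]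
    exact Finset.sum_congr rfl fun k _ => Finset.sum_congr rfl fun a _ => by rw [s1 k k a i]
  have e3 : ∑ b, (∑ k, pd i (chr g k b k) x) * gr g f b x =
      ∑ k, ∑ a, pd i (chr g k k a) x * gr g f a x := by
    simp only [Finset.sum_mul]
    rw [Finset.sum_comm]
    exact Finset.sum_congr rfl fun k _ => Finset.sum_congr rfl fun a _ => by rw [s1 i k a k]
  have e4 : ∑ b, (∑ k, ∑ l, chr g k k l x * chr g l b i x) * gr g f b x =
      ∑ k, ∑ a, chr g k k a x * ∑ b, chr g a i b x * gr g f b x := by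
    simp only [Finset.sum_mul, Finset.mul_sum]
    rw [Finset.sum_comm]
    refine Finset.sum_congr rfl fun k _ => ?_
    rw [Finset.sum_comm]
    exact Finset.sum_congr rfl fun a _ => Finset.sum_congr rfl fun b _ => by
      rw [hg.chr_symm hx a b i, mul_assoc]
  have e5 : ∑ b, (∑ k, ∑ l, chr g k i l x * chr g l b k x) * gr g f b x =
      ∑ k, ∑ a, (∑ b, chr g k a b x * gr g f b x) * chr g a k i x := by
    simp only [Finset.sum_mul]
    rw [Finset.sum_comm]
    conv_rhs => rw [Finset.sum_comm]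
    refine Finset.sum_congr rfl fun a _ => ?_
    rw [Finset.sum_comm]
    exact Finset.sum_congr rfl fun k _ => Finset.sum_congr rfl fun b _ => by
      rw [hg.chr_symm hx a i k, hg.chr_symm hx k b a]; ring
  have e6 : ∑ k, pd k (pd i (gr g f k)) x = ∑ k, pd i (pd k (gr g f k)) x :=
    Finset.sum_congr rfl fun k _ => pd_comm hg.opn (hg.sm_gr hf k) hx k i
  rw [h0]
  simp only [pd_cd hg hf hx]
  simp only [cd, ric, mul_add, add_mul, sub_mul, Finset.sum_add_distrib, Finset.sum_sub_distrib,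
    e1, e2, e3, e4, e5, e6]
  ring

theorem hsq_eq (hg : IsMet g U) (hf : Sm U f) (hx : x ∈ U) :
    hsq g f x = ∑ k, ∑ i, cd g f k i x * cd g f i k x := by
  simp only [cd_eq hg hf hx, hsq, Finset.sum_mul_sum]
  rw [Finset.sum_comm (f := fun k i => ∑ a, ∑ b, _)]
  refine Finset.sum_congr rfl fun i _ => ?_
  rw [Finset.sum_comm (f := fun k a => ∑ b, _)]
  refine Finset.sum_congr rfl fun a _ => ?_
  rw [Finset.sum_comm]
  exact Finset.sum_congr rfl fun k _ => Finset.sum_congr rfl fun b _ => by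
    rw [hg.inv_symm hx b a, hg.hess_symm hf hx b i]; ring
end BochnerAux

section
variable {g : Met n} {U : Set (E n)} {f : E n → ℝ} {x : E n}

theorem ric_symm (hg : IsMet g U) (hx : x ∈ U) (i j : Fin n) : ric g i j x = ric g j i x := by
  have e1 : ∑ k, ∑ l, chr g k j l x * chr g l i k x = ∑ k, ∑ l, chr g k i l x * chr g l j k x := by
    rw [Finset.sum_comm]
    exact Finset.sum_congr rfl fun k _ => Finset.sum_congr rfl fun l _ => mul_comm _ _
  have e2 : ∀ k, pd k (chr g k i j) x = pd k (chr g k j i) x := fun k =>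
    pd_congr_on hg.opn (fun y hy => hg.chr_symm hy k i j) hx k
  simp only [ric, Finset.sum_add_distrib, Finset.sum_sub_distrib, e1, e2,
    BochnerAux.pd_chr_trace_symm hg hx i j, hg.chr_symm hx _ i j]

theorem bochner (hg : IsMet g U) (hf : Sm U f) (hx : x ∈ U) :
    lap g (gam g f f) x = 2 * (hsq g f x + gam g f (lap g f) x + ricq g f x) := by
  have d1 := fun k i => sm_da hg.opn (BochnerAux.sm_cd hg hf k i) hx
  have d2 := fun a => sm_da hg.opn (hg.sm_gr hf a) hx
  have h1 : ∀ k, pd k (gr g (gam g f f) k) x = 2 * ∑ i, (pd k (BochnerAux.cd g f k i) x *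
      gr g f i x + BochnerAux.cd g f k i x * pd k (gr g f i) x) := fun k => by
    rw [pd_congr_on hg.opn (fun y hy => BochnerAux.gr_gam hg hf hy k) hx, pd_const_mul,
      pd_sum _ (fun i _ => (d1 k i).fun_mul (d2 i))]
    simp only [pd_mul (d1 _ _) (d2 _)]
  have h2 : ∀ k i, pd k (gr g f i) x =
      BochnerAux.cd g f i k x - ∑ a, chr g i k a x * gr g f a x := fun k i => by
    rw [BochnerAux.cd]; ring
  have h3 : gam g f (lap g f) x + ricq g f x =
      ∑ i, (pd i (lap g f) x + ∑ b, ric g b i x * gr g f b x) * gr g f i x := by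
    rw [gam_comm (hg.pos x hx), gam_eq_gr, ricq, Finset.sum_comm]
    simp only [add_mul, Finset.sum_add_distrib, Finset.sum_mul]
  have e1 : ∑ i, (∑ k, pd k (BochnerAux.cd g f k i) x) * gr g f i x =
      ∑ k, ∑ i, pd k (BochnerAux.cd g f k i) x * gr g f i x := by
    simp only [Finset.sum_mul]
    rw [Finset.sum_comm]
  have e2 : ∑ i, (∑ k, ∑ a, chr g k k a x * BochnerAux.cd g f a i x) * gr g f i x =
      ∑ k, ∑ a, chr g k k a x * ∑ i, BochnerAux.cd g f a i x * gr g f i x := by
    simp only [Finset.sum_mul, Finset.mul_sum, mul_assoc]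
    rw [Finset.sum_comm]
    exact Finset.sum_congr rfl fun k _ => Finset.sum_comm
  have e3 : ∑ i, (∑ k, ∑ a, BochnerAux.cd g f k a x * chr g a k i x) * gr g f i x =
      ∑ k, ∑ i, BochnerAux.cd g f k i x * ∑ a, chr g i k a x * gr g f a x := by
    simp only [Finset.sum_mul, Finset.mul_sum, mul_assoc]
    rw [Finset.sum_comm]
    exact Finset.sum_congr rfl fun k _ => Finset.sum_comm
  have e4 : ∀ k a, chr g k k a x * (2 * ∑ i, BochnerAux.cd g f a i x * gr g f i x) =
      2 * (chr g k k a x * ∑ i, BochnerAux.cd g f a i x * gr g f i x) := fun k a => by ring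
  rw [add_assoc, h3, BochnerAux.hsq_eq hg hf hx, BochnerAux.lap_eq hg (hg.sm_gam hf hf) hx]
  simp only [← BochnerAux.ricci_id hg hf hx]
  simp only [show ∀ k, BochnerAux.cd g (gam g f f) k k x = pd k (gr g (gam g f f) k) x +
      ∑ a, chr g k k a x * gr g (gam g f f) a x from fun _ => rfl, h1, h2,
    BochnerAux.gr_gam hg hf hx, e4, add_mul, sub_mul, mul_sub, Finset.sum_add_distrib,
    Finset.sum_sub_distrib, ← Finset.mul_sum, e1, e2, e3]
  ring

end

end Pool.Agent.P.MP_56a1cd_gt
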