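import Pool.Agent.P.MP_56a1cd_gt.Compat

namespace Pool.Agent.P.MP_56a1cd_gt

open MeasureTheory Matrix Set Filter Topology
open scoped ContDiff ENNReal

variable {m n : ℕ}

/-! PLAN. `pd_det` (Jacobi formula): `det` is multilinear in the rows
(`Matrix.detRowAlternating`, or `Matrix.det_apply'` with the derivative of a finite product), so the
derivative is `∑ i, det (updateRow A i (A' i))`, and this is `∑ i j, A' i j * adjugate A j i`
(`Matrix.cramer_transpose_apply`, `Matrix.cramer_eq_adjugate_mulVec`, `Matrix.inv_def`).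
`pd_vol`: chain rule, `pd_met`, `chr_eq`. `vol_div`: product rule, `pd_vol`, `pd_inv`.
`integral_div_eq_zero`: extend by zero (`test_indicator`) and use
`integral_fderiv_eq_zero`-type lemmas of `Mathlib.Analysis.Calculus.LineDeriv.IntegrationByParts`
(for example `integral_mul_fderiv_eq_neg_fderiv_mul_of_integrable`), see also `int_D` in
`Pool/Agent/P/MP_d05bff_gt/Dense.lean`. -/

namespace IbpAux

theorem det_deriv (A D : Matrix (Fin n) (Fin n) ℝ) (hA : IsUnit A.det) :
    ∑ σ : Equiv.Perm (Fin n), ((Equiv.Perm.sign σ : ℤ) : ℝ) *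
        ∑ j, (∏ i ∈ Finset.univ.erase j, A (σ i) i) * D (σ j) j =
      A.det * ∑ j, ∑ a, A⁻¹ j a * D a j := by
  have h1 : ∀ j, (A.updateCol j fun a => D a j).det = A.det * ∑ a, A⁻¹ j a * D a j := by
    intro j
    rw [← Matrix.cramer_apply, ← Matrix.det_smul_inv_mulVec_eq_cramer A _ hA]
    simp [Matrix.mulVec, dotProduct]
  have h2 : ∀ j, (A.updateCol j fun a => D a j).det =
      ∑ σ : Equiv.Perm (Fin n), ((Equiv.Perm.sign σ : ℤ) : ℝ) *
        ((∏ i ∈ Finset.univ.erase j, A (σ i) i) * D (σ j) j) := by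
    intro j
    rw [Matrix.det_apply']
    refine Finset.sum_congr rfl fun σ _ => ?_
    congr 1
    rw [← Finset.prod_erase_mul _ _ (Finset.mem_univ j)]
    congr 1
    · refine Finset.prod_congr rfl fun i hi => ?_
      rw [Matrix.updateCol_ne (Finset.ne_of_mem_erase hi)]
    · rw [Matrix.updateCol_self]
  rw [Finset.mul_sum]
  simp_rw [← h1, h2, Finset.mul_sum]
  rw [Finset.sum_comm]

theorem pd_prod {ι : Type} [DecidableEq ι] (s : Finset ι) {F : ι → E n → ℝ} {x : E n}
    (hF : ∀ i ∈ s, DifferentiableAt ℝ (F i) x) (k : Fin n) :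
    pd k (fun y => ∏ i ∈ s, F i y) x = ∑ j ∈ s, (∏ i ∈ s.erase j, F i x) * pd k (F j) x := by
  unfold pd
  rw [fderiv_finsetProd hF]
  simp

theorem div_gr {g : Met n} {U : Set (E n)} {h : E n → ℝ} {x : E n} (hg : IsMet g U)
    (hh : Sm U h) (hx : x ∈ U) :
    ∑ i, pd i (gr g h i) x + ∑ k, (∑ i, chr g i i k x) * gr g h k x = lap g h x := by
  have h1 : ∀ i, pd i (gr g h i) x = ∑ j, (-(∑ a, (chr g i i a x * (g x)⁻¹ a j +
      chr g j i a x * (g x)⁻¹ i a)) * pd j h x + (g x)⁻¹ i j * pd i (pd j h) x) := by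
    intro i
    have e : gr g h i = fun y => ∑ j, (g y)⁻¹ i j * pd j h y := rfl
    rw [e, pd_sum (f := fun j y => (g y)⁻¹ i j * pd j h y) _ fun j _ =>
      (sm_da hg.opn (hg.sm_inv i j) hx).mul (sm_da hg.opn (sm_pd hg.opn hh j) hx)]
    refine Finset.sum_congr rfl fun j _ => ?_
    rw [pd_mul (sm_da hg.opn (hg.sm_inv i j) hx) (sm_da hg.opn (sm_pd hg.opn hh j) hx),
      pd_inv hg hx]
  have e1 : ∑ k, (∑ i, chr g i i k x) * gr g h k x =
      ∑ i, ∑ j, ∑ a, chr g i i a x * (g x)⁻¹ a j * pd j h x := by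
    simp only [Finset.sum_mul]
    rw [Finset.sum_comm]
    refine Finset.sum_congr rfl fun i _ => ?_
    simp only [gr, Finset.mul_sum]
    rw [Finset.sum_comm]
    refine Finset.sum_congr rfl fun j _ => Finset.sum_congr rfl fun a _ => by ring
  have e2 : lap g h x = ∑ i, ∑ j, (g x)⁻¹ i j * pd i (pd j h) x -
      ∑ i, ∑ j, ∑ a, chr g j i a x * (g x)⁻¹ i a * pd j h x := by
    simp only [lap, hess, mul_sub, Finset.sum_sub_distrib, Finset.mul_sum]
    congr 1
    refine Finset.sum_congr rfl fun i _ => ?_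
    rw [Finset.sum_comm]
    refine Finset.sum_congr rfl fun j _ => Finset.sum_congr rfl fun a _ => by ring
  rw [e1, e2]
  simp only [h1, neg_mul, Finset.sum_add_distrib, add_mul, Finset.sum_mul, Finset.sum_neg_distrib,
    neg_add_rev]
  ring

end IbpAux

open IbpAux

section
variable {g : Met n} {U : Set (E n)} {f h : E n → ℝ} {x : E n}

theorem pd_det (hg : IsMet g U) (hx : x ∈ U) (k : Fin n) :
    pd k (fun y => (g y).det) x =
      (g x).det * ∑ i, ∑ j, (g x)⁻¹ i j * pd k (fun y => g y i j) x := by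
  have hd : ∀ i j, DifferentiableAt ℝ (fun y => g y i j) x := fun i j =>
    sm_da hg.opn (hg.sm i j) hx
  have e : (fun y => (g y).det) = fun y => ∑ σ : Equiv.Perm (Fin n),
      ((Equiv.Perm.sign σ : ℤ) : ℝ) * ∏ i, g y (σ i) i := funext fun y => Matrix.det_apply' _
  have hu : IsUnit (g x).det := (hg.pos x hx).det_pos.ne'.isUnit
  rw [e, pd_sum _ fun σ _ => DifferentiableAt.const_mul
    (HasFDerivAt.finsetProd fun i _ => (hd (σ i) i).hasFDerivAt).differentiableAt _]
  have h2 := det_deriv (g x) (Matrix.of fun a b => pd k (fun y => g y a b) x) hu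
  simp only [Matrix.of_apply] at h2
  have h3 : ∑ i, ∑ j, (g x)⁻¹ i j * pd k (fun y => g y i j) x =
      ∑ j, ∑ a, (g x)⁻¹ j a * pd k (fun y => g y a j) x := by
    rw [Finset.sum_comm]
    exact Finset.sum_congr rfl fun j _ => Finset.sum_congr rfl fun a _ => by
      rw [hg.inv_symm hx a j]
  rw [h3, ← h2]
  refine Finset.sum_congr rfl fun σ _ => ?_
  rw [pd_const_mul, pd_prod _ fun i _ => hd (σ i) i]

theorem pd_vol (hg : IsMet g U) (hx : x ∈ U) (k : Fin n) :
    pd k (vol g) x = vol g x * ∑ i, chr g i i k x := by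
  have hp : 0 < (g x).det := (hg.pos x hx).det_pos
  have hd : DifferentiableAt ℝ (fun y => (g y).det) x := sm_da hg.opn (sm_det hg.sm) hx
  have h1 := pd_comp_real (f := fun y => (g y).det) hd (Real.hasDerivAt_sqrt hp.ne') k
  have e : vol g = fun y => √((g y).det) := rfl
  have h2 : ∑ i, chr g i i k x = ∑ i, ∑ j, (g x)⁻¹ i j * chr1 g k i j x := by
    refine Finset.sum_congr rfl fun i _ => ?_
    rw [chr_eq]
    exact Finset.sum_congr rfl fun j _ => by rw [hg.chr1_symm hx i k j]
  have h3 : ∑ i, ∑ j, (g x)⁻¹ i j * chr1 g k j i x = ∑ i, ∑ j, (g x)⁻¹ i j * chr1 g k i j x := by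
    rw [Finset.sum_comm]
    exact Finset.sum_congr rfl fun j _ => Finset.sum_congr rfl fun a _ => by
      rw [hg.inv_symm hx a j]
  have h4 : ∑ i, ∑ j, (g x)⁻¹ i j * pd k (fun y => g y i j) x = 2 * ∑ i, chr g i i k x := by
    simp only [pd_met hg hx, mul_add, Finset.sum_add_distrib]
    rw [h3, h2]
    ring
  rw [e, h1, pd_det hg hx, h4]
  have hs : 0 < √((g x).det) := Real.sqrt_pos.2 hp
  have hq : (g x).det = √((g x).det) * √((g x).det) := (Real.mul_self_sqrt hp.le).symm
  simp only
  generalize √((g x).det) = r at hs hq ⊢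
  rw [hq]
  field_simp

theorem vol_div (hg : IsMet g U) (hf : Sm U f) (hh : Sm U h) (hx : x ∈ U) :
    (gam g f h x + f x * lap g h x) * vol g x =
      ∑ i, pd i (fun y => vol g y * f y * gr g h i y) x := by
  have hv := sm_da hg.opn hg.sm_vol hx
  have hf' := sm_da hg.opn hf hx
  have h1 : ∀ i, pd i (fun y => vol g y * f y * gr g h i y) x =
      vol g x * f x * ((∑ a, chr g a a i x) * gr g h i x) + vol g x * (pd i f x * gr g h i x) +
        vol g x * f x * pd i (gr g h i) x := by
    intro i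
    rw [pd_mul (f := fun y => vol g y * f y) (hv.mul hf') (sm_da hg.opn (hg.sm_gr hh i) hx),
      pd_mul hv hf', pd_vol hg hx]
    ring
  simp only [h1, Finset.sum_add_distrib, ← Finset.mul_sum]
  rw [← div_gr hg hh hx, gam_eq_gr]
  ring

theorem lap_div (hg : IsMet g U) (hh : Sm U h) (hx : x ∈ U) :
    lap g h x * vol g x =
      ∑ i, pd i (fun y => ∑ j, (vol g y • (g y)⁻¹) i j * pd j h y) x := by
  have h1 := vol_div (f := fun _ => 1) hg contDiffOn_const hh hx
  rw [gam_const_left, zero_add, one_mul] at h1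
  rw [h1]
  refine Finset.sum_congr rfl fun i _ => ?_
  congr 1
  funext y
  simp only [gr, Matrix.smul_apply, smul_eq_mul, mul_one, Finset.mul_sum, mul_assoc]

theorem meanCurv_eq (hg : IsMet g U) (hf : Sm U f) (hx : x ∈ U) (h0 : gam g f f x ≠ 0) :
    meanCurv g f x = lap g f x / √(gam g f f x) -
      gam g f (gam g f f) x / (2 * gam g f f x * √(gam g f f x)) := by
  have hp : 0 < gam g f f x := lt_of_le_of_ne (gam_nonneg (hg.pos x hx) f) h0.symm
  have hs : 0 < √(gam g f f x) := Real.sqrt_pos.2 hp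
  have hG : DifferentiableAt ℝ (gam g f f) x := sm_da hg.opn (hg.sm_gam hf hf) hx
  have hβ : HasDerivAt (fun t : ℝ => (√t)⁻¹)
      (-(1 / (2 * √(gam g f f x))) / √(gam g f f x) ^ 2) (gam g f f x) :=
    (Real.hasDerivAt_sqrt h0).inv hs.ne'
  have hw : DifferentiableAt ℝ (fun y => (√(gam g f f y))⁻¹) x :=
    hβ.differentiableAt.comp x hG
  have e : ∀ i, unitNormal g f i = fun y => gr g f i y * (√(gam g f f y))⁻¹ := fun i =>
    funext fun y => div_eq_mul_inv _ _
  have h1 : ∀ i, pd i (unitNormal g f i) x = (√(gam g f f x))⁻¹ * pd i (gr g f i) x +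
      (-(1 / (2 * √(gam g f f x))) / √(gam g f f x) ^ 2) *
        (pd i (gam g f f) x * gr g f i x) := by
    intro i
    rw [e, pd_mul (sm_da hg.opn (hg.sm_gr hf i) hx) hw, pd_comp_real hG hβ]
    ring
  have h2 : ∑ i, ∑ k, chr g i i k x * unitNormal g f k x =
      (√(gam g f f x))⁻¹ * ∑ k, (∑ i, chr g i i k x) * gr g f k x := by
    rw [Finset.sum_comm, Finset.mul_sum]
    refine Finset.sum_congr rfl fun k _ => ?_
    rw [← Finset.sum_mul, e]
    ring
  unfold meanCurv
  rw [Finset.sum_add_distrib, h2]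
  simp only [h1, Finset.sum_add_distrib, ← Finset.mul_sum]
  rw [← div_gr hg hf hx, gam_comm (hg.pos x hx) f (gam g f f), gam_eq_gr g (gam g f f) f,
    Real.sq_sqrt hp.le]
  field_simp
  ring

theorem integral_pd_test {φ : E n → ℝ} (hφ : Test U φ) (i : Fin n) : ∫ x, pd i φ x = 0 := by
  have h1 := hφ.pd i
  have e1 : (fun x : E n => fderiv ℝ (fun _ : E n => (1 : ℝ)) x (Pi.single i 1) * φ x) =
      fun _ => 0 := funext fun x => by simp
  have e2 : (fun x : E n => (1 : ℝ) * fderiv ℝ φ x (Pi.single i 1)) = pd i φ :=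
    funext fun x => one_mul _
  have e3 : (fun x : E n => (1 : ℝ) * φ x) = φ := funext fun x => one_mul _
  have h2 := integral_mul_fderiv_eq_neg_fderiv_mul_of_integrable (μ := volume)
    (f := fun _ : E n => (1 : ℝ)) (g := φ) (v := Pi.single i 1)
    (e1 ▸ integrable_zero _ _ _)
    (e2 ▸ h1.sm.continuous.integrable_of_hasCompactSupport h1.cpt)
    (e3.symm ▸ hφ.sm.continuous.integrable_of_hasCompactSupport hφ.cpt)
    (fun x _ => differentiableAt_const _)
    (fun x _ => (hφ.sm.differentiable (by simp)) x)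
  rw [e1, e2, integral_zero, neg_zero] at h2
  exact h2

theorem integral_div_eq_zero (hU : IsOpen U) {Y : Fin n → E n → ℝ} (hY : ∀ i, Sm U (Y i))
    {K : Set (E n)} (hK : IsCompact K) (hKU : K ⊆ U) (h0 : ∀ i, ∀ x ∈ U, x ∉ K → Y i x = 0) :
    ∫ x in U, ∑ i, pd i (Y i) x = 0 := by
  have hZ : ∀ i, Test U (U.indicator (Y i)) := fun i =>
    (test_indicator hU (hY i) hK hKU (h0 i)).1
  have hI : ∀ i, Integrable (pd i (U.indicator (Y i))) := fun i =>
    ((hZ i).pd i).sm.continuous.integrable_of_hasCompactSupport ((hZ i).pd i).cpt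
  have e : ∫ x in U, ∑ i, pd i (Y i) x = ∫ x in U, ∑ i, pd i (U.indicator (Y i)) x := by
    refine setIntegral_congr_fun hU.measurableSet fun x hx => ?_
    exact Finset.sum_congr rfl fun i _ =>
      pd_congr_on hU (fun y hy => (indicator_of_mem hy _).symm) hx i
  rw [e, setIntegral_eq_integral_of_forall_compl_eq_zero, integral_finsetSum _ fun i _ => hI i]
  · exact Finset.sum_eq_zero fun i _ => integral_pd_test (hZ i) i
  · intro x hx
    refine Finset.sum_eq_zero fun i _ => ?_
    exact image_eq_zero_of_notMem_tsupport fun h => hx (((hZ i).pd i).sub h)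

/-- Integration by parts. -/
theorem ibp (hg : IsMet g U) (hf : Sm U f) (hh : Sm U h) {K : Set (E n)} (hK : IsCompact K)
    (hKU : K ⊆ U) (h0 : ∀ x ∈ U, x ∉ K → f x = 0) :
    IntegrableOn (fun x => gam g f h x * vol g x) U ∧
    IntegrableOn (fun x => f x * lap g h x * vol g x) U ∧
    ∫ x in U, gam g f h x * vol g x = -∫ x in U, f x * lap g h x * vol g x := by
  have hU := hg.opn
  have i1 : IntegrableOn (fun x => gam g f h x * vol g x) U := by
    refine integrableOn_of_cpt hU.measurableSet hK hKU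
      (((hg.sm_gam hf hh).mul hg.sm_vol).continuousOn.mono hKU) fun x hx hxK => ?_
    have ev : f =ᶠ[𝓝 x] fun _ => 0 := by
      filter_upwards [(hU.sdiff hK.isClosed).mem_nhds ⟨hx, hxK⟩] with y hy using h0 y hy.1 hy.2
    rw [gam_congr rfl ev (EventuallyEq.refl _ h), gam_const_left, zero_mul]
  have i2 : IntegrableOn (fun x => f x * lap g h x * vol g x) U := by
    refine integrableOn_of_cpt hU.measurableSet hK hKU
      (((hf.mul (hg.sm_lap hh)).mul hg.sm_vol).continuousOn.mono hKU) fun x hx hxK => ?_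
    rw [h0 x hx hxK, zero_mul, zero_mul]
  refine ⟨i1, i2, ?_⟩
  have h1 := integral_div_eq_zero (Y := fun i y => vol g y * f y * gr g h i y) hU
    (fun i => (hg.sm_vol.mul hf).mul (hg.sm_gr hh i)) hK hKU fun i x hx hxK => by
      simp only [h0 x hx hxK, mul_zero, zero_mul]
  have h2 : ∫ x in U, (gam g f h x * vol g x + f x * lap g h x * vol g x) = 0 := by
    rw [← h1]
    refine setIntegral_congr_fun hU.measurableSet fun x hx => ?_
    rw [← vol_div hg hf hh hx]
    ring
  rw [integral_add i1 i2] at h2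
  linarith

/-- A continuous function orthogonal to all test functions vanishes. -/
theorem eq_zero_of_test (hU : IsOpen U) (hf : ContinuousOn f U)
    (h0 : ∀ φ, Test U φ → ∫ x in U, f x * φ x = 0) : ∀ x ∈ U, f x = 0 := by
  have h1 := hU.ae_eq_zero_of_integral_contDiff_smul_eq_zero (μ := volume)
    (hf.locallyIntegrableOn hU.measurableSet) fun φ a b c => by
      have h2 := h0 φ ⟨a, b, c⟩
      rw [setIntegral_eq_integral_of_forall_compl_eq_zero] at h2
      · rw [← h2]
        simp only [smul_eq_mul, mul_comm]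
      · intro x hx
        rw [image_eq_zero_of_notMem_tsupport fun h => hx (c h), mul_zero]
  have h3 : f =ᵐ[volume.restrict U] fun _ => 0 := (ae_restrict_iff' hU.measurableSet).2 h1
  exact Measure.eqOn_open_of_ae_eq h3 hU hf continuousOn_const

end

end Pool.Agent.P.MP_56a1cd_gt
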