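import Pool.Agent.P.MP_56a1cd_gt.InvA
import Pool.Agent.P.MP_56a1cd_gt.Bochner
import Pool.Agent.P.MP_56a1cd_gt.Ibp

namespace Pool.Agent.P.MP_56a1cd_gt

open MeasureTheory Matrix Set Filter Topology
open scoped ContDiff ENNReal

variable {m n : ℕ}

/-! PLAN. `ricq_pull`: solve `bochner` for `ricq`; all other terms are invariant (on the open set `W`,
use `lap_congr`, `gam_congr`). `ricM_pull`: apply `ricq_pull` to linear functions `f = ξ ⬝ x`; it says
that the quadratic forms of the symmetric (`ric_symm`) matrices `G R G` and `J G' R' G' Jᵀ` agree.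
`scal = trace (G R)`. `meanCurv_pull` by `meanCurv_eq`. -/

namespace InvBAux

theorem eq_of_quad {A B : Matrix (Fin n) (Fin n) ℝ} (hA : ∀ i j, A i j = A j i)
    (hB : ∀ i j, B i j = B j i) (h : ∀ v : E n, v ⬝ᵥ A *ᵥ v = v ⬝ᵥ B *ᵥ v) : A = B := by
  ext i j
  have h1 := h (Pi.single i 1)
  have h2 := h (Pi.single j 1)
  have h3 := h (Pi.single i 1 + Pi.single j 1)
  simp only [mulVec_add, add_dotProduct, dotProduct_add, mulVec_single_one, single_one_dotProduct,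
    col_apply] at h1 h2 h3
  linarith [hA i j, hB i j]

theorem ricq_eq (g : Met n) (f : E n → ℝ) (x : E n) :
    ricq g f x = (fun i => gr g f i x) ⬝ᵥ ricM g x *ᵥ fun i => gr g f i x := by
  simp only [ricq, ricM, dotProduct, mulVec, of_apply, Finset.mul_sum]
  exact Finset.sum_congr rfl fun i _ => Finset.sum_congr rfl fun j _ => by ring

theorem scal_eq {g : Met n} {U : Set (E n)} {x : E n} (hg : IsMet g U) (hx : x ∈ U) :
    scal g x = ((g x)⁻¹ * ricM g x).trace := by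
  simp only [scal, ricM, trace, diag_apply, mul_apply, of_apply]
  exact Finset.sum_congr rfl fun i _ => Finset.sum_congr rfl fun j _ => by
    rw [ric_symm hg hx i j]

variable {Φ : E n → E n} {W U : Set (E n)} {g : Met n} {f : E n → ℝ} {y : E n}

theorem gam_ev (hg : IsMet g U) (hΦ : IsChart Φ W) (hm : MapsTo Φ W U) (hf : Sm U f)
    (hy : y ∈ W) : gam (pull Φ g) (fun z => f (Φ z)) (fun z => f (Φ z)) =ᶠ[𝓝 y]
      fun z => gam g f f (Φ z) :=
  eventually_of_mem (hΦ.opn.mem_nhds hy) fun _ hz => gam_pull hg hΦ hm hf hf hz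

end InvBAux

open InvBAux

section
variable {Φ : E n → E n} {W U : Set (E n)} {g : Met n} {f : E n → ℝ} {y : E n}

theorem ricq_pull (hg : IsMet g U) (hΦ : IsChart Φ W) (hm : MapsTo Φ W U) (hf : Sm U f)
    (hy : y ∈ W) : ricq (pull Φ g) (fun z => f (Φ z)) y = ricq g f (Φ y) := by
  have h1 := bochner (hg.pull hΦ hm) (hΦ.sm_comp hm hf) hy
  have h2 := bochner hg hf (hm hy)
  have h3 : lap (pull Φ g) (fun z => f (Φ z)) =ᶠ[𝓝 y] fun z => lap g f (Φ z) :=
    eventually_of_mem (hΦ.opn.mem_nhds hy) fun _ hz => lap_pull hg hΦ hm hf hz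
  rw [lap_congr EventuallyEq.rfl (gam_ev hg hΦ hm hf hy), lap_pull hg hΦ hm (hg.sm_gam hf hf) hy,
    gam_congr rfl EventuallyEq.rfl h3, gam_pull hg hΦ hm hf (hg.sm_lap hf) hy,
    hsq_pull hg hΦ hm hf hy] at h1
  linarith

theorem ricM_pull (hg : IsMet g U) (hΦ : IsChart Φ W) (hm : MapsTo Φ W U) (hy : y ∈ W) :
    ricM (pull Φ g) y = (jac Φ y)ᵀ * ricM g (Φ y) * jac Φ y := by
  have hs : (ricM g (Φ y))ᵀ = ricM g (Φ y) := by
    ext i j
    exact ric_symm hg (hm hy) j i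
  refine eq_of_quad (fun i j => ric_symm (hg.pull hΦ hm) hy i j) (fun i j => ?_) fun v => ?_
  · rw [← transpose_apply ((jac Φ y)ᵀ * ricM g (Φ y) * jac Φ y) i j, transpose_mul, transpose_mul,
      transpose_transpose, hs, Matrix.mul_assoc]
  · set ξ := g (Φ y) *ᵥ (jac Φ y *ᵥ v) with hξ
    have hf : ContDiff ℝ ∞ fun x : E n => ∑ k, ξ k * x k := by fun_prop
    have h1 : (fun j => pd j (fun x : E n => ∑ k, ξ k * x k) (Φ y)) = ξ := by
      ext j
      rw [pd_sum _ fun k _ => by fun_prop]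
      simp [pd_const_mul, pd_coord]
    have h2 : (fun i => gr g (fun x : E n => ∑ k, ξ k * x k) i (Φ y)) = jac Φ y *ᵥ v := by
      have h3 : (fun i => gr g (fun x : E n => ∑ k, ξ k * x k) i (Φ y)) =
          (g (Φ y))⁻¹ *ᵥ fun j => pd j (fun x : E n => ∑ k, ξ k * x k) (Φ y) := rfl
      rw [h3, h1, hξ, mulVec_mulVec, nonsing_inv_mul _ (Ne.isUnit (hg.pos _ (hm hy)).det_pos.ne'),
        one_mulVec]
    have h3 := gr_pull hg hΦ hm hf.contDiffOn hy
    rw [h2] at h3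
    have h4 := mulVec_injective_of_isUnit
      ((isUnit_iff_isUnit_det _).mpr (Ne.isUnit (hΦ.det y hy))) h3
    have h5 := ricq_pull hg hΦ hm hf.contDiffOn hy
    rw [ricq_eq, ricq_eq, h2, h4] at h5
    rw [h5, ← mulVec_mulVec, ← mulVec_mulVec, dotProduct_mulVec v, vecMul_transpose]

theorem scal_pull (hg : IsMet g U) (hΦ : IsChart Φ W) (hm : MapsTo Φ W U) (hy : y ∈ W) :
    scal (pull Φ g) y = scal g (Φ y) := by
  have h1 := Ne.isUnit (hΦ.det y hy)
  have h2 : IsUnit (jac Φ y)ᵀ.det := by rwa [det_transpose]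
  rw [scal_eq (hg.pull hΦ hm) hy, scal_eq hg (hm hy), ricM_pull hg hΦ hm hy, pull,
    Matrix.mul_inv_rev, Matrix.mul_inv_rev, Matrix.mul_assoc, trace_mul_comm]
  simp only [Matrix.mul_assoc]
  rw [mul_nonsing_inv _ h1, Matrix.mul_one, nonsing_inv_mul_cancel_left _ _ h2]

theorem KS_pull (hg : IsMet g U) (hΦ : IsChart Φ W) (hm : MapsTo Φ W U) (hf : Sm U f)
    (hy : y ∈ W) : KS (pull Φ g) (fun z => f (Φ z)) y = KS g f (Φ y) := by
  rw [KS, KS, scal_pull hg hΦ hm hy, ricq_pull hg hΦ hm hf hy, hsq_pull hg hΦ hm hf hy,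
    gam_congr rfl (gam_ev hg hΦ hm hf hy) (gam_ev hg hΦ hm hf hy),
    gam_pull hg hΦ hm (hg.sm_gam hf hf) (hg.sm_gam hf hf) hy, gam_pull hg hΦ hm hf hf hy]

theorem meanCurv_pull (hg : IsMet g U) (hΦ : IsChart Φ W) (hm : MapsTo Φ W U) (hf : Sm U f)
    (hy : y ∈ W) (h0 : gam g f f (Φ y) ≠ 0) :
    meanCurv (pull Φ g) (fun z => f (Φ z)) y = meanCurv g f (Φ y) := by
  rw [meanCurv_eq (hg.pull hΦ hm) (hΦ.sm_comp hm hf) hy (by rwa [gam_pull hg hΦ hm hf hf hy]),
    meanCurv_eq hg hf (hm hy) h0, gam_congr rfl EventuallyEq.rfl (gam_ev hg hΦ hm hf hy),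
    gam_pull hg hΦ hm hf (hg.sm_gam hf hf) hy, gam_pull hg hΦ hm hf hf hy,
    lap_pull hg hΦ hm hf hy]

end

end Pool.Agent.P.MP_56a1cd_gt
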