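import Pool.Agent.P.MP_56a1cd_gt.CalcB

namespace Pool.Agent.P.MP_56a1cd_gt

open MeasureTheory Matrix Set Filter Topology
open scoped ContDiff ENNReal

variable {m n : ℕ}

/-! PLAN. Algebraic rules for `gam` and `lap`. For `lap_comp`, `lap_mul`: the first derivative
formula holds on all of `U`, differentiate it with `pd_congr_on`. -/

namespace RulesAux

theorem sym {A : Matrix (Fin n) (Fin n) ℝ} (hA : A.PosDef) (i j : Fin n) : A i j = A j i := by
  have h := hA.1.apply i j
  simpa using h.symm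

theorem dot_comm {A : Matrix (Fin n) (Fin n) ℝ} (hA : A.PosDef) (u v : Fin n → ℝ) :
    u ⬝ᵥ A *ᵥ v = v ⬝ᵥ A *ᵥ u := by
  simp only [dotProduct, mulVec, Finset.mul_sum]
  rw [Finset.sum_comm]
  refine Finset.sum_congr rfl fun i _ => Finset.sum_congr rfl fun j _ => ?_
  rw [sym hA j i]; ring

theorem q_nonneg {A : Matrix (Fin n) (Fin n) ℝ} (hA : A.PosDef) (u : Fin n → ℝ) :
    0 ≤ u ⬝ᵥ A *ᵥ u := by
  have h := hA.posSemidef.dotProduct_mulVec_nonneg u
  simpa using h

theorem q_pos {A : Matrix (Fin n) (Fin n) ℝ} (hA : A.PosDef) {u : Fin n → ℝ} (hu : u ≠ 0) :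
    0 < u ⬝ᵥ A *ᵥ u := by
  have h := hA.dotProduct_mulVec_pos hu
  simpa using h

theorem cs {A : Matrix (Fin n) (Fin n) ℝ} (hA : A.PosDef) (u v : Fin n → ℝ) :
    (u ⬝ᵥ A *ᵥ v) ^ 2 ≤ (u ⬝ᵥ A *ᵥ u) * (v ⬝ᵥ A *ᵥ v) := by
  have key : ∀ t : ℝ, 0 ≤ (v ⬝ᵥ A *ᵥ v) * (t * t) + (2 * (u ⬝ᵥ A *ᵥ v)) * t + u ⬝ᵥ A *ᵥ u := by
    intro t
    have h := q_nonneg hA (u + t • v)
    simp only [mulVec_add, mulVec_smul, add_dotProduct, dotProduct_add, smul_dotProduct,
      dotProduct_smul, smul_eq_mul] at h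
    rw [dot_comm hA v u] at h
    nlinarith [h]
  have h := discrim_le_zero key
  unfold discrim at h
  nlinarith [h]

theorem abs_cs {A : Matrix (Fin n) (Fin n) ℝ} (hA : A.PosDef) (u v : Fin n → ℝ) :
    |u ⬝ᵥ A *ᵥ v| ≤ √(u ⬝ᵥ A *ᵥ u) * √(v ⬝ᵥ A *ᵥ v) := by
  rw [← Real.sqrt_mul (q_nonneg hA u)]
  exact Real.abs_le_sqrt (cs hA u v)

theorem lap_eq (g : Met n) (f : E n → ℝ) (x : E n) :
    lap g f x = ∑ i, ∑ j, (g x)⁻¹ i j * (pd i (pd j f) x - ∑ k, chr g k i j x * pd k f x) := rfl

end RulesAux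

open RulesAux

section
variable {g : Met n} {U : Set (E n)} {f h k : E n → ℝ} {x : E n}

theorem gam_eq_gr (g : Met n) (f h : E n → ℝ) (x : E n) :
    gam g f h x = ∑ i, pd i f x * gr g h i x := by
  unfold gam gr
  refine Finset.sum_congr rfl fun i _ => ?_
  rw [Finset.mul_sum]
  refine Finset.sum_congr rfl fun j _ => ?_
  ring

theorem gam_eq_dot (g : Met n) (f h : E n → ℝ) (x : E n) :
    gam g f h x = (fun i => pd i f x) ⬝ᵥ (g x)⁻¹ *ᵥ (fun i => pd i h x) := by
  rw [gam_eq_gr]
  rfl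

theorem gam_comm (hp : (g x).PosDef) (f h : E n → ℝ) : gam g f h x = gam g h f x := by
  rw [gam_eq_dot, gam_eq_dot]
  exact dot_comm hp.inv _ _

theorem gam_nonneg (hp : (g x).PosDef) (f : E n → ℝ) : 0 ≤ gam g f f x := by
  rw [gam_eq_dot]
  exact q_nonneg hp.inv _

theorem gam_sq_le (hp : (g x).PosDef) (f h : E n → ℝ) :
    gam g f h x ^ 2 ≤ gam g f f x * gam g h h x := by
  rw [gam_eq_dot, gam_eq_dot, gam_eq_dot]
  exact cs hp.inv _ _

theorem abs_gam_le (hp : (g x).PosDef) (f h : E n → ℝ) :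
    |gam g f h x| ≤ √(gam g f f x) * √(gam g h h x) := by
  rw [gam_eq_dot, gam_eq_dot, gam_eq_dot]
  exact abs_cs hp.inv _ _

theorem gam_eq_zero_iff (hp : (g x).PosDef) (f : E n → ℝ) :
    gam g f f x = 0 ↔ fderiv ℝ f x = 0 := by
  rw [fderiv_eq_zero_iff, gam_eq_dot]
  constructor
  · intro h0
    by_contra hne
    have hu : (fun i => pd i f x) ≠ 0 := fun e => hne fun i => congrFun e i
    exact (q_pos hp.inv hu).ne' h0
  · intro h0
    have hu : (fun i => pd i f x) = 0 := funext h0
    rw [hu, zero_dotProduct]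

/-- The derivative is bounded by the length of the gradient times the length of the vector. -/
theorem abs_fderiv_le (hp : (g x).PosDef) (f : E n → ℝ) (v : E n) :
    |fderiv ℝ f x v| ≤ √(gam g f f x) * √(v ⬝ᵥ g x *ᵥ v) := by
  have hdet : IsUnit (g x).det := (hp.det_pos.ne').isUnit
  have e1 : (g x)⁻¹ *ᵥ (g x *ᵥ v) = v := by
    rw [mulVec_mulVec, nonsing_inv_mul _ hdet, one_mulVec]
  have h1 := abs_cs hp.inv (fun i => pd i f x) (g x *ᵥ v)
  rw [e1, ← gam_eq_dot, dotProduct_comm (g x *ᵥ v) v] at h1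
  rw [fderiv_eq_sum]
  have e2 : ∑ i, v i * pd i f x = (fun i => pd i f x) ⬝ᵥ v := by
    simp only [dotProduct]
    exact Finset.sum_congr rfl fun i _ => mul_comm _ _
  rw [e2]
  exact h1

theorem gam_const_left (g : Met n) (c : ℝ) (h : E n → ℝ) (x : E n) :
    gam g (fun _ => c) h x = 0 := by
  simp [gam, pd_const]

theorem gam_const_right (g : Met n) (c : ℝ) (h : E n → ℝ) (x : E n) :
    gam g h (fun _ => c) x = 0 := by
  simp [gam, pd_const]

theorem gam_add_left (g : Met n) (hf : DifferentiableAt ℝ f x) (hh : DifferentiableAt ℝ h x)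
    (k : E n → ℝ) : gam g (fun y => f y + h y) k x = gam g f k x + gam g h k x := by
  simp only [gam, pd_add hf hh, ← Finset.sum_add_distrib]
  exact Finset.sum_congr rfl fun i _ => Finset.sum_congr rfl fun j _ => by ring

theorem gam_add_right (g : Met n) (hf : DifferentiableAt ℝ f x) (hh : DifferentiableAt ℝ h x)
    (k : E n → ℝ) : gam g k (fun y => f y + h y) x = gam g k f x + gam g k h x := by
  simp only [gam, pd_add hf hh, ← Finset.sum_add_distrib]
  exact Finset.sum_congr rfl fun i _ => Finset.sum_congr rfl fun j _ => by ring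

theorem gam_sub_left (g : Met n) (hf : DifferentiableAt ℝ f x) (hh : DifferentiableAt ℝ h x)
    (k : E n → ℝ) : gam g (fun y => f y - h y) k x = gam g f k x - gam g h k x := by
  simp only [gam, pd_sub hf hh, ← Finset.sum_sub_distrib]
  exact Finset.sum_congr rfl fun i _ => Finset.sum_congr rfl fun j _ => by ring

theorem gam_sub_right (g : Met n) (hf : DifferentiableAt ℝ f x) (hh : DifferentiableAt ℝ h x)
    (k : E n → ℝ) : gam g k (fun y => f y - h y) x = gam g k f x - gam g k h x := by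
  simp only [gam, pd_sub hf hh, ← Finset.sum_sub_distrib]
  exact Finset.sum_congr rfl fun i _ => Finset.sum_congr rfl fun j _ => by ring

theorem gam_cmul_left (g : Met n) (c : ℝ) (f k : E n → ℝ) (x : E n) :
    gam g (fun y => c * f y) k x = c * gam g f k x := by
  simp only [gam, pd_const_mul, Finset.mul_sum]
  exact Finset.sum_congr rfl fun i _ => Finset.sum_congr rfl fun j _ => by ring

theorem gam_cmul_right (g : Met n) (c : ℝ) (f k : E n → ℝ) (x : E n) :
    gam g k (fun y => c * f y) x = c * gam g k f x := by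
  simp only [gam, pd_const_mul, Finset.mul_sum]
  exact Finset.sum_congr rfl fun i _ => Finset.sum_congr rfl fun j _ => by ring

theorem gam_mul_left (g : Met n) (hf : DifferentiableAt ℝ f x) (hh : DifferentiableAt ℝ h x)
    (k : E n → ℝ) :
    gam g (fun y => f y * h y) k x = f x * gam g h k x + h x * gam g f k x := by
  simp only [gam, pd_mul hf hh, Finset.mul_sum, ← Finset.sum_add_distrib]
  exact Finset.sum_congr rfl fun i _ => Finset.sum_congr rfl fun j _ => by ring

theorem gam_mul_right (g : Met n) (hf : DifferentiableAt ℝ f x) (hh : DifferentiableAt ℝ h x)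
    (k : E n → ℝ) :
    gam g k (fun y => f y * h y) x = f x * gam g k h x + h x * gam g k f x := by
  simp only [gam, pd_mul hf hh, Finset.mul_sum, ← Finset.sum_add_distrib]
  exact Finset.sum_congr rfl fun i _ => Finset.sum_congr rfl fun j _ => by ring

theorem gam_comp_left (g : Met n) {β : ℝ → ℝ} {β' : ℝ} (hf : DifferentiableAt ℝ f x)
    (hβ : HasDerivAt β β' (f x)) (k : E n → ℝ) :
    gam g (fun y => β (f y)) k x = β' * gam g f k x := by
  simp only [gam, pd_comp_real hf hβ, Finset.mul_sum]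
  exact Finset.sum_congr rfl fun i _ => Finset.sum_congr rfl fun j _ => by ring

theorem gam_comp_right (g : Met n) {β : ℝ → ℝ} {β' : ℝ} (hf : DifferentiableAt ℝ f x)
    (hβ : HasDerivAt β β' (f x)) (k : E n → ℝ) :
    gam g k (fun y => β (f y)) x = β' * gam g k f x := by
  simp only [gam, pd_comp_real hf hβ, Finset.mul_sum]
  exact Finset.sum_congr rfl fun i _ => Finset.sum_congr rfl fun j _ => by ring

theorem lap_const (g : Met n) (c : ℝ) (x : E n) : lap g (fun _ => c) x = 0 := by
  have e : ∀ j : Fin n, pd j (fun _ : E n => c) = fun _ => 0 := fun j => funext fun y => pd_const c y j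
  simp [lap_eq, e, pd_const]

theorem lap_cmul (g : Met n) (c : ℝ) (f : E n → ℝ) (x : E n) :
    lap g (fun y => c * f y) x = c * lap g f x := by
  have e : ∀ j : Fin n, pd j (fun y => c * f y) = fun y => c * pd j f y :=
    fun j => funext fun y => pd_const_mul c f y j
  simp only [lap_eq, e, pd_const_mul]
  rw [Finset.mul_sum]
  refine Finset.sum_congr rfl fun i _ => ?_
  rw [Finset.mul_sum]
  refine Finset.sum_congr rfl fun j _ => ?_
  have e2 : ∑ k, chr g k i j x * (c * pd k f x) = c * ∑ k, chr g k i j x * pd k f x := by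
    rw [Finset.mul_sum]
    exact Finset.sum_congr rfl fun k _ => by ring
  rw [e2]; ring

theorem lap_add (g : Met n) (hU : IsOpen U) (hf : Sm U f) (hh : Sm U h) (hx : x ∈ U) :
    lap g (fun y => f y + h y) x = lap g f x + lap g h x := by
  have e : ∀ i j : Fin n, pd i (pd j (fun y => f y + h y)) x = pd i (pd j f) x + pd i (pd j h) x := by
    intro i j
    rw [← pd_add (sm_da hU (sm_pd hU hf j) hx) (sm_da hU (sm_pd hU hh j) hx)]
    exact pd_congr_on hU (fun y hy => pd_add (sm_da hU hf hy) (sm_da hU hh hy) j) hx i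
  simp only [lap_eq, e, pd_add (sm_da hU hf hx) (sm_da hU hh hx), ← Finset.sum_add_distrib]
  refine Finset.sum_congr rfl fun i _ => Finset.sum_congr rfl fun j _ => ?_
  simp only [mul_add, Finset.sum_add_distrib]
  ring

theorem lap_sub (g : Met n) (hU : IsOpen U) (hf : Sm U f) (hh : Sm U h) (hx : x ∈ U) :
    lap g (fun y => f y - h y) x = lap g f x - lap g h x := by
  have e : ∀ i j : Fin n, pd i (pd j (fun y => f y - h y)) x = pd i (pd j f) x - pd i (pd j h) x := by
    intro i j
    rw [← pd_sub (sm_da hU (sm_pd hU hf j) hx) (sm_da hU (sm_pd hU hh j) hx)]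
    exact pd_congr_on hU (fun y hy => pd_sub (sm_da hU hf hy) (sm_da hU hh hy) j) hx i
  simp only [lap_eq, e, pd_sub (sm_da hU hf hx) (sm_da hU hh hx), ← Finset.sum_sub_distrib]
  refine Finset.sum_congr rfl fun i _ => Finset.sum_congr rfl fun j _ => ?_
  have e2 : ∑ k, chr g k i j x * (pd k f x - pd k h x) =
      ∑ k, chr g k i j x * pd k f x - ∑ k, chr g k i j x * pd k h x := by
    rw [← Finset.sum_sub_distrib]
    exact Finset.sum_congr rfl fun k _ => by ring
  rw [e2]; ring

theorem lap_mul (hg : IsMet g U) (hf : Sm U f) (hh : Sm U h) (hx : x ∈ U) :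
    lap g (fun y => f y * h y) x = f x * lap g h x + 2 * gam g f h x + h x * lap g f x := by
  have hU := hg.opn
  have e : ∀ i j : Fin n, pd i (pd j (fun y => f y * h y)) x =
      pd i (pd j f) x * h x + pd j f x * pd i h x +
        (pd i f x * pd j h x + f x * pd i (pd j h) x) := by
    intro i j
    have dfj := sm_da hU (sm_pd hU hf j) hx
    have dhj := sm_da hU (sm_pd hU hh j) hx
    have df := sm_da hU hf hx
    have dh := sm_da hU hh hx
    rw [← pd_mul dfj dh, ← pd_mul df dhj, ← pd_add (dfj.fun_mul dh) (df.fun_mul dhj)]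
    exact pd_congr_on hU (fun y hy => pd_mul (sm_da hU hf hy) (sm_da hU hh hy) j) hx i
  have e3 : 2 * gam g f h x = gam g f h x + gam g h f x := by
    rw [gam_comm (hg.pos x hx) h f]; ring
  rw [e3]
  simp only [lap_eq, gam, e, pd_mul (sm_da hU hf hx) (sm_da hU hh hx)]
  rw [Finset.mul_sum, Finset.mul_sum, ← Finset.sum_add_distrib, ← Finset.sum_add_distrib,
    ← Finset.sum_add_distrib]
  refine Finset.sum_congr rfl fun i _ => ?_
  rw [Finset.mul_sum, Finset.mul_sum, ← Finset.sum_add_distrib, ← Finset.sum_add_distrib,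
    ← Finset.sum_add_distrib]
  refine Finset.sum_congr rfl fun j _ => ?_
  have e2 : ∑ k, chr g k i j x * (pd k f x * h x + f x * pd k h x) =
      h x * ∑ k, chr g k i j x * pd k f x + f x * ∑ k, chr g k i j x * pd k h x := by
    rw [Finset.mul_sum, Finset.mul_sum, ← Finset.sum_add_distrib]
    exact Finset.sum_congr rfl fun k _ => by ring
  rw [e2]; ring

theorem lap_comp (g : Met n) (hU : IsOpen U) (hf : Sm U f) {β : ℝ → ℝ} {J : Set ℝ} (hJ : IsOpen J)
    (hβ : ContDiffOn ℝ ∞ β J) (hm : MapsTo f U J) (hx : x ∈ U) :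
    lap g (fun y => β (f y)) x =
      deriv β (f x) * lap g f x + deriv (deriv β) (f x) * gam g f f x := by
  have hβ1 : ContDiffOn ℝ ∞ (deriv β) J := hβ.deriv_of_isOpen hJ (by simp)
  have d1 : ∀ t ∈ J, HasDerivAt β (deriv β t) t := fun t ht =>
    ((hβ.contDiffAt (hJ.mem_nhds ht)).differentiableAt (by simp)).hasDerivAt
  have d2 : ∀ t ∈ J, HasDerivAt (deriv β) (deriv (deriv β) t) t := fun t ht =>
    ((hβ1.contDiffAt (hJ.mem_nhds ht)).differentiableAt (by simp)).hasDerivAt
  have df := sm_da hU hf hx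
  have e : ∀ i j : Fin n, pd i (pd j (fun y => β (f y))) x =
      deriv (deriv β) (f x) * pd i f x * pd j f x + deriv β (f x) * pd i (pd j f) x := by
    intro i j
    have dfj := sm_da hU (sm_pd hU hf j) hx
    have dc : DifferentiableAt ℝ (fun y => deriv β (f y)) x :=
      sm_da hU (sm_comp_real hf hβ1 hm) hx
    rw [← pd_comp_real df (d2 _ (hm hx)) i, ← pd_mul dc dfj]
    exact pd_congr_on hU (fun y hy => pd_comp_real (sm_da hU hf hy) (d1 _ (hm hy)) j) hx i
  simp only [lap_eq, gam, e, pd_comp_real df (d1 _ (hm hx))]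
  rw [Finset.mul_sum, Finset.mul_sum, ← Finset.sum_add_distrib]
  refine Finset.sum_congr rfl fun i _ => ?_
  rw [Finset.mul_sum, Finset.mul_sum, ← Finset.sum_add_distrib]
  refine Finset.sum_congr rfl fun j _ => ?_
  have e2 : ∑ k, chr g k i j x * (deriv β (f x) * pd k f x) =
      deriv β (f x) * ∑ k, chr g k i j x * pd k f x := by
    rw [Finset.mul_sum]
    exact Finset.sum_congr rfl fun k _ => by ring
  rw [e2]; ring

end

end Pool.Agent.P.MP_56a1cd_gt
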