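import Pool.Agent.P.MP_56a1cd_gt.AtA
import Pool.Agent.P.MP_56a1cd_gt.InvB
import Pool.Agent.P.MP_56a1cd_gt.Rules

namespace Pool.Agent.P.MP_56a1cd_gt

open MeasureTheory Matrix Set Filter Topology
open scoped ContDiff ENNReal

variable {m n : ℕ}

/-! PLAN. Chart independence: `loc i u = loc j u ∘ trans` and `γ i = pull trans (γ j)` near the point
(`compat`, `gam_congr`, `lap_congr`, `scal_congr`), then `gam_pull`, `lap_pull`, `scal_pull` on the open set
`target i ∩ symm ⁻¹' (source j ∩ O)` (`IsChart.mono`, `IsMet.mono`). -/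

namespace AtBAux

variable {S : Type} [TopologicalSpace S] (A : Atlas2 S)

theorem mem_dom (i : Fin A.k) {O : Set S} {x : S} (hx : x ∈ O) (hi : x ∈ (A.e i).source) :
    A.e i x ∈ (A.e i).target ∩ (A.e i).symm ⁻¹' O := by
  refine ⟨(A.e i).map_source hi, ?_⟩
  rw [mem_preimage, (A.e i).left_inv hi]
  exact hx

theorem pos (i : Fin A.k) {x : S} (hi : x ∈ (A.e i).source) : (A.γ i (A.e i x)).PosDef :=
  (A.met i).pos _ ((A.e i).map_source hi)

theorem met_dom (i : Fin A.k) {O : Set S} (hO : IsOpen O) :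
    IsMet (A.γ i) ((A.e i).target ∩ (A.e i).symm ⁻¹' O) :=
  (A.met i).mono (A.isOpen_dom i hO) inter_subset_left

theorem chart_dom (i j : Fin A.k) {O : Set S} (hO : IsOpen O) :
    IsChart (fun y => A.e j ((A.e i).symm y))
      ((A.e i).target ∩ (A.e i).symm ⁻¹' ((A.e j).source ∩ O)) :=
  (A.isChart_trans i j).mono (A.isOpen_dom i ((A.e j).open_source.inter hO))
    (fun _ hy => ⟨hy.1, hy.2.1⟩)

theorem maps_dom (i j : Fin A.k) (O : Set S) :
    MapsTo (fun y => A.e j ((A.e i).symm y))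
      ((A.e i).target ∩ (A.e i).symm ⁻¹' ((A.e j).source ∩ O))
      ((A.e j).target ∩ (A.e j).symm ⁻¹' O) :=
  fun _ hy => mem_dom A j hy.2.2 hy.2.1

theorem nhds_dom (i j : Fin A.k) {x : S} (hi : x ∈ (A.e i).source) (hj : x ∈ (A.e j).source) :
    (A.e i).target ∩ (A.e i).symm ⁻¹' (A.e j).source ∈ 𝓝 (A.e i x) :=
  (A.isOpen_dom i (A.e j).open_source).mem_nhds (mem_dom A i hj hi)

theorem loc_ev (i j : Fin A.k) (u : S → ℝ) {x : S} (hi : x ∈ (A.e i).source)
    (hj : x ∈ (A.e j).source) :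
    A.loc i u =ᶠ[𝓝 (A.e i x)] fun z => A.loc j u (A.e j ((A.e i).symm z)) := by
  filter_upwards [nhds_dom A i j hi hj] with z hz
  simp only [Atlas2.loc]
  rw [(A.e j).left_inv hz.2]

theorem met_ev (i j : Fin A.k) {x : S} (hi : x ∈ (A.e i).source) (hj : x ∈ (A.e j).source) :
    A.γ i =ᶠ[𝓝 (A.e i x)] pull (fun y => A.e j ((A.e i).symm y)) (A.γ j) := by
  filter_upwards [nhds_dom A i j hi hj] with z hz
  exact A.compat i j z hz

theorem loc_congr (i : Fin A.k) {u v : S → ℝ} {x : S} (hi : x ∈ (A.e i).source)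
    (e : u =ᶠ[𝓝 x] v) : A.loc i u =ᶠ[𝓝 (A.e i x)] A.loc i v := by
  have h : ContinuousAt (A.e i).symm (A.e i x) :=
    (A.e i).continuousAt_symm ((A.e i).map_source hi)
  have h' : Tendsto (A.e i).symm (𝓝 (A.e i x)) (𝓝 x) := by
    have := h.tendsto
    rwa [(A.e i).left_inv hi] at this
  exact h'.eventually e

end AtBAux

namespace Atlas2

variable {S : Type} [TopologicalSpace S] (A : Atlas2 S) {O : Set S} {u v : S → ℝ}

theorem gamS_eq (hO : IsOpen O) (hu : A.SmOn O u) (hv : A.SmOn O v) (i : Fin A.k) {x : S}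
    (hx : x ∈ O) (hi : x ∈ (A.e i).source) :
    A.gamS u v x = gam (A.γ i) (A.loc i u) (A.loc i v) (A.e i x) := by
  have hj := A.mem_ch x
  have h := gam_pull (AtBAux.met_dom A (A.ch x) hO) (AtBAux.chart_dom A i (A.ch x) hO)
    (AtBAux.maps_dom A i (A.ch x) O) (hu (A.ch x)) (hv (A.ch x))
    (AtBAux.mem_dom A i (O := (A.e (A.ch x)).source ∩ O) ⟨hj, hx⟩ hi)
  rw [gam_congr (AtBAux.met_ev A i (A.ch x) hi hj).eq_of_nhds (AtBAux.loc_ev A i (A.ch x) u hi hj)
    (AtBAux.loc_ev A i (A.ch x) v hi hj), h]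
  simp only [(A.e i).left_inv hi]
  rfl

theorem lapS_eq (hO : IsOpen O) (hu : A.SmOn O u) (i : Fin A.k) {x : S} (hx : x ∈ O)
    (hi : x ∈ (A.e i).source) : A.lapS u x = lap (A.γ i) (A.loc i u) (A.e i x) := by
  have hj := A.mem_ch x
  have h := lap_pull (AtBAux.met_dom A (A.ch x) hO) (AtBAux.chart_dom A i (A.ch x) hO)
    (AtBAux.maps_dom A i (A.ch x) O) (hu (A.ch x))
    (AtBAux.mem_dom A i (O := (A.e (A.ch x)).source ∩ O) ⟨hj, hx⟩ hi)
  rw [lap_congr (AtBAux.met_ev A i (A.ch x) hi hj) (AtBAux.loc_ev A i (A.ch x) u hi hj), h]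
  simp only [(A.e i).left_inv hi]
  rfl

theorem KG_eq (i : Fin A.k) {x : S} (hi : x ∈ (A.e i).source) :
    A.KG x = scal (A.γ i) (A.e i x) / 2 := by
  have hj := A.mem_ch x
  have h := scal_pull (AtBAux.met_dom A (A.ch x) isOpen_univ)
    (AtBAux.chart_dom A i (A.ch x) isOpen_univ) (AtBAux.maps_dom A i (A.ch x) univ)
    (AtBAux.mem_dom A i (O := (A.e (A.ch x)).source ∩ univ) ⟨hj, mem_univ x⟩ hi)
  rw [scal_congr (AtBAux.met_ev A i (A.ch x) hi hj), h]
  simp only [(A.e i).left_inv hi]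
  rfl

theorem SmOn.mono (hu : A.SmOn O u) {O' : Set S} (h : O' ⊆ O) : A.SmOn O' u :=
  fun i => (hu i).mono (fun _ hy => ⟨hy.1, h hy.2⟩)

theorem SmOn.congr (hu : A.SmOn O u) (e : ∀ x ∈ O, v x = u x) : A.SmOn O v :=
  fun i => (hu i).congr (fun _ hy => e _ hy.2)

theorem SmOn.continuousOn (hu : A.SmOn O u) : ContinuousOn u O := by
  intro x hx
  have hi := A.mem_ch x
  have h1 : ContinuousWithinAt (A.loc (A.ch x) u)
      ((A.e (A.ch x)).target ∩ (A.e (A.ch x)).symm ⁻¹' O) (A.e (A.ch x) x) :=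
    (hu (A.ch x)).continuousOn _ (AtBAux.mem_dom A _ hx hi)
  have h2 : ContinuousWithinAt (A.e (A.ch x)) (O ∩ (A.e (A.ch x)).source) x :=
    ((A.e (A.ch x)).continuousAt hi).continuousWithinAt
  have h3 := ContinuousWithinAt.comp h1 h2 (fun z hz => AtBAux.mem_dom A _ hz.1 hz.2)
  have h4 : ContinuousWithinAt u (O ∩ (A.e (A.ch x)).source) x := by
    refine h3.congr (fun z hz => ?_) ?_
    · simp only [Function.comp, loc]
      rw [(A.e (A.ch x)).left_inv hz.2]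
    · simp only [Function.comp, loc]
      rw [(A.e (A.ch x)).left_inv hi]
  exact (continuousWithinAt_inter ((A.e (A.ch x)).open_source.mem_nhds hi)).1 h4

theorem smOn_const (O : Set S) (c : ℝ) : A.SmOn O (fun _ => c) :=
  fun _ => contDiffOn_const

theorem SmOn.add (hu : A.SmOn O u) (hv : A.SmOn O v) : A.SmOn O (fun x => u x + v x) :=
  fun i => (hu i).add (hv i)

theorem SmOn.sub (hu : A.SmOn O u) (hv : A.SmOn O v) : A.SmOn O (fun x => u x - v x) :=
  fun i => (hu i).sub (hv i)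

theorem SmOn.mul (hu : A.SmOn O u) (hv : A.SmOn O v) : A.SmOn O (fun x => u x * v x) :=
  fun i => (hu i).mul (hv i)

theorem SmOn.comp (hu : A.SmOn O u) {β : ℝ → ℝ} {J : Set ℝ} (hβ : ContDiffOn ℝ ∞ β J)
    (hm : MapsTo u O J) : A.SmOn O (fun x => β (u x)) :=
  fun i => sm_comp_real (hu i) hβ (fun _ hy => hm hy.2)

theorem SmOn.union {O' : Set S} (hO : IsOpen O) (hO' : IsOpen O') (hu : A.SmOn O u)
    (hu' : A.SmOn O' u) : A.SmOn (O ∪ O') u := by
  intro i y hy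
  rcases hy.2 with h | h
  · exact ((hu i).contDiffAt ((A.isOpen_dom i hO).mem_nhds ⟨hy.1, h⟩)).contDiffWithinAt
  · exact ((hu' i).contDiffAt ((A.isOpen_dom i hO').mem_nhds ⟨hy.1, h⟩)).contDiffWithinAt

/-- Smoothness is local and can be tested in one chart. -/
theorem smOn_of_local (h : ∀ x ∈ O, ∃ i, x ∈ (A.e i).source ∧ ∃ V, IsOpen V ∧ A.e i x ∈ V ∧
    Sm V (A.loc i u)) : A.SmOn O u := by
  intro j y hy
  obtain ⟨i, hi, V, hV, hxV, hs⟩ := h _ hy.2
  have hj : (A.e j).symm y ∈ (A.e j).source := (A.e j).map_target hy.1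
  have hy' : A.e j ((A.e j).symm y) = y := (A.e j).right_inv hy.1
  have e := AtBAux.loc_ev A j i u hj hi
  have hn := AtBAux.nhds_dom A j i hj hi
  rw [hy'] at e hn
  have h1 : ContDiffAt ℝ ∞ (fun z => A.e i ((A.e j).symm z)) y := (A.trans_sm j i).contDiffAt hn
  have h2 : ContDiffAt ℝ ∞ (A.loc i u) (A.e i ((A.e j).symm y)) := hs.contDiffAt (hV.mem_nhds hxV)
  have h3 : ContDiffAt ℝ ∞ (fun z => A.loc i u (A.e i ((A.e j).symm z))) y :=
    ContDiffAt.comp (g := A.loc i u) (f := fun z => A.e i ((A.e j).symm z)) y h2 h1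
  exact (h3.congr_of_eventuallyEq e).contDiffWithinAt

theorem SmOn.gamS (hO : IsOpen O) (hu : A.SmOn O u) (hv : A.SmOn O v) : A.SmOn O (A.gamS u v) := by
  intro i
  refine ((AtBAux.met_dom A i hO).sm_gam (hu i) (hv i)).congr (fun y hy => ?_)
  have := A.gamS_eq hO hu hv i hy.2 ((A.e i).map_target hy.1)
  rw [(A.e i).right_inv hy.1] at this
  exact this

theorem SmOn.lapS (hO : IsOpen O) (hu : A.SmOn O u) : A.SmOn O (A.lapS u) := by
  intro i
  refine ((AtBAux.met_dom A i hO).sm_lap (hu i)).congr (fun y hy => ?_)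
  have := A.lapS_eq hO hu i hy.2 ((A.e i).map_target hy.1)
  rw [(A.e i).right_inv hy.1] at this
  exact this

theorem smOn_KG : A.SmOn univ A.KG := by
  intro i
  refine ((AtBAux.met_dom A i isOpen_univ).sm_scal.div_const 2).congr (fun y hy => ?_)
  have := A.KG_eq i ((A.e i).map_target hy.1)
  rw [(A.e i).right_inv hy.1] at this
  exact this

theorem gamS_nonneg (u : S → ℝ) (x : S) : 0 ≤ A.gamS u u x :=
  gam_nonneg (AtBAux.pos A _ (A.mem_ch x)) _

theorem gamS_comm (u v : S → ℝ) (x : S) : A.gamS u v x = A.gamS v u x :=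
  gam_comm (AtBAux.pos A _ (A.mem_ch x)) _ _

theorem gamS_sq_le (u v : S → ℝ) (x : S) : A.gamS u v x ^ 2 ≤ A.gamS u u x * A.gamS v v x :=
  gam_sq_le (AtBAux.pos A _ (A.mem_ch x)) _ _

theorem gamS_add_left (hO : IsOpen O) (hu : A.SmOn O u) (hv : A.SmOn O v) (w : S → ℝ) {x : S}
    (hx : x ∈ O) : A.gamS (fun z => u z + v z) w x = A.gamS u w x + A.gamS v w x :=
  gam_add_left _
    (sm_da (A.isOpen_dom _ hO) (hu (A.ch x)) (AtBAux.mem_dom A _ hx (A.mem_ch x)))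
    (sm_da (A.isOpen_dom _ hO) (hv (A.ch x)) (AtBAux.mem_dom A _ hx (A.mem_ch x))) _

theorem gamS_cmul_left (c : ℝ) (u w : S → ℝ) (x : S) :
    A.gamS (fun z => c * u z) w x = c * A.gamS u w x :=
  gam_cmul_left _ c (A.loc (A.ch x) u) _ _

theorem gamS_const_left (c : ℝ) (w : S → ℝ) (x : S) : A.gamS (fun _ => c) w x = 0 :=
  gam_const_left _ c _ _

theorem gamS_congr {u' v' : S → ℝ} {x : S} (eu : u =ᶠ[𝓝 x] u') (ev : v =ᶠ[𝓝 x] v') :
    A.gamS u v x = A.gamS u' v' x :=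
  gam_congr rfl (AtBAux.loc_congr A _ (A.mem_ch x) eu) (AtBAux.loc_congr A _ (A.mem_ch x) ev)

theorem lapS_congr {x : S} (e : u =ᶠ[𝓝 x] v) : A.lapS u x = A.lapS v x :=
  lap_congr EventuallyEq.rfl (AtBAux.loc_congr A _ (A.mem_ch x) e)

theorem lapS_add (hO : IsOpen O) (hu : A.SmOn O u) (hv : A.SmOn O v) {x : S} (hx : x ∈ O) :
    A.lapS (fun z => u z + v z) x = A.lapS u x + A.lapS v x :=
  lap_add _ (A.isOpen_dom _ hO) (hu (A.ch x)) (hv (A.ch x)) (AtBAux.mem_dom A _ hx (A.mem_ch x))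

theorem lapS_cmul (c : ℝ) (u : S → ℝ) (x : S) : A.lapS (fun z => c * u z) x = c * A.lapS u x :=
  lap_cmul _ c (A.loc (A.ch x) u) _

end Atlas2

end Pool.Agent.P.MP_56a1cd_gt
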