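import Pool.Agent.P.MP_56a1cd_gt.AtB

namespace Pool.Agent.P.MP_56a1cd_gt

open MeasureTheory Matrix Set Filter Topology
open scoped ContDiff ENNReal

variable {m n : ℕ}

/-! PLAN. `smOn_push`: `smOn_of_local`; off the closed set `symm '' K` the function vanishes near the point.
Partition of unity: for each `x` take a nonnegative test function of `target (ch x)` that is positive at `e x`
(`exists_test`), push it to `S`, extract a finite subcover, group by chart index, divide by the total sum.
`ibp2`: write `u = ∑ χ i * u`; each term is handled in the chart `i` by `integral_chart`, `gamS_eq`, `lapS_eq` and `ibp` on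
`target i ∩ symm ⁻¹' O`. -/

namespace Atlas2

variable {S : Type} [TopologicalSpace S] (A : Atlas2 S) {O : Set S} {u v : S → ℝ}

theorem smOn_push [T2Space S] (i : Fin A.k) {K V : Set (E 2)} {f : E 2 → ℝ} (hK : IsCompact K)
    (hKt : K ⊆ (A.e i).target) (hV : IsOpen V) (hf : Sm ((A.e i).target ∩ V) f)
    (h0 : ∀ y ∈ (A.e i).target, y ∉ K → f y = 0) :
    A.SmOn {x | x ∈ (A.e i).source → A.e i x ∈ V}
        ((A.e i).source.indicator fun x => f (A.e i x)) ∧
      tsupport ((A.e i).source.indicator fun x => f (A.e i x)) ⊆ (A.e i).symm '' K := by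
  have hK' : IsCompact ((A.e i).symm '' K) :=
    hK.image_of_continuousOn ((A.e i).continuousOn_symm.mono hKt)
  have hKs : (A.e i).symm '' K ⊆ (A.e i).source := by
    rintro _ ⟨y, hy, rfl⟩
    exact (A.e i).map_target (hKt hy)
  have hz : ∀ x, x ∉ (A.e i).symm '' K →
      ((A.e i).source.indicator fun x => f (A.e i x)) x = 0 := by
    intro x hx
    by_cases hs : x ∈ (A.e i).source
    · rw [indicator_of_mem hs]
      apply h0 _ ((A.e i).map_source hs)
      intro hk
      exact hx ⟨_, hk, (A.e i).left_inv hs⟩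
    · exact indicator_of_notMem hs _
  refine ⟨A.smOn_of_local fun x hx => ?_, ?_⟩
  · by_cases hs : x ∈ (A.e i).source
    · refine ⟨i, hs, (A.e i).target ∩ V, (A.e i).open_target.inter hV,
        ⟨(A.e i).map_source hs, hx hs⟩, hf.congr fun y hy => ?_⟩
      simp only [loc]
      rw [indicator_of_mem ((A.e i).map_target hy.1), (A.e i).right_inv hy.1]
    · have hxK : x ∉ (A.e i).symm '' K := fun h => hs (hKs h)
      refine ⟨A.ch x, A.mem_ch x,
        (A.e (A.ch x)).target ∩ (A.e (A.ch x)).symm ⁻¹' ((A.e i).symm '' K)ᶜ,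
        A.isOpen_dom _ hK'.isClosed.isOpen_compl,
        ⟨(A.e _).map_source (A.mem_ch x), ?_⟩, (contDiffOn_const (c := (0 : ℝ))).congr
          fun y hy => hz _ hy.2⟩
      simp only [mem_preimage, (A.e _).left_inv (A.mem_ch x)]
      exact hxK
  · refine closure_minimal (fun x hx => ?_) hK'.isClosed
    by_contra h
    exact hx (hz x h)

end Atlas2

namespace AtCAux

open Atlas2

variable {S : Type} [TopologicalSpace S] (A : Atlas2 S) {O : Set S} {u v : S → ℝ}

theorem smOn_sum {ι : Type} (s : Finset ι) {w : ι → S → ℝ} (hw : ∀ j ∈ s, A.SmOn O (w j)) :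
    A.SmOn O (fun x => ∑ j ∈ s, w j x) := by
  classical
  induction s using Finset.induction_on with
  | empty => simpa using A.smOn_const O 0
  | insert a s ha ih =>
    simp only [Finset.sum_insert ha]
    exact SmOn.add A (hw a (Finset.mem_insert_self a s))
      (ih fun j hj => hw j (Finset.mem_insert_of_mem hj))

theorem gamS_sum (hO : IsOpen O) {ι : Type} (s : Finset ι) {w : ι → S → ℝ}
    (hw : ∀ j ∈ s, A.SmOn O (w j)) (v : S → ℝ) {x : S} (hx : x ∈ O) :
    A.gamS (fun z => ∑ j ∈ s, w j z) v x = ∑ j ∈ s, A.gamS (w j) v x := by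
  classical
  induction s using Finset.induction_on with
  | empty => simpa using A.gamS_const_left 0 v x
  | insert a s ha ih =>
    simp only [Finset.sum_insert ha]
    rw [A.gamS_add_left hO (hw a (Finset.mem_insert_self a s))
      (smOn_sum A s fun j hj => hw j (Finset.mem_insert_of_mem hj)) v hx,
      ih fun j hj => hw j (Finset.mem_insert_of_mem hj)]

theorem gamS_zero {w : S → ℝ} (v : S → ℝ) {x : S} (hx : x ∉ tsupport w) : A.gamS w v x = 0 := by
  have e : w =ᶠ[𝓝 x] fun _ => 0 := notMem_tsupport_iff_eventuallyEq.mp hx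
  rw [A.gamS_congr e (EventuallyEq.refl _ v), A.gamS_const_left]

theorem bump [T2Space S] (x : S) :
    ∃ P : S → ℝ, A.SmOn univ P ∧ tsupport P ⊆ (A.e (A.ch x)).source ∧ (∀ z, 0 ≤ P z) ∧
      0 < P x := by
  have hx := A.mem_ch x
  obtain ⟨χ, hχ, hb, h1⟩ := exists_test (K := {A.e (A.ch x) x}) (A.e (A.ch x)).open_target
    isCompact_singleton (singleton_subset_iff.mpr ((A.e _).map_source hx))
  obtain ⟨a1, a2⟩ := A.smOn_push (A.ch x) (K := tsupport χ) (V := univ) (f := χ) hχ.cpt hχ.sub
    isOpen_univ hχ.sm.contDiffOn (fun y _ hy => image_eq_zero_of_notMem_tsupport hy)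
  refine ⟨_, SmOn.mono A a1 fun z _ _ => mem_univ _, a2.trans ?_, fun z => ?_, ?_⟩
  · rintro _ ⟨y, hy, rfl⟩
    exact (A.e _).map_target (hχ.sub hy)
  · exact indicator_nonneg (fun z _ => (hb _).1) z
  · rw [indicator_of_mem hx, h1.self_of_nhdsSet _ (mem_singleton _)]
    exact one_pos

theorem ibp_chart [MeasurableSpace S] [BorelSpace S] [T2Space S] [CompactSpace S] (hO : IsOpen O)
    (hu : A.SmOn O u) (hv : A.SmOn O v) (hs : tsupport u ⊆ O) (i : Fin A.k)
    (hi : tsupport u ⊆ (A.e i).source) :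
    Integrable (A.gamS u v) A.μ ∧ Integrable (fun x => u x * A.lapS v x) A.μ ∧
      ∫ x, A.gamS u v x ∂A.μ = -∫ x, u x * A.lapS v x ∂A.μ := by
  have hBo : IsOpen ((A.e i).source ∩ O) := (A.e i).open_source.inter hO
  have hB : MeasurableSet ((A.e i).source ∩ O) := hBo.measurableSet
  have him : A.e i '' ((A.e i).source ∩ O) = (A.e i).target ∩ (A.e i).symm ⁻¹' O :=
    (A.e i).image_source_inter_eq' O
  have hU : IsOpen ((A.e i).target ∩ (A.e i).symm ⁻¹' O) := A.isOpen_dom i hO
  have hK : IsCompact (A.e i '' tsupport u) :=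
    (isClosed_tsupport u).isCompact.image_of_continuousOn ((A.e i).continuousOn.mono hi)
  have hKU : A.e i '' tsupport u ⊆ (A.e i).target ∩ (A.e i).symm ⁻¹' O := by
    rw [← him]
    exact image_mono fun x hx => ⟨hi hx, hs hx⟩
  have h0 : ∀ y ∈ (A.e i).target ∩ (A.e i).symm ⁻¹' O, y ∉ A.e i '' tsupport u →
      A.loc i u y = 0 := by
    intro y hy hk
    apply image_eq_zero_of_notMem_tsupport (f := u)
    intro h
    exact hk ⟨_, h, (A.e i).right_inv hy.1⟩
  obtain ⟨i1, i2, i3⟩ := ibp ((A.met i).mono hU inter_subset_left) (hu i) (hv i) hK hKU h0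
  have e1 : ∀ y ∈ (A.e i).target ∩ (A.e i).symm ⁻¹' O,
      gam (A.γ i) (A.loc i u) (A.loc i v) y * vol (A.γ i) y =
        A.gamS u v ((A.e i).symm y) * vol (A.γ i) y := by
    intro y hy
    rw [A.gamS_eq hO hu hv i hy.2 ((A.e i).map_target hy.1), (A.e i).right_inv hy.1]
  have e2 : ∀ y ∈ (A.e i).target ∩ (A.e i).symm ⁻¹' O,
      A.loc i u y * lap (A.γ i) (A.loc i v) y * vol (A.γ i) y =
        u ((A.e i).symm y) * A.lapS v ((A.e i).symm y) * vol (A.γ i) y := by
    intro y hy
    rw [A.lapS_eq hO hv i hy.2 ((A.e i).map_target hy.1), (A.e i).right_inv hy.1]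
    rfl
  obtain ⟨c1, c2⟩ := A.integral_chart i hB inter_subset_left (A.gamS u v)
  obtain ⟨d1, d2⟩ := A.integral_chart i hB inter_subset_left (fun x => u x * A.lapS v x)
  rw [him] at c1 c2 d1 d2
  have z1 : ∀ x, x ∉ (A.e i).source ∩ O → A.gamS u v x = 0 := fun x hx =>
    gamS_zero A v fun h => hx ⟨hi h, hs h⟩
  have z2 : ∀ x, x ∉ (A.e i).source ∩ O → u x * A.lapS v x = 0 := fun x hx => by
    rw [image_eq_zero_of_notMem_tsupport (f := u) fun h => hx ⟨hi h, hs h⟩, zero_mul]
  refine ⟨?_, ?_, ?_⟩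
  · exact (integrableOn_iff_integrable_of_support_subset fun x hx => by
      by_contra h
      exact hx (z1 x h)).mp (c1.mpr (i1.congr_fun e1 hU.measurableSet))
  · exact (integrableOn_iff_integrable_of_support_subset fun x hx => by
      by_contra h
      exact hx (z2 x h)).mp (d1.mpr (i2.congr_fun e2 hU.measurableSet))
  · rw [← setIntegral_eq_integral_of_forall_compl_eq_zero z1,
      ← setIntegral_eq_integral_of_forall_compl_eq_zero z2, c2, d2,
      ← setIntegral_congr_fun hU.measurableSet e1, ← setIntegral_congr_fun hU.measurableSet e2]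
    exact i3

end AtCAux

namespace Atlas2

open AtCAux

variable {S : Type} [TopologicalSpace S] (A : Atlas2 S) {O : Set S} {u v : S → ℝ}

theorem exists_partition [T2Space S] [CompactSpace S] :
    ∃ χ : Fin A.k → S → ℝ, (∀ i, A.SmOn univ (χ i)) ∧ (∀ i, tsupport (χ i) ⊆ (A.e i).source) ∧
      ∀ x, ∑ i, χ i x = 1 := by
  classical
  choose P hP hsup hnn hpos using bump A
  have hcont : ∀ x, Continuous (P x) := fun x =>
    continuousOn_univ.mp (SmOn.continuousOn A (hP x))
  obtain ⟨t, ht⟩ := isCompact_univ.elim_finite_subcover (fun x => {z | 0 < P x z})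
    (fun x => isOpen_lt continuous_const (hcont x))
    (fun x _ => mem_iUnion.mpr ⟨x, hpos x⟩)
  have hT : ∀ z, 0 < ∑ x ∈ t, P x z := by
    intro z
    obtain ⟨x, hx, hz⟩ := mem_iUnion₂.mp (ht (mem_univ z))
    exact Finset.sum_pos' (fun y _ => hnn y z) ⟨x, hx, hz⟩
  have hinv : A.SmOn univ (fun z => (∑ x ∈ t, P x z)⁻¹) :=
    SmOn.comp A (smOn_sum A t fun x _ => hP x) (β := fun r => r⁻¹) (J := {0}ᶜ)
      (contDiffOn_inv ℝ) fun z _ => (hT z).ne'
  refine ⟨fun i z => (∑ x ∈ t.filter (fun x => A.ch x = i), P x z) * (∑ x ∈ t, P x z)⁻¹,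
    fun i => SmOn.mul A (smOn_sum A _ fun x _ => hP x) hinv, fun i => ?_, fun z => ?_⟩
  · have hc : IsClosed (⋃ x ∈ t.filter (fun x => A.ch x = i), tsupport (P x)) :=
      isClosed_biUnion_finset fun x _ => isClosed_tsupport _
    refine (closure_minimal (fun z hz => ?_) hc).trans ?_
    · by_contra h
      apply hz
      have : ∑ x ∈ t.filter (fun x => A.ch x = i), P x z = 0 :=
        Finset.sum_eq_zero fun x hx => image_eq_zero_of_notMem_tsupport fun hh =>
          h (mem_iUnion₂.mpr ⟨x, hx, hh⟩)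
      simp only [this, zero_mul]
    · intro z hz
      obtain ⟨x, hx, hz⟩ := mem_iUnion₂.mp hz
      have e : A.ch x = i := (Finset.mem_filter.mp hx).2
      exact e ▸ hsup x hz
  · rw [← Finset.sum_mul, Finset.sum_fiberwise t A.ch (fun x => P x z)]
    exact mul_inv_cancel₀ (hT z).ne'

theorem ibp2 [MeasurableSpace S] [BorelSpace S] [T2Space S] [CompactSpace S] (hO : IsOpen O)
    (hu : A.SmOn O u) (hv : A.SmOn O v) (hs : tsupport u ⊆ O) :
    Integrable (A.gamS u v) A.μ ∧ Integrable (fun x => u x * A.lapS v x) A.μ ∧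
      ∫ x, A.gamS u v x ∂A.μ = -∫ x, u x * A.lapS v x ∂A.μ := by
  obtain ⟨χ, h1, h2, h3⟩ := A.exists_partition
  have hw : ∀ i, A.SmOn O (fun x => χ i x * u x) := fun i =>
    SmOn.mul A (SmOn.mono A (h1 i) (subset_univ O)) hu
  have hwu : ∀ i, tsupport (fun x => χ i x * u x) ⊆ tsupport u := fun i =>
    tsupport_mul_subset_right
  have key := fun i => ibp_chart A hO (hw i) hv ((hwu i).trans hs) i
    (tsupport_mul_subset_left.trans (h2 i))
  have eu : u = fun x => ∑ i, χ i x * u x := by
    funext x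
    rw [← Finset.sum_mul, h3, one_mul]
  have e1 : A.gamS u v = fun x => ∑ i, A.gamS (fun x => χ i x * u x) v x := by
    funext x
    by_cases hx : x ∈ O
    · rw [← gamS_sum A hO Finset.univ (fun i _ => hw i) v hx, ← eu]
    · have hx' : x ∉ tsupport u := fun h => hx (hs h)
      rw [gamS_zero A v hx']
      exact (Finset.sum_eq_zero fun i _ => gamS_zero A v fun h => hx' (hwu i h)).symm
  have e2 : (fun x => u x * A.lapS v x) = fun x => ∑ i, χ i x * u x * A.lapS v x := by
    funext x
    rw [← Finset.sum_mul, ← Finset.sum_mul, h3, one_mul]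
  rw [e1, e2]
  refine ⟨integrable_finsetSum _ fun i _ => (key i).1,
    integrable_finsetSum _ fun i _ => (key i).2.1, ?_⟩
  rw [integral_finsetSum _ fun i _ => (key i).1,
    integral_finsetSum _ fun i _ => (key i).2.1, ← Finset.sum_neg_distrib]
  exact Finset.sum_congr rfl fun i _ => (key i).2.2

end Atlas2

end Pool.Agent.P.MP_56a1cd_gt
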