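import Pool.Agent.P.MP_56a1cd_gt.CalcN

namespace Pool.Agent.P.MP_56a1cd_gt

open MeasureTheory Matrix Set Filter Topology
open scoped ContDiff ENNReal

variable {m n : ℕ}

/-! Poincare inequalities on cubes: integrate the gradient along segments, rescale, use Tonelli. -/

namespace PoincAux

/-- Scaling towards a point costs at most a factor `2 ^ n`. -/
theorem scale_le {f : E n → ℝ≥0∞} (hf : Measurable f) (x : E n) {t : ℝ} (ht : 1 / 2 ≤ t) :
    ∫⁻ y, f (x + t • (y - x)) ≤ 2 ^ n * ∫⁻ z, f z := by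
  have ht0 : t ≠ 0 := by linarith [show (0 : ℝ) < t by linarith]
  have h1 : ∀ y : E n, x + t • (y - x) = t • y + (x - t • x) := by
    intro y
    rw [smul_sub]
    abel
  simp_rw [h1]
  have hm : Measurable fun z : E n => f (z + (x - t • x)) := hf.comp (measurable_add_const _)
  have h2 : ∫⁻ y : E n, f (t • y + (x - t • x)) =
      ∫⁻ z, f (z + (x - t • x)) ∂(Measure.map (fun y : E n => t • y) volume) := by
    rw [lintegral_map hm (measurable_const_smul t)]
  rw [h2, Measure.map_addHaar_smul volume ht0, lintegral_smul_measure,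
    lintegral_add_right_eq_self (fun z => f z) (x - t • x), smul_eq_mul]
  refine mul_le_mul_left ?_ _
  have hfin : Module.finrank ℝ (E n) = n := by simp
  rw [hfin]
  have h3 : |(t ^ n)⁻¹| ≤ 2 ^ n := by
    have hp : (0 : ℝ) < t := by linarith
    rw [abs_of_pos (by positivity), ← inv_pow]
    refine pow_le_pow_left₀ (by positivity) ?_ n
    rw [inv_le_comm₀ hp (by norm_num)]
    linarith
  calc ENNReal.ofReal |(t ^ n)⁻¹| ≤ ENNReal.ofReal (2 ^ n) := ENNReal.ofReal_le_ofReal h3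
    _ = 2 ^ n := by rw [ENNReal.ofReal_pow (by norm_num)]; simp

/-- Cauchy-Schwarz on the interval from `1 / 2` to `1`. -/
theorem sq_int_le {f : ℝ → ℝ} (hf : ContinuousOn f (Icc (1 / 2) 1)) :
    (∫ t in (1 / 2 : ℝ)..1, f t) ^ 2 ≤ ∫ t in (1 / 2 : ℝ)..1, f t ^ 2 := by
  have hle : (1 / 2 : ℝ) ≤ 1 := by norm_num
  have hf' : ContinuousOn f (uIcc (1 / 2) 1) := by rwa [uIcc_of_le hle]
  have i1 : IntervalIntegrable f volume (1 / 2) 1 := hf'.intervalIntegrable
  have i2 : IntervalIntegrable (fun t => f t ^ 2) volume (1 / 2) 1 :=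
    (hf'.pow 2).intervalIntegrable
  set I := ∫ t in (1 / 2 : ℝ)..1, f t with hI
  have h0 : 0 ≤ ∫ t in (1 / 2 : ℝ)..1, (f t - 2 * I) ^ 2 :=
    intervalIntegral.integral_nonneg hle fun t _ => sq_nonneg _
  have h1 : (fun t => (f t - 2 * I) ^ 2) = fun t => (f t ^ 2 - 4 * I * f t) + 4 * I ^ 2 := by
    funext t
    ring
  rw [h1, intervalIntegral.integral_add (i2.sub (i1.const_mul _)) intervalIntegrable_const,
    intervalIntegral.integral_sub i2 (i1.const_mul _), intervalIntegral.integral_const_mul,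
    intervalIntegral.integral_const, ← hI, smul_eq_mul] at h0
  nlinarith [sq_nonneg I]

/-- The pointwise estimate along the second half of a segment. -/
theorem seg_le {c : E n} {R : ℝ} {u : E n → ℝ} (hu : Sm (Metric.ball c R) u) {x y : E n}
    (hx : x ∈ Metric.ball c R) (hy : y ∈ Metric.ball c R) :
    ENNReal.ofReal ((u y - u (x + (1 / 2 : ℝ) • (y - x))) ^ 2) ≤
      ENNReal.ofReal (n * (2 * R) ^ 2) * ∫⁻ t in Ioc (1 / 2 : ℝ) 1,
        (Metric.ball c R).indicator (fun z => ENNReal.ofReal (∑ i, pd i u z ^ 2))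
          (x + t • (y - x)) := by
  have hle : (1 / 2 : ℝ) ≤ 1 := by norm_num
  have hB : IsOpen (Metric.ball c R) := Metric.isOpen_ball
  have hmem : ∀ t ∈ Icc (1 / 2 : ℝ) 1, x + t • (y - x) ∈ Metric.ball c R := fun t ht =>
    (convex_ball c R).add_smul_sub_mem hx hy ⟨by linarith [ht.1], ht.2⟩
  have hpath : Continuous fun t : ℝ => x + t • (y - x) := by fun_prop
  set d : ℝ → ℝ := fun t => ∑ i, (y - x) i * pd i u (x + t • (y - x)) with hd
  have hcp : ∀ i, ContinuousOn (fun t : ℝ => pd i u (x + t • (y - x))) (Icc (1 / 2) 1) :=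
    fun i => (sm_pd hB hu i).continuousOn.comp hpath.continuousOn hmem
  have hdc : ContinuousOn d (Icc (1 / 2) 1) :=
    continuousOn_finsetSum _ fun i _ => continuousOn_const.mul (hcp i)
  have hder : ∀ t ∈ uIcc (1 / 2 : ℝ) 1, HasDerivAt (fun s : ℝ => u (x + s • (y - x))) (d t) t := by
    intro t ht
    rw [uIcc_of_le hle] at ht
    have h1 : HasDerivAt (fun s : ℝ => x + s • (y - x)) (y - x) t := by
      simpa using ((hasDerivAt_id t).smul_const (y - x)).const_add x
    have h2 := (sm_da hB hu (hmem t ht)).hasFDerivAt.comp_hasDerivAt t h1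
    rw [fderiv_eq_sum] at h2
    exact h2
  have hftc := intervalIntegral.integral_eq_sub_of_hasDerivAt hder
    (by rw [← uIcc_of_le hle] at hdc; exact hdc.intervalIntegrable)
  have e1 : x + (1 : ℝ) • (y - x) = y := by simp
  rw [e1] at hftc
  rw [← hftc]
  refine (ENNReal.ofReal_le_ofReal (sq_int_le hdc)).trans ?_
  have hd2 : IntegrableOn (fun t => d t ^ 2) (Ioc (1 / 2) 1) :=
    ((hdc.pow 2).integrableOn_Icc).mono_set Ioc_subset_Icc_self
  rw [intervalIntegral.integral_of_le hle, ofReal_integral_eq_lintegral_ofReal hd2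
    (Eventually.of_forall fun t => sq_nonneg _),
    ← lintegral_const_mul' _ _ ENNReal.ofReal_ne_top]
  refine setLIntegral_mono' measurableSet_Ioc fun t ht => ?_
  rw [indicator_of_mem (hmem t (Ioc_subset_Icc_self ht)),
    ← ENNReal.ofReal_mul (by positivity)]
  refine ENNReal.ofReal_le_ofReal ?_
  refine (Finset.sum_mul_sq_le_sq_mul_sq Finset.univ (fun i => (y - x) i)
    (fun i => pd i u (x + t • (y - x)))).trans ?_
  refine mul_le_mul_of_nonneg_right ?_ (Finset.sum_nonneg fun i _ => sq_nonneg _)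
  have hdist : ‖y - x‖ ≤ 2 * R := by
    rw [← dist_eq_norm]
    have := dist_triangle_right y x c
    rw [Metric.mem_ball] at hx hy
    linarith
  have hi : ∀ i, (y - x) i ^ 2 ≤ (2 * R) ^ 2 := by
    intro i
    rw [← sq_abs]
    refine pow_le_pow_left₀ (abs_nonneg _) ?_ 2
    exact (norm_le_pi_norm (y - x) i).trans hdist
  calc ∑ i, (y - x) i ^ 2 ≤ ∑ _i : Fin n, (2 * R) ^ 2 := Finset.sum_le_sum fun i _ => hi i
    _ = n * (2 * R) ^ 2 := by simp

/-- The integrated estimate with a fixed centre. -/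
theorem half_le {f : E n → ℝ≥0∞} (hf : Measurable f) (x : E n) :
    ∫⁻ y, ∫⁻ t in Ioc (1 / 2 : ℝ) 1, f (x + t • (y - x)) ≤ 2 ^ n * ∫⁻ z, f z := by
  have hm : Measurable (Function.uncurry fun (y : E n) (t : ℝ) => f (x + t • (y - x))) :=
    hf.comp (by fun_prop)
  rw [lintegral_lintegral_swap hm.aemeasurable]
  calc ∫⁻ t in Ioc (1 / 2 : ℝ) 1, ∫⁻ y, f (x + t • (y - x))
      ≤ ∫⁻ _t in Ioc (1 / 2 : ℝ) 1, 2 ^ n * ∫⁻ z, f z :=
        setLIntegral_mono' measurableSet_Ioc fun t ht => scale_le hf x ht.1.le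
    _ ≤ 2 ^ n * ∫⁻ z, f z := by
        rw [setLIntegral_const]
        refine mul_le_of_le_one_right' ?_
        rw [Real.volume_Ioc]
        exact ENNReal.ofReal_le_one.2 (by norm_num)

end PoincAux

theorem poincare_ball (c : E n) (R : ℝ) :
    ∃ C : ℝ≥0∞, C ≠ ⊤ ∧ ∀ u : E n → ℝ, Sm (Metric.ball c R) u →
      ∫⁻ x in Metric.ball c R, ∫⁻ y in Metric.ball c R, ENNReal.ofReal ((u x - u y) ^ 2) ≤
        C * ∫⁻ x in Metric.ball c R, ENNReal.ofReal (∑ i, pd i u x ^ 2) := by
  set B := Metric.ball c R with hBdef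
  have hBm : MeasurableSet B := Metric.isOpen_ball.measurableSet
  have hBf : volume B ≠ ⊤ := Metric.isBounded_ball.measure_lt_top.ne
  set K : ℝ≥0∞ := ENNReal.ofReal (n * (2 * R) ^ 2) with hK
  have hKf : K ≠ ⊤ := ENNReal.ofReal_ne_top
  have h2K : 2 * K ≠ ⊤ := ENNReal.mul_ne_top (by simp) hKf
  refine ⟨2 * (2 * K * (2 ^ n * volume B)), ?_, fun u hu => ?_⟩
  · exact ENNReal.mul_ne_top (by simp) (ENNReal.mul_ne_top h2K
      (ENNReal.mul_ne_top (ENNReal.pow_ne_top (by simp)) hBf))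
  set f : E n → ℝ≥0∞ := B.indicator fun z => ENNReal.ofReal (∑ i, pd i u z ^ 2) with hf
  have hfm : Measurable f :=
    (ENNReal.measurable_ofReal.comp
      (Finset.measurable_sum _ fun i _ => (measurable_pd u i).pow_const 2)).indicator hBm
  set F : E n → E n → ℝ≥0∞ := fun x y => ∫⁻ t in Ioc (1 / 2 : ℝ) 1, f (x + t • (y - x)) with hF
  have hFm : Measurable (Function.uncurry F) := by
    have : Measurable (Function.uncurry fun (p : E n × E n) (t : ℝ) =>
        f (p.1 + t • (p.2 - p.1))) := hfm.comp (by fun_prop)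
    exact this.lintegral_prod_right
  have hpt : ∀ x ∈ B, ∀ y ∈ B,
      ENNReal.ofReal ((u x - u y) ^ 2) ≤ 2 * K * F x y + 2 * K * F y x := by
    intro x hx y hy
    have h1 := PoincAux.seg_le hu hx hy
    have h2 := PoincAux.seg_le hu hy hx
    have e : y + (1 / 2 : ℝ) • (x - y) = x + (1 / 2 : ℝ) • (y - x) := by
      funext i
      simp only [Pi.add_apply, Pi.smul_apply, Pi.sub_apply, smul_eq_mul]
      ring
    rw [e] at h2
    set w := u (x + (1 / 2 : ℝ) • (y - x))
    calc ENNReal.ofReal ((u x - u y) ^ 2)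
        ≤ ENNReal.ofReal (2 * (u y - w) ^ 2 + 2 * (u x - w) ^ 2) :=
          ENNReal.ofReal_le_ofReal (by nlinarith [sq_nonneg (u x + u y - 2 * w)])
      _ = 2 * ENNReal.ofReal ((u y - w) ^ 2) + 2 * ENNReal.ofReal ((u x - w) ^ 2) := by
          rw [ENNReal.ofReal_add (by positivity) (by positivity),
            ENNReal.ofReal_mul (by norm_num), ENNReal.ofReal_mul (by norm_num)]
          simp
      _ ≤ 2 * K * F x y + 2 * K * F y x := by
          rw [mul_assoc, mul_assoc]
          exact add_le_add (mul_le_mul_right h1 _) (mul_le_mul_right h2 _)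
  have hF1 : ∀ x, ∫⁻ y, F x y ≤ 2 ^ n * ∫⁻ z, f z := fun x => PoincAux.half_le hfm x
  have hfI : ∫⁻ z, f z = ∫⁻ x in B, ENNReal.ofReal (∑ i, pd i u x ^ 2) := by
    rw [hf, lintegral_indicator hBm]
  clear_value F f K
  have hI : ∫⁻ x in B, ∫⁻ y in B, F x y ≤ (2 ^ n * volume B) * ∫⁻ z, f z := by
    calc ∫⁻ x in B, ∫⁻ y in B, F x y ≤ ∫⁻ _x in B, 2 ^ n * ∫⁻ z, f z :=
          lintegral_mono fun x =>
            (setLIntegral_le_lintegral _ _).trans (hF1 x)
      _ = (2 ^ n * volume B) * ∫⁻ z, f z := by rw [setLIntegral_const]; ring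
  have hswap : ∫⁻ x in B, ∫⁻ y in B, F y x = ∫⁻ x in B, ∫⁻ y in B, F x y :=
    (lintegral_lintegral_swap hFm.aemeasurable).symm
  have hFx : ∀ x, Measurable (F x) := fun x => hFm.comp measurable_prodMk_left
  have hFi : Measurable fun x => ∫⁻ y in B, F x y := hFm.lintegral_prod_right
  calc ∫⁻ x in B, ∫⁻ y in B, ENNReal.ofReal ((u x - u y) ^ 2)
      ≤ ∫⁻ x in B, ∫⁻ y in B, (2 * K * F x y + 2 * K * F y x) :=
        setLIntegral_mono' hBm fun x hx => setLIntegral_mono' hBm fun y hy => hpt x hx y hy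
    _ = ∫⁻ x in B, (2 * K * (∫⁻ y in B, F x y) + 2 * K * ∫⁻ y in B, F y x) := by
        refine lintegral_congr fun x => ?_
        rw [lintegral_add_left ((hFx x).const_mul _), lintegral_const_mul' _ _ h2K,
          lintegral_const_mul' _ _ h2K]
    _ = 2 * K * (∫⁻ x in B, ∫⁻ y in B, F x y) + 2 * K * ∫⁻ x in B, ∫⁻ y in B, F y x := by
        rw [lintegral_add_left (hFi.const_mul _), lintegral_const_mul' _ _ h2K,
          lintegral_const_mul' _ _ h2K]
    _ = 2 * (2 * K * ∫⁻ x in B, ∫⁻ y in B, F x y) := by rw [hswap, two_mul (2 * K * _)]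
    _ ≤ 2 * (2 * K * ((2 ^ n * volume B) * ∫⁻ z, f z)) := by gcongr
    _ = _ := by rw [hfI]; ring

theorem poincare_zero (c : E n) (R : ℝ) {A : Set (E n)} (hA : IsOpen A) (hne : A.Nonempty)
    (hAB : A ⊆ Metric.ball c R) :
    ∃ C : ℝ, 0 < C ∧ ∀ u : E n → ℝ, ContDiff ℝ ∞ u → (∀ x ∈ A, u x = 0) →
      ∫ x in Metric.ball c R, u x ^ 2 ≤ C * ∫ x in Metric.ball c R, ∑ i, pd i u x ^ 2 := by
  obtain ⟨C, hC, h⟩ := poincare_ball c R
  set B := Metric.ball c R with hBdef
  have hBm : MeasurableSet B := Metric.isOpen_ball.measurableSet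
  have hA0 : volume A ≠ 0 := (hA.measure_pos volume hne).ne'
  have hAf : volume A ≠ ⊤ :=
    ((measure_mono hAB).trans_lt Metric.isBounded_ball.measure_lt_top).ne
  have hD : C / volume A ≠ ⊤ := ENNReal.div_ne_top hC hA0
  refine ⟨(C / volume A).toReal + 1, by positivity, fun u hu h0 => ?_⟩
  have hint : ∀ g : E n → ℝ, Continuous g → IntegrableOn g B := fun g hg =>
    (hg.continuousOn.integrableOn_compact (isCompact_closedBall c R)).mono_set
      Metric.ball_subset_closedBall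
  have hg1 : Continuous fun x => u x ^ 2 := hu.continuous.pow 2
  have hg2 : Continuous fun x => ∑ i, pd i u x ^ 2 :=
    continuous_finsetSum _ fun i _ => (contDiff_pd hu i).continuous.pow 2
  have n2 : ∀ x, 0 ≤ ∑ i, pd i u x ^ 2 := fun x => Finset.sum_nonneg fun i _ => sq_nonneg _
  have e1 := ofReal_integral_eq_lintegral_ofReal (hint _ hg1)
    (Eventually.of_forall fun x => sq_nonneg _)
  have e2 := ofReal_integral_eq_lintegral_ofReal (hint _ hg2) (Eventually.of_forall n2)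
  have hJ : 0 ≤ ∫ x in B, ∑ i, pd i u x ^ 2 := integral_nonneg n2
  have h1 : (∫⁻ x in B, ENNReal.ofReal (u x ^ 2)) * volume A ≤
      C * ∫⁻ x in B, ENNReal.ofReal (∑ i, pd i u x ^ 2) := by
    refine le_trans ?_ (h u hu.contDiffOn)
    rw [← lintegral_mul_const' _ _ hAf]
    refine lintegral_mono fun x => ?_
    calc ENNReal.ofReal (u x ^ 2) * volume A = ∫⁻ y in A, ENNReal.ofReal ((u x - u y) ^ 2) := by
          rw [← setLIntegral_const]
          refine setLIntegral_congr_fun hA.measurableSet fun y hy => ?_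
          simp only [h0 y hy, sub_zero]
      _ ≤ _ := lintegral_mono_set hAB
  rw [← e1, ← e2] at h1
  have h2 : ENNReal.ofReal (∫ x in B, u x ^ 2) ≤
      C / volume A * ENNReal.ofReal (∫ x in B, ∑ i, pd i u x ^ 2) := by
    rw [div_eq_mul_inv, mul_right_comm, ← div_eq_mul_inv]
    exact (ENNReal.le_div_iff_mul_le (Or.inl hA0) (Or.inl hAf)).2 h1
  rw [← ENNReal.ofReal_toReal hD, ← ENNReal.ofReal_mul ENNReal.toReal_nonneg,
    ENNReal.ofReal_le_ofReal_iff (mul_nonneg ENNReal.toReal_nonneg hJ)] at h2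
  nlinarith

end Pool.Agent.P.MP_56a1cd_gt
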