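import Pool.Agent.P.MP_56a1cd_gt.AtB
import Pool.Agent.P.MP_56a1cd_gt.Poinc
import Pool.Agent.P.MP_07ee5e_gt.Glue

namespace Pool.Agent.P.MP_56a1cd_gt

open MeasureTheory Matrix Set Filter Topology
open scoped ContDiff ENNReal

variable {m n : ℕ}

namespace AtPoiAux

variable {S : Type} [TopologicalSpace S] [MeasurableSpace S] [BorelSpace S] [T2Space S]
  (A : Atlas2 S)

/-- Smooth functions paired with their energy. -/
def fam : Set ((S → ℝ) × ℝ≥0∞) :=
  {q | A.SmOn univ q.1 ∧ q.2 = ∫⁻ x, ENNReal.ofReal (A.gamS q.1 q.1 x) ∂A.μ}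

theorem loc_rel (x : S) :
    ∃ U, IsOpen U ∧ x ∈ U ∧ Pool.Agent.P.MP_07ee5e_gt.Rel A.μ (fam A) U U := by
  obtain ⟨i, hi⟩ := A.cover x
  obtain ⟨R, hR, hsub⟩ := Metric.nhds_basis_closedBall.mem_iff.mp
    ((A.e i).open_target.mem_nhds ((A.e i).map_source hi))
  have hball : Metric.ball (A.e i x) R ⊆ (A.e i).target := Metric.ball_subset_closedBall.trans hsub
  set U : Set S := (A.e i).source ∩ A.e i ⁻¹' Metric.ball (A.e i x) R with hU
  have hUo : IsOpen U := (A.e i).isOpen_inter_preimage Metric.isOpen_ball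
  have hUs : U ⊆ (A.e i).source := inter_subset_left
  have him : A.e i '' U = Metric.ball (A.e i x) R := by
    apply Subset.antisymm
    · rintro _ ⟨z, hz, rfl⟩
      exact hz.2
    · intro y hy
      refine ⟨(A.e i).symm y, ⟨(A.e i).map_target (hball hy), ?_⟩, (A.e i).right_inv (hball hy)⟩
      rw [mem_preimage, (A.e i).right_inv (hball hy)]
      exact hy
  obtain ⟨c, C, hc, _, hel⟩ := (A.met i).ellip_gam (isCompact_closedBall _ R) hsub
  obtain ⟨P, hP, hpoi⟩ := poincare_ball (A.e i x) R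
  refine ⟨U, hUo, ⟨hi, Metric.mem_ball_self hR⟩,
    ENNReal.ofReal C * ENNReal.ofReal C * P * ENNReal.ofReal c⁻¹, ?_, ?_⟩
  · exact ENNReal.mul_ne_top (ENNReal.mul_ne_top
      (ENNReal.mul_ne_top ENNReal.ofReal_ne_top ENNReal.ofReal_ne_top) hP) ENNReal.ofReal_ne_top
  rintro ⟨u, E⟩ ⟨hu, hE⟩
  simp only at hu hE ⊢
  have hup : ∀ f : S → ℝ≥0∞, ∫⁻ z in U, f z ∂A.μ ≤
      ENNReal.ofReal C * ∫⁻ y in Metric.ball (A.e i x) R, f ((A.e i).symm y) := by
    intro f
    rw [A.lintegral_chart i hUo.measurableSet hUs, him,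
      ← lintegral_const_mul' _ _ ENNReal.ofReal_ne_top]
    refine setLIntegral_mono' measurableSet_ball fun y hy => ?_
    rw [mul_comm]
    exact mul_le_mul_left
      (ENNReal.ofReal_le_ofReal (hel y (Metric.ball_subset_closedBall hy)).2.1) _
  have hsm : Sm (Metric.ball (A.e i x) R) (A.loc i u) :=
    (hu i).mono fun y hy => ⟨hball hy, mem_univ _⟩
  have h1 : Pool.Agent.P.MP_07ee5e_gt.osc A.μ u U U ≤ ENNReal.ofReal C * (ENNReal.ofReal C *
      ∫⁻ y in Metric.ball (A.e i x) R, ∫⁻ w in Metric.ball (A.e i x) R,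
        ENNReal.ofReal ((A.loc i u y - A.loc i u w) ^ 2)) := by
    unfold Pool.Agent.P.MP_07ee5e_gt.osc
    refine (hup _).trans (mul_le_mul_right ?_ _)
    rw [← lintegral_const_mul' _ _ ENNReal.ofReal_ne_top]
    exact lintegral_mono fun y => hup _
  have h2 : ∫⁻ y in Metric.ball (A.e i x) R, ENNReal.ofReal (∑ j, pd j (A.loc i u) y ^ 2) ≤
      ENNReal.ofReal c⁻¹ * E := by
    have h3 : ∫⁻ z in U, ENNReal.ofReal (A.gamS u u z) ∂A.μ ≤ E := by
      rw [hE]
      exact setLIntegral_le_lintegral _ _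
    refine le_trans ?_ (mul_le_mul_right h3 _)
    rw [A.lintegral_chart i hUo.measurableSet hUs, him,
      ← lintegral_const_mul' _ _ ENNReal.ofReal_ne_top]
    refine setLIntegral_mono' measurableSet_ball fun y hy => ?_
    rw [← ENNReal.ofReal_mul (A.gamS_nonneg _ _), ← ENNReal.ofReal_mul (inv_nonneg.mpr hc.le),
      A.gamS_eq isOpen_univ hu hu i (mem_univ _) ((A.e i).map_target (hball hy)),
      (A.e i).right_inv (hball hy)]
    refine ENNReal.ofReal_le_ofReal ?_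
    rw [le_inv_mul_iff₀ hc]
    exact ((hel y (Metric.ball_subset_closedBall hy)).2.2 _).1
  calc Pool.Agent.P.MP_07ee5e_gt.osc A.μ u U U
      ≤ ENNReal.ofReal C * (ENNReal.ofReal C * (P * (ENNReal.ofReal c⁻¹ * E))) :=
        h1.trans (mul_le_mul_right (mul_le_mul_right
          ((hpoi _ hsm).trans (mul_le_mul_right h2 _)) _) _)
    _ = ENNReal.ofReal C * ENNReal.ofReal C * P * ENNReal.ofReal c⁻¹ * E := by ring

end AtPoiAux

namespace Atlas2

variable {S : Type} [TopologicalSpace S] [MeasurableSpace S] [BorelSpace S] [T2Space S]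
  [CompactSpace S] [ConnectedSpace S] (A : Atlas2 S)

theorem poincare2 : ∃ C : ℝ, 0 < C ∧ ∀ u, A.SmOn univ u → ∫ x, u x ∂A.μ = 0 →
    ∫ x, u x ^ 2 ∂A.μ ≤ C * ∫ x, A.gamS u u x ∂A.μ := by
  have := A.isFiniteMeasure_μ
  have hcont : ∀ u, A.SmOn univ u → Continuous u := fun u hu =>
    continuousOn_univ.mp (SmOn.continuousOn A hu)
  obtain ⟨C, hC, hrel⟩ := Pool.Agent.P.MP_07ee5e_gt.glue (μ := A.μ) (S := AtPoiAux.fam A)
    isCompact_univ isConnected_univ (fun U hU hne => A.μ_ne_zero hU (hne.mono inter_subset_left))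
    (fun q hq => (hcont _ hq.1).measurable) fun x _ => AtPoiAux.loc_rel A x
  have hpos : 0 < (A.μ univ).toReal :=
    ENNReal.toReal_pos (A.μ_ne_zero isOpen_univ univ_nonempty) (measure_ne_top _ _)
  refine ⟨C.toReal / (A.μ univ).toReal + 1, by positivity, fun u hu h0 => ?_⟩
  have hg : Integrable (A.gamS u u) A.μ :=
    A.integrable_of_continuous (hcont _ (SmOn.gamS A isOpen_univ hu hu))
  have hg0 : 0 ≤ ∫ x, A.gamS u u x ∂A.μ := integral_nonneg fun x => A.gamS_nonneg u x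
  have h1 := Pool.Agent.P.MP_07ee5e_gt.mul_le_osc (A.integrable_of_continuous (hcont u hu))
    (A.integrable_of_continuous ((hcont u hu).pow 2)) h0
  have h2 := hrel (u, ∫⁻ x, ENNReal.ofReal (A.gamS u u x) ∂A.μ) ⟨hu, rfl⟩
  simp only at h2
  rw [← ofReal_integral_eq_lintegral_ofReal hg
    (Eventually.of_forall fun x => A.gamS_nonneg u x)] at h2
  have h3 := ENNReal.toReal_mono (ENNReal.mul_ne_top hC ENNReal.ofReal_ne_top) (h1.trans h2)
  rw [ENNReal.toReal_mul, ENNReal.toReal_mul, ENNReal.toReal_ofReal hg0,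
    ENNReal.toReal_ofReal (integral_nonneg fun x => sq_nonneg _)] at h3
  have h4 : ∫ x, u x ^ 2 ∂A.μ ≤ C.toReal / (A.μ univ).toReal * ∫ x, A.gamS u u x ∂A.μ := by
    rw [div_mul_eq_mul_div, le_div_iff₀ hpos]
    exact h3
  linarith

end Atlas2

end Pool.Agent.P.MP_56a1cd_gt
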