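import Pool.Agent.P.MP_56a1cd_gt.ChartI

namespace Pool.Agent.P.MP_56a1cd_gt

open MeasureTheory Matrix Set Filter Topology
open scoped ContDiff ENNReal

variable {m n : ℕ}

namespace H1ChartAux

theorem integrand_nonneg (u v : E n → ℝ) (x : E n) :
    0 ≤ (u x - v x) ^ 2 + ∑ i, (pd i u x - pd i v x) ^ 2 :=
  add_nonneg (sq_nonneg _) (Finset.sum_nonneg fun _ _ => sq_nonneg _)

theorem sm_cont {U : Set (E n)} {u : E n → ℝ} (hu : Sm U u) : ContinuousOn u U :=
  ContDiffOn.continuousOn hu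

theorem integrand_cont {U : Set (E n)} (hU : IsOpen U) {u v : E n → ℝ} (hu : Sm U u)
    (hv : Sm U v) :
    ContinuousOn (fun x => (u x - v x) ^ 2 + ∑ i, (pd i u x - pd i v x) ^ 2) U := by
  refine (((sm_cont hu).sub (sm_cont hv)).pow 2).add (continuousOn_finsetSum _ fun i _ => ?_)
  exact ((sm_cont (sm_pd hU hu i)).sub (sm_cont (sm_pd hU hv i))).pow 2

theorem weight_cont {U : Set (E n)} (hU : IsOpen U) {v : E n → ℝ} (hv : Sm U v)
    {a b : E n → ℝ} (ha : ContinuousOn a U) (hb : ContinuousOn b U) :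
    ContinuousOn (fun x => a x * v x ^ 2 + b x * ∑ i, pd i v x ^ 2) U := by
  refine (ha.mul ((sm_cont hv).pow 2)).add (hb.mul (continuousOn_finsetSum _ fun i _ => ?_))
  exact (sm_cont (sm_pd hU hv i)).pow 2

theorem sq_le_two (p q : ℝ) : q ^ 2 ≤ 2 * p ^ 2 + 2 * (p - q) ^ 2 := by
  nlinarith [sq_nonneg (2 * p - q)]

theorem sum_comp_le (d : Fin n → ℝ) (J : Matrix (Fin n) (Fin n) ℝ) :
    ∑ j, (∑ i, d i * J i j) ^ 2 ≤ (∑ j, ∑ i, J i j ^ 2) * ∑ i, d i ^ 2 := by
  rw [Finset.sum_mul]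
  refine Finset.sum_le_sum fun j _ => ?_
  rw [mul_comm]
  exact Finset.sum_mul_sq_le_sq_mul_sq _ _ _

theorem exists_exhaustion {U : Set (E n)} (hU : IsOpen U) :
    ∃ K : ℕ → Set (E n), (∀ k, IsCompact (K k)) ∧ (∀ k, K k ⊆ U) ∧
      ∀ x ∈ U, ∀ᶠ k in atTop, x ∈ K k := by
  obtain ⟨F, hFc, hFU, hFu, hFm⟩ := hU.exists_iUnion_isClosed
  refine ⟨fun k => F k ∩ Metric.closedBall 0 (k : ℝ), fun k => ?_, fun k => ?_, fun x hx => ?_⟩
  · exact (isCompact_closedBall (0 : E n) (k : ℝ)).inter_left (hFc k)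
  · exact inter_subset_left.trans (hFU k)
  · rw [← hFu] at hx
    obtain ⟨k0, hk0⟩ := mem_iUnion.1 hx
    obtain ⟨k1, hk1⟩ := exists_nat_ge (dist x 0)
    filter_upwards [eventually_ge_atTop k0, eventually_ge_atTop k1] with k h0 h1
    refine ⟨hFm h0 hk0, ?_⟩
    rw [Metric.mem_closedBall]
    exact hk1.trans (by exact_mod_cast h1)

theorem integrableOn_of_bdd {U : Set (E n)} (hU : IsOpen U) {f : E n → ℝ}
    (hf : ContinuousOn f U) (h0 : ∀ x ∈ U, 0 ≤ f x) {B : ℝ}
    (hB : ∀ K, IsCompact K → K ⊆ U → ∫ x in K, f x ≤ B) : IntegrableOn f U := by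
  obtain ⟨K, hKc, hKU, hKe⟩ := exists_exhaustion hU
  have hc : AECover (volume.restrict U) atTop K :=
    ⟨(ae_restrict_iff' hU.measurableSet).2 (ae_of_all _ hKe), fun k => (hKc k).measurableSet⟩
  refine hc.integrable_of_integral_bounded_of_nonneg_ae B (fun k => ?_)
    ((ae_restrict_iff' hU.measurableSet).2 (ae_of_all _ h0)) (Eventually.of_forall fun k => ?_)
  · unfold IntegrableOn
    rw [Measure.restrict_restrict_of_subset (hKU k)]
    exact (hf.mono (hKU k)).integrableOn_compact (hKc k)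
  · rw [Measure.restrict_restrict_of_subset (hKU k)]
    exact hB _ (hKc k) (hKU k)

end H1ChartAux

open H1ChartAux

theorem dH1_nonneg (K : Set (E n)) (u v : E n → ℝ) : 0 ≤ dH1 K u v :=
  integral_nonneg fun x => integrand_nonneg u v x

theorem dH1_integrable {U K : Set (E n)} (hU : IsOpen U) (hK : IsCompact K) (hKU : K ⊆ U)
    {u v : E n → ℝ} (hu : Sm U u) (hv : Sm U v) :
    IntegrableOn (fun x => (u x - v x) ^ 2 + ∑ i, (pd i u x - pd i v x) ^ 2) K :=
  ((integrand_cont hU hu hv).mono hKU).integrableOn_compact hK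

theorem dH1_mono {U K A : Set (E n)} (hU : IsOpen U) (hK : IsCompact K) (hKU : K ⊆ U) (hA : A ⊆ K)
    {u v : E n → ℝ} (hu : Sm U u) (hv : Sm U v) : dH1 A u v ≤ dH1 K u v :=
  setIntegral_mono_set (dH1_integrable hU hK hKU hu hv)
    (ae_of_all _ fun x => integrand_nonneg u v x) (LE.le.eventuallyLE hA)

theorem dH1_congr {U A : Set (E n)} (hU : IsOpen U) (hA : MeasurableSet A) (hAU : A ⊆ U)
    {u v u' v' : E n → ℝ} (eu : ∀ x ∈ U, u x = u' x) (ev : ∀ x ∈ U, v x = v' x) :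
    dH1 A u v = dH1 A u' v' := by
  unfold dH1
  refine setIntegral_congr_fun hA fun x hx => ?_
  have hxU := hAU hx
  simp only [eu x hxU, ev x hxU, pd_congr_on hU eu hxU, pd_congr_on hU ev hxU]

theorem dH1_comp_le {Φ : E n → E n} {W U K : Set (E n)} (h : IsChart Φ W) (hU : IsOpen U)
    (hm : MapsTo Φ W U) (hK : IsCompact K) (hKW : K ⊆ W) :
    ∃ C : ℝ, 0 < C ∧ ∀ A, MeasurableSet A → A ⊆ K → ∀ u v : E n → ℝ, Sm U u → Sm U v →
      dH1 A (fun y => u (Φ y)) (fun y => v (Φ y)) ≤ C * dH1 (Φ '' A) u v := by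
  have hj : ∀ i j, ContinuousOn (fun y => jac Φ y i j) W := fun i j =>
    sm_cont (sm_jac h.opn h.sm i j)
  have hd : ContinuousOn (fun y => |(jac Φ y).det|) W :=
    (sm_cont (sm_det (A := jac Φ) fun i j => sm_jac h.opn h.sm i j)).abs
  have hdp : ∀ y ∈ W, 0 < |(jac Φ y).det| := fun y hy => abs_pos.2 (h.det y hy)
  have hq : ContinuousOn (fun y => (1 + ∑ j, ∑ i, jac Φ y i j ^ 2) / |(jac Φ y).det|) W := by
    refine (continuousOn_const.add ?_).div hd fun y hy => (hdp y hy).ne'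
    exact continuousOn_finsetSum _ fun j _ => continuousOn_finsetSum _ fun i _ => (hj i j).pow 2
  obtain ⟨C0, hC0⟩ := hK.bddAbove_image (hq.mono hKW)
  refine ⟨max C0 1, lt_of_lt_of_le one_pos (le_max_right _ _), fun A hA hAK u v hu hv => ?_⟩
  have hAW : A ⊆ W := hAK.trans hKW
  have hΦc : ContinuousOn Φ W := h.sm.continuousOn
  have e1 : dH1 (Φ '' A) u v = ∫ y in A, ((u (Φ y) - v (Φ y)) ^ 2 +
      ∑ i, (pd i u (Φ y) - pd i v (Φ y)) ^ 2) * |(jac Φ y).det| := by
    have e := h.integral flat hA hAW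
      (fun x => (u x - v x) ^ 2 + ∑ i, (pd i u x - pd i v x) ^ 2)
    simp only [vol_pull, vol_flat, mul_one, one_mul] at e
    exact e
  rw [e1, ← integral_const_mul]
  have i1 := (dH1_integrable h.opn hK hKW (h.sm_comp hm hu) (h.sm_comp hm hv)).mono_set hAK
  have c2 : ContinuousOn (fun y => max C0 1 * (((u (Φ y) - v (Φ y)) ^ 2 +
      ∑ i, (pd i u (Φ y) - pd i v (Φ y)) ^ 2) * |(jac Φ y).det|)) W :=
    continuousOn_const.mul (((integrand_cont hU hu hv).comp hΦc hm).mul hd)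
  have i2 := ((c2.mono hKW).integrableOn_compact (μ := volume) hK).mono_set hAK
  unfold dH1
  refine setIntegral_mono_on i1 i2 hA fun y hy => ?_
  have hyW := hAW hy
  have hyU := hm hyW
  have hb : (1 + ∑ j, ∑ i, jac Φ y i j ^ 2) ≤ max C0 1 * |(jac Φ y).det| := by
    have := (hC0 (mem_image_of_mem _ (hAK hy))).trans (le_max_left C0 1)
    rwa [div_le_iff₀ (hdp y hyW)] at this
  have e2 : ∀ j, pd j (fun z => u (Φ z)) y - pd j (fun z => v (Φ z)) y =
      ∑ i, (pd i u (Φ y) - pd i v (Φ y)) * jac Φ y i j := by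
    intro j
    rw [pd_comp (sm_da hU hu hyU) (h.da hyW), pd_comp (sm_da hU hv hyU) (h.da hyW),
      ← Finset.sum_sub_distrib]
    exact Finset.sum_congr rfl fun i _ => by ring
  simp only [e2]
  have s1 := sum_comp_le (fun i => pd i u (Φ y) - pd i v (Φ y)) (jac Φ y)
  have p1 : 0 ≤ ∑ j, ∑ i, jac Φ y i j ^ 2 :=
    Finset.sum_nonneg fun _ _ => Finset.sum_nonneg fun _ _ => sq_nonneg _
  have p2 : 0 ≤ ∑ i, (pd i u (Φ y) - pd i v (Φ y)) ^ 2 := Finset.sum_nonneg fun _ _ => sq_nonneg _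
  have p3 := sq_nonneg (u (Φ y) - v (Φ y))
  have p4 := mul_le_mul_of_nonneg_right hb (add_nonneg p3 p2)
  have p5 := mul_nonneg p1 p3
  nlinarith

theorem tendH1_unique {U : Set (E n)} (hU : IsOpen U) {u : ℕ → E n → ℝ} {v v' : E n → ℝ}
    (hu : ∀ k, Sm U (u k)) (hv : Sm U v) (hv' : Sm U v')
    (h : ∀ K, IsCompact K → K ⊆ U → TendH1 K u v) (h' : ∀ K, IsCompact K → K ⊆ U → TendH1 K u v') :
    ∀ x ∈ U, v x = v' x := by
  intro x hx
  obtain ⟨r, hr, hb⟩ := Metric.nhds_basis_closedBall.mem_iff.1 (hU.mem_nhds hx)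
  have hK : IsCompact (Metric.closedBall x r) := isCompact_closedBall x r
  have hc : ContinuousOn (fun y => (v y - v' y) ^ 2) U := ((sm_cont hv).sub (sm_cont hv')).pow 2
  have hi : IntegrableOn (fun y => (v y - v' y) ^ 2) (Metric.closedBall x r) :=
    (hc.mono hb).integrableOn_compact hK
  have hle : ∫ y in Metric.closedBall x r, (v y - v' y) ^ 2 ≤ 0 := by
    have ht : Tendsto (fun k => 2 * dH1 (Metric.closedBall x r) (u k) v +
        2 * dH1 (Metric.closedBall x r) (u k) v') atTop (𝓝 (2 * 0 + 2 * 0)) :=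
      ((h _ hK hb).const_mul 2).add ((h' _ hK hb).const_mul 2)
    rw [mul_zero, add_zero] at ht
    refine ge_of_tendsto' ht fun k => ?_
    have i1 := dH1_integrable hU hK hb (hu k) hv
    have i2 := dH1_integrable hU hK hb (hu k) hv'
    unfold dH1
    rw [← integral_const_mul, ← integral_const_mul,
      ← integral_add (i1.const_mul 2) (i2.const_mul 2)]
    refine setIntegral_mono_on hi ((i1.const_mul 2).add (i2.const_mul 2)) hK.measurableSet
      fun y _ => ?_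
    have p1 : 0 ≤ ∑ i, (pd i (u k) y - pd i v y) ^ 2 := Finset.sum_nonneg fun _ _ => sq_nonneg _
    have p2 : 0 ≤ ∑ i, (pd i (u k) y - pd i v' y) ^ 2 := Finset.sum_nonneg fun _ _ => sq_nonneg _
    nlinarith [sq_nonneg (2 * u k y - v y - v' y)]
  have h0 : ∫ y in Metric.closedBall x r, (v y - v' y) ^ 2 = 0 :=
    le_antisymm hle (integral_nonneg fun y => sq_nonneg _)
  have hae := (setIntegral_eq_zero_iff_of_nonneg_ae (ae_of_all _ fun y => sq_nonneg _) hi).1 h0
  have hae' : (fun y => (v y - v' y) ^ 2) =ᵐ[volume.restrict (Metric.ball x r)] 0 :=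
    ae_restrict_of_ae_restrict_of_subset Metric.ball_subset_closedBall hae
  have he := Measure.eqOn_open_of_ae_eq hae' Metric.isOpen_ball
    (hc.mono (Metric.ball_subset_closedBall.trans hb)) continuousOn_const (Metric.mem_ball_self hr)
  have he' : (v x - v' x) ^ 2 = 0 := he
  exact sub_eq_zero.1 (pow_eq_zero_iff two_ne_zero |>.1 he')

/-- Uniform integral bounds pass to the limit. -/
theorem integrableOn_of_tendH1 {U : Set (E n)} (hU : IsOpen U) {u : ℕ → E n → ℝ} {v : E n → ℝ}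
    (hu : ∀ k, Sm U (u k)) (hv : Sm U v) (h : ∀ K, IsCompact K → K ⊆ U → TendH1 K u v)
    {a b : E n → ℝ} (ha : ContinuousOn a U) (hb : ContinuousOn b U) (ha0 : ∀ x ∈ U, 0 ≤ a x)
    (hb0 : ∀ x ∈ U, 0 ≤ b x) {B : ℝ}
    (hB : ∀ k, ∀ K, IsCompact K → K ⊆ U →
      ∫ x in K, (a x * u k x ^ 2 + b x * ∑ i, pd i (u k) x ^ 2) ≤ B) :
    IntegrableOn (fun x => a x * v x ^ 2 + b x * ∑ i, pd i v x ^ 2) U := by
  refine integrableOn_of_bdd hU (weight_cont hU hv ha hb) (fun x hx => ?_) (B := 2 * B)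
    fun K hK hKU => ?_
  · exact add_nonneg (mul_nonneg (ha0 x hx) (sq_nonneg _))
      (mul_nonneg (hb0 x hx) (Finset.sum_nonneg fun _ _ => sq_nonneg _))
  obtain ⟨M, hM⟩ := hK.bddAbove_image ((ha.add hb).mono hKU)
  have ht : Tendsto (fun k => 2 * B + 2 * M * dH1 K (u k) v) atTop (𝓝 (2 * B + 2 * M * 0)) :=
    tendsto_const_nhds.add ((h _ hK hKU).const_mul (2 * M))
  rw [mul_zero, add_zero] at ht
  refine ge_of_tendsto' ht fun k => ?_
  have i0 : IntegrableOn (fun x => a x * v x ^ 2 + b x * ∑ i, pd i v x ^ 2) K :=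
    ((weight_cont hU hv ha hb).mono hKU).integrableOn_compact hK
  have i1 : IntegrableOn (fun x => a x * u k x ^ 2 + b x * ∑ i, pd i (u k) x ^ 2) K :=
    ((weight_cont hU (hu k) ha hb).mono hKU).integrableOn_compact hK
  have i2 := dH1_integrable hU hK hKU (hu k) hv
  have hle : ∫ x in K, (a x * v x ^ 2 + b x * ∑ i, pd i v x ^ 2) ≤
      2 * (∫ x in K, (a x * u k x ^ 2 + b x * ∑ i, pd i (u k) x ^ 2)) + 2 * M * dH1 K (u k) v := by
    unfold dH1
    rw [← integral_const_mul, ← integral_const_mul,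
      ← integral_add (i1.const_mul 2) (i2.const_mul (2 * M))]
    refine setIntegral_mono_on i0 ((i1.const_mul 2).add (i2.const_mul (2 * M))) hK.measurableSet
      fun y hy => ?_
    have hab : a y + b y ≤ M := hM (mem_image_of_mem _ hy)
    have ay := ha0 y (hKU hy)
    have by' := hb0 y (hKU hy)
    have q1 := sq_le_two (u k y) (v y)
    have q2 : ∑ i, pd i v y ^ 2 ≤
        2 * ∑ i, pd i (u k) y ^ 2 + 2 * ∑ i, (pd i (u k) y - pd i v y) ^ 2 := by
      rw [Finset.mul_sum, Finset.mul_sum, ← Finset.sum_add_distrib]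
      exact Finset.sum_le_sum fun i _ => sq_le_two _ _
    have p1 : 0 ≤ ∑ i, (pd i (u k) y - pd i v y) ^ 2 := Finset.sum_nonneg fun _ _ => sq_nonneg _
    have p2 := sq_nonneg (u k y - v y)
    have r1 := mul_le_mul_of_nonneg_left q1 ay
    have r2 := mul_le_mul_of_nonneg_left q2 by'
    have r3 := mul_le_mul_of_nonneg_right (show a y ≤ M by linarith) p2
    have r4 := mul_le_mul_of_nonneg_right (show b y ≤ M by linarith) p1
    nlinarith
  have := hB k K hK hKU
  linarith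

end Pool.Agent.P.MP_56a1cd_gt
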