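import Pool.Agent.P.MP_56a1cd_gt.Ell
import Pool.Agent.P.MP_56a1cd_gt.H1Chart

namespace Pool.Agent.P.MP_56a1cd_gt

open MeasureTheory Matrix Set Filter Topology
open scoped ContDiff ENNReal

variable {m n : ℕ}

/-! PLAN. For `x ∈ U` take `ρ > 0` with `closedBall x (2ρ) ⊆ U`. On `K = closedBall x (2ρ)` the
sequences `u k`, `pd i (u k)` converge in `L²` (`exists_L2_limit` for `volume.restrict K`); extend the
limits by zero (`memLp_indicator_iff_restrict`). On `B = ball x (2ρ)`, `WD` (`wd_of_sm`) and the weak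
equation pass to the limit (`tendsto_integral_mul`). `ell_local` with `χ = 1` near `closedBall x ρ` gives a
smooth `v x` equal to the limit almost everywhere on `ball x ρ`, `WD.unique` identifies the derivatives,
so `TendH1 K' u (v x)` for compact `K' ⊆ ball x ρ`. By `tendH1_unique` the `v x` agree on overlaps; put
`v y = v y y`. A compact set is covered by finitely many smaller closed balls. The equation: pass to the
limit in the weak equation, integrate by parts (`integral_div_eq_zero` or `ibp`), `eq_zero_of_test`.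
`ell_seq` follows from `ell_seq'` with `a = vol • g⁻¹` (`IsMet.isMet_vol_inv`, `lap_div`). -/

namespace EllSeqAux

theorem memLp_cpt {K : Set (E n)} (hK : IsCompact K) {f : E n → ℝ} (hf : ContinuousOn f K) :
    MemLp f 2 (volume.restrict K) := by
  refine (memLp_two_iff_integrable_sq (hf.aestronglyMeasurable hK.measurableSet)).2 ?_
  exact (hf.pow 2).integrableOn_compact hK

theorem test_zero {K : Set (E n)} {φ : E n → ℝ} (hφ : Test K φ) {x : E n} (hx : x ∉ K) :
    φ x = 0 :=
  image_eq_zero_of_notMem_tsupport fun h => hx (hφ.sub h)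

theorem test_int {K : Set (E n)} {φ : E n → ℝ} (hφ : Test K φ) : Integrable φ :=
  hφ.sm.continuous.integrable_of_hasCompactSupport hφ.cpt

theorem wk {K : Set (E n)} (hK : IsCompact K) {s : ℕ → E n → ℝ} {w : E n → ℝ}
    (hs : ∀ k, MemLp (s k) 2 (volume.restrict K)) (hw : MemLp w 2 (volume.restrict K))
    (hl : Tendsto (fun k => ∫ x in K, (s k x - w x) ^ 2) atTop (𝓝 0)) {φ : E n → ℝ}
    (hφ : Test K φ) :
    Tendsto (fun k => ∫ x, s k x * φ x) atTop (𝓝 (∫ x, w x * φ x)) := by
  have e : ∀ t : E n → ℝ, ∫ x, t x * φ x = ∫ x in K, φ x * t x := by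
    intro t
    rw [setIntegral_eq_integral_of_forall_compl_eq_zero]
    · simp only [mul_comm]
    · intro x hx
      rw [test_zero hφ hx, zero_mul]
  simp only [e]
  exact tendsto_integral_mul hs hw (memLp_cpt hK hφ.sm.continuous.continuousOn) hl

theorem weq_pass {a : Met n} {U K : Set (E n)} (ha : IsMet a U) (hK : IsCompact K) (hKU : K ⊆ U)
    {s : ℕ → Fin n → E n → ℝ} {p : Fin n → E n → ℝ}
    (hs : ∀ k j, MemLp (s k j) 2 (volume.restrict K)) (hp : ∀ j, MemLp (p j) 2 (volume.restrict K))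
    (hl : ∀ j, Tendsto (fun k => ∫ x in K, (s k j x - p j x) ^ 2) atTop (𝓝 0)) {φ : E n → ℝ}
    (hφ : Test K φ) :
    Tendsto (fun k => ∫ x, ∑ i, ∑ j, a x i j * s k j x * pd i φ x) atTop
      (𝓝 (∫ x, ∑ i, ∑ j, a x i j * p j x * pd i φ x)) := by
  have hc : ∀ i j, MemLp (fun x => a x i j * pd i φ x) 2 (volume.restrict K) := fun i j =>
    memLp_cpt hK (((ha.sm i j).continuousOn.mono hKU).mul (hφ.pd i).sm.continuous.continuousOn)
  have e : ∀ t : Fin n → E n → ℝ, (∀ j, MemLp (t j) 2 (volume.restrict K)) →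
      ∫ x, ∑ i, ∑ j, a x i j * t j x * pd i φ x =
        ∑ i, ∑ j, ∫ x in K, (a x i j * pd i φ x) * t j x := by
    intro t ht
    have hi : ∀ i j, Integrable (fun x => (a x i j * pd i φ x) * t j x) (volume.restrict K) :=
      fun i j => (hc i j).integrable_mul (ht j)
    rw [← setIntegral_eq_integral_of_forall_compl_eq_zero (s := K)]
    · have e1 : ∀ x, ∑ i, ∑ j, a x i j * t j x * pd i φ x =
          ∑ i, ∑ j, (a x i j * pd i φ x) * t j x := fun x =>
        Finset.sum_congr rfl fun i _ => Finset.sum_congr rfl fun j _ => by ring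
      simp only [e1]
      rw [integral_finsetSum _ fun i _ => integrable_finsetSum _ fun j _ => hi i j]
      exact Finset.sum_congr rfl fun i _ => integral_finsetSum _ fun j _ => hi i j
    · intro x hx
      refine Finset.sum_eq_zero fun i _ => Finset.sum_eq_zero fun j _ => ?_
      rw [test_zero (hφ.pd i) hx, mul_zero]
  rw [e p hp]
  have e2 : (fun k => ∫ x, ∑ i, ∑ j, a x i j * s k j x * pd i φ x) =
      fun k => ∑ i, ∑ j, ∫ x in K, (a x i j * pd i φ x) * s k j x :=
    funext fun k => e (s k) (hs k)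
  rw [e2]
  exact tendsto_finsetSum _ fun i _ => tendsto_finsetSum _ fun j _ =>
    tendsto_integral_mul (fun k => hs k j) (hp j) (hc i j) (hl j)

/-- The hypothesis on the sequence with integrals over the whole space. -/
theorem he_whole {a : Met n} {U : Set (E n)} {f : E n → ℝ} {u : ℕ → E n → ℝ}
    (he : ∀ φ, Test U φ →
      Tendsto (fun k => ∫ x in U, ∑ i, ∑ j, a x i j * pd j (u k) x * pd i φ x) atTop
        (𝓝 (-∫ x in U, f x * φ x))) {φ : E n → ℝ} (hφ : Test U φ) :
    Tendsto (fun k => ∫ x, ∑ i, ∑ j, a x i j * pd j (u k) x * pd i φ x) atTop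
      (𝓝 (-∫ x, f x * φ x)) := by
  have h := he φ hφ
  rw [setIntegral_eq_integral_of_forall_compl_eq_zero (s := U) (f := fun x => f x * φ x)
    (fun x hx => by rw [test_zero hφ hx, mul_zero])] at h
  refine h.congr fun k => setIntegral_eq_integral_of_forall_compl_eq_zero fun x hx => ?_
  refine Finset.sum_eq_zero fun i _ => Finset.sum_eq_zero fun j _ => ?_
  rw [test_zero (hφ.pd i) hx, mul_zero]

/-- Limits in the square mean on a compact set, extended by zero. -/
theorem lim_ext {K : Set (E n)} (hK : IsCompact K) {s : ℕ → E n → ℝ}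
    (hs : ∀ k, MemLp (s k) 2 (volume.restrict K))
    (h : ∀ ε > 0, ∃ N, ∀ k ≥ N, ∀ l ≥ N, ∫ x in K, (s k x - s l x) ^ 2 ≤ ε) :
    ∃ w, MemLp w 2 volume ∧ Tendsto (fun k => ∫ x in K, (s k x - w x) ^ 2) atTop (𝓝 0) := by
  obtain ⟨v, hv, hl⟩ := exists_L2_limit hs h
  refine ⟨K.indicator v, (memLp_indicator_iff_restrict hK.measurableSet).2 hv, ?_⟩
  refine hl.congr fun k => setIntegral_congr_fun hK.measurableSet fun x hx => ?_
  simp only [indicator_of_mem hx]

theorem sq_le_dH1 {U K : Set (E n)} (hU : IsOpen U) (hK : IsCompact K) (hKU : K ⊆ U)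
    {u v : E n → ℝ} (hu : Sm U u) (hv : Sm U v) :
    ∫ x in K, (u x - v x) ^ 2 ≤ dH1 K u v ∧
      ∀ j, ∫ x in K, (pd j u x - pd j v x) ^ 2 ≤ dH1 K u v := by
  have hI := dH1_integrable hU hK hKU hu hv
  constructor
  · refine integral_mono_of_nonneg (Eventually.of_forall fun x => sq_nonneg _) hI
      (Eventually.of_forall fun x => ?_)
    have : 0 ≤ ∑ i, (pd i u x - pd i v x) ^ 2 := Finset.sum_nonneg fun i _ => sq_nonneg _
    simp only
    linarith
  · intro j
    refine integral_mono_of_nonneg (Eventually.of_forall fun x => sq_nonneg _) hI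
      (Eventually.of_forall fun x => ?_)
    have h1 : (pd j u x - pd j v x) ^ 2 ≤ ∑ i, (pd i u x - pd i v x) ^ 2 :=
      Finset.single_le_sum (f := fun i => (pd i u x - pd i v x) ^ 2) (fun i _ => sq_nonneg _)
        (Finset.mem_univ j)
    have h2 := sq_nonneg (u x - v x)
    simp only
    linarith

/-- The local statement. -/
theorem loc {a : Met n} {U : Set (E n)} (ha : IsMet a U) {f : E n → ℝ} (hf : Sm U f)
    {u : ℕ → E n → ℝ} (hu : ∀ k, Sm U (u k)) (hc : ∀ K, IsCompact K → K ⊆ U → CauchyH1 K u)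
    (he : ∀ φ, Test U φ →
      Tendsto (fun k => ∫ x, ∑ i, ∑ j, a x i j * pd j (u k) x * pd i φ x) atTop
        (𝓝 (-∫ x, f x * φ x))) {x : E n} (hx : x ∈ U) :
    ∃ (ρ : ℝ) (v : E n → ℝ), 0 < ρ ∧ Metric.ball x ρ ⊆ U ∧ ContDiff ℝ ∞ v ∧
      ∀ K, IsCompact K → K ⊆ Metric.ball x ρ → TendH1 K u v := by
  have hU := ha.opn
  obtain ⟨ε, hε, hεU⟩ := Metric.isOpen_iff.1 hU x hx
  set ρ := ε / 3 with hρ
  have hρ0 : 0 < ρ := by positivity
  set K := Metric.closedBall x (2 * ρ) with hKd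
  set B := Metric.ball x (2 * ρ) with hBd
  have hK : IsCompact K := isCompact_closedBall _ _
  have hKU : K ⊆ U := (Metric.closedBall_subset_ball (by linarith)).trans hεU
  have hBK : B ⊆ K := Metric.ball_subset_closedBall
  have hBU : B ⊆ U := hBK.trans hKU
  have hB : IsOpen B := Metric.isOpen_ball
  have hDB : Metric.ball x ρ ⊆ B := Metric.ball_subset_ball (by linarith)
  have mu : ∀ k, MemLp (u k) 2 (volume.restrict K) := fun k =>
    memLp_cpt hK ((hu k).continuousOn.mono hKU)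
  have mp : ∀ k j, MemLp (pd j (u k)) 2 (volume.restrict K) := fun k j =>
    memLp_cpt hK ((sm_pd hU (hu k) j).continuousOn.mono hKU)
  obtain ⟨w, hw, hwl⟩ := lim_ext hK mu fun ε hε => by
    obtain ⟨N, hN⟩ := hc K hK hKU ε hε
    exact ⟨N, fun k hk l hl => (sq_le_dH1 hU hK hKU (hu k) (hu l)).1.trans (hN k hk l hl)⟩
  have hp' : ∀ j, ∃ p, MemLp p 2 volume ∧
      Tendsto (fun k => ∫ x in K, (pd j (u k) x - p x) ^ 2) atTop (𝓝 0) := fun j =>
    lim_ext hK (fun k => mp k j) fun ε hε => by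
      obtain ⟨N, hN⟩ := hc K hK hKU ε hε
      exact ⟨N, fun k hk l hl => ((sq_le_dH1 hU hK hKU (hu k) (hu l)).2 j).trans (hN k hk l hl)⟩
  choose p hp hpl using hp'
  have hd : ∀ j, WD B j w (p j) := by
    intro j φ hφ
    have h1 := wk hK mu (hw.restrict K) hwl ((hφ.pd j).mono hBK)
    have h2 := (wk hK (fun k => mp k j) ((hp j).restrict K) (hpl j) (hφ.mono hBK)).neg
    refine tendsto_nhds_unique h1 (h2.congr fun k => ?_)
    exact (wd_of_sm hU (hu k) j φ (hφ.mono hBU)).symm
  have hE : WeakEq B a p f := by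
    intro φ hφ
    exact tendsto_nhds_unique
      (weq_pass ha hK hKU (s := fun k j => pd j (u k)) mp (fun j => (hp j).restrict K) hpl
        (hφ.mono hBK)) (he φ (hφ.mono hBU))
  obtain ⟨χ, hχ, -, hχ1⟩ := exists_test hB (isCompact_closedBall x ρ)
    (Metric.closedBall_subset_ball (by linarith))
  obtain ⟨v, hv, hve⟩ := ell_local (ha.mono hB hBU) (hf.mono hBU) hw hp hd hE hχ
  have ew : ∀ᵐ y, y ∈ Metric.ball x ρ → w y = v y := by
    filter_upwards [hve] with y hy hyB
    have : χ y = 1 := hχ1.self_of_nhdsSet y (Metric.ball_subset_closedBall hyB)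
    rw [← hy, this, one_mul]
  have ep : ∀ j, ∀ᵐ y, y ∈ Metric.ball x ρ → p j y = pd j v y := fun j =>
    WD.unique Metric.isOpen_ball (fun φ hφ => hd j φ (hφ.mono hDB))
      (wd_of_sm Metric.isOpen_ball hv.contDiffOn j) ew
      (((hp j).locallyIntegrable (by norm_num)).locallyIntegrableOn _)
      ((contDiff_pd hv j).continuous.locallyIntegrable.locallyIntegrableOn _)
  refine ⟨ρ, v, hρ0, hDB.trans hBU, hv, fun K' hK' hK'D => ?_⟩
  have hK'K : K' ⊆ K := hK'D.trans (hDB.trans hBK)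
  have i0 : ∀ k, Integrable (fun y => (u k y - w y) ^ 2) (volume.restrict K) := fun k =>
    ((mu k).sub (hw.restrict K)).integrable_sq
  have i1 : ∀ k j, Integrable (fun y => (pd j (u k) y - p j y) ^ 2) (volume.restrict K) :=
    fun k j => ((mp k j).sub ((hp j).restrict K)).integrable_sq
  have i2 : ∀ k, Integrable (fun y => ∑ j, (pd j (u k) y - p j y) ^ 2) (volume.restrict K) :=
    fun k => integrable_finsetSum _ fun j _ => i1 k j
  have hlim : Tendsto (fun k => (∫ y in K, (u k y - w y) ^ 2) +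
      ∑ j, ∫ y in K, (pd j (u k) y - p j y) ^ 2) atTop (𝓝 0) := by
    have := hwl.add (tendsto_finsetSum Finset.univ fun j _ => hpl j)
    simpa using this
  refine squeeze_zero (fun k => dH1_nonneg _ _ _) (fun k => ?_) hlim
  have e1 : dH1 K' (u k) v =
      ∫ y in K', ((u k y - w y) ^ 2 + ∑ j, (pd j (u k) y - p j y) ^ 2) := by
    refine setIntegral_congr_ae hK'.measurableSet ?_
    filter_upwards [ew, ae_all_iff.2 ep] with y h1 h2 hy
    rw [h1 (hK'D hy)]
    congr 1
    exact Finset.sum_congr rfl fun j _ => by rw [h2 j (hK'D hy)]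
  rw [e1, ← integral_finsetSum _ fun j _ => i1 k j, ← integral_add (i0 k) (i2 k)]
  refine setIntegral_mono_set ((i0 k).add (i2 k)) (Eventually.of_forall fun y => ?_)
    hK'K.eventuallyLE
  exact add_nonneg (sq_nonneg _) (Finset.sum_nonneg fun j _ => sq_nonneg _)

theorem dH1_union {U C D : Set (E n)} (hU : IsOpen U) (hC : IsCompact C) (hD : IsCompact D)
    (hCU : C ⊆ U) (hDU : D ⊆ U) {u v : E n → ℝ} (hu : Sm U u) (hv : Sm U v) :
    dH1 (C ∪ D) u v ≤ dH1 C u v + dH1 D u v := by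
  have h1 : dH1 (C ∪ D) u v = dH1 C u v + dH1 (D \ C) u v := by
    rw [← union_sdiff_self]
    exact setIntegral_union disjoint_sdiff_right (hD.measurableSet.diff hC.measurableSet)
      (dH1_integrable hU hC hCU hu hv) ((dH1_integrable hU hD hDU hu hv).mono_set sdiff_subset)
  have h2 := dH1_mono hU hD hDU (sdiff_subset (t := C)) hu hv
  linarith

/-- Gluing of the local limits. -/
theorem glue {U : Set (E n)} (hU : IsOpen U) {u : ℕ → E n → ℝ} (hu : ∀ k, Sm U (u k))
    (h : ∀ x ∈ U, ∃ (ρ : ℝ) (v : E n → ℝ), 0 < ρ ∧ Metric.ball x ρ ⊆ U ∧ ContDiff ℝ ∞ v ∧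
      ∀ K, IsCompact K → K ⊆ Metric.ball x ρ → TendH1 K u v) :
    ∃ V, Sm U V ∧ ∀ K, IsCompact K → K ⊆ U → TendH1 K u V := by
  choose! ρ v hρ hB hv hT using h
  have hV : ∀ x ∈ U, ∀ y ∈ Metric.ball x (ρ x), v y y = v x y := by
    intro x hx y hy
    have hyU := hB x hx hy
    have hO : IsOpen (Metric.ball x (ρ x) ∩ Metric.ball y (ρ y)) :=
      Metric.isOpen_ball.inter Metric.isOpen_ball
    exact tendH1_unique hO (fun k => (hu k).mono (inter_subset_left.trans (hB x hx)))
      (hv y hyU).contDiffOn (hv x hx).contDiffOn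
      (fun K hK hKO => hT y hyU K hK (hKO.trans inter_subset_right))
      (fun K hK hKO => hT x hx K hK (hKO.trans inter_subset_left)) y
      ⟨hy, Metric.mem_ball_self (hρ y hyU)⟩
  have hS : Sm U (fun y => v y y) := by
    intro x hx
    have e : (fun y => v y y) =ᶠ[𝓝 x] v x :=
      eventually_of_mem (Metric.ball_mem_nhds x (hρ x hx)) (hV x hx)
    exact ((hv x hx).contDiffAt.congr_of_eventuallyEq e).contDiffWithinAt
  refine ⟨fun y => v y y, hS, fun K hK hKU => ?_⟩
  have key : ∃ C, IsCompact C ∧ K ⊆ C ∧ C ⊆ U ∧ TendH1 C u (fun y => v y y) := by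
    refine hK.induction_on
      (p := fun A => ∃ C, IsCompact C ∧ A ⊆ C ∧ C ⊆ U ∧ TendH1 C u (fun y => v y y)) ?_ ?_ ?_ ?_
    · refine ⟨∅, isCompact_empty, Subset.rfl, empty_subset _, ?_⟩
      simp [TendH1, dH1]
    · rintro s t hst ⟨C, h1, h2, h3, h4⟩
      exact ⟨C, h1, hst.trans h2, h3, h4⟩
    · rintro s t ⟨C, h1, h2, h3, h4⟩ ⟨D, g1, g2, g3, g4⟩
      refine ⟨C ∪ D, h1.union g1, union_subset_union h2 g2, union_subset h3 g3, ?_⟩
      have := Tendsto.add h4 g4
      rw [add_zero] at this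
      exact squeeze_zero (fun k => dH1_nonneg _ _ _)
        (fun k => dH1_union hU h1 g1 h3 g3 (hu k) hS) this
    · intro x hxK
      have hx := hKU hxK
      have h0 := hρ x hx
      have hsub : Metric.closedBall x (ρ x / 2) ⊆ Metric.ball x (ρ x) :=
        Metric.closedBall_subset_ball (by linarith)
      refine ⟨Metric.closedBall x (ρ x / 2),
        mem_nhdsWithin_of_mem_nhds (Metric.closedBall_mem_nhds x (by linarith)),
        Metric.closedBall x (ρ x / 2), isCompact_closedBall _ _, Subset.rfl,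
        hsub.trans (hB x hx), ?_⟩
      refine (hT x hx _ (isCompact_closedBall _ _) hsub).congr fun k => ?_
      exact dH1_congr Metric.isOpen_ball Metric.isClosed_closedBall.measurableSet hsub
        (fun _ _ => rfl) (fun y hy => (hV x hx y hy).symm)
  obtain ⟨C, h1, h2, h3, h4⟩ := key
  exact squeeze_zero (fun k => dH1_nonneg _ _ _) (fun k => dH1_mono hU h1 h3 h2 (hu k) hS) h4

/-- The equation for the limit. -/
theorem eqn {a : Met n} {U : Set (E n)} (ha : IsMet a U) {f : E n → ℝ} (hf : Sm U f)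
    {u : ℕ → E n → ℝ} (hu : ∀ k, Sm U (u k))
    (he : ∀ φ, Test U φ →
      Tendsto (fun k => ∫ x, ∑ i, ∑ j, a x i j * pd j (u k) x * pd i φ x) atTop
        (𝓝 (-∫ x, f x * φ x))) {v : E n → ℝ} (hv : Sm U v)
    (hT : ∀ K, IsCompact K → K ⊆ U → TendH1 K u v) :
    ∀ x ∈ U, ∑ i, pd i (fun y => ∑ j, a y i j * pd j v y) x = f x := by
  have hU := ha.opn
  have hY : ∀ i, Sm U (fun y => ∑ j, a y i j * pd j v y) := fun i =>
    ContDiffOn.sum fun j _ => (ha.sm i j).mul (sm_pd hU hv j)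
  have hZ : Sm U (fun x => ∑ i, pd i (fun y => ∑ j, a y i j * pd j v y) x) :=
    ContDiffOn.sum fun i _ => sm_pd hU (hY i) i
  have key := eq_zero_of_test hU (hZ.sub hf).continuousOn fun φ hφ => by
    have hK : IsCompact (tsupport φ) := hφ.cpt
    have hφK : Test (tsupport φ) φ := ⟨hφ.sm, hφ.cpt, Subset.rfl⟩
    have h1 := weq_pass ha hK hφ.sub (s := fun k j => pd j (u k)) (p := fun j => pd j v)
      (fun k j => memLp_cpt hK ((sm_pd hU (hu k) j).continuousOn.mono hφ.sub))
      (fun j => memLp_cpt hK ((sm_pd hU hv j).continuousOn.mono hφ.sub))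
      (fun j => squeeze_zero (fun k => integral_nonneg fun x => sq_nonneg _)
        (fun k => (sq_le_dH1 hU hK hφ.sub (hu k) hv).2 j) (hT _ hK hφ.sub)) hφK
    have h2 := tendsto_nhds_unique h1 (he φ hφ)
    have h3 : ∫ x, ∑ i, ∑ j, a x i j * pd j v x * pd i φ x =
        ∑ i, ∫ x, (∑ j, a x i j * pd j v x) * pd i φ x := by
      rw [← integral_finsetSum _ fun i _ => test_int ((hφ.pd i).mul hU (hY i))]
      simp only [Finset.sum_mul]
    have h4 : ∑ i, ∫ x, (∑ j, a x i j * pd j v x) * pd i φ x =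
        -∫ x, (∑ i, pd i (fun y => ∑ j, a y i j * pd j v y) x) * φ x := by
      have h5 : ∀ i, ∫ x, (∑ j, a x i j * pd j v x) * pd i φ x =
          -∫ x, pd i (fun y => ∑ j, a y i j * pd j v y) x * φ x := fun i =>
        wd_of_sm hU (hY i) i φ hφ
      simp only [h5]
      rw [Finset.sum_neg_distrib,
        ← integral_finsetSum _ fun i _ => test_int (hφ.mul hU (sm_pd hU (hY i) i))]
      simp only [Finset.sum_mul]
    rw [setIntegral_eq_integral_of_forall_compl_eq_zero
      (fun x hx => by rw [test_zero hφ hx, mul_zero])]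
    simp only [sub_mul]
    rw [integral_sub (test_int (hφ.mul hU hZ)) (test_int (hφ.mul hU hf))]
    linarith
  intro x hx
  exact sub_eq_zero.1 (key x hx)

end EllSeqAux

theorem ell_seq' {a : Met n} {U : Set (E n)} (ha : IsMet a U) {f : E n → ℝ} (hf : Sm U f)
    {u : ℕ → E n → ℝ} (hu : ∀ k, Sm U (u k)) (hc : ∀ K, IsCompact K → K ⊆ U → CauchyH1 K u)
    (he : ∀ φ, Test U φ →
      Tendsto (fun k => ∫ x in U, ∑ i, ∑ j, a x i j * pd j (u k) x * pd i φ x) atTop
        (𝓝 (-∫ x in U, f x * φ x))) :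
    ∃ v, Sm U v ∧ (∀ x ∈ U, ∑ i, pd i (fun y => ∑ j, a y i j * pd j v y) x = f x) ∧
      ∀ K, IsCompact K → K ⊆ U → TendH1 K u v := by
  have he' := fun φ (hφ : Test U φ) => EllSeqAux.he_whole he hφ
  obtain ⟨v, hv, hT⟩ := EllSeqAux.glue ha.opn hu fun x hx => EllSeqAux.loc ha hf hu hc he' hx
  exact ⟨v, hv, EllSeqAux.eqn ha hf hu he' hv hT, hT⟩

theorem ell_seq {g : Met n} {U : Set (E n)} (hg : IsMet g U) {f : E n → ℝ} (hf : Sm U f)
    {u : ℕ → E n → ℝ} (hu : ∀ k, Sm U (u k)) (hc : ∀ K, IsCompact K → K ⊆ U → CauchyH1 K u)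
    (he : ∀ φ, Test U φ → Tendsto (fun k => ∫ x in U, gam g (u k) φ x * vol g x) atTop
      (𝓝 (-∫ x in U, f x * φ x * vol g x))) :
    ∃ v, Sm U v ∧ (∀ x ∈ U, lap g v x = f x) ∧
      ∀ K, IsCompact K → K ⊆ U → TendH1 K u v := by
  have hm := hg.opn.measurableSet
  obtain ⟨v, hv, hE, hT⟩ := ell_seq' hg.isMet_vol_inv (hf.mul hg.sm_vol) hu hc fun φ hφ => by
    have h := he φ hφ
    have e1 : ∫ x in U, f x * φ x * vol g x = ∫ x in U, f x * vol g x * φ x :=
      setIntegral_congr_fun hm fun x _ => by ring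
    rw [e1] at h
    refine h.congr fun k => setIntegral_congr_fun hm fun x hx => ?_
    simp only [gam, Matrix.smul_apply, smul_eq_mul, Finset.sum_mul]
    rw [Finset.sum_comm]
    refine Finset.sum_congr rfl fun i _ => Finset.sum_congr rfl fun j _ => ?_
    rw [hg.inv_symm hx j i]
    ring
  refine ⟨v, hv, fun x hx => ?_, hT⟩
  have h1 := lap_div hg hv hx
  rw [hE x hx] at h1
  exact mul_right_cancel₀ (hg.vol_pos hx).ne' h1

end Pool.Agent.P.MP_56a1cd_gt
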