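import Pool.Agent.P.MP_56a1cd_gt.Basic

namespace Pool.Agent.P.MP_56a1cd_gt

open MeasureTheory Matrix Set Filter Topology
open scoped ContDiff ENNReal

variable {m n : ℕ}

/-! Minimising sequences of the functional `B u u - 2 l u`. -/

theorem minseq {V : Type*} [AddCommGroup V] [Module ℝ V] (S : Submodule ℝ V) (B : V → V → ℝ)
    (l : V → ℝ) (hadd : ∀ u ∈ S, ∀ v ∈ S, ∀ w ∈ S, B (u + v) w = B u w + B v w)
    (hsmul : ∀ (c : ℝ), ∀ u ∈ S, ∀ w ∈ S, B (c • u) w = c * B u w)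
    (hsymm : ∀ u ∈ S, ∀ v ∈ S, B u v = B v u) (hpos : ∀ u ∈ S, 0 ≤ B u u)
    (ladd : ∀ u ∈ S, ∀ v ∈ S, l (u + v) = l u + l v) (lsmul : ∀ (c : ℝ), ∀ u ∈ S, l (c • u) = c * l u)
    {C : ℝ} (hl : ∀ u ∈ S, l u ^ 2 ≤ C * B u u) :
    ∃ u : ℕ → V, (∀ k, u k ∈ S) ∧
      (∀ ε > 0, ∃ N, ∀ k ≥ N, ∀ j ≥ N, B (u k - u j) (u k - u j) ≤ ε) ∧
      (∃ D, ∀ k, B (u k) (u k) ≤ D) ∧
      ∀ v ∈ S, Tendsto (fun k => B (u k) v) atTop (𝓝 (l v)) := by
  obtain ⟨J, hJ⟩ : ∃ J : V → ℝ, ∀ u, J u = B u u - 2 * l u := ⟨_, fun _ => rfl⟩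
  have hexp : ∀ u ∈ S, ∀ v ∈ S, ∀ t : ℝ,
      J (u + t • v) = J u + 2 * t * (B u v - l v) + t ^ 2 * B v v := by
    intro u hu v hv t
    have htv : t • v ∈ S := S.smul_mem t hv
    have hw : u + t • v ∈ S := S.add_mem hu htv
    have h1 : B (u + t • v) (u + t • v) = B u (u + t • v) + t * B v (u + t • v) := by
      rw [hadd u hu _ htv _ hw, hsmul t v hv _ hw]
    have h2 : B u (u + t • v) = B u u + t * B u v := by
      rw [hsymm u hu _ hw, hadd u hu _ htv u hu, hsmul t v hv u hu, hsymm v hv u hu]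
    have h3 : B v (u + t • v) = B u v + t * B v v := by
      rw [hsymm v hv _ hw, hadd u hu _ htv v hv, hsmul t v hv v hv]
    rw [hJ, hJ, h1, h2, h3, ladd u hu _ htv, lsmul t v hv]
    ring
  have hlow : ∀ u ∈ S, B u u / 2 - 2 * |C| ≤ J u := by
    intro u hu
    have h0 := hpos u hu
    have h1 : l u ^ 2 ≤ |C| * B u u :=
      (hl u hu).trans (mul_le_mul_of_nonneg_right (le_abs_self C) h0)
    have h2 : 0 ≤ B u u / 2 + 2 * |C| := by positivity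
    have h3 : (2 * l u) ^ 2 ≤ (B u u / 2 + 2 * |C|) ^ 2 := by
      nlinarith [sq_nonneg (B u u / 2 - 2 * |C|)]
    have h4 := abs_le_of_sq_le_sq' h3 h2
    rw [hJ]
    linarith [h4.2]
  have hne : (J '' (S : Set V)).Nonempty := ⟨J 0, 0, S.zero_mem, rfl⟩
  have hbd : BddBelow (J '' (S : Set V)) := by
    refine ⟨-(2 * |C|), ?_⟩
    rintro _ ⟨u, hu, rfl⟩
    linarith [hlow u hu, hpos u hu]
  obtain ⟨μ, hμ⟩ : ∃ μ : ℝ, μ = sInf (J '' (S : Set V)) := ⟨_, rfl⟩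
  have hmin : ∀ u ∈ S, μ ≤ J u := fun u hu => hμ ▸ csInf_le hbd ⟨u, hu, rfl⟩
  have hex : ∀ k : ℕ, ∃ u ∈ S, J u ≤ μ + 1 / ((k : ℝ) + 1) := by
    intro k
    have h1 : sInf (J '' (S : Set V)) < μ + 1 / ((k : ℝ) + 1) := by
      rw [← hμ]
      exact lt_add_of_pos_right _ (by positivity)
    obtain ⟨_, ⟨u, hu, rfl⟩, h2⟩ := exists_lt_of_csInf_lt hne h1
    exact ⟨u, hu, h2.le⟩
  choose u huS huJ using hex
  have hδ : Tendsto (fun k : ℕ => 1 / ((k : ℝ) + 1)) atTop (𝓝 0) :=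
    tendsto_one_div_add_atTop_nhds_zero_nat
  refine ⟨u, huS, ?_, ⟨2 * (μ + 1 + 2 * |C|), ?_⟩, ?_⟩
  · intro ε hε
    obtain ⟨N, hN⟩ := eventually_atTop.mp (hδ.eventually (ge_mem_nhds (show (0 : ℝ) < ε / 4 by
      positivity)))
    refine ⟨N, fun k hk j hj => ?_⟩
    have hd : u k - u j ∈ S := S.sub_mem (huS k) (huS j)
    have h1 := hexp (u j) (huS j) _ hd 1
    have h2 := hexp (u j) (huS j) _ hd (1 / 2)
    have h3 := hmin _ (S.add_mem (huS j) (S.smul_mem (1 / 2 : ℝ) hd))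
    rw [one_smul, add_sub_cancel] at h1
    linarith [huJ k, huJ j, hN k hk, hN j hj]
  · intro k
    have h1 : 1 / ((k : ℝ) + 1) ≤ 1 := by
      rw [div_le_one (by positivity)]
      linarith [Nat.cast_nonneg (α := ℝ) k]
    linarith [hlow _ (huS k), huJ k]
  · intro v hv
    have hsq : ∀ k : ℕ, (B (u k) v - l v) ^ 2 ≤ B v v * (1 / ((k : ℝ) + 1)) := by
      intro k
      have h1 : ∀ t : ℝ, 0 ≤ B v v * (t * t) + 2 * (B (u k) v - l v) * t + 1 / ((k : ℝ) + 1) := by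
        intro t
        have h2 := hexp (u k) (huS k) v hv t
        have h3 := hmin _ (S.add_mem (huS k) (S.smul_mem t hv))
        linarith [huJ k]
      have h4 := discrim_le_zero h1
      unfold discrim at h4
      linarith
    have h5 : Tendsto (fun k : ℕ => √(B v v * (1 / ((k : ℝ) + 1)))) atTop (𝓝 0) := by
      have h6 := (hδ.const_mul (B v v)).sqrt
      rwa [mul_zero, Real.sqrt_zero] at h6
    exact tendsto_sub_nhds_zero_iff.mp
      (squeeze_zero_norm (fun k => Real.abs_le_sqrt (hsq k)) h5)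

end Pool.Agent.P.MP_56a1cd_gt
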