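import Pool.Agent.P.MP_56a1cd_gt.AtC
import Pool.Agent.P.MP_56a1cd_gt.AtPoi
import Pool.Agent.P.MP_56a1cd_gt.MinSeq
import Pool.Agent.P.MP_56a1cd_gt.EllSeq

namespace Pool.Agent.P.MP_56a1cd_gt

open MeasureTheory Matrix Set Filter Topology
open scoped ContDiff ENNReal

variable {m n : ℕ}

/-! PLAN. `poisson2`: `minseq` on the
submodule of smooth functions with `B u v = ∫ gamS u v`, `l v = -∫ f v = -∫ f (v - mean v)`, bounded by
`poincare2`. Subtract the means, so that the sequence is Cauchy in `L²`. In each chart `ell_seq` applies (test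
functions are pushed to `S` by `smOn_push`; `integral_chart`; `IsMet.ellip_gam` compares `dH1` with the
global integrals). The limits agree on overlaps (`dH1_comp_le` for the transition chart, `tendH1_unique`);
define `w x = v (ch x) (e (ch x) x)`. -/

namespace AtSolAux

open Atlas2

variable {S : Type} [TopologicalSpace S] (A : Atlas2 S)

theorem sm_loc {u : S → ℝ} (hu : A.SmOn univ u) (i : Fin A.k) : Sm (A.e i).target (A.loc i u) := by
  have h := hu i
  rwa [preimage_univ, inter_univ] at h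

theorem cont {u : S → ℝ} (hu : A.SmOn univ u) : Continuous u :=
  continuousOn_univ.1 (SmOn.continuousOn A hu)

theorem gamS_symm {u v : S → ℝ} (hu : A.SmOn univ u) (hv : A.SmOn univ v) (i : Fin A.k) {y : E 2}
    (hy : y ∈ (A.e i).target) :
    A.gamS u v ((A.e i).symm y) = gam (A.γ i) (A.loc i u) (A.loc i v) y := by
  rw [A.gamS_eq isOpen_univ hu hv i (mem_univ _) ((A.e i).map_target hy), (A.e i).right_inv hy]

theorem gamS_sub_const {u v : S → ℝ} (hv : A.SmOn univ v) (c : ℝ) (x : S) :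
    A.gamS u (fun z => v z - c) x = A.gamS u v x := by
  have h := A.gamS_add_left isOpen_univ hv (A.smOn_const univ (-c)) u (mem_univ x)
  rw [A.gamS_const_left, add_zero] at h
  rw [A.gamS_comm u, A.gamS_comm u v, ← h]
  simp only [sub_eq_add_neg]

variable [MeasurableSpace S] [BorelSpace S] [T2Space S] [CompactSpace S]

theorem int_sm {u : S → ℝ} (hu : A.SmOn univ u) : Integrable u A.μ :=
  A.integrable_of_continuous (cont A hu)

theorem int_gam {u v : S → ℝ} (hu : A.SmOn univ u) (hv : A.SmOn univ v) :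
    Integrable (A.gamS u v) A.μ :=
  int_sm A (SmOn.gamS A isOpen_univ hu hv)

theorem int_sq {u : S → ℝ} (hu : A.SmOn univ u) : Integrable (fun x => u x ^ 2) A.μ :=
  A.integrable_of_continuous ((cont A hu).pow 2)

/-- The local `H¹` distance is controlled by the global integrals. -/
theorem dH1_le (i : Fin A.k) {K : Set (E 2)} (hK : IsCompact K) (hKt : K ⊆ (A.e i).target) :
    ∃ C : ℝ, 0 < C ∧ ∀ u v : S → ℝ, A.SmOn univ u → A.SmOn univ v →
      dH1 K (A.loc i u) (A.loc i v) ≤
        C * (∫ x, (u x - v x) ^ 2 ∂A.μ +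
          ∫ x, A.gamS (fun z => u z - v z) (fun z => u z - v z) x ∂A.μ) := by
  obtain ⟨c, C, hc, -, hb⟩ := (A.met i).ellip_gam hK hKt
  refine ⟨c⁻¹, inv_pos.2 hc, fun u v hu hv => ?_⟩
  have hd : A.SmOn univ (fun z => u z - v z) := SmOn.sub A hu hv
  have hBc : IsCompact ((A.e i).symm '' K) :=
    hK.image_of_continuousOn ((A.e i).continuousOn_symm.mono hKt)
  have hBm : MeasurableSet ((A.e i).symm '' K) := hBc.isClosed.measurableSet
  have hBs : (A.e i).symm '' K ⊆ (A.e i).source := by
    rintro _ ⟨y, hy, rfl⟩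
    exact (A.e i).map_target (hKt hy)
  have him : A.e i '' ((A.e i).symm '' K) = K := by
    ext y
    constructor
    · rintro ⟨_, ⟨z, hz, rfl⟩, rfl⟩
      rwa [(A.e i).right_inv (hKt hz)]
    · intro hy
      exact ⟨_, ⟨y, hy, rfl⟩, (A.e i).right_inv (hKt hy)⟩
  have hF : Integrable (fun x => (u x - v x) ^ 2 +
      A.gamS (fun z => u z - v z) (fun z => u z - v z) x) A.μ :=
    (int_sq A hd).add (int_gam A hd hd)
  obtain ⟨h1, h2⟩ := A.integral_chart i hBm hBs (fun x => (u x - v x) ^ 2 +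
      A.gamS (fun z => u z - v z) (fun z => u z - v z) x)
  rw [him] at h1 h2
  have h3 := h1.1 hF.integrableOn
  rw [← integral_add (int_sq A hd) (int_gam A hd hd)]
  have h4 : ∫ x in (A.e i).symm '' K, ((u x - v x) ^ 2 +
      A.gamS (fun z => u z - v z) (fun z => u z - v z) x) ∂A.μ ≤
      ∫ x, ((u x - v x) ^ 2 + A.gamS (fun z => u z - v z) (fun z => u z - v z) x) ∂A.μ :=
    setIntegral_le_integral hF (Eventually.of_forall fun x =>
      add_nonneg (sq_nonneg _) (A.gamS_nonneg _ x))
  refine le_trans ?_ (mul_le_mul_of_nonneg_left h4 (inv_pos.2 hc).le)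
  rw [h2, ← integral_const_mul]
  refine setIntegral_mono_on
    (dH1_integrable (A.met i).opn hK hKt (sm_loc A hu i) (sm_loc A hv i)) (h3.const_mul _)
    hK.measurableSet fun y hy => ?_
  obtain ⟨b1, -, b3⟩ := hb y hy
  have b4 := (b3 (A.loc i fun z => u z - v z)).1
  rw [gamS_symm A hd hd i (hKt hy), le_inv_mul_iff₀ hc]
  have e1 : ∀ j, pd j (A.loc i fun z => u z - v z) y = pd j (A.loc i u) y - pd j (A.loc i v) y :=
    fun j => pd_sub (sm_da (A.met i).opn (sm_loc A hu i) (hKt hy))
      (sm_da (A.met i).opn (sm_loc A hv i) (hKt hy)) j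
  simp only [e1] at b4
  have b5 : c * (A.loc i u y - A.loc i v y) ^ 2 ≤
      (u ((A.e i).symm y) - v ((A.e i).symm y)) ^ 2 * vol (A.γ i) y := by
    rw [mul_comm]
    exact mul_le_mul_of_nonneg_left b1 (sq_nonneg _)
  rw [mul_add, add_mul]
  exact add_le_add b5 b4

/-- Test functions of a chart, pushed to the surface. -/
theorem push (i : Fin A.k) {φ : E 2 → ℝ} (hφ : Test (A.e i).target φ) :
    ∃ v : S → ℝ, A.SmOn univ v ∧
      (∀ u, A.SmOn univ u → ∫ x, A.gamS u v x ∂A.μ =
        ∫ y in (A.e i).target, gam (A.γ i) (A.loc i u) φ y * vol (A.γ i) y) ∧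
      ∀ f : S → ℝ, ∫ x, f x * v x ∂A.μ =
        ∫ y in (A.e i).target, A.loc i f y * φ y * vol (A.γ i) y := by
  obtain ⟨h1, h2⟩ := A.smOn_push i (K := tsupport φ) (V := univ) (f := φ) hφ.cpt hφ.sub isOpen_univ
    hφ.sm.contDiffOn (fun y _ hy => image_eq_zero_of_notMem_tsupport hy)
  have e0 : {x | x ∈ (A.e i).source → A.e i x ∈ (univ : Set (E 2))} = univ := by
    ext x
    simp
  rw [e0] at h1
  have hs : tsupport ((A.e i).source.indicator fun x => φ (A.e i x)) ⊆ (A.e i).source := by
    refine h2.trans ?_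
    rintro _ ⟨y, hy, rfl⟩
    exact (A.e i).map_target (hφ.sub hy)
  have hm : MeasurableSet (A.e i).source := (A.e i).open_source.measurableSet
  have hmt : MeasurableSet (A.e i).target := (A.e i).open_target.measurableSet
  have hloc : ∀ y ∈ (A.e i).target,
      A.loc i ((A.e i).source.indicator fun x => φ (A.e i x)) y = φ y := by
    intro y hy
    unfold Atlas2.loc
    rw [indicator_of_mem ((A.e i).map_target hy), (A.e i).right_inv hy]
  refine ⟨_, h1, fun u hu => ?_, fun f => ?_⟩
  · rw [← setIntegral_eq_integral_of_forall_compl_eq_zero (s := (A.e i).source),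
      (A.integral_chart i hm subset_rfl _).2, (A.e i).image_source_eq_target]
    · refine setIntegral_congr_fun hmt fun y hy => ?_
      have e1 : A.loc i ((A.e i).source.indicator fun x => φ (A.e i x)) =ᶠ[𝓝 y] φ := by
        filter_upwards [(A.e i).open_target.mem_nhds hy] with z hz using hloc z hz
      rw [gamS_symm A hu h1 i hy, gam_congr rfl EventuallyEq.rfl e1]
    · intro x hx
      have e1 : ((A.e i).source.indicator fun x => φ (A.e i x)) =ᶠ[𝓝 x] fun _ => (0 : ℝ) :=
        notMem_tsupport_iff_eventuallyEq.1 fun h => hx (hs h)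
      rw [A.gamS_congr EventuallyEq.rfl e1, A.gamS_comm, A.gamS_const_left]
  · rw [← setIntegral_eq_integral_of_forall_compl_eq_zero (s := (A.e i).source),
      (A.integral_chart i hm subset_rfl _).2, (A.e i).image_source_eq_target]
    · refine setIntegral_congr_fun hmt fun y hy => ?_
      have e1 := hloc y hy
      unfold Atlas2.loc at e1 ⊢
      rw [e1]
    · intro x hx
      rw [indicator_of_notMem hx, mul_zero]

/-- Smooth functions of mean zero. -/
def sub0 : Submodule ℝ (S → ℝ) where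
  carrier := {u | A.SmOn univ u ∧ ∫ x, u x ∂A.μ = 0}
  add_mem' := by
    rintro u v ⟨hu, hu0⟩ ⟨hv, hv0⟩
    refine ⟨SmOn.add A hu hv, ?_⟩
    simp only [Pi.add_apply]
    rw [integral_add (int_sm A hu) (int_sm A hv), hu0, hv0, add_zero]
  zero_mem' := ⟨A.smOn_const univ 0, by simp⟩
  smul_mem' := by
    rintro c u ⟨hu, hu0⟩
    refine ⟨SmOn.mul A (A.smOn_const univ c) hu, ?_⟩
    simp only [Pi.smul_apply, smul_eq_mul]
    rw [integral_const_mul, hu0, mul_zero]

variable [ConnectedSpace S]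

/-- A minimising sequence. -/
theorem exists_seq {f : S → ℝ} (hf : A.SmOn univ f) (h0 : ∫ x, f x ∂A.μ = 0) :
    ∃ u : ℕ → S → ℝ, (∀ k, A.SmOn univ (u k)) ∧
      (∀ ε > 0, ∃ N, ∀ k ≥ N, ∀ j ≥ N, ∫ x, (u k x - u j x) ^ 2 ∂A.μ +
        ∫ x, A.gamS (fun z => u k z - u j z) (fun z => u k z - u j z) x ∂A.μ ≤ ε) ∧
      ∀ v, A.SmOn univ v →
        Tendsto (fun k => ∫ x, A.gamS (u k) v x ∂A.μ) atTop (𝓝 (-∫ x, f x * v x ∂A.μ)) := by
  obtain ⟨C, hC, hP⟩ := A.poincare2
  have := A.isFiniteMeasure_μ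
  have hnn : ∀ u : S → ℝ, 0 ≤ ∫ x, A.gamS u u x ∂A.μ :=
    fun u => integral_nonneg fun x => A.gamS_nonneg u x
  obtain ⟨u, hu, hc, -, hl⟩ := minseq (sub0 A) (fun u v => ∫ x, A.gamS u v x ∂A.μ)
    (fun v => -∫ x, f x * v x ∂A.μ)
    (by
      rintro u ⟨hu, -⟩ v ⟨hv, -⟩ w ⟨hw, -⟩
      rw [← integral_add (int_gam A hu hw) (int_gam A hv hw)]
      exact integral_congr_ae (Eventually.of_forall fun x =>
        A.gamS_add_left isOpen_univ hu hv w (mem_univ x)))
    (by
      rintro c u - w -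
      rw [← integral_const_mul]
      exact integral_congr_ae (Eventually.of_forall fun x => A.gamS_cmul_left c u w x))
    (by
      rintro u - v -
      exact integral_congr_ae (Eventually.of_forall fun x => A.gamS_comm u v x))
    (fun u _ => hnn u)
    (by
      rintro u ⟨hu, -⟩ v ⟨hv, -⟩
      simp only [Pi.add_apply, mul_add]
      rw [integral_add (int_sm A (SmOn.mul A hf hu)) (int_sm A (SmOn.mul A hf hv)), neg_add])
    (by
      rintro c u -
      simp only [Pi.smul_apply, smul_eq_mul]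
      rw [mul_neg, ← integral_const_mul]
      congr 2
      ext x
      ring)
    (C := (∫ x, f x ^ 2 ∂A.μ) * C)
    (by
      rintro u ⟨hu, hu0⟩
      have h1 := (abs_integral_le_sqrt (f := fun x => f x * u x)
        (int_sm A (SmOn.mul A hf hu)).aestronglyMeasurable (int_sq A hf) (int_sq A hu)
        (Eventually.of_forall fun x => sq_nonneg _) (Eventually.of_forall fun x => sq_nonneg _)
        (Eventually.of_forall fun x => (mul_pow _ _ _).le)).2
      have hf2 : 0 ≤ ∫ x, f x ^ 2 ∂A.μ := integral_nonneg fun x => sq_nonneg _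
      have hu2 : 0 ≤ ∫ x, u x ^ 2 ∂A.μ := integral_nonneg fun x => sq_nonneg _
      have h2 := pow_le_pow_left₀ (abs_nonneg _) h1 2
      rw [sq_abs, mul_pow, Real.sq_sqrt hf2, Real.sq_sqrt hu2] at h2
      rw [neg_sq, mul_assoc]
      exact h2.trans (mul_le_mul_of_nonneg_left (hP u hu hu0) hf2))
  refine ⟨u, fun k => (hu k).1, fun ε hε => ?_, fun v hv => ?_⟩
  · obtain ⟨N, hN⟩ := hc (ε / (C + 1)) (by positivity)
    refine ⟨N, fun k hk j hj => ?_⟩
    have h1 : ∫ x, A.gamS (fun z => u k z - u j z) (fun z => u k z - u j z) x ∂A.μ ≤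
        ε / (C + 1) := hN k hk j hj
    have hm := (sub0 A).sub_mem (hu k) (hu j)
    have h2 : ∫ x, (u k x - u j x) ^ 2 ∂A.μ ≤
        C * ∫ x, A.gamS (fun z => u k z - u j z) (fun z => u k z - u j z) x ∂A.μ :=
      hP _ hm.1 hm.2
    rw [le_div_iff₀ (by positivity)] at h1
    linarith
  · have hM : A.μ.real univ ≠ 0 := by
      rw [Measure.real, ENNReal.toReal_ne_zero]
      exact ⟨A.μ_ne_zero isOpen_univ univ_nonempty, measure_ne_top _ _⟩
    set c : ℝ := (∫ x, v x ∂A.μ) / A.μ.real univ with hcdef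
    have hv' : (fun z => v z - c) ∈ sub0 A := by
      refine ⟨SmOn.sub A hv (A.smOn_const univ c), ?_⟩
      rw [integral_sub (int_sm A hv) (integrable_const c), integral_const, smul_eq_mul, hcdef]
      field_simp
      ring
    have h1 := hl _ hv'
    have e1 : ∀ k, ∫ x, A.gamS (u k) (fun z => v z - c) x ∂A.μ = ∫ x, A.gamS (u k) v x ∂A.μ :=
      fun k => integral_congr_ae (Eventually.of_forall fun x => gamS_sub_const A hv c x)
    have e2 : ∫ x, f x * (v x - c) ∂A.μ = ∫ x, f x * v x ∂A.μ := by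
      simp only [mul_sub]
      rw [integral_sub (int_sm A (SmOn.mul A hf hv)) ((int_sm A hf).mul_const c),
        integral_mul_const, h0, zero_mul, sub_zero]
    simp only [e1, e2] at h1
    exact h1

omit [MeasurableSpace S] [BorelSpace S] [T2Space S] [CompactSpace S] [ConnectedSpace S] in
/-- Local limits agree on overlaps. -/
theorem overlap {u : ℕ → S → ℝ} (hu : ∀ k, A.SmOn univ (u k)) {v : Fin A.k → E 2 → ℝ}
    (hv : ∀ i, Sm (A.e i).target (v i))
    (ht : ∀ i K, IsCompact K → K ⊆ (A.e i).target → TendH1 K (fun k => A.loc i (u k)) (v i))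
    (i j : Fin A.k) {x : S} (hi : x ∈ (A.e i).source) (hj : x ∈ (A.e j).source) :
    v i (A.e i x) = v j (A.e j x) := by
  have hΦ := A.isChart_trans i j
  have hm : MapsTo (fun y => A.e j ((A.e i).symm y))
      ((A.e i).target ∩ (A.e i).symm ⁻¹' (A.e j).source) (A.e j).target :=
    fun y hy => (A.e j).map_source hy.2
  have hx : A.e i x ∈ (A.e i).target ∩ (A.e i).symm ⁻¹' (A.e j).source :=
    ⟨(A.e i).map_source hi, by rw [mem_preimage, (A.e i).left_inv hi]; exact hj⟩
  have key := tendH1_unique hΦ.opn (u := fun k => A.loc i (u k)) (v := v i)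
    (v' := fun y => v j (A.e j ((A.e i).symm y)))
    (fun k => (sm_loc A (hu k) i).mono inter_subset_left) ((hv i).mono inter_subset_left)
    ((hv j).comp hΦ.sm hm) (fun K hK hKW => ht i K hK (hKW.trans inter_subset_left))
    (fun K hK hKW => by
      obtain ⟨C, hC, hb⟩ := dH1_comp_le hΦ (A.e j).open_target hm hK hKW
      have hK' : IsCompact ((fun y => A.e j ((A.e i).symm y)) '' K) :=
        hK.image_of_continuousOn (hΦ.sm.continuousOn.mono hKW)
      have hK'' : (fun y => A.e j ((A.e i).symm y)) '' K ⊆ (A.e j).target := by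
        rintro _ ⟨y, hy, rfl⟩
        exact hm (hKW hy)
      have h1 := (ht j _ hK' hK'').const_mul C
      rw [mul_zero] at h1
      refine squeeze_zero (fun k => dH1_nonneg _ _ _) (fun k => ?_) h1
      refine le_trans (le_of_eq ?_)
        (hb K hK.measurableSet subset_rfl _ _ (sm_loc A (hu k) j) (hv j))
      refine dH1_congr hΦ.opn hK.measurableSet hKW (fun y hy => ?_) (fun _ _ => rfl)
      simp only [Atlas2.loc]
      rw [(A.e j).left_inv hy.2]) _ hx
  simp only [(A.e i).left_inv hi] at key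
  exact key

end AtSolAux

namespace Atlas2

variable {S : Type} [TopologicalSpace S] [MeasurableSpace S] [BorelSpace S] [T2Space S]
  [CompactSpace S] [ConnectedSpace S] (A : Atlas2 S)

theorem poisson2 {f : S → ℝ} (hf : A.SmOn univ f) (h0 : ∫ x, f x ∂A.μ = 0) :
    ∃ w, A.SmOn univ w ∧ ∀ x, A.lapS w x = f x := by
  obtain ⟨u, hu, hc, hl⟩ := AtSolAux.exists_seq A hf h0
  have hloc : ∀ i : Fin A.k, ∃ v, Sm (A.e i).target v ∧
      (∀ y ∈ (A.e i).target, lap (A.γ i) v y = A.loc i f y) ∧
      ∀ K, IsCompact K → K ⊆ (A.e i).target → TendH1 K (fun k => A.loc i (u k)) v := by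
    intro i
    refine ell_seq (A.met i) (AtSolAux.sm_loc A hf i) (fun k => AtSolAux.sm_loc A (hu k) i)
      (fun K hK hKt ε hε => ?_) (fun φ hφ => ?_)
    · obtain ⟨C, hC, hb⟩ := AtSolAux.dH1_le A i hK hKt
      obtain ⟨N, hN⟩ := hc (ε / C) (by positivity)
      refine ⟨N, fun k hk l hl => (hb _ _ (hu k) (hu l)).trans ?_⟩
      rw [← le_div_iff₀' hC]
      exact hN k hk l hl
    · obtain ⟨v, hv, h1, h2⟩ := AtSolAux.push A i hφ
      have h3 := hl v hv
      rw [h2 f] at h3
      simp only [fun k => h1 (u k) (hu k)] at h3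
      exact h3
  choose v hv he ht using hloc
  have hw : ∀ i, ∀ y ∈ (A.e i).target,
      A.loc i (fun x => v (A.ch x) (A.e (A.ch x) x)) y = v i y := by
    intro i y hy
    have h := AtSolAux.overlap A hu hv ht (A.ch ((A.e i).symm y)) i (A.mem_ch _)
      ((A.e i).map_target hy)
    rw [(A.e i).right_inv hy] at h
    exact h
  refine ⟨fun x => v (A.ch x) (A.e (A.ch x) x), fun i => ?_, fun x => ?_⟩
  · exact ((hv i).mono inter_subset_left).congr fun y hy => hw i y hy.1
  · have hx := (A.e (A.ch x)).map_source (A.mem_ch x)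
    have e1 : A.loc (A.ch x) (fun x => v (A.ch x) (A.e (A.ch x) x)) =ᶠ[𝓝 (A.e (A.ch x) x)]
        v (A.ch x) := by
      filter_upwards [(A.e (A.ch x)).open_target.mem_nhds hx] with z hz using hw _ z hz
    unfold lapS
    rw [lap_congr EventuallyEq.rfl e1, he _ _ hx]
    unfold loc
    rw [(A.e (A.ch x)).left_inv (A.mem_ch x)]

end Atlas2

end Pool.Agent.P.MP_56a1cd_gt
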