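import Pool.Agent.P.MP_56a1cd_gt.Defs

/-!
Auxiliary definitions used in the proof.
-/

namespace Pool.Agent.P.MP_56a1cd_gt

open MeasureTheory Matrix Set Filter Topology
open scoped ContDiff ENNReal

variable {m n : ℕ}

/-! ### Local Riemannian calculus -/

/-- Smooth on `U`. -/
abbrev Sm (U : Set (E n)) (f : E n → ℝ) : Prop := ContDiffOn ℝ ∞ f U

/-- A smooth Riemannian metric on the open set `U`. -/
structure IsMet (g : Met n) (U : Set (E n)) : Prop where
  opn : IsOpen U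
  sm : ∀ i j, Sm U (fun x => g x i j)
  pos : ∀ x ∈ U, (g x).PosDef

/-- Test functions supported in `U`. -/
structure Test (U : Set (E n)) (φ : E n → ℝ) : Prop where
  sm : ContDiff ℝ ∞ φ
  cpt : HasCompactSupport φ
  sub : tsupport φ ⊆ U

/-- A smooth injective map with invertible derivative on the open set `W`. -/
structure IsChart (Φ : E n → E n) (W : Set (E n)) : Prop where
  opn : IsOpen W
  sm : ContDiffOn ℝ ∞ Φ W
  inj : InjOn Φ W
  det : ∀ y ∈ W, (jac Φ y).det ≠ 0

/-- Components of the gradient. -/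
noncomputable def gr (g : Met n) (f : E n → ℝ) (i : Fin n) (x : E n) : ℝ :=
  ∑ j, (g x)⁻¹ i j * pd j f x

/-- The Hessian. -/
noncomputable def hess (g : Met n) (f : E n → ℝ) (i j : Fin n) (x : E n) : ℝ :=
  pd i (pd j f) x - ∑ k, chr g k i j x * pd k f x

/-- The Laplace-Beltrami operator (trace of the Hessian). -/
noncomputable def lap (g : Met n) (f : E n → ℝ) (x : E n) : ℝ :=
  ∑ i, ∑ j, (g x)⁻¹ i j * hess g f i j x

/-- The Hessian of `f` evaluated on the gradients of `a` and `b`. -/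
noncomputable def hb (g : Met n) (f a b : E n → ℝ) (x : E n) : ℝ :=
  ∑ i, ∑ j, hess g f i j x * gr g a i x * gr g b j x

/-- The squared norm of the Hessian. -/
noncomputable def hsq (g : Met n) (f : E n → ℝ) (x : E n) : ℝ :=
  ∑ i, ∑ j, ∑ k, ∑ l, (g x)⁻¹ i k * (g x)⁻¹ j l * hess g f i j x * hess g f k l x

/-- The Ricci tensor evaluated on the gradient of `f`. -/
noncomputable def ricq (g : Met n) (f : E n → ℝ) (x : E n) : ℝ :=
  ∑ i, ∑ j, ric g i j x * gr g f i x * gr g f j x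

/-- The Hessian as a matrix. -/
noncomputable def hessM (g : Met n) (f : E n → ℝ) (x : E n) : Matrix (Fin n) (Fin n) ℝ :=
  Matrix.of fun i j => hess g f i j x

/-- The Ricci tensor as a matrix. -/
noncomputable def ricM (g : Met n) (x : E n) : Matrix (Fin n) (Fin n) ℝ :=
  Matrix.of fun i j => ric g i j x

/-- Christoffel symbols of the first kind. -/
noncomputable def chr1 (g : Met n) (i j l : Fin n) (x : E n) : ℝ :=
  (1 / 2) * (pd i (fun y => g y j l) x + pd j (fun y => g y i l) x - pd l (fun y => g y i j) x)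

/-- The Riemann tensor with lower indices. -/
noncomputable def riem (g : Met n) (i j k l : Fin n) (x : E n) : ℝ :=
  (1 / 2) * (pd j (pd k (fun y => g y i l)) x + pd i (pd l (fun y => g y j k)) x
      - pd i (pd k (fun y => g y j l)) x - pd j (pd l (fun y => g y i k)) x) +
    ∑ a, ∑ b, (g x)⁻¹ a b * (chr1 g j k a x * chr1 g i l b x - chr1 g j l a x * chr1 g i k b x)

/-- The first order part of the scalar curvature, as a function of the inverse metric `G` and of
the Christoffel symbols of the first kind `c`. -/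
noncomputable def scalQ (G : Matrix (Fin n) (Fin n) ℝ) (c : Fin n → Fin n → Fin n → ℝ) : ℝ :=
  ∑ i, ∑ j, ∑ k, ∑ l, ∑ a, ∑ b,
    G i k * G j l * G a b * (c j k a * c i l b - c j l a * c i k b)

/-- The Gauss curvature of the level sets of a harmonic function on a three-manifold. -/
noncomputable def KS (g : Met n) (u : E n → ℝ) (x : E n) : ℝ :=
  scal g x / 2 - ricq g u x / gam g u u x +
    (gam g (gam g u u) (gam g u u) x / (4 * gam g u u x) - hsq g u x / 2) / gam g u u x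

/-- The conformally flat metric `exp (2 u) δ`. -/
noncomputable def conf (u : E n → ℝ) : Met n :=
  fun x => Real.exp (2 * u x) • (1 : Matrix (Fin n) (Fin n) ℝ)

/-- The flat metric. -/
def flat : Met n := fun _ => 1

/-- The quadratic forms of `A` and `B` are comparable up to the factor `1 + μ`. -/
def Cmp (μ : ℝ) (A B : Matrix (Fin n) (Fin n) ℝ) : Prop :=
  ∀ v : Fin n → ℝ, v ⬝ᵥ A *ᵥ v ≤ (1 + μ) * (v ⬝ᵥ B *ᵥ v) ∧ v ⬝ᵥ B *ᵥ v ≤ (1 + μ) * (v ⬝ᵥ A *ᵥ v)

/-! ### Sobolev notions -/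

/-- Squared `H¹` distance on `K`. -/
noncomputable def dH1 (K : Set (E n)) (u v : E n → ℝ) : ℝ :=
  ∫ x in K, ((u x - v x) ^ 2 + ∑ i, (pd i u x - pd i v x) ^ 2)

/-- Cauchy sequences in `H¹(K)`. -/
def CauchyH1 (K : Set (E n)) (u : ℕ → E n → ℝ) : Prop :=
  ∀ ε > 0, ∃ N, ∀ k ≥ N, ∀ l ≥ N, dH1 K (u k) (u l) ≤ ε

/-- Convergence in `H¹(K)`. -/
def TendH1 (K : Set (E n)) (u : ℕ → E n → ℝ) (v : E n → ℝ) : Prop :=
  Tendsto (fun k => dH1 K (u k) v) atTop (𝓝 0)

/-- `v` is the weak `i`-th derivative of `u` on `U`. -/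
def WD (U : Set (E n)) (i : Fin n) (u v : E n → ℝ) : Prop :=
  ∀ φ, Test U φ → ∫ x, u x * pd i φ x = -∫ x, v x * φ x

/-- The Sobolev space `H^k` of the whole space. -/
def HK : ℕ → (E n → ℝ) → Prop
  | 0, u => MemLp u 2 volume
  | k + 1, u => MemLp u 2 volume ∧ ∀ i, ∃ v, WD univ i u v ∧ HK k v

/-- Weak form of the equation `∂ᵢ (aᵢⱼ pⱼ) = f` on `U`. -/
def WeakEq (U : Set (E n)) (a : Met n) (p : Fin n → E n → ℝ) (f : E n → ℝ) : Prop :=
  ∀ φ, Test U φ → ∫ x, ∑ i, ∑ j, a x i j * p j x * pd i φ x = -∫ x, f x * φ x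

/-- Iterated derivatives. -/
noncomputable def pds : List (Fin n) → (E n → ℝ) → E n → ℝ
  | [], f => f
  | i :: L, f => pds L (pd i f)

/-- A sequence of bump functions with shrinking supports. -/
noncomputable def bumpSeq (n k : ℕ) : ContDiffBump (0 : E n) :=
  ⟨1 / (2 * ((k : ℝ) + 1)), 1 / ((k : ℝ) + 1), by positivity, by
    apply one_div_lt_one_div_of_lt (by positivity)
    have : (0 : ℝ) < k + 1 := by positivity
    linarith⟩

/-- Mollification. -/
noncomputable def mol (k : ℕ) (u : E n → ℝ) (x : E n) : ℝ :=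
  ∫ t, (bumpSeq n k).normed volume t * u (x - t)

/-! ### Shells, cylinders, the sphere -/

/-- A smooth monotone step function, `0` on `(-∞, 1]` and `1` on `[2, ∞)`. -/
noncomputable def stp (t : ℝ) : ℝ := Real.smoothTransition (t - 1)

/-- The open shell `exp a < |x| < exp b`. -/
def Sh (a b : ℝ) : Set (E 3) := {x | Real.exp a < nrm x ∧ nrm x < Real.exp b}

/-- The closed shell `exp a ≤ |x| ≤ exp b`. -/
def Shc (a b : ℝ) : Set (E 3) := {x | Real.exp a ≤ nrm x ∧ nrm x ≤ Real.exp b}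

/-- The exterior of a ball. -/
def Ext (r : ℝ) : Set (E n) := {x | r < nrm x}

/-- The radial derivative `x · ∇ f`, that is the derivative in `s = log |x|`. -/
noncomputable def rad (f : E n → ℝ) (x : E n) : ℝ := fderiv ℝ f x x

/-- Smooth away from the origin and homogeneous of degree zero: a smooth function on the sphere. -/
structure Hom0 (f : E 3 → ℝ) : Prop where
  sm : Sm {x | x ≠ 0} f
  hom : ∀ (x : E 3) (t : ℝ), 0 < t → f (t • x) = f x

/-- The metric `N² ds² + exp (2 φ) g₀` in the coordinates `x = exp s • p`. -/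
noncomputable def cyl (φ N : E 3 → ℝ) : Met 3 := fun x => Matrix.of fun i j =>
  N x ^ 2 * (x i * x j) / nrm x ^ 4 +
    Real.exp (2 * φ x) * ((if i = j then 1 else 0) / nrm x ^ 2 - x i * x j / nrm x ^ 4)

/-- The tangential part of the inner product of gradients for `cyl φ N`. -/
noncomputable def tg (φ f h : E 3 → ℝ) (x : E 3) : ℝ :=
  Real.exp (-2 * φ x) * (nrm x ^ 2 * ∑ i, pd i f x * pd i h x - rad f x * rad h x)

/-- The Gauss curvature of `exp (2 φ) g₀`, as a function on the punctured space. -/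
noncomputable def Kf (φ : E 3 → ℝ) (x : E 3) : ℝ := scal (cyl φ fun _ => 1) x / 2

/-- The Laplacian of `exp (2 φ) g₀` (on homogeneous functions). -/
noncomputable def L0 (φ ξ : E 3 → ℝ) (x : E 3) : ℝ := lap (cyl φ fun _ => 1) ξ x

/-- The area measure of `exp (2 φ) g₀` on the unit sphere. -/
noncomputable def aM (φ : E 3 → ℝ) : Measure (E 3) :=
  Measure.map stereo (volume.withDensity fun y : E 2 =>
    ENNReal.ofReal (Real.exp (2 * φ (stereo y)) * (2 / (1 + y ⬝ᵥ y)) ^ 2))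

/-- The total area. -/
noncomputable def Ar (φ : E 3 → ℝ) : ℝ := (aM φ).real univ

/-- Inversion in the sphere of radius `exp a`. -/
noncomputable def refl (a : ℝ) (x : E n) : E n := (Real.exp (2 * a) / (x ⬝ᵥ x)) • x

/-- The first two coordinates. -/
def pr (z : E 3) : E 2 := ![z 0, z 1]

/-- The point with first two coordinates `y` and last coordinate `t`. -/
def lift (t : ℝ) (y : E 2) : E 3 := ![y 0, y 1, t]

/-- The metric induced on the coordinate plane at height `t`. -/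
def slice (h : Met 3) (t : ℝ) : Met 2 :=
  fun y => Matrix.of fun i j => h (lift t y) i.castSucc j.castSucc

/-- The metric `γ + N² dt²`. -/
def blk (γ : Met 2) (N : E 3 → ℝ) : Met 3 := fun z =>
  !![γ (pr z) 0 0, γ (pr z) 0 1, 0; γ (pr z) 1 0, γ (pr z) 1 1, 0; 0, 0, N z ^ 2]

/-- Polar coordinates `(y, s) ↦ ε exp s • σ y`, for `ε = 1` or `ε = -1`. -/
noncomputable def polar (ε : ℝ) (z : E 3) : E 3 := (ε * Real.exp (z 2)) • stereo (pr z)

/-- The conformal factor of `exp (2 φ) g₀` in the stereographic chart `ε • σ`. -/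
noncomputable def phs (φ : E 3 → ℝ) (ε : ℝ) (y : E 2) : ℝ :=
  φ (ε • stereo y) + Real.log (2 / (1 + y ⬝ᵥ y))

/-- The metric whose components at height `s` are those of `h` at height `κ s`. -/
def resc (κ : ℝ → ℝ) (h : Met 3) : Met 3 := fun z => h (lift (κ (z 2)) (pr z))

/-- The same construction in the coordinates `x = exp s • p`. -/
noncomputable def stretch (κ : ℝ → ℝ) (h : Met 3) : Met 3 := fun x =>
  Real.exp (κ (Real.log (nrm x)) - Real.log (nrm x)) ^ 2 •
    h (Real.exp (κ (Real.log (nrm x)) - Real.log (nrm x)) • x)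

/-! ### Ends with a totally geodesic inner boundary and a flat end -/

/-- A closed region `M` of space with a metric which is a cylinder near the boundary (on both
sides of it) and flat near infinity. -/
structure Cap (φ : E 3 → ℝ) where
  M : Set (E 3)
  g : Met 3
  Φ : E 3 → E 3
  F : E 3 → E 3
  N : E 3 → ℝ
  a : ℝ
  h : ℝ
  r : ℝ
  h_pos : 0 < h
  r_pos : 0 < r
  closed : IsClosed M
  bdd : Bornology.IsBounded Mᶜ
  met : IsMet g (interior M ∪ Φ '' Sh (a - h) (a + h))
  chart : IsChart Φ (Sh (a - h) (a + h))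
  side : ∀ x ∈ Sh (a - h) (a + h), (Φ x ∈ M ↔ Real.exp a ≤ nrm x)
  front : frontier M ⊆ Φ '' {x | nrm x = Real.exp a}
  N_hom : Hom0 N
  N_pos : ∀ x, x ≠ 0 → 0 < N x
  cylΦ : ∀ x ∈ Sh (a - h) (a + h), pull Φ g x = cyl φ N x
  chartF : IsChart F (Ext r)
  mapsF : MapsTo F (Ext r) (interior M)
  flatF : ∀ x ∈ Ext r, pull F g x = 1
  core : ∀ r', r < r' → Bornology.IsBounded (M \ F '' Ext r')
  proper : ∀ R : ℝ, ∃ r', ∀ x, r < nrm x → r' < nrm x → R < nrm (F x)

namespace Cap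

variable {φ : E 3 → ℝ} (C : Cap φ)

/-- The collar in the shell coordinates. -/
def W : Set (E 3) := Sh (C.a - C.h) (C.a + C.h)

/-- The open neighbourhood of `M` on which the metric is defined. -/
def Ω : Set (E 3) := interior C.M ∪ C.Φ '' Sh (C.a - C.h) (C.a + C.h)

/-- The boundary point over the point `p` of the unit sphere. -/
noncomputable def bp (p : E 3) : E 3 := C.Φ (Real.exp C.a • p)

/-- The derivative of `v` along the outer unit normal of `M`, at the boundary point over `p`. -/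
noncomputable def fl (v : E 3 → ℝ) (p : E 3) : ℝ :=
  -rad (fun x => v (C.Φ x)) (Real.exp C.a • p) / C.N p

end Cap

/-- The harmonic function that equals one on the boundary and decays at infinity. -/
structure PrePot {φ : E 3 → ℝ} (C : Cap φ) (U : E 3 → ℝ) : Prop where
  sm : Sm C.Ω U
  harm : ∀ x ∈ C.Ω, lap C.g U x = 0
  odd : ∀ x ∈ C.W, U (C.Φ (refl C.a x)) = 2 - U (C.Φ x)
  asym : ∃ c K r' : ℝ, C.r < r' ∧ ∀ x, r' ≤ nrm x →
    |U (C.F x) - c / nrm x| ≤ K / nrm x ^ 2 ∧
      ∀ i, |pd i (fun y => U (C.F y)) x + c * x i / nrm x ^ 3| ≤ K / nrm x ^ 3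

/-- The capacitary potential, normalised to have flux `4 π`. -/
structure Pot {φ : E 3 → ℝ} (C : Cap φ) where
  T : ℝ
  G : E 3 → ℝ
  T_pos : 0 < T
  sm : Sm C.Ω G
  harm : ∀ x ∈ C.Ω, lap C.g G x = 0
  odd : ∀ x ∈ C.W, G (C.Φ (refl C.a x)) = 2 * T - G (C.Φ x)
  pos : ∀ x ∈ C.M, 0 < G x
  le : ∀ x ∈ C.M, G x ≤ T
  cpt : ∀ t, 0 < t → IsCompact {x | x ∈ C.M ∧ t ≤ G x}
  grad : ∃ K σ : ℝ, 0 < σ ∧ ∀ x ∈ C.M, G x ≤ σ → gam C.g G G x ≤ K * G x ^ 4
  flux : ∫ p, C.fl G p ∂aM φ = 4 * Real.pi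
  int : IntegrableOn (fun x => gam C.g G G x * vol C.g x) C.M

/-- The weight in the horizon inequality. -/
noncomputable def Psi (T t : ℝ) : ℝ := T ^ 2 / (2 * T - t) ^ 2

/-- The logarithmic derivative of the gradient in the model space. -/
noncomputable def lam (T t : ℝ) : ℝ := 2 / t - 2 / (2 * T - t)

/-- The regularised length of the gradient. -/
noncomputable def Wd (g : Met n) (G : E n → ℝ) (δ : ℝ) (x : E n) : ℝ := √(gam g G G x + δ)

/-- The divergence of `P(G) ∇W - L(G) W ∇G`. -/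
noncomputable def divX (g : Met n) (G : E n → ℝ) (P L : ℝ → ℝ) (δ : ℝ) (x : E n) : ℝ :=
  (gam g (fun y => P (G y)) (Wd g G δ) x + P (G x) * lap g (Wd g G δ) x) -
    (gam g (fun y => L (G y) * Wd g G δ y) G x + L (G x) * Wd g G δ x * lap g G x)

/-- The lapse function of the neck. -/
noncomputable def lapse (b : ℝ → ℝ) (L : ℝ) (ξ : E 3 → ℝ) (x : E 3) : ℝ :=
  (1 - b (Real.log (nrm x))) + b (Real.log (nrm x)) * L * ξ x

/-- Two caps, the second one obtained from the first one by attaching a neck of thickness about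
`ε ξ`. -/
structure Neck (φ ξ : E 3 → ℝ) (ε s : ℝ) where
  C₀ : Cap φ
  C₁ : Cap φ
  b : ℝ → ℝ
  L : ℝ
  g_eq : C₁.g = C₀.g
  Φ_eq : C₁.Φ = C₀.Φ
  N₀ : C₀.N = fun _ => 1
  N₁ : C₁.N = fun x => L * ξ x
  L_pos : 0 < L
  lt : C₁.a < C₀.a
  short : C₀.a - C₁.a ≤ s
  b_sm : ContDiff ℝ ∞ b
  b_mem : ∀ t, 0 ≤ b t ∧ b t ≤ 1
  b_one : ∀ t, t ≤ C₁.a → b t = 1
  b_zero : ∀ t, C₀.a ≤ t → b t = 0
  thick : L * ∫ t in C₁.a..C₀.a, b t = ε
  chart : IsChart C₀.Φ (Sh (C₁.a - C₁.h) (C₀.a + C₀.h))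
  maps : MapsTo C₀.Φ (Sh (C₁.a - C₁.h) (C₀.a + C₀.h)) C₁.Ω
  cylΦ : ∀ x ∈ Sh (C₁.a - C₁.h) (C₀.a + C₀.h), pull C₀.Φ C₀.g x = cyl φ (lapse b L ξ) x
  M_eq : C₁.M = C₀.M ∪ C₀.Φ '' Shc C₁.a C₀.a
  disj : Disjoint C₀.M (C₀.Φ '' Sh C₁.a C₀.a)
  Ω_sub : C₀.Ω ⊆ C₁.Ω

/-! ### Surfaces -/

/-- A finite atlas of a surface with a Riemannian metric. -/
structure Atlas2 (S : Type) [TopologicalSpace S] where
  k : ℕ
  e : Fin k → OpenPartialHomeomorph S (E 2)
  γ : Fin k → Met 2
  cover : ∀ x, ∃ i, x ∈ (e i).source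
  met : ∀ i, IsMet (γ i) (e i).target
  trans_sm : ∀ i j, ContDiffOn ℝ ∞ (fun y => e j ((e i).symm y))
    ((e i).target ∩ (e i).symm ⁻¹' (e j).source)
  compat : ∀ i j, ∀ y ∈ (e i).target ∩ (e i).symm ⁻¹' (e j).source,
    γ i y = pull (fun y => e j ((e i).symm y)) (γ j) y

namespace Atlas2

variable {S : Type} [TopologicalSpace S] (A : Atlas2 S)

/-- A function read in the chart `i`. -/
def loc (i : Fin A.k) (u : S → ℝ) : E 2 → ℝ := fun y => u ((A.e i).symm y)

/-- Smooth on the open set `O`. -/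
def SmOn (O : Set S) (u : S → ℝ) : Prop :=
  ∀ i, Sm ((A.e i).target ∩ (A.e i).symm ⁻¹' O) (A.loc i u)

/-- A chart around `x`. -/
noncomputable def ch (x : S) : Fin A.k := Classical.choose (A.cover x)

/-- Inner product of gradients. -/
noncomputable def gamS (u v : S → ℝ) (x : S) : ℝ :=
  gam (A.γ (A.ch x)) (A.loc (A.ch x) u) (A.loc (A.ch x) v) (A.e (A.ch x) x)

/-- Laplacian. -/
noncomputable def lapS (u : S → ℝ) (x : S) : ℝ :=
  lap (A.γ (A.ch x)) (A.loc (A.ch x) u) (A.e (A.ch x) x)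

/-- Gauss curvature. -/
noncomputable def KG (x : S) : ℝ := scal (A.γ (A.ch x)) (A.e (A.ch x) x) / 2

/-- The part of the chart domain `i` not covered by earlier charts. -/
def piece (i : Fin A.k) : Set S := (A.e i).source \ ⋃ j ∈ {j | j < i}, (A.e j).source

/-- The area measure. -/
noncomputable def μ [MeasurableSpace S] : Measure S :=
  ∑ i, Measure.map (A.e i).symm
    ((volume.restrict (A.e i '' A.piece i)).withDensity fun y => ENNReal.ofReal (vol (A.γ i) y))

/-- The metric is the flat one in a disc of radius `r` around `p` in the chart `i`. -/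
def FlatAt (p : S) (i : Fin A.k) (r : ℝ) : Prop :=
  0 < r ∧ p ∈ (A.e i).source ∧
    ∀ y, nrm (y - A.e i p) < r → y ∈ (A.e i).target ∧ A.γ i y = 1

end Atlas2

/-- A chart in which `G` is the last coordinate. -/
structure Adapted (G : E 3 → ℝ) (e : OpenPartialHomeomorph (E 3) (E 3)) : Prop where
  sm : ContDiffOn ℝ ∞ e e.source
  chart : IsChart e.symm e.target
  last : ∀ x ∈ e.source, e x 2 = G x

end Pool.Agent.P.MP_56a1cd_gt
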