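import Pool.Agent.P.MP_56a1cd_gt.Basic

namespace Pool.Agent.P.MP_56a1cd_gt

open MeasureTheory Matrix Set Filter Topology
open scoped ContDiff ENNReal

variable {m n : ℕ}

/-! Elementary calculus for coordinate derivatives, Jacobians and test functions. -/

theorem sm_da {U : Set (E n)} {f : E n → ℝ} (hU : IsOpen U) (hf : Sm U f) {x : E n} (hx : x ∈ U) :
    DifferentiableAt ℝ f x :=
  (hf.contDiffAt (hU.mem_nhds hx)).differentiableAt (by simp)

theorem sm_pd {U : Set (E n)} {f : E n → ℝ} (hU : IsOpen U) (hf : Sm U f) (i : Fin n) :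
    Sm U (pd i f) :=
  (hf.fderiv_of_isOpen hU (m := ∞) le_rfl).clm_apply contDiffOn_const

theorem contDiff_pd {f : E n → ℝ} (hf : ContDiff ℝ ∞ f) (i : Fin n) : ContDiff ℝ ∞ (pd i f) :=
  contDiffOn_univ.1 (sm_pd isOpen_univ hf.contDiffOn i)

theorem sm_coord (U : Set (E n)) (i : Fin n) : Sm U (fun x => x i) :=
  (contDiff_apply ℝ ℝ i).contDiffOn

theorem sm_comp_real {U : Set (E n)} {J : Set ℝ} {f : E n → ℝ} {β : ℝ → ℝ} (hf : Sm U f)
    (hβ : ContDiffOn ℝ ∞ β J) (hm : MapsTo f U J) : Sm U (fun x => β (f x)) :=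
  hβ.comp hf hm

theorem pd_add {f h : E n → ℝ} {x : E n} (hf : DifferentiableAt ℝ f x)
    (hh : DifferentiableAt ℝ h x) (i : Fin n) :
    pd i (fun y => f y + h y) x = pd i f x + pd i h x := by
  simp only [pd, fderiv_fun_add hf hh, _root_.add_apply]

theorem pd_sub {f h : E n → ℝ} {x : E n} (hf : DifferentiableAt ℝ f x)
    (hh : DifferentiableAt ℝ h x) (i : Fin n) :
    pd i (fun y => f y - h y) x = pd i f x - pd i h x := by
  simp only [pd, fderiv_fun_sub hf hh, _root_.sub_apply]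

theorem pd_neg (f : E n → ℝ) (x : E n) (i : Fin n) : pd i (fun y => -f y) x = -pd i f x := by
  simp only [pd, fderiv_fun_neg, _root_.neg_apply]

theorem pd_mul {f h : E n → ℝ} {x : E n} (hf : DifferentiableAt ℝ f x)
    (hh : DifferentiableAt ℝ h x) (i : Fin n) :
    pd i (fun y => f y * h y) x = pd i f x * h x + f x * pd i h x := by
  simp only [pd, fderiv_fun_mul hf hh, _root_.add_apply,
    _root_.smul_apply, smul_eq_mul]
  ring

theorem pd_const (c : ℝ) (x : E n) (i : Fin n) : pd i (fun _ => c) x = 0 := by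
  simp only [pd, fderiv_fun_const, Pi.zero_apply, _root_.zero_apply]

theorem pd_const_mul (c : ℝ) (f : E n → ℝ) (x : E n) (i : Fin n) :
    pd i (fun y => c * f y) x = c * pd i f x := by
  have h := fderiv_const_smul_field (𝕜 := ℝ) (f := f) c
  exact congrArg (fun L : E n →L[ℝ] ℝ => L (Pi.single i 1)) (congrFun h x)

theorem pd_add_const (c : ℝ) (f : E n → ℝ) (x : E n) (i : Fin n) :
    pd i (fun y => f y + c) x = pd i f x := by
  simp only [pd, fderiv_add_const]

theorem pd_sum {ι : Type*} (s : Finset ι) {f : ι → E n → ℝ} {x : E n}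
    (hf : ∀ k ∈ s, DifferentiableAt ℝ (f k) x) (i : Fin n) :
    pd i (fun y => ∑ k ∈ s, f k y) x = ∑ k ∈ s, pd i (f k) x := by
  simp only [pd, fderiv_fun_sum hf, _root_.sum_apply]

theorem pd_coord (i j : Fin n) (x : E n) :
    pd i (fun y => y j) x = if i = j then 1 else 0 := by
  have h : fderiv ℝ (fun y : E n => y j) x = ContinuousLinearMap.proj j :=
    (ContinuousLinearMap.proj j : E n →L[ℝ] ℝ).fderiv
  simp only [pd, h, ContinuousLinearMap.proj_apply, Pi.single_apply, eq_comm]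

theorem pd_comp_real {f : E n → ℝ} {β : ℝ → ℝ} {x : E n} {β' : ℝ} (hf : DifferentiableAt ℝ f x)
    (hβ : HasDerivAt β β' (f x)) (i : Fin n) :
    pd i (fun y => β (f y)) x = β' * pd i f x := by
  have h := (hβ.comp_hasFDerivAt x hf.hasFDerivAt).fderiv
  exact congrArg (fun L : E n →L[ℝ] ℝ => L (Pi.single i 1)) h

theorem pd_congr {f h : E n → ℝ} {x : E n} (e : f =ᶠ[𝓝 x] h) (i : Fin n) :
    pd i f x = pd i h x := by
  simp only [pd, e.fderiv_eq]

theorem pd_congr_ev {f h : E n → ℝ} {x : E n} (e : f =ᶠ[𝓝 x] h) (i : Fin n) :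
    pd i f =ᶠ[𝓝 x] pd i h :=
  e.eventuallyEq_nhds.mono fun _ hy => pd_congr hy i

theorem pd_congr_on {U : Set (E n)} {f h : E n → ℝ} (hU : IsOpen U) (e : ∀ y ∈ U, f y = h y)
    {x : E n} (hx : x ∈ U) (i : Fin n) : pd i f x = pd i h x :=
  pd_congr (eventually_of_mem (hU.mem_nhds hx) e) i

theorem pd_comm {U : Set (E n)} {f : E n → ℝ} (hU : IsOpen U) (hf : Sm U f) {x : E n}
    (hx : x ∈ U) (i j : Fin n) : pd i (pd j f) x = pd j (pd i f) x := by
  have h1 := hf.contDiffAt (hU.mem_nhds hx)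
  have h2 : DifferentiableAt ℝ (fderiv ℝ f) x :=
    (h1.fderiv_right (m := ∞) le_rfl).differentiableAt (by simp)
  have h3 : ∀ a b : Fin n,
      pd a (pd b f) x = fderiv ℝ (fderiv ℝ f) x (Pi.single a 1) (Pi.single b 1) := fun a b => by
    change fderiv ℝ (fun y => fderiv ℝ f y (Pi.single b 1)) x (Pi.single a 1) = _
    rw [fderiv_clm_apply h2 (differentiableAt_const _)]
    simp
  rw [h3, h3]
  exact (h1.isSymmSndFDerivAt (by
    rw [minSmoothness_of_isRCLikeNormedField]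
    exact WithTop.coe_le_coe.2 (le_top : (2 : ℕ∞) ≤ ⊤))).eq _ _

theorem fderiv_eq_sum (f : E n → ℝ) (x v : E n) : fderiv ℝ f x v = ∑ i, v i * pd i f x := by
  conv_lhs => rw [← Finset.univ_sum_single v, map_sum]
  refine Finset.sum_congr rfl fun i _ => ?_
  rw [pd, ← smul_eq_mul, ← map_smul, ← Pi.single_smul, smul_eq_mul, mul_one]

theorem fderiv_eq_zero_iff (f : E n → ℝ) (x : E n) : fderiv ℝ f x = 0 ↔ ∀ i, pd i f x = 0 := by
  refine ⟨fun h i => by simp [pd, h], fun h => ContinuousLinearMap.ext fun v => ?_⟩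
  simp [fderiv_eq_sum, h]

theorem rad_eq (f : E n → ℝ) (x : E n) : rad f x = ∑ i, x i * pd i f x :=
  fderiv_eq_sum f x x

theorem measurable_pd (f : E n → ℝ) (i : Fin n) : Measurable (pd i f) :=
  measurable_fderiv_apply_const ℝ f _

theorem Test.pd {U : Set (E n)} {φ : E n → ℝ} (h : Test U φ) (i : Fin n) : Test U (pd i φ) :=
  ⟨contDiff_pd h.sm i, h.cpt.fderiv_apply ℝ _, (tsupport_fderiv_apply_subset ℝ _).trans h.sub⟩

theorem Test.mono {U V : Set (E n)} {φ : E n → ℝ} (h : Test U φ) (hV : U ⊆ V) : Test V φ :=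
  ⟨h.sm, h.cpt, h.sub.trans hV⟩

/-- A function smooth on `U` times a test function is a test function. -/
theorem Test.mul {U : Set (E n)} {φ a : E n → ℝ} (h : Test U φ) (hU : IsOpen U) (ha : Sm U a) :
    Test U (fun x => a x * φ x) := by
  refine ⟨contDiff_iff_contDiffAt.2 fun x => ?_, h.cpt.mul_left,
    tsupport_mul_subset_right.trans h.sub⟩
  by_cases hx : x ∈ U
  · exact (ha.contDiffAt (hU.mem_nhds hx)).mul h.sm.contDiffAt
  · refine (contDiffAt_const (c := 0)).congr_of_eventuallyEq ?_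
    filter_upwards [notMem_tsupport_iff_eventuallyEq.1 fun h' => hx (h.sub h')] with y hy
    rw [hy, Pi.zero_apply, mul_zero]

/-- Cut-off functions. -/
theorem exists_test {U K : Set (E n)} (hU : IsOpen U) (hK : IsCompact K) (hKU : K ⊆ U) :
    ∃ χ, Test U χ ∧ (∀ x, 0 ≤ χ x ∧ χ x ≤ 1) ∧ ∀ᶠ x in 𝓝ˢ K, χ x = 1 := by
  obtain ⟨L, hL, h1, h2⟩ := exists_compact_between hK hU hKU
  obtain ⟨L', hL', h3, h4⟩ := exists_compact_between hK isOpen_interior h1
  obtain ⟨χ, h5, h6, h7, h8⟩ := exists_contMDiff_support_eq_eq_one_iff (n := ⊤)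
    (modelWithCornersSelf ℝ (E n)) isOpen_interior hL'.isClosed h4
  have h9 : tsupport χ ⊆ L := by
    rw [tsupport, h7]
    exact closure_minimal interior_subset hL.isClosed
  refine ⟨χ, ⟨h5.contDiff, hL.of_isClosed_subset (isClosed_tsupport χ) h9, h9.trans h2⟩,
    fun x => h6 (mem_range_self x), ?_⟩
  filter_upwards [isOpen_interior.mem_nhdsSet.2 h3] with x hx
  exact (h8 x).1 (interior_subset hx)

/-- A function smooth on `U` that vanishes off a compact subset, extended by zero. -/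
theorem test_indicator {U K : Set (E n)} {f : E n → ℝ} (hU : IsOpen U) (hf : Sm U f)
    (hK : IsCompact K) (hKU : K ⊆ U) (h0 : ∀ x ∈ U, x ∉ K → f x = 0) :
    Test U (U.indicator f) ∧ tsupport (U.indicator f) ⊆ K := by
  have h1 : ∀ x, x ∉ K → U.indicator f x = 0 := fun x hx => by
    by_cases h : x ∈ U
    · rw [indicator_of_mem h, h0 x h hx]
    · exact indicator_of_notMem h f
  have h2 : tsupport (U.indicator f) ⊆ K :=
    closure_minimal (fun x hx => by_contra fun h => hx (h1 x h)) hK.isClosed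
  refine ⟨⟨contDiff_iff_contDiffAt.2 fun x => ?_, HasCompactSupport.intro hK h1, h2.trans hKU⟩, h2⟩
  by_cases hx : x ∈ U
  · refine (hf.contDiffAt (hU.mem_nhds hx)).congr_of_eventuallyEq ?_
    filter_upwards [hU.mem_nhds hx] with y hy
    exact indicator_of_mem hy f
  · refine (contDiffAt_const (c := 0)).congr_of_eventuallyEq ?_
    filter_upwards [hK.isClosed.isOpen_compl.mem_nhds fun h => hx (hKU h)] with y hy
    exact h1 y hy

theorem integrableOn_of_cpt {U K : Set (E n)} {f : E n → ℝ} (hU : MeasurableSet U)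
    (hK : IsCompact K) (hKU : K ⊆ U) (hf : ContinuousOn f K) (h0 : ∀ x ∈ U, x ∉ K → f x = 0) :
    IntegrableOn f U :=
  (hf.integrableOn_compact hK).of_forall_sdiff_eq_zero hU fun x hx => h0 x hx.1 hx.2

theorem jac_mulVec {Φ : E m → E n} {y : E m} (hΦ : DifferentiableAt ℝ Φ y) (v : E m) :
    jac Φ y *ᵥ v = fderiv ℝ Φ y v := by
  funext i
  have h : fderiv ℝ (fun z => Φ z i) y v = fderiv ℝ Φ y v i :=
    congrArg (fun L : E m →L[ℝ] ℝ => L v) (fderiv_apply hΦ i)
  rw [← h, fderiv_eq_sum]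
  exact Finset.sum_congr (s₁ := Finset.univ) rfl fun j _ => mul_comm (jac Φ y i j) (v j)

theorem jac_det {Φ : E n → E n} {y : E n} (hΦ : DifferentiableAt ℝ Φ y) :
    (jac Φ y).det = (fderiv ℝ Φ y).det := by
  rw [ContinuousLinearMap.det, ← LinearMap.det_toLin']
  congr 1
  exact LinearMap.ext fun v => jac_mulVec hΦ v

theorem pd_comp {Φ : E m → E n} {f : E n → ℝ} {y : E m} (hf : DifferentiableAt ℝ f (Φ y))
    (hΦ : DifferentiableAt ℝ Φ y) (j : Fin m) :
    pd j (fun z => f (Φ z)) y = ∑ i, pd i f (Φ y) * jac Φ y i j := by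
  have h := (hf.hasFDerivAt.comp y hΦ.hasFDerivAt).fderiv
  have h2 : pd j (fun z => f (Φ z)) y = fderiv ℝ f (Φ y) (fderiv ℝ Φ y (Pi.single j 1)) :=
    congrArg (fun L : E m →L[ℝ] ℝ => L (Pi.single j 1)) h
  rw [h2, fderiv_eq_sum, ← jac_mulVec hΦ]
  simp only [Matrix.mulVec_single_one, Matrix.col_apply, mul_comm]

theorem jac_comp {l : ℕ} {Φ : E m → E n} {Θ : E l → E m} {y : E l}
    (hΦ : DifferentiableAt ℝ Φ (Θ y)) (hΘ : DifferentiableAt ℝ Θ y) :
    jac (fun z => Φ (Θ z)) y = jac Φ (Θ y) * jac Θ y := by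
  ext i j
  exact pd_comp (f := fun z => Φ z i) (differentiableAt_pi.1 hΦ i) hΘ j

theorem jac_id (y : E n) : jac (fun z : E n => z) y = 1 := by
  ext i j
  rw [jac, Matrix.of_apply, pd_coord, Matrix.one_apply]
  simp only [eq_comm]

theorem jac_congr {Φ Θ : E m → E n} {y : E m} (e : Φ =ᶠ[𝓝 y] Θ) : jac Φ y = jac Θ y := by
  ext i j
  exact pd_congr (e.mono fun z hz => congrFun hz i) j

theorem sm_jac {Φ : E m → E n} {W : Set (E m)} (hW : IsOpen W) (hΦ : ContDiffOn ℝ ∞ Φ W)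
    (i : Fin n) (j : Fin m) : Sm W (fun y => jac Φ y i j) :=
  sm_pd hW (contDiffOn_pi.1 hΦ i) j

theorem pull_comp {l : ℕ} {Φ : E m → E n} {Θ : E l → E m} (g : Met n) {y : E l}
    (hΦ : DifferentiableAt ℝ Φ (Θ y)) (hΘ : DifferentiableAt ℝ Θ y) :
    pull (fun z => Φ (Θ z)) g y = pull Θ (pull Φ g) y := by
  simp only [pull, jac_comp hΦ hΘ, Matrix.transpose_mul, Matrix.mul_assoc]

theorem pull_congr {Φ Θ : E m → E n} {g g' : Met n} {y : E m} (e : Φ =ᶠ[𝓝 y] Θ)
    (e' : g (Φ y) = g' (Φ y)) : pull Φ g y = pull Θ g' y := by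
  simp only [pull]
  rw [jac_congr e, e', e.self_of_nhds]

theorem pull_id (g : Met n) (y : E n) : pull (fun z => z) g y = g y := by
  simp only [pull, jac_id, Matrix.transpose_one, Matrix.one_mul, Matrix.mul_one]

theorem pull_quad (Φ : E m → E n) (g : Met n) (y v w : E m) :
    v ⬝ᵥ pull Φ g y *ᵥ w = (jac Φ y *ᵥ v) ⬝ᵥ g (Φ y) *ᵥ (jac Φ y *ᵥ w) := by
  rw [pull, ← Matrix.mulVec_mulVec, ← Matrix.mulVec_mulVec, Matrix.dotProduct_mulVec,
    Matrix.vecMul_transpose]

end Pool.Agent.P.MP_56a1cd_gt
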