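import Pool.Agent.P.MP_56a1cd_gt.CalcN

namespace Pool.Agent.P.MP_56a1cd_gt

open MeasureTheory Matrix Set Filter Topology
open scoped ContDiff ENNReal

variable {m n : ℕ}

/-! PLAN. Smoothness and locality of the Riemannian quantities. For the inverse matrix use
`Matrix.inv_def`, `Matrix.adjugate_apply`, `Matrix.det_apply'` (determinants of matrices with smooth
entries are smooth: finite sums of products) and `Ring.inverse_eq_inv'`.
The congruence lemmas follow from `pd_congr`, `pd_congr_ev` and `EventuallyEq.eventuallyEq_nhds`.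
`ellip`: the continuous function ξ ⬝ G x ξ of x and ξ is positive on the compact set
`K × {nrm ξ = 1}`; scale. -/

namespace CalcBAux

theorem ent {g g' : Met n} {x : E n} (e : g =ᶠ[𝓝 x] g') (i j : Fin n) :
    (fun y => g y i j) =ᶠ[𝓝 x] fun y => g' y i j :=
  e.mono fun y hy => by simp only [hy]

theorem quad_smul (A : Matrix (Fin n) (Fin n) ℝ) (t : ℝ) (v : E n) :
    (t • v) ⬝ᵥ A *ᵥ (t • v) = t ^ 2 * (v ⬝ᵥ A *ᵥ v) := by
  rw [Matrix.mulVec_smul, dotProduct_smul, smul_dotProduct, smul_eq_mul, smul_eq_mul]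
  ring

theorem isCompact_unit : IsCompact {v : E n | nrm v = 1} :=
  (isCompact_nrm_le 1).of_isClosed_subset (isClosed_eq continuous_nrm continuous_const)
    fun _ hx => le_of_eq hx

theorem exists_unit {v : E n} (hv : v ≠ 0) : ∃ w : E n, nrm w = 1 ∧ v = nrm v • w := by
  have hp := nrm_pos hv
  refine ⟨(nrm v)⁻¹ • v, ?_, ?_⟩
  · rw [nrm_smul, abs_of_pos (inv_pos.mpr hp), inv_mul_cancel₀ hp.ne']
  · rw [smul_smul, mul_inv_cancel₀ hp.ne', one_smul]

theorem quad_pos {A : Matrix (Fin n) (Fin n) ℝ} (hA : A.PosDef) {v : E n} (hv : v ≠ 0) :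
    0 < v ⬝ᵥ A *ᵥ v := by
  simpa using hA.dotProduct_mulVec_pos hv

theorem quad_bounds {G : Met n} {K : Set (E n)} (hK : IsCompact K)
    (hc : ∀ i j, ContinuousOn (fun x => G x i j) K) (hp : ∀ x ∈ K, (G x).PosDef) :
    ∃ c C : ℝ, 0 < c ∧ 0 < C ∧ ∀ x ∈ K, ∀ v : E n,
      c * (v ⬝ᵥ v) ≤ v ⬝ᵥ G x *ᵥ v ∧ v ⬝ᵥ G x *ᵥ v ≤ C * (v ⬝ᵥ v) := by
  have hP : IsCompact (K ×ˢ {v : E n | nrm v = 1}) := hK.prod isCompact_unit
  have hq : ContinuousOn (fun z : E n × E n => z.2 ⬝ᵥ G z.1 *ᵥ z.2)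
      (K ×ˢ {v : E n | nrm v = 1}) := by
    simp only [dotProduct, Matrix.mulVec]
    refine continuousOn_finsetSum _ fun i _ => ContinuousOn.mul (by fun_prop) ?_
    refine continuousOn_finsetSum _ fun j _ => ContinuousOn.mul ?_ (by fun_prop)
    exact (hc i j).comp continuousOn_fst fun z hz => hz.1
  obtain ⟨c, hc0, hc1⟩ := hP.exists_forall_le' hq (a := 0) fun z hz =>
    quad_pos (hp z.1 hz.1) (ne_zero_of_nrm_pos (by rw [hz.2]; exact one_pos))
  obtain ⟨C, hC⟩ := hP.exists_bound_of_continuousOn hq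
  refine ⟨c, |C| + 1, hc0, by positivity, fun x hx v => ?_⟩
  by_cases hv : v = 0
  · simp [hv]
  obtain ⟨w, hw, e⟩ := exists_unit hv
  have h1 := hc1 (x, w) ⟨hx, hw⟩
  have h2 := (le_abs_self _).trans ((hC (x, w) ⟨hx, hw⟩).trans (le_abs_self C))
  have h3 : v ⬝ᵥ G x *ᵥ v = nrm v ^ 2 * (w ⬝ᵥ G x *ᵥ w) := by
    rw [← quad_smul, ← e]
  have h4 : 0 ≤ nrm v ^ 2 := sq_nonneg _
  simp only at h1 h2
  rw [h3, ← nrm_sq]
  constructor <;> nlinarith

end CalcBAux

open CalcBAux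

section
variable {g : Met n} {U : Set (E n)}

theorem IsMet.mono (hg : IsMet g U) {V : Set (E n)} (hV : IsOpen V) (h : V ⊆ U) : IsMet g V :=   ⟨hV, fun i j => (hg.sm i j).mono h, fun x hx => hg.pos x (h hx)⟩

theorem IsMet.congr (hg : IsMet g U) {g' : Met n} (e : ∀ x ∈ U, g' x = g x) : IsMet g' U :=   ⟨hg.opn, fun i j => (hg.sm i j).congr fun x hx => by rw [e x hx],
    fun x hx => by rw [e x hx]; exact hg.pos x hx⟩

theorem IsMet.symm (hg : IsMet g U) {x : E n} (hx : x ∈ U) (i j : Fin n) :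
    g x i j = g x j i := by
  simpa using (hg.pos x hx).isHermitian.apply j i

theorem IsMet.inv_symm (hg : IsMet g U) {x : E n} (hx : x ∈ U) (i j : Fin n) :
    (g x)⁻¹ i j = (g x)⁻¹ j i := by
  simpa using (hg.pos x hx).inv.isHermitian.apply j i

theorem IsMet.mul_inv (hg : IsMet g U) {x : E n} (hx : x ∈ U) (i j : Fin n) :
    ∑ k, g x i k * (g x)⁻¹ k j = if i = j then 1 else 0 := by
  rw [← Matrix.mul_apply, Matrix.mul_nonsing_inv _ (hg.pos x hx).det_pos.ne'.isUnit,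
    Matrix.one_apply]

theorem IsMet.inv_mul (hg : IsMet g U) {x : E n} (hx : x ∈ U) (i j : Fin n) :
    ∑ k, (g x)⁻¹ i k * g x k j = if i = j then 1 else 0 := by
  rw [← Matrix.mul_apply, Matrix.nonsing_inv_mul _ (hg.pos x hx).det_pos.ne'.isUnit,
    Matrix.one_apply]

theorem sm_det {A : Met n} (hA : ∀ i j, Sm U (fun x => A x i j)) :
    Sm U (fun x => (A x).det) := by
  simp only [Matrix.det_apply']
  exact ContDiffOn.sum fun σ _ => contDiffOn_const.mul (contDiffOn_prod fun i _ => hA _ _)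

theorem IsMet.sm_inv (hg : IsMet g U) (i j : Fin n) : Sm U (fun x => (g x)⁻¹ i j) := by
  have h1 : Sm U (fun x => ((g x).det)⁻¹) :=
    (sm_det hg.sm).inv fun x hx => (hg.pos x hx).det_pos.ne'
  have h2 : Sm U (fun x => ((g x).updateRow j (Pi.single i 1)).det) := by
    refine sm_det (A := fun x => (g x).updateRow j (Pi.single i 1)) fun a b => ?_
    simp only [Matrix.updateRow_apply]
    split_ifs
    · exact contDiffOn_const
    · exact hg.sm a b
  refine (h1.mul h2).congr fun x _ => ?_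
  rw [Matrix.inv_def, Ring.inverse_eq_inv', Matrix.smul_apply, Matrix.adjugate_apply, smul_eq_mul]

theorem IsMet.vol_pos (hg : IsMet g U) {x : E n} (hx : x ∈ U) : 0 < vol g x :=   Real.sqrt_pos.mpr (hg.pos x hx).det_pos

theorem vol_nonneg (g : Met n) (x : E n) : 0 ≤ vol g x := Real.sqrt_nonneg _

theorem IsMet.sm_vol (hg : IsMet g U) : Sm U (vol g) :=   (sm_det hg.sm).sqrt fun x hx => (hg.pos x hx).det_pos.ne'

/-- The coefficients of the divergence form of the Laplacian. -/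
theorem IsMet.isMet_vol_inv (hg : IsMet g U) : IsMet (fun x => vol g x • (g x)⁻¹) U :=   ⟨hg.opn, fun i j => hg.sm_vol.mul (hg.sm_inv i j),
    fun x hx => (hg.pos x hx).inv.smul (hg.vol_pos hx)⟩

theorem IsMet.sm_chr1 (hg : IsMet g U) (i j l : Fin n) : Sm U (chr1 g i j l) :=   contDiffOn_const.mul (((sm_pd hg.opn (hg.sm j l) i).add (sm_pd hg.opn (hg.sm i l) j)).sub
    (sm_pd hg.opn (hg.sm i j) l))

theorem IsMet.sm_chr (hg : IsMet g U) (k i j : Fin n) : Sm U (chr g k i j) :=   contDiffOn_const.mul (ContDiffOn.sum fun l _ => (hg.sm_inv k l).mul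
    (((sm_pd hg.opn (hg.sm j l) i).add (sm_pd hg.opn (hg.sm i l) j)).sub
      (sm_pd hg.opn (hg.sm i j) l)))

theorem IsMet.sm_ric (hg : IsMet g U) (i j : Fin n) : Sm U (ric g i j) :=   ContDiffOn.sum fun k _ =>
    ((sm_pd hg.opn (hg.sm_chr k i j) k).sub (sm_pd hg.opn (hg.sm_chr k i k) j)).add
      (ContDiffOn.sum fun l _ => ((hg.sm_chr k k l).mul (hg.sm_chr l i j)).sub
        ((hg.sm_chr k j l).mul (hg.sm_chr l i k)))

theorem IsMet.sm_scal (hg : IsMet g U) : Sm U (scal g) :=   ContDiffOn.sum fun i _ => ContDiffOn.sum fun j _ => (hg.sm_inv i j).mul (hg.sm_ric i j)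

theorem IsMet.sm_gr (hg : IsMet g U) {f : E n → ℝ} (hf : Sm U f) (i : Fin n) :
    Sm U (gr g f i) :=   ContDiffOn.sum fun j _ => (hg.sm_inv i j).mul (sm_pd hg.opn hf j)

theorem IsMet.sm_gam (hg : IsMet g U) {f h : E n → ℝ} (hf : Sm U f) (hh : Sm U h) :
    Sm U (gam g f h) :=   ContDiffOn.sum fun i _ => ContDiffOn.sum fun j _ =>
    ((hg.sm_inv i j).mul (sm_pd hg.opn hf i)).mul (sm_pd hg.opn hh j)

theorem IsMet.sm_hess (hg : IsMet g U) {f : E n → ℝ} (hf : Sm U f) (i j : Fin n) :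
    Sm U (hess g f i j) :=   (sm_pd hg.opn (sm_pd hg.opn hf j) i).sub
    (ContDiffOn.sum fun k _ => (hg.sm_chr k i j).mul (sm_pd hg.opn hf k))

theorem IsMet.sm_lap (hg : IsMet g U) {f : E n → ℝ} (hf : Sm U f) : Sm U (lap g f) :=   ContDiffOn.sum fun i _ => ContDiffOn.sum fun j _ => (hg.sm_inv i j).mul (hg.sm_hess hf i j)

theorem IsMet.sm_hsq (hg : IsMet g U) {f : E n → ℝ} (hf : Sm U f) : Sm U (hsq g f) :=   ContDiffOn.sum fun i _ => ContDiffOn.sum fun j _ => ContDiffOn.sum fun k _ =>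
    ContDiffOn.sum fun l _ =>
      (((hg.sm_inv i k).mul (hg.sm_inv j l)).mul (hg.sm_hess hf i j)).mul (hg.sm_hess hf k l)

theorem IsMet.sm_ricq (hg : IsMet g U) {f : E n → ℝ} (hf : Sm U f) : Sm U (ricq g f) :=   ContDiffOn.sum fun i _ => ContDiffOn.sum fun j _ =>
    ((hg.sm_ric i j).mul (hg.sm_gr hf i)).mul (hg.sm_gr hf j)

theorem IsMet.continuousOn_KS (hg : IsMet g U) {f : E n → ℝ} (hf : Sm U f) :
    ContinuousOn (KS g f) {x | x ∈ U ∧ gam g f f x ≠ 0} := by
  have sub : {x | x ∈ U ∧ gam g f f x ≠ 0} ⊆ U := fun x hx => hx.1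
  have c1 := hg.sm_scal.continuousOn.mono sub
  have c2 := (hg.sm_ricq hf).continuousOn.mono sub
  have c3 := (hg.sm_gam hf hf).continuousOn.mono sub
  have c4 := (hg.sm_gam (hg.sm_gam hf hf) (hg.sm_gam hf hf)).continuousOn.mono sub
  have c5 := (hg.sm_hsq hf).continuousOn.mono sub
  exact ((c1.div_const 2).sub (c2.div c3 fun x hx => hx.2)).add
    (((c4.div (continuousOn_const.mul c3) fun x hx => mul_ne_zero (by norm_num) hx.2).sub
      (c5.div_const 2)).div c3 fun x hx => hx.2)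

theorem chr_eq (g : Met n) (k i j : Fin n) (x : E n) :
    chr g k i j x = ∑ l, (g x)⁻¹ k l * chr1 g i j l x := by
  unfold chr chr1
  rw [Finset.mul_sum]
  exact Finset.sum_congr rfl fun l _ => by ring

theorem IsMet.chr1_symm (hg : IsMet g U) {x : E n} (hx : x ∈ U) (i j l : Fin n) :
    chr1 g i j l x = chr1 g j i l x := by
  unfold chr1
  rw [pd_congr_on hg.opn (fun y hy => hg.symm hy i j) hx l]
  ring

theorem IsMet.chr_symm (hg : IsMet g U) {x : E n} (hx : x ∈ U) (k i j : Fin n) :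
    chr g k i j x = chr g k j i x := by
  rw [chr_eq, chr_eq]
  exact Finset.sum_congr rfl fun l _ => by rw [hg.chr1_symm hx i j l]

theorem IsMet.hess_symm (hg : IsMet g U) {f : E n → ℝ} (hf : Sm U f) {x : E n} (hx : x ∈ U)
    (i j : Fin n) : hess g f i j x = hess g f j i x := by
  unfold hess
  rw [pd_comm hg.opn hf hx i j]
  congr 1
  exact Finset.sum_congr rfl fun k _ => by rw [hg.chr_symm hx k i j]

theorem chr_congr {g g' : Met n} {x : E n} (e : g =ᶠ[𝓝 x] g') (k i j : Fin n) :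
    chr g k i j =ᶠ[𝓝 x] chr g' k i j := by
  filter_upwards [e.eventuallyEq_nhds] with y hy
  unfold chr
  rw [hy.self_of_nhds]
  congr 1
  refine Finset.sum_congr rfl fun l _ => ?_
  rw [pd_congr (ent hy j l) i, pd_congr (ent hy i l) j, pd_congr (ent hy i j) l]

theorem ric_congr {g g' : Met n} {x : E n} (e : g =ᶠ[𝓝 x] g') (i j : Fin n) :
    ric g i j x = ric g' i j x := by
  unfold ric
  refine Finset.sum_congr rfl fun k _ => ?_
  rw [pd_congr (chr_congr e k i j) k, pd_congr (chr_congr e k i k) j]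
  congr 1
  refine Finset.sum_congr rfl fun l _ => ?_
  rw [(chr_congr e k k l).self_of_nhds, (chr_congr e l i j).self_of_nhds,
    (chr_congr e k j l).self_of_nhds, (chr_congr e l i k).self_of_nhds]

theorem scal_congr {g g' : Met n} {x : E n} (e : g =ᶠ[𝓝 x] g') : scal g x = scal g' x := by
  unfold scal
  rw [e.self_of_nhds]
  exact Finset.sum_congr rfl fun i _ => Finset.sum_congr rfl fun j _ => by rw [ric_congr e i j]

theorem gam_congr {g g' : Met n} {f f' h h' : E n → ℝ} {x : E n} (e : g x = g' x)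
    (ef : f =ᶠ[𝓝 x] f') (eh : h =ᶠ[𝓝 x] h') : gam g f h x = gam g' f' h' x := by
  unfold gam
  rw [e]
  exact Finset.sum_congr rfl fun i _ => Finset.sum_congr rfl fun j _ => by
    rw [pd_congr ef i, pd_congr eh j]

theorem gam_congr_ev {g g' : Met n} {f f' h h' : E n → ℝ} {x : E n} (e : g =ᶠ[𝓝 x] g')
    (ef : f =ᶠ[𝓝 x] f') (eh : h =ᶠ[𝓝 x] h') : gam g f h =ᶠ[𝓝 x] gam g' f' h' := by
  filter_upwards [e, ef.eventuallyEq_nhds, eh.eventuallyEq_nhds] with y h1 h2 h3
  exact gam_congr h1 h2 h3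

theorem hess_congr {g g' : Met n} {f f' : E n → ℝ} {x : E n} (e : g =ᶠ[𝓝 x] g')
    (ef : f =ᶠ[𝓝 x] f') (i j : Fin n) : hess g f i j x = hess g' f' i j x := by
  unfold hess
  rw [pd_congr (pd_congr_ev ef j) i]
  congr 1
  exact Finset.sum_congr rfl fun k _ => by
    rw [(chr_congr e k i j).self_of_nhds, pd_congr ef k]

theorem lap_congr {g g' : Met n} {f f' : E n → ℝ} {x : E n} (e : g =ᶠ[𝓝 x] g')
    (ef : f =ᶠ[𝓝 x] f') : lap g f x = lap g' f' x := by
  unfold lap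
  rw [e.self_of_nhds]
  exact Finset.sum_congr rfl fun i _ => Finset.sum_congr rfl fun j _ => by
    rw [hess_congr e ef i j]

theorem KS_congr {g g' : Met n} {f f' : E n → ℝ} {x : E n} (e : g =ᶠ[𝓝 x] g')
    (ef : f =ᶠ[𝓝 x] f') : KS g f x = KS g' f' x := by
  have hgr : ∀ i, gr g f i x = gr g' f' i x := fun i => by
    unfold gr
    rw [e.self_of_nhds]
    exact Finset.sum_congr rfl fun j _ => by rw [pd_congr ef j]
  have h1 : ricq g f x = ricq g' f' x := by
    unfold ricq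
    exact Finset.sum_congr rfl fun i _ => Finset.sum_congr rfl fun j _ => by
      rw [ric_congr e i j, hgr i, hgr j]
  have h2 : hsq g f x = hsq g' f' x := by
    unfold hsq
    rw [e.self_of_nhds]
    simp only [hess_congr e ef]
  have h3 := gam_congr_ev e ef ef
  unfold KS
  rw [scal_congr e, h1, h2, h3.self_of_nhds, gam_congr e.self_of_nhds h3 h3]

theorem meanCurv_congr {g g' : Met n} {f f' : E n → ℝ} {x : E n} (e : g =ᶠ[𝓝 x] g')
    (ef : f =ᶠ[𝓝 x] f') : meanCurv g f x = meanCurv g' f' x := by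
  have hu : ∀ i, unitNormal g f i =ᶠ[𝓝 x] unitNormal g' f' i := fun i => by
    filter_upwards [e, ef.eventuallyEq_nhds] with y h1 h2
    unfold unitNormal
    rw [gam_congr h1 h2 h2, h1]
    congr 1
    exact Finset.sum_congr rfl fun j _ => by rw [pd_congr h2 j]
  unfold meanCurv
  refine Finset.sum_congr rfl fun i _ => ?_
  rw [pd_congr (hu i) i]
  congr 1
  exact Finset.sum_congr rfl fun k _ => by
    rw [(chr_congr e i i k).self_of_nhds, (hu k).self_of_nhds]

theorem isMet_flat (hU : IsOpen U) : IsMet (flat : Met n) U :=   ⟨hU, fun _ _ => contDiffOn_const, fun _ _ => Matrix.PosDef.one⟩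

theorem chr_flat (k i j : Fin n) (x : E n) : chr (flat : Met n) k i j x = 0 := by
  simp [chr, flat, pd_const]

theorem scal_flat (x : E n) : scal (flat : Met n) x = 0 := by
  have h : ∀ k i j : Fin n, chr (flat : Met n) k i j = fun _ => 0 := fun k i j =>
    funext fun y => chr_flat k i j y
  simp [scal, ric, h, pd_const]

theorem vol_flat (x : E n) : vol (flat : Met n) x = 1 := by simp [vol, flat]

theorem gam_flat (f h : E n → ℝ) (x : E n) :
    gam flat f h x = ∑ i, pd i f x * pd i h x := by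
  simp [gam, flat, Matrix.one_apply]

theorem lap_flat (f : E n → ℝ) (x : E n) : lap flat f x = ∑ i, pd i (pd i f) x := by
  have h : ∀ i j, hess flat f i j x = pd i (pd j f) x := fun i j => by
    simp [hess, chr_flat]
  unfold lap
  simp only [h]
  simp [flat, Matrix.one_apply]

/-- The set where a smooth field of symmetric matrices is positive definite is open. -/
theorem isMet_posDef (hs : ∀ i j, ContDiff ℝ ∞ (fun x => g x i j))
    (hy : ∀ x i j, g x i j = g x j i) : IsMet g {x | (g x).PosDef} := by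
  refine ⟨isOpen_iff_mem_nhds.mpr fun x hx => ?_, fun i j => (hs i j).contDiffOn, fun x hx => hx⟩
  have hq : Continuous (fun z : E n × E n => z.2 ⬝ᵥ g z.1 *ᵥ z.2) := by
    simp only [dotProduct, Matrix.mulVec]
    refine continuous_finsetSum _ fun i _ => Continuous.mul (by fun_prop) ?_
    refine continuous_finsetSum _ fun j _ => Continuous.mul ?_ (by fun_prop)
    exact (hs i j).continuous.comp continuous_fst
  have h := isCompact_unit.eventually_forall_of_forall_eventually (x₀ := x)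
    (P := fun y w => 0 < w ⬝ᵥ g y *ᵥ w) fun w hw =>
      (isOpen_lt continuous_const hq).mem_nhds
        (quad_pos hx (ne_zero_of_nrm_pos (by rw [hw]; exact one_pos)))
  filter_upwards [h] with y hy'
  refine Matrix.PosDef.of_dotProduct_mulVec_pos ?_ fun v hv => ?_
  · ext i j
    simpa using hy y j i
  · obtain ⟨w, hw, e⟩ := exists_unit hv
    have h3 : v ⬝ᵥ g y *ᵥ v = nrm v ^ 2 * (w ⬝ᵥ g y *ᵥ w) := by
      rw [← quad_smul, ← e]
    have := mul_pos (pow_pos (nrm_pos hv) 2) (hy' w hw)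
    rw [← h3] at this
    simpa using this

/-- Uniform ellipticity on compact sets. -/
theorem IsMet.ellip (hg : IsMet g U) {K : Set (E n)} (hK : IsCompact K) (hKU : K ⊆ U) :
    ∃ c C : ℝ, 0 < c ∧ 0 < C ∧ ∀ x ∈ K, c ≤ vol g x ∧ vol g x ≤ C ∧ ∀ v : E n,
      c * (v ⬝ᵥ v) ≤ v ⬝ᵥ g x *ᵥ v ∧ v ⬝ᵥ g x *ᵥ v ≤ C * (v ⬝ᵥ v) ∧
      c * (v ⬝ᵥ v) ≤ v ⬝ᵥ (g x)⁻¹ *ᵥ v ∧ v ⬝ᵥ (g x)⁻¹ *ᵥ v ≤ C * (v ⬝ᵥ v) := by
  obtain ⟨c1, C1, a1, b1, h1⟩ := quad_bounds hK
    (fun i j => (hg.sm i j).continuousOn.mono hKU) fun x hx => hg.pos x (hKU hx)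
  obtain ⟨c2, C2, a2, b2, h2⟩ := quad_bounds (G := fun x => (g x)⁻¹) hK
    (fun i j => (hg.sm_inv i j).continuousOn.mono hKU) fun x hx => (hg.pos x (hKU hx)).inv
  have hv := hg.sm_vol.continuousOn.mono hKU
  obtain ⟨c3, a3, h3⟩ := hK.exists_forall_le' hv (a := 0) fun x hx => hg.vol_pos (hKU hx)
  obtain ⟨C3, h4⟩ := hK.exists_bound_of_continuousOn hv
  refine ⟨min c1 (min c2 c3), max C1 (max C2 C3), lt_min a1 (lt_min a2 a3), lt_max_of_lt_left b1,
    fun x hx => ⟨((min_le_right _ _).trans (min_le_right _ _)).trans (h3 x hx),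
      ((le_abs_self _).trans (h4 x hx)).trans ((le_max_right _ _).trans (le_max_right _ _)),
      fun v => ?_⟩⟩
  have hn : 0 ≤ v ⬝ᵥ v := by
    rw [← nrm_sq]
    exact sq_nonneg _
  refine ⟨(mul_le_mul_of_nonneg_right (min_le_left _ _) hn).trans (h1 x hx v).1,
    (h1 x hx v).2.trans (mul_le_mul_of_nonneg_right (le_max_left _ _) hn),
    (mul_le_mul_of_nonneg_right ((min_le_right _ _).trans (min_le_left _ _)) hn).trans
      (h2 x hx v).1,
    (h2 x hx v).2.trans (mul_le_mul_of_nonneg_right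
      ((le_max_left _ _).trans (le_max_right _ _)) hn)⟩

theorem IsMet.ellip_gam (hg : IsMet g U) {K : Set (E n)} (hK : IsCompact K) (hKU : K ⊆ U) :
    ∃ c C : ℝ, 0 < c ∧ 0 < C ∧ ∀ x ∈ K, c ≤ vol g x ∧ vol g x ≤ C ∧ ∀ f : E n → ℝ,
      c * ∑ i, pd i f x ^ 2 ≤ gam g f f x * vol g x ∧
      gam g f f x * vol g x ≤ C * ∑ i, pd i f x ^ 2 := by
  obtain ⟨c, C, hc, hC, h⟩ := hg.ellip hK hKU
  refine ⟨min c (c * c), max C (C * C), lt_min hc (mul_pos hc hc), lt_max_of_lt_left hC,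
    fun x hx => ?_⟩
  obtain ⟨v1, v2, h'⟩ := h x hx
  refine ⟨(min_le_left _ _).trans v1, v2.trans (le_max_left _ _), fun f => ?_⟩
  obtain ⟨-, -, a, b⟩ := h' fun i => pd i f x
  have e1 : (fun i => pd i f x) ⬝ᵥ (fun i => pd i f x) = ∑ i, pd i f x ^ 2 := by
    simp only [dotProduct, sq]
  have e2 : (fun i => pd i f x) ⬝ᵥ (g x)⁻¹ *ᵥ (fun i => pd i f x) = gam g f f x := by
    simp only [dotProduct, Matrix.mulVec, gam, Finset.mul_sum]
    exact Finset.sum_congr rfl fun i _ => Finset.sum_congr rfl fun j _ => by ring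
  rw [e1, e2] at a b
  have hn : 0 ≤ ∑ i, pd i f x ^ 2 := Finset.sum_nonneg fun i _ => sq_nonneg _
  have hg0 : 0 ≤ gam g f f x := (mul_nonneg hc.le hn).trans a
  constructor
  · calc min c (c * c) * ∑ i, pd i f x ^ 2 ≤ c * c * ∑ i, pd i f x ^ 2 :=
          mul_le_mul_of_nonneg_right (min_le_right _ _) hn
      _ = (c * ∑ i, pd i f x ^ 2) * c := by ring
      _ ≤ gam g f f x * vol g x := mul_le_mul a v1 hc.le hg0
  · calc gam g f f x * vol g x ≤ (C * ∑ i, pd i f x ^ 2) * C :=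
          mul_le_mul b v2 (vol_nonneg g x) (mul_nonneg hC.le hn)
      _ = C * C * ∑ i, pd i f x ^ 2 := by ring
      _ ≤ max C (C * C) * ∑ i, pd i f x ^ 2 := mul_le_mul_of_nonneg_right (le_max_right _ _) hn

theorem IsMet.ricq_bdd (hg : IsMet g U) {K : Set (E n)} (hK : IsCompact K) (hKU : K ⊆ U) :
    ∃ C : ℝ, 0 ≤ C ∧ ∀ x ∈ K, ∀ f : E n → ℝ, |ricq g f x| ≤ C * gam g f f x := by
  obtain ⟨c, C, hc, -, h⟩ := hg.ellip hK hKU
  have hb : ∀ i j, ∃ M : ℝ, ∀ x ∈ K, ‖ric g i j x‖ ≤ M := fun i j =>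
    hK.exists_bound_of_continuousOn ((hg.sm_ric i j).continuousOn.mono hKU)
  choose M hM using hb
  refine ⟨(∑ i, ∑ j, |M i j|) / c, by positivity, fun x hx f => ?_⟩
  set w : E n := fun i => gr g f i x with hw
  have e0 : w = (g x)⁻¹ *ᵥ fun i => pd i f x := rfl
  have e1 : w ⬝ᵥ g x *ᵥ w = gam g f f x := by
    have : g x *ᵥ w = fun i => pd i f x := by
      rw [e0, Matrix.mulVec_mulVec,
        Matrix.mul_nonsing_inv _ (hg.pos x (hKU hx)).det_pos.ne'.isUnit, Matrix.one_mulVec]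
    rw [this, e0]
    simp only [dotProduct, Matrix.mulVec, gam, Finset.sum_mul]
    exact Finset.sum_congr rfl fun i _ => Finset.sum_congr rfl fun j _ => by ring
  have a := ((h x hx).2.2 w).1
  rw [e1, ← nrm_sq] at a
  have b : |ricq g f x| ≤ (∑ i, ∑ j, |M i j|) * nrm w ^ 2 := by
    unfold ricq
    rw [Finset.sum_mul]
    refine (Finset.abs_sum_le_sum_abs _ _).trans (Finset.sum_le_sum fun i _ => ?_)
    rw [Finset.sum_mul]
    refine (Finset.abs_sum_le_sum_abs _ _).trans (Finset.sum_le_sum fun j _ => ?_)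
    rw [abs_mul, abs_mul, sq, mul_assoc]
    exact mul_le_mul ((hM i j x hx).trans (le_abs_self _))
      (mul_le_mul (abs_le_nrm w i) (abs_le_nrm w j) (abs_nonneg _) (nrm_nonneg w))
      (mul_nonneg (abs_nonneg _) (abs_nonneg _)) (abs_nonneg _)
  refine b.trans ?_
  have hS : 0 ≤ ∑ i, ∑ j, |M i j| := by positivity
  rw [div_mul_eq_mul_div, le_div_iff₀ hc]
  nlinarith

end

end Pool.Agent.P.MP_56a1cd_gt
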