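import Pool.Agent.P.MP_56a1cd_gt.CalcA

namespace Pool.Agent.P.MP_56a1cd_gt

open MeasureTheory Matrix Set Filter Topology
open scoped ContDiff ENNReal

variable {m n : ℕ}

/-! PLAN. Facts on the Euclidean norm, shells and the step function. `nrm x = ‖WithLp.toLp 2 x‖` gives the
inequalities; `volume_nrm_eq`: `Convex.addHaar_frontier` for the convex set `{nrm ≤ R}` (or transport
`Measure.addHaar_sphere`); connectedness: transport `isConnected_sphere` along the homeomorphism with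
`EuclideanSpace ℝ (Fin 3)`, shells are images of `I ×ˢ sph` under scalar multiplication. -/

namespace CalcNAux

theorem dot_nonneg (x : E n) : 0 ≤ x ⬝ᵥ x :=
  Finset.sum_nonneg fun i _ => mul_self_nonneg (x i)

theorem nrm_eq (x : E n) : nrm x = ‖(WithLp.toLp 2 x : EuclideanSpace ℝ (Fin n))‖ := by
  rw [EuclideanSpace.norm_eq]
  unfold nrm
  congr 1
  simp [dotProduct, sq]

theorem contDiff_dot : ContDiff ℝ ∞ (fun x : E n => x ⬝ᵥ x) := by
  unfold dotProduct
  fun_prop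

theorem pd_dot (x : E n) (i : Fin n) : pd i (fun y : E n => y ⬝ᵥ y) x = 2 * x i := by
  have hd : ∀ k : Fin n, DifferentiableAt ℝ (fun y : E n => y k) x := fun k => by fun_prop
  unfold dotProduct
  rw [pd_sum Finset.univ (f := fun k (y : E n) => y k * y k) (fun k _ => (hd k).mul (hd k))]
  have : ∀ k : Fin n, pd i (fun y : E n => y k * y k) x = if i = k then 2 * x k else 0 := by
    intro k
    rw [pd_mul (hd k) (hd k), pd_coord]
    split_ifs <;> ring
  simp [this]

end CalcNAux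

open CalcNAux

theorem nrm_nonneg (x : E n) : 0 ≤ nrm x := Real.sqrt_nonneg _

theorem nrm_sq (x : E n) : nrm x ^ 2 = x ⬝ᵥ x := Real.sq_sqrt (dot_nonneg x)

theorem nrm_pos {x : E n} (hx : x ≠ 0) : 0 < nrm x := by
  rw [nrm_eq, norm_pos_iff]
  intro h
  apply hx
  have := congrArg WithLp.ofLp h
  simpa using this

theorem ne_zero_of_nrm_pos {x : E n} (hx : 0 < nrm x) : x ≠ 0 := by
  rintro rfl
  simp [nrm] at hx

theorem nrm_zero : nrm (0 : E n) = 0 := by simp [nrm]

theorem nrm_smul (t : ℝ) (x : E n) : nrm (t • x) = |t| * nrm x := by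
  rw [nrm_eq, nrm_eq, WithLp.toLp_smul, norm_smul, Real.norm_eq_abs]

theorem nrm_add_le (x y : E n) : nrm (x + y) ≤ nrm x + nrm y := by
  rw [nrm_eq, nrm_eq, nrm_eq, WithLp.toLp_add]
  exact norm_add_le _ _

theorem abs_dot_le (x y : E n) : |x ⬝ᵥ y| ≤ nrm x * nrm y := by
  apply abs_le_of_sq_le_sq' _ (mul_nonneg (nrm_nonneg x) (nrm_nonneg y)) |> fun h => abs_le.mpr h
  rw [mul_pow, nrm_sq, nrm_sq]
  have := Finset.sum_mul_sq_le_sq_mul_sq Finset.univ x y
  simpa [dotProduct, sq] using this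

theorem abs_le_nrm (x : E n) (i : Fin n) : |x i| ≤ nrm x := by
  apply Real.abs_le_sqrt
  rw [sq]
  exact Finset.single_le_sum (f := fun j => x j * x j) (fun j _ => mul_self_nonneg (x j))
    (Finset.mem_univ i)

theorem norm_le_nrm (x : E n) : ‖x‖ ≤ nrm x :=
  (pi_norm_le_iff_of_nonneg (nrm_nonneg x)).mpr fun i => abs_le_nrm x i

theorem nrm_le_norm (x : E n) : nrm x ≤ n * ‖x‖ := by
  apply Real.sqrt_le_iff.mpr
  refine ⟨by positivity, ?_⟩
  have h1 : x ⬝ᵥ x ≤ ∑ _i : Fin n, ‖x‖ ^ 2 := by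
    apply Finset.sum_le_sum
    intro i _
    have := norm_le_pi_norm x i
    rw [Real.norm_eq_abs] at this
    rw [← sq, ← sq_abs]
    exact pow_le_pow_left₀ (abs_nonneg _) this 2
  rw [Finset.sum_const, Finset.card_univ, Fintype.card_fin, nsmul_eq_mul] at h1
  have h2 : (n : ℝ) ≤ (n : ℝ) ^ 2 := by exact_mod_cast Nat.le_self_pow two_ne_zero n
  have h3 : 0 ≤ ‖x‖ ^ 2 := by positivity
  rw [mul_pow]
  nlinarith

theorem continuous_nrm : Continuous (nrm : E n → ℝ) :=
  Real.continuous_sqrt.comp contDiff_dot.continuous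

theorem sm_nrm : Sm {x : E n | x ≠ 0} nrm :=
  contDiff_dot.contDiffOn.sqrt fun x hx => by
    rw [← nrm_sq]
    exact pow_ne_zero 2 (nrm_pos hx).ne'

theorem pd_nrm {x : E n} (hx : x ≠ 0) (i : Fin n) : pd i nrm x = x i / nrm x := by
  have hp := nrm_pos hx
  have h0 : x ⬝ᵥ x ≠ 0 := by
    rw [← nrm_sq]
    exact pow_ne_zero 2 hp.ne'
  have h := pd_comp_real (f := fun y : E n => y ⬝ᵥ y) (β := Real.sqrt)
    (contDiff_dot.differentiable (by simp) x) (Real.hasDerivAt_sqrt h0) i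
  rw [pd_dot] at h
  have e : (nrm : E n → ℝ) = fun y => √(y ⬝ᵥ y) := rfl
  have e' : √(x ⬝ᵥ x) = nrm x := rfl
  rw [e'] at h
  rw [e, h]
  change 1 / (2 * nrm x) * (2 * x i) = x i / nrm x
  field_simp

theorem sm_log_nrm : Sm {x : E n | x ≠ 0} (fun x => Real.log (nrm x)) :=
  sm_nrm.log fun _ hx => (nrm_pos hx).ne'

theorem pd_log_nrm {x : E n} (hx : x ≠ 0) (i : Fin n) :
    pd i (fun y => Real.log (nrm y)) x = x i / nrm x ^ 2 := by
  have hp := nrm_pos hx
  rw [pd_comp_real (sm_da isOpen_ne sm_nrm hx) (Real.hasDerivAt_log hp.ne') i, pd_nrm hx]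
  field_simp

theorem isCompact_nrm_le (R : ℝ) : IsCompact {x : E n | nrm x ≤ R} :=
  (isCompact_closedBall (0 : E n) R).of_isClosed_subset (isClosed_le continuous_nrm continuous_const)
    fun x hx => mem_closedBall_zero_iff.mpr ((norm_le_nrm x).trans hx)

theorem isBounded_iff_nrm {A : Set (E n)} :
    Bornology.IsBounded A ↔ ∃ R, ∀ x ∈ A, nrm x ≤ R := by
  constructor
  · intro h
    obtain ⟨C, hC⟩ := isBounded_iff_forall_norm_le.mp h
    exact ⟨n * C, fun x hx => (nrm_le_norm x).trans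
      (mul_le_mul_of_nonneg_left (hC x hx) (Nat.cast_nonneg n))⟩
  · rintro ⟨R, hR⟩
    exact (isCompact_nrm_le R).isBounded.subset hR

theorem volume_nrm_eq (R : ℝ) : volume {x : E (n + 1) | nrm x = R} = 0 := by
  have e : {x : E (n + 1) | nrm x = R} =
      (WithLp.toLp 2) ⁻¹' Metric.sphere (0 : EuclideanSpace ℝ (Fin (n + 1))) R := by
    ext x
    simp [nrm_eq]
  rw [e, (PiLp.volume_preserving_toLp (Fin (n + 1))).measure_preimage
    Metric.isClosed_sphere.measurableSet.nullMeasurableSet]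
  exact Measure.addHaar_sphere _ _ _

theorem isOpen_Ext (r : ℝ) : IsOpen (Ext r : Set (E n)) :=
  isOpen_lt continuous_const continuous_nrm

theorem isOpen_Sh (a b : ℝ) : IsOpen (Sh a b) :=
  (isOpen_lt continuous_const continuous_nrm).inter (isOpen_lt continuous_nrm continuous_const)

theorem isCompact_Shc (a b : ℝ) : IsCompact (Shc a b) :=
  (isCompact_nrm_le (Real.exp b)).of_isClosed_subset
    ((isClosed_le continuous_const continuous_nrm).inter (isClosed_le continuous_nrm continuous_const))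
    fun _ hx => hx.2

theorem ne_zero_of_mem_Sh {a b : ℝ} {x : E 3} (hx : x ∈ Sh a b) : x ≠ 0 :=
  ne_zero_of_nrm_pos ((Real.exp_pos a).trans hx.1)

theorem ne_zero_of_mem_Shc {a b : ℝ} {x : E 3} (hx : x ∈ Shc a b) : x ≠ 0 :=
  ne_zero_of_nrm_pos ((Real.exp_pos a).trans_le hx.1)

theorem mem_Sh_iff {a b : ℝ} {x : E 3} :
    x ∈ Sh a b ↔ x ≠ 0 ∧ a < Real.log (nrm x) ∧ Real.log (nrm x) < b := by
  constructor
  · intro hx
    have h0 := ne_zero_of_mem_Sh hx
    have hp := nrm_pos h0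
    exact ⟨h0, (Real.lt_log_iff_exp_lt hp).mpr hx.1, (Real.log_lt_iff_lt_exp hp).mpr hx.2⟩
  · rintro ⟨h0, h1, h2⟩
    have hp := nrm_pos h0
    exact ⟨(Real.lt_log_iff_exp_lt hp).mp h1, (Real.log_lt_iff_lt_exp hp).mp h2⟩

theorem mem_Shc_iff {a b : ℝ} {x : E 3} :
    x ∈ Shc a b ↔ x ≠ 0 ∧ a ≤ Real.log (nrm x) ∧ Real.log (nrm x) ≤ b := by
  constructor
  · intro hx
    have h0 := ne_zero_of_mem_Shc hx
    have hp := nrm_pos h0
    exact ⟨h0, (Real.le_log_iff_exp_le hp).mpr hx.1, (Real.log_le_iff_le_exp hp).mpr hx.2⟩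
  · rintro ⟨h0, h1, h2⟩
    have hp := nrm_pos h0
    exact ⟨(Real.le_log_iff_exp_le hp).mp h1, (Real.log_le_iff_le_exp hp).mp h2⟩

theorem mem_sph_iff {x : E 3} : x ∈ sph ↔ nrm x = 1 := by
  unfold nrm
  rw [Real.sqrt_eq_one]
  rfl

theorem isCompact_sph : IsCompact sph :=
  (isCompact_nrm_le 1).of_isClosed_subset (isClosed_eq contDiff_dot.continuous continuous_const)
    fun _ hx => (mem_sph_iff.mp hx).le

theorem isConnected_sph : IsConnected sph := by
  have e : sph = WithLp.ofLp '' Metric.sphere (0 : EuclideanSpace ℝ (Fin 3)) 1 := by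
    ext x
    rw [mem_sph_iff, nrm_eq]
    constructor
    · intro h
      exact ⟨WithLp.toLp 2 x, by simpa using h, rfl⟩
    · rintro ⟨y, hy, rfl⟩
      simpa using hy
  have hr : 1 < Module.rank ℝ (EuclideanSpace ℝ (Fin 3)) := by
    rw [← Module.finrank_eq_rank, finrank_euclideanSpace_fin]
    norm_num
  rw [e]
  exact (isConnected_sphere hr 0 zero_le_one).image _ (PiLp.continuous_ofLp 2 _).continuousOn

/-- Shells around the origin are connected. -/
theorem isConnected_shell {I : Set ℝ} (hI : IsConnected I) (h0 : ∀ t ∈ I, 0 < t) :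
    IsConnected {x : E 3 | nrm x ∈ I} := by
  have e : {x : E 3 | nrm x ∈ I} = (fun p : ℝ × E 3 => p.1 • p.2) '' (I ×ˢ sph) := by
    ext x
    constructor
    · intro hx
      have hp := h0 _ hx
      refine ⟨(nrm x, (nrm x)⁻¹ • x), ⟨hx, mem_sph_iff.mpr ?_⟩, ?_⟩
      · rw [nrm_smul, abs_of_pos (inv_pos.mpr hp), inv_mul_cancel₀ hp.ne']
      · simp only [smul_smul, mul_inv_cancel₀ hp.ne', one_smul]
    · rintro ⟨⟨t, p⟩, ⟨ht, hp⟩, rfl⟩
      have : nrm (t • p) = t := by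
        rw [nrm_smul, mem_sph_iff.mp hp, mul_one, abs_of_pos (h0 t ht)]
      simpa only [mem_ofPred_eq, this] using ht
  rw [e]
  exact (hI.prod isConnected_sph).image _ (continuous_fst.smul continuous_snd).continuousOn

theorem stp_sm : ContDiff ℝ ∞ stp :=
  Real.smoothTransition.contDiff.comp (contDiff_id.sub contDiff_const)

theorem stp_mem (t : ℝ) : 0 ≤ stp t ∧ stp t ≤ 1 :=
  ⟨Real.smoothTransition.nonneg _, Real.smoothTransition.le_one _⟩

theorem stp_zero {t : ℝ} (h : t ≤ 1) : stp t = 0 :=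
  Real.smoothTransition.zero_of_nonpos (by linarith)

theorem stp_one {t : ℝ} (h : 2 ≤ t) : stp t = 1 :=
  Real.smoothTransition.one_of_one_le (by linarith)

theorem stp_deriv_nonneg (t : ℝ) : 0 ≤ deriv stp t :=
  Monotone.deriv_nonneg (g := stp) fun _ _ h =>
    Real.smoothTransition.monotone (sub_le_sub_right h 1)

theorem stp_deriv_zero {t : ℝ} (h : t < 1 ∨ 2 < t) : deriv stp t = 0 ∧ deriv (deriv stp) t = 0 := by
  obtain ⟨c, hc⟩ : ∃ c : ℝ, stp =ᶠ[𝓝 t] fun _ => c := by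
    rcases h with h | h
    · exact ⟨0, (eventually_lt_nhds h).mono fun s hs => stp_zero hs.le⟩
    · exact ⟨1, (eventually_gt_nhds h).mono fun s hs => stp_one hs.le⟩
  have h1 : deriv stp =ᶠ[𝓝 t] fun _ => 0 := by
    have := hc.deriv
    simpa using this
  refine ⟨h1.self_of_nhds, ?_⟩
  rw [h1.deriv_eq]
  simp

theorem stp_deriv_bdd : ∃ C : ℝ, 0 < C ∧ ∀ t, |deriv stp t| ≤ C ∧ |deriv (deriv stp) t| ≤ C := by
  have d1 : ContDiff ℝ ∞ (deriv stp) := (contDiff_infty_iff_deriv.mp stp_sm).2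
  have d2 : ContDiff ℝ ∞ (deriv (deriv stp)) := (contDiff_infty_iff_deriv.mp d1).2
  obtain ⟨C1, h1⟩ := (isCompact_Icc (a := (1 : ℝ)) (b := 2)).exists_bound_of_continuousOn
    d1.continuous.continuousOn
  obtain ⟨C2, h2⟩ := (isCompact_Icc (a := (1 : ℝ)) (b := 2)).exists_bound_of_continuousOn
    d2.continuous.continuousOn
  refine ⟨|C1| + |C2| + 1, by positivity, fun t => ?_⟩
  have a1 := le_abs_self C1
  have a2 := le_abs_self C2
  have b1 := abs_nonneg C1
  have b2 := abs_nonneg C2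
  by_cases ht : t ∈ Icc (1 : ℝ) 2
  · have c1 := h1 t ht
    have c2 := h2 t ht
    rw [Real.norm_eq_abs] at c1 c2
    constructor <;> linarith
  · have : t < 1 ∨ 2 < t := by
      by_contra hh
      push Not at hh
      exact ht ⟨hh.1, hh.2⟩
    obtain ⟨e1, e2⟩ := stp_deriv_zero this
    rw [e1, e2, abs_zero]
    constructor <;> linarith

end Pool.Agent.P.MP_56a1cd_gt
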