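import Pool.Agent.P.MP_56a1cd_gt.InvB

namespace Pool.Agent.P.MP_56a1cd_gt

open MeasureTheory Matrix Set Filter Topology
open scoped ContDiff ENNReal

variable {m n : ℕ}

/-! PLAN. For `x ≠ 0` let `Q = x xᵀ / |x|²` (a projection). Then
`cyl φ N x = |x|⁻² (N² Q + exp (2φ) (1 - Q))`, with inverse `|x|² (N⁻² Q + exp (-2φ) (1 - Q))`
(`Matrix.inv_eq_right_inv`) and determinant `|x|⁻⁶ N² exp (4φ)` (`Matrix.det_fin_three` with
`nrm_sq`, or `Matrix.det_one_add_replicateCol_mul_replicateRow`). `tg φ f h` is `exp (-2φ) |x|²` times the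
inner product of the projections of the gradients orthogonal to `x`. `tg_eq_zero`: for `v ⬝ x = 0`
differentiate `f` along the curve `t ↦ (|x| / |x + t v|) • (x + t v)`. Homogeneity of `Kf`, `L0`: the
dilation `x ↦ t • x` is a chart on `{x ≠ 0}` with `pull = cyl` (`scal_pull`, `lap_pull`, `scal_congr`,
`lap_congr`). -/

section
variable {φ N f h ξ : E 3 → ℝ} {x : E 3} {W : Set (E 3)}

theorem isOpen_ne_zero : IsOpen {x : E n | x ≠ 0} := isOpen_ne

theorem Hom0.const (c : ℝ) : Hom0 (fun _ => c) := ⟨contDiffOn_const, fun _ _ _ => rfl⟩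

theorem Hom0.add (hf : Hom0 f) (hh : Hom0 h) : Hom0 (fun x => f x + h x) :=
  ⟨hf.sm.add hh.sm, fun x t ht => by simp only [hf.hom x t ht, hh.hom x t ht]⟩

theorem Hom0.sub (hf : Hom0 f) (hh : Hom0 h) : Hom0 (fun x => f x - h x) :=
  ⟨hf.sm.sub hh.sm, fun x t ht => by simp only [hf.hom x t ht, hh.hom x t ht]⟩

theorem Hom0.mul (hf : Hom0 f) (hh : Hom0 h) : Hom0 (fun x => f x * h x) :=
  ⟨hf.sm.mul hh.sm, fun x t ht => by simp only [hf.hom x t ht, hh.hom x t ht]⟩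

private theorem ne_zero_of_sph {p : E 3} (hp : p ∈ sph) : p ≠ 0 := by
  apply ne_zero_of_nrm_pos
  rw [mem_sph_iff.1 hp]
  exact one_pos

theorem Hom0.continuousOn (hf : Hom0 f) : ContinuousOn f sph :=
  hf.sm.continuousOn.mono fun _ hp => ne_zero_of_sph hp

theorem Hom0.eq_sph (hf : Hom0 f) (hx : x ≠ 0) : (nrm x)⁻¹ • x ∈ sph ∧ f x = f ((nrm x)⁻¹ • x) := by
  have h := nrm_pos hx
  refine ⟨?_, (hf.hom x _ (inv_pos.2 h)).symm⟩
  rw [mem_sph_iff, nrm_smul, abs_of_pos (inv_pos.2 h), inv_mul_cancel₀ h.ne']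

theorem Hom0.bdd (hf : Hom0 f) : ∃ C, 0 ≤ C ∧ ∀ x, x ≠ 0 → |f x| ≤ C := by
  obtain ⟨C, hC⟩ := isCompact_sph.exists_bound_of_continuousOn hf.continuousOn
  refine ⟨max C 0, le_max_right _ _, fun x hx => ?_⟩
  obtain ⟨h1, h2⟩ := hf.eq_sph hx
  rw [h2]
  exact le_trans (hC _ h1) (le_max_left _ _)

theorem Hom0.exists_pos (hf : Hom0 f) (h0 : ∀ x, x ≠ 0 → 0 < f x) :
    ∃ c, 0 < c ∧ ∀ x, x ≠ 0 → c ≤ f x := by
  obtain ⟨p, hp, hm⟩ := isCompact_sph.exists_isMinOn isConnected_sph.nonempty hf.continuousOn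
  refine ⟨f p, h0 p (ne_zero_of_sph hp), fun x hx => ?_⟩
  obtain ⟨h1, h2⟩ := hf.eq_sph hx
  rw [h2]
  exact hm h1

private theorem rad_zero_aux (hf : Hom0 f) (hx : x ≠ 0) : fderiv ℝ f x x = 0 := by
  have hd : DifferentiableAt ℝ f x := sm_da isOpen_ne_zero hf.sm hx
  have h1 : HasDerivAt (fun t : ℝ => t • x) ((1 : ℝ) • x) 1 := (hasDerivAt_id (1 : ℝ)).smul_const x
  have hd' : HasFDerivAt f (fderiv ℝ f x) ((fun t : ℝ => t • x) 1) := by
    simpa using hd.hasFDerivAt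
  have h2 := hd'.comp_hasDerivAt (1 : ℝ) h1
  have h3 : HasDerivAt (f ∘ fun t : ℝ => t • x) 0 1 := by
    apply (hasDerivAt_const (1 : ℝ) (f x)).congr_of_eventuallyEq
    filter_upwards [Ioi_mem_nhds (zero_lt_one' ℝ)] with t ht
    exact hf.hom x t ht
  have := h2.unique h3
  simpa using this

theorem Hom0.rad (hf : Hom0 f) (hx : x ≠ 0) : rad f x = 0 := rad_zero_aux hf hx

theorem nrm_exp_smul (s : ℝ) {p : E 3} (hp : p ∈ sph) : nrm (Real.exp s • p) = Real.exp s := by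
  rw [nrm_smul, mem_sph_iff.1 hp, abs_of_pos (Real.exp_pos s), mul_one]

theorem hasDerivAt_ray {p : E 3} {s : ℝ} (hf : DifferentiableAt ℝ f (Real.exp s • p)) :
    HasDerivAt (fun t => f (Real.exp t • p)) (rad f (Real.exp s • p)) s :=
  hf.hasFDerivAt.comp_hasDerivAt s ((Real.hasDerivAt_exp s).smul_const p)

theorem sm_rad (hW : IsOpen W) (hf : Sm W f) : Sm W (rad f) := by
  have e : rad f = fun x => ∑ i, x i * pd i f x := funext (rad_eq f)
  rw [e]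
  exact ContDiffOn.sum fun i _ => (sm_coord W i).mul (sm_pd hW hf i)

private theorem quad_aux (φ N : E 3 → ℝ) (x v w : E 3) :
    v ⬝ᵥ cyl φ N x *ᵥ w = N x ^ 2 * ((v ⬝ᵥ x) * (w ⬝ᵥ x)) / nrm x ^ 4 +
      Real.exp (2 * φ x) * ((v ⬝ᵥ w) / nrm x ^ 2 - (v ⬝ᵥ x) * (w ⬝ᵥ x) / nrm x ^ 4) := by
  simp [cyl, dotProduct, mulVec, Fin.sum_univ_three]
  ring

private theorem sm_exp_two {c : ℝ} (hφ : Sm W φ) : Sm W (fun x => Real.exp (c * φ x)) :=
  (contDiffOn_const.mul hφ).exp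

private theorem posDef_aux (hx : x ≠ 0) (hN : 0 < N x) : (cyl φ N x).PosDef := by
  apply Matrix.PosDef.of_dotProduct_mulVec_pos
  · ext i j
    simp only [cyl, conjTranspose_apply, of_apply, star_trivial, eq_comm (a := j) (b := i)]
    ring
  · intro v hv
    have hr := nrm_pos hx
    have hv' := nrm_pos hv
    have he := Real.exp_pos (2 * φ x)
    rw [star_trivial, quad_aux]
    have hcs : (v ⬝ᵥ x) * (v ⬝ᵥ x) ≤ (v ⬝ᵥ v) * nrm x ^ 2 := by
      have h1 := abs_dot_le v x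
      have h2 : |v ⬝ᵥ x| ^ 2 ≤ (nrm v * nrm x) ^ 2 := pow_le_pow_left₀ (abs_nonneg _) h1 2
      rw [sq_abs, mul_pow, nrm_sq v] at h2
      nlinarith
    have e : (v ⬝ᵥ v) / nrm x ^ 2 - (v ⬝ᵥ x) * (v ⬝ᵥ x) / nrm x ^ 4 =
        ((v ⬝ᵥ v) * nrm x ^ 2 - (v ⬝ᵥ x) * (v ⬝ᵥ x)) / nrm x ^ 4 := by
      field_simp
    rw [e]
    by_cases h0 : v ⬝ᵥ x = 0
    · rw [h0, ← nrm_sq v]
      simp only [mul_zero, zero_div, zero_add, sub_zero]
      positivity
    · have h1 : 0 < (v ⬝ᵥ x) * (v ⬝ᵥ x) := mul_self_pos.2 h0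
      have h2 : 0 ≤ ((v ⬝ᵥ v) * nrm x ^ 2 - (v ⬝ᵥ x) * (v ⬝ᵥ x)) / nrm x ^ 4 :=
        div_nonneg (sub_nonneg.2 hcs) (by positivity)
      have h3 : 0 < N x ^ 2 * ((v ⬝ᵥ x) * (v ⬝ᵥ x)) / nrm x ^ 4 := by positivity
      have h4 := mul_nonneg he.le h2
      linarith

theorem isMet_cyl (hφ : Hom0 φ) (hW : IsOpen W) (h0 : ∀ x ∈ W, x ≠ 0) (hN : Sm W N)
    (hN0 : ∀ x ∈ W, 0 < N x) : IsMet (cyl φ N) W := by
  refine ⟨hW, fun i j => ?_, fun x hx => posDef_aux (h0 x hx) (hN0 x hx)⟩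
  have hn : Sm W nrm := sm_nrm.mono h0
  have hp : Sm W φ := hφ.sm.mono h0
  have hk : ∀ k : ℕ, ∀ x ∈ W, nrm x ^ k ≠ 0 := fun k x hx => (pow_pos (nrm_pos (h0 x hx)) k).ne'
  have hij : Sm W (fun x => x i * x j) := (sm_coord W i).mul (sm_coord W j)
  exact (((hN.pow 2).mul hij).div (hn.pow 4) (hk 4)).add ((sm_exp_two hp).mul
    ((contDiffOn_const.div (hn.pow 2) (hk 2)).sub (hij.div (hn.pow 4) (hk 4))))

theorem cyl_congr {N' : E 3 → ℝ} (e : N x = N' x) : cyl φ N x = cyl φ N' x := by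
  simp only [cyl, e]

theorem cyl_quad (φ N : E 3 → ℝ) (hx : x ≠ 0) (v w : E 3) :
    v ⬝ᵥ cyl φ N x *ᵥ w = N x ^ 2 * ((v ⬝ᵥ x) * (w ⬝ᵥ x)) / nrm x ^ 4 +
      Real.exp (2 * φ x) * ((v ⬝ᵥ w) / nrm x ^ 2 - (v ⬝ᵥ x) * (w ⬝ᵥ x) / nrm x ^ 4) :=
  (fun _ => quad_aux φ N x v w) hx

theorem cyl_smul (hφ : Hom0 φ) (hN : Hom0 N) (hx : x ≠ 0) {t : ℝ} (ht : 0 < t) :
    t ^ 2 • cyl φ N (t • x) = cyl φ N x := by
  have hr := (nrm_pos hx).ne'
  have ht' := ht.ne'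
  ext i j
  simp only [cyl, Matrix.smul_apply, of_apply, hφ.hom x t ht, hN.hom x t ht, nrm_smul, abs_of_pos ht,
    Pi.smul_apply, smul_eq_mul]
  field_simp

private theorem nrm_sq_three (x : E 3) : nrm x ^ 2 = x 0 ^ 2 + x 1 ^ 2 + x 2 ^ 2 := by
  rw [nrm_sq]
  simp only [dotProduct, Fin.sum_univ_three]
  ring

private theorem cyl_entry (φ N : E 3 → ℝ) (x : E 3) (i j : Fin 3) :
    cyl φ N x i j = (if i = j then Real.exp (2 * φ x) / nrm x ^ 2 else 0) +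
      (N x ^ 2 - Real.exp (2 * φ x)) / nrm x ^ 4 * (x i * x j) := by
  simp only [cyl, of_apply]
  split_ifs <;> ring

private theorem det_aux (a b : ℝ) (x : E 3) (A : Matrix (Fin 3) (Fin 3) ℝ)
    (hA : ∀ i j, A i j = (if i = j then b else 0) + a * (x i * x j)) :
    A.det = b ^ 2 * (b + a * (x 0 ^ 2 + x 1 ^ 2 + x 2 ^ 2)) := by
  rw [Matrix.det_fin_three]
  simp only [hA]
  simp
  ring

private theorem inv_aux (a b c d : ℝ) (x : E 3) (A : Matrix (Fin 3) (Fin 3) ℝ)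
    (hA : ∀ i j, A i j = (if i = j then b else 0) + a * (x i * x j)) (h1 : b * d = 1)
    (h2 : b * c + a * d + a * c * (x 0 ^ 2 + x 1 ^ 2 + x 2 ^ 2) = 0) (i j : Fin 3) :
    A⁻¹ i j = (if i = j then d else 0) + c * (x i * x j) := by
  have : A⁻¹ = Matrix.of fun i j => (if i = j then d else 0) + c * (x i * x j) := by
    apply Matrix.inv_eq_right_inv
    ext k l
    simp only [Matrix.mul_apply, hA, of_apply, Fin.sum_univ_three, Matrix.one_apply]
    fin_cases k <;> fin_cases l <;> simp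
    · linear_combination h1 + x 0 * x 0 * h2
    · linear_combination x 0 * x 1 * h2
    · linear_combination x 0 * x 2 * h2
    · linear_combination x 1 * x 0 * h2
    · linear_combination h1 + x 1 * x 1 * h2
    · linear_combination x 1 * x 2 * h2
    · linear_combination x 2 * x 0 * h2
    · linear_combination x 2 * x 1 * h2
    · linear_combination h1 + x 2 * x 2 * h2
  rw [this, of_apply]

private theorem exp_neg_two (u : ℝ) : Real.exp (-2 * u) = (Real.exp (2 * u))⁻¹ := by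
  rw [← Real.exp_neg]
  congr 1
  ring

private theorem inv_cyl (hx : x ≠ 0) (hN : 0 < N x) (i j : Fin 3) :
    (cyl φ N x)⁻¹ i j = (if i = j then Real.exp (-2 * φ x) * nrm x ^ 2 else 0) +
      (1 / N x ^ 2 - Real.exp (-2 * φ x)) * (x i * x j) := by
  have hr := (nrm_pos hx).ne'
  have he := (Real.exp_pos (2 * φ x)).ne'
  have hN' := hN.ne'
  apply inv_aux _ _ _ _ x _ (cyl_entry φ N x)
  · rw [exp_neg_two]
    field_simp
  · rw [← nrm_sq_three, exp_neg_two]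
    field_simp
    ring

theorem vol_cyl (hx : x ≠ 0) (hN : 0 < N x) :
    vol (cyl φ N) x = N x * (Real.exp (2 * φ x) / nrm x ^ 3) := by
  have hr := nrm_pos hx
  have he := Real.exp_pos (2 * φ x)
  have hr' := hr.ne'
  have e : (cyl φ N x).det = (N x * (Real.exp (2 * φ x) / nrm x ^ 3)) ^ 2 := by
    rw [det_aux _ _ x _ (cyl_entry φ N x), ← nrm_sq_three]
    field_simp
    ring
  rw [vol, e, Real.sqrt_sq (by positivity)]

theorem gam_cyl (hx : x ≠ 0) (hN : 0 < N x) (f h : E 3 → ℝ) :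
    gam (cyl φ N) f h x = rad f x * rad h x / N x ^ 2 + tg φ f h x := by
  simp only [gam, tg, inv_cyl hx hN, rad_eq, Fin.sum_univ_three]
  simp
  ring

theorem dot_gr_cyl (hx : x ≠ 0) (hN : 0 < N x) (h : E 3 → ℝ) :
    ∑ i, x i * gr (cyl φ N) h i x = nrm x ^ 2 * rad h x / N x ^ 2 := by
  simp only [gr, inv_cyl hx hN, rad_eq, Fin.sum_univ_three, nrm_sq_three]
  simp
  ring

theorem tg_nonneg (φ f : E 3 → ℝ) (x : E 3) : 0 ≤ tg φ f f x := by
  apply mul_nonneg (Real.exp_pos _).le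
  simp only [rad_eq, Fin.sum_univ_three, nrm_sq_three]
  nlinarith [sq_nonneg (x 0 * pd 1 f x - x 1 * pd 0 f x), sq_nonneg (x 0 * pd 2 f x - x 2 * pd 0 f x),
    sq_nonneg (x 1 * pd 2 f x - x 2 * pd 1 f x)]

private theorem tangent_aux (hx : x ≠ 0) (hf : DifferentiableAt ℝ f x)
    (hc : ∀ᶠ y in 𝓝 x, nrm y = nrm x → f y = f x) {v : E 3} (hv : x ⬝ᵥ v = 0) :
    fderiv ℝ f x v = 0 := by
  have hr := nrm_pos hx
  have hxx : 0 < x ⬝ᵥ x := by rw [← nrm_sq]; positivity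
  have hvv : 0 ≤ v ⬝ᵥ v := by rw [← nrm_sq]; positivity
  obtain ⟨s, hs⟩ : ∃ s : ℝ, s = (v ⬝ᵥ v) / (x ⬝ᵥ x) := ⟨_, rfl⟩
  have hs0 : 0 ≤ s := hs ▸ div_nonneg hvv hxx.le
  have hsv : v ⬝ᵥ v = s * (x ⬝ᵥ x) := by rw [hs]; field_simp
  have hD : ∀ t : ℝ, 1 + s * t ^ 2 ≠ 0 := fun t => by positivity
  have hq : HasDerivAt (fun t : ℝ => s * t ^ 2) 0 0 := by
    have := (hasDerivAt_pow 2 (0 : ℝ)).const_mul s
    exact this.congr_deriv (by simp)
  have hα : HasDerivAt (fun t : ℝ => (1 - s * t ^ 2) / (1 + s * t ^ 2)) 0 0 := by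
    have := (hq.const_sub 1).div (hq.const_add 1) (hD 0)
    exact this.congr_deriv (by simp)
  have hβ : HasDerivAt (fun t : ℝ => 2 * t / (1 + s * t ^ 2)) 2 0 := by
    have := ((hasDerivAt_id (0 : ℝ)).const_mul 2).div (hq.const_add 1) (hD 0)
    exact this.congr_deriv (by simp)
  obtain ⟨c, hcdef⟩ : ∃ c : ℝ → E 3, c = fun t : ℝ =>
      ((1 - s * t ^ 2) / (1 + s * t ^ 2)) • x + (2 * t / (1 + s * t ^ 2)) • v := ⟨_, rfl⟩
  have hc0 : c 0 = x := by simp [hcdef]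
  have hcd : HasDerivAt c ((2 : ℝ) • v) 0 := by
    have := (hα.smul_const x).add (hβ.smul_const v)
    rw [hcdef]
    exact this.congr_deriv (by simp)
  have hcn : ∀ t, nrm (c t) = nrm x := by
    intro t
    have hv' : v ⬝ᵥ x = 0 := by rw [dotProduct_comm, hv]
    have hDt := hD t
    unfold nrm
    congr 1
    simp only [hcdef, add_dotProduct, dotProduct_add, smul_dotProduct, dotProduct_smul, hv, hv',
      hsv, smul_eq_mul]
    field_simp
    ring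
  have hf' : HasFDerivAt f (fderiv ℝ f x) (c 0) := hc0 ▸ hf.hasFDerivAt
  have h2 := hf'.comp_hasDerivAt (0 : ℝ) hcd
  have ht : Tendsto c (𝓝 0) (𝓝 x) := hc0 ▸ hcd.continuousAt.tendsto
  have h3 : HasDerivAt (f ∘ c) 0 0 := by
    apply (hasDerivAt_const (0 : ℝ) (f x)).congr_of_eventuallyEq
    filter_upwards [ht.eventually hc] with t h
    exact h (hcn t)
  have h4 := h2.unique h3
  rw [map_smul, smul_eq_mul] at h4
  linarith

theorem tg_eq_zero (φ : E 3 → ℝ) (hx : x ≠ 0) (hf : DifferentiableAt ℝ f x)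
    (hc : ∀ᶠ y in 𝓝 x, nrm y = nrm x → f y = f x) : tg φ f f x = 0 := by
  have hv : x ⬝ᵥ (fun i => nrm x ^ 2 * pd i f x - rad f x * x i) = 0 := by
    simp only [dotProduct, rad_eq, Fin.sum_univ_three, nrm_sq_three]
    ring
  have h := tangent_aux hx hf hc hv
  rw [fderiv_eq_sum] at h
  unfold tg
  apply mul_eq_zero_of_right
  simp only [rad_eq, Fin.sum_univ_three] at h ⊢
  linear_combination h

private theorem fderiv_hom (hf : Hom0 f) (x : E 3) {t : ℝ} (ht : 0 < t) (v : E 3) :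
    fderiv ℝ f x v = t * fderiv ℝ f (t • x) v := by
  have e : (fun y => f (t • y)) = f := funext fun y => hf.hom y t ht
  have h := fderiv_comp_smul (𝕜 := ℝ) (f := f) (x := x) t
  rw [e] at h
  rw [h, _root_.smul_apply, smul_eq_mul]

private theorem tg_aux (hφ : Hom0 φ) (hf : Hom0 f) (hh : Hom0 h) : Hom0 (tg φ f h) := by
  constructor
  · have ho : IsOpen {x : E 3 | x ≠ 0} := isOpen_ne_zero
    exact (sm_exp_two hφ.sm).mul (((sm_nrm.pow 2).mul (ContDiffOn.sum fun i _ =>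
      (sm_pd ho hf.sm i).mul (sm_pd ho hh.sm i))).sub ((sm_rad ho hf.sm).mul (sm_rad ho hh.sm)))
  · intro x t ht
    have e1 : ∀ i, pd i f x = t * pd i f (t • x) := fun i => fderiv_hom hf x ht _
    have e2 : ∀ i, pd i h x = t * pd i h (t • x) := fun i => fderiv_hom hh x ht _
    simp only [tg, rad_eq, e1, e2, hφ.hom x t ht, nrm_smul, abs_of_pos ht, Fin.sum_univ_three,
      Pi.smul_apply, smul_eq_mul]
    ring

private theorem jac_dil (t : ℝ) (y : E 3) :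
    jac (fun z : E 3 => t • z) y = t • (1 : Matrix (Fin 3) (Fin 3) ℝ) := by
  ext i j
  simp only [jac, of_apply, Pi.smul_apply, smul_eq_mul, pd_const_mul, pd_coord,
    Matrix.smul_apply, Matrix.one_apply, eq_comm (a := j) (b := i)]

private theorem chart_dil {t : ℝ} (ht : 0 < t) :
    IsChart (fun z : E 3 => t • z) {x | x ≠ 0} := by
  refine ⟨isOpen_ne_zero, (contDiff_id.const_smul t).contDiffOn, ?_, fun y _ => ?_⟩
  · intro a _ b _ hab
    exact smul_right_injective _ ht.ne' hab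
  · rw [jac_dil, Matrix.det_smul, Matrix.det_one]
    positivity

private theorem maps_dil {t : ℝ} (ht : 0 < t) :
    MapsTo (fun z : E 3 => t • z) {x | x ≠ 0} {x | x ≠ 0} :=
  fun _ hy => smul_ne_zero ht.ne' hy

private theorem pull_dil (hφ : Hom0 φ) (hx : x ≠ 0) {t : ℝ} (ht : 0 < t) :
    pull (fun z : E 3 => t • z) (cyl φ fun _ => 1) =ᶠ[𝓝 x] cyl φ fun _ => 1 := by
  filter_upwards [isOpen_ne_zero.mem_nhds hx] with y hy
  rw [← cyl_smul hφ (Hom0.const 1) hy ht, pull, jac_dil]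
  simp only [transpose_smul, transpose_one, Matrix.smul_mul, Matrix.mul_smul, Matrix.one_mul,
    Matrix.mul_one, smul_smul, sq]

private theorem met_one (hφ : Hom0 φ) : IsMet (cyl φ fun _ => 1) {x | x ≠ 0} :=
  isMet_cyl hφ isOpen_ne_zero (fun _ h => h) contDiffOn_const fun _ _ => one_pos

private theorem Kf_aux (hφ : Hom0 φ) : Hom0 (Kf φ) := by
  refine ⟨(met_one hφ).sm_scal.div_const 2, fun x t ht => ?_⟩
  by_cases hx : x = 0
  · rw [hx, smul_zero]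
  · unfold Kf
    rw [← scal_congr (pull_dil hφ hx ht), scal_pull (met_one hφ) (chart_dil ht) (maps_dil ht) hx]

private theorem L0_aux (hφ : Hom0 φ) (hξ : Hom0 ξ) : Hom0 (L0 φ ξ) := by
  refine ⟨(met_one hφ).sm_lap hξ.sm, fun x t ht => ?_⟩
  by_cases hx : x = 0
  · rw [hx, smul_zero]
  · unfold L0
    have e : (fun z => ξ (t • z)) =ᶠ[𝓝 x] ξ := Eventually.of_forall fun y => hξ.hom y t ht
    rw [← lap_congr (pull_dil hφ hx ht) e,
      lap_pull (met_one hφ) (chart_dil ht) (maps_dil ht) hξ.sm hx]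

theorem Hom0.tg (hφ : Hom0 φ) (hf : Hom0 f) (hh : Hom0 h) : Hom0 (tg φ f h) := tg_aux hφ hf hh

theorem Hom0.Kf (hφ : Hom0 φ) : Hom0 (Kf φ) := Kf_aux hφ

theorem Hom0.L0 (hφ : Hom0 φ) (hξ : Hom0 ξ) : Hom0 (L0 φ ξ) := L0_aux hφ hξ

theorem isMet_lapse (hφ : Hom0 φ) (hξ : Hom0 ξ) (hξ0 : ∀ x, x ≠ 0 → 0 < ξ x) {b : ℝ → ℝ}
    (hb : ContDiff ℝ ∞ b) (hb0 : ∀ t, 0 ≤ b t ∧ b t ≤ 1) {L : ℝ} (hL : 0 < L) :
    Sm {x | x ≠ 0} (lapse b L ξ) ∧ (∀ x, x ≠ 0 → 0 < lapse b L ξ x) ∧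
      IsMet (cyl φ (lapse b L ξ)) {x | x ≠ 0} := by
  have hbl : Sm {x : E 3 | x ≠ 0} (fun x => b (Real.log (nrm x))) :=
    hb.comp_contDiffOn sm_log_nrm
  have h1 : Sm {x | x ≠ 0} (lapse b L ξ) :=
    (contDiffOn_const.sub hbl).add ((hbl.mul contDiffOn_const).mul hξ.sm)
  have h2 : ∀ x, x ≠ 0 → 0 < lapse b L ξ x := by
    intro x hx
    obtain ⟨ha, hb⟩ := hb0 (Real.log (nrm x))
    have hp := hξ0 x hx
    unfold lapse
    rcases ha.eq_or_lt with h | h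
    · rw [← h]
      simp
    · have : 0 < b (Real.log (nrm x)) * L * ξ x := by positivity
      linarith
  exact ⟨h1, h2, isMet_cyl hφ isOpen_ne_zero (fun _ h => h) h1 h2⟩

end

end Pool.Agent.P.MP_56a1cd_gt
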