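import Pool.Agent.P.MP_56a1cd_gt.Chart

namespace Pool.Agent.P.MP_56a1cd_gt

open MeasureTheory Matrix Set Filter Topology
open scoped ContDiff ENNReal

variable {m n : ℕ}

/-! PLAN. Pull-backs and change of variables: `integral_image_eq_integral_abs_det_fderiv_smul`,
`integrableOn_image_iff_integrableOn_abs_det_fderiv_smul`, `lintegral_image_eq_lintegral_abs_det_fderiv_mul`,
`jac_det`. `push`: `test_indicator` for `φ ∘ invFunOn`. `patch`: `g'' x = pull (invFunOn Φ W) g' x` on `Φ '' W`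
and `g x` elsewhere; it is smooth on the open sets `Φ '' W` and `U \\ Φ '' Z`. -/

section
variable {Φ : E n → E n} {W U : Set (E n)} {g : Met n}

theorem IsMet.pull (hg : IsMet g U) (h : IsChart Φ W) (hm : MapsTo Φ W U) :
    IsMet (pull Φ g) W := by
  refine ⟨h.opn, fun i j => ?_, fun y hy => ?_⟩
  · simp only [MP_56a1cd_gt.pull, mul_apply, transpose_apply]
    exact ContDiffOn.sum fun b _ => (ContDiffOn.sum fun a _ =>
      (sm_jac h.opn h.sm a i).mul (h.sm_comp hm (hg.sm a b))).mul (sm_jac h.opn h.sm b j)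
  · have := (hg.pos _ (hm hy)).conjTranspose_mul_mul_same
      (mulVec_injective_of_det_ne_zero (h.det y hy))
    rwa [conjTranspose_eq_transpose_of_trivial] at this

theorem IsChart.pull_inv (h : IsChart Φ W) (g : Met n) {x : E n} (hx : x ∈ Φ '' W) :
    pull (Function.invFunOn Φ W) (pull Φ g) x = g x := by
  rw [← pull_comp g (h.da (h.inv_mapsTo hx)) (h.inv.da hx)]
  have e : (fun z => Φ (Function.invFunOn Φ W z)) =ᶠ[𝓝 x] fun z => z := by
    filter_upwards [h.inv.opn.mem_nhds hx] with z hz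
    exact Function.invFunOn_eq hz
  rw [pull_congr e rfl, pull_id]

theorem IsChart.pull_pull_inv (h : IsChart Φ W) (g : Met n) {y : E n} (hy : y ∈ W) :
    pull Φ (pull (Function.invFunOn Φ W) g) y = g y := by
  rw [← pull_comp g (h.inv.da (mem_image_of_mem Φ hy)) (h.da hy)]
  have e : (fun z => Function.invFunOn Φ W (Φ z)) =ᶠ[𝓝 y] fun z => z := by
    filter_upwards [h.opn.mem_nhds hy] with z hz
    exact h.left_inv hz
  rw [pull_congr e rfl, pull_id]

theorem vol_pull (Φ : E n → E n) (g : Met n) (y : E n) :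
    vol (pull Φ g) y = vol g (Φ y) * |(jac Φ y).det| := by
  unfold vol pull
  rw [det_mul, det_mul, det_transpose, ← Real.sqrt_sq_eq_abs, ← Real.sqrt_mul' _ (sq_nonneg _)]
  congr 1
  ring

theorem IsChart.integral (h : IsChart Φ W) (g : Met n) {A : Set (E n)} (hA : MeasurableSet A)
    (hAW : A ⊆ W) (f : E n → ℝ) :
    ∫ x in Φ '' A, f x * vol g x = ∫ y in A, f (Φ y) * vol (pull Φ g) y := by
  rw [integral_image_eq_integral_abs_det_fderiv_smul volume hA
    (fun x hx => (h.da (hAW hx)).hasFDerivAt.hasFDerivWithinAt) (h.inj.mono hAW)]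
  refine setIntegral_congr_fun hA fun y hy => ?_
  simp only [vol_pull, jac_det (h.da (hAW hy)), smul_eq_mul]
  ring

theorem IsChart.integrableOn_iff (h : IsChart Φ W) (g : Met n) {A : Set (E n)}
    (hA : MeasurableSet A) (hAW : A ⊆ W) (f : E n → ℝ) :
    IntegrableOn (fun x => f x * vol g x) (Φ '' A) ↔
      IntegrableOn (fun y => f (Φ y) * vol (pull Φ g) y) A := by
  rw [integrableOn_image_iff_integrableOn_abs_det_fderiv_smul volume hA
    (fun x hx => (h.da (hAW hx)).hasFDerivAt.hasFDerivWithinAt) (h.inj.mono hAW)]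
  refine integrableOn_congr_fun (fun y hy => ?_) hA
  simp only [vol_pull, jac_det (h.da (hAW hy)), smul_eq_mul]
  ring

theorem IsChart.lintegral (h : IsChart Φ W) (g : Met n) {A : Set (E n)} (hA : MeasurableSet A)
    (hAW : A ⊆ W) (f : E n → ℝ≥0∞) :
    ∫⁻ x in Φ '' A, f x * ENNReal.ofReal (vol g x) =
      ∫⁻ y in A, f (Φ y) * ENNReal.ofReal (vol (pull Φ g) y) := by
  rw [lintegral_image_eq_lintegral_abs_det_fderiv_mul volume hA
    (fun x hx => (h.da (hAW hx)).hasFDerivAt.hasFDerivWithinAt) (h.inj.mono hAW)]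
  refine setLIntegral_congr_fun hA fun y hy => ?_
  simp only [vol_pull, jac_det (h.da (hAW hy)), ENNReal.ofReal_mul (vol_nonneg g (Φ y))]
  ring

/-- Push-forward of test functions. -/
theorem IsChart.push (h : IsChart Φ W) {φ : E n → ℝ} (hφ : Test W φ) :
    ∃ ψ, Test (Φ '' W) ψ ∧ (∀ y ∈ W, ψ (Φ y) = φ y) ∧ tsupport ψ ⊆ Φ '' tsupport φ := by
  obtain ⟨h1, h2⟩ := test_indicator (f := fun x => φ (Function.invFunOn Φ W x)) h.inv.opn
    (h.inv.sm_comp h.inv_mapsTo hφ.sm.contDiffOn)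
    (IsCompact.image_of_continuousOn hφ.cpt (h.sm.continuousOn.mono hφ.sub)) (image_mono hφ.sub)
    (by
      rintro _ ⟨y, hy, rfl⟩ hn
      rw [h.left_inv hy]
      exact image_eq_zero_of_notMem_tsupport fun hc => hn (mem_image_of_mem Φ hc))
  refine ⟨_, h1, fun y hy => ?_, h2⟩
  rw [indicator_of_mem (mem_image_of_mem Φ hy), h.left_inv hy]

/-- Replacing a metric in a chart. -/
theorem patch (hg : IsMet g U) (h : IsChart Φ W) {g' : Met n} (hg' : IsMet g' W) {Z : Set (E n)}
    (hZ : Z ⊆ W) (hc : IsClosed (Φ '' Z)) (e : ∀ y ∈ W, y ∉ Z → Φ y ∈ U → g' y = pull Φ g y) :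
    ∃ g'' : Met n, IsMet g'' (U ∪ Φ '' W) ∧ (∀ y ∈ W, pull Φ g'' y = g' y) ∧
      ∀ x ∈ U, x ∉ Φ '' Z → g'' x = g x := by
  classical
  have m1 : IsMet (pull (Function.invFunOn Φ W) g') (Φ '' W) := hg'.pull h.inv h.inv_mapsTo
  have key : ∀ x ∈ U, x ∉ Φ '' Z →
      (if x ∈ Φ '' W then pull (Function.invFunOn Φ W) g' x else g x) = g x := by
    intro x hx hn
    split_ifs with hW
    · rw [← h.pull_inv g hW]
      refine pull_congr EventuallyEq.rfl ?_
      obtain ⟨y, hy, rfl⟩ := hW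
      rw [h.left_inv hy]
      exact e y hy (fun hc => hn (mem_image_of_mem Φ hc)) hx
    · rfl
  have m2 : IsMet (fun x => if x ∈ Φ '' W then pull (Function.invFunOn Φ W) g' x else g x)
      (Φ '' W) := m1.congr fun x hx => if_pos hx
  have m3 : IsMet (fun x => if x ∈ Φ '' W then pull (Function.invFunOn Φ W) g' x else g x)
      (U \ Φ '' Z) :=
    (hg.mono (hg.opn.sdiff hc) sdiff_subset).congr fun x hx => key x hx.1 hx.2
  have cov : ∀ x ∈ U ∪ Φ '' W, x ∈ Φ '' W ∨ x ∈ U \ Φ '' Z := by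
    intro x hx
    by_cases hW : x ∈ Φ '' W
    · exact Or.inl hW
    · exact Or.inr ⟨hx.resolve_right hW, fun hc => hW (image_mono hZ hc)⟩
  refine ⟨fun x => if x ∈ Φ '' W then pull (Function.invFunOn Φ W) g' x else g x,
    ⟨hg.opn.union m1.opn, fun i j x hx => ?_, fun x hx => ?_⟩, fun y hy => ?_, key⟩
  · rcases cov x hx with h1 | h1
    · exact ((m2.sm i j).contDiffAt (m2.opn.mem_nhds h1)).contDiffWithinAt
    · exact ((m3.sm i j).contDiffAt (m3.opn.mem_nhds h1)).contDiffWithinAt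
  · rcases cov x hx with h1 | h1
    · exact m2.pos x h1
    · exact m3.pos x h1
  · rw [← h.pull_pull_inv g' hy]
    exact pull_congr EventuallyEq.rfl (if_pos (mem_image_of_mem Φ hy))

end

end Pool.Agent.P.MP_56a1cd_gt
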