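import Pool.Agent.P.MP_56a1cd_gt.Compat
import Pool.Agent.P.MP_56a1cd_gt.ChartI

namespace Pool.Agent.P.MP_56a1cd_gt

open MeasureTheory Matrix Set Filter Topology
open scoped ContDiff ENNReal

variable {m n : ℕ}

/-! Invariance of the gradient, the Hessian and the Laplacian under charts. -/

namespace InvAAux

theorem dv_comp {Φ : E n → E n} {f : E n → ℝ} {y : E n} (hf : DifferentiableAt ℝ f (Φ y))
    (hΦ : DifferentiableAt ℝ Φ y) :
    (fun j => pd j (fun z => f (Φ z)) y) = (jac Φ y)ᵀ *ᵥ (fun i => pd i f (Φ y)) := by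
  funext j
  rw [pd_comp hf hΦ j]
  simp only [Matrix.mulVec, dotProduct, Matrix.transpose_apply]
  exact Finset.sum_congr rfl fun i _ => mul_comm _ _

theorem inv_pull (Φ : E n → E n) (g : Met n) (y : E n) :
    (pull Φ g y)⁻¹ = (jac Φ y)⁻¹ * (g (Φ y))⁻¹ * ((jac Φ y)ᵀ)⁻¹ := by
  unfold pull
  rw [Matrix.mul_inv_rev, Matrix.mul_inv_rev, Matrix.mul_assoc]

theorem gr_vec (g : Met n) (f : E n → ℝ) (x : E n) :
    (fun i => gr g f i x) = (g x)⁻¹ *ᵥ (fun i => pd i f x) := by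
  funext i
  simp only [gr, Matrix.mulVec, dotProduct]

theorem gr_pull' {Φ : E n → E n} {f : E n → ℝ} {y : E n} (g : Met n)
    (hΦ : DifferentiableAt ℝ Φ y) (hd : (jac Φ y).det ≠ 0) (hf : DifferentiableAt ℝ f (Φ y)) :
    jac Φ y *ᵥ (fun j => gr (pull Φ g) (fun z => f (Φ z)) j y) = fun i => gr g f i (Φ y) := by
  have hu : IsUnit (jac Φ y).det := isUnit_iff_ne_zero.mpr hd
  have hu' : IsUnit ((jac Φ y)ᵀ).det := by rwa [Matrix.det_transpose]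
  rw [gr_vec, gr_vec, dv_comp hf hΦ, inv_pull, Matrix.mulVec_mulVec, Matrix.mulVec_mulVec]
  congr 1
  rw [Matrix.mul_assoc, Matrix.mul_assoc, Matrix.nonsing_inv_mul _ hu', Matrix.mul_one,
    ← Matrix.mul_assoc, Matrix.mul_nonsing_inv _ hu, Matrix.one_mul]

theorem hb_vec (g : Met n) (f a b : E n → ℝ) (x : E n) :
    hb g f a b x = (fun i => gr g a i x) ⬝ᵥ hessM g f x *ᵥ (fun i => gr g b i x) := by
  simp only [hb, hessM, Matrix.mulVec, dotProduct, Matrix.of_apply, Finset.mul_sum]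
  refine Finset.sum_congr rfl fun i _ => Finset.sum_congr rfl fun j _ => ?_
  ring

theorem lap_trace (g : Met n) (f : E n → ℝ) (x : E n) :
    lap g f x = Matrix.trace ((g x)⁻¹ * (hessM g f x)ᵀ) := by
  simp only [lap, hessM, Matrix.trace, Matrix.diag, Matrix.mul_apply, Matrix.transpose_apply,
    Matrix.of_apply]

theorem sum_trace (G H : Matrix (Fin n) (Fin n) ℝ) :
    ∑ i, ∑ j, ∑ k, ∑ l, G i k * G j l * H i j * H k l =
      Matrix.trace ((G * H) * (Gᵀ * Hᵀ)) := by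
  simp only [Matrix.trace, Matrix.diag, Matrix.mul_apply, Matrix.transpose_apply,
    Finset.sum_mul, Finset.mul_sum]
  refine Finset.sum_congr rfl fun i _ => ?_
  calc ∑ j, ∑ k, ∑ l, G i k * G j l * H i j * H k l
      = ∑ j, ∑ l, ∑ k, G i k * G j l * H i j * H k l :=
        Finset.sum_congr rfl fun j _ => Finset.sum_comm
    _ = ∑ l, ∑ j, ∑ k, G i k * G j l * H i j * H k l := Finset.sum_comm
    _ = ∑ l, ∑ j, ∑ k, G i k * H k l * (G j l * H i j) := by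
        refine Finset.sum_congr rfl fun l _ => Finset.sum_congr rfl fun j _ =>
          Finset.sum_congr rfl fun k _ => ?_
        ring

theorem hsq_trace (g : Met n) (f : E n → ℝ) (x : E n) :
    hsq g f x = Matrix.trace (((g x)⁻¹ * hessM g f x) * (((g x)⁻¹)ᵀ * (hessM g f x)ᵀ)) := by
  rw [← sum_trace]
  simp only [hsq, hessM, Matrix.of_apply]

theorem trace_conj {J : Matrix (Fin n) (Fin n) ℝ} (hu : IsUnit J.det)
    (A : Matrix (Fin n) (Fin n) ℝ) : Matrix.trace (J⁻¹ * A * J) = Matrix.trace A := by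
  rw [Matrix.trace_mul_comm, ← Matrix.mul_assoc, Matrix.mul_nonsing_inv _ hu, Matrix.one_mul]

theorem conj_mul {J : Matrix (Fin n) (Fin n) ℝ} (hu : IsUnit J.det)
    (G H : Matrix (Fin n) (Fin n) ℝ) :
    (J⁻¹ * G * (Jᵀ)⁻¹) * (Jᵀ * H * J) = J⁻¹ * (G * H) * J := by
  have hu' : IsUnit (Jᵀ).det := by rwa [Matrix.det_transpose]
  calc (J⁻¹ * G * (Jᵀ)⁻¹) * (Jᵀ * H * J) = J⁻¹ * G * ((Jᵀ)⁻¹ * Jᵀ) * H * J := by
        simp only [Matrix.mul_assoc]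
    _ = J⁻¹ * (G * H) * J := by
        rw [Matrix.nonsing_inv_mul _ hu', Matrix.mul_one]
        simp only [Matrix.mul_assoc]

theorem quad_conj (J H : Matrix (Fin n) (Fin n) ℝ) (v w : Fin n → ℝ) :
    v ⬝ᵥ (Jᵀ * H * J) *ᵥ w = (J *ᵥ v) ⬝ᵥ H *ᵥ (J *ᵥ w) := by
  rw [← Matrix.mulVec_mulVec, ← Matrix.mulVec_mulVec, Matrix.dotProduct_mulVec v,
    Matrix.vecMul_transpose]

theorem eq_of_quad {P A B : Matrix (Fin n) (Fin n) ℝ} (hu : IsUnit P.det)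
    (h : ∀ i j, (P *ᵥ Pi.single i 1) ⬝ᵥ A *ᵥ (P *ᵥ Pi.single j 1) =
      (P *ᵥ Pi.single i 1) ⬝ᵥ B *ᵥ (P *ᵥ Pi.single j 1)) : A = B := by
  have hu' : IsUnit (Pᵀ).det := by rwa [Matrix.det_transpose]
  have key : ∀ C : Matrix (Fin n) (Fin n) ℝ, ∀ i j,
      (P *ᵥ Pi.single i 1) ⬝ᵥ C *ᵥ (P *ᵥ Pi.single j 1) = (Pᵀ * C * P) i j := by
    intro C i j
    rw [← quad_conj, Matrix.mulVec_single_one, single_one_dotProduct, Matrix.col_apply]
  have e : Pᵀ * A * P = Pᵀ * B * P := by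
    ext i j
    rw [← key, ← key, h]
  have back : ∀ C : Matrix (Fin n) (Fin n) ℝ, (Pᵀ)⁻¹ * (Pᵀ * C * P) * P⁻¹ = C := by
    intro C
    calc (Pᵀ)⁻¹ * (Pᵀ * C * P) * P⁻¹ = ((Pᵀ)⁻¹ * Pᵀ) * C * (P * P⁻¹) := by
          simp only [Matrix.mul_assoc]
      _ = C := by
          rw [Matrix.nonsing_inv_mul _ hu', Matrix.mul_nonsing_inv _ hu, Matrix.one_mul,
            Matrix.mul_one]
  rw [← back A, e, back]

theorem dv_coord (i : Fin n) (x : E n) :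
    (fun k => pd k (fun y : E n => y i) x) = Pi.single i 1 := by
  funext k
  rw [pd_coord, Pi.single_apply]

end InvAAux

open InvAAux

section
variable {Φ : E n → E n} {W U : Set (E n)} {g : Met n} {f h : E n → ℝ} {y : E n}

theorem gam_pull' (g : Met n) (hΦ : DifferentiableAt ℝ Φ y) (hd : (jac Φ y).det ≠ 0)
    (hf : DifferentiableAt ℝ f (Φ y)) (hh : DifferentiableAt ℝ h (Φ y)) :
    gam (pull Φ g) (fun z => f (Φ z)) (fun z => h (Φ z)) y = gam g f h (Φ y) := by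
  rw [gam_eq_dot, gam_eq_dot, ← gr_vec, ← gr_vec, ← gr_pull' g hΦ hd hh, dv_comp hf hΦ,
    Matrix.mulVec_transpose, Matrix.dotProduct_mulVec]

theorem gam_pull (hg : IsMet g U) (hΦ : IsChart Φ W) (hm : MapsTo Φ W U) (hf : Sm U f)
    (hh : Sm U h) (hy : y ∈ W) :
    gam (pull Φ g) (fun z => f (Φ z)) (fun z => h (Φ z)) y = gam g f h (Φ y) :=
  gam_pull' g (hΦ.da hy) (hΦ.det y hy) (sm_da hg.opn hf (hm hy)) (sm_da hg.opn hh (hm hy))

theorem gr_pull (hg : IsMet g U) (hΦ : IsChart Φ W) (hm : MapsTo Φ W U) (hf : Sm U f)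
    (hy : y ∈ W) :
    jac Φ y *ᵥ (fun j => gr (pull Φ g) (fun z => f (Φ z)) j y) = fun i => gr g f i (Φ y) :=
  gr_pull' g (hΦ.da hy) (hΦ.det y hy) (sm_da hg.opn hf (hm hy))

namespace InvAAux

theorem gam_gam_pull (hg : IsMet g U) (hΦ : IsChart Φ W) (hm : MapsTo Φ W U) {a b c : E n → ℝ}
    (ha : Sm U a) (hb : Sm U b) (hc : Sm U c) (hy : y ∈ W) :
    gam (pull Φ g) (fun z => a (Φ z))
      (gam (pull Φ g) (fun z => b (Φ z)) (fun z => c (Φ z))) y = gam g a (gam g b c) (Φ y) := by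
  rw [← gam_pull hg hΦ hm ha (hg.sm_gam hb hc) hy]
  refine gam_congr rfl Filter.EventuallyEq.rfl ?_
  filter_upwards [hΦ.opn.mem_nhds hy] with z hz
  exact gam_pull hg hΦ hm hb hc hz

theorem hb_pull (hg : IsMet g U) (hΦ : IsChart Φ W) (hm : MapsTo Φ W U) {a b : E n → ℝ}
    (hf : Sm U f) (ha : Sm U a) (hb' : Sm U b) (hy : y ∈ W) :
    hb (pull Φ g) (fun z => f (Φ z)) (fun z => a (Φ z)) (fun z => b (Φ z)) y =
      hb g f a b (Φ y) := by
  rw [hb_koszul (hg.pull hΦ hm) (hΦ.sm_comp hm hf) (hΦ.sm_comp hm ha) (hΦ.sm_comp hm hb') hy,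
    hb_koszul hg hf ha hb' (hm hy), gam_gam_pull hg hΦ hm ha hf hb' hy,
    gam_gam_pull hg hΦ hm hb' hf ha hy, gam_gam_pull hg hΦ hm hf ha hb' hy]

end InvAAux

theorem hessM_pull (hg : IsMet g U) (hΦ : IsChart Φ W) (hm : MapsTo Φ W U) (hf : Sm U f)
    (hy : y ∈ W) :
    hessM (pull Φ g) (fun z => f (Φ z)) y = (jac Φ y)ᵀ * hessM g f (Φ y) * jac Φ y := by
  have hu : IsUnit (jac Φ y).det := isUnit_iff_ne_zero.mpr (hΦ.det y hy)
  have hG : IsUnit ((g (Φ y))⁻¹).det :=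
    Matrix.isUnit_nonsing_inv_det _ (isUnit_iff_ne_zero.mpr (hg.pos _ (hm hy)).det_pos.ne')
  have hP : IsUnit ((jac Φ y)⁻¹ * (g (Φ y))⁻¹).det := by
    rw [Matrix.det_mul]
    exact (Matrix.isUnit_nonsing_inv_det _ hu).mul hG
  have h1 : ∀ i : Fin n, (fun k => gr g (fun x : E n => x i) k (Φ y)) =
      jac Φ y *ᵥ (((jac Φ y)⁻¹ * (g (Φ y))⁻¹) *ᵥ Pi.single i 1) := by
    intro i
    rw [gr_vec, dv_coord, Matrix.mulVec_mulVec, ← Matrix.mul_assoc, Matrix.mul_nonsing_inv _ hu,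
      Matrix.one_mul]
  have h2 : ∀ i : Fin n, (fun k => gr (pull Φ g) (fun z => (fun x : E n => x i) (Φ z)) k y) =
      ((jac Φ y)⁻¹ * (g (Φ y))⁻¹) *ᵥ Pi.single i 1 := by
    intro i
    have e := gr_pull hg hΦ hm (sm_coord U i) hy
    rw [h1 i] at e
    have e2 := congrArg (fun v => (jac Φ y)⁻¹ *ᵥ v) e
    simp only [Matrix.mulVec_mulVec, ← Matrix.mul_assoc, Matrix.nonsing_inv_mul _ hu,
      Matrix.one_mul, Matrix.one_mulVec] at e2
    exact e2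
  refine eq_of_quad hP fun i j => ?_
  have e := hb_pull hg hΦ hm hf (sm_coord U i) (sm_coord U j) hy
  rw [hb_vec, hb_vec, h1 i, h1 j, h2 i, h2 j] at e
  rw [e, quad_conj]

theorem lap_pull (hg : IsMet g U) (hΦ : IsChart Φ W) (hm : MapsTo Φ W U) (hf : Sm U f)
    (hy : y ∈ W) : lap (pull Φ g) (fun z => f (Φ z)) y = lap g f (Φ y) := by
  have hu : IsUnit (jac Φ y).det := isUnit_iff_ne_zero.mpr (hΦ.det y hy)
  rw [lap_trace, lap_trace, hessM_pull hg hΦ hm hf hy, inv_pull, Matrix.transpose_mul,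
    Matrix.transpose_mul, Matrix.transpose_transpose, ← Matrix.mul_assoc (jac Φ y)ᵀ,
    conj_mul hu, trace_conj hu]

theorem hsq_pull (hg : IsMet g U) (hΦ : IsChart Φ W) (hm : MapsTo Φ W U) (hf : Sm U f)
    (hy : y ∈ W) : hsq (pull Φ g) (fun z => f (Φ z)) y = hsq g f (Φ y) := by
  have hu : IsUnit (jac Φ y).det := isUnit_iff_ne_zero.mpr (hΦ.det y hy)
  have t1 : ((jac Φ y)⁻¹ * (g (Φ y))⁻¹ * ((jac Φ y)ᵀ)⁻¹)ᵀ =
      (jac Φ y)⁻¹ * ((g (Φ y))⁻¹)ᵀ * ((jac Φ y)ᵀ)⁻¹ := by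
    rw [Matrix.transpose_mul, Matrix.transpose_mul, Matrix.transpose_nonsing_inv (jac Φ y)ᵀ,
      Matrix.transpose_transpose, Matrix.transpose_nonsing_inv (jac Φ y), Matrix.mul_assoc]
  have t2 : ((jac Φ y)ᵀ * hessM g f (Φ y) * jac Φ y)ᵀ =
      (jac Φ y)ᵀ * (hessM g f (Φ y))ᵀ * jac Φ y := by
    rw [Matrix.transpose_mul, Matrix.transpose_mul, Matrix.transpose_transpose, Matrix.mul_assoc]
  rw [hsq_trace, hsq_trace, hessM_pull hg hΦ hm hf hy, inv_pull, t1, t2, conj_mul hu, conj_mul hu,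
    ← trace_conj hu (((g (Φ y))⁻¹ * hessM g f (Φ y)) * (((g (Φ y))⁻¹)ᵀ * (hessM g f (Φ y))ᵀ))]
  congr 1
  calc (jac Φ y)⁻¹ * ((g (Φ y))⁻¹ * hessM g f (Φ y)) * jac Φ y *
        ((jac Φ y)⁻¹ * (((g (Φ y))⁻¹)ᵀ * (hessM g f (Φ y))ᵀ) * jac Φ y)
      = (jac Φ y)⁻¹ * ((g (Φ y))⁻¹ * hessM g f (Φ y)) * (jac Φ y * (jac Φ y)⁻¹) *
        (((g (Φ y))⁻¹)ᵀ * (hessM g f (Φ y))ᵀ) * jac Φ y := by simp only [Matrix.mul_assoc]
    _ = _ := by
        rw [Matrix.mul_nonsing_inv _ hu, Matrix.mul_one]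
        simp only [Matrix.mul_assoc]

end

end Pool.Agent.P.MP_56a1cd_gt
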