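import Pool.Agent.P.MP_56a1cd_gt.Conf
import Pool.Agent.P.MP_56a1cd_gt.InvA
import Pool.Agent.P.MP_56a1cd_gt.Cyl

namespace Pool.Agent.P.MP_56a1cd_gt

open MeasureTheory Matrix Set Filter Topology
open scoped ContDiff ENNReal

variable {m n : ℕ}

/-! The inversion in a sphere; its Jacobian matrix is a multiple of an orthogonal reflection. -/

namespace ReflAux

theorem dot_pos {x : E n} (hx : x ≠ 0) : 0 < x ⬝ᵥ x := by
  rw [← nrm_sq]
  exact pow_pos (nrm_pos hx) 2

theorem coef_pos (a : ℝ) {x : E n} (hx : x ≠ 0) : 0 < Real.exp (2 * a) / (x ⬝ᵥ x) :=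
  div_pos (Real.exp_pos _) (dot_pos hx)

theorem sm_dot : ContDiff ℝ ∞ (fun x : E n => x ⬝ᵥ x) := by
  simp only [dotProduct]
  fun_prop

theorem pd_dot (x : E n) (j : Fin n) : pd j (fun y : E n => y ⬝ᵥ y) x = 2 * x j := by
  simp only [dotProduct]
  rw [pd_sum _ (fun k _ => by fun_prop)]
  have : ∀ k, pd j (fun y : E n => y k * y k) x = if j = k then 2 * x j else 0 := by
    intro k
    rw [pd_mul (by fun_prop) (by fun_prop), pd_coord]
    split_ifs with h
    · subst h
      ring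
    · ring
  simp only [this, Finset.sum_ite_eq, Finset.mem_univ, if_true]

/-- The orthogonal reflection in the hyperplane orthogonal to `x`. -/
noncomputable def R (x : E n) : Matrix (Fin n) (Fin n) ℝ := 1 - (2 / (x ⬝ᵥ x)) • vecMulVec x x

theorem R_transpose (x : E n) : (R x)ᵀ = R x := by
  simp only [R, transpose_sub, transpose_one, transpose_smul, transpose_vecMulVec]

theorem P_mul_P (x : E n) : vecMulVec x x * vecMulVec x x = (x ⬝ᵥ x) • vecMulVec x x := by
  ext i j
  simp only [Matrix.mul_apply, vecMulVec_apply, Matrix.smul_apply, smul_eq_mul, dotProduct,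
    Finset.sum_mul]
  exact Finset.sum_congr rfl fun k _ => by ring

theorem R_mul_P {x : E n} (hx : x ≠ 0) : R x * vecMulVec x x = -vecMulVec x x := by
  rw [R, Matrix.sub_mul, Matrix.one_mul, Matrix.smul_mul, P_mul_P, smul_smul,
    div_mul_cancel₀ _ (dot_pos hx).ne', two_smul]
  abel

theorem P_mul_R {x : E n} (hx : x ≠ 0) : vecMulVec x x * R x = -vecMulVec x x := by
  rw [R, Matrix.mul_sub, Matrix.mul_one, Matrix.mul_smul, P_mul_P, smul_smul,
    div_mul_cancel₀ _ (dot_pos hx).ne', two_smul]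
  abel

theorem R_mul_R {x : E n} (hx : x ≠ 0) : R x * R x = 1 := by
  nth_rewrite 2 [R]
  rw [Matrix.mul_sub, Matrix.mul_one, Matrix.mul_smul, R_mul_P hx, R, smul_neg]
  abel

end ReflAux

open ReflAux

theorem refl_ne_zero (a : ℝ) {x : E n} (hx : x ≠ 0) : refl a x ≠ 0 :=
  smul_ne_zero (coef_pos a hx).ne' hx

theorem nrm_refl (a : ℝ) {x : E n} (hx : x ≠ 0) : nrm (refl a x) = Real.exp (2 * a) / nrm x := by
  have h := (nrm_pos hx).ne'
  rw [refl, nrm_smul, abs_of_pos (coef_pos a hx), ← nrm_sq]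
  field_simp

theorem refl_refl (a : ℝ) {x : E n} (hx : x ≠ 0) : refl a (refl a x) = x := by
  have h := (nrm_pos hx).ne'
  have h2 := (Real.exp_pos (2 * a)).ne'
  have e : refl a (refl a x) = (Real.exp (2 * a) / nrm (refl a x) ^ 2) • refl a x := by
    rw [nrm_sq]
    rfl
  rw [e, nrm_refl a hx, refl, smul_smul, ← nrm_sq]
  have : Real.exp (2 * a) / (Real.exp (2 * a) / nrm x) ^ 2 * (Real.exp (2 * a) / nrm x ^ 2) = 1 := by
    field_simp
  rw [this, one_smul]

theorem refl_of_nrm (a : ℝ) {x : E n} (hx : nrm x = Real.exp a) : refl a x = x := by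
  rw [refl, ← nrm_sq, hx, two_mul, Real.exp_add, sq,
    div_self (mul_pos (Real.exp_pos a) (Real.exp_pos a)).ne', one_smul]

theorem refl_exp_smul (a s : ℝ) {p : E 3} (hp : p ∈ sph) :
    refl a (Real.exp s • p) = Real.exp (2 * a - s) • p := by
  rw [refl, ← nrm_sq, nrm_exp_smul s hp, smul_smul, Real.exp_sub]
  have := (Real.exp_pos s).ne'
  congr 1
  field_simp

theorem refl_mem_Sh {a b c : ℝ} {x : E 3} (hx : x ∈ Sh b c) :
    refl a x ∈ Sh (2 * a - c) (2 * a - b) := by
  obtain ⟨h0, h1, h2⟩ := mem_Sh_iff.1 hx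
  refine mem_Sh_iff.2 ⟨refl_ne_zero a h0, ?_⟩
  rw [nrm_refl a h0, Real.log_div (Real.exp_pos _).ne' (nrm_pos h0).ne', Real.log_exp]
  constructor <;> linarith

theorem jac_refl (a : ℝ) {x : E n} (hx : x ≠ 0) (i j : Fin n) :
    jac (refl a) x i j = Real.exp (2 * a) / nrm x ^ 2 *
      ((if i = j then 1 else 0) - 2 * (x i * x j) / nrm x ^ 2) := by
  have hq := (dot_pos hx).ne'
  have hd : DifferentiableAt ℝ (fun y : E n => y ⬝ᵥ y) x := sm_dot.differentiable (by simp) x
  have hβ : HasDerivAt (fun t : ℝ => Real.exp (2 * a) / t)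
      (-Real.exp (2 * a) / (x ⬝ᵥ x) ^ 2) (x ⬝ᵥ x) := by
    have := (hasDerivAt_const (x ⬝ᵥ x) (Real.exp (2 * a))).div (hasDerivAt_id (x ⬝ᵥ x)) hq
    simp only [zero_mul, zero_sub, mul_one, id] at this
    exact this
  have h1 := pd_comp_real hd hβ j
  have h2 : DifferentiableAt ℝ (fun y : E n => Real.exp (2 * a) / (y ⬝ᵥ y)) x :=
    DifferentiableAt.comp (g := fun t : ℝ => Real.exp (2 * a) / t) (f := fun y : E n => y ⬝ᵥ y) x
      hβ.differentiableAt hd
  change pd j (fun y : E n => Real.exp (2 * a) / (y ⬝ᵥ y) * y i) x = _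
  rw [pd_mul h2 (by fun_prop), h1, pd_dot, pd_coord, nrm_sq]
  by_cases h : i = j
  · subst h
    simp only [if_true]
    field_simp
    ring
  · rw [if_neg h, if_neg (Ne.symm h)]
    field_simp
    ring

theorem ReflAux.jac_eq (a : ℝ) {x : E n} (hx : x ≠ 0) :
    jac (refl a) x = (Real.exp (2 * a) / (x ⬝ᵥ x)) • R x := by
  ext i j
  rw [jac_refl a hx, nrm_sq]
  simp only [R, Matrix.smul_apply, Matrix.sub_apply, Matrix.one_apply, vecMulVec_apply,
    smul_eq_mul]
  ring

theorem isChart_refl (a : ℝ) : IsChart (refl a : E n → E n) {x | x ≠ 0} := by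
  have h : ContDiffOn ℝ ∞ (refl a : E n → E n) {x | x ≠ 0} :=
    (contDiffOn_const.div sm_dot.contDiffOn fun x hx => (dot_pos hx).ne').smul contDiffOn_id
  exact isChart_of_leftInverse isOpen_ne_zero h h (fun x hx => refl_ne_zero a hx)
    fun x hx => refl_refl a hx

theorem pull_refl_flat {x : E n} (hx : x ≠ 0) :
    pull (refl 0) flat x = conf (fun y => -2 * Real.log (nrm y)) x := by
  have h := nrm_pos hx
  simp only [pull, flat, conf]
  rw [jac_eq 0 hx, transpose_smul, R_transpose, Matrix.mul_one, Matrix.smul_mul, Matrix.mul_smul,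
    R_mul_R hx, smul_smul, ← nrm_sq]
  congr 1
  have e : 2 * (-2 * Real.log (nrm x)) = -Real.log (nrm x ^ 4) := by
    rw [Real.log_pow]
    push_cast
    ring
  rw [e, Real.exp_neg, Real.exp_log (pow_pos h 4), mul_zero, Real.exp_zero]
  field_simp

theorem pull_refl_cyl (a : ℝ) {φ N : E 3 → ℝ} (hφ : Hom0 φ) (hN : Hom0 N) {x : E 3} (hx : x ≠ 0) :
    pull (refl a) (cyl φ N) x = cyl φ N x := by
  have e : cyl φ N x = ((N x ^ 2 - Real.exp (2 * φ x)) / nrm x ^ 4) • vecMulVec x x +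
      (Real.exp (2 * φ x) / nrm x ^ 2) • (1 : Matrix (Fin 3) (Fin 3) ℝ) := by
    ext i j
    simp only [cyl, Matrix.of_apply, Matrix.add_apply, Matrix.smul_apply, Matrix.one_apply,
      vecMulVec_apply, smul_eq_mul]
    ring
  have h1 : R x * cyl φ N x * R x = cyl φ N x := by
    rw [e, Matrix.mul_add, Matrix.add_mul, Matrix.mul_smul, Matrix.mul_smul, Matrix.smul_mul,
      Matrix.smul_mul, R_mul_P hx, Matrix.neg_mul, P_mul_R hx, neg_neg, Matrix.mul_one, R_mul_R hx]
  have h2 := cyl_smul hφ hN hx (coef_pos a hx)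
  simp only [pull]
  rw [jac_eq a hx, transpose_smul, R_transpose, Matrix.smul_mul, Matrix.smul_mul, Matrix.mul_smul,
    smul_smul, ← sq, ← Matrix.smul_mul, ← Matrix.mul_smul, refl, h2, h1]

end Pool.Agent.P.MP_56a1cd_gt
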