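import Pool.Agent.P.MP_56a1cd_gt.Cyl
import Pool.Agent.P.MP_56a1cd_gt.Refl

namespace Pool.Agent.P.MP_56a1cd_gt

open MeasureTheory Matrix Set Filter Topology
open scoped ContDiff ENNReal

variable {m n : ℕ}

/-! PLAN. Elementary topology of caps. `mem_interior_iff`: `Φ '' Sh a (a + h)` is open and inside `M`;
near a point with `nrm x ≤ exp a` there are points of `W` with smaller norm, whose images are outside `M`
(`IsChart.map_nhds` or continuity along the ray). `isConnected_compl_interior`: if the closed set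
`D = (interior M)ᶜ` is the disjoint union of two nonempty closed sets, one of them, `D₂`, misses the connected
set `frontier M`, hence `D₂ ⊆ Mᶜ` is open and closed and bounded in the connected unbounded space. -/

namespace Cap

variable {φ : E 3 → ℝ} (C : Cap φ)

theorem isOpen_W : IsOpen C.W := isOpen_Sh _ _

theorem isOpen_Ω : IsOpen C.Ω := C.met.opn

theorem met' : IsMet C.g C.Ω := C.met

theorem chart' : IsChart C.Φ C.W := C.chart

theorem mapsΦ : MapsTo C.Φ C.W C.Ω := fun x hx => Or.inr ⟨x, hx, rfl⟩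

theorem mapsF' : MapsTo C.F (Ext C.r) C.Ω := fun _ hx => Or.inl (C.mapsF hx)

private theorem mem_W_of_nrm {x : E 3} (hx : nrm x = Real.exp C.a) : x ∈ C.W := by
  have h := C.h_pos
  refine ⟨?_, ?_⟩
  · rw [hx]; exact Real.exp_lt_exp.2 (by linarith)
  · rw [hx]; exact Real.exp_lt_exp.2 (by linarith)

private theorem front_of_not_int {z : E 3} (hz : z ∈ C.M) (h : z ∉ interior C.M) :
    z ∈ frontier C.M := by
  rw [C.closed.frontier_eq]
  exact ⟨hz, h⟩

theorem M_sub : C.M ⊆ C.Ω := by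
  intro z hz
  by_cases h : z ∈ interior C.M
  · exact Or.inl h
  · obtain ⟨x, hx, rfl⟩ := C.front (C.front_of_not_int hz h)
    exact Or.inr ⟨x, C.mem_W_of_nrm hx, rfl⟩

theorem ne_zero_of_mem_W {x : E 3} (hx : x ∈ C.W) : x ≠ 0 := ne_zero_of_mem_Sh hx

theorem isMet_cyl (hφ : Hom0 φ) : IsMet (cyl φ C.N) C.W :=
  _root_.Pool.Agent.P.MP_56a1cd_gt.isMet_cyl hφ C.isOpen_W (fun _ hx => C.ne_zero_of_mem_W hx)
    (C.N_hom.sm.mono fun _ hx => C.ne_zero_of_mem_W hx)
    (fun x hx => C.N_pos x (C.ne_zero_of_mem_W hx))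

theorem refl_mem_W {x : E 3} (hx : x ∈ C.W) : refl C.a x ∈ C.W := by
  have h := refl_mem_Sh (a := C.a) hx
  have e1 : 2 * C.a - (C.a + C.h) = C.a - C.h := by ring
  have e2 : 2 * C.a - (C.a - C.h) = C.a + C.h := by ring
  rw [e1, e2] at h
  exact h

theorem exp_smul_mem_W {p : E 3} (hp : p ∈ sph) {s : ℝ} (h1 : C.a - C.h < s) (h2 : s < C.a + C.h) :
    Real.exp s • p ∈ C.W := by
  refine ⟨?_, ?_⟩
  · rw [nrm_exp_smul s hp]; exact Real.exp_lt_exp.2 h1
  · rw [nrm_exp_smul s hp]; exact Real.exp_lt_exp.2 h2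

theorem Shc_subset_W {α β : ℝ} (h1 : C.a - C.h < α) (h2 : β < C.a + C.h) : Shc α β ⊆ C.W :=
  fun _ hx => ⟨lt_of_lt_of_le (Real.exp_lt_exp.2 h1) hx.1, lt_of_le_of_lt hx.2 (Real.exp_lt_exp.2 h2)⟩

theorem mem_interior_iff {x : E 3} (hx : x ∈ C.W) :
    C.Φ x ∈ interior C.M ↔ Real.exp C.a < nrm x := by
  have hh := C.h_pos
  constructor
  · intro hi
    by_contra hle
    have hle' : nrm x ≤ Real.exp C.a := not_lt.1 hle
    have hS : IsOpen (C.W ∩ C.Φ ⁻¹' interior C.M) := C.chart'.isOpen_preimage isOpen_interior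
    have hc : Continuous fun t : ℝ => t • x := continuous_id.smul continuous_const
    have h1 : ∀ᶠ t in 𝓝 (1 : ℝ), t • x ∈ C.W ∩ C.Φ ⁻¹' interior C.M := by
      apply hc.continuousAt.eventually
      apply hS.mem_nhds
      show (1 : ℝ) • x ∈ _
      rw [one_smul]
      exact ⟨hx, hi⟩
    have h2 : ∀ᶠ t in 𝓝 (1 : ℝ), 0 < t := lt_mem_nhds one_pos
    have h3 : ∀ᶠ t in 𝓝[<] (1 : ℝ), t < 1 := self_mem_nhdsWithin
    obtain ⟨t, ⟨ht1, ht2⟩, ht3⟩ := (((h1.and h2).filter_mono nhdsWithin_le_nhds).and h3).exists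
    have h4 := (C.side _ ht1.1).1 (interior_subset ht1.2)
    rw [nrm_smul, abs_of_pos ht2] at h4
    have h5 : 0 < nrm x := nrm_pos (C.ne_zero_of_mem_W hx)
    nlinarith
  · intro hlt
    have hsub : Sh C.a (C.a + C.h) ⊆ C.W := fun y hy =>
      ⟨lt_trans (Real.exp_lt_exp.2 (by linarith)) hy.1, hy.2⟩
    have ho : IsOpen (C.Φ '' Sh C.a (C.a + C.h)) := C.chart'.isOpen_image (isOpen_Sh _ _) hsub
    have hM : C.Φ '' Sh C.a (C.a + C.h) ⊆ C.M := by
      rintro _ ⟨y, hy, rfl⟩
      exact (C.side y (hsub hy)).2 hy.1.le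
    exact interior_maximal hM ho ⟨x, ⟨hlt, hx.2⟩, rfl⟩

theorem mem_Ω {z : E 3} (hz : z ∈ C.Ω) :
    z ∈ C.M ∨ ∃ x ∈ C.W, nrm x < Real.exp C.a ∧ z = C.Φ x := by
  rcases hz with hz | ⟨x, hx, rfl⟩
  · exact Or.inl (interior_subset hz)
  · by_cases h : Real.exp C.a ≤ nrm x
    · exact Or.inl ((C.side x hx).2 h)
    · exact Or.inr ⟨x, hx, not_le.1 h, rfl⟩

private theorem bp_W {p : E 3} (hp : p ∈ sph) : Real.exp C.a • p ∈ C.W :=
  C.mem_W_of_nrm (nrm_exp_smul _ hp)

theorem bp_mem {p : E 3} (hp : p ∈ sph) : C.bp p ∈ C.M :=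
  (C.side _ (C.bp_W hp)).2 (nrm_exp_smul _ hp).ge

theorem continuousOn_bp : ContinuousOn C.bp sph := by
  have hc : Continuous fun p : E 3 => Real.exp C.a • p := continuous_const_smul _
  exact C.chart'.sm.continuousOn.comp hc.continuousOn fun p hp => C.bp_W hp

theorem continuousOn_fl {v : E 3 → ℝ} (hv : Sm C.Ω v) : ContinuousOn (C.fl v) sph := by
  have hc : Continuous fun p : E 3 => Real.exp C.a • p := continuous_const_smul _
  have h1 : Sm C.W (rad fun x => v (C.Φ x)) := sm_rad C.isOpen_W (C.chart'.sm_comp C.mapsΦ hv)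
  have h2 : ContinuousOn (fun p : E 3 => rad (fun x => v (C.Φ x)) (Real.exp C.a • p)) sph :=
    h1.continuousOn.comp hc.continuousOn fun p hp => C.bp_W hp
  refine h2.neg.div C.N_hom.continuousOn fun p hp => (C.N_pos p ?_).ne'
  apply ne_zero_of_nrm_pos
  rw [mem_sph_iff.1 hp]
  exact one_pos

theorem frontier_eq : frontier C.M = C.bp '' sph := by
  apply Subset.antisymm
  · intro z hz
    obtain ⟨x, hx, rfl⟩ := C.front hz
    have hx' : nrm x = Real.exp C.a := hx
    refine ⟨Real.exp (-C.a) • x, ?_, ?_⟩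
    · rw [mem_sph_iff, nrm_smul, abs_of_pos (Real.exp_pos _), hx', ← Real.exp_add]
      simp
    · unfold bp
      rw [smul_smul, ← Real.exp_add]
      simp
  · rintro _ ⟨p, hp, rfl⟩
    refine C.front_of_not_int (C.bp_mem hp) fun h => ?_
    have h1 := (C.mem_interior_iff (C.bp_W hp)).1 h
    rw [nrm_exp_smul _ hp] at h1
    exact lt_irrefl _ h1

theorem volume_frontier : volume (frontier C.M) = 0 :=
  measure_mono_null C.front
    (C.chart'.volume_image_null (fun _ hx => C.mem_W_of_nrm hx) (volume_nrm_eq (n := 2) _))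

theorem interior_ae_eq : interior C.M =ᵐ[volume] C.M :=
  interior_ae_eq_of_null_frontier C.volume_frontier

theorem compl_nonempty : (C.M)ᶜ.Nonempty := by
  obtain ⟨p, hp⟩ := isConnected_sph.nonempty
  have hh := C.h_pos
  have hW : Real.exp (C.a - C.h / 2) • p ∈ C.W := C.exp_smul_mem_W hp (by linarith) (by linarith)
  refine ⟨C.Φ (Real.exp (C.a - C.h / 2) • p), fun h => ?_⟩
  have h1 := (C.side _ hW).1 h
  rw [nrm_exp_smul _ hp, Real.exp_le_exp] at h1
  linarith

private theorem sub_of_front {u v : Set (E 3)} (hu : IsClosed u) (hv : IsClosed v)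
    (hc : (interior C.M)ᶜ ⊆ u ∪ v) (hd : Disjoint u v) (hf : frontier C.M ⊆ u) :
    (interior C.M)ᶜ ⊆ u := by
  have e : (interior C.M)ᶜ ∩ v = (C.M)ᶜ ∩ uᶜ := by
    ext z
    constructor
    · rintro ⟨h1, h2⟩
      have h3 : z ∉ u := fun h => Set.disjoint_left.1 hd h h2
      exact ⟨fun h => h3 (hf (C.front_of_not_int h h1)), h3⟩
    · rintro ⟨h1, h2⟩
      have h3 : z ∈ (interior C.M)ᶜ := fun h => h1 (interior_subset h)
      exact ⟨h3, (hc h3).resolve_left h2⟩
  have hcl : IsClopen ((C.M)ᶜ ∩ uᶜ) :=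
    ⟨e ▸ (isOpen_interior.isClosed_compl.inter hv), C.closed.isOpen_compl.inter hu.isOpen_compl⟩
  rcases isClopen_iff.1 hcl with h | h
  · intro z hz
    rcases hc hz with h1 | h1
    · exact h1
    · have h2 : z ∈ (interior C.M)ᶜ ∩ v := ⟨hz, h1⟩
      rw [e, h] at h2
      exact absurd h2 (notMem_empty z)
  · obtain ⟨p, hp⟩ := isConnected_sph.nonempty
    have h2 : C.bp p ∈ (C.M)ᶜ ∩ uᶜ := h ▸ mem_univ _
    exact absurd (C.bp_mem hp) h2.1

theorem isConnected_compl_interior : IsConnected (interior C.M)ᶜ := by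
  refine ⟨C.compl_nonempty.mono (compl_subset_compl.2 interior_subset), ?_⟩
  rw [isPreconnected_iff_subset_of_fully_disjoint_closed isOpen_interior.isClosed_compl]
  intro u v hu hv hc hd
  have hf : IsPreconnected (frontier C.M) := by
    rw [C.frontier_eq]
    exact isConnected_sph.isPreconnected.image _ C.continuousOn_bp
  have hsub : frontier C.M ⊆ u ∪ v := fun z hz => hc hz.2
  rcases (isPreconnected_iff_subset_of_fully_disjoint_closed isClosed_frontier).1 hf u v hu hv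
    hsub hd with h | h
  · exact Or.inl (C.sub_of_front hu hv hc hd h)
  · exact Or.inr (C.sub_of_front hv hu (by rwa [union_comm]) hd.symm h)

theorem isCompact_compl_interior : IsCompact (interior C.M)ᶜ := by
  rw [← closure_compl]
  exact C.bdd.isCompact_closure

end Cap

end Pool.Agent.P.MP_56a1cd_gt
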