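import Pool.Agent.P.MP_56a1cd_gt.CapB

namespace Pool.Agent.P.MP_56a1cd_gt

open MeasureTheory Matrix Set Filter Topology
open scoped ContDiff ENNReal

variable {m n : ℕ}

/-! PLAN. Cut-offs: define them by cases on the chart image with `Function.invFunOn`, and prove smoothness on open
sets that cover the space (`IsChart.sm_of_comp`, `contDiffOn_of_locally_contDiffOn`). For `ζ`: on `Φ '' W` it is
`1 - stp (3 (log |x| - a) / h)`, elsewhere zero on `M` and one off `M`; cover by `Φ '' W`, `Mᶜ` and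
`interior M \\ Φ '' Shc a (a + 2h/3)`. `isClosed_far`: by `proper`, the intersection with a ball is the intersection with the
image of a compact shell. The last lemmas: `scal_pull`, `gam_pull`, `lap_pull`, `IsChart.integral` and the congruence
lemmas. -/

namespace Cap

variable {φ : E 3 → ℝ} (C : Cap φ)

theorem exists_zeta : ∃ ζ : E 3 → ℝ, ContDiff ℝ ∞ ζ ∧ HasCompactSupport ζ ∧
    (∀ z, 0 ≤ ζ z ∧ ζ z ≤ 1) ∧ (∀ z, z ∉ C.M → ζ z = 1) ∧
    (∀ x ∈ Sh (C.a - C.h) (C.a + C.h / 3), ζ (C.Φ x) = 1) ∧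
    (∀ᶠ z in 𝓝ˢ (interior C.M)ᶜ, ζ z = 1) ∧
    ∀ z ∈ C.M, z ∉ C.Φ '' Shc C.a (C.a + 2 * C.h / 3) → ζ z = 0 := by
  classical
  have hh := C.h_pos
  let ζ : E 3 → ℝ := fun z =>
    if z ∈ C.Φ '' C.W then
      1 - stp (3 * (Real.log (nrm (Function.invFunOn C.Φ C.W z)) - C.a) / C.h)
    else if z ∈ C.M then 0 else 1
  have hΦ : ∀ x ∈ C.W, ζ (C.Φ x) = 1 - stp (3 * (Real.log (nrm x) - C.a) / C.h) := by
    intro x hx
    simp only [ζ]
    rw [if_pos (mem_image_of_mem _ hx), C.chart'.left_inv hx]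
  have hlt : ∀ x ∈ C.W, Real.log (nrm x) < C.a + C.h / 3 → ζ (C.Φ x) = 1 := by
    intro x hx hl
    rw [hΦ x hx, stp_zero, sub_zero]
    rw [div_le_one hh]
    linarith
  have hout : ∀ z, z ∉ C.M → ζ z = 1 := by
    intro z hz
    by_cases hw : z ∈ C.Φ '' C.W
    · obtain ⟨x, hx, rfl⟩ := hw
      refine hlt x hx ?_
      have h1 : nrm x < Real.exp C.a := not_le.1 fun h => hz ((C.side x hx).2 h)
      have h2 := (Real.log_lt_iff_lt_exp (nrm_pos (C.ne_zero_of_mem_W hx))).2 h1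
      linarith
    · simp only [ζ]
      rw [if_neg hw, if_neg hz]
  have hSh : Sh (C.a - C.h) (C.a + C.h / 3) ⊆ C.W := by
    intro x hx
    rw [mem_Sh_iff] at hx
    exact mem_Sh_iff.2 ⟨hx.1, hx.2.1, by linarith [hx.2.2]⟩
  have hone : ∀ x ∈ Sh (C.a - C.h) (C.a + C.h / 3), ζ (C.Φ x) = 1 := fun x hx =>
    hlt x (hSh hx) (mem_Sh_iff.1 hx).2.2
  have hzero : ∀ z ∈ C.M, z ∉ C.Φ '' Shc C.a (C.a + 2 * C.h / 3) → ζ z = 0 := by
    intro z hz hn
    by_cases hw : z ∈ C.Φ '' C.W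
    · obtain ⟨x, hx, rfl⟩ := hw
      have h0 := C.ne_zero_of_mem_W hx
      have h1 : C.a ≤ Real.log (nrm x) :=
        (Real.le_log_iff_exp_le (nrm_pos h0)).2 ((C.side x hx).1 hz)
      have h2 : C.a + 2 * C.h / 3 < Real.log (nrm x) :=
        not_le.1 fun h => hn (mem_image_of_mem _ (mem_Shc_iff.2 ⟨h0, h1, h⟩))
      rw [hΦ x hx, stp_one, sub_self]
      rw [le_div_iff₀ hh]
      linarith
    · simp only [ζ]
      rw [if_neg hw, if_pos hz]
  have hcs : Shc C.a (C.a + 2 * C.h / 3) ⊆ C.W := C.Shc_subset_W (by linarith) (by linarith)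
  have hK : IsCompact (C.Φ '' Shc C.a (C.a + 2 * C.h / 3)) :=
    (isCompact_Shc _ _).image_of_continuousOn (C.chart'.sm.continuousOn.mono hcs)
  have hfr : ∀ z ∈ C.M, z ∉ interior C.M → z ∈ C.Φ '' Sh (C.a - C.h) (C.a + C.h / 3) := by
    intro z hz hi
    have : z ∈ frontier C.M := by
      rw [C.closed.frontier_eq]
      exact ⟨hz, hi⟩
    rw [C.frontier_eq] at this
    obtain ⟨p, hp, rfl⟩ := this
    refine mem_image_of_mem _ ⟨?_, ?_⟩ <;> rw [nrm_exp_smul _ hp] <;>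
      exact Real.exp_lt_exp.2 (by linarith)
  refine ⟨ζ, ?_, ?_, ?_, hout, hone, ?_, hzero⟩
  · rw [contDiff_iff_contDiffAt]
    intro z
    by_cases hw : z ∈ C.Φ '' C.W
    · have h1 : Sm C.W (fun x => Real.log (nrm x)) :=
        sm_log_nrm.mono fun x hx => C.ne_zero_of_mem_W hx
      have h2 : Sm C.W (fun x => 1 - stp (3 * (Real.log (nrm x) - C.a) / C.h)) :=
        contDiffOn_const.sub (stp_sm.comp_contDiffOn
          ((contDiffOn_const.mul (h1.sub contDiffOn_const)).div_const _))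
      have h3 : Sm (C.Φ '' C.W) ζ := C.chart'.sm_of_comp (h2.congr hΦ)
      exact h3.contDiffAt ((C.chart'.isOpen_image C.isOpen_W subset_rfl).mem_nhds hw)
    by_cases hz : z ∈ C.M
    · have hi : z ∈ interior C.M := by
        by_contra hi
        exact hw (image_mono hSh (hfr z hz hi))
      have hn : z ∉ C.Φ '' Shc C.a (C.a + 2 * C.h / 3) := fun h => hw (image_mono hcs h)
      refine (contDiffAt_const (c := (0 : ℝ))).congr_of_eventuallyEq ?_
      filter_upwards [isOpen_interior.mem_nhds hi, hK.isClosed.isOpen_compl.mem_nhds hn] with y h1 h2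
      exact hzero y (interior_subset h1) h2
    · refine (contDiffAt_const (c := (1 : ℝ))).congr_of_eventuallyEq ?_
      filter_upwards [C.closed.isOpen_compl.mem_nhds hz] with y h1
      exact hout y h1
  · refine HasCompactSupport.intro (C.bdd.union hK.isBounded).isCompact_closure fun z hz => ?_
    have h1 : z ∉ C.Mᶜ ∪ C.Φ '' Shc C.a (C.a + 2 * C.h / 3) := fun h => hz (subset_closure h)
    rw [mem_union, not_or, mem_compl_iff, not_not] at h1
    exact hzero z h1.1 h1.2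
  · intro z
    simp only [ζ]
    split_ifs
    · have := stp_mem (3 * (Real.log (nrm (Function.invFunOn C.Φ C.W z)) - C.a) / C.h)
      constructor <;> linarith [this.1, this.2]
    · norm_num
    · norm_num
  · have hO : IsOpen (C.Mᶜ ∪ C.Φ '' Sh (C.a - C.h) (C.a + C.h / 3)) :=
      C.closed.isOpen_compl.union (C.chart'.isOpen_image (isOpen_Sh _ _) hSh)
    have hsub : (interior C.M)ᶜ ⊆ C.Mᶜ ∪ C.Φ '' Sh (C.a - C.h) (C.a + C.h / 3) := by
      intro z hz
      by_cases hM : z ∈ C.M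
      · exact Or.inr (hfr z hM hz)
      · exact Or.inl hM
    filter_upwards [hO.mem_nhdsSet.2 hsub] with z hz
    rcases hz with hz | ⟨x, hx, rfl⟩
    · exact hout z hz
    · exact hone x hx

theorem isClosed_far {r' : ℝ} (h : C.r < r') : IsClosed (C.F '' {x | r' ≤ nrm x}) := by
  rw [← closure_subset_iff_isClosed]
  intro z hz
  obtain ⟨r'', H⟩ := C.proper (nrm z + 1)
  have hO : IsOpen {y : E 3 | nrm y < nrm z + 1} := isOpen_lt continuous_nrm continuous_const
  have hA : IsCompact ({x : E 3 | r' ≤ nrm x} ∩ {x | nrm x ≤ r''}) :=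
    (isCompact_nrm_le r'').inter_left (isClosed_le continuous_const continuous_nrm)
  have hK : IsCompact (C.F '' ({x : E 3 | r' ≤ nrm x} ∩ {x | nrm x ≤ r''})) :=
    hA.image_of_continuousOn (C.chartF.sm.continuousOn.mono fun x hx => lt_of_lt_of_le h hx.1)
  have h1 := hO.inter_closure ⟨lt_add_one (nrm z), hz⟩
  have h2 : {y : E 3 | nrm y < nrm z + 1} ∩ C.F '' {x | r' ≤ nrm x} ⊆
      C.F '' ({x : E 3 | r' ≤ nrm x} ∩ {x | nrm x ≤ r''}) := by
    rintro _ ⟨hy, x, hx, rfl⟩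
    refine ⟨x, ⟨hx, ?_⟩, rfl⟩
    by_contra hc
    exact lt_asymm hy (H x (lt_of_lt_of_le h hx) (not_le.1 hc))
  have h3 := closure_mono h2 h1
  rw [hK.isClosed.closure_eq] at h3
  exact image_mono inter_subset_left h3

theorem isCompact_core {r' : ℝ} (h : C.r < r') : IsCompact (C.M \ C.F '' Ext r') :=
  Metric.isCompact_of_isClosed_isBounded
    (C.closed.sdiff (C.chartF.isOpen_image (isOpen_Ext r') fun _ hx => lt_trans h hx))
    (C.core r' h)

theorem frontier_core {r' : ℝ} (h : C.r < r') :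
    frontier (C.M \ C.F '' Ext r') ⊆ frontier C.M ∪ C.F '' {x | nrm x = r'} := by
  intro z hz
  rw [(C.isCompact_core h).isClosed.frontier_eq] at hz
  by_contra hn
  rw [mem_union, not_or, C.closed.frontier_eq] at hn
  have hi : z ∈ interior C.M := by
    by_contra hi
    exact hn.1 ⟨hz.1.1, hi⟩
  have hf : z ∉ C.F '' {x | r' ≤ nrm x} := by
    rintro ⟨x, hx, rfl⟩
    rcases eq_or_lt_of_le (show r' ≤ nrm x from hx) with e | e
    · exact hn.2 ⟨x, e.symm, rfl⟩
    · exact hz.1.2 ⟨x, e, rfl⟩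
  apply hz.2
  rw [mem_interior_iff_mem_nhds]
  filter_upwards [isOpen_interior.mem_nhds hi, (C.isClosed_far h).isOpen_compl.mem_nhds hf]
    with y h1 h2
  refine ⟨interior_subset h1, ?_⟩
  rintro ⟨x, hx, rfl⟩
  exact h2 ⟨x, le_of_lt (show r' < nrm x from hx), rfl⟩

theorem exists_far {K : Set (E 3)} (hK : Bornology.IsBounded K) :
    ∃ r', C.r < r' ∧ ∀ x, r' ≤ nrm x → C.F x ∉ K := by
  obtain ⟨R, hR⟩ := isBounded_iff_nrm.1 hK
  obtain ⟨r'', H⟩ := C.proper R
  refine ⟨max C.r r'' + 1, by linarith [le_max_left C.r r''], fun x hx hk => ?_⟩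
  have := H x (by linarith [le_max_left C.r r'']) (by linarith [le_max_right C.r r''])
  linarith [hR _ hk]

theorem exists_eta {ρ : ℝ} (h : C.r < ρ) : ∃ η : E 3 → ℝ, ContDiff ℝ ∞ η ∧
    (∀ x ∈ (Ext C.r : Set (E 3)), η (C.F x) = 1 - stp (nrm x / ρ)) ∧
    ∀ z, z ∉ C.F '' {x | ρ ≤ nrm x} → η z = 1 := by
  classical
  have hρ : 0 < ρ := lt_trans C.r_pos h
  let η : E 3 → ℝ := fun z =>
    if z ∈ C.F '' Ext C.r then 1 - stp (nrm (Function.invFunOn C.F (Ext C.r) z) / ρ) else 1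
  have hF : ∀ x ∈ (Ext C.r : Set (E 3)), η (C.F x) = 1 - stp (nrm x / ρ) := by
    intro x hx
    simp only [η]
    rw [if_pos (mem_image_of_mem _ hx), C.chartF.left_inv hx]
  have hone : ∀ z, z ∉ C.F '' {x | ρ ≤ nrm x} → η z = 1 := by
    intro z hz
    by_cases hw : z ∈ C.F '' Ext C.r
    · obtain ⟨x, hx, rfl⟩ := hw
      have h1 : nrm x < ρ := not_le.1 fun h => hz ⟨x, h, rfl⟩
      rw [hF x hx, stp_zero, sub_zero]
      rw [div_le_one hρ]
      exact h1.le
    · simp only [η]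
      rw [if_neg hw]
  refine ⟨η, ?_, hF, hone⟩
  rw [contDiff_iff_contDiffAt]
  intro z
  by_cases hw : z ∈ C.F '' Ext C.r
  · have h1 : Sm (Ext C.r : Set (E 3)) nrm :=
      sm_nrm.mono fun x hx => ne_zero_of_nrm_pos (lt_trans C.r_pos hx)
    have h2 : Sm (Ext C.r : Set (E 3)) (fun x => 1 - stp (nrm x / ρ)) :=
      contDiffOn_const.sub (stp_sm.comp_contDiffOn (h1.div_const _))
    have h3 : Sm (C.F '' Ext C.r) η := C.chartF.sm_of_comp (h2.congr hF)
    exact h3.contDiffAt ((C.chartF.isOpen_image (isOpen_Ext _) subset_rfl).mem_nhds hw)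
  · have hn : z ∉ C.F '' {x | ρ ≤ nrm x} := fun h' =>
      hw (image_mono (fun x hx => lt_of_lt_of_le h hx) h')
    refine (contDiffAt_const (c := (1 : ℝ))).congr_of_eventuallyEq ?_
    filter_upwards [(C.isClosed_far h).isOpen_compl.mem_nhds hn] with y h1
    exact hone y h1

theorem scal_F {x : E 3} (hx : x ∈ (Ext C.r : Set (E 3))) : scal C.g (C.F x) = 0 := by
  rw [← scal_pull C.met' C.chartF C.mapsF' hx, ← scal_flat x]
  refine scal_congr ?_
  filter_upwards [(isOpen_Ext C.r).mem_nhds hx] with y hy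
  exact C.flatF y hy

theorem gam_F {u v : E 3 → ℝ} (hu : Sm C.Ω u) (hv : Sm C.Ω v) {x : E 3}
    (hx : x ∈ (Ext C.r : Set (E 3))) :
    gam C.g u v (C.F x) = ∑ i, pd i (fun y => u (C.F y)) x * pd i (fun y => v (C.F y)) x := by
  rw [← gam_pull C.met' C.chartF C.mapsF' hu hv hx, ← gam_flat]
  exact gam_congr (C.flatF x hx) EventuallyEq.rfl EventuallyEq.rfl

theorem integral_F {A : Set (E 3)} (hA : MeasurableSet A) (hAW : A ⊆ Ext C.r) (f : E 3 → ℝ) :
    (IntegrableOn (fun z => f z * vol C.g z) (C.F '' A) ↔ IntegrableOn (fun x => f (C.F x)) A) ∧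
      ∫ z in C.F '' A, f z * vol C.g z = ∫ x in A, f (C.F x) := by
  have e : EqOn (fun y => f (C.F y) * vol (pull C.F C.g) y) (fun y => f (C.F y)) A := by
    intro y hy
    simp only [vol, C.flatF y (hAW hy), Matrix.det_one, Real.sqrt_one, mul_one]
  constructor
  · rw [C.chartF.integrableOn_iff C.g hA hAW f]
    exact integrableOn_congr_fun e hA
  · rw [C.chartF.integral C.g hA hAW f]
    exact setIntegral_congr_fun hA e

theorem gam_Φ {u v : E 3 → ℝ} (hu : Sm C.Ω u) (hv : Sm C.Ω v) {x : E 3} (hx : x ∈ C.W) :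
    gam C.g u v (C.Φ x) =
      gam (cyl φ C.N) (fun y => u (C.Φ y)) (fun y => v (C.Φ y)) x := by
  rw [← gam_pull C.met' C.chart' C.mapsΦ hu hv hx]
  exact gam_congr (C.cylΦ x hx) EventuallyEq.rfl EventuallyEq.rfl

theorem lap_Φ {u : E 3 → ℝ} (hu : Sm C.Ω u) {x : E 3} (hx : x ∈ C.W) :
    lap C.g u (C.Φ x) = lap (cyl φ C.N) (fun y => u (C.Φ y)) x := by
  rw [← lap_pull C.met' C.chart' C.mapsΦ hu hx]
  refine lap_congr ?_ EventuallyEq.rfl
  filter_upwards [C.isOpen_W.mem_nhds hx] with y hy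
  exact C.cylΦ y hy

end Cap

end Pool.Agent.P.MP_56a1cd_gt
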