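import Pool.Agent.P.MP_56a1cd_gt.CapC

namespace Pool.Agent.P.MP_56a1cd_gt

open MeasureTheory Matrix Set Filter Topology
open scoped ContDiff ENNReal

variable {m n : ℕ}

/-! PLAN. `mapsTo`: `mem_Ω`, `odd`, `refl_mem_W`, `nrm_refl`, `side`. `fl_nonneg`: `hasDerivAt_ray`, the function
`s ↦ G (Φ (exp s • p))` is at most `T` for `s ≥ a` with equality at `a`. `gam_bp`: `gam_Φ`, `gam_cyl`, `tg_eq_zero`. -/

namespace CapDAux

variable {φ : E 3 → ℝ} {C : Cap φ} (P : Pot C)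

theorem refl_fix {a : ℝ} {x : E 3} (hx : nrm x = Real.exp a) : refl a x = x := by
  have h : x ⬝ᵥ x = Real.exp (2 * a) := by
    rw [← nrm_sq, hx, ← Real.exp_nat_mul]
    norm_num
  rw [refl, h, div_self (Real.exp_pos _).ne', one_smul]

theorem G_eq {x : E 3} (hW : x ∈ C.W) (hx : nrm x = Real.exp C.a) : P.G (C.Φ x) = P.T := by
  have h := P.odd x hW
  rw [refl_fix hx] at h
  linarith

theorem bp_W (C : Cap φ) {p : E 3} (hp : p ∈ sph) : Real.exp C.a • p ∈ C.W :=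
  C.exp_smul_mem_W hp (by linarith [C.h_pos]) (by linarith [C.h_pos])

theorem da {x : E 3} (hW : x ∈ C.W) : DifferentiableAt ℝ (fun y => P.G (C.Φ y)) x :=
  sm_da C.isOpen_W (C.chart'.sm_comp C.mapsΦ P.sm) hW

theorem ne_zero_of_sph {p : E 3} (hp : p ∈ sph) : p ≠ 0 :=
  ne_zero_of_nrm_pos (by rw [mem_sph_iff.1 hp]; exact one_pos)

end CapDAux

namespace Pot

open CapDAux

variable {φ : E 3 → ℝ} {C : Cap φ} (P : Pot C)

theorem mapsTo : MapsTo P.G C.Ω (Ioo 0 (2 * P.T)) := by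
  intro z hz
  have hT := P.T_pos
  rcases C.mem_Ω hz with h | ⟨x, hx, hlt, rfl⟩
  · exact ⟨P.pos z h, by linarith [P.le z h]⟩
  · have h0 := C.ne_zero_of_mem_W hx
    have hp := nrm_pos h0
    have hr := C.refl_mem_W hx
    have hn : nrm (refl C.a x) = Real.exp (2 * C.a) / nrm x := by
      rw [refl, nrm_smul, ← nrm_sq, abs_of_pos (by positivity)]
      field_simp
    have hM : C.Φ (refl C.a x) ∈ C.M := by
      refine (C.side _ hr).2 ?_
      rw [hn, le_div_iff₀ hp, two_mul, Real.exp_add]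
      exact mul_le_mul_of_nonneg_left hlt.le (Real.exp_pos _).le
    have h1 := P.pos _ hM
    have h2 := P.le _ hM
    rw [P.odd x hx] at h1 h2
    exact ⟨by linarith, by linarith⟩

theorem G_bp {p : E 3} (hp : p ∈ sph) : P.G (C.bp p) = P.T :=
  G_eq P (bp_W C hp) (nrm_exp_smul _ hp)

theorem fl_nonneg {p : E 3} (hp : p ∈ sph) : 0 ≤ C.fl P.G p := by
  have hd := hasDerivAt_ray (p := p) (s := C.a) (da P (bp_W C hp))
  have hN := C.N_pos p (ne_zero_of_sph hp)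
  refine div_nonneg (neg_nonneg.2 ?_) hN.le
  have ht := hd.hasDerivWithinAt (s := Ioi C.a)
  rw [hasDerivWithinAt_iff_tendsto_slope' (by simp)] at ht
  refine le_of_tendsto ht ?_
  have hev : ∀ᶠ s in 𝓝[>] C.a, s ∈ Ioo C.a (C.a + C.h) :=
    Ioo_mem_nhdsGT (by linarith [C.h_pos])
  filter_upwards [hev] with s hs
  have hW := C.exp_smul_mem_W hp (s := s) (by linarith [C.h_pos, hs.1]) hs.2
  have hM : C.Φ (Real.exp s • p) ∈ C.M := by
    refine (C.side _ hW).2 ?_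
    rw [nrm_exp_smul _ hp]
    exact Real.exp_le_exp.2 hs.1.le
  rw [slope_def_field, G_eq P (bp_W C hp) (nrm_exp_smul _ hp)]
  exact div_nonpos_of_nonpos_of_nonneg (by linarith [P.le _ hM]) (by linarith [hs.1])

theorem gam_bp {p : E 3} (hp : p ∈ sph) : gam C.g P.G P.G (C.bp p) = C.fl P.G p ^ 2 := by
  have hW := bp_W C hp
  have h0 := C.ne_zero_of_mem_W hW
  have hn := nrm_exp_smul C.a hp
  rw [Cap.bp, C.gam_Φ P.sm P.sm hW, gam_cyl h0 (C.N_pos _ h0), tg_eq_zero φ h0 (da P hW), Cap.fl,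
    C.N_hom.hom p _ (Real.exp_pos _)]
  · ring
  · filter_upwards [C.isOpen_W.mem_nhds hW] with y hy e
    rw [G_eq P hy (e.trans hn), G_eq P hW hn]

theorem integrableOn {f : E 3 → ℝ} (hf : ContinuousOn f C.M) {σ : ℝ} (hσ : 0 < σ)
    (h0 : ∀ x ∈ C.M, P.G x < σ → f x = 0) : IntegrableOn f C.M :=
  integrableOn_of_cpt C.closed.measurableSet (P.cpt σ hσ) (fun _ hx => hx.1)
    (hf.mono fun _ hx => hx.1) fun x hx hn => h0 x hx (not_le.1 fun h => hn ⟨hx, h⟩)

/-- The scalar curvature vanishes where the potential is small. -/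
theorem exists_scal_zero : ∃ σ : ℝ, 0 < σ ∧ ∀ x ∈ C.M, P.G x < σ → scal C.g x = 0 := by
  have hK := C.isCompact_core (r' := C.r + 1) (by linarith)
  have hc : ContinuousOn P.G (C.M \ C.F '' Ext (C.r + 1)) :=
    P.sm.continuousOn.mono fun x hx => C.M_sub hx.1
  obtain ⟨σ, hσ, h⟩ := hK.exists_forall_le' hc (a := 0) fun x hx => P.pos x hx.1
  refine ⟨σ, hσ, fun x hx hlt => ?_⟩
  by_cases hm : x ∈ C.F '' Ext (C.r + 1)
  · obtain ⟨y, hy, rfl⟩ := hm
    refine C.scal_F ?_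
    have : C.r + 1 < nrm y := hy
    change C.r < nrm y
    linarith
  · exact absurd (h x ⟨hx, hm⟩) (not_le.2 hlt)

end Pot

end Pool.Agent.P.MP_56a1cd_gt
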