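import Pool.Agent.P.MP_56a1cd_gt.Rules

namespace Pool.Agent.P.MP_56a1cd_gt

open MeasureTheory Matrix Set Filter Topology
open scoped ContDiff ENNReal

variable {m n : ℕ}

/-! PLAN. Comparison of positive definite matrices. Inverse: for `ξ`, put `v = A⁻¹ ξ`; then
`ξ ⬝ A⁻¹ ξ = ξ ⬝ v ≤ √(ξ B⁻¹ ξ) √(v B v) ≤ √(ξ B⁻¹ ξ) √((1+μ) v A v)`. Determinant: write
`B = Cᵀ C` with `C` invertible; `C⁻ᵀ A C⁻¹` is positive definite with eigenvalues at most `1 + μ`, its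
determinant is their product. -/

namespace CompAux

theorem conj_q (J A : Matrix (Fin n) (Fin n) ℝ) (v : Fin n → ℝ) :
    v ⬝ᵥ (Jᵀ * A * J) *ᵥ v = (J *ᵥ v) ⬝ᵥ A *ᵥ (J *ᵥ v) := by
  rw [← mulVec_mulVec, ← mulVec_mulVec, dotProduct_mulVec, vecMul_transpose]

theorem inv_le {μ : ℝ} {A B : Matrix (Fin n) (Fin n) ℝ} (hμ : 0 ≤ μ) (hA : A.PosDef) (hB : B.PosDef)
    (h : ∀ v : Fin n → ℝ, v ⬝ᵥ B *ᵥ v ≤ (1 + μ) * (v ⬝ᵥ A *ᵥ v)) (ξ : Fin n → ℝ) :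
    ξ ⬝ᵥ A⁻¹ *ᵥ ξ ≤ (1 + μ) * (ξ ⬝ᵥ B⁻¹ *ᵥ ξ) := by
  have hdA : IsUnit A.det := (hA.det_pos.ne').isUnit
  have hdB : IsUnit B.det := (hB.det_pos.ne').isUnit
  set v := A⁻¹ *ᵥ ξ with hv
  have e1 : A *ᵥ v = ξ := by rw [hv, mulVec_mulVec, mul_nonsing_inv _ hdA, one_mulVec]
  have e2 : B⁻¹ *ᵥ (B *ᵥ v) = v := by rw [mulVec_mulVec, nonsing_inv_mul _ hdB, one_mulVec]
  have c := RulesAux.cs hB.inv ξ (B *ᵥ v)
  rw [e2, dotProduct_comm (B *ᵥ v) v] at c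
  have h1 := h v
  rw [e1, dotProduct_comm v ξ] at h1
  have p1 : 0 ≤ ξ ⬝ᵥ v := RulesAux.q_nonneg hA.inv ξ
  have p2 : 0 ≤ ξ ⬝ᵥ B⁻¹ *ᵥ ξ := RulesAux.q_nonneg hB.inv ξ
  rcases p1.eq_or_lt with p0 | p0
  · rw [← p0]; positivity
  · have c2 : (ξ ⬝ᵥ v) * (ξ ⬝ᵥ v) ≤ ((1 + μ) * (ξ ⬝ᵥ B⁻¹ *ᵥ ξ)) * (ξ ⬝ᵥ v) := by
      have := mul_le_mul_of_nonneg_left h1 p2
      nlinarith
    exact le_of_mul_le_mul_right c2 p0

theorem det_le_pow {c : ℝ} {M : Matrix (Fin n) (Fin n) ℝ} (hM : M.PosSemidef)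
    (h : ∀ v : Fin n → ℝ, v ⬝ᵥ M *ᵥ v ≤ c * (v ⬝ᵥ v)) : M.det ≤ c ^ n := by
  rw [hM.1.det_eq_prod_eigenvalues]
  have hle : ∀ i, hM.1.eigenvalues i ≤ c := by
    intro i
    have h1 := h (hM.1.eigenvectorBasis i)
    rw [hM.1.mulVec_eigenvectorBasis i, dotProduct_smul, smul_eq_mul] at h1
    have hn : (hM.1.eigenvectorBasis i : Fin n → ℝ) ⬝ᵥ (hM.1.eigenvectorBasis i) = 1 := by
      have h2 := (hM.1.eigenvectorBasis.orthonormal.1 i)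
      have h3 : ‖hM.1.eigenvectorBasis i‖ ^ 2 = 1 := by rw [h2]; norm_num
      rw [EuclideanSpace.real_norm_sq_eq] at h3
      rw [← h3]
      simp only [dotProduct, sq]
    rw [hn] at h1
    simpa using h1
  calc ∏ i, (hM.1.eigenvalues i : ℝ) ≤ ∏ _i : Fin n, c :=
        Finset.prod_le_prod (fun i _ => hM.eigenvalues_nonneg i) fun i _ => hle i
    _ = c ^ n := by simp

open scoped MatrixOrder in
theorem exists_fac {B : Matrix (Fin n) (Fin n) ℝ} (hB : B.PosDef) :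
    ∃ C : Matrix (Fin n) (Fin n) ℝ, B = Cᵀ * C := by
  obtain ⟨C, hC⟩ := CStarAlgebra.nonneg_iff_eq_star_mul_self.mp hB.posSemidef.nonneg
  refine ⟨C, ?_⟩
  rw [hC, star_eq_conjTranspose, conjTranspose_eq_transpose_of_trivial]

theorem abs_q_le {η : ℝ} {D : Matrix (Fin n) (Fin n) ℝ} (hD : ∀ i j, |D i j| ≤ η)
    (v : Fin n → ℝ) : |v ⬝ᵥ D *ᵥ v| ≤ n * η * (v ⬝ᵥ v) := by
  have e : v ⬝ᵥ D *ᵥ v = ∑ i, ∑ j, v i * (D i j * v j) := by
    simp only [dotProduct, mulVec, Finset.mul_sum]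
  have b : ∀ i j, |v i * (D i j * v j)| ≤ η * (v i * v i) / 2 + η * (v j * v j) / 2 := by
    intro i j
    have h0 : 0 ≤ η := (abs_nonneg _).trans (hD i j)
    rw [abs_mul, abs_mul]
    have h1 : |v i| * (|D i j| * |v j|) ≤ |v i| * (η * |v j|) := by
      gcongr
      exact hD i j
    have h2 : |v i| * |v j| ≤ (v i * v i) / 2 + (v j * v j) / 2 := by
      have a1 := abs_mul_abs_self (v i)
      have a2 := abs_mul_abs_self (v j)
      nlinarith [sq_nonneg (|v i| - |v j|)]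
    have h3 := mul_le_mul_of_nonneg_left h2 h0
    nlinarith
  rw [e]
  calc |∑ i, ∑ j, v i * (D i j * v j)| ≤ ∑ i, |∑ j, v i * (D i j * v j)| :=
        Finset.abs_sum_le_sum_abs _ _
    _ ≤ ∑ i, ∑ j, (η * (v i * v i) / 2 + η * (v j * v j) / 2) :=
        Finset.sum_le_sum fun i _ => (Finset.abs_sum_le_sum_abs _ _).trans
          (Finset.sum_le_sum fun j _ => b i j)
    _ = n * η * (v ⬝ᵥ v) := by
        simp only [Finset.sum_add_distrib, Finset.sum_const, Finset.card_univ, Fintype.card_fin,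
          nsmul_eq_mul, dotProduct, ← Finset.mul_sum, ← Finset.sum_div]
        ring

end CompAux

open CompAux

theorem Cmp.refl {μ : ℝ} (hμ : 0 ≤ μ) {A : Matrix (Fin n) (Fin n) ℝ} (hA : A.PosDef) :
    Cmp μ A A := by
  intro v
  have := RulesAux.q_nonneg hA v
  constructor <;> nlinarith [mul_nonneg hμ this]

theorem Cmp.symm {μ : ℝ} {A B : Matrix (Fin n) (Fin n) ℝ} (h : Cmp μ A B) : Cmp μ B A := fun v => ⟨(h v).2, (h v).1⟩

theorem Cmp.conj {μ : ℝ} {A B : Matrix (Fin n) (Fin n) ℝ} (h : Cmp μ A B)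
    (J : Matrix (Fin n) (Fin n) ℝ) : Cmp μ (Jᵀ * A * J) (Jᵀ * B * J) := by
  intro v
  rw [conj_q, conj_q]
  exact h _

theorem Cmp.of_conj {μ : ℝ} {A B J : Matrix (Fin n) (Fin n) ℝ} (hJ : J.det ≠ 0)
    (h : Cmp μ (Jᵀ * A * J) (Jᵀ * B * J)) : Cmp μ A B := by
  intro v
  have h1 := h (J⁻¹ *ᵥ v)
  rw [conj_q, conj_q, mulVec_mulVec, mul_nonsing_inv _ hJ.isUnit, one_mulVec] at h1
  exact h1

theorem Cmp.inv {μ : ℝ} {A B : Matrix (Fin n) (Fin n) ℝ} (h : Cmp μ A B) (hμ : 0 ≤ μ)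
    (hA : A.PosDef) (hB : B.PosDef) : Cmp μ A⁻¹ B⁻¹ := fun ξ =>
  ⟨inv_le hμ hA hB (fun v => (h v).2) ξ, inv_le hμ hB hA (fun v => (h v).1) ξ⟩

theorem Cmp.det_le {μ : ℝ} {A B : Matrix (Fin n) (Fin n) ℝ} (h : Cmp μ A B) (hμ : 0 ≤ μ)
    (hA : A.PosDef) (hB : B.PosDef) : A.det ≤ (1 + μ) ^ n * B.det := by
  obtain ⟨C, hC⟩ := exists_fac hB
  have hd : B.det = C.det * C.det := by rw [hC, det_mul, det_transpose]
  have hC0 : C.det ≠ 0 := by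
    intro h0
    have := hB.det_pos
    rw [hd, h0] at this
    simp at this
  have hu : IsUnit C.det := hC0.isUnit
  have hM : (C⁻¹ᵀ * A * C⁻¹).PosSemidef := by
    have := hA.posSemidef.conjTranspose_mul_mul_same C⁻¹
    rwa [conjTranspose_eq_transpose_of_trivial] at this
  have hq : ∀ v : Fin n → ℝ, v ⬝ᵥ (C⁻¹ᵀ * A * C⁻¹) *ᵥ v ≤ (1 + μ) * (v ⬝ᵥ v) := by
    intro v
    have h1 := ((h.conj C⁻¹) v).1
    have e : C⁻¹ᵀ * B * C⁻¹ = 1 := by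
      rw [hC, ← Matrix.mul_assoc, ← transpose_mul, mul_nonsing_inv _ hu, transpose_one,
        Matrix.one_mul, mul_nonsing_inv _ hu]
    rwa [e, one_mulVec] at h1
  have h2 := det_le_pow hM hq
  rw [det_mul, det_mul, det_transpose, det_nonsing_inv, Ring.inverse_eq_inv'] at h2
  have e2 : A.det = (C.det⁻¹ * A.det * C.det⁻¹) * (C.det * C.det) := by
    field_simp
  rw [e2, hd]
  exact mul_le_mul_of_nonneg_right h2 (mul_self_nonneg _)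

theorem Cmp.vol_le {μ : ℝ} {g g' : Met 3} {x : E 3} (h : Cmp μ (g x) (g' x)) (hμ : 0 ≤ μ)
    (hA : (g x).PosDef) (hB : (g' x).PosDef) : vol g x ≤ (1 + μ) ^ 2 * vol g' x := by
  have h1 := h.det_le hμ hA hB
  have hB0 := hB.det_pos.le
  unfold vol
  rw [← Real.sqrt_sq (show 0 ≤ (1 + μ) ^ 2 by positivity), ← Real.sqrt_mul (by positivity)]
  refine Real.sqrt_le_sqrt (h1.trans (mul_le_mul_of_nonneg_right ?_ hB0))
  rw [← pow_mul]
  exact pow_le_pow_right₀ (by linarith) (by norm_num)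

theorem Cmp.energy_le {μ : ℝ} {g g' : Met 3} {x : E 3} (h : Cmp μ (g x) (g' x)) (hμ : 0 ≤ μ)
    (hA : (g x).PosDef) (hB : (g' x).PosDef) (f : E 3 → ℝ) :
    gam g f f x * vol g x ≤ (1 + μ) ^ 3 * (gam g' f f x * vol g' x) := by
  have h1 := h.vol_le hμ hA hB
  have h2 : gam g f f x ≤ (1 + μ) * gam g' f f x := by
    rw [gam_eq_dot, gam_eq_dot]
    exact (h.inv hμ hA hB _).1
  have h3 := gam_nonneg hB f
  have h4 : 0 ≤ vol g x := Real.sqrt_nonneg _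
  calc gam g f f x * vol g x ≤ ((1 + μ) * gam g' f f x) * ((1 + μ) ^ 2 * vol g' x) :=
        mul_le_mul h2 h1 h4 (by positivity)
    _ = (1 + μ) ^ 3 * (gam g' f f x * vol g' x) := by ring

/-- Symmetric matrices that are entrywise close to a uniformly positive matrix are positive
definite and comparable to it. -/
theorem cmp_of_close {μ c : ℝ} (hμ : 0 < μ) (hc : 0 < c) :
    ∃ η : ℝ, 0 < η ∧ ∀ A B : Matrix (Fin n) (Fin n) ℝ, A.PosDef →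
      (∀ v : Fin n → ℝ, c * (v ⬝ᵥ v) ≤ v ⬝ᵥ A *ᵥ v) → (∀ i j, B i j = B j i) →
      (∀ i j, |B i j - A i j| ≤ η) → B.PosDef ∧ Cmp μ A B := by
  have hθ : 0 < μ / (1 + μ) := by positivity
  refine ⟨μ / (1 + μ) * c / (n + 1), by positivity, fun A B hA hc' hs hB => ?_⟩
  have key : ∀ v : Fin n → ℝ,
      |v ⬝ᵥ B *ᵥ v - v ⬝ᵥ A *ᵥ v| ≤ μ / (1 + μ) * (v ⬝ᵥ A *ᵥ v) := by
    intro v
    have h1 := abs_q_le (D := B - A) (fun i j => hB i j) v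
    rw [sub_mulVec, dotProduct_sub] at h1
    refine h1.trans ?_
    have hv : 0 ≤ v ⬝ᵥ v := Finset.sum_nonneg fun i _ => mul_self_nonneg _
    have h2 : (n : ℝ) * (μ / (1 + μ) * c / (n + 1)) ≤ μ / (1 + μ) * c := by
      rw [mul_div_assoc', div_le_iff₀ (by positivity)]
      have : 0 < μ / (1 + μ) * c := by positivity
      nlinarith
    calc (n : ℝ) * (μ / (1 + μ) * c / (n + 1)) * (v ⬝ᵥ v) ≤ μ / (1 + μ) * c * (v ⬝ᵥ v) :=
          mul_le_mul_of_nonneg_right h2 hv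
      _ = μ / (1 + μ) * (c * (v ⬝ᵥ v)) := by ring
      _ ≤ _ := mul_le_mul_of_nonneg_left (hc' v) hθ.le
  have lo : ∀ v : Fin n → ℝ, v ⬝ᵥ A *ᵥ v ≤ (1 + μ) * (v ⬝ᵥ B *ᵥ v) := by
    intro v
    have h1 := (abs_le.mp (key v)).1
    have h2 : (1 + μ) * (μ / (1 + μ)) = μ := by field_simp
    have h3 := mul_le_mul_of_nonneg_left h1 (show 0 ≤ 1 + μ by positivity)
    have h4 : (1 + μ) * -(μ / (1 + μ) * (v ⬝ᵥ A *ᵥ v)) = -(μ * (v ⬝ᵥ A *ᵥ v)) := by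
      rw [mul_neg, ← mul_assoc, h2]
    rw [h4] at h3
    linarith
  refine ⟨?_, fun v => ⟨lo v, ?_⟩⟩
  · refine Matrix.PosDef.of_dotProduct_mulVec_pos ?_ fun v hv => ?_
    · ext i j
      simpa using hs j i
    · have h1 := RulesAux.q_pos hA hv
      have h2 := lo v
      have h3 : 0 < (1 + μ) * (v ⬝ᵥ B *ᵥ v) := h1.trans_le h2
      have h4 : 0 < v ⬝ᵥ B *ᵥ v := (mul_pos_iff_of_pos_left (by positivity)).mp h3
      simpa using h4
  · have h1 := (abs_le.mp (key v)).2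
    have h2 : μ / (1 + μ) ≤ μ := div_le_self hμ.le (by linarith)
    have h3 := mul_le_mul_of_nonneg_right h2 (RulesAux.q_nonneg hA v)
    linarith

end Pool.Agent.P.MP_56a1cd_gt
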