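import Pool.Agent.P.MP_56a1cd_gt.Riem
import Pool.Agent.P.MP_56a1cd_gt.Comp

namespace Pool.Agent.P.MP_56a1cd_gt

open MeasureTheory Matrix Set Filter Topology
open scoped ContDiff ENNReal

variable {m n : ℕ}

/-! The metric is cut off to the flat one on the annulus between the radii `R` and `2 R`. -/

namespace ModEAux

/-- Bounds for a function and its derivatives up to order two at the scale `R`. -/
def Bd (R K : ℝ) (f : E n → ℝ) (x : E n) : Prop :=
  |f x| ≤ K ∧ (∀ k, |pd k f x| ≤ K / R) ∧ ∀ k l, |pd k (pd l f) x| ≤ K / R ^ 2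

theorem abs_mul_le {a b A B : ℝ} (ha : |a| ≤ A) (hb : |b| ≤ B) : |a * b| ≤ A * B := by
  rw [abs_mul]
  exact mul_le_mul ha hb (abs_nonneg _) ((abs_nonneg _).trans ha)

theorem Bd.mul {U : Set (E n)} (hU : IsOpen U) {f g : E n → ℝ} (hf : Sm U f) (hg : Sm U g)
    {x : E n} (hx : x ∈ U) {R K L : ℝ} (hR : 0 < R) (a : Bd R K f x) (b : Bd R L g x) :
    Bd R (4 * (K * L)) (fun y => f y * g y) x := by
  obtain ⟨a0, a1, a2⟩ := a
  obtain ⟨b0, b1, b2⟩ := b
  have hKL : 0 ≤ K * L := mul_nonneg ((abs_nonneg _).trans a0) ((abs_nonneg _).trans b0)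
  refine ⟨(abs_mul_le a0 b0).trans (by linarith), fun k => ?_, fun k l => ?_⟩
  · rw [pd_mul (sm_da hU hf hx) (sm_da hU hg hx)]
    refine (abs_add_le _ _).trans ?_
    have h1 := abs_mul_le (a1 k) b0
    have h2 := abs_mul_le a0 (b1 k)
    have e1 : K / R * L = K * L / R := by ring
    have e2 : K * (L / R) = K * L / R := by ring
    have e3 : 4 * (K * L) / R = 4 * (K * L / R) := by ring
    have h3 : 0 ≤ K * L / R := by positivity
    linarith
  · rw [pd_congr_on hU (h := fun y => pd l f y * g y + f y * pd l g y)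
      (fun y hy => pd_mul (sm_da hU hf hy) (sm_da hU hg hy) l) hx]
    have d1 := sm_da hU hf hx
    have d2 := sm_da hU hg hx
    have d3 := sm_da hU (sm_pd hU hf l) hx
    have d4 := sm_da hU (sm_pd hU hg l) hx
    rw [pd_add (d3.fun_mul d2) (d1.fun_mul d4), pd_mul d3 d2, pd_mul d1 d4]
    have h1 := abs_mul_le (a2 k l) b0
    have h2 := abs_mul_le (a1 l) (b1 k)
    have h3 := abs_mul_le (a1 k) (b1 l)
    have h4 := abs_mul_le a0 (b2 k l)
    have e1 : K / R ^ 2 * L = K * L / R ^ 2 := by ring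
    have e2 : K / R * (L / R) = K * L / R ^ 2 := by ring
    have e3 : K * (L / R ^ 2) = K * L / R ^ 2 := by ring
    have e4 : 4 * (K * L) / R ^ 2 = 4 * (K * L / R ^ 2) := by ring
    rw [abs_le] at h1 h2 h3 h4 ⊢
    constructor <;> linarith [h1.1, h1.2, h2.1, h2.2, h3.1, h3.2, h4.1, h4.2]

/-- The cut-off function. -/
noncomputable def cut (R : ℝ) (x : E n) : ℝ := 1 - stp (R⁻¹ * nrm x)

theorem cut_mem (R : ℝ) (x : E n) : 0 ≤ cut R x ∧ cut R x ≤ 1 := by
  have := stp_mem (R⁻¹ * nrm x)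
  unfold cut
  constructor <;> linarith [this.1, this.2]

theorem cut_one {R : ℝ} (hR : 0 < R) {x : E n} (hx : nrm x ≤ R) : cut R x = 1 := by
  rw [cut, stp_zero (by rwa [inv_mul_le_iff₀ hR, mul_one]), sub_zero]

theorem cut_zero {R : ℝ} (hR : 0 < R) {x : E n} (hx : 2 * R ≤ nrm x) : cut R x = 0 := by
  rw [cut, stp_one (by rwa [le_inv_mul_iff₀ hR, mul_comm]), sub_self]

theorem isOpen_ne' : IsOpen {x : E n | x ≠ 0} := isOpen_ne

theorem sm_cut (R : ℝ) : Sm {x : E n | x ≠ 0} (cut R) :=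
  contDiffOn_const.sub (stp_sm.comp_contDiffOn (contDiffOn_const.mul sm_nrm))

theorem stp_d (t : ℝ) : HasDerivAt stp (deriv stp t) t :=
  (stp_sm.differentiable (by simp) t).hasDerivAt

theorem stp_dd (t : ℝ) : HasDerivAt (deriv stp) (deriv (deriv stp) t) t :=
  ((contDiff_infty_iff_deriv.1 stp_sm).2.differentiable (by simp) t).hasDerivAt

theorem pd_cut (R : ℝ) {x : E n} (hx : x ≠ 0) (l : Fin n) :
    pd l (cut R) x = -R⁻¹ * (deriv stp (R⁻¹ * nrm x) * (x l * (nrm x)⁻¹)) := by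
  have d : DifferentiableAt ℝ (fun y : E n => R⁻¹ * nrm y) x :=
    (sm_da isOpen_ne' sm_nrm hx).const_mul _
  have := pd_comp_real (β := fun t => 1 - stp t) d ((stp_d _).const_sub 1) l
  rw [pd_const_mul, pd_nrm hx] at this
  rw [show cut R = fun y : E n => 1 - stp (R⁻¹ * nrm y) from rfl, this]
  ring

theorem abs_unit {x : E n} (hx : x ≠ 0) (l : Fin n) : |x l * (nrm x)⁻¹| ≤ 1 := by
  have h := nrm_pos hx
  rw [abs_mul, abs_of_pos (inv_pos.2 h), mul_inv_le_iff₀ h, one_mul]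
  exact abs_le_nrm x l

theorem bd_cut : ∃ K : ℝ, ∀ R : ℝ, 0 < R → ∀ x : E n, R ≤ nrm x → Bd R K (cut R) x := by
  obtain ⟨C, hC, hb⟩ := stp_deriv_bdd
  refine ⟨3 * C + 1, fun R hR x hRx => ?_⟩
  have hp : 0 < nrm x := hR.trans_le hRx
  have hx : x ≠ 0 := ne_zero_of_nrm_pos hp
  have hi : |-R⁻¹| ≤ R⁻¹ := by rw [abs_neg, abs_of_pos (inv_pos.2 hR)]
  have hi' : |R⁻¹| ≤ R⁻¹ := by rw [abs_of_pos (inv_pos.2 hR)]
  have hn : |(nrm x)⁻¹| ≤ R⁻¹ := by
    rw [abs_of_pos (inv_pos.2 hp)]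
    exact inv_anti₀ hR hRx
  refine ⟨?_, fun k => ?_, fun k l => ?_⟩
  · rw [abs_of_nonneg (cut_mem R x).1]
    linarith [(cut_mem R x).2]
  · rw [pd_cut R hx]
    refine (abs_mul_le hi (abs_mul_le (hb _).1 (abs_unit hx k))).trans ?_
    rw [div_eq_inv_mul]
    exact mul_le_mul_of_nonneg_left (by linarith) (inv_pos.2 hR).le
  · rw [pd_congr_on isOpen_ne' (fun y hy => pd_cut R hy l) hx, pd_const_mul]
    have d0 : DifferentiableAt ℝ (nrm : E n → ℝ) x := sm_da isOpen_ne' sm_nrm hx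
    have d : DifferentiableAt ℝ (fun y : E n => R⁻¹ * nrm y) x := d0.const_mul _
    have d1 : DifferentiableAt ℝ (fun y : E n => deriv stp (R⁻¹ * nrm y)) x :=
      (stp_dd _).differentiableAt.comp x d
    have d2 : DifferentiableAt ℝ (fun y : E n => y l) x := sm_da isOpen_ne' (sm_coord _ l) hx
    have d3 : DifferentiableAt ℝ (fun y : E n => (nrm y)⁻¹) x := d0.inv hp.ne'
    rw [pd_mul d1 (d2.fun_mul d3), pd_mul d2 d3, pd_comp_real d (stp_dd _), pd_const_mul,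
      pd_comp_real d0 (hasDerivAt_inv hp.ne'), pd_nrm hx, pd_coord]
    have e : x l * (-(nrm x ^ 2)⁻¹ * (x k / nrm x)) =
        -((x l * (nrm x)⁻¹) * ((x k * (nrm x)⁻¹) * (nrm x)⁻¹)) := by
      field_simp
    rw [e, div_eq_mul_inv (x k)]
    have h1 := abs_mul_le (abs_mul_le (hb (R⁻¹ * nrm x)).2 (abs_mul_le hi' (abs_unit hx k)))
      (abs_unit hx l)
    have h2 : |(if k = l then (1 : ℝ) else 0)| ≤ 1 := by split_ifs <;> simp
    have h3 := abs_mul_le h2 hn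
    have h4 := abs_mul_le (abs_unit hx l) (abs_mul_le (abs_unit hx k) hn)
    have h5 : |(if k = l then (1 : ℝ) else 0) * (nrm x)⁻¹ +
        -((x l * (nrm x)⁻¹) * ((x k * (nrm x)⁻¹) * (nrm x)⁻¹))| ≤ 2 * R⁻¹ := by
      refine (abs_add_le _ _).trans ?_
      rw [abs_neg]
      linarith
    have h6 := abs_mul_le (hb (R⁻¹ * nrm x)).1 h5
    refine (abs_mul_le hi ((abs_add_le _ _).trans (add_le_add h1 h6))).trans ?_
    have e2 : R⁻¹ * (C * (R⁻¹ * 1) * 1 + C * (2 * R⁻¹)) = 3 * C / R ^ 2 := by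
      field_simp
      ring
    rw [e2]
    exact div_le_div_of_nonneg_right (by linarith) (by positivity)

theorem bd_decay {h : Met 3} {r : ℝ} (hd : Decay h r) : ∃ K : ℝ, ∀ R : ℝ, 1 ≤ R → r < R →
    ∀ x : E 3, R ≤ nrm x → ∀ i j,
      Bd R K (fun y => h y i j - (1 : Matrix (Fin 3) (Fin 3) ℝ) i j) x := by
  obtain ⟨C, τ, hC, h1, -, hb⟩ := hd
  refine ⟨C, fun R hR hr x hx i j => ?_⟩
  have key : ∀ a : ℕ, C * nrm x ^ (-τ - a) ≤ C / R ^ a := by
    intro a
    rw [div_eq_mul_inv]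
    refine mul_le_mul_of_nonneg_left ?_ hC.le
    calc nrm x ^ (-τ - a) ≤ nrm x ^ (-(a : ℝ)) :=
          Real.rpow_le_rpow_of_exponent_le (hR.trans hx) (by linarith)
      _ = (nrm x ^ a)⁻¹ := by rw [Real.rpow_neg (nrm_nonneg x), Real.rpow_natCast]
      _ ≤ (R ^ a)⁻¹ := inv_anti₀ (by positivity) (pow_le_pow_left₀ (by linarith) hx a)
  have e : ∀ l, pd l (fun y => h y i j - (1 : Matrix (Fin 3) (Fin 3) ℝ) i j) =
      pd l fun y => h y i j := fun l => funext fun y => by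
    simp only [sub_eq_add_neg]
    exact pd_add_const _ _ _ _
  have hrx := hr.trans_le hx
  refine ⟨?_, fun k => ?_, fun k l => ?_⟩
  · have := key 0
    rw [Matrix.one_apply]
    refine (hb x hrx i j i i).1.trans ?_
    simpa using this
  · have := key 1
    rw [e]
    refine (hb x hrx i j k k).2.1.trans ?_
    simpa using this
  · have := key 2
    rw [e]
    refine (hb x hrx i j k l).2.2.trans ?_
    simpa using this

theorem abs_entry_le {G : Matrix (Fin n) (Fin n) ℝ} (hG : G.PosDef) {M : ℝ}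
    (hM : ∀ v : Fin n → ℝ, v ⬝ᵥ G *ᵥ v ≤ M * (v ⬝ᵥ v)) (i j : Fin n) : |G i j| ≤ M := by
  have hs : G j i = G i j := by simpa using hG.1.apply i j
  have hd : ∀ i, G i i ≤ M := fun i => by simpa using hM (Pi.single i 1)
  have hq : ∀ s : ℝ, 0 ≤ G i i + s * G i j + (s * G j i + s * s * G j j) := by
    intro s
    have := hG.posSemidef.dotProduct_mulVec_nonneg (Pi.single i 1 + s • Pi.single j 1)
    simp only [star_trivial, mulVec_add, mulVec_smul, add_dotProduct, dotProduct_add,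
      smul_dotProduct, dotProduct_smul, single_dotProduct, mulVec_single_one, col_apply,
      smul_eq_mul, one_mul] at this
    linarith
  have h1 := hq 1
  have h2 := hq (-1)
  rw [abs_le]
  constructor <;> linarith [hd i, hd j]

end ModEAux

open ModEAux

theorem decay_close {h : Met 3} {r : ℝ} (hd : Decay h r) {η : ℝ} (hη : 0 < η) :
    ∃ R, r < R ∧ ∀ x, R ≤ nrm x → ∀ i j, |h x i j - (1 : Matrix (Fin 3) (Fin 3) ℝ) i j| ≤ η := by
  obtain ⟨C, τ, hC, h1, -, hb⟩ := hd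
  have ht : Tendsto (fun t : ℝ => C * t ^ (-τ)) atTop (𝓝 (C * 0)) :=
    (tendsto_rpow_neg_atTop (by linarith)).const_mul C
  rw [mul_zero] at ht
  obtain ⟨R, hR⟩ := eventually_atTop.1 (ht.eventually (ge_mem_nhds hη))
  refine ⟨max R (r + 1), by simp, fun x hx i j => ?_⟩
  rw [max_le_iff] at hx
  rw [Matrix.one_apply]
  exact (hb x (by linarith [hx.2]) i j i i).1.trans (hR _ hx.1)

theorem mod_end {h : Met 3} {r : ℝ} (hr : 0 < r) (hh : IsMet h (Ext r)) (hd : Decay h r) {μ ϖ : ℝ}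
    (hμ : 0 < μ) (hϖ : 0 < ϖ) (R₀ : ℝ) :
    ∃ (h' : Met 3) (R : ℝ), R₀ ≤ R ∧ r < R ∧ IsMet h' (Ext r) ∧
      (∀ x ∈ (Ext r : Set (E 3)), nrm x ≤ R → h' x = h x) ∧ (∀ x, 2 * R ≤ nrm x → h' x = 1) ∧
      (∀ x ∈ (Ext r : Set (E 3)), Cmp μ (h x) (h' x)) ∧
      ∫ x in {x | R ≤ nrm x ∧ nrm x ≤ 2 * R}, scal h' x ^ 2 * vol h' x ≤ ϖ := by
  obtain ⟨η₁, hη₁, c₁⟩ := cmp_of_close (n := 3) one_pos one_pos
  obtain ⟨η₂, hη₂, c₂⟩ := cmp_of_close (n := 3) hμ (half_pos one_pos)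
  obtain ⟨R₁, hR₁, hc⟩ := decay_close hd (lt_min hη₁ hη₂)
  obtain ⟨K₁, hK₁⟩ := bd_cut (n := 3)
  obtain ⟨K₂, hK₂⟩ := bd_decay hd
  obtain ⟨C, hC, hs⟩ := scal_bdd 3
  obtain ⟨K, hK⟩ : ∃ K, K = 4 * (K₁ * K₂) := ⟨_, rfl⟩
  obtain ⟨Q, hQ⟩ : ∃ Q, Q = (C * (2 ^ 2 * K + 2 ^ 3 * K ^ 2)) ^ 2 * 4 := ⟨_, rfl⟩
  obtain ⟨R, hR0, hR1, hR2, hR3⟩ : ∃ R, R₀ ≤ R ∧ R₁ ≤ R ∧ 1 ≤ R ∧ 64 * Q / ϖ ≤ R :=
    ⟨max (max R₀ R₁) (max 1 (64 * Q / ϖ)), by simp, by simp, by simp, by simp⟩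
  have hR : 0 < R := by linarith
  have hrR : r < R := hR₁.trans_le hR1
  obtain ⟨h', hh'⟩ : ∃ h' : Met 3, ∀ x i j, h' x i j =
      cut R x * (h x i j - (1 : Matrix (Fin 3) (Fin 3) ℝ) i j) +
        (1 : Matrix (Fin 3) (Fin 3) ℝ) i j :=
    ⟨fun x => Matrix.of fun i j => _, fun x i j => rfl⟩
  have hsub : (Ext r : Set (E 3)) ⊆ {x | x ≠ 0} := fun x hx => ne_zero_of_nrm_pos (hr.trans hx)
  have s1 : Sm (Ext r) (cut R : E 3 → ℝ) := (sm_cut R).mono hsub
  have s2 : ∀ i j, Sm (Ext r) fun y => h y i j - (1 : Matrix (Fin 3) (Fin 3) ℝ) i j :=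
    fun i j => (hh.sm i j).sub contDiffOn_const
  have e1 : ∀ x, nrm x ≤ R → h' x = h x := fun x hx => by
    ext i j
    rw [hh', cut_one hR hx]
    ring
  have hone : ∀ v : Fin 3 → ℝ, 1 * (v ⬝ᵥ v) ≤ v ⬝ᵥ (1 : Matrix (Fin 3) (Fin 3) ℝ) *ᵥ v :=
    fun v => by rw [one_mulVec, one_mul]
  have hsym : ∀ x ∈ (Ext r : Set (E 3)), ∀ i j, h' x i j = h' x j i := fun x hx i j => by
    rw [hh', hh', hh.symm hx i j, Matrix.one_apply, Matrix.one_apply]
    simp only [eq_comm]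
  have hfar : ∀ x ∈ (Ext r : Set (E 3)), R ≤ nrm x → (h' x).PosDef ∧ Cmp μ (h x) (h' x) := by
    intro x hx hRx
    have hcx := hc x (hR1.trans hRx)
    have a := (c₁ 1 (h x) PosDef.one hone (hh.symm hx) fun i j =>
      (hcx i j).trans (min_le_left _ _)).2
    refine c₂ (h x) (h' x) (hh.pos x hx) (fun v => ?_) (hsym x hx) fun i j => ?_
    · have := (a v).1
      rw [one_mulVec] at this
      linarith
    · have e : h' x i j - h x i j =
          (cut R x - 1) * (h x i j - (1 : Matrix (Fin 3) (Fin 3) ℝ) i j) := by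
        rw [hh']
        ring
      have b : |cut R x - 1| ≤ 1 := by
        have := cut_mem R x
        rw [abs_le]
        constructor <;> linarith [this.1, this.2]
      rw [e]
      refine (abs_mul_le b (hcx i j)).trans ?_
      rw [one_mul]
      exact min_le_right _ _
  have hall : ∀ x ∈ (Ext r : Set (E 3)), (h' x).PosDef ∧ Cmp μ (h x) (h' x) := by
    intro x hx
    rcases le_total (nrm x) R with a | a
    · rw [e1 x a]
      exact ⟨hh.pos x hx, Cmp.refl hμ.le (hh.pos x hx)⟩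
    · exact hfar x hx a
  have hmet : IsMet h' (Ext r) := by
    refine ⟨hh.opn, fun i j => ?_, fun x hx => (hall x hx).1⟩
    simp only [hh']
    exact (s1.mul (s2 i j)).add contDiffOn_const
  refine ⟨h', R, hR0, hrR, hmet, fun x _ hx => e1 x hx, fun x hx => ?_,
    fun x hx => (hall x hx).2, ?_⟩
  · ext i j
    rw [hh', cut_zero hR hx]
    ring
  have hpt : ∀ x ∈ {x : E 3 | R ≤ nrm x ∧ nrm x ≤ 2 * R},
      ‖scal h' x ^ 2 * vol h' x‖ ≤ Q / R ^ 4 := by
    intro x hx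
    have hxr : x ∈ (Ext r : Set (E 3)) := hrR.trans_le hx.1
    have hp := hmet.pos x hxr
    have a : Cmp 1 1 (h' x) := by
      refine (c₁ 1 (h' x) PosDef.one hone (hsym x hxr) fun i j => ?_).2
      have b : |cut R x| ≤ 1 := by
        rw [abs_of_nonneg (cut_mem R x).1]
        exact (cut_mem R x).2
      rw [hh', add_sub_cancel_right]
      refine (abs_mul_le b (hc x (hR1.trans hx.1) i j)).trans ?_
      rw [one_mul]
      exact min_le_left _ _
    have hv : vol h' x ≤ 4 := by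
      have := Cmp.vol_le (g := h') (g' := flat) a.symm zero_le_one hp PosDef.one
      rw [vol_flat] at this
      linarith
    have hi : ∀ i j, |(h' x)⁻¹ i j| ≤ 2 := by
      refine abs_entry_le hp.inv fun v => ?_
      have := (a.inv zero_le_one PosDef.one hp v).2
      rw [inv_one, one_mulVec] at this
      linarith
    have hb : ∀ i j, Bd R K (fun y =>
        cut R y * (h y i j - (1 : Matrix (Fin 3) (Fin 3) ℝ) i j)) x := fun i j =>
      hK ▸ Bd.mul hh.opn s1 (s2 i j) hxr hR (hK₁ R hR x hx.1) (hK₂ R hR2 hrR x hx.1 i j)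
    have hK0 : 0 ≤ K := (abs_nonneg _).trans (hb 0 0).1
    have e : ∀ l i j, pd l (fun y => h' y i j) = pd l fun y =>
        cut R y * (h y i j - (1 : Matrix (Fin 3) (Fin 3) ℝ) i j) := fun l i j => funext fun y => by
      simp only [hh']
      exact pd_add_const _ _ _ _
    have hsc := hs h' _ x 2 (K / R) (K / R ^ 2) hmet hxr zero_le_two (by positivity) hi
      (fun k i j => by rw [e]; exact (hb i j).2.1 k)
      (fun k l i j => by rw [e]; exact (hb i j).2.2 k l)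
    have h2 : scal h' x ^ 2 ≤ (C * (2 ^ 2 * (K / R ^ 2) + 2 ^ 3 * (K / R) ^ 2)) ^ 2 := by
      rw [← sq_abs]
      exact pow_le_pow_left₀ (abs_nonneg _) hsc 2
    rw [Real.norm_of_nonneg (mul_nonneg (sq_nonneg _) (vol_nonneg _ _))]
    refine (mul_le_mul h2 hv (vol_nonneg _ _) (sq_nonneg _)).trans (le_of_eq ?_)
    rw [hQ]
    field_simp
  have hball : {x : E 3 | R ≤ nrm x ∧ nrm x ≤ 2 * R} ⊆ Metric.closedBall 0 (2 * R) :=
    fun x hx => mem_closedBall_zero_iff.2 ((norm_le_nrm x).trans hx.2)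
  have hvol : volume (Metric.closedBall (0 : E 3) (2 * R)) = ENNReal.ofReal (64 * R ^ 3) := by
    rw [Real.volume_pi_closedBall _ (by positivity)]
    congr 1
    rw [Fintype.card_fin]
    ring
  have hle := (measure_mono hball).trans hvol.le
  have hre : volume.real {x : E 3 | R ≤ nrm x ∧ nrm x ≤ 2 * R} ≤ 64 * R ^ 3 :=
    ENNReal.toReal_le_of_le_ofReal (by positivity) hle
  have hQ0 : 0 ≤ Q := by rw [hQ]; positivity
  refine (le_abs_self _).trans ((norm_setIntegral_le_of_norm_le_const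
    (hle.trans_lt ENNReal.ofReal_lt_top) hpt).trans ?_)
  refine (mul_le_mul_of_nonneg_left hre (by positivity)).trans ?_
  rw [div_le_iff₀ hϖ] at hR3
  have e : Q / R ^ 4 * (64 * R ^ 3) = 64 * Q / R := by field_simp
  rw [e, div_le_iff₀ hR]
  linarith

end Pool.Agent.P.MP_56a1cd_gt
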