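import Pool.Agent.P.MP_56a1cd_gt.ChartI
import Pool.Agent.P.MP_56a1cd_gt.ModE

namespace Pool.Agent.P.MP_56a1cd_gt

open MeasureTheory Matrix Set Filter Topology
open scoped ContDiff ENNReal

variable {m n : ℕ}

theorem interior_eq {ρ : E 3 → ℝ} (h : IsExterior ρ) :
    interior {x | 0 ≤ ρ x} = {x | 0 < ρ x} ∧ frontier {x | 0 ≤ ρ x} = {x | ρ x = 0} := by
  have hc := h.smooth.continuous
  have h1 : interior {x | 0 ≤ ρ x} = {x | 0 < ρ x} := by
    refine Subset.antisymm (fun x hx => lt_of_le_of_ne (a := (0 : ℝ)) (interior_subset hx :) fun e => ?_)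
      (interior_maximal (fun x (hx : 0 < ρ x) => hx.le) (isOpen_lt continuous_const hc))
    obtain ⟨i, hi⟩ := h.regular x e.symm
    have hm : IsLocalMin ρ x :=
      Filter.mem_of_superset (mem_interior_iff_mem_nhds.1 hx) fun y hy => e.symm.trans_le hy
    exact hi ((fderiv_eq_zero_iff ρ x).1 hm.fderiv_eq_zero i)
  refine ⟨h1, ?_⟩
  rw [(isClosed_le continuous_const hc).frontier_eq, h1]
  exact Set.ext fun x => ⟨fun hx => le_antisymm (not_lt.1 hx.2) hx.1, fun hx => ⟨hx.ge, hx.not_gt⟩⟩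

namespace ProperAux

theorem cpt (a b : ℝ) : IsCompact {x : E 3 | a ≤ nrm x ∧ nrm x ≤ b} :=
  (isCompact_nrm_le b).inter_left (isClosed_le continuous_const continuous_nrm)

theorem volume_Ext (a : ℝ) : volume (Ext a : Set (E 3)) = ⊤ := by
  by_contra h
  have h1 := measure_univ_le_add_compl (μ := volume) (Ext a : Set (E 3))
  rw [measure_univ_of_isAddLeftInvariant, top_le_iff, ENNReal.add_eq_top] at h1
  exact ((measure_mono (s := (Ext a)ᶜ) fun x (hx : ¬a < nrm x) => not_lt.1 hx).trans_lt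
    (isCompact_nrm_le a).measure_lt_top).ne (h1.resolve_left h)

variable {F : E 3 → E 3} {r : ℝ} {g : Met 3}

/-- The far region has infinite volume, so its image is unbounded. -/
theorem not_bdd (hc : IsChart F (Ext r)) (h1 : ∀ i j, ContDiff ℝ ∞ fun x => g x i j)
    (h2 : ∀ x i j, g x i j = g x j i) (hd : Decay (pull F g) r) (a R : ℝ)
    (h : ∀ x, a < nrm x → nrm (F x) ≤ R) : False := by
  obtain ⟨η, hη, H⟩ := cmp_of_close (n := 3) one_pos one_pos
  obtain ⟨b, hb, hb'⟩ := decay_close hd hη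
  have hA : (Ext (max a b) : Set (E 3)) ⊆ Ext r := fun x hx =>
    (hb.trans_le (le_max_right a b)).trans hx
  have e := hc.lintegral g (isOpen_Ext _).measurableSet hA fun _ => 1
  simp only [one_mul] at e
  have hv : Continuous (vol g) :=
    (Continuous.matrix_det (continuous_matrix fun i j => (h1 i j).continuous)).sqrt
  have h3 := (lintegral_mono_set (μ := volume) (f := fun x => ENNReal.ofReal (vol g x))
    (s := F '' Ext (max a b)) (by
      rintro _ ⟨x, hx, rfl⟩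
      exact h x ((le_max_left a b).trans_lt hx))).trans_lt
    (hv.continuousOn.integrableOn_compact (isCompact_nrm_le R)).lintegral_lt_top
  rw [e] at h3
  refine ((setLIntegral_mono' (f := fun _ => ENNReal.ofReal (1 / 4))
    (isOpen_Ext _).measurableSet fun y hy => ENNReal.ofReal_le_ofReal ?_).trans_lt h3).ne ?_
  · have hs : (pull F g y)ᵀ = pull F g y := by
      rw [pull, transpose_mul, transpose_mul, transpose_transpose,
        show (g (F y))ᵀ = g (F y) from Matrix.ext fun i j => h2 _ j i, Matrix.mul_assoc]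
    obtain ⟨h4, h5⟩ := H 1 (pull F g y) PosDef.one (fun v => by simp)
      (fun i j => congrFun (congrFun hs j) i) (hb' y ((le_max_right a b).trans (le_of_lt hy)))
    have h6 := Cmp.vol_le (g := flat) (x := y) h5 zero_le_one PosDef.one h4
    have h7 : vol (flat : Met 3) y = 1 := by simp [vol, flat]
    linarith
  · rw [setLIntegral_const, volume_Ext, ENNReal.mul_top (by simp)]

/-- On a shell that avoids the level `R` the image is on one side. -/
theorem side (hr : 0 < r) (hc : IsChart F (Ext r)) {I : Set ℝ} (hI : IsConnected I)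
    (h1 : ∀ t ∈ I, r < t) {R : ℝ} (h2 : ∀ x, nrm x ∈ I → nrm (F x) ≠ R) :
    (∀ x, nrm x ∈ I → R < nrm (F x)) ∨ ∀ x, nrm x ∈ I → nrm (F x) < R :=
  (isConnected_shell hI fun t ht => hr.trans (h1 t ht)).isPreconnected.mapsTo_Ioi_or_Iio
    (continuous_nrm.comp_continuousOn (hc.sm.continuousOn.mono fun _ hx => h1 _ hx)) h2

end ProperAux

open ProperAux in
theorem proper {ρ : E 3 → ℝ} {g : Met 3} (h : IsExterior ρ) (hne : ∃ x, ρ x = 0)
    (hg : IsMetricOn g {x | 0 ≤ ρ x}) (hf : AsympFlat {x | 0 ≤ ρ x} g) :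
    ∃ (F : E 3 → E 3) (r : ℝ), 0 < r ∧ IsChart F (Ext r) ∧ MapsTo F (Ext r) {x | 0 < ρ x} ∧
      Decay (pull F g) r ∧ (∀ r', r < r' → Bornology.IsBounded ({x | 0 ≤ ρ x} \ F '' Ext r')) ∧
      (∀ r', r < r' → IsClosed (F '' {x | r' ≤ nrm x})) ∧
      ∀ R : ℝ, ∃ r', ∀ x, r < nrm x → r' < nrm x → R < nrm (F x) := by
  obtain ⟨-, K, r, F, F', hK, -, hr, hb, hi, hF, hF', hd⟩ := hf
  have hc : IsChart F (Ext r) :=
    isChart_of_leftInverse (isOpen_Ext r) hF hF' hb.mapsTo hi.1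
  have ho : IsOpen ({x | 0 ≤ ρ x} \ K) :=
    hb.image_eq ▸ hc.isOpen_image (isOpen_Ext r) Subset.rfl
  have hp : {x | 0 ≤ ρ x} \ K ⊆ {x | 0 < ρ x} :=
    (interior_eq h).1 ▸ interior_maximal sdiff_subset ho
  have hT : ∀ a b, r < a → IsCompact (F '' {x | a ≤ nrm x ∧ nrm x ≤ b}) := fun a b ha =>
    (cpt a b).image_of_continuousOn (hF.continuousOn.mono fun x hx => ha.trans_le hx.1)
  obtain ⟨R₀, h0⟩ := isBounded_iff_nrm.1 (hK.isBounded.union h.bounded)
  have hout : ∀ x, R₀ < nrm x → x ∈ {x | 0 ≤ ρ x} \ K := fun x hx =>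
    ⟨le_of_not_gt (a := (0 : ℝ)) fun e => hx.not_ge (h0 x (Or.inr e)), fun e => hx.not_ge (h0 x (Or.inl e))⟩
  have key : ∀ R, R₀ < R → ∃ a b, r < a ∧ (∀ x, r < nrm x → nrm (F x) = R → a ≤ nrm x) ∧
      ∀ x, r < nrm x → b < nrm x → R < nrm (F x) := fun R hR => by
    have hS : {x | R ≤ nrm x ∧ nrm x ≤ R} ⊆ {x | 0 ≤ ρ x} \ K := fun x hx =>
      hout x (hR.trans_le hx.1)
    have h1 := (cpt R R).image_of_continuousOn (hF'.continuousOn.mono hS)
    have h2 : ∀ x, r < nrm x → nrm (F x) = R → x ∈ F' '' {x | R ≤ nrm x ∧ nrm x ≤ R} :=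
      fun x hx e => ⟨F x, ⟨e.ge, e.le⟩, hi.1 hx⟩
    obtain ⟨a, ha, h3⟩ := h1.exists_forall_le' continuous_nrm.continuousOn (a := r) (by
      rintro _ ⟨y, hy, rfl⟩
      obtain ⟨x, hx, rfl⟩ := hb.surjOn (hS hy)
      rwa [hi.1 hx])
    obtain ⟨b, h4⟩ := isBounded_iff_nrm.1 h1.isBounded
    refine ⟨a, max r b, ha, fun x hx e => h3 x (h2 x hx e), fun x _ => ?_⟩
    refine (side hr hc (isConnected_Ioi (a := max r b)) (fun t ht => (le_max_left r b).trans_lt ht)
      fun x hx e => ?_).resolve_right (fun H => ?_) x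
    · exact ((le_max_right r b).trans_lt hx).not_ge
        (h4 x (h2 x ((le_max_left r b).trans_lt hx) e))
    · exact not_bdd hc hg.smooth hg.symm hd _ R fun x hx => (H x hx).le
  have h6 : ∀ R : ℝ, ∃ r', ∀ x, r < nrm x → r' < nrm x → R < nrm (F x) := fun R => by
    obtain ⟨-, b, -, -, H⟩ := key (max R (R₀ + 1)) (lt_max_of_lt_right (lt_add_one _))
    exact ⟨b, fun x h1 h2 => (le_max_left _ _).trans_lt (H x h1 h2)⟩
  refine ⟨F, r, hr, hc, fun x hx => hp (hb.mapsTo hx), hd, fun r' _ => ?_, fun r' hr' => ?_, h6⟩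
  · obtain ⟨a, b, ha, h1, h2⟩ := key (R₀ + 1) (lt_add_one _)
    have h3 : ∀ x, nrm x ∈ Ioo r a → nrm (F x) < R₀ + 1 := by
      refine (side hr hc (isConnected_Ioo ha) (fun t ht => ht.1)
        fun x hx e => hx.2.not_ge (h1 x hx.1 e)).resolve_left fun H => ?_
      have e : {x | 0 ≤ ρ x} \ K = F '' {x | a ≤ nrm x ∧ nrm x ≤ b} ∪ {x | R₀ + 1 ≤ nrm x} := by
        refine Subset.antisymm (fun y hy => or_iff_not_imp_right.2 fun hn => ?_)
          (union_subset ?_ fun x hx => hout x ((lt_add_one _).trans_le hx))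
        · obtain ⟨x, hx, rfl⟩ := hb.surjOn hy
          exact ⟨x, ⟨not_lt.1 fun e => hn (H x ⟨hx, e⟩).le, not_lt.1 fun e => hn (h2 x hx e).le⟩,
            rfl⟩
        · rintro _ ⟨x, hx, rfl⟩
          exact hb.mapsTo (ha.trans_le hx.1)
      obtain ⟨x, hx⟩ := hne
      obtain ⟨y, hy⟩ := (isConnected_shell (isConnected_Ioo ha) fun t ht => hr.trans ht.1).nonempty
      have h4 := IsClopen.eq_univ ⟨e ▸ (hT a b ha).isClosed.union
        (isClosed_le continuous_const continuous_nrm), ho⟩ ⟨F y, hb.mapsTo hy.1⟩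
      exact (hp (h4 ▸ mem_univ x)).ne' hx
    refine ((hK.isBounded.union (isCompact_nrm_le (R₀ + 1)).isBounded).union
      (hT a r' ha).isBounded).subset fun y hy => ?_
    by_cases hyK : y ∈ K
    · exact Or.inl (Or.inl hyK)
    obtain ⟨x, hx, rfl⟩ := hb.surjOn ⟨hy.1, hyK⟩
    by_cases e : nrm x < a
    · exact Or.inl (Or.inr (h3 x ⟨hx, e⟩).le)
    · exact Or.inr ⟨x, ⟨not_lt.1 e, not_lt.1 fun e' => hy.2 ⟨x, e', rfl⟩⟩, rfl⟩
  · refine isClosed_of_closure_subset fun y hy => ?_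
    obtain ⟨b, H⟩ := h6 (nrm y + 1)
    refine image_mono (fun x hx => hx.1) ((hT r' b hr').isClosed.closure_subset_iff.2 ?_
      ((isOpen_lt continuous_nrm continuous_const).closure_inter ⟨hy, lt_add_one (nrm y)⟩))
    rintro _ ⟨⟨x, hx, rfl⟩, h1⟩
    exact ⟨x, ⟨hx, not_lt.1 fun e => (H x (hr'.trans_le hx) e).not_gt h1⟩, rfl⟩

end Pool.Agent.P.MP_56a1cd_gt
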