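import Pool.Agent.P.MP_56a1cd_gt.Green
import Pool.Agent.P.MP_56a1cd_gt.Comp
import Pool.Agent.P.MP_56a1cd_gt.Proper

namespace Pool.Agent.P.MP_56a1cd_gt

open MeasureTheory Matrix Set Filter Topology
open scoped ContDiff ENNReal

variable {m n : ℕ}

/-! The capacity is bounded by the energy of a truncation of the potential. -/

namespace CapLeAux

theorem exists_beta {σ T : ℝ} (hσ : 0 < σ) (hT : 2 * σ ≤ T) :
    ∃ β β' : ℝ → ℝ, (∀ t, HasDerivAt β (β' t) t) ∧ (∀ t, 0 ≤ β' t ∧ β' t ≤ 1) ∧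
      (∀ t, t ≤ σ → β t = 0 ∧ β' t = 0) ∧ T - 2 * σ ≤ β T := by
  have hc : Continuous (fun τ : ℝ => stp (τ / σ)) :=
    stp_sm.continuous.comp (continuous_id.div_const σ)
  have hz : ∀ t, t ≤ σ → stp (t / σ) = 0 := fun t ht => stp_zero ((div_le_one hσ).mpr ht)
  refine ⟨fun t => ∫ τ in (0 : ℝ)..t, stp (τ / σ), fun t => stp (t / σ),
    fun t => (hc.integral_hasStrictDerivAt 0 t).hasDerivAt, fun t => stp_mem _,
    fun t ht => ⟨?_, hz t ht⟩, ?_⟩
  · have h1 : ∫ τ in (0 : ℝ)..t, stp (τ / σ) = ∫ τ in (0 : ℝ)..t, (0 : ℝ) := by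
      refine intervalIntegral.integral_congr fun τ hτ => hz τ ?_
      exact hτ.2.trans (max_le hσ.le ht)
    simp only
    rw [h1, intervalIntegral.integral_zero]
  · have h1 := intervalIntegral.integral_add_adjacent_intervals
      (hc.intervalIntegrable (μ := volume) 0 (2 * σ)) (hc.intervalIntegrable (2 * σ) T)
    have h2 : 0 ≤ ∫ τ in (0 : ℝ)..(2 * σ), stp (τ / σ) :=
      intervalIntegral.integral_nonneg (by linarith) fun τ _ => (stp_mem _).1
    have h3 : ∫ τ in (2 * σ)..T, stp (τ / σ) = ∫ τ in (2 * σ)..T, (1 : ℝ) := by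
      refine intervalIntegral.integral_congr fun τ hτ => stp_one ?_
      rw [le_div_iff₀ hσ]
      exact (le_min le_rfl hT).trans hτ.1
    rw [intervalIntegral.integral_const, smul_eq_mul, mul_one] at h3
    simp only
    linarith

theorem isLip_of_bound {M : Set (E 3)} {g : Met 3} (hg : IsMetricOn g M) {ψ : E 3 → ℝ}
    (hψ : ∀ x ∈ M, DifferentiableAt ℝ ψ x) {D : ℝ} (hD : ∀ x ∈ M, gam g ψ ψ x ≤ D) :
    IsLip M g ψ := by
  refine ⟨√D, fun c hc hm => ?_⟩
  have hcd : ∀ t, DifferentiableAt ℝ c t := fun t => hc.differentiable one_ne_zero t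
  have hc' : Continuous (deriv c) := hc.continuous_deriv_one
  have hd : ∀ t ∈ Icc (0 : ℝ) 1, HasDerivAt (fun s => ψ (c s)) (fderiv ℝ ψ (c t) (deriv c t)) t :=
    fun t ht => (hψ _ (hm ht)).hasFDerivAt.comp_hasDerivAt t (hcd t).hasDerivAt
  have hq : Continuous fun t => deriv c t ⬝ᵥ (g (c t)).mulVec (deriv c t) := by
    have hgc : Continuous fun t => g (c t) :=
      continuous_pi fun i => continuous_pi fun j => (hg.smooth i j).continuous.comp hc.continuous
    exact hc'.dotProduct (hgc.matrix_mulVec hc')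
  have hs : Continuous fun t => √D * √(deriv c t ⬝ᵥ (g (c t)).mulVec (deriv c t)) :=
    continuous_const.mul hq.sqrt
  rw [← intervalIntegral.integral_const_mul]
  refine norm_sub_le_integral_of_norm_deriv_le_of_le (f := fun s => ψ (c s)) zero_le_one
    (fun t ht => (hd t ht).continuousAt.continuousWithinAt)
    (fun t ht => (hd t (Ioo_subset_Icc_self ht)).differentiableAt.differentiableWithinAt)
    (Eventually.of_forall fun t ht => ?_) (hs.intervalIntegrable 0 1)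
  have ht' := Ioo_subset_Icc_self ht
  rw [(hd t ht').deriv]
  refine (abs_fderiv_le (hg.pos _ (hm ht')) ψ (deriv c t)).trans ?_
  exact mul_le_mul_of_nonneg_right (Real.sqrt_le_sqrt (hD _ (hm ht'))) (Real.sqrt_nonneg _)

theorem capacity_le_aux {φ ρ : E 3 → ℝ} (hφ : Hom0 φ) {g : Met 3} (h : IsExterior ρ)
    (hg : IsMetricOn g {x | 0 ≤ ρ x}) {C : Cap φ} (P : Pot C) (hM : C.M = {x | 0 ≤ ρ x}) {μ : ℝ}
    (hμ : 0 ≤ μ) (hc : ∀ x ∈ C.M, Cmp μ (g x) (C.g x)) {σ : ℝ} (hσ : 0 < σ) (hT : 2 * σ < P.T) :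
    capacity ρ g ≤ ENNReal.ofReal ((1 + μ) ^ 3 * P.T / (P.T - 2 * σ) ^ 2) := by
  obtain ⟨β, β', hβ, hβ1, hβ0, hβT⟩ := exists_beta hσ hT.le
  have hb : 0 < β P.T := by linarith
  have hγ : ∀ t, HasDerivAt (fun s => 1 - β s / β P.T) (-(β' t / β P.T)) t :=
    fun t => ((hβ t).div_const _).const_sub 1
  have hG : ∀ x ∈ C.M, DifferentiableAt ℝ P.G x := fun x hx => sm_da C.isOpen_Ω P.sm (C.M_sub hx)
  have hgam : ∀ (g' : Met 3), ∀ x ∈ C.M,
      gam g' (fun y => 1 - β (P.G y) / β P.T) (fun y => 1 - β (P.G y) / β P.T) x =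
        (β' (P.G x) / β P.T) ^ 2 * gam g' P.G P.G x := by
    intro g' x hx
    rw [gam_comp_left g' (hG x hx) (hγ _), gam_comp_right g' (hG x hx) (hγ _)]
    ring
  have hsq : ∀ t, (β' t / β P.T) ^ 2 ≤ 1 / (P.T - 2 * σ) ^ 2 := by
    intro t
    rw [div_pow]
    have h1 : β' t ^ 2 ≤ 1 := pow_le_one₀ (hβ1 t).1 (hβ1 t).2
    have h2 : (P.T - 2 * σ) ^ 2 ≤ β P.T ^ 2 := pow_le_pow_left₀ (by linarith) hβT 2
    exact div_le_div₀ zero_le_one h1 (pow_pos (by linarith) 2) h2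
  have hgp : ∀ x ∈ C.M, (g x).PosDef := fun x hx => hg.pos x (hM ▸ hx)
  have hCp : ∀ x ∈ C.M, (C.g x).PosDef := fun x hx => C.met'.pos x (C.M_sub hx)
  have hK := P.cpt σ hσ
  obtain ⟨D, hD⟩ := hK.bddAbove_image ((C.met'.sm_gam P.sm P.sm).continuousOn.mono
    fun x hx => C.M_sub hx.1)
  have hlip : IsLip {x | 0 ≤ ρ x} g (fun y => 1 - β (P.G y) / β P.T) := by
    refine isLip_of_bound hg (D := 1 / (P.T - 2 * σ) ^ 2 * ((1 + μ) * |D|)) ?_ ?_
    · intro x hx
      rw [← hM] at hx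
      exact (hγ _).differentiableAt.comp x (hG x hx)
    · intro x hx
      rw [← hM] at hx
      rw [hgam g x hx]
      by_cases hle : σ ≤ P.G x
      · have h1 : gam C.g P.G P.G x ≤ |D| :=
          (hD (mem_image_of_mem _ ⟨hx, hle⟩)).trans (le_abs_self D)
        have h2 : gam g P.G P.G x ≤ (1 + μ) * gam C.g P.G P.G x := by
          rw [gam_eq_dot, gam_eq_dot]
          exact (((hc x hx).inv hμ (hgp x hx) (hCp x hx)) _).1
        have h3 : gam g P.G P.G x ≤ (1 + μ) * |D| :=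
          h2.trans (mul_le_mul_of_nonneg_left h1 (by linarith))
        exact mul_le_mul (hsq _) h3 (gam_nonneg (hgp x hx) _) (by positivity)
      · rw [(hβ0 _ (not_le.mp hle).le).2, zero_div, zero_pow two_ne_zero, zero_mul]
        positivity
  have hzero : ∀ x, ρ x = 0 → 1 - β (P.G x) / β P.T = 0 := by
    intro x hx
    have h1 : x ∈ frontier C.M := by
      rw [hM, (interior_eq h).2]
      exact hx
    rw [C.frontier_eq] at h1
    obtain ⟨p, hp, rfl⟩ := h1
    rw [P.G_bp hp, div_self hb.ne', sub_self]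
  have hlim : Tendsto (fun y => 1 - β (P.G y) / β P.T)
      (cocompact (E 3) ⊓ principal {x | 0 ≤ ρ x}) (nhds 1) := by
    refine tendsto_const_nhds.congr' (eventually_inf_principal.mpr ?_)
    filter_upwards [hK.compl_mem_cocompact] with x hx hx'
    have hxM : x ∈ C.M := by
      rw [hM]
      exact hx'
    have h1 : P.G x ≤ σ := (not_le.mp fun hle => hx ⟨hxM, hle⟩).le
    rw [(hβ0 _ h1).1, zero_div, sub_zero]
  refine (iInf_le _ ⟨fun y => 1 - β (P.G y) / β P.T, hlip, hzero, hlim⟩).trans ?_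
  simp only
  have hpi : 0 < 4 * Real.pi := by positivity
  have hle : ∫⁻ x in {x | 0 ≤ ρ x}, ENNReal.ofReal (gam g (fun y => 1 - β (P.G y) / β P.T)
      (fun y => 1 - β (P.G y) / β P.T) x * vol g x) ≤
      ENNReal.ofReal ((1 + μ) ^ 3 / (P.T - 2 * σ) ^ 2 * (4 * Real.pi * P.T)) := by
    rw [← hM, ← P.energy hφ, ← integral_const_mul,
      ofReal_integral_eq_lintegral_ofReal (P.int.const_mul _)]
    · refine setLIntegral_mono' C.closed.measurableSet fun x hx => ENNReal.ofReal_le_ofReal ?_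
      have h0 : 0 ≤ gam C.g P.G P.G x * vol C.g x :=
        mul_nonneg (gam_nonneg (hCp x hx) _) (vol_nonneg _ _)
      refine ((hc x hx).energy_le hμ (hgp x hx) (hCp x hx) _).trans ?_
      rw [hgam C.g x hx, mul_assoc, ← mul_assoc, div_eq_mul_one_div ((1 + μ) ^ 3)]
      exact mul_le_mul_of_nonneg_right
        (mul_le_mul_of_nonneg_left (hsq _) (by positivity)) h0
    · refine (ae_restrict_iff' C.closed.measurableSet).mpr (Eventually.of_forall fun x hx => ?_)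
      have h0 : 0 ≤ gam C.g P.G P.G x * vol C.g x :=
        mul_nonneg (gam_nonneg (hCp x hx) _) (vol_nonneg _ _)
      exact mul_nonneg (by positivity) h0
  refine (mul_le_mul_right hle _).trans ?_
  rw [← ENNReal.ofReal_mul (by positivity)]
  refine ENNReal.ofReal_le_ofReal (le_of_eq ?_)
  field_simp

end CapLeAux

theorem capacity_le {φ ρ : E 3 → ℝ} (hφ : Hom0 φ) {g : Met 3} (h : IsExterior ρ)
    (hg : IsMetricOn g {x | 0 ≤ ρ x}) {C : Cap φ} (P : Pot C) (hM : C.M = {x | 0 ≤ ρ x}) {μ : ℝ}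
    (hμ : 0 ≤ μ) (hc : ∀ x ∈ C.M, Cmp μ (g x) (C.g x)) :
    capacity ρ g ≤ ENNReal.ofReal ((1 + μ) ^ 3 / P.T) := by
  have hT := P.T_pos
  have h1 : ContinuousAt (fun σ : ℝ => (1 + μ) ^ 3 * P.T / (P.T - 2 * σ) ^ 2) 0 := by
    refine continuousAt_const.div (by fun_prop) ?_
    rw [mul_zero, sub_zero]
    positivity
  have h2 : (1 + μ) ^ 3 * P.T / (P.T - 2 * 0) ^ 2 = (1 + μ) ^ 3 / P.T := by
    rw [mul_zero, sub_zero]
    field_simp
  have h3 : Tendsto (fun σ : ℝ => ENNReal.ofReal ((1 + μ) ^ 3 * P.T / (P.T - 2 * σ) ^ 2))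
      (𝓝[>] 0) (𝓝 (ENNReal.ofReal ((1 + μ) ^ 3 / P.T))) := by
    rw [← h2]
    exact ENNReal.tendsto_ofReal (h1.tendsto.mono_left nhdsWithin_le_nhds)
  refine ge_of_tendsto h3 ?_
  filter_upwards [Ioo_mem_nhdsGT (show (0 : ℝ) < P.T / 2 by positivity)] with σ hσ
  exact CapLeAux.capacity_le_aux hφ h hg P hM hμ hc hσ.1 (by linarith [hσ.2])

end Pool.Agent.P.MP_56a1cd_gt
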