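import Pool.Agent.P.MP_56a1cd_gt.CalcB

namespace Pool.Agent.P.MP_56a1cd_gt

open MeasureTheory Matrix Set Filter Topology
open scoped ContDiff ENNReal

variable {m n : ℕ}

section
variable {Φ : E n → E n} {W U : Set (E n)} {g : Met n}

namespace ChartAux

theorem strict (hW : IsOpen W) (hΦ : ContDiffOn ℝ ∞ Φ W) {y : E n} (hy : y ∈ W)
    (hd : (jac Φ y).det ≠ 0) :
    ∃ e : E n ≃L[ℝ] E n, HasStrictFDerivAt Φ (e : E n →L[ℝ] E n) y := by
  have h := hΦ.contDiffAt (hW.mem_nhds hy)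
  rw [jac_det (h.differentiableAt (by simp))] at hd
  exact ⟨(fderiv ℝ Φ y).toContinuousLinearEquivOfDetNeZero hd, h.hasStrictFDerivAt (by simp)⟩

end ChartAux

theorem IsChart.da (h : IsChart Φ W) {y : E n} (hy : y ∈ W) : DifferentiableAt ℝ Φ y :=
  (h.sm.contDiffAt (h.opn.mem_nhds hy)).differentiableAt (by simp)

theorem IsChart.mono (h : IsChart Φ W) {V : Set (E n)} (hV : IsOpen V) (hVW : V ⊆ W) :
    IsChart Φ V := ⟨hV, h.sm.mono hVW, h.inj.mono hVW, fun y hy => h.det y (hVW hy)⟩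

theorem IsChart.congr (h : IsChart Φ W) {Θ : E n → E n} (e : ∀ y ∈ W, Θ y = Φ y) :
    IsChart Θ W :=
  ⟨h.opn, h.sm.congr e, h.inj.congr fun y hy => (e y hy).symm, fun y hy =>
    jac_congr (eventuallyEq_of_mem (h.opn.mem_nhds hy) e) ▸ h.det y hy⟩

theorem IsChart.isOpen_preimage (h : IsChart Φ W) (hU : IsOpen U) : IsOpen (W ∩ Φ ⁻¹' U) :=
  h.sm.continuousOn.isOpen_inter_preimage h.opn hU

theorem IsChart.map_nhds (h : IsChart Φ W) {y : E n} (hy : y ∈ W) :
    Filter.map Φ (𝓝 y) = 𝓝 (Φ y) :=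
  (ChartAux.strict h.opn h.sm hy (h.det y hy)).elim fun _ he => he.map_nhds_eq_of_equiv

theorem IsChart.isOpen_image (h : IsChart Φ W) {A : Set (E n)} (hA : IsOpen A) (hAW : A ⊆ W) :
    IsOpen (Φ '' A) := by
  refine isOpen_iff_mem_nhds.2 ?_
  rintro _ ⟨y, hy, rfl⟩
  exact h.map_nhds (hAW hy) ▸ image_mem_map (hA.mem_nhds hy)

theorem IsChart.measurableSet_image (h : IsChart Φ W) {A : Set (E n)} (hA : MeasurableSet A)
    (hAW : A ⊆ W) : MeasurableSet (Φ '' A) :=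
  hA.image_of_continuousOn_injOn (h.sm.continuousOn.mono hAW) (h.inj.mono hAW)

theorem IsChart.volume_image_null (h : IsChart Φ W) {A : Set (E n)} (hAW : A ⊆ W)
    (hA : volume A = 0) : volume (Φ '' A) = 0 :=
  addHaar_image_eq_zero_of_differentiableOn_of_addHaar_eq_zero volume
    (fun _ hy => (h.da (hAW hy)).differentiableWithinAt) hA

theorem IsChart.left_inv (h : IsChart Φ W) {y : E n} (hy : y ∈ W) :
    Function.invFunOn Φ W (Φ y) = y := h.inj.leftInvOn_invFunOn hy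

/-- A smooth map with a smooth left inverse is a chart. -/
theorem isChart_of_leftInverse (hW : IsOpen W) (hΦ : ContDiffOn ℝ ∞ Φ W) {Θ : E n → E n}
    {V : Set (E n)} (hΘ : ContDiffOn ℝ ∞ Θ V) (hm : MapsTo Φ W V) (e : ∀ y ∈ W, Θ (Φ y) = y) :
    IsChart Φ W := by
  refine ⟨hW, hΦ, LeftInvOn.injOn (f₁' := Θ) e, fun y hy h0 => ?_⟩
  have h1 := (hΦ.contDiffAt (hW.mem_nhds hy)).differentiableAt (by simp)
  have h2 := (((hΘ.differentiableOn (by simp) _ (hm hy)).hasFDerivWithinAt.comp y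
    h1.hasFDerivAt.hasFDerivWithinAt hm).hasFDerivAt (hW.mem_nhds hy)).unique
    ((hasFDerivAt_id y).congr_of_eventuallyEq (eventuallyEq_of_mem (hW.mem_nhds hy) e))
  have h3 := congrArg (fun L : E n →L[ℝ] E n => LinearMap.det (L : E n →ₗ[ℝ] E n)) h2
  rw [jac_det h1, ContinuousLinearMap.det] at h0
  simp [LinearMap.det_comp, h0] at h3

theorem IsChart.inv_mapsTo (h : IsChart Φ W) : MapsTo (Function.invFunOn Φ W) (Φ '' W) W :=
  fun _ hx => Function.invFunOn_mem hx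

theorem IsChart.inv (h : IsChart Φ W) : IsChart (Function.invFunOn Φ W) (Φ '' W) := by
  refine isChart_of_leftInverse (h.isOpen_image h.opn Subset.rfl) ?_ h.sm h.inv_mapsTo
    fun _ hx => Function.invFunOn_eq hx
  rintro _ ⟨y, hy, rfl⟩
  obtain ⟨e, he⟩ := ChartAux.strict h.opn h.sm hy (h.det y hy)
  exact (((h.sm.contDiffAt (h.opn.mem_nhds hy)).to_localInverse he.hasFDerivAt
    (by simp)).congr_of_eventuallyEq (he.localInverse_unique (eventually_of_mem
      (h.opn.mem_nhds hy) fun _ hz => h.left_inv hz))).contDiffWithinAt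

theorem IsChart.comp (h : IsChart Φ W) {Θ : E n → E n} {V : Set (E n)} (h' : IsChart Θ V)
    (hm : MapsTo Θ V W) : IsChart (fun z => Φ (Θ z)) V :=
  ⟨h'.opn, h.sm.comp h'.sm hm, h.inj.comp h'.inj hm, fun y hy => by
    rw [jac_comp (h.da (hm hy)) (h'.da hy), det_mul]
    exact mul_ne_zero (h.det _ (hm hy)) (h'.det y hy)⟩

theorem IsChart.sm_comp (h : IsChart Φ W) (hm : MapsTo Φ W U) {f : E n → ℝ} (hf : Sm U f) :
    Sm W (fun y => f (Φ y)) := hf.comp h.sm hm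

/-- Smoothness can be tested in a chart. -/
theorem IsChart.sm_of_comp (h : IsChart Φ W) {f : E n → ℝ} (hf : Sm W (fun y => f (Φ y))) :
    Sm (Φ '' W) f :=
  (hf.comp h.inv.sm h.inv_mapsTo).congr fun _ hx => congrArg f (Function.invFunOn_eq hx).symm

/-- A smooth map that is injective with invertible derivative on a compact set is a chart near it. -/
theorem exists_chart_nhd (hW : IsOpen W) (hΦ : ContDiffOn ℝ ∞ Φ W) {K : Set (E n)}
    (hK : IsCompact K) (hKW : K ⊆ W) (hi : InjOn Φ K) (hd : ∀ y ∈ K, (jac Φ y).det ≠ 0) :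
    ∃ V, V ⊆ W ∧ K ⊆ V ∧ IsChart Φ V := by
  obtain ⟨V, h1, h2, h3⟩ := hi.exists_isOpen_superset hK
    (fun y hy => hΦ.continuousOn.continuousAt (hW.mem_nhds (hKW hy))) fun y hy => by
      obtain ⟨e, he⟩ := ChartAux.strict hW hΦ (hKW hy) (hd y hy)
      exact ⟨_, (he.toOpenPartialHomeomorph Φ).open_source.mem_nhds
        he.mem_toOpenPartialHomeomorph_source, (he.toOpenPartialHomeomorph Φ).injOn⟩
  have h4 : ContinuousOn (fun y => (jac Φ y).det) W :=
    (continuous_id.matrix_det).comp_continuousOn (continuousOn_pi.2 fun i => continuousOn_pi.2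
      fun j => (sm_jac hW hΦ i j).continuousOn)
  exact ⟨(W ∩ (fun y => (jac Φ y).det) ⁻¹' {0}ᶜ) ∩ V, fun _ hy => hy.1.1,
    fun y hy => ⟨⟨hKW hy, hd y hy⟩, h2 hy⟩,
    (h4.isOpen_inter_preimage hW isOpen_compl_singleton).inter h1, hΦ.mono fun _ hy => hy.1.1,
    h3.mono inter_subset_right, fun _ hy => hy.1.2⟩

theorem exists_local_chart (hW : IsOpen W) (hΦ : ContDiffOn ℝ ∞ Φ W) {y : E n} (hy : y ∈ W)
    (hd : (jac Φ y).det ≠ 0) : ∃ V, V ⊆ W ∧ y ∈ V ∧ IsChart Φ V :=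
  (exists_chart_nhd hW hΦ isCompact_singleton (singleton_subset_iff.2 hy) (injOn_singleton _ _)
    fun _ hz => hz ▸ hd).imp fun _ h => ⟨h.1, h.2.1 rfl, h.2.2⟩

end

end Pool.Agent.P.MP_56a1cd_gt
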