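import Pool.Agent.P.MP_56a1cd_gt.SphPol

namespace Pool.Agent.P.MP_56a1cd_gt

open MeasureTheory Matrix Set Filter Topology
open scoped ContDiff ENNReal

variable {m n : ℕ}

/-! PLAN. Let `Y i = vol * f * gr h i`, so the integrand is `∑ pd i (Y i)` (`vol_div`). By compactness
`Shc (α - τ) (β + τ) ⊆ W` for some `τ > 0`. Let `Θ s` be the flux integral and
`D s = ∫ p, ((gam f h + f lap h) * N) (exp s • p)`; both are continuous on `Icc (α - τ) (β + τ)`. For a smooth `η`
with compact support in the open interval, `integral_div_eq_zero` for `η (log |x|) * Y i`, `pd_log_nrm`,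
`dot_gr_cyl`, `vol_cyl` and `integral_Sh` give `∫ η D = -∫ η' Θ`. So `Θ - ∫ D` has zero weak derivative.
To conclude, either use `η = stp ((s - α) / ε + 2) - stp ((s - β) / ε + 2)` and let `ε → 0` using
continuity of `Θ`, or differentiate `Θ` under the integral sign and use that a continuous function
orthogonal to all test functions vanishes. -/

namespace GreenShAux

/-- The density of the volume of the cylinder with unit lapse. -/
noncomputable def rho (φ : E 3 → ℝ) (x : E 3) : ℝ := Real.exp (2 * φ x) / nrm x ^ 3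

theorem Sh_sub (α β : ℝ) : Sh α β ⊆ Shc α β := fun _ hx => ⟨hx.1.le, hx.2.le⟩

theorem cont_rho {φ : E 3 → ℝ} (hφ : Hom0 φ) (α β : ℝ) : ContinuousOn (rho φ) (Shc α β) := by
  have h1 : ContinuousOn φ (Shc α β) :=
    hφ.sm.continuousOn.mono fun x hx => ne_zero_of_mem_Shc hx
  refine ContinuousOn.div ?_ (continuous_nrm.continuousOn.pow 3) fun x hx => ?_
  · exact Real.continuous_exp.comp_continuousOn (continuousOn_const.mul h1)
  · exact pow_ne_zero _ (nrm_pos (ne_zero_of_mem_Shc hx)).ne'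

theorem int_rho {φ u : E 3 → ℝ} (hφ : Hom0 φ) {α β : ℝ} (hu : ContinuousOn u (Shc α β)) :
    IntegrableOn (fun x => u x * rho φ x) (Sh α β) :=
  ((hu.mul (cont_rho hφ α β)).integrableOn_compact (isCompact_Shc α β)).mono_set (Sh_sub α β)

theorem mem_Shc {α β s : ℝ} (hs : s ∈ Icc α β) {p : E 3} (hp : p ∈ sph) :
    Real.exp s • p ∈ Shc α β := by
  constructor <;> rw [nrm_exp_smul s hp]
  · exact Real.exp_le_exp.2 hs.1
  · exact Real.exp_le_exp.2 hs.2

theorem cont_sph {u : E 3 → ℝ} {α β s : ℝ} (hu : ContinuousOn u (Shc α β)) (hs : s ∈ Icc α β) :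
    ContinuousOn (fun p => u (Real.exp s • p)) sph :=
  hu.comp (continuous_const_smul _).continuousOn fun _ hp => mem_Shc hs hp

/-- The fundamental theorem of calculus along rays. -/
theorem ftc {φ v : E 3 → ℝ} (hφ : Hom0 φ) {W : Set (E 3)} (hW : IsOpen W) (hv : Sm W v)
    {α β : ℝ} (hαβ : α ≤ β) (hs : Shc α β ⊆ W) :
    ∫ x in Sh α β, rad v x * rho φ x =
      (∫ p, v (Real.exp β • p) ∂aM φ) - ∫ p, v (Real.exp α • p) ∂aM φ := by
  have hr : ContinuousOn (rad v) (Shc α β) := (sm_rad hW hv).continuousOn.mono hs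
  have hc : ContinuousOn v (Shc α β) := hv.continuousOn.mono hs
  have h1 := integral_Sh' hφ hαβ hr
  unfold rho
  rw [h1, ← integral_sub (integrable_aM hφ (cont_sph hc (right_mem_Icc.2 hαβ)))
    (integrable_aM hφ (cont_sph hc (left_mem_Icc.2 hαβ)))]
  refine integral_congr_ae ((ae_sph φ).mono fun p hp => ?_)
  refine intervalIntegral.integral_eq_sub_of_hasDerivAt (f := fun t => v (Real.exp t • p))
    (fun s hs' => ?_) ?_
  · rw [uIcc_of_le hαβ] at hs'
    exact hasDerivAt_ray (sm_da hW hv (hs (mem_Shc hs' hp)))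
  · refine ContinuousOn.intervalIntegrable ?_
    rw [uIcc_of_le hαβ]
    exact hr.comp (Real.continuous_exp.smul continuous_const).continuousOn
      fun s hs' => mem_Shc hs' hp

theorem sm_cut {η : ℝ → ℝ} (hη : ContDiff ℝ ∞ η) {W : Set (E 3)} (h0 : ∀ x ∈ W, x ≠ 0) :
    Sm W fun x => η (Real.log (nrm x)) :=
  sm_comp_real (J := univ) (sm_log_nrm.mono h0) hη.contDiffOn (mapsTo_univ _ _)

theorem pd_cut {η : ℝ → ℝ} (hη : ContDiff ℝ ∞ η) {x : E 3} (hx : x ≠ 0) (i : Fin 3) :
    pd i (fun y => η (Real.log (nrm y))) x =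
      deriv η (Real.log (nrm x)) * (x i / nrm x ^ 2) := by
  rw [← pd_log_nrm hx i]
  exact pd_comp_real (sm_da isOpen_ne_zero sm_log_nrm hx)
    (hη.differentiable (by simp) _).hasDerivAt i

/-- The divergence theorem with a radial cut-off. -/
theorem key {φ u w : E 3 → ℝ} {Y : Fin 3 → E 3 → ℝ} (hφ : Hom0 φ) {W : Set (E 3)}
    (hW : IsOpen W) (h0 : ∀ x ∈ W, x ≠ 0) (hu : Sm W u) (hw : Sm W w) (hY : ∀ i, Sm W (Y i))
    (hdiv : ∀ x ∈ W, ∑ i, pd i (Y i) x = w x * rho φ x)
    (hrad : ∀ x ∈ W, ∑ i, x i * Y i x = nrm x ^ 2 * (u x * rho φ x))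
    {α β : ℝ} (hαβ : α ≤ β) (hs : Shc α β ⊆ W) {η : ℝ → ℝ} (hη : ContDiff ℝ ∞ η)
    (hsup : tsupport η ⊆ Ioo α β) :
    ∫ x in Sh α β, η (Real.log (nrm x)) * (w x - rad u x) * rho φ x = 0 := by
  have hS : Sh α β ⊆ W := (Sh_sub α β).trans hs
  have ha := sm_cut hη h0
  have hK : IsCompact (Shc α β ∩ (fun x => Real.log (nrm x)) ⁻¹' tsupport η) := by
    refine (isCompact_Shc α β).of_isClosed_subset ?_ inter_subset_left
    exact (sm_log_nrm.continuousOn.mono fun x hx =>
      ne_zero_of_mem_Shc hx).preimage_isClosed_of_isClosed (isCompact_Shc α β).isClosed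
        (isClosed_tsupport η)
  have h1 := integral_div_eq_zero (isOpen_Sh α β)
    (Y := fun i x => η (Real.log (nrm x)) * Y i x) (fun i => (ha.mul (hY i)).mono hS) hK
    (fun x hx => mem_Sh_iff.2 ⟨ne_zero_of_mem_Shc hx.1, hsup hx.2⟩) fun i x hx hx' => by
      have : η (Real.log (nrm x)) = 0 :=
        image_eq_zero_of_notMem_tsupport fun hc => hx' ⟨Sh_sub α β hx, hc⟩
      simp [this]
  have h2 := ftc hφ hW (ha.mul hu) hαβ hs
  have hend : ∀ s, s ∉ Ioo α β →
      ∫ p, η (Real.log (nrm (Real.exp s • p))) * u (Real.exp s • p) ∂aM φ = 0 := by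
    intro s hs'
    refine integral_eq_zero_of_ae ((ae_sph φ).mono fun p hp => ?_)
    simp only [nrm_exp_smul s hp, Real.log_exp, Pi.zero_apply]
    rw [image_eq_zero_of_notMem_tsupport fun hc => hs' (hsup hc), zero_mul]
  rw [hend β (by simp), hend α (by simp), sub_zero] at h2
  have hd : Sm W fun x => deriv η (Real.log (nrm x)) :=
    sm_cut (hη.iterate_deriv 1) h0
  have e1 : ∀ x ∈ Sh α β, ∑ i, pd i (fun y => η (Real.log (nrm y)) * Y i y) x =
      (η (Real.log (nrm x)) * w x + deriv η (Real.log (nrm x)) * u x) * rho φ x := by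
    intro x hx
    have hx0 := h0 x (hS hx)
    have hn : nrm x ≠ 0 := (nrm_pos hx0).ne'
    have : ∀ i, pd i (fun y => η (Real.log (nrm y)) * Y i y) x =
        deriv η (Real.log (nrm x)) / nrm x ^ 2 * (x i * Y i x) +
          η (Real.log (nrm x)) * pd i (Y i) x := fun i => by
      rw [pd_mul (sm_da hW ha (hS hx)) (sm_da hW (hY i) (hS hx)), pd_cut hη hx0]
      ring
    simp only [this, Finset.sum_add_distrib, ← Finset.mul_sum, hdiv x (hS hx), hrad x (hS hx)]
    field_simp
    ring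
  have e2 : ∀ x ∈ Sh α β, rad (fun y => η (Real.log (nrm y)) * u y) x =
      η (Real.log (nrm x)) * rad u x + deriv η (Real.log (nrm x)) * u x := by
    intro x hx
    have hx0 := h0 x (hS hx)
    have hn : nrm x ≠ 0 := (nrm_pos hx0).ne'
    have : ∀ i, x i * pd i (fun y => η (Real.log (nrm y)) * u y) x =
        deriv η (Real.log (nrm x)) * u x / nrm x ^ 2 * (x i * x i) +
          η (Real.log (nrm x)) * (x i * pd i u x) := fun i => by
      rw [pd_mul (sm_da hW ha (hS hx)) (sm_da hW hu (hS hx)), pd_cut hη hx0]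
      ring
    have h3 : ∑ i, x i * x i = nrm x ^ 2 := (nrm_sq x).symm
    rw [rad_eq, rad_eq]
    simp only [this, Finset.sum_add_distrib, ← Finset.mul_sum, h3]
    field_simp
    ring
  have hm := (isOpen_Sh α β).measurableSet
  rw [setIntegral_congr_fun hm e1] at h1
  rw [setIntegral_congr_fun hm (g := fun x => (η (Real.log (nrm x)) * rad u x +
    deriv η (Real.log (nrm x)) * u x) * rho φ x) fun x hx => by simp only [e2 x hx]] at h2
  have h3 := integral_sub
    (int_rho hφ (((ha.mul hw).add (hd.mul hu)).continuousOn.mono hs))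
    (int_rho hφ (((ha.mul (sm_rad hW hu)).add (hd.mul hu)).continuousOn.mono hs))
  rw [h1, h2, sub_zero] at h3
  rw [← h3]
  exact setIntegral_congr_fun hm fun x _ => by ring

/-- The divergence theorem on a shell. -/
theorem div_sh {φ u w : E 3 → ℝ} {Y : Fin 3 → E 3 → ℝ} (hφ : Hom0 φ) {W : Set (E 3)}
    (hW : IsOpen W) (h0 : ∀ x ∈ W, x ≠ 0) (hu : Sm W u) (hw : Sm W w) (hY : ∀ i, Sm W (Y i))
    (hdiv : ∀ x ∈ W, ∑ i, pd i (Y i) x = w x * rho φ x)
    (hrad : ∀ x ∈ W, ∑ i, x i * Y i x = nrm x ^ 2 * (u x * rho φ x))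
    {α β : ℝ} (hαβ : α ≤ β) (hs : Shc α β ⊆ W) :
    ∫ x in Sh α β, w x * rho φ x =
      (∫ p, u (Real.exp β • p) ∂aM φ) - ∫ p, u (Real.exp α • p) ∂aM φ := by
  have hc : ContinuousOn (fun x => w x - rad u x) (Shc α β) :=
    (hw.sub (sm_rad hW hu)).continuousOn.mono hs
  set G : ℝ → ℝ := fun s => ∫ p, (w (Real.exp s • p) - rad u (Real.exp s • p)) ∂aM φ with hG
  have hGc : ContinuousOn G (Icc α β) := continuousOn_slice hφ hc
  have hz : ∀ᵐ s, s ∈ Ioo α β → G s = 0 := by
    refine isOpen_Ioo.ae_eq_zero_of_integral_contDiff_smul_eq_zero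
      ((hGc.mono Ioo_subset_Icc_self).locallyIntegrableOn measurableSet_Ioo)
      fun η hη _ hsup => ?_
    have h1 := key hφ hW h0 hu hw hY hdiv hrad hαβ hs hη hsup
    unfold rho at h1
    rw [integral_Sh hφ hαβ (u := fun x => η (Real.log (nrm x)) * (w x - rad u x))
      (((sm_cut hη h0).continuousOn.mono hs).mul hc), intervalIntegral.integral_of_le hαβ,
      integral_Ioc_eq_integral_Ioo] at h1
    rw [← setIntegral_eq_integral_of_forall_compl_eq_zero (s := Ioo α β) fun s hs' => by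
      rw [image_eq_zero_of_notMem_tsupport fun hc => hs' (hsup hc), zero_smul], ← h1]
    refine setIntegral_congr_fun measurableSet_Ioo fun s _ => ?_
    simp only [hG, smul_eq_mul]
    rw [← integral_const_mul]
    refine integral_congr_ae ((ae_sph φ).mono fun p hp => ?_)
    simp only [nrm_exp_smul s hp, Real.log_exp]
  have h2 : ∫ x in Sh α β, (w x - rad u x) * rho φ x = 0 := by
    unfold rho
    rw [integral_Sh hφ hαβ hc, intervalIntegral.integral_of_le hαβ,
      integral_Ioc_eq_integral_Ioo]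
    exact setIntegral_eq_zero_of_ae_eq_zero hz
  rw [← ftc hφ hW hu hαβ hs, ← sub_eq_zero, ← integral_sub
    (int_rho hφ (hw.continuousOn.mono hs)) (int_rho hφ ((sm_rad hW hu).continuousOn.mono hs)),
    ← h2]
  exact setIntegral_congr_fun (isOpen_Sh α β).measurableSet fun x _ => by ring

end GreenShAux

theorem green_sh {φ N f h : E 3 → ℝ} (hφ : Hom0 φ) {W : Set (E 3)} (hW : IsOpen W)
    (h0 : ∀ x ∈ W, x ≠ 0) (hN : Sm W N) (hN0 : ∀ x ∈ W, 0 < N x) (hf : Sm W f) (hh : Sm W h)
    {α β : ℝ} (hαβ : α ≤ β) (hs : Shc α β ⊆ W) :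
    ∫ x in Sh α β, (gam (cyl φ N) f h x + f x * lap (cyl φ N) h x) * vol (cyl φ N) x =
      (∫ p, f (Real.exp β • p) * rad h (Real.exp β • p) / N (Real.exp β • p) ∂aM φ) -
        ∫ p, f (Real.exp α • p) * rad h (Real.exp α • p) / N (Real.exp α • p) ∂aM φ := by
  have hg := isMet_cyl hφ hW h0 hN hN0
  have hv : ∀ x ∈ W, vol (cyl φ N) x = N x * GreenShAux.rho φ x :=
    fun x hx => vol_cyl (h0 x hx) (hN0 x hx)
  have h1 := GreenShAux.div_sh (u := fun x => f x * rad h x / N x)
    (w := fun x => (gam (cyl φ N) f h x + f x * lap (cyl φ N) h x) * N x)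
    (Y := fun i y => vol (cyl φ N) y * f y * gr (cyl φ N) h i y) hφ hW h0
    ((hf.mul (sm_rad hW hh)).div hN fun x hx => (hN0 x hx).ne')
    (((hg.sm_gam hf hh).add (hf.mul (hg.sm_lap hh))).mul hN)
    (fun i => (hg.sm_vol.mul hf).mul (hg.sm_gr hh i))
    (fun x hx => by rw [← vol_div hg hf hh hx, hv x hx]; ring)
    (fun x hx => by
      have h2 : ∑ i, x i * (vol (cyl φ N) x * f x * gr (cyl φ N) h i x) =
          vol (cyl φ N) x * f x * ∑ i, x i * gr (cyl φ N) h i x := by
        rw [Finset.mul_sum]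
        exact Finset.sum_congr rfl fun i _ => by ring
      have h3 := (hN0 x hx).ne'
      rw [h2, dot_gr_cyl (h0 x hx) (hN0 x hx), hv x hx]
      field_simp) hαβ hs
  rw [← h1]
  refine setIntegral_congr_fun (isOpen_Sh α β).measurableSet fun x hx => ?_
  simp only [hv x (hs (GreenShAux.Sh_sub α β hx))]
  ring

end Pool.Agent.P.MP_56a1cd_gt
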