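import Pool.Agent.P.MP_56a1cd_gt.Curv
import Pool.Agent.P.MP_56a1cd_gt.GreenSh

namespace Pool.Agent.P.MP_56a1cd_gt

open MeasureTheory Matrix Set Filter Topology
open scoped ContDiff ENNReal

variable {m n : ℕ}

/-! PLAN. `integral_L0`: `green_sh` on `Shc 0 1` with `f = 1`, `N = 1`, `Hom0.rad`, `vol_cyl`, `integral_Sh`.
`integral_Kf`: `kform`, `integral_exp_aM`. `choice`: `ξ = 1 + a K` with `a > 0` small (`lap_add`, `lap_cmul`, `Hom0.bdd`,
`Hom0.exists_pos`); `∫ K ξ - (4π / A) ∫ ξ = a ∫ (K - 4π / A)² > 0` by `integral_aM_pos`. -/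

section
variable {φ ξ : E 3 → ℝ}

private theorem sph_ne_zero {p : E 3} (hp : p ∈ sph) : p ≠ 0 :=
  ne_zero_of_nrm_pos (by rw [mem_sph_iff.mp hp]; exact one_pos)

private theorem exp_smul_ne_zero (s : ℝ) {p : E 3} (hp : p ∈ sph) : Real.exp s • p ≠ 0 :=
  ne_zero_of_nrm_pos (by rw [nrm_exp_smul s hp]; exact Real.exp_pos s)

theorem integral_L0 (hφ : Hom0 φ) (hξ : Hom0 ξ) : ∫ p, L0 φ ξ p ∂aM φ = 0 := by
  have h1 := green_sh (N := fun _ => 1) (f := fun _ => 1) (h := ξ) hφ isOpen_ne_zero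
    (fun x hx => hx) contDiffOn_const (fun _ _ => one_pos) contDiffOn_const hξ.sm
    (α := 0) (β := 1) zero_le_one (fun x hx => ne_zero_of_mem_Shc hx)
  have h2 : ∀ s : ℝ, ∫ p, (1 : ℝ) * rad ξ (Real.exp s • p) / 1 ∂aM φ = 0 := by
    intro s
    rw [← integral_zero (E 3) ℝ (μ := aM φ)]
    refine integral_congr_ae ?_
    filter_upwards [ae_sph φ] with p hp
    rw [hξ.rad (exp_smul_ne_zero s hp)]
    simp
  rw [h2, h2, sub_zero] at h1
  have hL := hφ.L0 hξ
  have h3 := integral_Sh (u := L0 φ ξ) hφ (α := 0) (β := 1) zero_le_one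
    (hL.sm.continuousOn.mono fun x hx => ne_zero_of_mem_Shc hx)
  have h4 : ∀ s : ℝ, ∫ p, L0 φ ξ (Real.exp s • p) ∂aM φ = ∫ p, L0 φ ξ p ∂aM φ := by
    intro s
    simp only [hL.hom _ _ (Real.exp_pos s)]
  simp only [h4] at h3
  rw [intervalIntegral.integral_const, sub_zero, one_smul] at h3
  refine h3.symm.trans (Eq.trans ?_ h1)
  refine setIntegral_congr_fun (isOpen_Sh 0 1).measurableSet fun x hx => ?_
  rw [vol_cyl (ne_zero_of_mem_Sh hx) one_pos, gam_const_left, L0]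
  ring

theorem integral_Kf (hφ : Hom0 φ) : ∫ p, Kf φ p ∂aM φ = 4 * Real.pi := by
  have h1 : ∫ p, Kf φ p ∂aM φ = ∫ p, (Real.exp (-2 * φ p) - L0 φ φ p) ∂aM φ := by
    refine integral_congr_ae ?_
    filter_upwards [ae_sph φ] with p hp
    exact kform hφ (sph_ne_zero hp)
  have h2 : ContinuousOn (fun p => Real.exp (-2 * φ p)) sph :=
    Real.continuous_exp.comp_continuousOn (continuousOn_const.mul hφ.continuousOn)
  rw [h1, integral_sub (integrable_aM hφ h2) (integrable_aM hφ (hφ.L0 hφ).continuousOn),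
    integral_exp_aM hφ, integral_L0 hφ hφ, sub_zero]

theorem choice (hφ : Hom0 φ) (hK : ∀ x, x ≠ 0 → 0 < Kf φ x)
    (hn : ∃ x y, x ≠ 0 ∧ y ≠ 0 ∧ Kf φ x ≠ Kf φ y) :
    ∃ ξ, Hom0 ξ ∧ (∀ x, x ≠ 0 → 0 < ξ x) ∧ (∀ x, x ≠ 0 → 0 ≤ Kf φ x * ξ x - L0 φ ξ x) ∧
      4 * Real.pi / Ar φ * ∫ p, ξ p ∂aM φ < ∫ p, Kf φ p * ξ p ∂aM φ := by
  have hKh := hφ.Kf
  obtain ⟨c, hc, hcK⟩ := hKh.exists_pos hK
  obtain ⟨C, hC, hCL⟩ := (hφ.L0 hKh).bdd
  set a : ℝ := c / (C + 1) with ha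
  have ha0 : 0 < a := by positivity
  have haC : a * C ≤ c := by
    rw [ha, div_mul_eq_mul_div, div_le_iff₀ (by positivity)]
    nlinarith
  have hA := Ar_pos hφ
  set q : ℝ := 4 * Real.pi / Ar φ with hq
  have hqA : q * Ar φ = 4 * Real.pi := by rw [hq]; field_simp
  refine ⟨fun x => 1 + a * Kf φ x, (Hom0.const 1).add ((Hom0.const a).mul hKh), ?_, ?_, ?_⟩
  · intro x hx
    have := hK x hx
    positivity
  · intro x hx
    have h1 : L0 φ (fun x => 1 + a * Kf φ x) x = a * L0 φ (Kf φ) x := by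
      rw [L0, lap_add _ isOpen_ne_zero contDiffOn_const ((Hom0.const a).mul hKh).sm hx, lap_const,
        lap_cmul, zero_add, L0]
    rw [h1]
    have h2 := (abs_le.mp (hCL x hx)).2
    have h3 := hcK x hx
    have h4 := hK x hx
    have h5 : a * L0 φ (Kf φ) x ≤ a * C := by gcongr
    nlinarith [mul_pos ha0 (mul_pos h4 h4)]
  · have hi1 : Integrable (Kf φ) (aM φ) := integrable_aM hφ hKh.continuousOn
    have hi2 : Integrable (fun p => Kf φ p * Kf φ p) (aM φ) :=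
      integrable_aM hφ (hKh.mul hKh).continuousOn
    have hi0 : ∀ r : ℝ, Integrable (fun _ : E 3 => r) (aM φ) := fun r =>
      integrable_aM hφ continuousOn_const
    have hpos : 0 < ∫ p, (Kf φ p - q) * (Kf φ p - q) ∂aM φ := by
      refine integral_aM_pos hφ ((hKh.sub (Hom0.const q)).mul (hKh.sub (Hom0.const q))).continuousOn
        (fun p _ => mul_self_nonneg _) ?_
      obtain ⟨x, y, hx, hy, hxy⟩ := hn
      by_cases hxq : Kf φ x = q
      · refine ⟨_, (hKh.eq_sph hy).1, mul_self_ne_zero.mpr (sub_ne_zero.mpr ?_)⟩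
        rw [← (hKh.eq_sph hy).2, ← hxq]
        exact hxy.symm
      · refine ⟨_, (hKh.eq_sph hx).1, mul_self_ne_zero.mpr (sub_ne_zero.mpr ?_)⟩
        rw [← (hKh.eq_sph hx).2]
        exact hxq
    have e1 : ∫ p, (Kf φ p - q) * (Kf φ p - q) ∂aM φ =
        ∫ p, Kf φ p * Kf φ p ∂aM φ - 2 * q * (4 * Real.pi) + Ar φ * (q * q) := by
      have : (fun p => (Kf φ p - q) * (Kf φ p - q)) =
          fun p => (Kf φ p * Kf φ p - 2 * q * Kf φ p) + q * q := by
        funext p; ring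
      have hi3 : Integrable (fun p => Kf φ p * Kf φ p - 2 * q * Kf φ p) (aM φ) :=
        hi2.sub (hi1.const_mul _)
      rw [this, integral_add hi3 (hi0 _),
        integral_sub hi2 (hi1.const_mul _), integral_const_mul, integral_Kf hφ, integral_const_aM]
    have e2 : ∫ p, (1 + a * Kf φ p) ∂aM φ = Ar φ * 1 + a * (4 * Real.pi) := by
      rw [integral_add (hi0 _) (hi1.const_mul _), integral_const_mul, integral_Kf hφ,
        integral_const_aM]
    have e3 : ∫ p, Kf φ p * (1 + a * Kf φ p) ∂aM φ =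
        4 * Real.pi + a * ∫ p, Kf φ p * Kf φ p ∂aM φ := by
      have : (fun p => Kf φ p * (1 + a * Kf φ p)) =
          fun p => Kf φ p + a * (Kf φ p * Kf φ p) := by
        funext p; ring
      rw [this, integral_add hi1 (hi2.const_mul _), integral_const_mul, integral_Kf hφ]
    rw [e2, e3]
    rw [e1] at hpos
    have h1 := mul_pos ha0 hpos
    have h2 : Ar φ * (q * q) = q * (4 * Real.pi) := by rw [← hqA]; ring
    rw [h2] at h1
    nlinarith

end

end Pool.Agent.P.MP_56a1cd_gt
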