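import Pool.Agent.P.MP_56a1cd_gt.Rules

namespace Pool.Agent.P.MP_56a1cd_gt

open MeasureTheory Matrix Set Filter Topology
open scoped ContDiff ENNReal

variable {m n : ℕ}

/-! PLAN. `pd_lift`, `pd_pr`: `pd_comp` with affine maps. `IsMet.slice`: a principal submatrix of a positive matrix is
positive (`Matrix.PosDef.submatrix` or directly). `vol_slice`: `G 2 2 = det γ / det h` (`Matrix.inv_def`,
`Matrix.adjugate_fin_three`, `Matrix.det_fin_two`). -/

namespace SliceAux

/-- The linear part of `lift`. -/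
noncomputable def liftL : E 2 →L[ℝ] E 3 :=
  ContinuousLinearMap.pi ![ContinuousLinearMap.proj 0, ContinuousLinearMap.proj 1, 0]

/-- `pr` as a linear map. -/
noncomputable def prL : E 3 →L[ℝ] E 2 :=
  ContinuousLinearMap.pi ![ContinuousLinearMap.proj 0, ContinuousLinearMap.proj 1]

theorem lift_eq (t : ℝ) : lift t = fun y => liftL y + ![0, 0, t] := by
  funext y i
  fin_cases i <;> simp [lift, liftL]

theorem pr_eq : pr = fun z => prL z := by
  funext z i
  fin_cases i <;> simp [pr, prL]

theorem hasFDerivAt_lift (t : ℝ) (y : E 2) : HasFDerivAt (lift t) liftL y := by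
  rw [lift_eq]
  exact liftL.hasFDerivAt.add_const _

theorem hasFDerivAt_pr (z : E 3) : HasFDerivAt pr prL z := by
  rw [pr_eq]
  exact prL.hasFDerivAt

theorem liftL_single (i : Fin 2) : liftL (Pi.single i 1) = Pi.single i.castSucc 1 := by
  funext j
  fin_cases i <;> fin_cases j <;> simp [liftL]

theorem prL_single (i : Fin 2) : prL (Pi.single i.castSucc 1) = Pi.single i 1 := by
  funext j
  fin_cases i <;> fin_cases j <;> simp [prL]

theorem prL_last : prL (Pi.single 2 1) = 0 := by
  funext j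
  fin_cases j <;> simp [prL]

theorem pd_coord (i : Fin 3) (x : E 3) :
    pd i (fun z : E 3 => z 2) x = if i = 2 then 1 else 0 := by
  have h : HasFDerivAt (fun z : E 3 => z 2)
      (ContinuousLinearMap.proj (R := ℝ) (φ := fun _ : Fin 3 => ℝ) 2) x :=
    (ContinuousLinearMap.proj (R := ℝ) (φ := fun _ : Fin 3 => ℝ) 2).hasFDerivAt
  rw [pd, h.fderiv]
  fin_cases i <;> simp

theorem lift_equiv : (fun q : ℝ × E 2 => lift q.1 q.2) =
    (MeasurableEquiv.piFinSuccAbove (fun _ : Fin 3 => ℝ) 2).symm := by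
  funext q i
  fin_cases i
  · simp [lift, MeasurableEquiv.piFinSuccAbove, Fin.insertNthEquiv]
    exact (Fin.insertNth_apply_succAbove (α := fun _ : Fin 3 => ℝ) 2 q.1 q.2 0).symm
  · simp [lift, MeasurableEquiv.piFinSuccAbove, Fin.insertNthEquiv]
    exact (Fin.insertNth_apply_succAbove (α := fun _ : Fin 3 => ℝ) 2 q.1 q.2 1).symm
  · simp [lift, MeasurableEquiv.piFinSuccAbove, Fin.insertNthEquiv]

end SliceAux

open SliceAux

theorem contDiff_lift (t : ℝ) : ContDiff ℝ ∞ (lift t) := by
  rw [lift_eq]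
  exact liftL.contDiff.add contDiff_const

theorem contDiff_pr : ContDiff ℝ ∞ pr := by
  rw [pr_eq]
  exact prL.contDiff

theorem pr_lift (t : ℝ) (y : E 2) : pr (lift t y) = y := by
  funext i
  fin_cases i <;> simp [pr, lift]

theorem lift_pr (z : E 3) : lift (z 2) (pr z) = z := by
  funext i
  fin_cases i <;> simp [pr, lift]

theorem pd_lift {f : E 3 → ℝ} {t : ℝ} {y : E 2} (hf : DifferentiableAt ℝ f (lift t y)) (i : Fin 2) :
    pd i (fun w => f (lift t w)) y = pd i.castSucc f (lift t y) := by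
  have h := hf.hasFDerivAt.comp y (hasFDerivAt_lift t y)
  have h' : fderiv ℝ (fun w => f (lift t w)) y = (fderiv ℝ f (lift t y)).comp liftL := h.fderiv
  rw [pd, pd, h', ContinuousLinearMap.comp_apply, liftL_single]

theorem IsMet.slice {h : Met 3} {W : Set (E 3)} (hh : IsMet h W) (t : ℝ) :
    IsMet (slice h t) (lift t ⁻¹' W) := by
  refine ⟨hh.opn.preimage (contDiff_lift t).continuous, fun i j => ?_, fun y hy => ?_⟩
  · exact (hh.sm i.castSucc j.castSucc).comp (contDiff_lift t).contDiffOn fun _ hx => hx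
  · exact (hh.pos _ hy).submatrix (e := Fin.castSucc) (Fin.castSucc_injective 2)

theorem vol_slice {h : Met 3} {W : Set (E 3)} (hh : IsMet h W) {t : ℝ} {y : E 2}
    (hy : lift t y ∈ W) :
    √(gam h (fun z => z 2) (fun z => z 2) (lift t y)) * vol h (lift t y) = vol (slice h t) y := by
  have hd : 0 < (h (lift t y)).det := (hh.pos _ hy).det_pos
  have h1 : gam h (fun z => z 2) (fun z => z 2) (lift t y) = (h (lift t y))⁻¹ 2 2 := by
    simp [gam, pd_coord]
  have h2 : (h (lift t y))⁻¹ 2 2 * (h (lift t y)).det = (slice h t y).det := by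
    rw [Matrix.inv_def, Matrix.smul_apply, Ring.inverse_eq_inv', smul_eq_mul, mul_right_comm,
      inv_mul_cancel₀ hd.ne', one_mul, Matrix.adjugate_fin_three, Matrix.det_fin_two]
    simp [Pool.Agent.P.MP_56a1cd_gt.slice]
  rw [vol, vol, ← Real.sqrt_mul' _ hd.le, h1, h2]

theorem pd_pr {f : E 2 → ℝ} {z : E 3} (hf : DifferentiableAt ℝ f (pr z)) :
    (∀ i : Fin 2, pd i.castSucc (fun w => f (pr w)) z = pd i f (pr z)) ∧
      pd 2 (fun w => f (pr w)) z = 0 := by
  have h := hf.hasFDerivAt.comp z (hasFDerivAt_pr z)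
  have h' : fderiv ℝ (fun w => f (pr w)) z = (fderiv ℝ f (pr z)).comp prL := h.fderiv
  refine ⟨fun i => ?_, ?_⟩
  · rw [pd, pd, h', ContinuousLinearMap.comp_apply, prL_single]
  · rw [pd, h', ContinuousLinearMap.comp_apply, prL_last, map_zero]

theorem measurePreserving_lift :
    MeasurePreserving (fun q : ℝ × E 2 => lift q.1 q.2) (volume.prod volume) volume := by
  rw [lift_equiv]
  exact (volume_preserving_piFinSuccAbove (fun _ : Fin 3 => ℝ) 2).symm

theorem measurableEmbedding_lift : MeasurableEmbedding (fun q : ℝ × E 2 => lift q.1 q.2) := by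
  rw [lift_equiv]
  exact MeasurableEquiv.measurableEmbedding _

end Pool.Agent.P.MP_56a1cd_gt
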