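import Pool.Agent.P.MP_56a1cd_gt.InvA
import Pool.Agent.P.MP_56a1cd_gt.Slice

namespace Pool.Agent.P.MP_56a1cd_gt

open MeasureTheory Matrix Set Filter Topology
open scoped ContDiff ENNReal

variable {m n : ℕ}

namespace CoareaAux

/-- The homeomorphism between open sets given by a chart. -/
noncomputable def ofChart {Φ : E n → E n} {V : Set (E n)} (h : IsChart Φ V) :
    OpenPartialHomeomorph (E n) (E n) where
  toFun := Φ
  invFun := Function.invFunOn Φ V
  source := V
  target := Φ '' V
  map_source' := fun x hx => mem_image_of_mem Φ hx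
  map_target' := fun x hx => h.inv_mapsTo hx
  left_inv' := fun x hx => h.left_inv hx
  right_inv' := fun x hx => by
    obtain ⟨y, hy, rfl⟩ := hx
    rw [h.left_inv hy]
  open_source := h.opn
  open_target := h.inv.opn
  continuousOn_toFun := h.sm.continuousOn
  continuousOn_invFun := h.inv.sm.continuousOn

theorem adapted_of {U : Set (E 3)} (hU : IsOpen U) {G : E 3 → ℝ} (hG : Sm U G) {x : E 3}
    (hx : x ∈ U) (a b : Fin 3)
    (hd : (jac (fun z : E 3 => (![z a, z b, G z] : E 3)) x).det ≠ 0) :
    ∃ e : OpenPartialHomeomorph (E 3) (E 3), Adapted G e ∧ x ∈ e.source ∧ e.source ⊆ U := by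
  have hs : ContDiffOn ℝ ∞ (fun z : E 3 => (![z a, z b, G z] : E 3)) U := by
    rw [contDiffOn_pi]
    intro i
    fin_cases i
    · exact sm_coord U a
    · exact sm_coord U b
    · exact hG
  obtain ⟨V, hVU, hxV, hV⟩ := exists_local_chart hU hs hx hd
  exact ⟨ofChart hV, ⟨hV.sm, hV.inv, fun _ _ => rfl⟩, hxV, hVU⟩

theorem jac_det_eq (G : E 3 → ℝ) (x : E 3) (a b : Fin 3) :
    (jac (fun z : E 3 => (![z a, z b, G z] : E 3)) x).det =
      Matrix.det !![pd 0 (fun z => z a) x, pd 1 (fun z => z a) x, pd 2 (fun z => z a) x;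
        pd 0 (fun z => z b) x, pd 1 (fun z => z b) x, pd 2 (fun z => z b) x;
        pd 0 G x, pd 1 G x, pd 2 G x] := by
  congr 1
  ext i j
  fin_cases i <;> fin_cases j <;> rfl

theorem fubini {A : Set (E 3)} (hA : MeasurableSet A) {H : E 3 → ℝ} (hH : IntegrableOn H A) :
    Integrable (fun t : ℝ => ∫ y in {y | lift t y ∈ A}, H (lift t y)) ∧
      ∫ z in A, H z = ∫ t : ℝ, ∫ y in {y | lift t y ∈ A}, H (lift t y) := by
  have h1 : Integrable (A.indicator H) := (integrable_indicator_iff hA).2 hH
  have h2 : Integrable (fun q : ℝ × E 2 => A.indicator H (lift q.1 q.2)) (volume.prod volume) :=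
    (measurePreserving_lift.integrable_comp_emb measurableEmbedding_lift).2 h1
  have h3 : ∀ t : ℝ, ∫ y, A.indicator H (lift t y) =
      ∫ y in {y | lift t y ∈ A}, H (lift t y) := by
    intro t
    have hm : MeasurableSet {y | lift t y ∈ A} := (contDiff_lift t).continuous.measurable hA
    rw [← integral_indicator hm]
    rfl
  constructor
  · exact h2.integral_prod_left.congr (Eventually.of_forall h3)
  · rw [← integral_indicator hA,
      ← measurePreserving_lift.integral_comp measurableEmbedding_lift (A.indicator H),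
      integral_prod _ h2]
    exact integral_congr_ae (Eventually.of_forall h3)

end CoareaAux

theorem exists_adapted {U : Set (E 3)} (hU : IsOpen U) {G : E 3 → ℝ} (hG : Sm U G) {x : E 3}
    (hx : x ∈ U) (h : fderiv ℝ G x ≠ 0) :
    ∃ e : OpenPartialHomeomorph (E 3) (E 3), Adapted G e ∧ x ∈ e.source ∧ e.source ⊆ U := by
  rw [Ne, fderiv_eq_zero_iff, not_forall] at h
  obtain ⟨j, hj⟩ := h
  fin_cases j
  · refine CoareaAux.adapted_of hU hG hx 1 2 ?_
    rw [CoareaAux.jac_det_eq, Matrix.det_fin_three]
    simpa [pd_coord] using hj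
  · refine CoareaAux.adapted_of hU hG hx 2 0 ?_
    rw [CoareaAux.jac_det_eq, Matrix.det_fin_three]
    simpa [pd_coord] using hj
  · refine CoareaAux.adapted_of hU hG hx 0 1 ?_
    rw [CoareaAux.jac_det_eq, Matrix.det_fin_three]
    simpa [pd_coord] using hj

theorem coarea_chart {g : Met 3} {U : Set (E 3)} (hg : IsMet g U) {G : E 3 → ℝ} (hG : Sm U G)
    {e : OpenPartialHomeomorph (E 3) (E 3)} (he : Adapted G e) (hs : e.source ⊆ U) {B : Set (E 3)}
    (hB : MeasurableSet B) (hBs : B ⊆ e.source) {f : E 3 → ℝ}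
    (hi : IntegrableOn (fun x => f x * √(gam g G G x) * vol g x) B) :
    Integrable (fun t : ℝ => ∫ y in {y | lift t y ∈ e '' B},
      f (e.symm (lift t y)) * vol (slice (pull e.symm g) t) y) ∧
    ∫ x in B, f x * √(gam g G G x) * vol g x = ∫ t : ℝ, ∫ y in {y | lift t y ∈ e '' B},
      f (e.symm (lift t y)) * vol (slice (pull e.symm g) t) y := by
  have hA : MeasurableSet (e '' B) :=
    hB.image_of_continuousOn_injOn (e.continuousOn.mono hBs) (e.injOn.mono hBs)
  have hAt : e '' B ⊆ e.target := by
    rintro _ ⟨x, hx, rfl⟩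
    exact e.map_source (hBs hx)
  have hBA : e.symm '' (e '' B) = B := by
    rw [image_image]
    exact (image_congr fun x hx => e.left_inv (hBs hx)).trans (image_id' B)
  have hm : MapsTo e.symm e.target U := fun z hz => hs (e.map_target hz)
  have hh : IsMet (pull e.symm g) e.target := hg.pull he.chart hm
  have hI := (he.chart.integrableOn_iff g hA hAt (fun x => f x * √(gam g G G x))).1 (by
    rw [hBA]; exact hi)
  have hE := he.chart.integral g hA hAt (fun x => f x * √(gam g G G x))
  rw [hBA] at hE
  obtain ⟨h1, h2⟩ := CoareaAux.fubini hA hI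
  have key : ∀ t : ℝ, ∫ y in {y | lift t y ∈ e '' B},
      f (e.symm (lift t y)) * √(gam g G G (e.symm (lift t y))) * vol (pull e.symm g) (lift t y) =
      ∫ y in {y | lift t y ∈ e '' B},
        f (e.symm (lift t y)) * vol (slice (pull e.symm g) t) y := by
    intro t
    have hmt : MeasurableSet {y | lift t y ∈ e '' B} := (contDiff_lift t).continuous.measurable hA
    refine setIntegral_congr_fun hmt fun y hy => ?_
    have hz : lift t y ∈ e.target := hAt hy
    have ev : (fun z => G (e.symm z)) =ᶠ[𝓝 (lift t y)] fun z => z 2 := by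
      filter_upwards [e.open_target.mem_nhds hz] with z hz'
      rw [← he.last _ (e.map_target hz'), e.right_inv hz']
    have e1 := gam_pull hg he.chart hm hG hG hz
    rw [gam_congr rfl ev ev] at e1
    rw [← e1, mul_assoc, vol_slice hh hz]
  exact ⟨h1.congr (Eventually.of_forall key),
    hE.trans (h2.trans (integral_congr_ae (Eventually.of_forall key)))⟩

end Pool.Agent.P.MP_56a1cd_gt
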