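import Pool.Agent.P.MP_56a1cd_gt.Cyl
import Pool.Agent.P.MP_56a1cd_gt.Rules
import Pool.Agent.P.MP_56a1cd_gt.Chart

namespace Pool.Agent.P.MP_56a1cd_gt

open MeasureTheory Matrix Set Filter Topology
open scoped ContDiff ENNReal

variable {m n : ℕ}

/-! PLAN. `ν z i = unitNormal g ρ i z` is smooth on the open set where `g` is positive definite
(`isMet_posDef`) and `gam g ρ ρ ≠ 0`, which contains `{ρ = 0}`. Let `π x = (nrm x)⁻¹ • x` and
`Φ x = ι (π x) + log (nrm x) • ν (ι (π x))`, smooth on `{x ≠ 0}`. At `x ∈ sph`,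
`DΦ v = Dι (v - (v ⬝ x) x) + (v ⬝ x) ν`. Since `ρ ∘ ι ∘ π = 0`, `dρ (Dι w) = 0` for tangent `w`; `g (ν, u) = dρ u / |∇ρ|`
and `g (ν, ν) = 1`; so `pull Φ g x = cyl φ 1 x` (`pull_quad`, `cyl_quad`), which is positive definite, hence
`det jac ≠ 0`. `exists_chart_nhd`; a neighbourhood of `sph` contains a closed shell (compactness). `rad (ρ ∘ Φ)` is
positive on `sph`, hence on a shell, so `s ↦ ρ (Φ (exp s • p))` is strictly increasing (`hasDerivAt_ray`). -/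

theorem Sh_subset_of_open {V : Set (E 3)} (hV : IsOpen V) {a b : ℝ} (hab : a ≤ b)
    (h : Shc a b ⊆ V) : ∃ τ : ℝ, 0 < τ ∧ Shc (a - τ) (b + τ) ⊆ V := by
  have hc : ContinuousOn (fun x : E 3 => Real.log (nrm x)) (Shc (a - 1) (b + 1) \ V) :=
    sm_log_nrm.continuousOn.mono fun x hx => ne_zero_of_mem_Shc hx.1
  obtain ⟨c, hc0, hc1⟩ := ((isCompact_Shc (a - 1) (b + 1)).diff hV).exists_forall_le'
    (f := fun x => max (a - Real.log (nrm x)) (Real.log (nrm x) - b)) (a := 0)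
    ((continuousOn_const.sub hc).sup (hc.sub continuousOn_const)) fun x hx => by
      by_contra h1
      rw [not_lt, max_le_iff] at h1
      exact hx.2 (h (mem_Shc_iff.mpr ⟨ne_zero_of_mem_Shc hx.1, by linarith [h1.1],
        by linarith [h1.2]⟩))
  refine ⟨min 1 (c / 2), lt_min one_pos (by linarith), fun x hx => ?_⟩
  by_contra h1
  obtain ⟨h2, h3, h4⟩ := mem_Shc_iff.mp hx
  have h5 := min_le_left 1 (c / 2)
  have h6 := min_le_right 1 (c / 2)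
  have h7 := hc1 x ⟨mem_Shc_iff.mpr ⟨h2, by linarith, by linarith⟩, h1⟩
  rcases le_max_iff.mp h7 with h8 | h8 <;> linarith

namespace CollarAux

theorem symm_dot {A : Matrix (Fin n) (Fin n) ℝ} (h : ∀ i j, A i j = A j i) (a b : E n) :
    a ⬝ᵥ A *ᵥ b = b ⬝ᵥ A *ᵥ a := by
  have h1 : Aᵀ = A := by
    ext i j
    exact h j i
  rw [dotProduct_mulVec, ← mulVec_transpose, h1, dotProduct_comm]

/-- The unit normal as a vector. -/
noncomputable def nu (g : Met n) (ρ : E n → ℝ) (z : E n) : E n := fun i => unitNormal g ρ i z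

theorem nu_eq (g : Met n) (ρ : E n → ℝ) (z : E n) :
    nu g ρ z = (√(gam g ρ ρ z))⁻¹ • (g z)⁻¹ *ᵥ fun j => pd j ρ z := by
  ext i
  simp only [nu, unitNormal, Pi.smul_apply, smul_eq_mul, mulVec, dotProduct]
  rw [div_eq_inv_mul]

theorem dot_nu {g : Met n} {z : E n} (hp : (g z).PosDef) (ρ : E n → ℝ) (u : E n) :
    u ⬝ᵥ g z *ᵥ nu g ρ z = (√(gam g ρ ρ z))⁻¹ * fderiv ℝ ρ z u := by
  rw [nu_eq, mulVec_smul, mulVec_mulVec, mul_nonsing_inv _ (Ne.isUnit hp.det_pos.ne'), one_mulVec,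
    dotProduct_smul, fderiv_eq_sum]
  rfl

theorem d_nu {g : Met n} {z : E n} {ρ : E n → ℝ} (_h : 0 < gam g ρ ρ z) :
    fderiv ℝ ρ z (nu g ρ z) = √(gam g ρ ρ z) := by
  have h1 : fderiv ℝ ρ z (nu g ρ z) = (fun j => pd j ρ z) ⬝ᵥ nu g ρ z := by
    rw [fderiv_eq_sum, dotProduct_comm]
    rfl
  rw [h1, nu_eq, dotProduct_smul, ← gam_eq_dot, smul_eq_mul, inv_mul_eq_div, Real.div_sqrt]

theorem sm_nu {g : Met n} {U : Set (E n)} {ρ : E n → ℝ} (hg : IsMet g U) (hρ : Sm U ρ)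
    (h : ∀ z ∈ U, 0 < gam g ρ ρ z) : ContDiffOn ℝ ∞ (nu g ρ) U :=
  contDiffOn_pi.mpr fun i => (hg.sm_gr hρ i).div
    ((hg.sm_gam hρ hρ).sqrt fun z hz => (h z hz).ne') fun z hz => (Real.sqrt_pos.mpr (h z hz)).ne'

/-- The radial projection. -/
noncomputable def prj (x : E 3) : E 3 := (nrm x)⁻¹ • x

theorem prj_mem {x : E 3} (hx : x ≠ 0) : prj x ∈ sph := ((Hom0.const 0).eq_sph hx).1

theorem prj_sph {x : E 3} (hx : x ∈ sph) : prj x = x := by
  rw [prj, mem_sph_iff.mp hx, inv_one, one_smul]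

theorem ne_zero_sph {x : E 3} (hx : x ∈ sph) : x ≠ 0 :=
  ne_zero_of_nrm_pos (by rw [mem_sph_iff.mp hx]; exact one_pos)

theorem sm_prj : ContDiffOn ℝ ∞ prj {x | x ≠ 0} :=
  (sm_nrm.inv fun _ hx => (nrm_pos hx).ne').smul contDiffOn_id

theorem d_nrm {x : E 3} (hx : x ∈ sph) (v : E 3) : fderiv ℝ nrm x v = v ⬝ᵥ x := by
  rw [fderiv_eq_sum]
  simp only [pd_nrm (ne_zero_sph hx), mem_sph_iff.mp hx, div_one]
  rfl

theorem d_prj {x : E 3} (hx : x ∈ sph) (v : E 3) : fderiv ℝ prj x v = v - (v ⬝ᵥ x) • x := by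
  have h0 := ne_zero_sph hx
  have h1 := (sm_da isOpen_ne_zero sm_nrm h0).hasFDerivAt
  have h2 := ((hasDerivAt_inv (nrm_pos h0).ne').comp_hasFDerivAt x h1).smul (hasFDerivAt_id x)
  have h3 : fderiv ℝ prj x = _ := h2.fderiv
  rw [h3]
  simp [d_nrm hx, mem_sph_iff.mp hx, sub_eq_add_neg]

/-- The collar map. -/
noncomputable def col (ι N : E 3 → E 3) (x : E 3) : E 3 :=
  ι (prj x) + Real.log (nrm x) • N (ι (prj x))

theorem col_sph (ι N : E 3 → E 3) {x : E 3} (hx : x ∈ sph) : col ι N x = ι x := by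
  rw [col, mem_sph_iff.mp hx, Real.log_one, zero_smul, add_zero, prj_sph hx]

theorem da {F : E 3 → E 3} (h : ContDiffOn ℝ ∞ F {x | x ≠ 0}) {x : E 3} (hx : x ≠ 0) :
    DifferentiableAt ℝ F x :=
  (h.contDiffAt (isOpen_ne_zero.mem_nhds hx)).differentiableAt (by simp)

theorem d_col {ι N : E 3 → E 3} (hι : ContDiff ℝ ∞ ι)
    (hN : ContDiffOn ℝ ∞ (fun x => N (ι (prj x))) {x | x ≠ 0}) {x : E 3} (hx : x ∈ sph)
    (v : E 3) :
    fderiv ℝ (col ι N) x v = fderiv ℝ ι x (v - (v ⬝ᵥ x) • x) + (v ⬝ᵥ x) • N (ι x) := by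
  have h0 := ne_zero_sph hx
  have h1 := (sm_da isOpen_ne_zero sm_nrm h0).hasFDerivAt
  have h2 := (((hι.differentiable (by simp)) (prj x)).hasFDerivAt.comp x
    (da sm_prj h0).hasFDerivAt).add ((h1.log (nrm_pos h0).ne').smul (da hN h0).hasFDerivAt)
  have h3 : fderiv ℝ (col ι N) x = _ := h2.fderiv
  rw [h3]
  simp [d_nrm hx, d_prj hx, mem_sph_iff.mp hx, prj_sph hx]

theorem tang {ι : E 3 → E 3} {ρ : E 3 → ℝ} (hι : ContDiff ℝ ∞ ι) (hρ : ContDiff ℝ ∞ ρ)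
    (h : ∀ p ∈ sph, ρ (ι p) = 0) {x : E 3} (hx : x ∈ sph) (v : E 3) :
    fderiv ℝ ρ (ι x) (fderiv ℝ ι x (v - (v ⬝ᵥ x) • x)) = 0 := by
  have h0 := ne_zero_sph hx
  have h2 := ((hρ.differentiable (by simp)) (ι (prj x))).hasFDerivAt.comp x
    (((hι.differentiable (by simp)) (prj x)).hasFDerivAt.comp x (da sm_prj h0).hasFDerivAt)
  have h3 : HasFDerivAt (ρ ∘ ι ∘ prj) (0 : E 3 →L[ℝ] ℝ) x :=
    (hasFDerivAt_const (0 : ℝ) x).congr_of_eventuallyEq
      (eventually_of_mem (isOpen_ne_zero.mem_nhds h0) fun y hy => h _ (prj_mem hy))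
  have h4 := congrArg (fun L => L v) (h2.unique h3)
  simpa [d_prj hx, prj_sph hx] using h4

end CollarAux

open CollarAux in
theorem collar {S : SphereMetric} {φ : E 3 → ℝ} (hφ : Hom0 φ)
    (hγ : ∀ p ∈ sph, ∀ v w : E 3, v ⬝ᵥ p = 0 → w ⬝ᵥ p = 0 →
      v ⬝ᵥ (S.γ p).mulVec w = Real.exp (2 * φ p) * (v ⬝ᵥ w)) (X : AdmExt S) :
    ∃ (Φ : E 3 → E 3) (s₀ : ℝ), 0 < s₀ ∧ IsChart Φ (Sh (-s₀) s₀) ∧
      Bornology.IsBounded (Φ '' Sh (-s₀) s₀) ∧
      (∀ x ∈ Sh (-s₀) s₀, (X.g (Φ x)).PosDef ∧ (0 ≤ X.ρ (Φ x) ↔ 1 ≤ nrm x) ∧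
        (0 < X.ρ (Φ x) ↔ 1 < nrm x)) ∧
      Φ '' sph = {z | X.ρ z = 0} ∧
      ∀ x ∈ sph, pull Φ X.g x = cyl φ (fun _ => 1) x ∧ 0 < rad (fun y => X.ρ (Φ y)) x := by
  have hρ := X.exterior.smooth
  have hι := X.isometry.smooth
  have hg0 := isMet_posDef X.metric.smooth X.metric.symm
  have hz : ∀ p ∈ sph, X.ρ (X.ι p) = 0 := fun p hp => X.isometry.bij.mapsTo hp
  have hpd : ∀ p ∈ sph, (X.g (X.ι p)).PosDef := fun p hp => X.metric.pos _ (hz p hp).ge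
  have hgam : ∀ p ∈ sph, 0 < gam X.g X.ρ X.ρ (X.ι p) := fun p hp => by
    refine (gam_nonneg (hpd p hp) _).lt_of_ne' fun h => ?_
    obtain ⟨i, hi⟩ := X.exterior.regular _ (hz p hp)
    exact hi ((fderiv_eq_zero_iff _ _).mp ((gam_eq_zero_iff (hpd p hp) _).mp h) i)
  have hU : IsOpen ({z | (X.g z).PosDef} ∩ gam X.g X.ρ X.ρ ⁻¹' Ioi 0) :=
    (hg0.sm_gam hρ.contDiffOn hρ.contDiffOn).continuousOn.isOpen_inter_preimage hg0.opn isOpen_Ioi
  have hN : ContDiffOn ℝ ∞ (fun x => nu X.g X.ρ (X.ι (prj x))) {x | x ≠ 0} :=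
    (sm_nu (hg0.mono hU inter_subset_left) hρ.contDiffOn fun z hz => hz.2).comp
      (hι.comp_contDiffOn sm_prj) fun x hx => ⟨hpd _ (prj_mem hx), hgam _ (prj_mem hx)⟩
  set Φ := col X.ι (nu X.g X.ρ) with hΦd
  have hΦ : ContDiffOn ℝ ∞ Φ {x | x ≠ 0} :=
    (hι.comp_contDiffOn sm_prj).add (sm_log_nrm.smul hN)
  have hΦs : ∀ x ∈ sph, Φ x = X.ι x := fun x hx => col_sph _ _ hx
  have hpull : ∀ x ∈ sph, pull Φ X.g x = cyl φ (fun _ => 1) x := fun x hx => by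
    have h0 := ne_zero_sph hx
    have hxx : x ⬝ᵥ x = 1 := hx
    have hs := (Real.sqrt_pos.mpr (hgam x hx)).ne'
    have key : ∀ v w : E 3, v ⬝ᵥ pull Φ X.g x *ᵥ w = v ⬝ᵥ cyl φ (fun _ => 1) x *ᵥ w := by
      intro v w
      have ht : ∀ u : E 3, (u - (u ⬝ᵥ x) • x) ⬝ᵥ x = 0 := fun u => by
        rw [sub_dotProduct, smul_dotProduct, hxx, smul_eq_mul, mul_one, sub_self]
      have h1 := X.isometry.isom x hx _ _ (ht v) (ht w)
      rw [hγ x hx _ _ (ht v) (ht w), pull_quad, jac_mulVec (hι.differentiable (by simp) x),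
        jac_mulVec (hι.differentiable (by simp) x)] at h1
      rw [pull_quad, jac_mulVec (da hΦ h0), jac_mulVec (da hΦ h0), d_col hι hN hx, d_col hι hN hx,
        hΦs x hx, cyl_quad _ _ h0, mem_sph_iff.mp hx, mulVec_add, add_dotProduct, dotProduct_add,
        dotProduct_add, h1, mulVec_smul, dotProduct_smul, dotProduct_smul, smul_dotProduct,
        smul_dotProduct, symm_dot (X.metric.symm _) (nu X.g X.ρ (X.ι x)) (fderiv ℝ X.ι x _),
        dot_nu (hpd x hx), dot_nu (hpd x hx), dot_nu (hpd x hx), tang hι hρ hz hx,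
        tang hι hρ hz hx, d_nu (hgam x hx), inv_mul_cancel₀ hs]
      simp only [sub_dotProduct, dotProduct_sub, smul_dotProduct, dotProduct_smul, hxx,
        smul_eq_mul, dotProduct_comm x w]
      ring
    ext i j
    simpa using key (Pi.single i 1) (Pi.single j 1)
  have hrad : ∀ x ∈ sph, 0 < rad (fun y => X.ρ (Φ y)) x := fun x hx => by
    have h0 := ne_zero_sph hx
    have hxx : x ⬝ᵥ x = 1 := hx
    have h1 : fderiv ℝ (fun y => X.ρ (Φ y)) x = _ :=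
      ((hρ.differentiable (by simp) (Φ x)).hasFDerivAt.comp x (da hΦ h0).hasFDerivAt).fderiv
    rw [rad, h1, ContinuousLinearMap.comp_apply, d_col hι hN hx, hΦs x hx, map_add,
      tang hι hρ hz hx, map_smul, d_nu (hgam x hx), hxx, zero_add, one_smul]
    exact Real.sqrt_pos.mpr (hgam x hx)
  obtain ⟨V, hV0, hV1, hV⟩ := exists_chart_nhd isOpen_ne_zero hΦ isCompact_sph
    (fun x hx => ne_zero_sph hx)
    (fun x hx y hy h => X.isometry.bij.injOn hx hy (by rwa [hΦs x hx, hΦs y hy] at h))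
    fun x hx h => by
      have h1 := ((isMet_cyl hφ isOpen_ne_zero (fun _ h => h) (N := fun _ => 1) contDiffOn_const
        fun _ _ => one_pos).pos x (ne_zero_sph hx)).det_pos
      rw [← hpull x hx, pull, det_mul, h, mul_zero] at h1
      exact lt_irrefl _ h1
  have hsm : Sm {x | x ≠ 0} fun y => X.ρ (Φ y) := hρ.comp_contDiffOn hΦ
  have hW : IsOpen ((V ∩ Φ ⁻¹' {z | (X.g z).PosDef}) ∩ rad (fun y => X.ρ (Φ y)) ⁻¹' Ioi 0) :=
    ((sm_rad isOpen_ne_zero hsm).continuousOn.mono fun x hx => hV0 hx.1).isOpen_inter_preimage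
      (hV.isOpen_preimage hg0.opn) isOpen_Ioi
  obtain ⟨τ, hτ, hsub⟩ := Sh_subset_of_open hW (le_refl 0) fun x hx => by
    have h1 : x ∈ sph := mem_sph_iff.mpr (by
      have h2 := hx.1
      have h3 := hx.2
      rw [Real.exp_zero] at h2 h3
      exact le_antisymm h3 h2)
    exact ⟨⟨hV1 h1, by rw [mem_preimage, hΦs x h1]; exact hpd x h1⟩, hrad x h1⟩
  rw [zero_sub, zero_add] at hsub
  have hSh : Sh (-τ) τ ⊆ Shc (-τ) τ := fun x hx => ⟨hx.1.le, hx.2.le⟩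
  refine ⟨Φ, τ, hτ, hV.mono (isOpen_Sh _ _) fun x hx => (hsub (hSh hx)).1.1, ?_,
    fun x hx => ⟨(hsub (hSh hx)).1.2, ?_⟩, ?_, fun x hx => ⟨hpull x hx, hrad x hx⟩⟩
  · exact ((isCompact_Shc (-τ) τ).image_of_continuousOn
      (hΦ.continuousOn.mono fun x hx => ne_zero_of_mem_Shc hx)).isBounded.subset (image_mono hSh)
  · obtain ⟨h0, h1, h2⟩ := mem_Sh_iff.mp hx
    have hp := prj_mem h0
    have hm : ∀ t ∈ Ioo (-τ) τ, Real.exp t • prj x ∈ Shc (-τ) τ := fun t ht => by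
      constructor <;> rw [nrm_exp_smul t hp]
      · exact Real.exp_le_exp.mpr ht.1.le
      · exact Real.exp_le_exp.mpr ht.2.le
    have hd : ∀ t ∈ Ioo (-τ) τ, HasDerivAt (fun t => X.ρ (Φ (Real.exp t • prj x)))
        (rad (fun y => X.ρ (Φ y)) (Real.exp t • prj x)) t := fun t ht =>
      hasDerivAt_ray (f := fun y => X.ρ (Φ y))
        (sm_da isOpen_ne_zero hsm (ne_zero_of_mem_Shc (hm t ht)))
    have hmono : StrictMonoOn (fun t => X.ρ (Φ (Real.exp t • prj x))) (Ioo (-τ) τ) :=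
      strictMonoOn_of_deriv_pos (convex_Ioo _ _)
        (fun t ht => (hd t ht).continuousAt.continuousWithinAt) fun t ht => by
          rw [interior_Ioo] at ht
          rw [(hd t ht).deriv]
          exact (hsub (hm t ht)).2
    have e0 : X.ρ (Φ (Real.exp 0 • prj x)) = 0 := by
      rw [Real.exp_zero, one_smul, hΦs _ hp, hz _ hp]
    have e1 : Real.exp (Real.log (nrm x)) • prj x = x := by
      rw [Real.exp_log (nrm_pos h0), prj, smul_smul, mul_inv_cancel₀ (nrm_pos h0).ne', one_smul]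
    have a1 := hmono.le_iff_le (a := 0) (b := Real.log (nrm x)) ⟨by linarith, hτ⟩ ⟨h1, h2⟩
    have a2 := hmono.lt_iff_lt (a := 0) (b := Real.log (nrm x)) ⟨by linarith, hτ⟩ ⟨h1, h2⟩
    simp only [e0, e1] at a1 a2
    rw [a1, a2, Real.log_nonneg_iff (nrm_pos h0), Real.log_pos_iff (nrm_nonneg x)]
    exact ⟨Iff.rfl, Iff.rfl⟩
  · rw [← X.isometry.bij.image_eq]
    exact image_congr hΦs

end Pool.Agent.P.MP_56a1cd_gt
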