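import Pool.Agent.P.MP_56a1cd_gt.Rules

namespace Pool.Agent.P.MP_56a1cd_gt

open MeasureTheory Matrix Set Filter Topology
open scoped ContDiff ENNReal

variable {m n : ℕ}

/-! Compatibility of the connection with the metric. -/

namespace CompatAux

theorem alg_inv (A G D E : Matrix (Fin n) (Fin n) ℝ) (h1 : G * A = 1)
    (h2 : D * G + A * E = 0) : E = -(G * D * G) := by
  have h3 : G * (D * G + A * E) = 0 := by rw [h2, Matrix.mul_zero]
  rw [Matrix.mul_add, ← Matrix.mul_assoc G A, h1, Matrix.one_mul, ← Matrix.mul_assoc] at h3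
  exact eq_neg_of_add_eq_zero_right h3

theorem alg_gam (G C : Fin n → Fin n → ℝ) (hG : ∀ i j, G i j = G j i) (p q P Q : Fin n → ℝ) :
    ∑ i, ∑ j, (((-∑ a, (C i a * G a j + C j a * G i a)) * p i + G i j * P i) * q j +
      G i j * p i * Q j) =
    ∑ i, ((P i - ∑ a, C a i * p a) * ∑ j, G i j * q j +
      (Q i - ∑ a, C a i * q a) * ∑ j, G i j * p j) := by
  have e1 : ∑ i, ∑ j, (∑ a, C i a * G a j) * p i * q j =
      ∑ i, (∑ a, C a i * p a) * ∑ j, G i j * q j := by
    simp only [Finset.sum_mul, Finset.mul_sum]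
    calc ∑ i, ∑ j, ∑ a, C i a * G a j * p i * q j
        = ∑ i, ∑ a, ∑ j, C i a * G a j * p i * q j :=
          Finset.sum_congr rfl fun i _ => Finset.sum_comm
      _ = ∑ a, ∑ i, ∑ j, C i a * G a j * p i * q j := Finset.sum_comm
      _ = ∑ a, ∑ j, ∑ i, C i a * G a j * p i * q j :=
          Finset.sum_congr rfl fun i _ => Finset.sum_comm
      _ = _ := Finset.sum_congr rfl fun a _ => Finset.sum_congr rfl fun j _ =>
          Finset.sum_congr rfl fun i _ => by ring
  have e2 : ∑ i, ∑ j, (∑ a, C j a * G i a) * p i * q j =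
      ∑ i, (∑ a, C a i * q a) * ∑ j, G i j * p j := by
    simp only [Finset.sum_mul, Finset.mul_sum]
    calc ∑ i, ∑ j, ∑ a, C j a * G i a * p i * q j
        = ∑ i, ∑ a, ∑ j, C j a * G i a * p i * q j :=
          Finset.sum_congr rfl fun i _ => Finset.sum_comm
      _ = ∑ a, ∑ i, ∑ j, C j a * G i a * p i * q j := Finset.sum_comm
      _ = _ := Finset.sum_congr rfl fun a _ => Finset.sum_congr rfl fun j _ =>
          Finset.sum_congr rfl fun i _ => by rw [hG j a]; ring
  have e3 : ∑ i, ∑ j, G i j * P i * q j = ∑ i, P i * ∑ j, G i j * q j := by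
    simp only [Finset.mul_sum]
    exact Finset.sum_congr rfl fun i _ => Finset.sum_congr rfl fun j _ => by ring
  have e4 : ∑ i, ∑ j, G i j * p i * Q j = ∑ i, Q i * ∑ j, G i j * p j := by
    simp only [Finset.mul_sum]
    rw [Finset.sum_comm]
    exact Finset.sum_congr rfl fun i _ => Finset.sum_congr rfl fun j _ => by rw [hG j i]; ring
  have l : ∀ i j, ((-∑ a, (C i a * G a j + C j a * G i a)) * p i + G i j * P i) * q j +
      G i j * p i * Q j = -((∑ a, C i a * G a j) * p i * q j) - (∑ a, C j a * G i a) * p i * q j +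
        G i j * P i * q j + G i j * p i * Q j := by
    intro i j
    rw [Finset.sum_add_distrib]
    ring
  have r : ∀ i, (P i - ∑ a, C a i * p a) * ∑ j, G i j * q j +
      (Q i - ∑ a, C a i * q a) * ∑ j, G i j * p j =
      -((∑ a, C a i * p a) * ∑ j, G i j * q j) - (∑ a, C a i * q a) * ∑ j, G i j * p j +
        P i * ∑ j, G i j * q j + Q i * ∑ j, G i j * p j := by
    intro i
    ring
  simp only [l]
  simp only [r, Finset.sum_add_distrib, Finset.sum_sub_distrib, Finset.sum_neg_distrib]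
  rw [e1, e2, e3, e4]

end CompatAux

open CompatAux

section
variable {g : Met n} {U : Set (E n)} {f h k : E n → ℝ} {x : E n}

theorem pd_met (hg : IsMet g U) (hx : x ∈ U) (k i j : Fin n) :
    pd k (fun y => g y i j) x = chr1 g k i j x + chr1 g k j i x := by
  have e1 : pd k (fun y => g y j i) x = pd k (fun y => g y i j) x :=
    pd_congr_on hg.opn (fun y hy => hg.symm hy j i) hx k
  unfold chr1
  rw [e1]
  ring

theorem chr1_eq (hg : IsMet g U) (hx : x ∈ U) (i j l : Fin n) :
    chr1 g i j l x = ∑ a, g x l a * chr g a i j x := by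
  simp only [chr_eq, Finset.mul_sum]
  rw [Finset.sum_comm]
  have e : ∀ b, ∑ a, g x l a * ((g x)⁻¹ a b * chr1 g i j b x) =
      (if l = b then 1 else 0) * chr1 g i j b x := by
    intro b
    rw [← hg.mul_inv hx l b, Finset.sum_mul]
    exact Finset.sum_congr rfl fun a _ => by ring
  simp only [e]
  simp

theorem pd_inv (hg : IsMet g U) (hx : x ∈ U) (k i j : Fin n) :
    pd k (fun y => (g y)⁻¹ i j) x =
      -∑ a, (chr g i k a x * (g x)⁻¹ a j + chr g j k a x * (g x)⁻¹ i a) := by
  have h1 : (g x)⁻¹ * g x = 1 := by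
    ext a b
    rw [Matrix.mul_apply, hg.inv_mul hx, Matrix.one_apply]
  have h2 : (Matrix.of fun a b => pd k (fun y => g y a b) x) * (g x)⁻¹ +
      g x * (Matrix.of fun a b => pd k (fun y => (g y)⁻¹ a b) x) = 0 := by
    ext a b
    have e : pd k (fun y => ∑ c, g y a c * (g y)⁻¹ c b) x =
        pd k (fun _ => if a = b then (1 : ℝ) else 0) x :=
      pd_congr_on hg.opn (fun y hy => hg.mul_inv hy a b) hx k
    rw [pd_const, pd_sum _ (fun c _ => (sm_da hg.opn (hg.sm a c) hx).fun_mul
      (sm_da hg.opn (hg.sm_inv c b) hx))] at e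
    simp only [Matrix.add_apply, Matrix.mul_apply, Matrix.of_apply, Matrix.zero_apply]
    rw [← Finset.sum_add_distrib, ← e]
    exact Finset.sum_congr rfl fun c _ =>
      (pd_mul (sm_da hg.opn (hg.sm a c) hx) (sm_da hg.opn (hg.sm_inv c b) hx) k).symm
  have h3 := congrFun (congrFun (alg_inv _ _ _ _ h1 h2) i) j
  simp only [Matrix.of_apply, Matrix.neg_apply, Matrix.mul_apply] at h3
  rw [h3, neg_inj]
  simp only [pd_met hg hx, chr_eq, mul_add, Finset.sum_add_distrib, add_mul, Finset.sum_mul]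
  rw [add_comm]
  congr 1
  rw [Finset.sum_comm]
  exact Finset.sum_congr rfl fun a _ => Finset.sum_congr rfl fun b _ => by
    rw [hg.inv_symm hx b j]; ring

theorem pd_gam (hg : IsMet g U) (hf : Sm U f) (hh : Sm U h) (hx : x ∈ U) (k : Fin n) :
    pd k (gam g f h) x =
      ∑ i, (hess g f k i x * gr g h i x + hess g h k i x * gr g f i x) := by
  have dG := fun i j => sm_da hg.opn (hg.sm_inv i j) hx
  have df := fun i => sm_da hg.opn (sm_pd hg.opn hf i) hx
  have dh := fun i => sm_da hg.opn (sm_pd hg.opn hh i) hx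
  have e0 : gam g f h = fun y => ∑ i, ∑ j, (g y)⁻¹ i j * pd i f y * pd j h y := rfl
  rw [e0, pd_sum _ (fun i _ => DifferentiableAt.fun_sum fun j _ =>
    ((dG i j).fun_mul (df i)).fun_mul (dh j))]
  have e1 : ∀ i, pd k (fun y => ∑ j, (g y)⁻¹ i j * pd i f y * pd j h y) x =
      ∑ j, (((-∑ a, (chr g i k a x * (g x)⁻¹ a j + chr g j k a x * (g x)⁻¹ i a)) * pd i f x +
        (g x)⁻¹ i j * pd k (pd i f) x) * pd j h x + (g x)⁻¹ i j * pd i f x * pd k (pd j h) x) := by
    intro i
    rw [pd_sum _ (fun j _ => ((dG i j).fun_mul (df i)).fun_mul (dh j))]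
    refine Finset.sum_congr rfl fun j _ => ?_
    rw [pd_mul (f := fun y => (g y)⁻¹ i j * pd i f y) ((dG i j).fun_mul (df i)) (dh j),
      pd_mul (dG i j) (df i), pd_inv hg hx]
  simp only [e1]
  exact alg_gam (fun i j => (g x)⁻¹ i j) (fun i a => chr g i k a x) (hg.inv_symm hx)
    (fun i => pd i f x) (fun i => pd i h x) (fun i => pd k (pd i f) x) (fun i => pd k (pd i h) x)

theorem gam_gam (hg : IsMet g U) (hf : Sm U f) (hh : Sm U h) (hx : x ∈ U) (a : E n → ℝ) :
    gam g a (gam g f h) x = hb g f a h x + hb g h a f x := by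
  rw [gam_comm (hg.pos x hx), gam_eq_gr]
  unfold hb
  rw [← Finset.sum_add_distrib]
  refine Finset.sum_congr rfl fun i _ => ?_
  rw [pd_gam hg hf hh hx, Finset.sum_mul, ← Finset.sum_add_distrib]
  exact Finset.sum_congr rfl fun j _ => by ring

theorem hb_comm (hg : IsMet g U) (hf : Sm U f) (hx : x ∈ U) (a b : E n → ℝ) :
    hb g f a b x = hb g f b a x := by
  unfold hb
  rw [Finset.sum_comm]
  exact Finset.sum_congr rfl fun i _ => Finset.sum_congr rfl fun j _ => by
    rw [hg.hess_symm hf hx j i]; ring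

/-- The Koszul formula for the Hessian. -/
theorem hb_koszul (hg : IsMet g U) (hf : Sm U f) (hh : Sm U h) (hk : Sm U k) (hx : x ∈ U) :
    hb g f h k x =
      (gam g h (gam g f k) x + gam g k (gam g f h) x - gam g f (gam g h k) x) / 2 := by
  rw [gam_gam hg hf hk hx, gam_gam hg hf hh hx, gam_gam hg hh hk hx, hb_comm hg hf hx k h,
    hb_comm hg hk hx h f, hb_comm hg hh hx k f]
  ring

theorem hsq_nonneg (hg : IsMet g U) (hx : x ∈ U) (f : E n → ℝ) : 0 ≤ hsq g f x := by
  have hp := (hg.pos x hx).inv.posSemidef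
  have h1 := (hp.kronecker hp).dotProduct_mulVec_nonneg fun p => hess g f p.1 p.2 x
  refine h1.trans_eq ?_
  unfold hsq
  simp only [dotProduct, mulVec, Fintype.sum_prod_type, kroneckerMap_apply, star_trivial,
    Finset.mul_sum]
  refine Finset.sum_congr rfl fun i _ => Finset.sum_congr rfl fun j _ =>
    Finset.sum_congr rfl fun k _ => Finset.sum_congr rfl fun l _ => by ring

end

end Pool.Agent.P.MP_56a1cd_gt
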