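import Pool.Agent.P.MP_56a1cd_gt.Ibp

namespace Pool.Agent.P.MP_56a1cd_gt

open MeasureTheory Matrix Set Filter Topology
open scoped ContDiff ENNReal

variable {m n : ℕ}

/-! Conformally flat metrics. -/

section
variable {u f h : E n → ℝ} {U : Set (E n)} {x : E n}

theorem isMet_conf (hU : IsOpen U) (hu : Sm U u) : IsMet (conf u) U := by
  refine ⟨hU, fun i j => ?_, fun x _ => ?_⟩
  · have h1 : Sm U (fun y => Real.exp (2 * u y)) := (contDiffOn_const.mul hu).exp
    simp only [conf, Matrix.smul_apply, smul_eq_mul]
    exact h1.mul contDiffOn_const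
  · exact Matrix.PosDef.one.smul (Real.exp_pos _)

theorem conf_inv (u : E n → ℝ) (x : E n) :
    (conf u x)⁻¹ = Real.exp (-2 * u x) • (1 : Matrix (Fin n) (Fin n) ℝ) := by
  refine Matrix.inv_eq_right_inv ?_
  simp only [conf, Matrix.smul_mul, Matrix.mul_smul, Matrix.one_mul, smul_smul]
  rw [← Real.exp_add]
  simp

theorem vol_conf (u : E n → ℝ) (x : E n) : vol (conf u) x = Real.exp (n * u x) := by
  simp only [vol, conf, Matrix.det_smul, Matrix.det_one, mul_one, Fintype.card_fin]
  rw [← Real.exp_nat_mul, show (n : ℝ) * (2 * u x) = n * u x + n * u x by ring, Real.exp_add]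
  exact Real.sqrt_mul_self (Real.exp_pos _).le

theorem gam_conf (u f h : E n → ℝ) (x : E n) :
    gam (conf u) f h x = Real.exp (-2 * u x) * ∑ i, pd i f x * pd i h x := by
  simp only [gam, conf_inv, Matrix.smul_apply, Matrix.one_apply, smul_eq_mul, mul_ite, mul_one,
    mul_zero, ite_mul, zero_mul, Finset.sum_ite_eq, Finset.mem_univ, if_true, Finset.mul_sum]
  exact Finset.sum_congr rfl fun i _ => by ring

private theorem pd_exp (c : ℝ) (hd : DifferentiableAt ℝ u x) (k : Fin n) :
    pd k (fun y => Real.exp (c * u y)) x = c * Real.exp (c * u x) * pd k u x := by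
  have h : HasDerivAt (fun t : ℝ => Real.exp (c * t)) (c * Real.exp (c * u x)) (u x) := by
    have := ((hasDerivAt_id (u x)).const_mul c).exp
    simpa [mul_comm] using this
  exact pd_comp_real (β := fun t => Real.exp (c * t)) hd h k

private theorem pd_conf (hd : DifferentiableAt ℝ u x) (k i j : Fin n) :
    pd k (fun y => conf u y i j) x =
      if i = j then 2 * Real.exp (2 * u x) * pd k u x else 0 := by
  by_cases e : i = j
  · subst e
    simp only [conf, Matrix.smul_apply, Matrix.one_apply_eq, smul_eq_mul, mul_one, if_true]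
    exact pd_exp 2 hd k
  · simp only [conf, Matrix.smul_apply, Matrix.one_apply_ne e, smul_eq_mul, mul_zero, if_neg e]
    exact pd_const 0 x k

theorem chr_conf (hU : IsOpen U) (hu : Sm U u) (hx : x ∈ U) (k i j : Fin n) :
    chr (conf u) k i j x = (if i = k then pd j u x else 0) + (if j = k then pd i u x else 0) -
      (if i = j then pd k u x else 0) := by
  have hd := sm_da hU hu hx
  have e : Real.exp (-2 * u x) * Real.exp (2 * u x) = 1 := by
    rw [← Real.exp_add]
    simp
  simp only [chr, conf_inv, Matrix.smul_apply, Matrix.one_apply, smul_eq_mul, mul_ite, mul_one,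
    mul_zero, ite_mul, zero_mul, Finset.sum_ite_eq, Finset.mem_univ, if_true, pd_conf hd]
  split_ifs <;> first
    | linear_combination (pd j u x + pd i u x - pd k u x) * e
    | linear_combination (pd j u x + pd i u x) * e
    | linear_combination (pd j u x - pd k u x) * e
    | linear_combination (pd i u x - pd k u x) * e
    | linear_combination (pd j u x) * e
    | linear_combination (pd i u x) * e
    | linear_combination (- pd k u x) * e
    | simp

private theorem pd_ite (hU : IsOpen U) (hu : Sm U u) (hx : x ∈ U) (P : Prop) [Decidable P]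
    (j : Fin n) :
    DifferentiableAt ℝ (fun y => if P then pd j u y else 0) x ∧
      ∀ a, pd a (fun y => if P then pd j u y else 0) x = if P then pd a (pd j u) x else 0 := by
  by_cases e : P
  · simp only [if_pos e]
    exact ⟨sm_da hU (sm_pd hU hu j) hx, fun a => trivial⟩
  · simp only [if_neg e]
    exact ⟨differentiableAt_const _, fun a => pd_const 0 x a⟩

private theorem pd_chr_conf (hU : IsOpen U) (hu : Sm U u) (hx : x ∈ U) (a k i j : Fin n) :
    pd a (chr (conf u) k i j) x = (if i = k then pd a (pd j u) x else 0) +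
      (if j = k then pd a (pd i u) x else 0) - (if i = j then pd a (pd k u) x else 0) := by
  obtain ⟨d1, e1⟩ := pd_ite hU hu hx (i = k) j
  obtain ⟨d2, e2⟩ := pd_ite hU hu hx (j = k) i
  obtain ⟨d3, e3⟩ := pd_ite hU hu hx (i = j) k
  rw [pd_congr_on hU (fun y hy => chr_conf hU hu hy k i j) hx a, pd_sub (d1.fun_add d2) d3,
    pd_add d1 d2, e1, e2, e3]

private theorem sum_chr (p q : Fin n → ℝ) (i : Fin n) :
    ∑ k, ((if i = k then p i else 0) + (if i = k then p i else 0) - p k) * q k =
      2 * (p i * q i) - ∑ k, p k * q k := by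
  simp only [sub_mul, add_mul, ite_mul, zero_mul, Finset.sum_sub_distrib, Finset.sum_add_distrib,
    Finset.sum_ite_eq, Finset.mem_univ, if_true]
  ring

private theorem sum_quad (p : Fin n → ℝ) (i : Fin n) :
    ∑ k, ∑ l, ((if i = k then p l else 0) + (if l = k then p i else 0) - (if i = l then p k else 0)) *
      ((if i = l then p k else 0) + (if k = l then p i else 0) - (if i = k then p l else 0)) =
      ((n : ℝ) + 2) * p i ^ 2 - 2 * ∑ k, p k ^ 2 := by
  have e : ∀ k l, ((if i = k then p l else 0) + (if l = k then p i else 0) -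
      (if i = l then p k else 0)) *
      ((if i = l then p k else 0) + (if k = l then p i else 0) - (if i = k then p l else 0)) =
      (if k = l then p i ^ 2 else 0) - (if i = k then p l ^ 2 else 0) -
        (if i = l then p k ^ 2 else 0) + (if i = k then (if i = l then 2 * p i ^ 2 else 0) else 0) := by
    intro k l
    by_cases h1 : i = k
    · subst h1
      by_cases h2 : i = l
      · subst h2
        simp only [if_true]
        ring
      · have h3 : ¬ l = i := fun h => h2 h.symm
        simp only [if_true, if_neg h2, if_neg h3]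
        ring
    · by_cases h2 : i = l
      · subst h2
        have h3 : ¬ k = i := fun h => h1 h.symm
        simp only [if_true, if_neg h1, if_neg h3]
        ring
      · by_cases h3 : k = l
        · subst h3
          simp only [if_true, if_neg h1]
          ring
        · have h4 : ¬ l = k := fun h => h3 h.symm
          simp only [if_neg h1, if_neg h2, if_neg h3, if_neg h4]
          ring
  simp only [e, Finset.sum_sub_distrib, Finset.sum_add_distrib, Finset.sum_ite_eq,
    Finset.mem_univ, if_true, Finset.sum_ite_irrel, Finset.sum_const_zero, Finset.sum_const,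
    Finset.card_univ, Fintype.card_fin, nsmul_eq_mul]
  ring

private theorem ric_conf (hU : IsOpen U) (hu : Sm U u) (hx : x ∈ U) (i : Fin n) :
    ric (conf u) i i x = (2 - (n : ℝ)) * pd i (pd i u) x - ∑ k, pd k (pd k u) x +
      ((n : ℝ) - 2) * pd i u x ^ 2 - ((n : ℝ) - 2) * ∑ k, pd k u x ^ 2 := by
  have c1 : ∀ k l, chr (conf u) k k l x = pd l u x := by
    intro k l
    rw [chr_conf hU hu hx]
    by_cases e : k = l
    · subst e
      simp
    · have e' : ¬ l = k := fun h => e h.symm
      simp [e, e']
  have c2 : ∀ k, pd i (chr (conf u) k i k) x = pd i (pd i u) x := by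
    intro k
    rw [pd_chr_conf hU hu hx]
    simp
  have c3 : ∑ k, pd k (chr (conf u) k i i) x = 2 * pd i (pd i u) x - ∑ k, pd k (pd k u) x := by
    simp only [pd_chr_conf hU hu hx, if_true, Finset.sum_sub_distrib, Finset.sum_add_distrib,
      Finset.sum_ite_eq, Finset.mem_univ]
    ring
  have c4 : ∑ l, pd l u x * chr (conf u) l i i x = 2 * pd i u x ^ 2 - ∑ k, pd k u x ^ 2 := by
    have := sum_chr (fun k => pd k u x) (fun k => pd k u x) i
    simp only [chr_conf hU hu hx, if_true, sq]
    rw [← this]
    exact Finset.sum_congr rfl fun l _ => mul_comm _ _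
  have c5 : ∑ k, ∑ l, chr (conf u) k i l x * chr (conf u) l i k x =
      ((n : ℝ) + 2) * pd i u x ^ 2 - 2 * ∑ k, pd k u x ^ 2 := by
    simp only [chr_conf hU hu hx]
    exact sum_quad (fun k => pd k u x) i
  simp only [ric, c1, c2, Finset.sum_sub_distrib, Finset.sum_add_distrib, c3, c4, c5,
    Finset.sum_const, Finset.card_univ, Fintype.card_fin, nsmul_eq_mul]
  ring

theorem lap_conf (hU : IsOpen U) (hu : Sm U u) (hx : x ∈ U) (f : E n → ℝ) :
    lap (conf u) f x = Real.exp (-2 * u x) *
      (∑ i, pd i (pd i f) x + ((n : ℝ) - 2) * ∑ i, pd i u x * pd i f x) := by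
  have c : ∀ i, hess (conf u) f i i x =
      pd i (pd i f) x - (2 * (pd i u x * pd i f x) - ∑ k, pd k u x * pd k f x) := by
    intro i
    simp only [hess, chr_conf hU hu hx, if_true]
    rw [sum_chr (fun k => pd k u x) (fun k => pd k f x) i]
  simp only [lap, conf_inv, Matrix.smul_apply, Matrix.one_apply, smul_eq_mul, mul_ite, mul_one,
    mul_zero, ite_mul, zero_mul, Finset.sum_ite_eq, Finset.mem_univ, if_true, c]
  rw [← Finset.mul_sum]
  simp only [Finset.sum_sub_distrib, ← Finset.mul_sum, Finset.sum_const, Finset.card_univ,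
    Fintype.card_fin, nsmul_eq_mul]
  ring

theorem scal_conf (hU : IsOpen U) (hu : Sm U u) (hx : x ∈ U) :
    scal (conf u) x = -((n : ℝ) - 1) * Real.exp (-2 * u x) *
      (2 * ∑ i, pd i (pd i u) x + ((n : ℝ) - 2) * ∑ i, pd i u x ^ 2) := by
  simp only [scal, conf_inv, Matrix.smul_apply, Matrix.one_apply, smul_eq_mul, mul_ite, mul_one,
    mul_zero, ite_mul, zero_mul, Finset.sum_ite_eq, Finset.mem_univ, if_true, ric_conf hU hu hx]
  rw [← Finset.mul_sum]
  simp only [Finset.sum_sub_distrib, Finset.sum_add_distrib, ← Finset.mul_sum, Finset.sum_const,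
    Finset.card_univ, Fintype.card_fin, nsmul_eq_mul]
  ring

theorem meanCurv_conf (hU : IsOpen U) (hu : Sm U u) (hf : Sm U f) (hx : x ∈ U)
    (h0 : gam flat f f x ≠ 0) :
    meanCurv (conf u) f x = Real.exp (-u x) *
      (meanCurv flat f x + ((n : ℝ) - 1) * gam flat u f x / √(gam flat f f x)) := by
  have hfl : IsMet (flat : Met n) U := isMet_flat hU
  have hd := sm_da hU hu hx
  have g1 : ∀ a b : E n → ℝ, gam (conf u) a b = fun y => Real.exp (-2 * u y) * gam flat a b y := by
    intro a b
    funext y
    rw [gam_conf, gam_flat]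
  have hE := Real.exp_pos (-u x)
  have e2 : Real.exp (-2 * u x) = Real.exp (-u x) * Real.exp (-u x) := by
    rw [← Real.exp_add]
    ring_nf
  have h1 : gam (conf u) f f x ≠ 0 := by
    rw [g1]
    exact mul_ne_zero (Real.exp_pos _).ne' h0
  have hp : 0 < gam flat f f x := lt_of_le_of_ne (gam_nonneg (hfl.pos x hx) f) (Ne.symm h0)
  have hs : 0 < √(gam flat f f x) := Real.sqrt_pos.2 hp
  have s1 : √(Real.exp (-2 * u x) * gam flat f f x) = Real.exp (-u x) * √(gam flat f f x) := by
    rw [e2, Real.sqrt_mul (mul_self_nonneg _), Real.sqrt_mul_self hE.le]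
  have dE : DifferentiableAt ℝ (fun y => Real.exp (-2 * u y)) x := (hd.const_mul _).exp
  have dG : DifferentiableAt ℝ (gam flat f f) x := sm_da hU (hfl.sm_gam hf hf) hx
  have hβ : HasDerivAt (fun t : ℝ => Real.exp (-2 * t)) (-2 * Real.exp (-2 * u x)) (u x) := by
    have := ((hasDerivAt_id (u x)).const_mul (-2)).exp
    simpa [mul_comm] using this
  have q1 : gam flat f (fun y => Real.exp (-2 * u y) * gam flat f f y) x =
      Real.exp (-2 * u x) * gam flat f (gam flat f f) x +
        gam flat f f x * (-2 * Real.exp (-2 * u x) * gam flat u f x) := by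
    rw [gam_mul_right flat dE dG,
      gam_comp_right flat (β := fun t => Real.exp (-2 * t)) hd hβ, gam_comm (hfl.pos x hx) f u]
  rw [meanCurv_eq (isMet_conf hU hu) hf hx h1, meanCurv_eq hfl hf hx h0, lap_conf hU hu hx,
    ← lap_flat, ← gam_flat]
  simp only [g1]
  rw [q1, s1, e2]
  field_simp
  ring

end

end Pool.Agent.P.MP_56a1cd_gt
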