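import Pool.Agent.P.MP_56a1cd_gt.PolarCh

namespace Pool.Agent.P.MP_56a1cd_gt

open MeasureTheory Matrix Set Filter Topology
open scoped ContDiff ENNReal

variable {m n : ℕ}

/-! PLAN. Read everything in the chart `polar ε` (`exists_polar`, `scal_pull`, `lap_pull`,
`pull_polar_cyl`, `scal_congr`, `lap_congr`), then `scal_blk`, `lap_blk_pr`, `scal_conf`, `lap_conf`.
For `kform`: the flat Laplacian of `log (2 / (1 + y ⬝ y))` is `-4 / (1 + y ⬝ y)²`. For `neck_curv`: on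
the slice at height `t` the lapse is `1 - b t + b t * L * ξ (ε • σ y)`; `lap_add`, `lap_cmul`.
-/

namespace CurvAux

variable {φ ξ N : E 3 → ℝ} {ε : ℝ}

theorem polar_eq (ε : ℝ) (z : E 3) : polar ε z = Real.exp (z 2) • (ε • stereo (pr z)) := by
  conv_lhs => rw [← lift_pr z]
  exact polar_lift ε _ _

theorem polar_zero (ε : ℝ) (y : E 2) : polar ε (lift 0 y) = ε • stereo y := by
  rw [polar_lift, Real.exp_zero, one_smul]

theorem hom_polar (hξ : Hom0 ξ) (ε : ℝ) (z : E 3) : ξ (polar ε z) = ξ (ε • stereo (pr z)) := by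
  rw [polar_eq, hξ.hom _ _ (Real.exp_pos _)]

theorem sm_st (hξ : Hom0 ξ) (hε : ε = 1 ∨ ε = -1) : Sm univ (fun w => ξ (ε • stereo w)) :=
  hξ.sm.comp (contDiff_stereo.const_smul ε).contDiffOn
    (fun w _ => by rw [← polar_zero]; exact polar_ne_zero hε _)

theorem met (hφ : Hom0 φ) (hε : ε = 1 ∨ ε = -1) : IsMet (conf (phs φ ε)) univ :=
  isMet_conf isOpen_univ (sm_phs hφ hε).contDiffOn

theorem scal_cyl (hφ : Hom0 φ) (hN : Sm {x | x ≠ 0} N) (hN0 : ∀ x, x ≠ 0 → 0 < N x)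
    (hε : ε = 1 ∨ ε = -1) (z : E 3) :
    scal (cyl φ N) (polar ε z) = scal (conf (phs φ ε)) (pr z) -
      2 * lap (conf (phs φ ε)) (fun y => N (polar ε (lift (z 2) y))) (pr z) / N (polar ε z) := by
  have hm : MapsTo (polar ε) univ {x | x ≠ 0} := fun w _ => polar_ne_zero hε w
  rw [← scal_pull (isMet_cyl hφ isOpen_ne_zero (fun _ hx => hx) hN hN0) (isChart_polar hε) hm
    (mem_univ z), funext (pull_polar_cyl hφ N hε)]
  exact scal_blk (met hφ hε) isOpen_univ (mapsTo_univ _ _) ((isChart_polar hε).sm_comp hm hN)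
    (fun w _ => hN0 _ (polar_ne_zero hε w)) (mem_univ z)

theorem pd_dot (i : Fin n) (y : E n) : pd i (fun w : E n => w ⬝ᵥ w) y = 2 * y i := by
  have d : ∀ k, DifferentiableAt ℝ (fun w : E n => w k) y := fun k => by fun_prop
  simp only [dotProduct]
  rw [pd_sum (f := fun k (w : E n) => w k * w k) _ (fun k _ => (d k).mul (d k)),
    Finset.sum_congr rfl (fun k _ => pd_mul (d k) (d k) i)]
  simp only [pd_coord, ite_mul, mul_ite, one_mul, zero_mul, mul_one, mul_zero,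
    Finset.sum_add_distrib, Finset.sum_ite_eq, Finset.mem_univ, if_true]
  ring

theorem one_add_pos (y : E n) : 0 < 1 + y ⬝ᵥ y := by
  rw [← nrm_sq]; positivity

theorem da_dot (y : E n) : DifferentiableAt ℝ (fun w : E n => w ⬝ᵥ w) y := by
  simp only [dotProduct]
  fun_prop

theorem pd_log (i : Fin n) : pd i (fun w : E n => Real.log (2 / (1 + w ⬝ᵥ w))) =
    fun y => -2 * ((1 + y ⬝ᵥ y)⁻¹ * y i) := by
  funext y
  have h0 := one_add_pos y
  have e : (fun w : E n => Real.log (2 / (1 + w ⬝ᵥ w))) =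
      fun w => -Real.log (1 + w ⬝ᵥ w) + Real.log 2 := by
    funext w
    rw [Real.log_div two_ne_zero (one_add_pos w).ne']
    ring
  have h : HasDerivAt (fun t : ℝ => Real.log (1 + t)) (1 + y ⬝ᵥ y)⁻¹ (y ⬝ᵥ y) := by
    simpa using ((hasDerivAt_id (y ⬝ᵥ y)).const_add 1).log h0.ne'
  rw [e, pd_add_const, pd_neg, pd_comp_real (β := fun t : ℝ => Real.log (1 + t)) (da_dot y) h,
    pd_dot]
  ring

theorem lap_log (y : E 2) : ∑ i, pd i (pd i (fun w : E 2 => Real.log (2 / (1 + w ⬝ᵥ w)))) y =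
    -(2 / (1 + y ⬝ᵥ y)) ^ 2 := by
  have h0 := one_add_pos y
  have h : HasDerivAt (fun t : ℝ => (1 + t)⁻¹) (-((1 + y ⬝ᵥ y) ^ 2)⁻¹) (y ⬝ᵥ y) := by
    simpa [neg_div] using ((hasDerivAt_id (y ⬝ᵥ y)).const_add 1).fun_inv h0.ne'
  have d : DifferentiableAt ℝ (fun w : E 2 => (1 + w ⬝ᵥ w)⁻¹) y :=
    ((da_dot y).const_add 1).fun_inv h0.ne'
  have e : ∀ i, pd i (pd i (fun w : E 2 => Real.log (2 / (1 + w ⬝ᵥ w)))) y =
      -2 * (-((1 + y ⬝ᵥ y) ^ 2)⁻¹ * (2 * y i) * y i + (1 + y ⬝ᵥ y)⁻¹) := fun i => by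
    rw [pd_log, pd_const_mul, pd_mul d (by fun_prop),
      pd_comp_real (β := fun t : ℝ => (1 + t)⁻¹) (da_dot y) h, pd_dot, pd_coord]
    simp
  have q : y ⬝ᵥ y = y 0 * y 0 + y 1 * y 1 := by simp [dotProduct]
  rw [Fin.sum_univ_two, e, e]
  rw [q] at h0 ⊢
  field_simp
  ring

end CurvAux

open CurvAux

section
variable {φ ξ : E 3 → ℝ}

theorem Kf_stereo (hφ : Hom0 φ) {ε : ℝ} (hε : ε = 1 ∨ ε = -1) (y : E 2) :
    Kf φ (ε • stereo y) = scal (conf (phs φ ε)) y / 2 := by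
  rw [Kf, ← polar_zero, scal_cyl hφ contDiffOn_const (fun _ _ => one_pos) hε, lap_const, pr_lift]
  simp

theorem L0_stereo (hφ : Hom0 φ) (hξ : Hom0 ξ) {ε : ℝ} (hε : ε = 1 ∨ ε = -1) (y : E 2) :
    L0 φ ξ (ε • stereo y) = lap (conf (phs φ ε)) (fun w => ξ (ε • stereo w)) y := by
  have hm : MapsTo (polar ε) univ {x | x ≠ 0} := fun w _ => polar_ne_zero hε w
  rw [L0, ← polar_zero, ← lap_pull (isMet_cyl hφ isOpen_ne_zero (fun _ hx => hx) contDiffOn_const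
    (fun _ _ => one_pos)) (isChart_polar hε) hm hξ.sm (mem_univ _),
    funext (pull_polar_cyl hφ _ hε), funext (hom_polar hξ ε)]
  have := lap_blk_pr (met hφ hε) (sm_st hξ hε) (z := lift 0 y) (mem_univ _)
  rwa [pr_lift] at this

theorem kform (hφ : Hom0 φ) {x : E 3} (hx : x ≠ 0) :
    Kf φ x = Real.exp (-2 * φ x) - L0 φ φ x := by
  obtain ⟨ε, z, hε, -, -, rfl⟩ := exists_polar hx
  have hu : Sm univ (phs φ ε) := (sm_phs hφ hε).contDiffOn
  have hl : Sm univ (fun w : E 2 => Real.log (2 / (1 + w ⬝ᵥ w))) := by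
    refine (hu.sub (sm_st hφ hε)).congr fun w _ => ?_
    simp [phs]
  have h1 : lap (conf (phs φ ε)) (phs φ ε) (pr z) =
      lap (conf (phs φ ε)) (fun w => φ (ε • stereo w)) (pr z) +
        lap (conf (phs φ ε)) (fun w : E 2 => Real.log (2 / (1 + w ⬝ᵥ w))) (pr z) :=
    lap_add _ isOpen_univ (sm_st hφ hε) hl (mem_univ _)
  rw [lap_conf isOpen_univ hu (mem_univ _) (phs φ ε),
    lap_conf isOpen_univ hu (mem_univ _) (fun w : E 2 => Real.log (2 / (1 + w ⬝ᵥ w))), lap_log] at h1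
  rw [hom_polar hφ.Kf, hom_polar (hφ.L0 hφ), hom_polar hφ, Kf_stereo hφ hε, L0_stereo hφ hφ hε,
    scal_conf isOpen_univ hu (mem_univ _)]
  have h2 : Real.exp (-2 * phs φ ε (pr z)) * (2 / (1 + pr z ⬝ᵥ pr z)) ^ 2 =
      Real.exp (-2 * φ (ε • stereo (pr z))) := by
    have h0 := one_add_pos (pr z)
    rw [neg_mul, neg_mul, Real.exp_neg, Real.exp_neg, exp_phs]
    field_simp
  norm_num at h1 h2 ⊢
  linarith

theorem neck_curv (hφ : Hom0 φ) (hξ : Hom0 ξ) (hξ0 : ∀ x, x ≠ 0 → 0 < ξ x) {b : ℝ → ℝ}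
    (hb : ContDiff ℝ ∞ b) (hb0 : ∀ t, 0 ≤ b t ∧ b t ≤ 1) {L : ℝ} (hL : 0 < L) {x : E 3}
    (hx : x ≠ 0) :
    scal (cyl φ (lapse b L ξ)) x / 2 * lapse b L ξ x =
      (1 - b (Real.log (nrm x))) * Kf φ x +
        b (Real.log (nrm x)) * L * (Kf φ x * ξ x - L0 φ ξ x) := by
  obtain ⟨h1, h2, -⟩ := isMet_lapse hφ hξ hξ0 hb hb0 hL
  have h3 := (h2 x hx).ne'
  obtain ⟨ε, z, hε, -, ht, rfl⟩ := exists_polar hx
  have e : (fun y => lapse b L ξ (polar ε (lift (z 2) y))) =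
      fun y => (1 - b (z 2)) + b (z 2) * L * ξ (ε • stereo y) := by
    funext y
    rw [lapse, nrm_polar hε, Real.log_exp, hom_polar hξ, pr_lift]
    rfl
  rw [scal_cyl hφ h1 h2 hε, e, lap_add _ isOpen_univ contDiffOn_const
    (contDiffOn_const.mul (sm_st hξ hε)) (mem_univ _), lap_const, lap_cmul, ← L0_stereo hφ hξ hε,
    ← hom_polar (hφ.L0 hξ), hom_polar hφ.Kf, Kf_stereo hφ hε, ← ht]
  have e2 : lapse b L ξ (polar ε z) = (1 - b (z 2)) + b (z 2) * L * ξ (polar ε z) := by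
    rw [lapse, ← ht]
  field_simp
  rw [e2]
  ring

end

end Pool.Agent.P.MP_56a1cd_gt
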