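import Mathlib

/-!
Riemannian geometry in coordinates, Bartnik data on the two-sphere, admissible asymptotically
flat extensions, capacity and maximum capacity.
-/

namespace Pool.Agent.P.MP_56a1cd_gt

open MeasureTheory Matrix Set Filter Topology
open scoped ContDiff ENNReal

/-- Coordinate space. -/
abbrev E (n : ℕ) : Type := Fin n → ℝ

/-- Fields of matrices (components of a metric tensor). -/
abbrev Met (n : ℕ) : Type := E n → Matrix (Fin n) (Fin n) ℝ

variable {m n : ℕ}

/-- The derivative of `f` in the `i`-th coordinate direction. -/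
noncomputable def pd (i : Fin n) (f : E n → ℝ) (x : E n) : ℝ := fderiv ℝ f x (Pi.single i 1)

/-- The Euclidean norm. -/
noncomputable def nrm (x : E n) : ℝ := √(x ⬝ᵥ x)

/-- The Christoffel symbol with upper index `k` and lower indices `i`, `j`. -/
noncomputable def chr (g : Met n) (k i j : Fin n) (x : E n) : ℝ :=
  (1 / 2) * ∑ l, (g x)⁻¹ k l *
    (pd i (fun y => g y j l) x + pd j (fun y => g y i l) x - pd l (fun y => g y i j) x)

/-- The Ricci tensor. -/
noncomputable def ric (g : Met n) (i j : Fin n) (x : E n) : ℝ :=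
  ∑ k, (pd k (chr g k i j) x - pd j (chr g k i k) x +
    ∑ l, (chr g k k l x * chr g l i j x - chr g k j l x * chr g l i k x))

/-- The scalar curvature. -/
noncomputable def scal (g : Met n) (x : E n) : ℝ := ∑ i, ∑ j, (g x)⁻¹ i j * ric g i j x

/-- The inner product of the gradients of `f` and `h`. -/
noncomputable def gam (g : Met n) (f h : E n → ℝ) (x : E n) : ℝ :=
  ∑ i, ∑ j, (g x)⁻¹ i j * pd i f x * pd j h x

/-- The density of the Riemannian volume. -/
noncomputable def vol (g : Met n) (x : E n) : ℝ := √((g x).det)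

/-- The Jacobian matrix. -/
noncomputable def jac (Φ : E m → E n) (y : E m) : Matrix (Fin n) (Fin m) ℝ :=
  Matrix.of fun i j => pd j (fun z => Φ z i) y

/-- The pull-back of a metric. -/
noncomputable def pull (Φ : E m → E n) (g : Met n) : Met m :=
  fun y => (jac Φ y).transpose * g (Φ y) * jac Φ y

/-- The `i`-th component of the unit normal, the normalised gradient of `ρ`. -/
noncomputable def unitNormal (g : Met n) (ρ : E n → ℝ) (i : Fin n) (x : E n) : ℝ :=
  (∑ j, (g x)⁻¹ i j * pd j ρ x) / √(gam g ρ ρ x)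

/-- The mean curvature of the level sets of `ρ`: the divergence of the unit normal. -/
noncomputable def meanCurv (g : Met n) (ρ : E n → ℝ) (x : E n) : ℝ :=
  ∑ i, (pd i (unitNormal g ρ i) x + ∑ k, chr g i i k x * unitNormal g ρ k x)

/-- The unit two-sphere. -/
def sph : Set (E 3) := {x | x ⬝ᵥ x = 1}

/-- The inverse of the stereographic projection from the north pole. -/
noncomputable def stereo (y : E 2) : E 3 :=
  ![2 * y 0 / (1 + y ⬝ᵥ y), 2 * y 1 / (1 + y ⬝ᵥ y), (y ⬝ᵥ y - 1) / (1 + y ⬝ᵥ y)]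

/-- A smooth Riemannian metric on the two-sphere: a smooth field of symmetric matrices that is
positive definite on the tangent planes of the sphere. -/
structure SphereMetric where
  γ : Met 3
  smooth : ∀ i j, ContDiff ℝ ∞ (fun x => γ x i j)
  symm : ∀ x i j, γ x i j = γ x j i
  pos : ∀ p ∈ sph, ∀ v : E 3, v ⬝ᵥ p = 0 → v ≠ 0 → 0 < v ⬝ᵥ (γ p).mulVec v

/-- The area. -/
noncomputable def area (S : SphereMetric) : ℝ := ∫ y, vol (pull stereo S.γ) y

/-- The integral of `|∇u|² + K u²`, where the Gauss curvature `K` is half the scalar curvature. -/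
noncomputable def rayleighNum (S : SphereMetric) (u : E 3 → ℝ) : ℝ :=
  ∫ y, (gam (pull stereo S.γ) (fun z => u (stereo z)) (fun z => u (stereo z)) y +
    scal (pull stereo S.γ) y / 2 * u (stereo y) ^ 2) * vol (pull stereo S.γ) y

/-- The integral of `u²`. -/
noncomputable def rayleighDen (S : SphereMetric) (u : E 3 → ℝ) : ℝ :=
  ∫ y, u (stereo y) ^ 2 * vol (pull stereo S.γ) y

/-- The lowest eigenvalue of `-Δ + K`, as the infimum of the Rayleigh quotient. -/
noncomputable def lambdaOne (S : SphereMetric) : ℝ :=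
  sInf {q | ∃ u : E 3 → ℝ, ContDiff ℝ ∞ u ∧ (∃ p ∈ sph, u p ≠ 0) ∧
    q = rayleighNum S u / rayleighDen S u}

/-- The decay conditions of asymptotic flatness, outside the ball of radius `r`. -/
def Decay (h : Met 3) (r : ℝ) : Prop :=
  ∃ C τ : ℝ, 0 < C ∧ 1 / 2 < τ ∧ τ ≤ 1 ∧ ∀ x, r < nrm x → ∀ i j k l,
    |h x i j - (if i = j then 1 else 0)| ≤ C * nrm x ^ (-τ) ∧
    |pd k (fun y => h y i j) x| ≤ C * nrm x ^ (-τ - 1) ∧
    |pd k (pd l (fun y => h y i j)) x| ≤ C * nrm x ^ (-τ - 2)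

/-- Asymptotic flatness of `(M, g)`. -/
def AsympFlat (M : Set (E 3)) (g : Met 3) : Prop :=
  IntegrableOn (fun x => scal g x * vol g x) M ∧
  ∃ (K : Set (E 3)) (r : ℝ) (F F' : E 3 → E 3), IsCompact K ∧ K ⊆ M ∧ 0 < r ∧
    BijOn F {x | r < nrm x} (M \ K) ∧ InvOn F' F {x | r < nrm x} (M \ K) ∧
    ContDiffOn ℝ ∞ F {x | r < nrm x} ∧ ContDiffOn ℝ ∞ F' (M \ K) ∧ Decay (pull F g) r

/-- `{0 ≤ ρ}` is the connected complement of the bounded open region `{ρ < 0}` enclosed by the
smooth closed surface `{ρ = 0}`. -/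
structure IsExterior (ρ : E 3 → ℝ) : Prop where
  smooth : ContDiff ℝ ∞ ρ
  regular : ∀ x, ρ x = 0 → ∃ i, pd i ρ x ≠ 0
  bounded : Bornology.IsBounded {x | ρ x < 0}
  connected : IsConnected {x | 0 ≤ ρ x}

/-- `g` is a smooth Riemannian metric on the closed set `M`. -/
structure IsMetricOn (g : Met 3) (M : Set (E 3)) : Prop where
  smooth : ∀ i j, ContDiff ℝ ∞ (fun x => g x i j)
  symm : ∀ x i j, g x i j = g x j i
  pos : ∀ x ∈ M, (g x).PosDef

/-- `ι` restricts to an isometry from the sphere with the metric `S` onto the surface `B` with the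
metric induced by `g`. -/
structure IsIsometry (S : SphereMetric) (ι : E 3 → E 3) (B : Set (E 3)) (g : Met 3) : Prop where
  smooth : ContDiff ℝ ∞ ι
  bij : BijOn ι sph B
  isom : ∀ p ∈ sph, ∀ v w : E 3, v ⬝ᵥ p = 0 → w ⬝ᵥ p = 0 →
    v ⬝ᵥ (pull ι g p).mulVec w = v ⬝ᵥ (S.γ p).mulVec w

/-- An admissible asymptotically flat extension of the horizon data given by `S`. The manifold is
`{0 ≤ ρ}`, its boundary is `{ρ = 0}`. -/
structure AdmExt (S : SphereMetric) where
  ρ : E 3 → ℝ
  g : Met 3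
  ι : E 3 → E 3
  exterior : IsExterior ρ
  metric : IsMetricOn g {x | 0 ≤ ρ x}
  flat : AsympFlat {x | 0 ≤ ρ x} g
  isometry : IsIsometry S ι {x | ρ x = 0} g
  scal_nonneg : ∀ x, 0 ≤ ρ x → 0 ≤ scal g x
  meanCurv_nonpos : ∀ x, ρ x = 0 → meanCurv g ρ x ≤ 0

/-- `ψ` is Lipschitz for the Riemannian distance of `(M, g)`: its oscillation along a curve in `M`
is at most a constant times the length of the curve. -/
def IsLip (M : Set (E 3)) (g : Met 3) (ψ : E 3 → ℝ) : Prop :=
  ∃ L : ℝ, ∀ c : ℝ → E 3, ContDiff ℝ 1 c → MapsTo c (Icc 0 1) M →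
    |ψ (c 1) - ψ (c 0)| ≤ L * ∫ t in (0 : ℝ)..1, √(deriv c t ⬝ᵥ (g (c t)).mulVec (deriv c t))

/-- The capacity of the boundary `{ρ = 0}` in `({0 ≤ ρ}, g)`. -/
noncomputable def capacity (ρ : E 3 → ℝ) (g : Met 3) : ℝ≥0∞ :=
  ⨅ ψ : {ψ : E 3 → ℝ // IsLip {x | 0 ≤ ρ x} g ψ ∧ (∀ x, ρ x = 0 → ψ x = 0) ∧
      Tendsto ψ (cocompact (E 3) ⊓ principal {x | 0 ≤ ρ x}) (nhds 1)},
    ENNReal.ofReal (1 / (4 * Real.pi)) *
      ∫⁻ x in {x | 0 ≤ ρ x}, ENNReal.ofReal (gam g ψ.1 ψ.1 x * vol g x)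

/-- The maximum capacity of the horizon data; it is `-∞` if there is no admissible extension. -/
noncomputable def maxCapacity (S : SphereMetric) : EReal :=
  ⨆ X : AdmExt S, ((capacity X.ρ X.g : ℝ≥0∞) : EReal)

end Pool.Agent.P.MP_56a1cd_gt
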