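import Pool.Agent.P.MP_56a1cd_gt.Weak

namespace Pool.Agent.P.MP_56a1cd_gt

open MeasureTheory Matrix Set Filter Topology
open scoped ContDiff ENNReal

variable {m n : ℕ}

/-! PLAN. `abs_le_integral_pds`: induction on a duplicate free list of coordinates, in the form
`‖v x‖ₑ ≤ (∫⋯∫⁻_s, ‖pds L v ·‖ₑ) x` with `s = L.toFinset` (`MeasureTheory.lmarginal`,
`lmarginal_insert`, `HasCompactSupport.enorm_le_lintegral_Ici_deriv` as in
`Mathlib/Analysis/FunctionalSpaces/SobolevInequality.lean`), then take all coordinates.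
`contDiff_of_cauchy`: induction on `m : ℕ` for `ContDiff ℝ m` generalising the sequence; use
`hasFDerivAt_of_tendstoUniformly` (or `hasFDerivAt_of_tendstoUniformlyOn`), `fderiv_eq_sum`,
`contDiff_succ_iff_fderiv`. `sob_emb`: for a list `L`, `HK L.length w` gives `q` in `L²` with
`pds L (mol k w) = mol k q` for all `k` (`pd_mol`, `pd` commute is not needed if the list is peeled from
the inside); apply the first lemma to `pds L (mol k w) - pds L (mol l w)`, which is supported in a fixed
ball (`mol_eq_zero`), Cauchy-Schwarz and `tendsto_mol`. The uniform limit equals `w` almost everywhere. -/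

namespace SobEmbAux

theorem test_pds {U : Set (E n)} (L : List (Fin n)) :
    ∀ {v : E n → ℝ}, Test U v → Test U (pds L v) := by
  induction L with
  | nil => exact fun h => h
  | cons i L ih => exact fun h => ih (h.pd i)

theorem pds_append (L L' : List (Fin n)) :
    ∀ v : E n → ℝ, pds (L ++ L') v = pds L' (pds L v) := by
  induction L with
  | nil => exact fun v => rfl
  | cons i L ih => exact fun v => ih (pd i v)

theorem pds_sub (L : List (Fin n)) : ∀ {a b : E n → ℝ}, ContDiff ℝ ∞ a → ContDiff ℝ ∞ b →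
    pds L (fun x => a x - b x) = fun x => pds L a x - pds L b x := by
  induction L with
  | nil => exact fun _ _ => rfl
  | cons i L ih =>
    intro a b ha hb
    have e : pd i (fun x => a x - b x) = fun x => pd i a x - pd i b x :=
      funext fun x => pd_sub (ha.differentiable (by simp) x) (hb.differentiable (by simp) x) i
    change pds L (pd i fun x => a x - b x) = _
    rw [e]
    exact ih (contDiff_pd ha i) (contDiff_pd hb i)

theorem enorm_le_line {v : E n → ℝ} (hv : Test univ v) (x : E n) (i : Fin n) :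
    ‖v x‖ₑ ≤ ∫⁻ t, ‖pd i v (Function.update x i t)‖ₑ := by
  have h1 : ContDiff ℝ 1 (v ∘ Function.update x i) :=
    (hv.sm.of_le (by simp)).comp (contDiff_update (𝕜 := ℝ) (F' := fun _ : Fin n => ℝ) 1 x i)
  have h2 := HasCompactSupport.enorm_le_lintegral_Ici_deriv h1
    (hv.cpt.comp_isClosedEmbedding (isClosedEmbedding_update x i)) (x i)
  have e : ∀ t, deriv (v ∘ Function.update x i) t = pd i v (Function.update x i t) := fun t =>
    ((hv.sm.differentiable (by simp) _).hasFDerivAt.comp_hasDerivAt t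
      (hasDerivAt_update x i t)).deriv
  simp only [e, Function.comp_apply, Function.update_eq_self] at h2
  exact h2.trans (lintegral_mono' Measure.restrict_le_self le_rfl)

theorem enorm_le_marg (L : List (Fin n)) (hL : L.Nodup) :
    ∀ v : E n → ℝ, Test univ v → ∀ x,
      ‖v x‖ₑ ≤ lmarginal (fun _ => volume) L.toFinset (fun y => ‖pds L v y‖ₑ) x := by
  induction L with
  | nil =>
    intro v _ x
    simp [pds]
  | cons i L ih =>
    intro v hv x
    rw [List.nodup_cons] at hL
    have hm : Measurable fun y => ‖pds (i :: L) v y‖ₑ :=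
      (test_pds (i :: L) hv).sm.continuous.measurable.enorm
    rw [List.toFinset_cons, lmarginal_insert _ hm (by simpa using hL.1)]
    exact (enorm_le_line hv x i).trans (lintegral_mono fun t => ih hL.2 _ (hv.pd i) _)

theorem ulim {f : ℕ → E n → ℝ}
    (h : ∀ ε > 0, ∃ N, ∀ k ≥ N, ∀ l ≥ N, ∀ x, |f k x - f l x| ≤ ε) :
    ∃ v, TendstoUniformly f v atTop := by
  have hc : UniformCauchySeqOn f atTop univ := by
    rw [Metric.uniformCauchySeqOn_iff]
    intro ε hε
    obtain ⟨N, hN⟩ := h (ε / 2) (by positivity)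
    refine ⟨N, fun k hk l hl x _ => ?_⟩
    rw [Real.dist_eq]
    linarith [hN k hk l hl x]
  have hp : ∀ x, ∃ y, Tendsto (fun k => f k x) atTop (𝓝 y) := fun x =>
    cauchySeq_tendsto_of_complete (hc.cauchySeq (mem_univ x))
  choose v hv using hp
  exact ⟨v, tendstoUniformlyOn_univ.1 (hc.tendstoUniformlyOn_of_tendsto fun x _ => hv x)⟩

/-- The linear form with given coefficients. -/
noncomputable def form (a : E n) : E n →L[ℝ] ℝ :=
  ∑ i, a i • ContinuousLinearMap.proj (R := ℝ) (φ := fun _ : Fin n => ℝ) i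

theorem form_apply (a v : E n) : form a v = ∑ i, v i * a i := by
  simp [form, mul_comm]

theorem norm_form_sub (a b : E n) {ε : ℝ} (hε : 0 ≤ ε) (h : ∀ i, |a i - b i| ≤ ε) :
    ‖form a - form b‖ ≤ n * ε := by
  refine ContinuousLinearMap.opNorm_le_bound _ (by positivity) fun v => ?_
  rw [_root_.sub_apply, form_apply, form_apply, ← Finset.sum_sub_distrib]
  refine (norm_sum_le _ _).trans ?_
  have : ∀ i, ‖v i * a i - v i * b i‖ ≤ ε * ‖v‖ := fun i => by
    rw [← mul_sub, norm_mul, mul_comm]
    exact mul_le_mul (h i) (norm_le_pi_norm v i) (norm_nonneg _) hε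
  refine (Finset.sum_le_sum fun i _ => this i).trans ?_
  simp [mul_assoc]

theorem contDiff_nat (m : ℕ) : ∀ (f : ℕ → E n → ℝ) (v : E n → ℝ), (∀ k, ContDiff ℝ ∞ (f k)) →
    (∀ L : List (Fin n), ∀ ε > 0, ∃ N, ∀ k ≥ N, ∀ l ≥ N, ∀ x,
      |pds L (f k) x - pds L (f l) x| ≤ ε) → TendstoUniformly f v atTop → ContDiff ℝ m v := by
  induction m with
  | zero =>
    intro f v hf _ hv
    exact contDiff_zero.2 (hv.continuous (Frequently.of_forall fun k => (hf k).continuous))
  | succ m ih =>
    intro f v hf h hv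
    have hg : ∀ i, ∃ g, TendstoUniformly (fun k => pd i (f k)) g atTop := fun i => ulim (h [i])
    choose g hg using hg
    have hgm : ∀ i, ContDiff ℝ m (g i) := fun i =>
      ih _ _ (fun k => contDiff_pd (hf k) i) (fun L => h (i :: L)) (hg i)
    have hG : ContDiff ℝ m (fun x => form fun i => g i x) :=
      ContDiff.sum fun i _ => (hgm i).smul contDiff_const
    have hT : TendstoUniformly (fun k x => form fun i => pd i (f k) x)
        (fun x => form fun i => g i x) atTop := by
      rw [Metric.tendstoUniformly_iff]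
      intro ε hε
      have hδ : 0 < ε / (n + 1) := by positivity
      have := eventually_all.2 fun i => Metric.tendstoUniformly_iff.1 (hg i) _ hδ
      filter_upwards [this] with k hk x
      rw [dist_eq_norm]
      refine (norm_form_sub _ _ hδ.le fun i => (hk i x).le).trans_lt ?_
      rw [← mul_div_assoc, div_lt_iff₀ (by positivity)]
      nlinarith
    have hD : ∀ k x, HasFDerivAt (f k) (form fun i => pd i (f k) x) x := fun k x => by
      have e : (form fun i => pd i (f k) x) = fderiv ℝ (f k) x := by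
        ext1 y
        rw [form_apply, fderiv_eq_sum]
      rw [e]
      exact ((hf k).differentiable (by simp) x).hasFDerivAt
    push_cast
    exact contDiff_succ_iff_hasFDerivAt.2 ⟨_, hG,
      hasFDerivAt_of_tendstoUniformly hT hD fun x => hv.tendsto_at x⟩

theorem pds_mol (L : List (Fin n)) : ∀ w : E n → ℝ, HK L.length w →
    ∃ q, MemLp q 2 volume ∧ ∀ k, pds L (mol k w) = mol k q := by
  induction L with
  | nil => exact fun w hw => ⟨w, hw, fun _ => rfl⟩
  | cons i L ih =>
    intro w hw
    obtain ⟨v, hv, hv'⟩ := hw.2 i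
    obtain ⟨q, hq, hq'⟩ := ih v hv'
    refine ⟨q, hq, fun k => ?_⟩
    change pds L (pd i (mol k w)) = _
    rw [pd_mol k hw.1 hv'.memLp hv, hq']

theorem test_of_zero {c : E n} {R : ℝ} {v : E n → ℝ} (hv : ContDiff ℝ ∞ v)
    (h0 : ∀ x, x ∉ Metric.closedBall c R → v x = 0) : Test (Metric.closedBall c R) v := by
  have hs : tsupport v ⊆ Metric.closedBall c R :=
    closure_minimal (fun x hx => by_contra fun h => hx (h0 x h)) Metric.isClosed_closedBall
  exact ⟨hv, (isCompact_closedBall c R).of_isClosed_subset (isClosed_tsupport v) hs, hs⟩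

theorem test_zero {K : Set (E n)} {φ : E n → ℝ} (hφ : Test K φ) {x : E n} (hx : x ∉ K) :
    φ x = 0 :=
  image_eq_zero_of_notMem_tsupport fun h => hx (hφ.sub h)

theorem int_abs_le {B : Set (E n)} (hB : IsCompact B) :
    ∃ c : ℝ, 0 ≤ c ∧ ∀ D : E n → ℝ, Test B D → ∫ y, |D y| ≤ c * √(∫ y, D y ^ 2) := by
  have h1 : MemLp (B.indicator fun _ => (1 : ℝ)) 2 volume :=
    memLp_indicator_const 2 hB.measurableSet 1 (Or.inr hB.measure_lt_top.ne)
  refine ⟨_, Real.sqrt_nonneg (∫ y, (B.indicator fun _ => (1 : ℝ)) y ^ 2), fun D hD => ?_⟩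
  have h2 : MemLp D 2 volume := hD.sm.continuous.memLp_of_hasCompactSupport hD.cpt
  have h3 := abs_integral_mul_le h1 h2.abs
  have e : ∀ y, (B.indicator fun _ => (1 : ℝ)) y * |D y| = |D y| := fun y => by
    by_cases hy : y ∈ B
    · simp [hy]
    · simp [hy, test_zero hD hy]
  simp only [Pi.abs_apply, e, sq_abs] at h3
  exact (le_abs_self _).trans h3

theorem int_sq_le {a b q : E n → ℝ} (ha : MemLp a 2 volume) (hb : MemLp b 2 volume)
    (hq : MemLp q 2 volume) :
    ∫ y, (a y - b y) ^ 2 ≤ 2 * (∫ y, (a y - q y) ^ 2) + 2 * ∫ y, (b y - q y) ^ 2 := by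
  have i1 : Integrable (fun y => (a y - q y) ^ 2) := (ha.sub hq).integrable_sq
  have i2 : Integrable (fun y => (b y - q y) ^ 2) := (hb.sub hq).integrable_sq
  rw [← integral_const_mul, ← integral_const_mul,
    ← integral_add (i1.const_mul 2) (i2.const_mul 2)]
  refine integral_mono_of_nonneg (Eventually.of_forall fun y => sq_nonneg _)
    ((i1.const_mul 2).add (i2.const_mul 2)) (Eventually.of_forall fun y => ?_)
  simp only
  nlinarith [sq_nonneg (a y + b y - 2 * q y)]

theorem ae_eq_of_lim {s : ℕ → E n → ℝ} {v w : E n → ℝ} (hs : ∀ k, MemLp (s k) 2 volume)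
    (hw : MemLp w 2 volume) (hv : Continuous v)
    (h1 : ∀ x, Tendsto (fun k => s k x) atTop (𝓝 (v x)))
    (h2 : Tendsto (fun k => ∫ x, (s k x - w x) ^ 2) atTop (𝓝 0)) : w =ᵐ[volume] v := by
  have i1 : ∀ k, Integrable (fun y => (s k y - w y) ^ 2) := fun k =>
    ((hs k).sub hw).integrable_sq
  have hF := lintegral_liminf_le' (μ := volume) (u := atTop)
    (f := fun k y => ENNReal.ofReal ((s k y - w y) ^ 2))
    (fun k => (i1 k).aemeasurable.ennreal_ofReal)
  have e1 : ∀ y, liminf (fun k => ENNReal.ofReal ((s k y - w y) ^ 2)) atTop =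
      ENNReal.ofReal ((v y - w y) ^ 2) := fun y =>
    (ENNReal.tendsto_ofReal (((h1 y).sub_const _).pow 2)).liminf_eq
  have e2 : liminf (fun k => ∫⁻ y, ENNReal.ofReal ((s k y - w y) ^ 2)) atTop = 0 := by
    have := ENNReal.tendsto_ofReal h2
    rw [ENNReal.ofReal_zero] at this
    refine (this.congr fun k => ?_).liminf_eq
    exact ofReal_integral_eq_lintegral_ofReal (i1 k) (Eventually.of_forall fun y => sq_nonneg _)
  simp only [e1] at hF
  have hm : AEMeasurable (fun y => ENNReal.ofReal ((v y - w y) ^ 2)) volume :=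
    ((hv.measurable.aemeasurable.sub hw.aemeasurable).pow_const 2).ennreal_ofReal
  rw [e2, nonpos_iff_eq_zero, lintegral_eq_zero_iff' hm] at hF
  filter_upwards [hF] with y hy
  have : (v y - w y) ^ 2 ≤ 0 := by simpa using hy
  nlinarith [sq_nonneg (v y - w y), pow_eq_zero_iff (a := v y - w y) two_ne_zero]

end SobEmbAux

theorem abs_le_integral_pds {v : E n → ℝ} (hv : Test univ v) (x : E n) :
    |v x| ≤ ∫ y, |pds (List.finRange n) v y| := by
  have h := SobEmbAux.enorm_le_marg (List.finRange n) (List.nodup_finRange n) v hv x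
  have hT := SobEmbAux.test_pds (List.finRange n) hv
  rw [List.toFinset_finRange, lmarginal_univ, ← volume_pi,
    ← ofReal_integral_norm_eq_lintegral_enorm
      (hT.sm.continuous.integrable_of_hasCompactSupport hT.cpt), ← ofReal_norm,
    ENNReal.ofReal_le_ofReal_iff (integral_nonneg fun y => norm_nonneg _)] at h
  exact h

theorem contDiff_of_cauchy {f : ℕ → E n → ℝ} (hf : ∀ k, ContDiff ℝ ∞ (f k))
    (h : ∀ L : List (Fin n), ∀ ε > 0, ∃ N, ∀ k ≥ N, ∀ l ≥ N, ∀ x,
      |pds L (f k) x - pds L (f l) x| ≤ ε) :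
    ∃ v, ContDiff ℝ ∞ v ∧ TendstoUniformly f v atTop := by
  obtain ⟨v, hv⟩ := SobEmbAux.ulim (h [])
  exact ⟨v, contDiff_infty.2 fun m => SobEmbAux.contDiff_nat m f v hf h hv, hv⟩

theorem sob_emb {w : E n → ℝ} (hw : ∀ k, HK k w) {K : Set (E n)} (hK : IsCompact K)
    (h0 : ∀ x, x ∉ K → w x = 0) : ∃ v, ContDiff ℝ ∞ v ∧ w =ᵐ[volume] v := by
  have hw0 : MemLp w 2 volume := hw 0
  obtain ⟨R, hR⟩ := hK.isBounded.subset_closedBall (0 : E n)
  have hT : ∀ k, Test (Metric.closedBall (0 : E n) (R + 1)) (mol k w) := fun k =>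
    SobEmbAux.test_of_zero (contDiff_mol k hw0) fun x hx =>
      mol_eq_zero k (fun y hy => h0 y fun h => hy (hR h)) hx
  obtain ⟨c, hc0, hc⟩ := SobEmbAux.int_abs_le (isCompact_closedBall (0 : E n) (R + 1))
  obtain ⟨v, hv, hlim⟩ := contDiff_of_cauchy (f := fun k => mol k w)
    (fun k => contDiff_mol k hw0) fun L ε hε => by
      obtain ⟨q, hq, hq'⟩ := SobEmbAux.pds_mol (L ++ List.finRange n) w (hw _)
      have hδ : 0 < (ε / (2 * (c + 1))) ^ 2 := by positivity
      obtain ⟨N, hN⟩ := eventually_atTop.1 ((tendsto_mol hq).eventually (ge_mem_nhds hδ))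
      refine ⟨N, fun k hk l hl x => ?_⟩
      have hk' := SobEmbAux.test_pds L (hT k)
      have hl' := SobEmbAux.test_pds L (hT l)
      have hd : Test (Metric.closedBall (0 : E n) (R + 1))
          (fun x => pds L (mol k w) x - pds L (mol l w) x) :=
        SobEmbAux.test_of_zero (hk'.sm.sub hl'.sm) fun y hy => by
          rw [SobEmbAux.test_zero hk' hy, SobEmbAux.test_zero hl' hy, sub_zero]
      have h1 := abs_le_integral_pds (hd.mono (subset_univ _)) x
      have h2 := hc _ (SobEmbAux.test_pds (List.finRange n) hd)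
      have h3 : ∫ y, pds (List.finRange n) (fun x => pds L (mol k w) x - pds L (mol l w) x) y ^ 2 ≤
          (ε / (c + 1)) ^ 2 := by
        rw [SobEmbAux.pds_sub _ hk'.sm hl'.sm, ← SobEmbAux.pds_append, ← SobEmbAux.pds_append,
          hq' k, hq' l]
        refine (SobEmbAux.int_sq_le (memLp_mol k hq).1 (memLp_mol l hq).1 hq).trans ?_
        have e : (ε / (c + 1)) ^ 2 = 4 * (ε / (2 * (c + 1))) ^ 2 := by
          field_simp
          norm_num
        linarith [hN k hk, hN l hl]
      have h4 := Real.sqrt_le_sqrt h3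
      rw [Real.sqrt_sq (by positivity)] at h4
      refine h1.trans (h2.trans ((mul_le_mul_of_nonneg_left h4 hc0).trans ?_))
      rw [← mul_div_assoc, div_le_iff₀ (by positivity)]
      nlinarith
  exact ⟨v, hv, SobEmbAux.ae_eq_of_lim (fun k => (memLp_mol k hw0).1) hw0 hv.continuous
    (fun x => hlim.tendsto_at x) (tendsto_mol hw0)⟩

end Pool.Agent.P.MP_56a1cd_gt
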