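import Pool.Agent.P.MP_56a1cd_gt.EllG
import Pool.Agent.P.MP_56a1cd_gt.SobEmb

namespace Pool.Agent.P.MP_56a1cd_gt

open MeasureTheory Matrix Set Filter Topology
open scoped ContDiff ENNReal

variable {m n : ℕ}

/-! PLAN. `ell_local`: prove by induction on `k` that for all test functions `χ` of `U`, `χ * u` and `χ * p j` are
in `HK k`. Step: let `θ` be a test function equal to one near `tsupport χ` (`exists_test`),
`a' = θ a + (1 - θ) 1` (extended by the identity off `U`), `w = χ u`, `P j = χ p j + pd j χ * u`,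
`F = χ f + ∑ i j, (a i j * pd i χ * p j + pd i (a i j * pd j χ) * u + a i j * pd j χ * p i)`; each term is
a test function times `u` or `p j` (`Test.mul`), so `F` is in `HK k`, `WeakEq univ a' P F` holds,
`ell_global` gives `P j` in `HK (k+1)`, so `χ u` is in `HK (k+2)` for every `χ`, and
`χ p j = P j - pd j χ * u` is in `HK (k+1)`. Finish with `sob_emb`. -/

namespace EllAux

theorem intg {U : Set (E n)} {T g φ : E n → ℝ} (hT : Test U T) (hg : MemLp g 2 volume)
    (hφ : Continuous φ) : Integrable (fun x => T x * g x * φ x) := by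
  have h1 : MemLp (fun x => T x * φ x) 2 volume :=
    (hT.sm.continuous.mul hφ).memLp_of_hasCompactSupport hT.cpt.mul_right
  refine (h1.integrable_mul hg).congr (Eventually.of_forall fun x => ?_)
  simp only [Pi.mul_apply]
  ring

/-- Extension of the coefficients. -/
theorem exists_ext {a : Met n} {U K : Set (E n)} (ha : IsMet a U) (hK : IsCompact K)
    (hKU : K ⊆ U) : ∃ (a' : Met n) (K' : Set (E n)), IsMet a' univ ∧ IsCompact K' ∧
      (∀ x, x ∉ K' → a' x = 1) ∧ ∀ x ∈ K, a' x = a x := by
  obtain ⟨θ, hθ, h01, h1⟩ := exists_test ha.opn hK hKU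
  refine ⟨fun x => θ x • a x + (1 - θ x) • (1 : Matrix (Fin n) (Fin n) ℝ), tsupport θ,
    ⟨isOpen_univ, fun i j => ?_, fun x _ => ?_⟩, hθ.cpt, fun x hx => ?_, fun x hx => ?_⟩
  · have h2 : ContDiff ℝ ∞ fun x => a x i j * θ x +
        (1 - θ x) * (1 : Matrix (Fin n) (Fin n) ℝ) i j :=
      (hθ.mul ha.opn (ha.sm i j)).sm.add ((contDiff_const.sub hθ.sm).mul contDiff_const)
    refine h2.contDiffOn.congr fun x _ => ?_
    simp only [Matrix.add_apply, Matrix.smul_apply, smul_eq_mul]
    ring
  · rcases (h01 x).1.eq_or_lt with h | h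
    · simp only [← h, zero_smul, sub_zero, one_smul, zero_add]
      exact Matrix.PosDef.one
    · exact ((ha.pos x (hθ.sub (subset_tsupport _ h.ne'))).smul h).add_posSemidef
        (Matrix.PosSemidef.one.smul (sub_nonneg.2 (h01 x).2))
  · simp [image_eq_zero_of_notMem_tsupport hx]
  · simp [h1.self_of_nhdsSet x hx]

theorem pd_zero {χ : E n → ℝ} {x : E n} (hx : x ∉ tsupport χ) (j : Fin n) : pd j χ x = 0 := by
  rw [pd_congr (notMem_tsupport_iff_eventuallyEq.1 hx) j]
  exact pd_const 0 x j

/-- The localised equation. -/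
theorem weak_loc {a : Met n} {U : Set (E n)} (ha : IsMet a U) {u f : E n → ℝ}
    {p : Fin n → E n → ℝ} (hf : Sm U f) (hu : MemLp u 2 volume) (hp : ∀ j, MemLp (p j) 2 volume)
    (hd : ∀ j, WD U j u (p j)) (he : WeakEq U a p f) {χ : E n → ℝ} (hχ : Test U χ) :
    WeakEq univ a (fun j x => χ x * p j x + pd j χ x * u x)
      (fun x => f x * χ x + ((∑ i, ∑ j, a x i j * pd i χ x * p j x) +
        ∑ i, ∑ j, (a x i j * pd j χ x * p i x + pd i (fun y => a y i j * pd j χ y) x * u x))) := by
  intro φ hφ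
  have hc := hφ.sm.continuous
  have hχφ : Test U fun x => φ x * χ x := hχ.mul ha.opn hφ.sm.contDiffOn
  have hb : ∀ i j l, Test U fun x => a x i j * pd l χ x := fun i j l =>
    (hχ.pd l).mul ha.opn (ha.sm i j)
  have iA : Integrable fun x => ∑ i, ∑ j, a x i j * p j x * pd i (fun y => φ y * χ y) x := by
    refine integrable_finsetSum _ fun i _ => integrable_finsetSum _ fun j _ => ?_
    refine (intg ((hχφ.pd i).mul ha.opn (ha.sm i j)) (hp j) (continuous_const (y := 1))).congr
      (Eventually.of_forall fun x => ?_)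
    ring
  have iB : Integrable fun x => ∑ i, ∑ j, a x i j * pd i χ x * p j x * φ x :=
    integrable_finsetSum _ fun i _ => integrable_finsetSum _ fun j _ => intg (hb i j i) (hp j) hc
  have iC : ∀ i j, Integrable fun x => a x i j * pd j χ x * u x * pd i φ x := fun i j =>
    intg (hb i j j) hu (hφ.pd i).sm.continuous
  have iD : ∀ i j, Integrable fun x => (a x i j * pd j χ x * p i x +
      pd i (fun y => a y i j * pd j χ y) x * u x) * φ x := fun i j =>
    ((intg (hb i j j) (hp i) hc).add (intg ((hb i j j).pd i) hu hc)).congr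
      (Eventually.of_forall fun x => (add_mul _ _ _).symm)
  have iF : Integrable fun x => f x * (φ x * χ x) :=
    (hχφ.mul ha.opn hf).sm.continuous.integrable_of_hasCompactSupport (hχφ.mul ha.opn hf).cpt
  have iC' := integrable_finsetSum Finset.univ fun i _ =>
    integrable_finsetSum Finset.univ fun j _ => iC i j
  have iD' := integrable_finsetSum Finset.univ fun i _ =>
    integrable_finsetSum Finset.univ fun j _ => iD i j
  have e1 : ∀ x, ∑ i, ∑ j, a x i j * (χ x * p j x + pd j χ x * u x) * pd i φ x =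
      (∑ i, ∑ j, a x i j * p j x * pd i (fun y => φ y * χ y) x -
        ∑ i, ∑ j, a x i j * pd i χ x * p j x * φ x) +
        ∑ i, ∑ j, a x i j * pd j χ x * u x * pd i φ x := by
    intro x
    simp only [← Finset.sum_sub_distrib, ← Finset.sum_add_distrib]
    refine Finset.sum_congr rfl fun i _ => Finset.sum_congr rfl fun j _ => ?_
    rw [pd_mul (hφ.sm.differentiable (by simp) x) (hχ.sm.differentiable (by simp) x)]
    ring
  have e2 : ∀ x, (f x * χ x + ((∑ i, ∑ j, a x i j * pd i χ x * p j x) +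
        ∑ i, ∑ j, (a x i j * pd j χ x * p i x + pd i (fun y => a y i j * pd j χ y) x * u x))) *
        φ x = f x * (φ x * χ x) + ((∑ i, ∑ j, a x i j * pd i χ x * p j x * φ x) +
        ∑ i, ∑ j, (a x i j * pd j χ x * p i x + pd i (fun y => a y i j * pd j χ y) x * u x) *
          φ x) := by
    intro x
    simp only [← Finset.sum_mul]
    ring
  have e3 : ∫ x, ∑ i, ∑ j, a x i j * pd j χ x * u x * pd i φ x =
      -∫ x, ∑ i, ∑ j, (a x i j * pd j χ x * p i x +
        pd i (fun y => a y i j * pd j χ y) x * u x) * φ x := by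
    rw [integral_finsetSum _ fun i _ => integrable_finsetSum _ fun j _ => iC i j,
      integral_finsetSum _ fun i _ => integrable_finsetSum _ fun j _ => iD i j,
      ← Finset.sum_neg_distrib]
    refine Finset.sum_congr rfl fun i _ => ?_
    rw [integral_finsetSum _ fun j _ => iC i j, integral_finsetSum _ fun j _ => iD i j,
      ← Finset.sum_neg_distrib]
    exact Finset.sum_congr rfl fun j _ => (hd i).mul_test hu (hp i) (hb i j j) φ hφ
  simp only [e1, e2]
  rw [integral_add (iA.sub' iB) iC', integral_sub iA iB, integral_add iF (iB.fun_add iD'),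
    integral_add iB iD', e3, he _ hχφ]
  ring

theorem hk_loc {a : Met n} {U : Set (E n)} (ha : IsMet a U) {u f : E n → ℝ}
    {p : Fin n → E n → ℝ} (hf : Sm U f) (hu : MemLp u 2 volume) (hp : ∀ j, MemLp (p j) 2 volume)
    (hd : ∀ j, WD U j u (p j)) (he : WeakEq U a p f) (k : ℕ) :
    ∀ χ, Test U χ → HK k (fun x => χ x * u x) ∧ ∀ j, HK k (fun x => χ x * p j x) := by
  induction k with
  | zero =>
    exact fun χ hχ => ⟨HK.mul_test (k := 0) hu (hχ.mono (subset_univ _)),
      fun j => HK.mul_test (k := 0) (hp j) (hχ.mono (subset_univ _))⟩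
  | succ k ih =>
    have hP : ∀ χ, Test U χ → ∀ j, HK k fun x => χ x * p j x + pd j χ x * u x := fun χ hχ j =>
      ((ih χ hχ).2 j).add (ih _ (hχ.pd j)).1
    have h1 : ∀ χ, Test U χ → HK (k + 1) fun x => χ x * u x := fun χ hχ =>
      ⟨(ih χ hχ).1.memLp, fun j => ⟨_, (hd j).mul_test hu (hp j) hχ, hP χ hχ j⟩⟩
    refine fun χ hχ => ⟨h1 χ hχ, fun j => ?_⟩
    obtain ⟨a', K, ha', hK, h0, hK1⟩ := exists_ext ha hχ.cpt hχ.sub
    have hb : ∀ i j l, Test U fun x => a x i j * pd l χ x := fun i j l =>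
      (hχ.pd l).mul ha.opn (ha.sm i j)
    have hF := (hk_of_test ((hχ.mul ha.opn hf).mono (subset_univ _)) k).add
      ((HK.sum Finset.univ fun i _ => HK.sum Finset.univ fun j _ => (ih _ (hb i j i)).2 j).add
        (HK.sum Finset.univ fun i _ => HK.sum Finset.univ fun j _ =>
          ((ih _ (hb i j j)).2 i).add (ih _ ((hb i j j).pd i)).1))
    have h2 := ell_global ha' hK h0 k (ih χ hχ).1.memLp (fun j => (hP χ hχ j).memLp)
      (fun j => (hd j).mul_test hu (hp j) hχ) hF (fun φ hφ => ?_) j
    · simpa using h2.sub (h1 _ (hχ.pd j))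
    · rw [← weak_loc ha hf hu hp hd he hχ φ hφ]
      refine integral_congr_ae (Eventually.of_forall fun x => ?_)
      by_cases hx : x ∈ tsupport χ
      · simp only [hK1 x hx]
      · simp [image_eq_zero_of_notMem_tsupport hx, pd_zero hx]

end EllAux

theorem ell_local {a : Met n} {U : Set (E n)} (ha : IsMet a U) {u f : E n → ℝ}
    {p : Fin n → E n → ℝ} (hf : Sm U f) (hu : MemLp u 2 volume) (hp : ∀ j, MemLp (p j) 2 volume)
    (hd : ∀ j, WD U j u (p j)) (he : WeakEq U a p f) {χ : E n → ℝ} (hχ : Test U χ) :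
    ∃ v, ContDiff ℝ ∞ v ∧ (fun x => χ x * u x) =ᵐ[volume] v :=
  sob_emb (fun k => (EllAux.hk_loc ha hf hu hp hd he k χ hχ).1) hχ.cpt fun x hx => by
    simp [image_eq_zero_of_notMem_tsupport hx]

end Pool.Agent.P.MP_56a1cd_gt
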