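import Pool.Agent.P.MP_56a1cd_gt.H2

namespace Pool.Agent.P.MP_56a1cd_gt

open MeasureTheory Matrix Set Filter Topology
open scoped ContDiff ENNReal

variable {m n : ℕ}

/-! PLAN. `ell_global`, induction on `k` for all `w p f`. Case zero is `h2_step`. Step: by induction
`p j` is in `HK (k+1)` with witnesses `q j m` (weak `m`-derivative, in `HK k`); by `WD.comm`, `q j m` is
also the weak `j`-derivative of `p m`. Testing the equation with `pd m φ` shows
`WeakEq univ a (fun j => q j m) (f m - ∑ i j, r i j)` where `f m` is the weak derivative of `f` and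
`r i j` the weak `i`-derivative of `pd m (a i j) * p j` given by `HK.mul_test` (`pd m (a i j)` is a test
function; write `a i j = δ i j + b i j` with `b i j` a test function to get the product rule for
`a i j * p j` from `WD.mul_test`, `WD.add`). So each `q j m` is in `HK (k+1)`.
-/

namespace EllGAux

theorem test_pd {a : Met n} (ha : IsMet a univ) {K : Set (E n)} (hK : IsCompact K)
    (h1 : ∀ x, x ∉ K → a x = 1) (i j l : Fin n) : Test univ (pd l fun x => a x i j) := by
  refine ⟨contDiff_pd (contDiffOn_univ.1 (ha.sm i j)) l, HasCompactSupport.intro hK fun x hx => ?_,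
    subset_univ _⟩
  have e : (fun y => a y i j) =ᶠ[𝓝 x] fun _ => (1 : Matrix (Fin n) (Fin n) ℝ) i j := by
    filter_upwards [hK.isClosed.isOpen_compl.mem_nhds hx] with y hy
    rw [h1 y hy]
  rw [pd_congr e, pd_const]

theorem int_mul {u φ : E n → ℝ} (hu : MemLp u 2 volume) (hφ : Test univ φ) :
    Integrable (fun x => u x * φ x) volume :=
  hu.integrable_mul (q := 2) (hφ.sm.continuous.memLp_of_hasCompactSupport hφ.cpt)

theorem int_coef {a : Met n} (ha : IsMet a univ) {u φ : E n → ℝ} (hu : MemLp u 2 volume)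
    (hφ : Test univ φ) (i j : Fin n) : Integrable (fun x => a x i j * u x * φ x) volume :=
  (int_mul hu (hφ.mul isOpen_univ (ha.sm i j))).congr (Eventually.of_forall fun x => by ring)

theorem integral_sum2 {F : Fin n → Fin n → E n → ℝ} (h : ∀ i j, Integrable (F i j) volume) :
    ∫ x, ∑ i, ∑ j, F i j x = ∑ i, ∑ j, ∫ x, F i j x := by
  rw [integral_finsetSum _ fun i _ => integrable_finsetSum _ fun j _ => h i j]
  exact Finset.sum_congr rfl fun i _ => integral_finsetSum _ fun j _ => h i j

/-- The differentiated equation. -/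
theorem weakEq_deriv {a : Met n} (ha : IsMet a univ) {f g : E n → ℝ} {p q : Fin n → E n → ℝ}
    {r : Fin n → Fin n → E n → ℝ} {l : Fin n} (hp : ∀ j, MemLp (p j) 2 volume)
    (hq : ∀ j, MemLp (q j) 2 volume) (hg : MemLp g 2 volume) (hr : ∀ i j, MemLp (r i j) 2 volume)
    (hpq : ∀ j, WD univ l (p j) (q j)) (hfg : WD univ l f g)
    (hpr : ∀ i j, WD univ i (fun x => pd l (fun y => a y i j) x * p j x) (r i j))
    (he : WeakEq univ a p f) : WeakEq univ a q fun x => g x - ∑ i, ∑ j, r i j x := by
  intro φ hφ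
  have key : ∀ i j, ∫ x, a x i j * q j x * pd i φ x =
      (∫ x, r i j x * φ x) - ∫ x, a x i j * p j x * pd i (pd l φ) x := by
    intro i j
    have h1 := hpq j _ ((hφ.pd i).mul isOpen_univ (ha.sm i j))
    have h2 := hpr i j φ hφ
    have h3 : ∀ x, p j x * pd l (fun x => a x i j * pd i φ x) x =
        pd l (fun y => a y i j) x * p j x * pd i φ x + a x i j * p j x * pd i (pd l φ) x := by
      intro x
      rw [pd_mul (sm_da isOpen_univ (ha.sm i j) (mem_univ x))
        (sm_da isOpen_univ (hφ.pd i).sm.contDiffOn (mem_univ x)),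
        pd_comm isOpen_univ hφ.sm.contDiffOn (mem_univ x) l i]
      ring
    have h4 : Integrable (fun x => pd l (fun y => a y i j) x * p j x * pd i φ x) volume :=
      (int_mul (hp j) ((hφ.pd i).mul isOpen_univ (sm_pd isOpen_univ (ha.sm i j) l))).congr
        (Eventually.of_forall fun x => by ring)
    simp only [h3] at h1
    rw [integral_add h4 (int_coef ha (hp j) ((hφ.pd l).pd i) i j), h2] at h1
    have h5 : ∫ x, q j x * (a x i j * pd i φ x) = ∫ x, a x i j * q j x * pd i φ x :=
      integral_congr_ae (Eventually.of_forall fun x => by ring)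
    linarith
  have h1 := he _ (hφ.pd l)
  rw [integral_sum2 fun i j => int_coef ha (hp j) ((hφ.pd l).pd i) i j, hfg φ hφ] at h1
  have h2 : ∫ x, (g x - ∑ i, ∑ j, r i j x) * φ x =
      (∫ x, g x * φ x) - ∑ i, ∑ j, ∫ x, r i j x * φ x := by
    rw [← integral_sum2 fun i j => int_mul (hr i j) hφ, ← integral_sub (int_mul hg hφ)
      (integrable_finsetSum _ fun i _ => integrable_finsetSum _ fun j _ => int_mul (hr i j) hφ)]
    simp only [sub_mul, Finset.sum_mul]
  rw [integral_sum2 fun i j => int_coef ha (hq j) (hφ.pd i) i j, h2]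
  simp only [key, Finset.sum_sub_distrib]
  linarith

end EllGAux

theorem ell_global {a : Met n} (ha : IsMet a univ) {K : Set (E n)} (hK : IsCompact K)
    (h1 : ∀ x, x ∉ K → a x = 1) (k : ℕ) {w f : E n → ℝ} {p : Fin n → E n → ℝ}
    (hw : MemLp w 2 volume) (hp : ∀ j, MemLp (p j) 2 volume) (hd : ∀ j, WD univ j w (p j))
    (hf : HK k f) (he : WeakEq univ a p f) (j : Fin n) : HK (k + 1) (p j) := by
  induction k generalizing w f p j with
  | zero =>
    refine ⟨hp j, fun l => ?_⟩
    obtain ⟨q, h2, h3⟩ := h2_step ha hK h1 hw hp hd hf he j l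
    exact ⟨q, h3, h2⟩
  | succ k ih =>
    have hP : ∀ j, HK (k + 1) (p j) := fun j => ih hw hp hd hf.of_succ he j
    refine ⟨hp j, fun l => ?_⟩
    choose q hq1 hq2 using fun j => (hP j).2 l
    obtain ⟨g, hg1, hg2⟩ := hf.2 l
    choose r hr1 hr2 using fun i j => ((hP j).mul_test (EllGAux.test_pd ha hK h1 i j l)).2 i
    exact ⟨q j, hq1 j, ih (hp l) (fun j => (hq2 j).memLp) (fun j => (hd j).comm (hd l) (hq1 j))
      (hg2.sub (HK.sum _ fun i _ => HK.sum _ fun j _ => hr2 i j))
      (EllGAux.weakEq_deriv ha hp (fun j => (hq2 j).memLp) hg2.memLp (fun i j => (hr2 i j).memLp)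
        hq1 hg1 hr1 he) j⟩

end Pool.Agent.P.MP_56a1cd_gt
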