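import Pool.Agent.P.MP_56a1cd_gt.Basic

/-! The example. -/

namespace Pool.Agent.P.MP_56a1cd_gt

open MeasureTheory Matrix Set Filter Topology
open scoped ContDiff ENNReal

/-- The conformal factor of the example. -/
noncomputable def φ₀ (x : E 3) : ℝ := 2 * Real.log (10 + x 2 / nrm x)

/-- The harmonic conformal factor of an admissible extension. -/
noncomputable def u₀ (x : E 3) : ℝ := 1 + 9 / nrm x + x 2 / nrm x ^ 3

/-- The metric `(10 + z)⁴ g₀` on the sphere. -/
noncomputable def S₀ : SphereMetric where
  γ := fun x => (10 + x 2) ^ 4 • (1 : Matrix (Fin 3) (Fin 3) ℝ)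
  smooth := fun i j => by
    simp only [Matrix.smul_apply, smul_eq_mul]
    fun_prop
  symm := fun x i j => by
    simp only [Matrix.smul_apply, Matrix.one_apply, eq_comm]
  pos := fun p hp v _ hv => by
    have h1 : p 2 ^ 2 ≤ 1 := by
      have h : p ⬝ᵥ p = 1 := hp
      simp only [dotProduct, Fin.sum_univ_three] at h
      nlinarith [sq_nonneg (p 0), sq_nonneg (p 1)]
    have h2 : 0 < 10 + p 2 := by nlinarith
    have h3 : 0 < v ⬝ᵥ v := by
      have := dotProduct_self_star_pos_iff (v := v)
      simpa using this.2 hv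
    rw [Matrix.smul_mulVec, Matrix.one_mulVec, dotProduct_smul, smul_eq_mul]
    positivity

end Pool.Agent.P.MP_56a1cd_gt
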