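import Pool.Agent.P.MP_56a1cd_gt.Conf
import Pool.Agent.P.MP_56a1cd_gt.ExDef

namespace Pool.Agent.P.MP_56a1cd_gt

open MeasureTheory Matrix Set Filter Topology
open scoped ContDiff ENNReal

variable {m n : ℕ}

/-! PLAN. On `{x ≠ 0}` let `v = u₀ - 1 = 9 / |x| + x 2 / |x|³`. Say that `f` (smooth on `{x ≠ 0}`) has order `k` if for
`|x| ≥ 1`, `|f| ≤ C |x|⁻ᵏ`, `|pd f| ≤ C |x|⁻ᵏ⁻¹`, `|pd pd f| ≤ C |x|⁻ᵏ⁻²`; order one is stable under sums, constant
multiples and products (product rule). A function that is smooth on `{x ≠ 0}` and homogeneous of degree `-k` has order `k`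
(its derivatives are homogeneous of degree `-k-1`, bounded on `sph`). `u₀⁴ - 1 = 4v + 6v² + 4v³ + v⁴`.
Harmonicity: `pd_nrm`, product and chain rules; `1 / |x|` is harmonic and `x 2 / |x|³ = -pd 2 (1 / |x|)`. -/

namespace ExDecayAux

theorem opn : IsOpen {x : E 3 | x ≠ 0} := isOpen_ne

/-- Negative powers of the norm. -/
noncomputable def q (k : ℕ) (x : E 3) : ℝ := (nrm x ^ k)⁻¹

theorem sm_q (k : ℕ) : Sm {x | x ≠ 0} (q k) :=
  (ContDiffOn.pow sm_nrm k).inv fun _ hx => pow_ne_zero k (nrm_pos hx).ne'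

theorem da_q (k : ℕ) {x : E 3} (hx : x ≠ 0) : DifferentiableAt ℝ (q k) x := sm_da opn (sm_q k) hx

theorem pd_q (k : ℕ) {x : E 3} (hx : x ≠ 0) (i : Fin 3) :
    pd i (q (k + 1)) x = -((k : ℝ) + 1) * (x i * q (k + 3) x) := by
  have h0 := (nrm_pos hx).ne'
  have h1 := ((hasDerivAt_pow (k + 1) (nrm x)).inv (pow_ne_zero _ h0))
  have h2 := pd_comp_real (sm_da opn sm_nrm hx) h1 i
  change pd i (q (k + 1)) x = _ at h2
  rw [h2, pd_nrm hx, q]
  simp only [Nat.add_sub_cancel, Pi.pow_apply, Nat.cast_add, Nat.cast_one]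
  field_simp
  ring

theorem u₀_eq : u₀ = fun y => (1 + 9 * q 1 y) + y 2 * q 3 y := by
  funext y
  simp [u₀, q, div_eq_mul_inv]

theorem pd_u₀ {x : E 3} (hx : x ≠ 0) (i : Fin 3) : pd i u₀ x =
    -9 * (x i * q 3 x) + (if i = 2 then 1 else 0) * q 3 x + -3 * (x 2 * (x i * q 5 x)) := by
  have d1 := da_q 1 hx
  have d3 := da_q 3 hx
  rw [u₀_eq, pd_add (by fun_prop) (by fun_prop), pd_add (by fun_prop) (by fun_prop), pd_const,
    pd_const_mul, pd_mul (by fun_prop) d3, pd_coord, pd_q 0 hx, pd_q 2 hx]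
  norm_num
  ring

/-- Smooth off the origin and homogeneous of degree `-k`. -/
def Hom (k : ℕ) (f : E 3 → ℝ) : Prop :=
  Sm {x | x ≠ 0} f ∧ ∀ x, x ≠ 0 → ∀ t : ℝ, 0 < t → f (t • x) = (t ^ k)⁻¹ * f x

theorem Hom.mul {k l : ℕ} {f g : E 3 → ℝ} (hf : Hom k f) (hg : Hom l g) :
    Hom (k + l) fun x => f x * g x :=
  ⟨hf.1.mul hg.1, fun x hx t ht => by
    simp only [hf.2 x hx t ht, hg.2 x hx t ht, pow_add, mul_inv]
    ring⟩

theorem Hom.pd {k : ℕ} {f : E 3 → ℝ} (hf : Hom k f) (i : Fin 3) : Hom (k + 1) (pd i f) := by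
  refine ⟨sm_pd opn hf.1 i, fun x hx t ht => ?_⟩
  have h1 : MP_56a1cd_gt.pd i (fun y => f (t • y)) x =
      MP_56a1cd_gt.pd i (fun y => (t ^ k)⁻¹ * f y) x :=
    pd_congr_on opn (fun y hy => hf.2 y hy t ht) hx i
  rw [pd_const_mul] at h1
  have h2 : MP_56a1cd_gt.pd i (fun y => f (t • y)) x = t * MP_56a1cd_gt.pd i f (t • x) := by
    unfold MP_56a1cd_gt.pd
    rw [fderiv_comp_smul]
    rfl
  rw [h2] at h1
  rw [pow_succ, mul_inv, mul_comm _ t⁻¹, mul_assoc, ← h1, inv_mul_cancel_left₀ ht.ne']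

theorem Hom.bound {k : ℕ} {f : E 3 → ℝ} (hf : Hom k f) :
    ∃ C, 0 ≤ C ∧ ∀ x, x ≠ 0 → |f x| ≤ C * (nrm x ^ k)⁻¹ := by
  have hs : sph ⊆ {x : E 3 | x ≠ 0} := fun x hx =>
    ne_zero_of_nrm_pos (by rw [mem_sph_iff.1 hx]; exact one_pos)
  obtain ⟨C, hC⟩ := isCompact_sph.exists_bound_of_continuousOn (hf.1.continuousOn.mono hs)
  refine ⟨max C 0, le_max_right _ _, fun x hx => ?_⟩
  have h0 := nrm_pos hx
  have h1 : (nrm x)⁻¹ • x ∈ sph := by
    rw [mem_sph_iff, nrm_smul, abs_of_pos (inv_pos.2 h0), inv_mul_cancel₀ h0.ne']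
  have h2 := hf.2 _ (hs h1) (nrm x) h0
  rw [smul_inv_smul₀ h0.ne'] at h2
  rw [h2, abs_mul, abs_of_pos (by positivity), mul_comm]
  exact mul_le_mul_of_nonneg_right ((hC _ h1).trans (le_max_left _ _)) (by positivity)

/-- Finite sums of homogeneous functions of degree at most `-k`. -/
inductive SH (k : ℕ) : (E 3 → ℝ) → Prop
  | hom {j : ℕ} {f : E 3 → ℝ} : k ≤ j → Hom j f → SH k f
  | add {f g : E 3 → ℝ} : SH k f → SH k g → SH k fun x => f x + g x
  | congr {f g : E 3 → ℝ} : SH k f → (∀ x, x ≠ 0 → g x = f x) → SH k g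

theorem SH.sm {k : ℕ} {f : E 3 → ℝ} (h : SH k f) : Sm {x | x ≠ 0} f := by
  induction h with
  | hom _ h => exact h.1
  | add _ _ h1 h2 => exact h1.add h2
  | congr _ e h => exact h.congr e

theorem SH.pd {k : ℕ} {f : E 3 → ℝ} (h : SH k f) (i : Fin 3) : SH (k + 1) (pd i f) := by
  induction h with
  | hom h1 h => exact .hom (Nat.succ_le_succ h1) (h.pd i)
  | add k1 k2 h1 h2 =>
    exact (h1.add h2).congr fun x hx => pd_add (sm_da opn k1.sm hx) (sm_da opn k2.sm hx) i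
  | congr _ e h => exact h.congr fun x hx => pd_congr_on opn e hx i

theorem SH.mul {k l : ℕ} {f g : E 3 → ℝ} (hf : SH k f) (hg : SH l g) :
    SH (k + l) fun x => f x * g x := by
  induction hf with
  | hom h1 h2 =>
    induction hg with
    | hom h3 h4 => exact .hom (add_le_add h1 h3) (h2.mul h4)
    | add _ _ i1 i2 => exact (i1.add i2).congr fun x _ => by ring
    | congr _ e i => exact i.congr fun x hx => by rw [e x hx]
  | add _ _ i1 i2 => exact (i1.add i2).congr fun x _ => by ring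
  | congr _ e i => exact i.congr fun x hx => by rw [e x hx]

theorem SH.bound {k : ℕ} {f : E 3 → ℝ} (h : SH k f) :
    ∃ C, ∀ x, 1 ≤ nrm x → |f x| ≤ C * nrm x ^ (-(k : ℝ)) := by
  induction h with
  | hom h1 h =>
    obtain ⟨C, h0, hC⟩ := h.bound
    refine ⟨C, fun x hx => (hC x (ne_zero_of_nrm_pos (by linarith))).trans ?_⟩
    rw [Real.rpow_neg (nrm_nonneg x), Real.rpow_natCast]
    exact mul_le_mul_of_nonneg_left (inv_anti₀ (by positivity) (pow_le_pow_right₀ hx h1)) h0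
  | add _ _ h1 h2 =>
    obtain ⟨C, hC⟩ := h1
    obtain ⟨D, hD⟩ := h2
    refine ⟨C + D, fun x hx => (abs_add_le _ _).trans ?_⟩
    rw [add_mul]
    exact add_le_add (hC x hx) (hD x hx)
  | congr _ e h =>
    obtain ⟨C, hC⟩ := h
    exact ⟨C, fun x hx => by rw [e x (ne_zero_of_nrm_pos (by linarith))]; exact hC x hx⟩

theorem hom_const (c : ℝ) : Hom 0 fun _ => c := ⟨contDiffOn_const, fun _ _ _ _ => by simp⟩

theorem hom_q (k : ℕ) : Hom k (q k) :=
  ⟨sm_q k, fun x _ t ht => by rw [q, q, nrm_smul, abs_of_pos ht, mul_pow, mul_inv]⟩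

theorem hom_b : Hom 2 fun x => x 2 * q 3 x :=
  ⟨(sm_coord _ 2).mul (sm_q 3), fun x hx t ht => by
    simp only [(hom_q 3).2 x hx t ht, Pi.smul_apply, smul_eq_mul]
    field_simp⟩

theorem sh_w (c : ℝ) : SH 1 fun x => (u₀ x ^ 4 - 1) * c := by
  have c0 : ∀ c : ℝ, SH 0 fun _ => c := fun c => .hom le_rfl (hom_const c)
  have ha : Hom 1 fun x => 9 * q 1 x := (hom_const 9).mul (hom_q 1)
  have hv : SH 1 fun x => u₀ x - 1 :=
    ((SH.hom le_rfl ha).add (.hom (by norm_num) hom_b)).congr fun x _ => by rw [u₀_eq]; ring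
  have hu : SH 0 u₀ :=
    (((c0 1).add (.hom (by norm_num) ha)).add (.hom (by norm_num) hom_b)).congr
      fun x _ => by rw [u₀_eq]
  exact ((hv.mul (((((hu.mul hu).mul hu).add (hu.mul hu)).add hu).add (c0 1))).mul (c0 c)).congr
    fun x _ => by ring

end ExDecayAux

open ExDecayAux

theorem sm_u₀ : Sm {x | x ≠ 0} u₀ := by
  rw [u₀_eq]
  exact (contDiffOn_const.add (contDiffOn_const.mul (sm_q 1))).add ((sm_coord _ 2).mul (sm_q 3))

theorem u₀_pos {x : E 3} (hx : 1 / 2 ≤ nrm x) : 0 < u₀ x := by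
  have h0 : 0 < nrm x := by linarith
  have h1 := (abs_le.1 (abs_le_nrm x 2)).1
  have e : u₀ x = 1 + (9 * nrm x ^ 2 + x 2) / nrm x ^ 3 := by
    unfold u₀
    field_simp
    ring
  have h2 : 0 ≤ 9 * nrm x ^ 2 + x 2 := by nlinarith
  rw [e]
  positivity

theorem lap_u₀ {x : E 3} (hx : x ≠ 0) : ∑ i, pd i (pd i u₀) x = 0 := by
  have d3 := da_q 3 hx
  have d5 := da_q 5 hx
  have key : ∀ i, pd i (pd i u₀) x = -9 * (q 3 x - 3 * (x i * (x i * q 5 x))) +
      (if i = 2 then 1 else 0) * (-3 * (x i * q 5 x)) +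
      -3 * ((if i = 2 then 1 else 0) * (x i * q 5 x) +
        x 2 * (q 5 x - 5 * (x i * (x i * q 7 x)))) := by
    intro i
    rw [pd_congr_on opn (fun y hy => pd_u₀ hy i) hx, pd_add (by fun_prop) (by fun_prop),
      pd_add (by fun_prop) (by fun_prop), pd_const_mul, pd_const_mul, pd_const_mul,
      pd_mul (by fun_prop) d3, pd_mul (by fun_prop) (by fun_prop), pd_mul (by fun_prop) d5,
      pd_coord, pd_coord, pd_q 2 hx, pd_q 4 hx]
    norm_num
    split_ifs <;> ring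
  have h0 := (nrm_pos hx).ne'
  have h1 : nrm x ^ 2 = x 0 ^ 2 + x 1 ^ 2 + x 2 ^ 2 := by
    rw [nrm_sq]
    simp only [dotProduct, Fin.sum_univ_three]
    ring
  have h3 : q 3 x = (x 0 ^ 2 + x 1 ^ 2 + x 2 ^ 2) * q 5 x := by
    rw [← h1, q, q]
    field_simp
  have h5 : q 5 x = (x 0 ^ 2 + x 1 ^ 2 + x 2 ^ 2) * q 7 x := by
    rw [← h1, q, q]
    field_simp
  simp only [key, Fin.sum_univ_three]
  rw [if_neg (by decide), if_neg (by decide), if_pos trivial]
  linear_combination (-27) * h3 - 15 * x 2 * h5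

theorem rad_u₀ {x : E 3} (hx : x ∈ sph) : u₀ x = 10 + x 2 ∧ rad u₀ x = -9 - 2 * x 2 := by
  have h1 := mem_sph_iff.1 hx
  have h0 : x ≠ 0 := ne_zero_of_nrm_pos (by rw [h1]; exact one_pos)
  have h2 : x 0 * x 0 + x 1 * x 1 + x 2 * x 2 = 1 := by
    have h : x ⬝ᵥ x = 1 := hx
    simpa only [dotProduct, Fin.sum_univ_three] using h
  constructor
  · simp only [u₀, h1]
    ring
  · rw [rad_eq]
    simp only [pd_u₀ h0, q, h1, Fin.sum_univ_three]
    rw [if_neg (by decide), if_neg (by decide), if_pos trivial]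
    linear_combination (-9 - 3 * x 2) * h2

theorem decay_u₀ {g : Met 3} (hg : ∀ x, 1 ≤ nrm x → g x = u₀ x ^ 4 • (1 : Matrix (Fin 3) (Fin 3) ℝ)) :
    Decay g 2 := by
  have key : ∀ a : Fin 3 × Fin 3 × Fin 3 × Fin 3, ∃ C : ℝ, ∀ x, 2 < nrm x →
      |g x a.1 a.2.1 - (if a.1 = a.2.1 then 1 else 0)| ≤ C * nrm x ^ (-1 : ℝ) ∧
      |pd a.2.2.1 (fun y => g y a.1 a.2.1) x| ≤ C * nrm x ^ (-1 - 1 : ℝ) ∧
      |pd a.2.2.1 (pd a.2.2.2 (fun y => g y a.1 a.2.1)) x| ≤ C * nrm x ^ (-1 - 2 : ℝ) := by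
    rintro ⟨i, j, k, l⟩
    have hw := sh_w (if i = j then 1 else 0)
    obtain ⟨C0, h0⟩ := hw.bound
    obtain ⟨C1, h1⟩ := (hw.pd k).bound
    obtain ⟨C2, h2⟩ := ((hw.pd l).pd k).bound
    have e0 : -((1 : ℕ) : ℝ) = -1 := by norm_num
    have e1 : -((1 + 1 : ℕ) : ℝ) = -1 - 1 := by norm_num
    have e2 : -((1 + 1 + 1 : ℕ) : ℝ) = -1 - 2 := by norm_num
    rw [e0] at h0
    rw [e1] at h1
    rw [e2] at h2
    refine ⟨max C0 (max C1 C2), fun x hx => ?_⟩
    have hn := nrm_nonneg x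
    have ev : (fun y => g y i j) =ᶠ[𝓝 x] fun y =>
        (u₀ y ^ 4 - 1) * (if i = j then 1 else 0) + (if i = j then 1 else 0) := by
      filter_upwards [(isOpen_Ext 1).mem_nhds (show x ∈ (Ext 1 : Set (E 3)) from
        lt_trans one_lt_two hx)] with y hy
      rw [hg y (le_of_lt hy), Matrix.smul_apply, Matrix.one_apply, smul_eq_mul]
      ring
    have e3 : ∀ (f : E 3 → ℝ) (c : ℝ), pd l (fun y => f y + c) = pd l f := fun f c =>
      funext fun y => pd_add_const c f y l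
    refine ⟨?_, ?_, ?_⟩
    · rw [ev.eq_of_nhds, add_sub_cancel_right]
      exact (h0 x (by linarith)).trans
        (mul_le_mul_of_nonneg_right (le_max_left _ _) (by positivity))
    · rw [pd_congr ev, pd_add_const]
      exact (h1 x (by linarith)).trans (mul_le_mul_of_nonneg_right
        ((le_max_left _ _).trans (le_max_right _ _)) (by positivity))
    · rw [pd_congr (pd_congr_ev ev l), e3]
      exact (h2 x (by linarith)).trans (mul_le_mul_of_nonneg_right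
        ((le_max_right _ _).trans (le_max_right _ _)) (by positivity))
  choose c hc using key
  obtain ⟨M, hM⟩ := Finite.exists_le c
  refine ⟨max M 1, 1, lt_of_lt_of_le one_pos (le_max_right _ _), by norm_num, le_rfl,
    fun x hx i j k l => ?_⟩
  have hn := nrm_nonneg x
  have h1 := (hM (i, j, k, l)).trans (le_max_left M 1)
  obtain ⟨a1, a2, a3⟩ := hc (i, j, k, l) x hx
  exact ⟨a1.trans (mul_le_mul_of_nonneg_right h1 (by positivity)),
    a2.trans (mul_le_mul_of_nonneg_right h1 (by positivity)),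
    a3.trans (mul_le_mul_of_nonneg_right h1 (by positivity))⟩

end Pool.Agent.P.MP_56a1cd_gt
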