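import Pool.Agent.P.MP_56a1cd_gt.ExDecay

namespace Pool.Agent.P.MP_56a1cd_gt

open MeasureTheory Matrix Set Filter Topology
open scoped ContDiff ENNReal

variable {m n : ℕ}

/-! PLAN. `ρ x = x ⬝ x - 1`, `ι = id`, `g x = (stp (4 nrm x) * u₀ x) ^ 4 • 1` (smooth everywhere since it vanishes for
`|x| ≤ 1/4`; equal to `u₀⁴ • 1 = conf (2 log u₀)` for `|x| ≥ 1/2`), `K = {1 ≤ nrm ≤ 2}`, `r = 2`, `F = F' = id`
(`pull_id`). `scal_conf` with `u = 2 log u₀` gives `scal = -8 u₀⁻⁵ Δ u₀ = 0` (`scal_congr`, chain rule).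
`meanCurv_conf`: on the sphere `gam flat ρ ρ = 4`, `meanCurv flat ρ = 2` (`meanCurv_eq`, `lap_flat`, `gam_flat`),
`gam flat u ρ = 4 rad u₀ / u₀`; so the sign is that of `2 + 4 (-9 - 2z) / (10 + z) ≤ 0`. Connectedness:
`isConnected_shell`. -/

namespace ExExtAux

/-- The defining function of the unit sphere. -/
noncomputable def rho (x : E 3) : ℝ := x ⬝ᵥ x - 1

/-- The conformal factor, cut off near the origin. -/
noncomputable def ww (x : E 3) : ℝ := stp (4 * nrm x) * u₀ x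

/-- The metric. -/
noncomputable def gg : Met 3 := fun x => ww x ^ 4 • (1 : Matrix (Fin 3) (Fin 3) ℝ)

/-- The logarithmic conformal factor. -/
noncomputable def uu (x : E 3) : ℝ := 2 * Real.log (u₀ x)

theorem dot_sm : ContDiff ℝ ∞ (fun x : E 3 => x ⬝ᵥ x) := by
  unfold dotProduct
  fun_prop

theorem rho_sm : ContDiff ℝ ∞ rho := dot_sm.sub contDiff_const

theorem pd_dot (i : Fin 3) (x : E 3) : pd i (fun y : E 3 => y ⬝ᵥ y) x = 2 * x i := by
  have h : ∀ k : Fin 3, DifferentiableAt ℝ (fun y : E 3 => y k) x := fun k => by fun_prop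
  unfold dotProduct
  rw [pd_sum Finset.univ (f := fun k (y : E 3) => y k * y k) (fun k _ => (h k).mul (h k))]
  simp only [pd_mul (h _) (h _), pd_coord, ite_mul, mul_ite, one_mul, mul_one, zero_mul, mul_zero,
    Finset.sum_add_distrib, Finset.sum_ite_eq, Finset.mem_univ, if_true]
  ring

theorem pd_rho (i : Fin 3) (x : E 3) : pd i rho x = 2 * x i := by
  have : rho = fun y : E 3 => y ⬝ᵥ y + (-1) := funext fun y => by unfold rho; ring
  rw [this, pd_add_const, pd_dot]

theorem rho_nonneg_iff (x : E 3) : 0 ≤ rho x ↔ 1 ≤ nrm x := by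
  unfold rho
  rw [← nrm_sq]
  have := nrm_nonneg x
  constructor
  · intro h
    nlinarith
  · intro h
    nlinarith

theorem rho_zero_iff (x : E 3) : rho x = 0 ↔ x ∈ sph := by
  unfold rho sph
  simp only [mem_ofPred_eq]
  constructor <;> intro h <;> linarith

theorem ww_eq {x : E 3} (hx : 1 / 2 ≤ nrm x) : ww x = u₀ x := by
  unfold ww
  rw [stp_one (by linarith), one_mul]

theorem ww_sm : ContDiff ℝ ∞ ww := by
  rw [contDiff_iff_contDiffAt]
  intro x
  by_cases hx : x = 0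
  · have h : ∀ᶠ y in 𝓝 x, nrm y < 1 / 4 :=
      (continuous_nrm.tendsto x).eventually (gt_mem_nhds (by rw [hx, nrm_zero]; norm_num))
    have e : ww =ᶠ[𝓝 x] fun _ => 0 := h.mono fun y hy => by
      unfold ww
      rw [stp_zero (by linarith), zero_mul]
    exact contDiffAt_const.congr_of_eventuallyEq e
  · have ho : {x : E 3 | x ≠ 0} ∈ 𝓝 x := isOpen_ne.mem_nhds hx
    have h1 : ContDiffAt ℝ ∞ (nrm : E 3 → ℝ) x := sm_nrm.contDiffAt ho
    have h2 : ContDiffAt ℝ ∞ u₀ x := sm_u₀.contDiffAt ho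
    exact (stp_sm.contDiffAt.comp x (contDiffAt_const.mul h1)).mul h2

theorem gg_eq {x : E 3} (hx : 1 / 2 ≤ nrm x) :
    gg x = u₀ x ^ 4 • (1 : Matrix (Fin 3) (Fin 3) ℝ) := by
  unfold gg
  rw [ww_eq hx]

theorem ext_ne {x : E 3} (hx : x ∈ (Ext (1 / 2) : Set (E 3))) : x ≠ 0 :=
  ne_zero_of_nrm_pos (lt_trans (by norm_num) hx)

theorem ext_pos {x : E 3} (hx : x ∈ (Ext (1 / 2) : Set (E 3))) : 0 < u₀ x := u₀_pos (le_of_lt hx)

theorem gg_conf {x : E 3} (hx : x ∈ (Ext (1 / 2) : Set (E 3))) : gg =ᶠ[𝓝 x] conf uu := by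
  filter_upwards [(isOpen_Ext (1 / 2)).mem_nhds hx] with y hy
  rw [gg_eq (le_of_lt hy)]
  unfold conf uu
  congr 1
  have e : 2 * (2 * Real.log (u₀ y)) = Real.log (u₀ y ^ 4) := by
    rw [Real.log_pow]
    push_cast
    ring
  rw [e, Real.exp_log (pow_pos (ext_pos hy) 4)]

theorem u₀_sm : Sm (Ext (1 / 2)) u₀ := sm_u₀.mono fun _ hx => ext_ne hx

theorem uu_sm : Sm (Ext (1 / 2)) uu :=
  contDiffOn_const.mul (u₀_sm.log fun _ hx => (ext_pos hx).ne')

theorem pd_uu {x : E 3} (hx : x ∈ (Ext (1 / 2) : Set (E 3))) (i : Fin 3) :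
    pd i uu x = 2 * (u₀ x)⁻¹ * pd i u₀ x :=
  pd_comp_real (β := fun t => 2 * Real.log t) (sm_da (isOpen_Ext _) u₀_sm hx)
    ((Real.hasDerivAt_log (ext_pos hx).ne').const_mul 2) i

theorem pd_pd_uu {x : E 3} (hx : x ∈ (Ext (1 / 2) : Set (E 3))) (i : Fin 3) :
    pd i (pd i uu) x = -2 * ((u₀ x)⁻¹) ^ 2 * pd i u₀ x ^ 2 + 2 * (u₀ x)⁻¹ * pd i (pd i u₀) x := by
  have hd := sm_da (isOpen_Ext _) u₀_sm hx
  have hp := (ext_pos hx).ne'
  rw [pd_congr_on (isOpen_Ext _) (fun y hy => pd_uu hy i) hx,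
    pd_mul (f := fun y => 2 * (u₀ y)⁻¹) ((hd.inv hp).const_mul 2)
      (sm_da (isOpen_Ext _) (sm_pd (isOpen_Ext _) u₀_sm i) hx),
    pd_comp_real (β := fun t => 2 * t⁻¹) hd ((hasDerivAt_inv hp).const_mul 2) i]
  rw [inv_pow]
  ring

theorem scal_gg {x : E 3} (hx : x ∈ (Ext (1 / 2) : Set (E 3))) : scal gg x = 0 := by
  rw [scal_congr (gg_conf hx), scal_conf (isOpen_Ext _) uu_sm hx]
  have h := lap_u₀ (ext_ne hx)
  have e : 2 * ∑ i, pd i (pd i uu) x + (((3 : ℕ) : ℝ) - 2) * ∑ i, pd i uu x ^ 2 = 0 := by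
    simp only [pd_pd_uu hx, pd_uu hx, Fin.sum_univ_three] at h ⊢
    push_cast
    linear_combination (4 * (u₀ x)⁻¹) * h
  rw [e, mul_zero]

theorem gam_rho (y : E 3) : gam flat rho rho y = 4 * (y ⬝ᵥ y) := by
  rw [gam_flat]
  simp only [pd_rho, dotProduct, Fin.sum_univ_three]
  ring

theorem mean_gg {x : E 3} (hx : x ∈ sph) : meanCurv gg rho x ≤ 0 := by
  have h1 : x ⬝ᵥ x = 1 := hx
  have hn : nrm x = 1 := mem_sph_iff.mp hx
  have hU : x ∈ (Ext (1 / 2) : Set (E 3)) := by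
    show 1 / 2 < nrm x
    rw [hn]
    norm_num
  have g4 : gam flat rho rho x = 4 := by rw [gam_rho, h1, mul_one]
  have s4 : √(4 : ℝ) = 2 := by
    rw [show (4 : ℝ) = 2 ^ 2 by norm_num]
    exact Real.sqrt_sq (by norm_num)
  have h0 : gam flat rho rho x ≠ 0 := by rw [g4]; norm_num
  have hl : lap flat rho x = 6 := by
    rw [lap_flat]
    have : ∀ i : Fin 3, pd i (pd i rho) x = 2 := fun i => by
      rw [show pd i rho = fun y => 2 * y i from funext (pd_rho i), pd_const_mul, pd_coord]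
      simp
    simp only [this, Fin.sum_univ_three]
    norm_num
  have hg : gam flat rho (gam flat rho rho) x = 16 := by
    rw [gam_flat, show gam flat rho rho = fun y : E 3 => 4 * (y ⬝ᵥ y) from funext gam_rho]
    simp only [pd_const_mul, pd_dot, pd_rho, Fin.sum_univ_three]
    simp only [dotProduct, Fin.sum_univ_three] at h1
    linear_combination 16 * h1
  have hm : meanCurv flat rho x = 2 := by
    rw [meanCurv_eq (isMet_flat isOpen_univ) rho_sm.contDiffOn (mem_univ x) h0, hl, hg, g4, s4]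
    norm_num
  obtain ⟨e1, e2⟩ := rad_u₀ hx
  have hu : gam flat uu rho x = 4 * (-9 - 2 * x 2) * (10 + x 2)⁻¹ := by
    rw [gam_flat, ← e2, rad_eq, ← e1]
    simp only [pd_uu hU, pd_rho, Fin.sum_univ_three]
    ring
  have hz : -1 ≤ x 2 := by
    have := abs_le_nrm x 2
    rw [hn] at this
    exact (abs_le.mp this).1
  rw [meanCurv_congr (gg_conf hU) (EventuallyEq.refl _ _),
    meanCurv_conf (isOpen_Ext _) uu_sm rho_sm.contDiffOn hU h0, hm, hu, g4, s4]
  apply mul_nonpos_of_nonneg_of_nonpos (Real.exp_pos _).le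
  have hp : 0 < 10 + x 2 := by linarith
  have e : 2 + (((3 : ℕ) : ℝ) - 1) * (4 * (-9 - 2 * x 2) * (10 + x 2)⁻¹) / 2 =
      (-16 - 6 * x 2) / (10 + x 2) := by
    push_cast
    field_simp
    ring
  rw [e]
  exact div_nonpos_of_nonpos_of_nonneg (by linarith) hp.le

theorem mem_ext {x : E 3} (hx : 0 ≤ rho x) : x ∈ (Ext (1 / 2) : Set (E 3)) := by
  have := (rho_nonneg_iff x).mp hx
  show 1 / 2 < nrm x
  linarith

theorem exterior : IsExterior rho where
  smooth := rho_sm
  regular := fun x hx => by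
    have h := mem_sph_iff.mp ((rho_zero_iff x).mp hx)
    have h0 : x ≠ 0 := ne_zero_of_nrm_pos (by rw [h]; norm_num)
    obtain ⟨i, hi⟩ := Function.ne_iff.mp h0
    exact ⟨i, by rw [pd_rho]; exact mul_ne_zero two_ne_zero hi⟩
  bounded := isBounded_iff_nrm.mpr ⟨1, fun x hx => by
    have h : ¬ 0 ≤ rho x := not_le.mpr hx
    rw [rho_nonneg_iff] at h
    exact (not_le.mp h).le⟩
  connected := by
    have h := isConnected_shell (I := Ici 1) isConnected_Ici
      (fun t ht => lt_of_lt_of_le one_pos ht)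
    have e : {x | 0 ≤ rho x} = {x : E 3 | nrm x ∈ Ici (1 : ℝ)} :=
      Set.ext fun x => rho_nonneg_iff x
    rw [e]
    exact h

theorem metric : IsMetricOn gg {x | 0 ≤ rho x} where
  smooth := fun i j => by
    simp only [gg, Matrix.smul_apply, smul_eq_mul]
    exact (ww_sm.pow 4).mul contDiff_const
  symm := fun x i j => by
    simp only [gg, Matrix.smul_apply, Matrix.one_apply, eq_comm]
  pos := fun x hx => by
    have h := mem_ext hx
    rw [gg_eq (le_of_lt h)]
    exact Matrix.PosDef.one.smul (pow_pos (ext_pos h) 4)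

theorem asympFlat : AsympFlat {x | 0 ≤ rho x} gg := by
  have hM : MeasurableSet {x | 0 ≤ rho x} :=
    (isClosed_le continuous_const rho_sm.continuous).measurableSet
  have e : {x | 0 ≤ rho x} \ {x : E 3 | 1 ≤ nrm x ∧ nrm x ≤ 2} = {x | 2 < nrm x} := by
    ext x
    simp only [Set.mem_sdiff, mem_ofPred_eq, rho_nonneg_iff]
    constructor
    · rintro ⟨h1, h2⟩
      by_contra h
      exact h2 ⟨h1, not_lt.mp h⟩
    · intro h
      exact ⟨by linarith, fun h2 => absurd h2.2 (not_le.mpr h)⟩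
  refine ⟨?_, {x | 1 ≤ nrm x ∧ nrm x ≤ 2}, 2, fun z => z, fun z => z, ?_, ?_, two_pos, ?_, ?_,
    contDiffOn_id, contDiffOn_id, ?_⟩
  · refine (integrableOn_zero (μ := volume)).congr_fun (fun x hx => ?_) hM
    simp only [scal_gg (mem_ext hx), zero_mul]
  · exact (isCompact_nrm_le 2).of_isClosed_subset
      ((isClosed_le continuous_const continuous_nrm).inter
        (isClosed_le continuous_nrm continuous_const)) fun x hx => hx.2
  · exact fun x hx => (rho_nonneg_iff x).mpr hx.1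
  · rw [e]
    exact bijOn_id _
  · exact ⟨fun _ _ => rfl, fun _ _ => rfl⟩
  · rw [show pull (fun z => z) gg = gg from funext (pull_id gg)]
    exact decay_u₀ fun x hx => gg_eq (by linarith)

theorem isom : IsIsometry S₀ (fun z => z) {x | rho x = 0} gg where
  smooth := contDiff_id
  bij := by
    rw [show {x | rho x = 0} = sph from Set.ext rho_zero_iff]
    exact bijOn_id _
  isom := fun p hp v w _ _ => by
    have hn : nrm p = 1 := mem_sph_iff.mp hp
    rw [pull_id, gg_eq (by rw [hn]; norm_num), (rad_u₀ hp).1]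
    rfl

end ExExtAux

open ExExtAux in
theorem admExt_exists : Nonempty (AdmExt S₀) :=
  ⟨{ ρ := rho
     g := gg
     ι := fun z => z
     exterior := exterior
     metric := metric
     flat := asympFlat
     isometry := isom
     scal_nonneg := fun _ hx => (scal_gg (mem_ext hx)).ge
     meanCurv_nonpos := fun x hx => mean_gg ((rho_zero_iff x).mp hx) }⟩

end Pool.Agent.P.MP_56a1cd_gt
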