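import Pool.Agent.P.MP_56a1cd_gt.Curv
import Pool.Agent.P.MP_56a1cd_gt.ExDef

namespace Pool.Agent.P.MP_56a1cd_gt

open MeasureTheory Matrix Set Filter Topology
open scoped ContDiff ENNReal

variable {m n : ℕ}

/-! PLAN. With `t = y ⬝ y`, `10 + (σ y) 2 = (11 t + 9) / (1 + t)` and `10 - (σ y) 2 = (9 t + 11) / (1 + t)`, so
`phs φ₀ 1 y = 2 log (11 t + 9) - 3 log (1 + t) + log 2`, and similarly for `ε = -1` with `9 t + 11`. The flat Laplacian of
`log (a t + b)` is `4 a b / (a t + b)²`. By `Kf_stereo`, `scal_conf`: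
`Kf φ₀ (σ y) = (1 + t)⁴ (3 (11 t + 9)² - 198 (1 + t)²) / (11 t + 9)⁶`, and the same with `9 t + 11` for `-σ y`. Both
are positive since `11 t + 9 ≥ 9 (1 + t)`. At `y = 0` the values are `45 / 9⁶` and `165 / 11⁶`. Every `x ≠ 0` is a positive
multiple of some `ε • σ y` (`exists_polar`, `polar_lift`, `lift_pr`, `Hom0.Kf`). -/

namespace ExKAux

/-- The function `a t + b` of `t = y ⬝ y`. -/
def q (a b : ℝ) (y : E 2) : ℝ := a * (y ⬝ᵥ y) + b

/-- Its logarithm. -/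
noncomputable def lq (a b : ℝ) (y : E 2) : ℝ := Real.log (q a b y)

theorem dot_nonneg (y : E 2) : 0 ≤ y ⬝ᵥ y := by
  simp only [dotProduct, Fin.sum_univ_two]
  nlinarith [sq_nonneg (y 0), sq_nonneg (y 1)]

variable {a b : ℝ}

theorem q_pos (ha : 0 < a) (hb : 0 < b) (y : E 2) : 0 < q a b y := by
  have := dot_nonneg y
  unfold q
  positivity

theorem q_eq (a b : ℝ) : q a b = fun y => a * (y 0 * y 0 + y 1 * y 1) + b := by
  funext y
  simp only [q, dotProduct, Fin.sum_univ_two]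

theorem sm_q (a b : ℝ) : ContDiff ℝ ∞ (q a b) := by
  rw [q_eq]
  fun_prop

theorem da_q (a b : ℝ) (y : E 2) : DifferentiableAt ℝ (q a b) y :=
  ((sm_q a b).differentiable (by simp)).differentiableAt

theorem pd_q (a b : ℝ) (i : Fin 2) (y : E 2) : pd i (q a b) y = 2 * a * y i := by
  rw [q_eq, pd_add_const, pd_const_mul, pd_add (by fun_prop) (by fun_prop),
    pd_mul (by fun_prop) (by fun_prop), pd_mul (by fun_prop) (by fun_prop), pd_coord, pd_coord]
  fin_cases i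
  · simp
    ring
  · simp
    ring

theorem sm_lq (ha : 0 < a) (hb : 0 < b) : ContDiff ℝ ∞ (lq a b) :=
  (sm_q a b).log fun y => (q_pos ha hb y).ne'

theorem pd_lq (ha : 0 < a) (hb : 0 < b) (i : Fin 2) :
    pd i (lq a b) = fun y => 2 * a * (y i * (q a b y)⁻¹) := by
  funext y
  have h := pd_comp_real (da_q a b y) (Real.hasDerivAt_log (q_pos ha hb y).ne') i
  rw [pd_q] at h
  exact h.trans (by ring)

theorem pd_pd_lq (ha : 0 < a) (hb : 0 < b) (i : Fin 2) (y : E 2) :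
    pd i (pd i (lq a b)) y =
      2 * a * ((q a b y)⁻¹ - 2 * a * y i ^ 2 * ((q a b y) ^ 2)⁻¹) := by
  have h0 := (q_pos ha hb y).ne'
  have h := pd_comp_real (da_q a b y) (hasDerivAt_inv h0) i
  rw [pd_lq ha hb, pd_const_mul, pd_mul (by fun_prop) ((da_q a b y).fun_inv h0), pd_coord, h,
    pd_q]
  simp only [if_true]
  ring

theorem lap_lq (ha : 0 < a) (hb : 0 < b) (y : E 2) :
    ∑ i, pd i (pd i (lq a b)) y = 4 * a * b / q a b y ^ 2 := by
  have h0 := (q_pos ha hb y).ne'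
  have e : q a b y = a * (y 0 * y 0 + y 1 * y 1) + b := by rw [q_eq]
  rw [Fin.sum_univ_two, pd_pd_lq ha hb, pd_pd_lq ha hb]
  field_simp
  rw [e]
  ring

/-- The conformal factor in the two charts. -/
noncomputable def w (a b : ℝ) (y : E 2) : ℝ := 2 * lq a b y - 3 * lq 1 1 y + Real.log 2

theorem sm_w (ha : 0 < a) (hb : 0 < b) : ContDiff ℝ ∞ (w a b) :=
  ((contDiff_const.mul (sm_lq ha hb)).sub (contDiff_const.mul (sm_lq one_pos one_pos))).add
    contDiff_const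

theorem pd_w (ha : 0 < a) (hb : 0 < b) (i : Fin 2) :
    pd i (w a b) = fun y => 2 * pd i (lq a b) y - 3 * pd i (lq 1 1) y := by
  funext y
  have h1 := ((sm_lq ha hb).differentiable (by simp)).differentiableAt (x := y)
  have h2 := ((sm_lq one_pos one_pos).differentiable (by simp)).differentiableAt (x := y)
  unfold w
  rw [pd_add_const, pd_sub (h1.const_mul 2) (h2.const_mul 3), pd_const_mul, pd_const_mul]

theorem lap_w (ha : 0 < a) (hb : 0 < b) (y : E 2) :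
    ∑ i, pd i (pd i (w a b)) y = 8 * a * b / q a b y ^ 2 - 12 / q 1 1 y ^ 2 := by
  have e : ∀ i, pd i (pd i (w a b)) y =
      2 * pd i (pd i (lq a b)) y - 3 * pd i (pd i (lq 1 1)) y := fun i => by
    have h1 := ((contDiff_pd (sm_lq ha hb) i).differentiable (by simp)).differentiableAt (x := y)
    have h2 := ((contDiff_pd (sm_lq one_pos one_pos) i).differentiable
      (by simp)).differentiableAt (x := y)
    rw [pd_w ha hb, pd_sub (h1.const_mul 2) (h2.const_mul 3), pd_const_mul, pd_const_mul]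
  simp only [e]
  rw [Finset.sum_sub_distrib, ← Finset.mul_sum, ← Finset.mul_sum, lap_lq ha hb,
    lap_lq one_pos one_pos]
  ring

theorem scal_w (ha : 0 < a) (hb : 0 < b) (y : E 2) :
    scal (conf (w a b)) y / 2 =
      Real.exp (-2 * w a b y) * (12 / q 1 1 y ^ 2 - 8 * a * b / q a b y ^ 2) := by
  rw [scal_conf isOpen_univ (sm_w ha hb).contDiffOn (mem_univ y), lap_w ha hb]
  push_cast
  ring

theorem phs_eq {ε : ℝ} (hε : ε = 1 ∨ ε = -1) : phs φ₀ ε = w (10 + ε) (10 - ε) := by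
  funext y
  have ha : 0 < 10 + ε := by rcases hε with rfl | rfl <;> norm_num
  have hb : 0 < 10 - ε := by rcases hε with rfl | rfl <;> norm_num
  have h1 : nrm (ε • stereo y) = 1 := by
    rw [nrm_smul, mem_sph_iff.1 (stereo_mem_sph y)]
    rcases hε with rfl | rfl <;> simp
  have h2 := q_pos ha hb y
  have h3 := q_pos one_pos one_pos y
  have h4 : 1 + y ⬝ᵥ y = q 1 1 y := by
    unfold q
    ring
  have h5 : 10 + (ε • stereo y) 2 / 1 = q (10 + ε) (10 - ε) y / q 1 1 y := by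
    have : (ε • stereo y) 2 = ε * ((y ⬝ᵥ y - 1) / (1 + y ⬝ᵥ y)) := rfl
    rw [this, h4, eq_div_iff h3.ne']
    field_simp
    unfold q
    ring
  unfold phs φ₀ w lq
  rw [h1, h5, h4, Real.log_div h2.ne' h3.ne', Real.log_div two_ne_zero h3.ne']
  ring

theorem exp_w_zero (hb : 0 < b) : Real.exp (-2 * w a b 0) = (4 * b ^ 4)⁻¹ := by
  have e : -2 * w a b 0 = Real.log (4 * b ^ 4)⁻¹ := by
    rw [Real.log_inv, Real.log_mul (by norm_num) (by positivity), Real.log_pow,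
      show (4 : ℝ) = 2 ^ 2 by norm_num, Real.log_pow]
    simp [w, lq, q]
    ring
  rw [e, Real.exp_log (by positivity)]

end ExKAux

theorem hom0_φ₀ : Hom0 φ₀ := by
  refine ⟨?_, fun x t ht => ?_⟩
  · refine contDiffOn_const.mul (ContDiffOn.log (contDiffOn_const.add
      ((sm_coord _ 2).div sm_nrm fun x hx => (nrm_pos hx).ne')) fun x hx => ?_)
    have h0 := nrm_pos (show x ≠ 0 from hx)
    have h1 : -1 ≤ x 2 / nrm x := by
      rw [le_div_iff₀ h0]
      have := (abs_le.1 (abs_le_nrm x 2)).1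
      linarith
    linarith
  · unfold φ₀
    rw [nrm_smul, abs_of_pos ht, Pi.smul_apply, smul_eq_mul, mul_div_mul_left _ _ ht.ne']

theorem S₀_eq : ∀ p ∈ sph, ∀ v w : E 3, v ⬝ᵥ p = 0 → w ⬝ᵥ p = 0 →
    v ⬝ᵥ (S₀.γ p).mulVec w = Real.exp (2 * φ₀ p) * (v ⬝ᵥ w) := by
  intro p hp v w _ _
  have h1 := mem_sph_iff.1 hp
  have h2 : 0 < 10 + p 2 := by
    have := (abs_le.1 (abs_le_nrm p 2)).1
    linarith
  have e : Real.exp (2 * φ₀ p) = (10 + p 2) ^ 4 := by
    unfold φ₀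
    rw [h1, div_one, ← Real.exp_log (pow_pos h2 4), Real.log_pow]
    congr 1
    push_cast
    ring
  show v ⬝ᵥ ((10 + p 2) ^ 4 • (1 : Matrix (Fin 3) (Fin 3) ℝ)).mulVec w = _
  rw [e, Matrix.smul_mulVec, Matrix.one_mulVec, dotProduct_smul, smul_eq_mul]

namespace ExKAux

theorem Kf_eq {ε : ℝ} (hε : ε = 1 ∨ ε = -1) (y : E 2) :
    Kf φ₀ (ε • stereo y) = Real.exp (-2 * w (10 + ε) (10 - ε) y) *
      (12 / q 1 1 y ^ 2 - 792 / q (10 + ε) (10 - ε) y ^ 2) := by
  have ha : 0 < 10 + ε := by rcases hε with rfl | rfl <;> norm_num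
  have hb : 0 < 10 - ε := by rcases hε with rfl | rfl <;> norm_num
  have e : 8 * (10 + ε) * (10 - ε) = 792 := by rcases hε with rfl | rfl <;> norm_num
  rw [Kf_stereo hom0_φ₀ hε, phs_eq hε, scal_w ha hb, e]

theorem ne_zero {ε : ℝ} (hε : ε = 1 ∨ ε = -1) (y : E 2) : ε • stereo y ≠ 0 := by
  refine ne_zero_of_nrm_pos ?_
  rw [nrm_smul, mem_sph_iff.1 (stereo_mem_sph y)]
  rcases hε with rfl | rfl <;> simp

theorem lift_pr' (z : E 3) : lift (z 2) (pr z) = z := by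
  funext i
  fin_cases i <;> rfl

end ExKAux

theorem Kf_φ₀_pos (x : E 3) (hx : x ≠ 0) : 0 < Kf φ₀ x := by
  obtain ⟨ε, z, hε, _, _, rfl⟩ := exists_polar hx
  rw [← ExKAux.lift_pr' z, polar_lift, hom0_φ₀.Kf.hom _ _ (Real.exp_pos _), ExKAux.Kf_eq hε]
  refine mul_pos (Real.exp_pos _) (sub_pos.2 ?_)
  have h0 := ExKAux.dot_nonneg (pr z)
  have h1 := ExKAux.q_pos one_pos one_pos (pr z)
  have h2 : 9 * ExKAux.q 1 1 (pr z) ≤ ExKAux.q (10 + ε) (10 - ε) (pr z) := by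
    unfold ExKAux.q
    rcases hε with rfl | rfl <;> nlinarith
  have h3 : 0 < ExKAux.q (10 + ε) (10 - ε) (pr z) := by linarith
  rw [div_lt_div_iff₀ (by positivity) (by positivity)]
  nlinarith [mul_self_le_mul_self (by positivity) h2, mul_pos h1 h1]

theorem Kf_φ₀_ne : ∃ x y, x ≠ 0 ∧ y ≠ 0 ∧ Kf φ₀ x ≠ Kf φ₀ y := by
  refine ⟨(1 : ℝ) • stereo 0, (-1 : ℝ) • stereo 0, ExKAux.ne_zero (Or.inl rfl) 0,
    ExKAux.ne_zero (Or.inr rfl) 0, ?_⟩
  rw [ExKAux.Kf_eq (Or.inl rfl), ExKAux.Kf_eq (Or.inr rfl), ExKAux.exp_w_zero (by norm_num),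
    ExKAux.exp_w_zero (by norm_num)]
  simp only [ExKAux.q, dotProduct_zero]
  norm_num

end Pool.Agent.P.MP_56a1cd_gt
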