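import Pool.Agent.P.MP_56a1cd_gt.CalcN

namespace Pool.Agent.P.MP_56a1cd_gt

open MeasureTheory Matrix Set Filter Topology
open scoped ContDiff ENNReal

variable {m n : ℕ}

/-! Hilbert space facts for `L²` in integral form. -/

namespace L2Aux

variable {X : Type*} [MeasurableSpace X] {μ : Measure X}

theorem inner_toLp {u v : X → ℝ} (hu : MemLp u 2 μ) (hv : MemLp v 2 μ) :
    inner ℝ (hu.toLp u) (hv.toLp v) = ∫ x, u x * v x ∂μ := by
  rw [L2.inner_def]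
  refine integral_congr_ae ?_
  filter_upwards [hu.coeFn_toLp, hv.coeFn_toLp] with x h1 h2
  rw [h1, h2]
  simp [mul_comm]

theorem norm_toLp {u : X → ℝ} (hu : MemLp u 2 μ) : ‖hu.toLp u‖ = √(∫ x, u x ^ 2 ∂μ) := by
  rw [norm_eq_sqrt_real_inner, inner_toLp hu hu]
  simp only [sq]

theorem dist_toLp {u v : X → ℝ} (hu : MemLp u 2 μ) (hv : MemLp v 2 μ) :
    dist (hu.toLp u) (hv.toLp v) = √(∫ x, (u x - v x) ^ 2 ∂μ) := by
  rw [dist_eq_norm, ← MemLp.toLp_sub hu hv, norm_toLp]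
  rfl

theorem memLp_sqrt {a : X → ℝ} (ha : Integrable a μ) (ha0 : ∀ᵐ x ∂μ, 0 ≤ a x) :
    MemLp (fun x => √(a x)) 2 μ := by
  have hm : AEStronglyMeasurable (fun x => √(a x)) μ :=
    Real.continuous_sqrt.comp_aestronglyMeasurable ha.aestronglyMeasurable
  refine (memLp_two_iff_integrable_sq hm).mpr (ha.congr ?_)
  filter_upwards [ha0] with x hx
  rw [Real.sq_sqrt hx]

end L2Aux

/-- Cauchy-Schwarz. -/
theorem abs_integral_mul_le {X : Type*} [MeasurableSpace X] {μ : Measure X} {u v : X → ℝ}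
    (hu : MemLp u 2 μ) (hv : MemLp v 2 μ) :
    |∫ x, u x * v x ∂μ| ≤ √(∫ x, u x ^ 2 ∂μ) * √(∫ x, v x ^ 2 ∂μ) := by
  rw [← L2Aux.inner_toLp hu hv, ← L2Aux.norm_toLp hu, ← L2Aux.norm_toLp hv]
  exact abs_real_inner_le_norm _ _

/-- Cauchy-Schwarz with an integrable majorant of product type. -/
theorem abs_integral_le_sqrt {X : Type*} [MeasurableSpace X] {μ : Measure X} {f a b : X → ℝ}
    (hf : AEStronglyMeasurable f μ) (ha : Integrable a μ) (hb : Integrable b μ)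
    (ha0 : ∀ᵐ x ∂μ, 0 ≤ a x) (hb0 : ∀ᵐ x ∂μ, 0 ≤ b x) (h : ∀ᵐ x ∂μ, f x ^ 2 ≤ a x * b x) :
    Integrable f μ ∧ |∫ x, f x ∂μ| ≤ √(∫ x, a x ∂μ) * √(∫ x, b x ∂μ) := by
  have h1 := L2Aux.memLp_sqrt ha ha0
  have h2 := L2Aux.memLp_sqrt hb hb0
  have h3 : Integrable (fun x => √(a x) * √(b x)) μ := h1.integrable_mul h2
  have h4 : ∀ᵐ x ∂μ, ‖f x‖ ≤ √(a x) * √(b x) := by
    filter_upwards [ha0, h] with x hx hx'
    rw [← Real.sqrt_mul hx]
    exact Real.abs_le_sqrt hx'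
  refine ⟨h3.mono' hf h4, ?_⟩
  have h5 : ‖∫ x, f x ∂μ‖ ≤ ∫ x, √(a x) * √(b x) ∂μ := norm_integral_le_of_norm_le h3 h4
  have h6 := abs_integral_mul_le h1 h2
  have h7 : ∫ x, √(a x) ^ 2 ∂μ = ∫ x, a x ∂μ := by
    refine integral_congr_ae ?_
    filter_upwards [ha0] with x hx
    rw [Real.sq_sqrt hx]
  have h8 : ∫ x, √(b x) ^ 2 ∂μ = ∫ x, b x ∂μ := by
    refine integral_congr_ae ?_
    filter_upwards [hb0] with x hx
    rw [Real.sq_sqrt hx]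
  rw [h7, h8] at h6
  exact h5.trans ((le_abs_self _).trans h6)

/-- Strong convergence in `L²` implies weak convergence. -/
theorem tendsto_integral_mul {X : Type*} [MeasurableSpace X] {μ : Measure X} {u : ℕ → X → ℝ}
    {v w : X → ℝ} (hu : ∀ k, MemLp (u k) 2 μ) (hv : MemLp v 2 μ) (hw : MemLp w 2 μ)
    (h : Tendsto (fun k => ∫ x, (u k x - v x) ^ 2 ∂μ) atTop (𝓝 0)) :
    Tendsto (fun k => ∫ x, w x * u k x ∂μ) atTop (𝓝 (∫ x, w x * v x ∂μ)) := by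
  have h1 : Tendsto (fun k => (hu k).toLp (u k)) atTop (𝓝 (hv.toLp v)) := by
    rw [tendsto_iff_dist_tendsto_zero]
    have h2 := h.sqrt
    rw [Real.sqrt_zero] at h2
    exact h2.congr fun k => (L2Aux.dist_toLp (hu k) hv).symm
  have h3 : Tendsto (fun k => inner ℝ (hw.toLp w) ((hu k).toLp (u k))) atTop
      (𝓝 (inner ℝ (hw.toLp w) (hv.toLp v))) := tendsto_const_nhds.inner h1
  rw [L2Aux.inner_toLp hw hv] at h3
  exact h3.congr fun k => L2Aux.inner_toLp hw (hu k)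

/-- Completeness of `L²`. -/
theorem exists_L2_limit {X : Type*} [MeasurableSpace X] {μ : Measure X} {u : ℕ → X → ℝ}
    (hu : ∀ k, MemLp (u k) 2 μ)
    (h : ∀ ε > 0, ∃ N, ∀ k ≥ N, ∀ l ≥ N, ∫ x, (u k x - u l x) ^ 2 ∂μ ≤ ε) :
    ∃ v, MemLp v 2 μ ∧ Tendsto (fun k => ∫ x, (u k x - v x) ^ 2 ∂μ) atTop (𝓝 0) := by
  have hc : CauchySeq (fun k => (hu k).toLp (u k)) := by
    rw [Metric.cauchySeq_iff]
    intro ε hε
    obtain ⟨N, hN⟩ := h ((ε / 2) ^ 2) (by positivity)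
    refine ⟨N, fun k hk l hl => ?_⟩
    rw [L2Aux.dist_toLp (hu k) (hu l)]
    have h1 : √(∫ x, (u k x - u l x) ^ 2 ∂μ) ≤ ε / 2 :=
      Real.sqrt_le_iff.mpr ⟨by positivity, hN k hk l hl⟩
    linarith
  obtain ⟨G, hG⟩ := cauchySeq_tendsto_of_complete hc
  refine ⟨G, Lp.memLp G, ?_⟩
  rw [← Lp.toLp_coeFn G (Lp.memLp G), tendsto_iff_dist_tendsto_zero] at hG
  have h1 := hG.pow 2
  rw [zero_pow two_ne_zero] at h1
  refine h1.congr fun k => ?_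
  rw [L2Aux.dist_toLp (hu k) (Lp.memLp G), Real.sq_sqrt (integral_nonneg fun x => sq_nonneg _)]

end Pool.Agent.P.MP_56a1cd_gt
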