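import Pool.Agent.P.MP_56a1cd_gt.CapC
import Pool.Agent.P.MP_56a1cd_gt.Poinc
import Pool.Agent.P.MP_56a1cd_gt.MinSeq
import Pool.Agent.P.MP_56a1cd_gt.H1Chart
import Pool.Agent.P.MP_56a1cd_gt.L2

namespace Pool.Agent.P.MP_56a1cd_gt

open MeasureTheory Matrix Set Filter Topology
open scoped ContDiff ENNReal

variable {m n : ℕ}

/-! PLAN. Apply `minseq` to the submodule of test functions of `interior M`, `B u v = ∫_M gam u v * vol`,
`l v = -B ζ v` (`exists_zeta`, Cauchy-Schwarz `abs_integral_le_sqrt` with `gam_sq_le`). Put `U k = ζ + u k`.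
All integrands are continuous on `M` and vanish off a compact set (`integrableOn_of_cpt`).
Cauchy property on a compact `K`: take a ball containing `K` and `Mᶜ`; the difference `d = u k - u l` vanishes on
the open set `Mᶜ`, so `poincare_zero` bounds `∫ d²` by `∫ ∑ (pd i d)²` over the ball, the integrand vanishes off
`M`, and `IsMet.ellip_gam` on `closedBall ∩ M` bounds it by `B d d`. -/

namespace ExistAux

variable {φ : E 3 → ℝ} (C : Cap φ)

/-- The Dirichlet form. -/
noncomputable def B (u v : E 3 → ℝ) : ℝ := ∫ x in C.M, gam C.g u v x * vol C.g x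

theorem da {u : E n → ℝ} (hu : ContDiff ℝ ∞ u) (x : E n) : DifferentiableAt ℝ u x :=
  sm_da isOpen_univ hu.contDiffOn (mem_univ x)

theorem ev_zero {u : E n → ℝ} {x : E n} (hx : x ∉ tsupport u) : u =ᶠ[𝓝 x] fun _ => 0 :=
  notMem_tsupport_iff_eventuallyEq.1 hx

theorem pos {x : E 3} (hx : x ∈ C.M) : (C.g x).PosDef := C.met'.pos x (C.M_sub hx)

theorem int {u v : E 3 → ℝ} (hu : ContDiff ℝ ∞ u) (hv : ContDiff ℝ ∞ v)
    (hc : HasCompactSupport u) : IntegrableOn (fun x => gam C.g u v x * vol C.g x) C.M := by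
  refine integrableOn_of_cpt C.closed.measurableSet (IsCompact.inter_left hc C.closed)
    inter_subset_left ?_ fun x hx hn => ?_
  · exact ((C.met'.sm_gam hu.contDiffOn hv.contDiffOn).continuousOn.mul
      C.met'.sm_vol.continuousOn).mono (inter_subset_left.trans C.M_sub)
  · rw [gam_congr rfl (ev_zero fun h => hn ⟨hx, h⟩) EventuallyEq.rfl, gam_const_left, zero_mul]

theorem B_add {u v w : E 3 → ℝ} (hu : ContDiff ℝ ∞ u) (hv : ContDiff ℝ ∞ v)
    (hw : ContDiff ℝ ∞ w) (cu : HasCompactSupport u) (cv : HasCompactSupport v) :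
    B C (u + v) w = B C u w + B C v w := by
  unfold B
  rw [← integral_add (int C hu hw cu) (int C hv hw cv)]
  refine integral_congr_ae (Eventually.of_forall fun x => ?_)
  have := gam_add_left C.g (da hu x) (da hv x) w
  change gam C.g (fun y => u y + v y) w x * _ = _
  rw [this]
  ring

theorem B_smul (c : ℝ) (u w : E 3 → ℝ) : B C (c • u) w = c * B C u w := by
  unfold B
  rw [← integral_const_mul]
  refine integral_congr_ae (Eventually.of_forall fun x => ?_)
  have := gam_cmul_left C.g c u w x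
  change gam C.g (fun y => c * u y) w x * _ = _
  rw [this]
  ring

theorem B_symm (u v : E 3 → ℝ) : B C u v = B C v u :=
  setIntegral_congr_fun C.closed.measurableSet fun x hx => by
    simp only [gam_comm (pos C hx) u v]

theorem nonneg (u : E 3 → ℝ) {x : E 3} (hx : x ∈ C.M) : 0 ≤ gam C.g u u x * vol C.g x :=
  mul_nonneg (gam_nonneg (pos C hx) u) (vol_nonneg _ _)

theorem B_nonneg (u : E 3 → ℝ) : 0 ≤ B C u u :=
  setIntegral_nonneg C.closed.measurableSet fun _ hx => nonneg C u hx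

theorem B_sq {u v : E 3 → ℝ} (hu : ContDiff ℝ ∞ u) (hv : ContDiff ℝ ∞ v)
    (cu : HasCompactSupport u) (cv : HasCompactSupport v) :
    B C u v ^ 2 ≤ B C u u * B C v v := by
  have hm := C.closed.measurableSet
  have h := (abs_integral_le_sqrt (int C hu hv cu).aestronglyMeasurable (int C hu hu cu)
    (int C hv hv cv) (ae_restrict_of_forall_mem hm fun _ hx => nonneg C u hx)
    (ae_restrict_of_forall_mem hm fun _ hx => nonneg C v hx)
    (ae_restrict_of_forall_mem hm fun x hx => by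
      have h1 := mul_le_mul_of_nonneg_right (gam_sq_le (pos C hx) u v) (sq_nonneg (vol C.g x))
      calc _ = gam C.g u v x ^ 2 * vol C.g x ^ 2 := by ring
        _ ≤ _ := h1
        _ = _ := by ring)).2
  have h2 := pow_le_pow_left₀ (abs_nonneg _) h 2
  rw [sq_abs, mul_pow] at h2
  have h3 := Real.sq_sqrt (B_nonneg C u)
  have h4 := Real.sq_sqrt (B_nonneg C v)
  unfold B at h3 h4 ⊢
  rwa [h3, h4] at h2

/-- The space of test functions. -/
def tests (U : Set (E n)) : Submodule ℝ (E n → ℝ) where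
  carrier := {u | Test U u}
  add_mem' := fun {u v} hu hv => ⟨hu.sm.add hv.sm, hu.cpt.add hv.cpt,
    (tsupport_add u v).trans (union_subset hu.sub hv.sub)⟩
  zero_mem' := ⟨contDiff_const, HasCompactSupport.zero, by
    change tsupport (0 : E n → ℝ) ⊆ U
    simp⟩
  smul_mem' := fun c u hu => ⟨hu.sm.const_smul c, hu.cpt.smul_left (f := fun _ => c),
    (tsupport_smul_subset_right (fun _ => c) u).trans hu.sub⟩

theorem h1_le {K : Set (E 3)} (hK : IsCompact K) : ∃ A : ℝ, 0 < A ∧ ∀ d, Test (interior C.M) d →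
    ∫ x in K, (d x ^ 2 + ∑ i, pd i d x ^ 2) ≤ A * B C d d := by
  obtain ⟨R, hR⟩ := (hK.isBounded.union C.bdd).subset_ball 0
  obtain ⟨P, hP, h1⟩ := poincare_zero 0 R C.closed.isOpen_compl C.compl_nonempty
    (subset_union_right.trans hR)
  obtain ⟨c, c', hc, -, h2⟩ := C.met'.ellip_gam
    ((isCompact_closedBall (0 : E 3) R).inter_right C.closed) (inter_subset_right.trans C.M_sub)
  refine ⟨(P + 1) / c, by positivity, fun d hd => ?_⟩
  have hoff : ∀ x, x ∉ C.M → x ∉ tsupport d := fun x hx h => hx (interior_subset (hd.sub h))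
  have c1 : Continuous fun x => d x ^ 2 := hd.sm.continuous.pow 2
  have c2 : Continuous fun x => ∑ i, pd i d x ^ 2 :=
    continuous_finsetSum _ fun i _ => (contDiff_pd hd.sm i).continuous.pow 2
  have i1 : IntegrableOn (fun x => d x ^ 2) (Metric.ball 0 R) :=
    (c1.continuousOn.integrableOn_compact (isCompact_closedBall 0 R)).mono_set
      Metric.ball_subset_closedBall
  have i2 : IntegrableOn (fun x => ∑ i, pd i d x ^ 2) (Metric.ball 0 R) :=
    (c2.continuousOn.integrableOn_compact (isCompact_closedBall 0 R)).mono_set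
      Metric.ball_subset_closedBall
  have h3 : ∫ x in K, (d x ^ 2 + ∑ i, pd i d x ^ 2) ≤
      ∫ x in Metric.ball 0 R, (d x ^ 2 + ∑ i, pd i d x ^ 2) :=
    setIntegral_mono_set (i1.add i2) (Eventually.of_forall fun x => by positivity)
      (subset_union_left.trans hR).eventuallyLE
  rw [integral_add i1 i2] at h3
  have h4 := h1 d hd.sm fun x hx => image_eq_zero_of_notMem_tsupport (hoff x hx)
  have h5 : c * ∫ x in Metric.ball 0 R, ∑ i, pd i d x ^ 2 ≤ B C d d := by
    have hb : MeasurableSet (Metric.ball (0 : E 3) R) := measurableSet_ball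
    have hm := C.closed.measurableSet
    unfold B
    rw [← integral_const_mul, ← integral_indicator hb, ← integral_indicator hm]
    refine integral_mono ((integrable_indicator_iff hb).2 (i2.const_mul c))
      ((integrable_indicator_iff hm).2 (int C hd.sm hd.sm hd.cpt)) fun x => ?_
    by_cases hx : x ∈ C.M
    · rw [indicator_of_mem hx]
      by_cases hx' : x ∈ Metric.ball (0 : E 3) R
      · rw [indicator_of_mem hx']
        exact ((h2 x ⟨Metric.ball_subset_closedBall hx', hx⟩).2.2 d).1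
      · rw [indicator_of_notMem hx']
        exact nonneg C d hx
    · rw [indicator_of_notMem hx]
      by_cases hx' : x ∈ Metric.ball (0 : E 3) R
      · rw [indicator_of_mem hx']
        simp [pd_congr (ev_zero (hoff x hx)), pd_const]
      · rw [indicator_of_notMem hx']
  rw [div_mul_eq_mul_div, le_div_iff₀ hc]
  nlinarith [mul_le_mul_of_nonneg_left h5 (by positivity : 0 ≤ P + 1),
    mul_le_mul_of_nonneg_left (h3.trans (add_le_add_left h4 _)) hc.le]

end ExistAux

open ExistAux in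
theorem exist_seq {φ : E 3 → ℝ} (C : Cap φ) : ∃ U : ℕ → E 3 → ℝ,
    (∀ k, ContDiff ℝ ∞ (U k)) ∧ (∀ k, HasCompactSupport (U k)) ∧
    (∀ k, ∀ᶠ z in 𝓝ˢ (interior C.M)ᶜ, U k z = 1) ∧ (∀ K, IsCompact K → CauchyH1 K U) ∧
    (∃ B, ∀ k, ∫ x in C.M, gam C.g (U k) (U k) x * vol C.g x ≤ B) ∧
    ∀ ψ, Test (interior C.M) ψ →
      Tendsto (fun k => ∫ x in interior C.M, gam C.g (U k) ψ x * vol C.g x) atTop (𝓝 0) := by
  obtain ⟨ζ, hζ, cζ, -, -, -, h1, -⟩ := C.exists_zeta
  obtain ⟨u, hu, hC, ⟨D, hD⟩, hl⟩ := minseq (tests (interior C.M)) (B C) (fun v => -B C v ζ)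
    (fun u hu v hv w hw => B_add C hu.sm hv.sm hw.sm hu.cpt hv.cpt)
    (fun c u _ w _ => B_smul C c u w) (fun u _ v _ => B_symm C u v) (fun u _ => B_nonneg C u)
    (fun u hu v hv => by rw [B_add C hu.sm hv.sm hζ hu.cpt hv.cpt]; ring)
    (fun c u _ => by rw [B_smul]; ring) (C := B C ζ ζ)
    (fun u hu => by rw [neg_sq, mul_comm]; exact B_sq C hu.sm hζ hu.cpt cζ)
  have hu' : ∀ k, Test (interior C.M) (u k) := hu
  have hs : ∀ k, ContDiff ℝ ∞ (ζ + u k) := fun k => hζ.add (hu' k).sm
  refine ⟨fun k => ζ + u k, hs, fun k => cζ.add (hu' k).cpt, fun k => ?_, fun K hK ε hε => ?_,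
    ⟨2 * B C ζ ζ + 2 * D, fun k => ?_⟩, fun ψ hψ => ?_⟩
  · have h2 : (tsupport (u k))ᶜ ∈ 𝓝ˢ (interior C.M)ᶜ :=
      (isClosed_tsupport _).isOpen_compl.mem_nhdsSet.2 (compl_subset_compl.2 (hu' k).sub)
    filter_upwards [h1, h2] with z e hz
    simp [e, image_eq_zero_of_notMem_tsupport hz]
  · obtain ⟨A, hA, h2⟩ := h1_le C hK
    obtain ⟨N, hN⟩ := hC (ε / A) (by positivity)
    refine ⟨N, fun k hk l hl => ?_⟩
    have h3 := h2 (u k - u l) ((tests (interior C.M)).sub_mem (hu k) (hu l))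
    have h4 := mul_le_mul_of_nonneg_left (hN k hk l hl) hA.le
    rw [mul_div_cancel₀ _ hA.ne'] at h4
    refine le_trans (le_of_eq ?_) (h3.trans h4)
    refine integral_congr_ae (Eventually.of_forall fun x => ?_)
    have e : (fun y => (ζ + u k) y - (ζ + u l) y) = u k - u l := by
      funext y
      simp
    have e' : ∀ i, pd i (ζ + u k) x - pd i (ζ + u l) x = pd i (u k - u l) x := fun i => by
      rw [← pd_sub (da (hs k) x) (da (hs l) x), e]
    simp only [e', congrFun e x]
  · change B C (ζ + u k) (ζ + u k) ≤ _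
    rw [B_add C hζ (hu' k).sm (hs k) cζ (hu' k).cpt, B_symm C ζ, B_symm C (u k),
      B_add C hζ (hu' k).sm hζ cζ (hu' k).cpt, B_add C hζ (hu' k).sm (hu' k).sm cζ (hu' k).cpt,
      B_symm C (u k) ζ]
    have h2 := B_sq C hζ (hu' k).sm cζ (hu' k).cpt
    have h3 := B_nonneg C ζ
    have h4 := B_nonneg C (u k)
    have h5 : 2 * B C ζ (u k) ≤ B C ζ ζ + B C (u k) (u k) :=
      le_of_sq_le_sq (by nlinarith [sq_nonneg (B C ζ ζ - B C (u k) (u k))]) (by positivity)
    linarith [hD k]
  · have h2 := (hl ψ hψ).const_add (B C ζ ψ)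
    rw [B_symm C ψ ζ, add_neg_cancel] at h2
    refine h2.congr fun k => ?_
    rw [← B_add C hζ (hu' k).sm hψ.sm cζ (hu' k).cpt]
    exact (setIntegral_congr_set C.interior_ae_eq).symm

end Pool.Agent.P.MP_56a1cd_gt
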