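import Pool.Agent.P.MP_56a1cd_gt.Compat

namespace Pool.Agent.P.MP_56a1cd_gt

open MeasureTheory Matrix Set Filter Topology
open scoped ContDiff ENNReal

variable {m n : ℕ}

namespace KatoAux

open scoped MatrixOrder

theorem core {A : Matrix (Fin 3) (Fin 3) ℝ} (hA : ∀ i j, A i j = A j i) (h0 : A.trace = 0)
    (w : Fin 3 → ℝ) : (A *ᵥ w) ⬝ᵥ (A *ᵥ w) ≤ 2 / 3 * (A * A).trace * (w ⬝ᵥ w) := by
  have key : ∀ u : Fin 3 → ℝ,
      (u ⬝ᵥ (A *ᵥ w)) ^ 2 ≤ 2 / 3 * (A * A).trace * (w ⬝ᵥ w) * (u ⬝ᵥ u) := by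
    intro u
    have h1 := Finset.sum_mul_sq_le_sq_mul_sq Finset.univ (fun p : Fin 3 × Fin 3 => A p.1 p.2)
      (fun p => (w p.1 * u p.2 + u p.1 * w p.2) / 2 - (w ⬝ᵥ u) / 3 * (1 : Matrix _ _ ℝ) p.1 p.2)
    have h2 := Finset.sum_mul_sq_le_sq_mul_sq Finset.univ w u
    have h3 : A 2 2 = -A 0 0 - A 1 1 := by
      rw [Matrix.trace_fin_three] at h0
      linarith
    have e1 : ∑ p : Fin 3 × Fin 3, A p.1 p.2 * ((w p.1 * u p.2 + u p.1 * w p.2) / 2 -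
        (w ⬝ᵥ u) / 3 * (1 : Matrix _ _ ℝ) p.1 p.2) = u ⬝ᵥ (A *ᵥ w) := by
      simp [Fintype.sum_prod_type, Fin.sum_univ_three, dotProduct, mulVec, Matrix.one_apply,
        hA 1 0, hA 2 0, hA 2 1, h3]
      ring
    have e2 : ∑ p : Fin 3 × Fin 3, A p.1 p.2 ^ 2 = (A * A).trace := by
      simp [Fintype.sum_prod_type, Fin.sum_univ_three, Matrix.trace_fin_three, Matrix.mul_apply,
        hA 1 0, hA 2 0, hA 2 1]
      ring
    have e3 : ∑ p : Fin 3 × Fin 3, ((w p.1 * u p.2 + u p.1 * w p.2) / 2 -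
        (w ⬝ᵥ u) / 3 * (1 : Matrix _ _ ℝ) p.1 p.2) ^ 2 =
        (w ⬝ᵥ w) * (u ⬝ᵥ u) / 2 + (w ⬝ᵥ u) ^ 2 / 6 := by
      simp [Fintype.sum_prod_type, Fin.sum_univ_three, dotProduct, Matrix.one_apply]
      ring
    have h4 : (w ⬝ᵥ u) ^ 2 ≤ (w ⬝ᵥ w) * (u ⬝ᵥ u) := by simpa only [dotProduct, sq] using h2
    have h5 : 0 ≤ (A * A).trace := e2 ▸ Finset.sum_nonneg fun _ _ => sq_nonneg _
    rw [e1, e2, e3] at h1
    nlinarith [mul_le_mul_of_nonneg_left h4 h5]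
  have h5 : 0 ≤ (A * A).trace := by
    simp only [Matrix.trace, Matrix.diag, Matrix.mul_apply]
    exact Finset.sum_nonneg fun i _ => Finset.sum_nonneg fun j _ => hA i j ▸ mul_self_nonneg _
  have h6 : ∀ v : Fin 3 → ℝ, 0 ≤ v ⬝ᵥ v := fun v =>
    Finset.sum_nonneg fun _ _ => mul_self_nonneg _
  rcases (h6 (A *ᵥ w)).eq_or_lt with h | h
  · rw [← h]
    exact mul_nonneg (mul_nonneg (by norm_num) h5) (h6 w)
  · have := key (A *ᵥ w)
    rw [sq] at this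
    exact le_of_mul_le_mul_right this h

theorem general {G H : Matrix (Fin 3) (Fin 3) ℝ} (hG : G.PosSemidef) (hH : Hᵀ = H)
    (h0 : (G * H).trace = 0) (p : Fin 3 → ℝ) :
    (H *ᵥ (G *ᵥ p)) ⬝ᵥ G *ᵥ (H *ᵥ (G *ᵥ p)) ≤ 2 / 3 * (G * H * (G * H)).trace * (p ⬝ᵥ G *ᵥ p) := by
  obtain ⟨B, rfl⟩ := CStarAlgebra.nonneg_iff_eq_star_mul_self.mp hG.nonneg
  rw [star_eq_conjTranspose, conjTranspose_eq_transpose_of_trivial] at h0 ⊢
  have e : ∀ v : Fin 3 → ℝ, v ⬝ᵥ (Bᵀ * B) *ᵥ v = (B *ᵥ v) ⬝ᵥ (B *ᵥ v) := fun v => by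
    rw [← mulVec_mulVec, dotProduct_mulVec, vecMul_transpose]
  have hs : (B * H * Bᵀ)ᵀ = B * H * Bᵀ := by
    rw [transpose_mul, transpose_mul, transpose_transpose, hH, Matrix.mul_assoc]
  have h := core (A := B * H * Bᵀ) (fun i j => (congrFun (congrFun hs j) i))
    (by rw [trace_mul_comm, ← Matrix.mul_assoc, h0]) (B *ᵥ p)
  have e1 : (B * H * Bᵀ * (B * H * Bᵀ)).trace = (Bᵀ * B * H * (Bᵀ * B * H)).trace := by
    rw [← Matrix.mul_assoc, trace_mul_comm]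
    simp only [Matrix.mul_assoc]
  rw [e, e, ← e1]
  simpa only [mulVec_mulVec, Matrix.mul_assoc] using h

end KatoAux

theorem kato_three {g : Met 3} {U : Set (E 3)} {f : E 3 → ℝ} {x : E 3} (hg : IsMet g U)
    (hf : Sm U f) (hx : x ∈ U) (h0 : lap g f x = 0) :
    gam g (gam g f f) (gam g f f) x ≤ 8 / 3 * hsq g f x * gam g f f x := by
  have hs := hg.hess_symm hf hx
  have hi := hg.inv_symm hx
  have e1 : lap g f x = ((g x)⁻¹ * hessM g f x).trace := by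
    simp only [lap, Matrix.trace, Matrix.diag, Matrix.mul_apply, hessM, Matrix.of_apply]
    exact Finset.sum_congr rfl fun i _ => Finset.sum_congr rfl fun j _ => by rw [hs i j]
  have e2 : hsq g f x = ((g x)⁻¹ * hessM g f x * ((g x)⁻¹ * hessM g f x)).trace := by
    simp only [hsq, Matrix.trace, Matrix.diag, Matrix.mul_apply, hessM, Matrix.of_apply,
      Fin.sum_univ_three, hs 1 0, hs 2 0, hs 2 1, hi 1 0, hi 2 0, hi 2 1]
    ring
  have e3 : (fun i => pd i (gam g f f) x) =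
      (2 : ℝ) • hessM g f x *ᵥ ((g x)⁻¹ *ᵥ fun i => pd i f x) := by
    funext k
    rw [pd_gam hg hf hf hx, Finset.sum_add_distrib, ← two_mul]
    rfl
  have h := KatoAux.general (hg.pos x hx).inv.posSemidef (H := hessM g f x)
    (Matrix.ext fun i j => hs j i) (e1 ▸ h0) fun i => pd i f x
  rw [gam_eq_dot, gam_eq_dot, e2, e3, mulVec_smul, smul_dotProduct, dotProduct_smul, smul_eq_mul,
    smul_eq_mul]
  linarith

theorem kato_two {g : Met 2} {U : Set (E 2)} {f : E 2 → ℝ} {x : E 2} (hg : IsMet g U)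
    (hf : Sm U f) (hx : x ∈ U) :
    gam g (gam g f f) (gam g f f) x =
      2 * lap g f x * gam g f (gam g f f) x +
        2 * (hsq g f x - lap g f x ^ 2) * gam g f f x := by
  have hs := hg.hess_symm hf hx 1 0
  have hi := hg.inv_symm hx 1 0
  rw [gam, gam.eq_1 g f (gam g f f), gam.eq_1 g f f]
  simp only [pd_gam hg hf hf hx, lap, hsq, gr, Fin.sum_univ_two, hs, hi]
  ring

theorem ricq_two {g : Met 2} {U : Set (E 2)} {x : E 2} (hg : IsMet g U) (hx : x ∈ U)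
    (hR : ∀ i j, ric g i j x = scal g x / 2 * g x i j) (f : E 2 → ℝ) :
    ricq g f x = scal g x / 2 * gam g f f x := by
  have h : ∀ i, ∑ j, g x i j * gr g f j x = pd i f x := fun i => by
    simp only [gr, Finset.mul_sum, ← mul_assoc]
    rw [Finset.sum_comm]
    simp only [← Finset.sum_mul, hg.mul_inv hx]
    simp
  rw [ricq, gam_eq_gr, Finset.mul_sum]
  refine Finset.sum_congr rfl fun i _ => ?_
  rw [← h i, Finset.sum_mul, Finset.mul_sum]
  exact Finset.sum_congr rfl fun j _ => by rw [hR]; ring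

end Pool.Agent.P.MP_56a1cd_gt
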