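import Pool.Agent.P.MP_56a1cd_gt.Compat

namespace Pool.Agent.P.MP_56a1cd_gt

open MeasureTheory Matrix Set Filter Topology
open scoped ContDiff ENNReal

variable {m n : ℕ}

/-! PLAN. `ric_eq_riem`: `chr k i j = ∑ l, G k l * chr1 i j l` on `U`; differentiate with the product
rule and `pd_inv`, express the `chr` by `chr1` (`chr_eq`), use `pd_comm` and the symmetry of `g` on
`U`. It may be easier to prove first
`∑ a, g i a * R a k l j = riem i j k l` for
`R a k l j = pd k (chr a l j) - pd l (chr a k j) + ∑ b, (chr a k b * chr b l j - chr a l b * chr b k j)`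
using `chr1_eq` (differentiate `chr1 l j i = ∑ a, g i a * chr a l j`) and `pd_met`.
`scal_bdd`: `scal_jet`; `|chr1| ≤ (3/2) A`; finite sums.
`ric_two`: in dimension two only `riem 0 1 0 1` survives (`Fin.sum_univ_two`), use
`Matrix.inv_def`, `Matrix.adjugate_fin_two`, `Matrix.det_fin_two`. All identities were checked
numerically. -/

namespace RiemAux

variable {g : Met n} {U : Set (E n)} {x : E n}

theorem dd_right (hg : IsMet g U) (hx : x ∈ U) (a b c d : Fin n) :
    pd a (pd b (fun y => g y c d)) x = pd a (pd b (fun y => g y d c)) x :=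
  pd_congr_on hg.opn (fun _ hy => pd_congr_on hg.opn (fun _ hz => hg.symm hz c d) hy b) hx a

theorem dd_left (hg : IsMet g U) (hx : x ∈ U) (a b c d : Fin n) :
    pd a (pd b (fun y => g y c d)) x = pd b (pd a (fun y => g y c d)) x :=
  pd_comm hg.opn (hg.sm c d) hx a b

theorem sum_swap {G : Matrix (Fin n) (Fin n) ℝ} (hG : ∀ a b, G a b = G b a)
    (f : Fin n → Fin n → ℝ) : ∑ a, ∑ b, G a b * f a b = ∑ a, ∑ b, G a b * f b a := by
  rw [Finset.sum_comm]
  exact Finset.sum_congr rfl fun a _ => Finset.sum_congr rfl fun b _ => by rw [hG]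

theorem pd_chr1 (hg : IsMet g U) (hx : x ∈ U) (a i j l : Fin n) :
    pd a (chr1 g i j l) x = (1 / 2) * (pd a (pd i (fun y => g y j l)) x +
      pd a (pd j (fun y => g y i l)) x - pd a (pd l (fun y => g y i j)) x) := by
  have d : ∀ p q r, DifferentiableAt ℝ (pd p (fun y => g y q r)) x := fun p q r =>
    sm_da hg.opn (sm_pd hg.opn (hg.sm q r) p) hx
  have e : chr1 g i j l = fun x => (1 / 2) * (pd i (fun y => g y j l) x +
      pd j (fun y => g y i l) x - pd l (fun y => g y i j) x) := rfl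
  rw [e, pd_const_mul, pd_sub ((d _ _ _).fun_add (d _ _ _)) (d _ _ _), pd_add (d _ _ _) (d _ _ _)]

theorem pd_chr (hg : IsMet g U) (hx : x ∈ U) (q k i j : Fin n) :
    pd q (chr g k i j) x = ∑ l, (g x)⁻¹ k l * (pd q (chr1 g i j l) x -
      ∑ a, ∑ b, (g x)⁻¹ a b * (chr1 g i j a x * chr1 g q l b x)) -
      ∑ a, chr g k q a x * chr g a i j x := by
  have e : chr g k i j = fun y => ∑ l, (g y)⁻¹ k l * chr1 g i j l y :=
    funext fun y => chr_eq g k i j y
  have d1 : ∀ l, DifferentiableAt ℝ (fun y => (g y)⁻¹ k l) x := fun l =>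
    sm_da hg.opn (hg.sm_inv k l) hx
  have d2 : ∀ l, DifferentiableAt ℝ (chr1 g i j l) x := fun l =>
    sm_da hg.opn (hg.sm_chr1 i j l) hx
  have h1 : pd q (chr g k i j) x = ∑ l, (pd q (fun y => (g y)⁻¹ k l) x * chr1 g i j l x +
      (g x)⁻¹ k l * pd q (chr1 g i j l) x) := by
    rw [e, pd_sum (f := fun l y => (g y)⁻¹ k l * chr1 g i j l y) Finset.univ
      (fun l _ => (d1 l).mul (d2 l))]
    exact Finset.sum_congr rfl fun l _ => pd_mul (d1 l) (d2 l) q
  have h2 : ∑ a, chr g k q a x * chr g a i j x =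
      ∑ l, ∑ a, chr g k q a x * (g x)⁻¹ a l * chr1 g i j l x := by
    rw [Finset.sum_comm]
    refine Finset.sum_congr rfl fun a _ => ?_
    rw [chr_eq g a i j x, Finset.mul_sum]
    exact Finset.sum_congr rfl fun l _ => by ring
  have h3 : ∑ l, (g x)⁻¹ k l * ∑ a, ∑ b, (g x)⁻¹ a b * (chr1 g i j a x * chr1 g q l b x) =
      ∑ l, ∑ a, chr g l q a x * (g x)⁻¹ k a * chr1 g i j l x := by
    rw [Finset.sum_comm]
    refine Finset.sum_congr rfl fun l _ => ?_
    rw [Finset.mul_sum]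
    refine Finset.sum_congr rfl fun a _ => ?_
    rw [chr_eq g a q l x, Finset.mul_sum, Finset.sum_mul, Finset.sum_mul]
    exact Finset.sum_congr rfl fun b _ => by ring
  simp only [mul_sub, Finset.sum_sub_distrib]
  rw [h1, h2, h3]
  simp only [pd_inv hg hx, neg_mul, Finset.sum_mul, add_mul, Finset.sum_add_distrib,
    Finset.sum_neg_distrib]
  ring

/-- fourfold sums -/
noncomputable def S4 (f : Fin n → Fin n → Fin n → Fin n → ℝ) : ℝ := ∑ i, ∑ j, ∑ k, ∑ l, f i j k l

theorem s12 (f : Fin n → Fin n → Fin n → Fin n → ℝ) : S4 f = S4 (fun i j k l => f j i k l) :=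
  Finset.sum_comm

theorem s23 (f : Fin n → Fin n → Fin n → Fin n → ℝ) : S4 f = S4 (fun i j k l => f i k j l) :=
  Finset.sum_congr rfl fun _ _ => Finset.sum_comm

theorem s34 (f : Fin n → Fin n → Fin n → Fin n → ℝ) : S4 f = S4 (fun i j k l => f i j l k) :=
  Finset.sum_congr rfl fun _ _ => Finset.sum_congr rfl fun _ _ => Finset.sum_comm

theorem S4_congr {f h : Fin n → Fin n → Fin n → Fin n → ℝ} (e : ∀ i j k l, f i j k l = h i j k l) :
    S4 f = S4 h := by
  simp only [S4, e]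

theorem second {G : Matrix (Fin n) (Fin n) ℝ} (hG : ∀ a b, G a b = G b a)
    {D : Fin n → Fin n → Fin n → Fin n → ℝ} (hD : ∀ a b c d, D a b c d = D a b d c) :
    S4 (fun i j k l => G i k * G j l * ((1 / 2) * (D j k i l + D i l j k - D i k j l - D j l i k))) =
      S4 (fun a b c d => (G a c * G b d - G a b * G c d) * D a b c d) := by
  have t1 : S4 (fun i j k l => G i k * G j l * D j k i l) =
      S4 (fun a b c d => G a c * G b d * D a b c d) :=
    ((s12 _).trans ((s23 _).trans (s34 _))).trans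
      (S4_congr fun a b c d => by rw [hG d b, hD a b d c]; ring)
  have t2 : S4 (fun i j k l => G i k * G j l * D i l j k) =
      S4 (fun a b c d => G a c * G b d * D a b c d) :=
    ((s23 _).trans ((s34 _).trans (s23 _))).trans
      (S4_congr fun a b c d => by rw [hG d b, hD a b d c])
  have t3 : S4 (fun i j k l => G i k * G j l * D i k j l) =
      S4 (fun a b c d => G a b * G c d * D a b c d) := s23 _
  have t4 : S4 (fun i j k l => G i k * G j l * D j l i k) =
      S4 (fun a b c d => G a b * G c d * D a b c d) :=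
    ((s34 _).trans ((s12 _).trans (s23 _))).trans (S4_congr fun a b c d => by ring)
  have e1 : S4 (fun i j k l =>
      G i k * G j l * ((1 / 2) * (D j k i l + D i l j k - D i k j l - D j l i k))) =
      (1 / 2) * (S4 (fun i j k l => G i k * G j l * D j k i l) +
        S4 (fun i j k l => G i k * G j l * D i l j k) -
        S4 (fun i j k l => G i k * G j l * D i k j l) -
        S4 (fun i j k l => G i k * G j l * D j l i k)) := by
    simp only [S4, ← Finset.sum_add_distrib, ← Finset.sum_sub_distrib, Finset.mul_sum]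
    refine Finset.sum_congr rfl fun i _ => Finset.sum_congr rfl fun j _ =>
      Finset.sum_congr rfl fun k _ => Finset.sum_congr rfl fun l _ => by ring
  have e2 : S4 (fun a b c d => (G a c * G b d - G a b * G c d) * D a b c d) =
      S4 (fun a b c d => G a c * G b d * D a b c d) -
        S4 (fun a b c d => G a b * G c d * D a b c d) := by
    simp only [S4, ← Finset.sum_sub_distrib, sub_mul]
  rw [e1, e2, t1, t2, t3, t4]
  ring

theorem abs_sum_le {f : Fin n → ℝ} {B : ℝ} (h : ∀ i, |f i| ≤ B) : |∑ i, f i| ≤ n * B := by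
  refine (Finset.abs_sum_le_sum_abs _ _).trans ?_
  simpa using Finset.sum_le_card_nsmul Finset.univ (fun i => |f i|) B (fun i _ => h i)

theorem abs_mul_le {a b A B : ℝ} (ha : |a| ≤ A) (hb : |b| ≤ B) : |a * b| ≤ A * B := by
  rw [abs_mul]
  exact mul_le_mul ha hb (abs_nonneg _) ((abs_nonneg _).trans ha)

theorem abs_sub_le' {a b A B : ℝ} (ha : |a| ≤ A) (hb : |b| ≤ B) : |a - b| ≤ A + B :=
  (abs_sub a b).trans (add_le_add ha hb)

end RiemAux

open RiemAux

section
variable {g : Met n} {U : Set (E n)} {x : E n}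

theorem riem_anti_left (hg : IsMet g U) (hx : x ∈ U) (i j k l : Fin n) :
    riem g i j k l x = -riem g j i k l x := by
  unfold riem
  rw [sum_swap (hg.inv_symm hx)
    (fun a b => chr1 g i k a x * chr1 g j l b x - chr1 g i l a x * chr1 g j k b x), neg_add,
    ← Finset.sum_neg_distrib]
  refine congrArg₂ (· + ·) (by ring) (Finset.sum_congr rfl fun a _ => ?_)
  rw [← Finset.sum_neg_distrib]
  exact Finset.sum_congr rfl fun b _ => by ring

theorem riem_anti_right (hg : IsMet g U) (hx : x ∈ U) (i j k l : Fin n) :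
    riem g i j k l x = -riem g i j l k x := by
  have _ := hg.pos x hx
  unfold riem
  rw [neg_add, ← Finset.sum_neg_distrib]
  refine congrArg₂ (· + ·) (by ring) (Finset.sum_congr rfl fun a _ => ?_)
  rw [← Finset.sum_neg_distrib]
  exact Finset.sum_congr rfl fun b _ => by ring

theorem riem_swap (hg : IsMet g U) (hx : x ∈ U) (i j k l : Fin n) :
    riem g i j k l x = riem g k l i j x := by
  unfold riem
  refine congrArg₂ (· + ·) ?_ ?_
  · rw [dd_left hg hx l i k j, dd_right hg hx i l k j, dd_left hg hx k j l i,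
      dd_right hg hx j k l i, dd_left hg hx k i l j, dd_right hg hx i k l j,
      dd_left hg hx l j k i, dd_right hg hx j l k i]
    ring
  · simp only [mul_sub, Finset.sum_sub_distrib]
    rw [sum_swap (hg.inv_symm hx) (fun a b => chr1 g l i a x * chr1 g k j b x)]
    simp only [hg.chr1_symm hx l i, hg.chr1_symm hx k j, hg.chr1_symm hx l j, hg.chr1_symm hx k i,
      mul_comm]

theorem ric_eq_riem (hg : IsMet g U) (hx : x ∈ U) (j l : Fin n) :
    ric g j l x = ∑ i, ∑ k, (g x)⁻¹ i k * riem g i j k l x := by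
  rw [sum_swap (hg.inv_symm hx) (fun i k => riem g i j k l x)]
  unfold ric
  refine Finset.sum_congr rfl fun k _ => ?_
  rw [pd_chr hg hx, pd_chr hg hx, Finset.sum_sub_distrib]
  have e : ∀ a b c d : ℝ, a - b - (c - d) + (b - d) = a - c := fun a b c d => by ring
  rw [e, ← Finset.sum_sub_distrib]
  refine Finset.sum_congr rfl fun i _ => ?_
  rw [← mul_sub, pd_chr1 hg hx, pd_chr1 hg hx]
  unfold riem
  congr 1
  simp only [mul_sub, Finset.sum_sub_distrib]
  rw [dd_left hg hx k j l i, dd_right hg hx j k l i, dd_left hg hx k l j i,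
    dd_left hg hx k i j l, dd_left hg hx l j k i, dd_right hg hx j l k i, dd_left hg hx l i j k]
  simp only [hg.chr1_symm hx k i, hg.chr1_symm hx l i]
  ring

theorem scal_jet (hg : IsMet g U) (hx : x ∈ U) :
    scal g x = (∑ a, ∑ b, ∑ c, ∑ d, ((g x)⁻¹ a c * (g x)⁻¹ b d - (g x)⁻¹ a b * (g x)⁻¹ c d) *
      pd a (pd b (fun y => g y c d)) x) + scalQ (g x)⁻¹ (fun i j l => chr1 g i j l x) := by
  have h1 : scal g x = S4 (fun j l i k => (g x)⁻¹ i k * (g x)⁻¹ j l * riem g i j k l x) := by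
    unfold scal S4
    refine Finset.sum_congr rfl fun j _ => Finset.sum_congr rfl fun l _ => ?_
    rw [ric_eq_riem hg hx, Finset.mul_sum]
    refine Finset.sum_congr rfl fun i _ => ?_
    rw [Finset.mul_sum]
    exact Finset.sum_congr rfl fun k _ => by ring
  have h2 : scal g x = S4 (fun i j k l => (g x)⁻¹ i k * (g x)⁻¹ j l * riem g i j k l x) :=
    h1.trans ((s23 _).trans ((s12 _).trans (s34 _)))
  have h3 := second (hg.inv_symm hx) (D := fun a b c d => pd a (pd b (fun y => g y c d)) x)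
    (dd_right hg hx)
  unfold S4 at h2 h3
  rw [h2, ← h3]
  unfold scalQ riem
  simp only [← Finset.sum_add_distrib]
  refine Finset.sum_congr rfl fun i _ => Finset.sum_congr rfl fun j _ =>
    Finset.sum_congr rfl fun k _ => Finset.sum_congr rfl fun l _ => ?_
  rw [mul_add]
  congr 1
  simp only [Finset.mul_sum, mul_assoc]

theorem scalQ_bdd (n : ℕ) : ∃ C : ℝ, 0 < C ∧ ∀ (G : Matrix (Fin n) (Fin n) ℝ)
    (c : Fin n → Fin n → Fin n → ℝ) (M A : ℝ), 0 ≤ M → (∀ i j, |G i j| ≤ M) →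
    (∀ i j l, |c i j l| ≤ A) →
    |scalQ G c| ≤ C * M ^ 3 * A ^ 2 := by
  refine ⟨2 * (n : ℝ) ^ 6 + 1, by positivity, fun G c M A hM hG hc => ?_⟩
  have h : |scalQ G c| ≤ n * (n * (n * (n * (n * (n * (M * M * M * (A * A + A * A))))))) :=
    abs_sum_le fun i => abs_sum_le fun j => abs_sum_le fun k => abs_sum_le fun l =>
      abs_sum_le fun a => abs_sum_le fun b =>
        abs_mul_le (abs_mul_le (abs_mul_le (hG _ _) (hG _ _)) (hG _ _))
          (abs_sub_le' (abs_mul_le (hc _ _ _) (hc _ _ _)) (abs_mul_le (hc _ _ _) (hc _ _ _)))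
  have h2 : 0 ≤ M ^ 3 * A ^ 2 := by positivity
  refine h.trans ?_
  have : (n : ℝ) * (n * (n * (n * (n * (n * (M * M * M * (A * A + A * A))))))) =
      2 * (n : ℝ) ^ 6 * (M ^ 3 * A ^ 2) := by ring
  rw [this]
  nlinarith

theorem scal_bdd (n : ℕ) : ∃ C : ℝ, 0 < C ∧ ∀ (g : Met n) (U : Set (E n)) (x : E n) (M A B : ℝ),
    IsMet g U → x ∈ U → 0 ≤ M → 0 ≤ B → (∀ i j, |(g x)⁻¹ i j| ≤ M) →
    (∀ k i j, |pd k (fun y => g y i j) x| ≤ A) →
    (∀ k l i j, |pd k (pd l (fun y => g y i j)) x| ≤ B) →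
    |scal g x| ≤ C * (M ^ 2 * B + M ^ 3 * A ^ 2) := by
  obtain ⟨C, hC, hQ⟩ := scalQ_bdd n
  refine ⟨2 * (n : ℝ) ^ 4 + 9 / 4 * C, by positivity,
    fun g U x M A B hg hx hM hB hG hA hD => ?_⟩
  have h1 : ∀ i j l, |chr1 g i j l x| ≤ 3 / 2 * A := fun i j l => by
    have a1 := abs_le.1 (hA i j l)
    have a2 := abs_le.1 (hA j i l)
    have a3 := abs_le.1 (hA l i j)
    unfold chr1
    rw [abs_le]
    constructor <;> linarith
  have h2 := hQ (g x)⁻¹ (fun i j l => chr1 g i j l x) M (3 / 2 * A) hM hG h1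
  have h3 : |∑ a, ∑ b, ∑ c, ∑ d, ((g x)⁻¹ a c * (g x)⁻¹ b d - (g x)⁻¹ a b * (g x)⁻¹ c d) *
      pd a (pd b (fun y => g y c d)) x| ≤ n * (n * (n * (n * ((M * M + M * M) * B)))) :=
    abs_sum_le fun a => abs_sum_le fun b => abs_sum_le fun c => abs_sum_le fun d =>
      abs_mul_le (abs_sub_le' (abs_mul_le (hG _ _) (hG _ _)) (abs_mul_le (hG _ _) (hG _ _)))
        (hD _ _ _ _)
  rw [scal_jet hg hx]
  refine (abs_add_le _ _).trans ((add_le_add h3 h2).trans ?_)
  have p1 : 0 ≤ (n : ℝ) ^ 4 * (M ^ 3 * A ^ 2) := by positivity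
  have p2 : 0 ≤ C * (M ^ 2 * B) := by positivity
  nlinarith

end

namespace RiemAux

variable {g : Met 2} {U : Set (E 2)} {x : E 2}

theorem ric_vals (hg : IsMet g U) (hx : x ∈ U) :
    ric g 0 0 x = (g x)⁻¹ 1 1 * riem g 0 1 0 1 x ∧ ric g 0 1 x = -(g x)⁻¹ 1 0 * riem g 0 1 0 1 x ∧
    ric g 1 0 x = -(g x)⁻¹ 0 1 * riem g 0 1 0 1 x ∧
    ric g 1 1 x = (g x)⁻¹ 0 0 * riem g 0 1 0 1 x := by
  have z1 : ∀ i k l, riem g i i k l x = 0 := fun i k l => by
    have := riem_anti_left hg hx i i k l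
    linarith
  have z2 : ∀ i j k, riem g i j k k x = 0 := fun i j k => by
    have := riem_anti_right hg hx i j k k
    linarith
  have a1 := riem_anti_left hg hx 1 0 0 1
  have a2 := riem_anti_right hg hx 0 1 1 0
  have a3 := riem_anti_left hg hx 1 0 1 0
  simp only [ric_eq_riem hg hx, Fin.sum_univ_two, z1, z2, a1, a2, a3]
  refine ⟨by ring, by ring, by ring, by ring⟩

theorem inv_vals (A : Matrix (Fin 2) (Fin 2) ℝ) :
    A⁻¹ 0 0 = A.det⁻¹ * A 1 1 ∧ A⁻¹ 0 1 = -(A.det⁻¹ * A 0 1) ∧ A⁻¹ 1 0 = -(A.det⁻¹ * A 1 0) ∧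
      A⁻¹ 1 1 = A.det⁻¹ * A 0 0 := by
  simp [Matrix.inv_def, Matrix.adjugate_fin_two, Ring.inverse_eq_inv']

theorem scal_val (hg : IsMet g U) (hx : x ∈ U) :
    scal g x / 2 = (g x).det⁻¹ * riem g 0 1 0 1 x := by
  obtain ⟨r1, r2, r3, r4⟩ := ric_vals hg hx
  obtain ⟨i1, i2, i3, i4⟩ := inv_vals (g x)
  have hd : (g x).det ≠ 0 := (hg.pos x hx).det_pos.ne'
  have e : (g x).det⁻¹ * (g x 0 0 * g x 1 1 - g x 0 1 * g x 1 0) = 1 := by
    rw [← Matrix.det_fin_two, inv_mul_cancel₀ hd]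
  have s := hg.symm hx 0 1
  simp only [scal, Fin.sum_univ_two, r1, r2, r3, r4, i1, i2, i3, i4]
  rw [s] at e ⊢
  linear_combination ((g x).det⁻¹ * riem g 0 1 0 1 x) * e

end RiemAux

theorem ric_two {g : Met 2} {U : Set (E 2)} {x : E 2} (hg : IsMet g U) (hx : x ∈ U) (i j : Fin 2) :
    ric g i j x = scal g x / 2 * g x i j := by
  obtain ⟨r1, r2, r3, r4⟩ := ric_vals hg hx
  obtain ⟨i1, i2, i3, i4⟩ := inv_vals (g x)
  have s := hg.symm hx 0 1
  rw [scal_val hg hx]
  fin_cases i <;> fin_cases j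
  · change ric g 0 0 x = _ * g x 0 0
    rw [r1, i4]; ring
  · change ric g 0 1 x = _ * g x 0 1
    rw [r2, i3, s]; ring
  · change ric g 1 0 x = _ * g x 1 0
    rw [r3, i2, s]; ring
  · change ric g 1 1 x = _ * g x 1 1
    rw [r4, i1]; ring

theorem scal_two {g : Met 2} {U : Set (E 2)} {x : E 2} (hg : IsMet g U) (hx : x ∈ U) :
    scal g x / 2 * (g x).det = riem g 0 1 0 1 x := by
  have hd : (g x).det ≠ 0 := (hg.pos x hx).det_pos.ne'
  rw [scal_val hg hx]
  field_simp

end Pool.Agent.P.MP_56a1cd_gt
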