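import Pool.Agent.P.MP_56a1cd_gt.Bochner
import Pool.Agent.P.MP_56a1cd_gt.Kato
import Pool.Agent.P.MP_56a1cd_gt.Riem
import Pool.Agent.P.MP_56a1cd_gt.Ibp

namespace Pool.Agent.P.MP_56a1cd_gt

open MeasureTheory Matrix Set Filter Topology
open scoped ContDiff ENNReal

variable {m n : ℕ}

/-! PLAN. Let `a = gam h h`, `ρ = lap h`, `K = scal / 2`. `bochner`, `ric_two`, `ricq_two` give
`lap a = 2 (hsq + gam h ρ + K a)`. `log_ineq`: with `b = δ exp (2ψ)`, `q = a + b`,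
`lap ((1/2) log q) = lap q / (2q) - gam q q / (2q²)`, `lap b = 2 b lap ψ + 4 b gam ψ ψ`, `gam a a = 2 hsq a`
(`kato_two`), and `q² (left - right) = b (hsq + 2 a gam ψ ψ - 2 gam a ψ) ≥ 0` since
`gam a ψ ^ 2 ≤ 2 hsq a gam ψ ψ`. `k_div`: direct computation with `kato_two` (checked numerically).
`lock`: take `h = y 0`, whose gradient never vanishes; by `k_div` and `vol_div` (with `f = 1` and with
`f = ρ / a`), `K vol = ∑ pd i (Y i)` with `Y i` depending only on the germ of the metric; apply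
`integral_div_eq_zero` to `Y' i - Y i`. -/

namespace LogIneqAux

theorem sm_half_log {U : Set (E n)} {q : E n → ℝ} (hq : Sm U q) (h0 : ∀ z ∈ U, q z ≠ 0) :
    Sm U (fun z => 1 / 2 * Real.log (q z)) :=
  contDiffOn_const.mul (hq.log h0)

theorem lap_half_log (g : Met n) {U : Set (E n)} {q : E n → ℝ} {x : E n} (hU : IsOpen U)
    (hq : Sm U q) (h0 : ∀ z ∈ U, q z ≠ 0) (hx : x ∈ U) :
    lap g (fun z => 1 / 2 * Real.log (q z)) x =
      1 / 2 * (lap g q x / q x - gam g q q x / q x ^ 2) := by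
  rw [lap_cmul, lap_comp g hU hq isOpen_compl_singleton Real.contDiffOn_log
    (fun z hz => h0 z hz) hx, Real.deriv_log', deriv_inv]
  ring

theorem lap_exp (g : Met n) {U : Set (E n)} {ψ : E n → ℝ} {x : E n} (hU : IsOpen U)
    (hψ : Sm U ψ) (hx : x ∈ U) (δ : ℝ) :
    lap g (fun z => δ * Real.exp (2 * ψ z)) x =
      δ * Real.exp (2 * ψ x) * (2 * lap g ψ x + 4 * gam g ψ ψ x) := by
  have h2 : Sm U (fun z => 2 * ψ z) := contDiffOn_const.mul hψ
  rw [lap_cmul, lap_comp g hU h2 isOpen_univ Real.contDiff_exp.contDiffOn (mapsTo_univ _ _) hx,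
    Real.deriv_exp, Real.deriv_exp, lap_cmul, gam_cmul_left, gam_cmul_right]
  ring

theorem gam_exp_left (g : Met n) {ψ : E n → ℝ} {x : E n} (hψ : DifferentiableAt ℝ ψ x) (δ : ℝ)
    (k : E n → ℝ) : gam g (fun z => δ * Real.exp (2 * ψ z)) k x =
      2 * (δ * Real.exp (2 * ψ x)) * gam g ψ k x := by
  have h2 : DifferentiableAt ℝ (fun z => 2 * ψ z) x := hψ.const_mul 2
  rw [gam_cmul_left, gam_comp_left g h2 (Real.hasDerivAt_exp _), gam_cmul_left]
  ring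

theorem gam_exp_right (g : Met n) {ψ : E n → ℝ} {x : E n} (hψ : DifferentiableAt ℝ ψ x) (δ : ℝ)
    (k : E n → ℝ) : gam g k (fun z => δ * Real.exp (2 * ψ z)) x =
      2 * (δ * Real.exp (2 * ψ x)) * gam g k ψ x := by
  have h2 : DifferentiableAt ℝ (fun z => 2 * ψ z) x := hψ.const_mul 2
  rw [gam_cmul_right, gam_comp_right g h2 (Real.hasDerivAt_exp _), gam_cmul_right]
  ring

theorem gam_div_left (g : Met n) {f a : E n → ℝ} {x : E n} (hf : DifferentiableAt ℝ f x)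
    (ha : DifferentiableAt ℝ a x) (h0 : a x ≠ 0) (k : E n → ℝ) :
    gam g (fun z => f z / a z) k x = gam g f k x / a x - f x * gam g a k x / a x ^ 2 := by
  have e : (fun z => f z / a z) = fun z => f z * (a z)⁻¹ := funext fun z => div_eq_mul_inv _ _
  rw [e, gam_mul_left g hf (ha.fun_inv h0), gam_comp_left g ha (hasDerivAt_inv h0)]
  ring

theorem bochner_two {γ : Met 2} {V : Set (E 2)} {h : E 2 → ℝ} {y : E 2} (hγ : IsMet γ V)
    (hh : Sm V h) (hy : y ∈ V) : lap γ (gam γ h h) y =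
      2 * (hsq γ h y + gam γ h (lap γ h) y + scal γ y / 2 * gam γ h h y) := by
  rw [bochner hγ hh hy, ricq_two hγ hy (ric_two hγ hy)]

theorem key_ineq {H a P X : ℝ} (hH : 0 ≤ H) (ha : 0 ≤ a) (hP : 0 ≤ P)
    (hX : X ^ 2 ≤ 2 * H * a * P) : 2 * X ≤ H + 2 * a * P := by
  have h1 : 0 ≤ H + 2 * a * P := by positivity
  have h2 : (2 * X) ^ 2 ≤ (H + 2 * a * P) ^ 2 := by nlinarith [sq_nonneg (H - 2 * a * P)]
  exact (le_abs_self _).trans (abs_le_of_sq_le_sq h2 h1)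

end LogIneqAux

open LogIneqAux

section
variable {γ : Met 2} {V : Set (E 2)} {h ψ : E 2 → ℝ} {y : E 2}

theorem log_ineq (hγ : IsMet γ V) (hh : Sm V h) (hψ : Sm V ψ) (h0 : ∀ z ∈ V, lap γ h z = 0) {δ : ℝ}
    (hδ : 0 < δ) (hy : y ∈ V) :
    (scal γ y / 2 * gam γ h h y + δ * Real.exp (2 * ψ y) * lap γ ψ y) /
        (gam γ h h y + δ * Real.exp (2 * ψ y)) ≤
      lap γ (fun z => 1 / 2 * Real.log (gam γ h h z + δ * Real.exp (2 * ψ z))) y := by
  have hV := hγ.opn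
  have ha : Sm V (gam γ h h) := hγ.sm_gam hh hh
  have hb : Sm V (fun z => δ * Real.exp (2 * ψ z)) :=
    contDiffOn_const.mul (contDiffOn_const.mul hψ).exp
  have hq : Sm V (fun z => gam γ h h z + δ * Real.exp (2 * ψ z)) := ha.add hb
  have hq0 : ∀ z ∈ V, 0 < gam γ h h z + δ * Real.exp (2 * ψ z) := fun z hz =>
    add_pos_of_nonneg_of_pos (gam_nonneg (hγ.pos z hz) h) (mul_pos hδ (Real.exp_pos _))
  have da := sm_da hV ha hy
  have db := sm_da hV hb hy
  have dψ := sm_da hV hψ hy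
  have hp := hγ.pos y hy
  have hρ : gam γ h (lap γ h) y = 0 := by
    have e : lap γ h =ᶠ[𝓝 y] fun _ => 0 := by
      filter_upwards [hV.mem_nhds hy] with z hz using h0 z hz
    rw [gam_congr rfl EventuallyEq.rfl e, gam_const_right]
  have hk := kato_two hγ hh hy
  rw [h0 y hy] at hk
  have hX := gam_sq_le hp (gam γ h h) ψ
  rw [lap_half_log γ hV hq (fun z hz => (hq0 z hz).ne') hy, lap_add γ hV ha hb hy,
    bochner_two hγ hh hy, lap_exp γ hV hψ hy, gam_add_left γ da db, gam_add_right γ da db,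
    gam_add_right γ da db, gam_exp_left γ dψ, gam_exp_left γ dψ, gam_exp_right γ dψ,
    gam_exp_right γ dψ, gam_comm hp ψ (gam γ h h), hρ]
  rw [hk] at hX ⊢
  have hH := hsq_nonneg hγ hy h
  have ha0 := gam_nonneg hp h
  have hP := gam_nonneg hp ψ
  have hb0 : 0 < δ * Real.exp (2 * ψ y) := mul_pos hδ (Real.exp_pos _)
  generalize δ * Real.exp (2 * ψ y) = b at hb0 ⊢
  generalize gam γ (gam γ h h) ψ y = X at hX ⊢
  generalize gam γ h (gam γ h h) y = Z at hX ⊢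
  generalize gam γ h h y = a at ha0 hX ⊢
  generalize hsq γ h y = H at hH hX ⊢
  generalize gam γ ψ ψ y = P at hP hX ⊢
  generalize lap γ ψ y = L
  generalize scal γ y / 2 = K
  have hkey := key_ineq hH ha0 hP (X := X) (by linarith)
  have hq1 : 0 < a + b := by positivity
  rw [← sub_nonneg]
  have e : 1 / 2 * ((2 * (H + 0 + K * a) + b * (2 * L + 4 * P)) / (a + b) -
      (2 * 0 * Z + 2 * (H - 0 ^ 2) * a + 2 * b * X + (2 * b * X + 2 * b * (2 * b * P))) /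
        (a + b) ^ 2) - (K * a + b * L) / (a + b) = b * (H + 2 * a * P - 2 * X) / (a + b) ^ 2 := by
    field_simp
    ring
  rw [e]
  exact div_nonneg (mul_nonneg hb0.le (by linarith)) (by positivity)

theorem k_div (hγ : IsMet γ V) (hh : Sm V h) (h0 : ∀ z ∈ V, gam γ h h z ≠ 0) (hy : y ∈ V) :
    scal γ y / 2 = lap γ (fun z => 1 / 2 * Real.log (gam γ h h z)) y -
      (gam γ (fun z => lap γ h z / gam γ h h z) h y + lap γ h y / gam γ h h y * lap γ h y) := by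
  have hV := hγ.opn
  have ha : Sm V (gam γ h h) := hγ.sm_gam hh hh
  have hρ : Sm V (lap γ h) := hγ.sm_lap hh
  have hp := hγ.pos y hy
  have h1 := h0 y hy
  rw [lap_half_log γ hV ha h0 hy, bochner_two hγ hh hy, kato_two hγ hh hy,
    gam_div_left γ (sm_da hV hρ hy) (sm_da hV ha hy) h1, gam_comm hp (lap γ h) h,
    gam_comm hp (gam γ h h) h]
  field_simp
  ring

namespace LogIneqAux

/-- The first coordinate. -/
def c0 (z : E 2) : ℝ := z 0

theorem sm_c0 (V : Set (E 2)) : Sm V c0 := sm_coord V 0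

theorem gam_c0_ne (hγ : IsMet γ V) (z : E 2) (hz : z ∈ V) : gam γ c0 c0 z ≠ 0 := by
  intro e
  have e1 := (fderiv_eq_zero_iff c0 z).1 ((gam_eq_zero_iff (hγ.pos z hz) c0).1 e) 0
  have e2 : pd 0 c0 z = 1 := (pd_coord 0 0 z).trans (if_pos rfl)
  rw [e2] at e1
  exact one_ne_zero e1

/-- First part of the vector field. -/
noncomputable def Y1 (γ : Met 2) (i : Fin 2) (z : E 2) : ℝ :=
  vol γ z * 1 * gr γ (fun w => 1 / 2 * Real.log (gam γ c0 c0 w)) i z

/-- Second part of the vector field. -/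
noncomputable def Y2 (γ : Met 2) (i : Fin 2) (z : E 2) : ℝ :=
  vol γ z * (lap γ c0 z / gam γ c0 c0 z) * gr γ c0 i z

theorem sm_L (hγ : IsMet γ V) : Sm V (fun w => 1 / 2 * Real.log (gam γ c0 c0 w)) :=
  sm_half_log (hγ.sm_gam (sm_c0 V) (sm_c0 V)) (gam_c0_ne hγ)

theorem sm_f (hγ : IsMet γ V) : Sm V (fun z => lap γ c0 z / gam γ c0 c0 z) :=
  ContDiffOn.div (hγ.sm_lap (sm_c0 V)) (hγ.sm_gam (sm_c0 V) (sm_c0 V)) (gam_c0_ne hγ)

theorem sm_Y1 (hγ : IsMet γ V) (i : Fin 2) : Sm V (Y1 γ i) :=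
  (hγ.sm_vol.mul contDiffOn_const).mul (hγ.sm_gr (sm_L hγ) i)

theorem sm_Y2 (hγ : IsMet γ V) (i : Fin 2) : Sm V (Y2 γ i) :=
  (hγ.sm_vol.mul (sm_f hγ)).mul (hγ.sm_gr (sm_c0 V) i)

theorem div_Y (hγ : IsMet γ V) (hy : y ∈ V) :
    scal γ y / 2 * vol γ y = ∑ i, pd i (Y1 γ i) y - ∑ i, pd i (Y2 γ i) y := by
  have e1 := vol_div hγ (f := fun _ => 1) contDiffOn_const (sm_L hγ) hy
  have e2 := vol_div hγ (sm_f hγ) (sm_c0 V) hy
  rw [gam_const_left, zero_add, one_mul] at e1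
  have e1' : ∑ i, pd i (Y1 γ i) y = _ := e1.symm
  have e2' : ∑ i, pd i (Y2 γ i) y = _ := e2.symm
  rw [e1', e2', k_div hγ (sm_c0 V) (gam_c0_ne hγ) hy, sub_mul]

theorem Y1_congr {γ' : Met 2} (e : γ' =ᶠ[𝓝 y] γ) (i : Fin 2) : Y1 γ' i y = Y1 γ i y := by
  have e0 : γ' y = γ y := e.eq_of_nhds
  have e1 : (fun w => 1 / 2 * Real.log (gam γ' c0 c0 w)) =ᶠ[𝓝 y]
      fun w => 1 / 2 * Real.log (gam γ c0 c0 w) := by
    filter_upwards [gam_congr_ev e (EventuallyEq.refl _ c0) (EventuallyEq.refl _ c0)] with w hw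
    rw [hw]
  simp only [Y1, vol, gr, e0, pd_congr e1]

theorem Y2_congr {γ' : Met 2} (e : γ' =ᶠ[𝓝 y] γ) (i : Fin 2) : Y2 γ' i y = Y2 γ i y := by
  have e0 : γ' y = γ y := e.eq_of_nhds
  have e1 := lap_congr e (EventuallyEq.refl _ c0)
  have e2 := gam_congr e0 (EventuallyEq.refl _ c0) (EventuallyEq.refl _ c0)
  simp only [Y2, vol, gr, e0, e1, e2]

end LogIneqAux

theorem lock (hγ : IsMet γ V) {γ' : Met 2} (hγ' : IsMet γ' V) {K : Set (E 2)} (hK : IsCompact K)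
    (hKV : K ⊆ V) (e : ∀ z ∈ V, z ∉ K → γ' z = γ z) :
    ∫ z in K, scal γ' z / 2 * vol γ' z = ∫ z in K, scal γ z / 2 * vol γ z := by
  have hV := hγ.opn
  have ev : ∀ z ∈ V, z ∉ K → γ' =ᶠ[𝓝 z] γ := fun z hz hzK => by
    filter_upwards [hV.mem_nhds hz, hK.isClosed.isOpen_compl.mem_nhds hzK] with w h1 h2
      using e w h1 h2
  have hI := integral_div_eq_zero hV
    (Y := fun i z => (Y1 γ' i z - Y2 γ' i z) - (Y1 γ i z - Y2 γ i z))
    (fun i => ((sm_Y1 hγ' i).sub (sm_Y2 hγ' i)).sub ((sm_Y1 hγ i).sub (sm_Y2 hγ i))) hK hKV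
    (fun i z hz hzK => by rw [Y1_congr (ev z hz hzK), Y2_congr (ev z hz hzK), sub_self])
  have hE : ∀ z ∈ V, ∑ i, pd i (fun z => (Y1 γ' i z - Y2 γ' i z) - (Y1 γ i z - Y2 γ i z)) z =
      scal γ' z / 2 * vol γ' z - scal γ z / 2 * vol γ z := fun z hz => by
    rw [div_Y hγ' hz, div_Y hγ hz, ← Finset.sum_sub_distrib, ← Finset.sum_sub_distrib,
      ← Finset.sum_sub_distrib]
    refine Finset.sum_congr rfl fun i _ => ?_
    have a1 := sm_da hV (sm_Y1 hγ' i) hz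
    have a2 := sm_da hV (sm_Y2 hγ' i) hz
    have b1 := sm_da hV (sm_Y1 hγ i) hz
    have b2 := sm_da hV (sm_Y2 hγ i) hz
    rw [pd_sub (a1.fun_sub a2) (b1.fun_sub b2), pd_sub a1 a2, pd_sub b1 b2]
  rw [setIntegral_congr_fun hV.measurableSet hE,
    setIntegral_eq_of_subset_of_forall_sdiff_eq_zero hV.measurableSet hKV
      (fun z hz => by
        rw [scal_congr (ev z hz.1 hz.2), vol, vol, e z hz.1 hz.2, sub_self])] at hI
  have hint : ∀ {g : Met 2}, IsMet g V → IntegrableOn (fun z => scal g z / 2 * vol g z) K :=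
    fun hg => ContinuousOn.integrableOn_compact hK
      (((hg.sm_scal.continuousOn.div_const 2).mul hg.sm_vol.continuousOn).mono hKV)
  rw [integral_sub (hint hγ') (hint hγ)] at hI
  exact sub_eq_zero.1 hI

end

end Pool.Agent.P.MP_56a1cd_gt
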