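import Pool.Agent.P.MP_56a1cd_gt.AtB
import Pool.Agent.P.MP_56a1cd_gt.LogIneq

namespace Pool.Agent.P.MP_56a1cd_gt

open MeasureTheory Matrix Set Filter Topology
open scoped ContDiff ENNReal

variable {m n : ℕ}

/-! PLAN. Let `i = ch p`, `c = e i p`, and take `ρ > 0` such that the disc `D = {nrm (y - c) ≤ 2ρ}` lies in the
target and `symm '' D` misses `q`. Put `θ y = stp (nrm (y - c) / ρ)` (smooth: it vanishes near `c`),
`γ' i = θ • γ i + (1 - θ) • 1`, `e' i = e i`, and for `j ≠ i` restrict: `e' j = (e j).restrOpen (symm '' D)ᶜ`,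
`γ' j = γ j`. On overlaps of different charts the metric is unchanged. The integrals over `Z = symm '' D` agree by
`integral_chart`, `KG_eq`, `lock`. On `Zᶜ` split along the pieces of `A` (or of any measurable partition
subordinate to the charts) and use `integral_chart`, `KG_eq`, `scal_congr` for both atlases. -/

namespace FlattenAux

theorem exists_disc {U : Set (E n)} (hU : IsOpen U) {c : E n} (hc : c ∈ U) :
    ∃ ρ : ℝ, 0 < ρ ∧ ∀ y, nrm (y - c) ≤ ρ → y ∈ U := by
  obtain ⟨ε, hε, hb⟩ := Metric.isOpen_iff.1 hU c hc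
  refine ⟨ε / 2, by positivity, fun y hy => hb ?_⟩
  rw [Metric.mem_ball, dist_eq_norm]
  linarith [norm_le_nrm (y - c)]

theorem isCompact_disc (c : E n) (r : ℝ) : IsCompact {y : E n | nrm (y - c) ≤ r} := by
  have h := (isCompact_nrm_le (n := n) r).image (continuous_add_const c)
  refine (congrArg IsCompact ?_).mp h
  ext y
  constructor
  · rintro ⟨z, hz, rfl⟩
    simpa using hz
  · intro hy
    exact ⟨y - c, hy, by simp⟩

/-- The cut-off function. -/
noncomputable def th (c : E n) (ρ : ℝ) (y : E n) : ℝ := stp (((y - c) ⬝ᵥ (y - c)) / ρ ^ 2)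

theorem th_sm (c : E n) (ρ : ℝ) : ContDiff ℝ ∞ (th c ρ) := by
  refine stp_sm.comp (ContDiff.div_const ?_ _)
  unfold dotProduct
  refine ContDiff.sum fun i _ => ?_
  have h1 : ContDiff ℝ ∞ (fun y : E n => (y - c) i) :=
    (contDiff_apply ℝ ℝ i).sub contDiff_const
  exact h1.mul h1

theorem th_zero {c y : E n} {ρ : ℝ} (hρ : 0 < ρ) (h : nrm (y - c) < ρ) : th c ρ y = 0 := by
  refine stp_zero ?_
  rw [← nrm_sq, div_le_one (by positivity)]
  exact pow_le_pow_left₀ (nrm_nonneg _) h.le 2

theorem th_one {c y : E n} {ρ : ℝ} (hρ : 0 < ρ) (h : 2 * ρ < nrm (y - c)) : th c ρ y = 1 := by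
  refine stp_one ?_
  rw [← nrm_sq, le_div_iff₀ (by positivity)]
  nlinarith

/-- The flattened metric. -/
noncomputable def fl (g : Met n) (c : E n) (ρ : ℝ) : Met n :=
  fun y => th c ρ y • g y + (1 - th c ρ y) • (1 : Matrix (Fin n) (Fin n) ℝ)

theorem fl_met {g : Met n} {U : Set (E n)} (hg : IsMet g U) (c : E n) (ρ : ℝ) :
    IsMet (fl g c ρ) U := by
  refine ⟨hg.opn, fun i j => ?_, fun x hx => ?_⟩
  · have h1 : Sm U (th c ρ) := (th_sm c ρ).contDiffOn
    exact (h1.mul (hg.sm i j)).add ((contDiffOn_const.sub h1).mul contDiffOn_const)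
  · obtain ⟨h0, h1⟩ : 0 ≤ th c ρ x ∧ th c ρ x ≤ 1 := stp_mem _
    unfold fl
    rcases h0.eq_or_lt with h | h
    · rw [← h]
      simpa using (Matrix.PosDef.one : (1 : Matrix (Fin n) (Fin n) ℝ).PosDef)
    · exact ((hg.pos x hx).smul h).add_posSemidef (Matrix.PosSemidef.one.smul (by linarith))

variable {S : Type} [TopologicalSpace S] (A : Atlas2 S)

/-- Changing the metric inside a closed set `Z` contained in the chart `i`. -/
noncomputable def chg (i : Fin A.k) (Z : Set S) (hZ : IsClosed Z) (hi : Z ⊆ (A.e i).source)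
    (g : Met 2) (hg : IsMet g (A.e i).target)
    (he : ∀ y ∈ (A.e i).target, (A.e i).symm y ∉ Z → g y = A.γ i y) : Atlas2 S where
  k := A.k
  e := fun j => (A.e j).restrOpen {x | j = i ∨ x ∉ Z} (by
    by_cases h : j = i
    · simp [h]
    · simp only [h, false_or]
      exact hZ.isOpen_compl)
  γ := fun j => if j = i then g else A.γ j
  cover := fun x => by
    by_cases hx : x ∈ Z
    · exact ⟨i, hi hx, Or.inl rfl⟩
    · obtain ⟨j, hj⟩ := A.cover x
      exact ⟨j, hj, Or.inr hx⟩
  met := fun j => by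
    refine IsMet.mono (U := (A.e j).target) ?_ (OpenPartialHomeomorph.open_target _)
      fun y hy => hy.1
    split_ifs with h
    · exact h ▸ hg
    · exact A.met j
  trans_sm := fun j l => (A.trans_sm j l).mono fun y hy => ⟨hy.1.1, hy.2.1⟩
  compat := fun j l y hy => by
    show _ = pull (fun y => A.e l ((A.e j).symm y)) _ y
    by_cases hjl : j = l
    · subst hjl
      rw [pull_congr (Θ := fun z => z) (g' := if j = i then g else A.γ j) _ rfl, pull_id]
      filter_upwards [(A.e j).open_target.mem_nhds hy.1.1] with z hz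
      exact (A.e j).right_inv hz
    · have hx : (A.e j).symm y ∉ Z := by
        rcases (show j = i ∨ (A.e j).symm y ∉ Z from hy.1.2) with h | h
        · rcases (show l = i ∨ (A.e j).symm y ∉ Z from hy.2.2) with h' | h'
          · exact absurd (h.trans h'.symm) hjl
          · exact h'
        · exact h
      have h1 : ∀ a : Fin A.k, ∀ z ∈ (A.e a).target, (A.e a).symm z ∉ Z →
          (if a = i then g else A.γ a) z = A.γ a z := by
        intro a z hz hz'
        split_ifs with h
        · subst h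
          exact he z hz hz'
        · rfl
      have hl : (A.e j).symm y ∈ (A.e l).source := hy.2.1
      rw [h1 j y hy.1.1 hx, A.compat j l y ⟨hy.1.1, hl⟩]
      refine pull_congr EventuallyEq.rfl (h1 l _ ((A.e l).map_source hl) ?_).symm
      rwa [(A.e l).left_inv hl]

theorem piece_cover (x : S) : ∃ j, x ∈ A.piece j := by
  obtain ⟨j, hj, hm⟩ := (wellFounded_lt (α := Fin A.k)).has_min {j | x ∈ (A.e j).source}
    (A.cover x)
  refine ⟨j, hj, fun hx => ?_⟩
  simp only [mem_iUnion] at hx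
  obtain ⟨l, hl, hx⟩ := hx
  exact hm l hx hl

theorem piece_disj : Pairwise (Function.onFun Disjoint A.piece) := by
  have h : ∀ j l, j < l → Disjoint (A.piece j) (A.piece l) := fun j l hjl =>
    Set.disjoint_left.2 fun x hx hx' => hx'.2 (mem_biUnion (t := fun j => (A.e j).source) hjl hx.1)
  intro j l hjl
  rcases lt_or_gt_of_ne hjl with h1 | h1
  · exact h j l h1
  · exact (h l j h1).symm

theorem piece_meas [MeasurableSpace S] [BorelSpace S] (j : Fin A.k) :
    MeasurableSet (A.piece j) :=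
  (A.e j).open_source.measurableSet.diff
    (isOpen_biUnion fun l _ => (A.e l).open_source).measurableSet

theorem integral_split [MeasurableSpace S] [BorelSpace S] {ν : Measure S} {f : S → ℝ}
    (hf : Integrable f ν) {Z : Set S} (hZ : MeasurableSet Z) :
    ∫ x, f x ∂ν = ∫ x in Z, f x ∂ν + ∑ j, ∫ x in A.piece j \ Z, f x ∂ν := by
  rw [← integral_add_compl hZ hf, ← integral_iUnion_fintype
    (fun j => (piece_meas A j).diff hZ)
    (fun j l hjl => (piece_disj A hjl).mono sdiff_subset sdiff_subset) fun _ => hf.integrableOn]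
  congr 3
  ext x
  simp only [mem_iUnion, Set.mem_sdiff, mem_compl_iff]
  exact ⟨fun hx => (piece_cover A x).imp fun j hj => ⟨hj, hx⟩, fun ⟨_, hj⟩ => hj.2⟩

theorem int_KG [MeasurableSpace S] [BorelSpace S] [T2Space S] [CompactSpace S] :
    Integrable A.KG A.μ :=
  A.integrable_of_continuous (continuousOn_univ.1 (Atlas2.SmOn.continuousOn A A.smOn_KG))

theorem int_chart [MeasurableSpace S] [BorelSpace S] [T2Space S] (j : Fin A.k) {B : Set S}
    (hB : MeasurableSet B) (hs : B ⊆ (A.e j).source) :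
    ∫ x in B, A.KG x ∂A.μ = ∫ y in A.e j '' B, scal (A.γ j) y / 2 * vol (A.γ j) y := by
  rw [(A.integral_chart j hB hs _).2]
  refine setIntegral_congr_fun (A.measurableSet_image j hB hs) ?_
  rintro _ ⟨x, hx, rfl⟩
  simp only
  rw [(A.e j).left_inv (hs hx), A.KG_eq j (hs hx)]

end FlattenAux

open FlattenAux in
theorem flatten {S : Type} [TopologicalSpace S] [MeasurableSpace S] [BorelSpace S] [T2Space S]
    [CompactSpace S] (A : Atlas2 S) {p q : S} (h : p ≠ q) :
    ∃ A' : Atlas2 S, (∃ i r, A'.FlatAt p i r) ∧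
      ((∃ j s, A.FlatAt q j s) → ∃ j s, A'.FlatAt q j s) ∧
      ∫ x, A'.KG x ∂A'.μ = ∫ x, A.KG x ∂A.μ := by
  obtain ⟨i, hp⟩ := A.cover p
  have hpq : A.e i p ∈ (A.e i).target ∩ (A.e i).symm ⁻¹' {q}ᶜ := by
    refine ⟨(A.e i).map_source hp, ?_⟩
    rw [mem_preimage, (A.e i).left_inv hp]
    exact h
  obtain ⟨r, hr, hD⟩ := exists_disc (A.isOpen_dom i isOpen_compl_singleton) hpq
  set c := A.e i p with hc
  set D : Set (E 2) := {y | nrm (y - c) ≤ r} with hDdef
  have hDc : IsCompact D := isCompact_disc c r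
  have hDt : D ⊆ (A.e i).target := fun y hy => (hD y hy).1
  set Z : Set S := (A.e i).symm '' D with hZdef
  have hZ : IsClosed Z := (hDc.image_of_continuousOn ((A.e i).continuousOn_symm.mono hDt)).isClosed
  have hi : Z ⊆ (A.e i).source := by
    rintro _ ⟨y, hy, rfl⟩
    exact (A.e i).map_target (hDt hy)
  have hq : q ∉ Z := by
    rintro ⟨y, hy, e⟩
    exact (hD y hy).2 e
  have hg := fl_met (A.met i) c (r / 2)
  have he0 : ∀ y ∈ (A.e i).target, y ∉ D → fl (A.γ i) c (r / 2) y = A.γ i y := by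
    intro y _ hy
    have h1 : 2 * (r / 2) < nrm (y - c) := by
      have : ¬ nrm (y - c) ≤ r := hy
      linarith [not_le.1 this]
    simp [fl, th_one (half_pos hr) h1]
  have he : ∀ y ∈ (A.e i).target, (A.e i).symm y ∉ Z → fl (A.γ i) c (r / 2) y = A.γ i y :=
    fun y hy hz => he0 y hy fun hyD => hz ⟨y, hyD, rfl⟩
  let A' := chg A i Z hZ hi _ hg he
  have hγ : ∀ j : Fin A.k, ∀ y ∈ (A.e j).target ∩ (A.e j).symm ⁻¹' Zᶜ, A'.γ j y = A.γ j y := by
    intro j y hy
    show (if j = i then fl (A.γ i) c (r / 2) else A.γ j) y = _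
    split_ifs with hj
    · subst hj
      exact he y hy.1 hy.2
    · rfl
  have hγi : A'.γ i = fl (A.γ i) c (r / 2) := if_pos rfl
  refine ⟨A', ⟨i, r / 2, half_pos hr, ⟨hp, Or.inl rfl⟩, fun y hy => ?_⟩, ?_, ?_⟩
  · have hy' : nrm (y - c) < r / 2 := hy
    refine ⟨⟨hDt (show nrm (y - c) ≤ r by linarith), Or.inl rfl⟩, ?_⟩
    rw [hγi]
    simp [fl, th_zero (half_pos hr) hy']
  · rintro ⟨j, s, hs, hj, hf⟩
    have h1 : A.e j q ∈ (A.e j).target ∩ (A.e j).symm ⁻¹' Zᶜ := by
      refine ⟨(A.e j).map_source hj, ?_⟩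
      rw [mem_preimage, (A.e j).left_inv hj]
      exact hq
    obtain ⟨t, ht, hT⟩ := exists_disc (A.isOpen_dom j hZ.isOpen_compl) h1
    refine ⟨j, min s t, lt_min hs ht, ⟨hj, Or.inr hq⟩, fun y hy => ?_⟩
    have hy' : nrm (y - A.e j q) < min s t := hy
    have h2 := hT y (hy'.le.trans (min_le_right _ _))
    refine ⟨⟨h2.1, Or.inr h2.2⟩, ?_⟩
    rw [hγ j y h2]
    exact (hf y (hy'.trans_le (min_le_left _ _))).2
  · have hZm := hZ.measurableSet
    rw [integral_split A (int_KG A') hZm, integral_split A (int_KG A) hZm]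
    congr 1
    · have h1 : A.e i '' Z = D := (A.e i).image_symm_image_of_subset_target hDt
      rw [int_chart A' i hZm fun x hx => ⟨hi hx, Or.inl rfl⟩, int_chart A i hZm hi, hγi]
      show ∫ y in A.e i '' Z, _ = _
      rw [h1]
      exact lock (A.met i) hg hDc hDt he0
    · refine Finset.sum_congr rfl fun j _ => ?_
      have hB := (piece_meas A j).diff hZm
      have hs : A.piece j \ Z ⊆ (A.e j).source := fun x hx => hx.1.1
      rw [int_chart A' j hB fun x hx => ⟨hs hx, Or.inr hx.2⟩, int_chart A j hB hs]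
      refine setIntegral_congr_fun (A.measurableSet_image j hB hs) ?_
      rintro _ ⟨x, hx, rfl⟩
      have h1 : A.e j x ∈ (A.e j).target ∩ (A.e j).symm ⁻¹' Zᶜ := by
        refine ⟨(A.e j).map_source (hs hx), ?_⟩
        rw [mem_preimage, (A.e j).left_inv (hs hx)]
        exact hx.2
      have h2 : A'.γ j =ᶠ[𝓝 (A.e j x)] A.γ j := by
        filter_upwards [(A.isOpen_dom j hZ.isOpen_compl).mem_nhds h1] with y hy
        exact hγ j y hy
      show scal (A'.γ j) (A.e j x) / 2 * √(A'.γ j (A.e j x)).det =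
        scal (A.γ j) (A.e j x) / 2 * √(A.γ j (A.e j x)).det
      rw [scal_congr h2, hγ j _ h1]

end Pool.Agent.P.MP_56a1cd_gt
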