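import Pool.Agent.P.MP_56a1cd_gt.Poles
import Pool.Agent.P.MP_56a1cd_gt.Flatten

namespace Pool.Agent.P.MP_56a1cd_gt

open MeasureTheory Matrix Set Filter Topology
open scoped ContDiff ENNReal

variable {m n : ℕ}

/-! PLAN. `gb2_flat`: take `h` from `poles`, fix a small `σ`. Let `β ≥ 0` be the push of a test function supported
in the disc of radius `σ` around `e i p`, with `∫ β > 0`, and solve `lapS ψ = KG - c β` (`poisson2`) with the constant
`c` making the integral zero. Let `η = 1 - push i (1 - stp (nrm (y - c₁) / σ)) - push j (1 - stp (nrm (y - c₂) / σ))`;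
`0 ≤ η ≤ 1`, `η β = 0`, `tsupport η ⊆ {p, q}ᶜ`, and `η KG = KG` since `KG = 0` on the flat discs (`scal_congr`,
`scal_flat`). With `L δ = (1/2) log (gamS h h + δ exp (2ψ))`, `log_ineq` gives `η KG ≤ η lapS (L δ)`, so by `ibp2`
`∫ KG ≤ -∫ gamS η (L δ)`. The last integrand lives on the two closed annuli, where `gamS h h ≥ c > 0`; let `δ → 0`
(dominated convergence in the charts, chain rule `gam_comp_right`) and apply `annulus_le` twice: `∫ KG ≤ 4π + C σ`.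
`gb2`: a chart target is a nonempty open subset of the plane, so there are two points; `flatten` twice. -/

namespace GB2Aux

theorem le_of_small {x y C t₀ : ℝ} (h0 : 0 < t₀) (h : ∀ t, 0 < t → t ≤ t₀ → x ≤ y + C * t) :
    x ≤ y := by
  have h1 : Tendsto (fun t : ℝ => y + C * t) (𝓝[>] 0) (𝓝 (y + C * 0)) :=
    (Continuous.tendsto (by fun_prop) 0).mono_left nhdsWithin_le_nhds
  rw [mul_zero, add_zero] at h1
  refine ge_of_tendsto h1 ?_
  filter_upwards [Ioc_mem_nhdsGT h0] with t ht using h t ht.1 ht.2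

theorem cont_dist (c : E 2) : Continuous fun y : E 2 => nrm (y - c) :=
  continuous_nrm.comp (by fun_prop)

theorem open_disc (c : E 2) (R : ℝ) : IsOpen {y : E 2 | nrm (y - c) < R} :=
  isOpen_lt (cont_dist c) continuous_const

theorem cpt_disc (c : E 2) (R : ℝ) : IsCompact {y : E 2 | nrm (y - c) ≤ R} :=
  (isCompact_closedBall c R).of_isClosed_subset (isClosed_le (cont_dist c) continuous_const)
    fun _ hy => mem_closedBall_iff_norm.2 ((norm_le_nrm _).trans hy)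

theorem cpt_ann (c : E 2) (σ : ℝ) :
    IsCompact {y : E 2 | σ ≤ nrm (y - c) ∧ nrm (y - c) ≤ 2 * σ} :=
  (cpt_disc c (2 * σ)).of_isClosed_subset ((isClosed_le continuous_const (cont_dist c)).inter
    (isClosed_le (cont_dist c) continuous_const)) fun _ hy => hy.2

theorem sm_dist (c : E 2) : Sm {y : E 2 | y ≠ c} fun y => nrm (y - c) :=
  sm_nrm.comp (by fun_prop) fun _ hy => sub_ne_zero.2 hy

theorem sm_th (c : E 2) {σ : ℝ} (hσ : 0 < σ) :
    ContDiff ℝ ∞ fun y : E 2 => stp (nrm (y - c) / σ) := by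
  refine contDiff_iff_contDiffAt.2 fun y => ?_
  by_cases hy : y = c
  · refine (contDiffAt_const (c := 0)).congr_of_eventuallyEq ?_
    have h1 : y ∈ {y : E 2 | nrm (y - c) < σ} := by
      rw [mem_ofPred_eq, hy, sub_self, nrm_zero]
      exact hσ
    filter_upwards [(open_disc c σ).mem_nhds h1] with z hz
    exact stp_zero ((div_le_one hσ).2 (le_of_lt hz))
  · exact stp_sm.contDiffAt.comp y
      (((sm_dist c).contDiffAt (isOpen_ne.mem_nhds hy)).div_const σ)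

theorem gam_log {W : Set (E 2)} (hW : IsOpen W) (θ : E 2 → ℝ) {a b : E 2 → ℝ} (ha : Sm W a)
    (hb : Sm W b) {δ : ℝ} {y : E 2} (hy : y ∈ W) (h0 : a y + δ * b y ≠ 0) :
    gam flat θ (fun z => 1 / 2 * Real.log (a z + δ * b z)) y =
      (gam flat θ a y + δ * gam flat θ b y) / (2 * (a y + δ * b y)) := by
  have da := sm_da hW ha hy
  have db := (sm_da hW hb hy).const_mul δ
  rw [gam_cmul_right, gam_comp_right (f := fun z => a z + δ * b z) flat (da.add db)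
    (Real.hasDerivAt_log h0), gam_add_right flat da db, gam_cmul_right]
  field_simp

theorem ann_delta {W K : Set (E 2)} (hW : IsOpen W) (hK : IsCompact K) (hKW : K ⊆ W)
    {θ a b : E 2 → ℝ} (hθ : Sm W θ) (ha : Sm W a) (hb : Sm W b) (a0 : ∀ y ∈ W, 0 < a y)
    (b0 : ∀ y ∈ W, 0 < b y) : ∃ G : ℝ, ∀ δ, 0 < δ →
      -∫ y in K, gam flat θ (fun z => 1 / 2 * Real.log (a z + δ * b z)) y ≤
        (-∫ y in K, gam flat θ (fun z => 1 / 2 * Real.log (a z)) y) + G * δ := by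
  have hm := isMet_flat (n := 2) hW
  have hint : ∀ {f : E 2 → ℝ}, ContinuousOn f W → IntegrableOn f K := fun hf =>
    (hf.mono hKW).integrableOn_compact hK
  have hlog : ∀ δ, 0 ≤ δ → Sm W fun z => 1 / 2 * Real.log (a z + δ * b z) := fun δ hδ =>
    contDiffOn_const.mul ((ha.add (contDiffOn_const.mul hb)).log fun y hy =>
      (add_pos_of_pos_of_nonneg (a0 y hy) (mul_nonneg hδ (b0 y hy).le)).ne')
  have hlog0 : Sm W fun z => 1 / 2 * Real.log (a z) := by simpa using hlog 0 le_rfl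
  have cu := (hm.sm_gam hθ ha).continuousOn
  have cv := (hm.sm_gam hθ hb).continuousOn
  have hG : ContinuousOn
      (fun y => |a y * gam flat θ b y - b y * gam flat θ a y| / (2 * a y ^ 2)) W :=
    ((ha.continuousOn.mul cv).sub (hb.continuousOn.mul cu)).abs.div
      (continuousOn_const.mul (ha.continuousOn.pow 2)) fun y hy => by
        have := a0 y hy
        positivity
  refine ⟨∫ y in K, |a y * gam flat θ b y - b y * gam flat θ a y| / (2 * a y ^ 2),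
    fun δ hδ => ?_⟩
  have i1 := hint (hm.sm_gam hθ (hlog δ hδ.le)).continuousOn
  have i2 := hint (hm.sm_gam hθ hlog0).continuousOn
  have i3 := (hint hG).mul_const δ
  rw [← integral_neg, ← integral_neg, ← integral_mul_const]
  refine le_trans (setIntegral_mono_on i1.neg (i2.neg.add i3) hK.measurableSet fun y hy => ?_)
    (integral_add i2.neg i3).le
  have hy' := hKW hy
  have p1 := a0 y hy'
  have p2 := b0 y hy'
  have p3 : 0 < a y + δ * b y := by positivity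
  have e0 := gam_log hW θ ha hb (δ := 0) hy' (by simpa using p1.ne')
  simp only [zero_mul, add_zero] at e0
  simp only [Pi.neg_apply, Pi.add_apply]
  rw [gam_log hW θ ha hb hy' p3.ne', e0]
  generalize gam flat θ a y = u
  generalize gam flat θ b y = v
  have e1 : -((u + δ * v) / (2 * (a y + δ * b y))) =
      -(u / (2 * a y)) + -(a y * v - b y * u) / (2 * (a y * (a y + δ * b y))) * δ := by
    field_simp
    ring
  rw [e1]
  have e2 : a y ^ 2 ≤ a y * (a y + δ * b y) := by nlinarith [mul_pos p1 (mul_pos hδ p2)]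
  have e3 : -(a y * v - b y * u) / (2 * (a y * (a y + δ * b y))) ≤
      |a y * v - b y * u| / (2 * a y ^ 2) :=
    div_le_div₀ (abs_nonneg _) (neg_le_abs _) (by positivity) (by linarith)
  gcongr

variable {S : Type} [TopologicalSpace S] (A : Atlas2 S)

/-- A cut-off function around the point with coordinates `c` in the chart `i`. -/
noncomputable def cut (i : Fin A.k) (c : E 2) (σ : ℝ) : S → ℝ :=
  (A.e i).source.indicator fun x => 1 - stp (nrm (A.e i x - c) / σ)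

/-- The regularised logarithm of the length of the gradient. -/
noncomputable def LL (h ψ : S → ℝ) (δ : ℝ) (x : S) : ℝ :=
  1 / 2 * Real.log (A.gamS h h x + δ * Real.exp (2 * ψ x))

theorem cut_mem (i : Fin A.k) (c : E 2) (σ : ℝ) (x : S) :
    0 ≤ cut A i c σ x ∧ cut A i c σ x ≤ 1 := by
  unfold cut
  by_cases hx : x ∈ (A.e i).source
  · rw [indicator_of_mem hx]
    have := stp_mem (nrm (A.e i x - c) / σ)
    constructor <;> linarith
  · rw [indicator_of_notMem hx]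
    exact ⟨le_rfl, zero_le_one⟩

theorem cut_symm {i : Fin A.k} (c : E 2) (σ : ℝ) {y : E 2} (hy : y ∈ (A.e i).target) :
    cut A i c σ ((A.e i).symm y) = 1 - stp (nrm (y - c) / σ) := by
  rw [cut, indicator_of_mem ((A.e i).map_target hy), (A.e i).right_inv hy]

theorem cut_sm [T2Space S] {i : Fin A.k} {c : E 2} {σ : ℝ} (hσ : 0 < σ)
    (ht : ∀ y, nrm (y - c) ≤ 2 * σ → y ∈ (A.e i).target) :
    A.SmOn univ (cut A i c σ) ∧
      tsupport (cut A i c σ) ⊆ (A.e i).symm '' {y | nrm (y - c) ≤ 2 * σ} := by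
  have h := A.smOn_push i (f := fun y => 1 - stp (nrm (y - c) / σ)) (cpt_disc c (2 * σ)) ht
    isOpen_univ (contDiff_const.sub (sm_th c hσ)).contDiffOn fun y _ hy => by
      rw [stp_one ((le_div_iff₀ hσ).2 (le_of_not_ge hy)), sub_self]
  exact ⟨h.1.mono A fun _ _ _ => mem_univ _, h.2⟩

theorem cut_ev_one {i : Fin A.k} {c : E 2} {σ : ℝ} (hσ : 0 < σ) {x : S}
    (hx : x ∈ (A.e i).source) (h : nrm (A.e i x - c) < σ) : cut A i c σ =ᶠ[𝓝 x] fun _ => 1 := by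
  filter_upwards [(A.e i).open_source.mem_nhds hx,
    ((A.e i).continuousAt hx).preimage_mem_nhds ((open_disc c σ).mem_nhds h)] with z hz hz'
  rw [cut, indicator_of_mem hz, stp_zero ((div_le_one hσ).2 (le_of_lt hz')), sub_zero]

theorem cut_ev [T2Space S] {i : Fin A.k} {c : E 2} {σ : ℝ} (hσ : 0 < σ)
    (ht : ∀ y, nrm (y - c) ≤ 2 * σ → y ∈ (A.e i).target) {x : S}
    (hx : x ∉ (A.e i).symm '' {y | σ ≤ nrm (y - c) ∧ nrm (y - c) ≤ 2 * σ}) :
    ∃ k : ℝ, cut A i c σ =ᶠ[𝓝 x] fun _ => k := by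
  by_cases h : x ∈ tsupport (cut A i c σ)
  · obtain ⟨y, hy, rfl⟩ := (cut_sm A hσ ht).2 h
    refine ⟨1, cut_ev_one A hσ ((A.e i).map_target (ht y hy)) ?_⟩
    rw [(A.e i).right_inv (ht y hy)]
    exact lt_of_not_ge fun h1 => hx ⟨y, ⟨h1, hy⟩, rfl⟩
  · exact ⟨0, notMem_tsupport_iff_eventuallyEq.1 h⟩

theorem KG_flat {p : S} {i : Fin A.k} {r : ℝ} (hp : A.FlatAt p i r) {y : E 2}
    (hy : nrm (y - A.e i p) < r) : A.KG ((A.e i).symm y) = 0 := by
  have ht := (hp.2.2 y hy).1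
  have e : A.γ i =ᶠ[𝓝 y] flat := by
    filter_upwards [(open_disc (A.e i p) r).mem_nhds hy] with z hz using (hp.2.2 z hz).2
  rw [A.KG_eq i ((A.e i).map_target ht), (A.e i).right_inv ht, scal_congr e, scal_flat, zero_div]

theorem gamS_symm {O : Set S} (hO : IsOpen O) {u v : S → ℝ} (hu : A.SmOn O u) (hv : A.SmOn O v)
    {i : Fin A.k} {y : E 2} (hy : y ∈ (A.e i).target) (hy' : (A.e i).symm y ∈ O) :
    A.gamS u v ((A.e i).symm y) = gam (A.γ i) (A.loc i u) (A.loc i v) y := by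
  rw [A.gamS_eq hO hu hv i hy' ((A.e i).map_target hy), (A.e i).right_inv hy]

theorem sm_exp {O : Set S} {ψ : S → ℝ} (hψ : A.SmOn O ψ) :
    A.SmOn O fun x => Real.exp (2 * ψ x) :=
  hψ.comp A (β := fun t => Real.exp (2 * t)) (J := univ) (by fun_prop) (mapsTo_univ _ _)

theorem LL_sm {O : Set S} (hO : IsOpen O) {h ψ : S → ℝ} (hh : A.SmOn O h) (hψ : A.SmOn O ψ)
    {δ : ℝ} (hδ : 0 < δ) : A.SmOn O (LL A h ψ δ) :=
  ((hh.gamS A hO hh).add A ((A.smOn_const O δ).mul A (sm_exp A hψ))).comp A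
    (β := fun t => 1 / 2 * Real.log t) (J := {0}ᶜ) (contDiffOn_const.mul Real.contDiffOn_log)
    fun x _ => (add_pos_of_nonneg_of_pos (A.gamS_nonneg h x) (mul_pos hδ (Real.exp_pos _))).ne'

theorem KG_le {O : Set S} (hO : IsOpen O) {h ψ : S → ℝ} (hh : A.SmOn O h) (hψ : A.SmOn O ψ)
    (h0 : ∀ x ∈ O, A.lapS h x = 0) {δ : ℝ} (hδ : 0 < δ) {x : S} (hx : x ∈ O)
    (hK : A.lapS ψ x = A.KG x) : A.KG x ≤ A.lapS (LL A h ψ δ) x := by
  have hs := A.mem_ch x
  have hV := A.isOpen_dom (A.ch x) hO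
  have hy : A.e (A.ch x) x ∈ (A.e (A.ch x)).target ∩ (A.e (A.ch x)).symm ⁻¹' O :=
    ⟨(A.e _).map_source hs, by rwa [mem_preimage, (A.e _).left_inv hs]⟩
  have h1 := log_ineq ((A.met (A.ch x)).mono hV inter_subset_left) (hh _) (hψ _) (fun z hz => by
    have := A.lapS_eq hO hh (A.ch x) hz.2 ((A.e _).map_target hz.1)
    rw [(A.e _).right_inv hz.1, h0 _ hz.2] at this
    exact this.symm) hδ hy
  have h2 : A.loc (A.ch x) (LL A h ψ δ) =ᶠ[𝓝 (A.e (A.ch x) x)] fun z => 1 / 2 * Real.log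
      (gam (A.γ (A.ch x)) (A.loc (A.ch x) h) (A.loc (A.ch x) h) z +
        δ * Real.exp (2 * A.loc (A.ch x) ψ z)) := by
    filter_upwards [hV.mem_nhds hy] with z hz
    rw [← gamS_symm A hO hh hh hz.1 hz.2]
    rfl
  refine le_trans (le_of_eq ?_) (h1.trans (lap_congr EventuallyEq.rfl h2).ge)
  change A.KG x = (A.KG x * A.gamS h h x + _ * A.lapS ψ x) / (A.gamS h h x + _)
  have h3 := add_pos_of_nonneg_of_pos (A.gamS_nonneg h x)
    (mul_pos hδ (Real.exp_pos (2 * A.loc (A.ch x) ψ (A.e (A.ch x) x))))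
  rw [hK, eq_div_iff h3.ne']
  ring

theorem pole_bound [MeasurableSpace S] [BorelSpace S] [T2Space S] {p : S} {i : Fin A.k} {r : ℝ}
    (hp : A.FlatAt p i r) {O : Set S} (hO : IsOpen O) {h : S → ℝ} (hh : A.SmOn O h) {ρ : ℝ}
    (hρ : 0 < ρ) (hr : ρ ≤ r) {μ : E 2 → ℝ} (hμ : Sm {y | nrm (y - A.e i p) < ρ} μ)
    (hin : ∀ y, nrm (y - A.e i p) < ρ → y ≠ A.e i p → (A.e i).symm y ∈ O)
    (hg : ∀ y, nrm (y - A.e i p) < ρ → 0 < μ y ∧ (y ≠ A.e i p →
      gam flat (A.loc i h) (A.loc i h) y = μ y / nrm (y - A.e i p) ^ 2)) :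
    ∃ C σ₀ : ℝ, 0 < σ₀ ∧ ∀ σ, 0 < σ → σ ≤ σ₀ → 2 * σ < ρ → ∀ ψ η : S → ℝ, A.SmOn O ψ →
      A.SmOn O η →
      (∀ y, nrm (y - A.e i p) < ρ → η ((A.e i).symm y) = stp (nrm (y - A.e i p) / σ)) →
      ∃ G : ℝ, ∀ δ, 0 < δ →
        -∫ x in (A.e i).symm '' {y | σ ≤ nrm (y - A.e i p) ∧ nrm (y - A.e i p) ≤ 2 * σ},
          A.gamS η (LL A h ψ δ) x ∂A.μ ≤ 2 * Real.pi + C * σ + G * δ := by
  obtain ⟨C, σ₀, h0, hC⟩ := annulus_le (A.e i p) hρ hμ fun y hy => (hg y hy).1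
  refine ⟨C, σ₀, h0, fun σ hσ hσ' hσρ ψ η hψ hη he => ?_⟩
  set c := A.e i p with hc
  have hW : IsOpen {y : E 2 | nrm (y - c) < ρ ∧ y ≠ c} := (open_disc c ρ).inter isOpen_ne
  have hKW : {y : E 2 | σ ≤ nrm (y - c) ∧ nrm (y - c) ≤ 2 * σ} ⊆
      {y : E 2 | nrm (y - c) < ρ ∧ y ≠ c} := fun y hy =>
    ⟨hy.2.trans_lt hσρ, sub_ne_zero.1 (ne_zero_of_nrm_pos (hσ.trans_le hy.1))⟩
  have hWt : ∀ y ∈ {y : E 2 | nrm (y - c) < ρ ∧ y ≠ c}, y ∈ (A.e i).target ∧ A.γ i y = 1 :=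
    fun y hy => hp.2.2 y (hy.1.trans_le hr)
  have hn : ∀ y ∈ {y : E 2 | nrm (y - c) < ρ ∧ y ≠ c}, 0 < nrm (y - c) ^ 2 := fun y hy =>
    pow_pos (nrm_pos (sub_ne_zero.2 hy.2)) 2
  obtain ⟨G, hG⟩ := ann_delta hW (cpt_ann c σ) hKW (sm_th c hσ).contDiffOn
    (a := fun y => μ y / nrm (y - c) ^ 2) (b := fun y => Real.exp (2 * A.loc i ψ y))
    ((hμ.mono fun y hy => hy.1).div (((sm_dist c).mono fun y hy => hy.2).pow 2)
      fun y hy => (hn y hy).ne')
    ((sm_exp A hψ i).mono fun y hy => ⟨(hWt y hy).1, hin y hy.1 hy.2⟩)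
    (fun y hy => div_pos (hg y hy.1).1 (hn y hy)) fun y _ => Real.exp_pos _
  refine ⟨G, fun δ hδ => le_trans (le_of_eq ?_) ((hG δ hδ).trans (by linarith [hC σ hσ hσ']))⟩
  have hKt : {y : E 2 | σ ≤ nrm (y - c) ∧ nrm (y - c) ≤ 2 * σ} ⊆ (A.e i).target :=
    fun y hy => (hWt y (hKW hy)).1
  have hB := (cpt_ann c σ).image_of_continuousOn ((A.e i).continuousOn_symm.mono hKt)
  rw [(A.integral_chart i hB.measurableSet (by
      rintro _ ⟨y, hy, rfl⟩
      exact (A.e i).map_target (hKt hy)) _).2,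
    show A.e i '' ((A.e i).symm '' _) = _ from (A.e i).image_symm_image_of_subset_target hKt,
    neg_inj]
  refine setIntegral_congr_fun (cpt_ann c σ).measurableSet fun y hy => ?_
  have hy' := hKW hy
  have e1 : vol (A.γ i) y = 1 := by simp [vol, (hWt y hy').2]
  rw [e1, mul_one, gamS_symm A hO hη (LL_sm A hO hh hψ hδ) (hWt y hy').1 (hin y hy'.1 hy'.2)]
  refine gam_congr (hWt y hy').2 ?_ ?_
  · filter_upwards [hW.mem_nhds hy'] with z hz using he z hz.1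
  · filter_upwards [hW.mem_nhds hy'] with z hz
    rw [← (hg z hz.1).2 hz.2, ← gam_congr (g := A.γ i) (g' := flat) (hWt z hz).2 EventuallyEq.rfl
      EventuallyEq.rfl, ← gamS_symm A hO hh hh (hWt z hz).1 (hin z hz.1 hz.2)]
    rfl

end GB2Aux

open GB2Aux in
theorem gb2_flat {S : Type} [TopologicalSpace S] [MeasurableSpace S] [BorelSpace S] [T2Space S]
    [CompactSpace S] [ConnectedSpace S] (A : Atlas2 S) {p q : S} (hpq : p ≠ q) {i j : Fin A.k}
    {r s : ℝ} (hp : A.FlatAt p i r) (hq : A.FlatAt q j s) :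
    ∫ x, A.KG x ∂A.μ ≤ 4 * Real.pi := by
  obtain ⟨h, ρ, μ₁, μ₂, hρ, hr, hs, hh, h0, hd, hμ₁, hμ₂, hg₁, hg₂⟩ := poles A hpq hp hq
  have hO : IsOpen ({p, q}ᶜ : Set S) := (toFinite _).isClosed.isOpen_compl
  have hc : ∀ c : E 2, nrm (c - c) < ρ := fun c => by rwa [sub_self, nrm_zero]
  have t₁ : ∀ y, nrm (y - A.e i p) < ρ → y ∈ (A.e i).target := fun y hy =>
    (hp.2.2 y (hy.trans_le hr)).1
  have t₂ : ∀ y, nrm (y - A.e j q) < ρ → y ∈ (A.e j).target := fun y hy =>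
    (hq.2.2 y (hy.trans_le hs)).1
  have ep := (A.e i).left_inv hp.2.1
  have eq := (A.e j).left_inv hq.2.1
  obtain ⟨C₁, σ₁, hσ₁, hC₁⟩ := pole_bound A hp hO hh hρ hr hμ₁ (fun y hy hy' h1 => by
    rcases h1 with h1 | h1
    · exact hy' (by rw [← h1, (A.e i).right_inv (t₁ y hy)])
    · exact hd y _ hy (hc _) (h1.trans eq.symm)) hg₁
  obtain ⟨C₂, σ₂, hσ₂, hC₂⟩ := pole_bound A hq hO hh hρ hs hμ₂ (fun y hy hy' h1 => by
    rcases h1 with h1 | h1
    · exact hd _ y (hc _) hy (ep.trans h1.symm)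
    · exact hy' (by rw [← mem_singleton_iff.1 h1, (A.e j).right_inv (t₂ y hy)])) hg₂
  refine le_of_small (C := C₁ + C₂) (lt_min (lt_min hσ₁ hσ₂) (show 0 < ρ / 3 by positivity))
    fun σ hσ hσ' => ?_
  have hσρ : 2 * σ < ρ := by linarith [hσ'.trans (min_le_right _ _)]
  have s₁ : ∀ y, nrm (y - A.e i p) ≤ 2 * σ → y ∈ (A.e i).target := fun y hy =>
    t₁ y (hy.trans_lt hσρ)
  have s₂ : ∀ y, nrm (y - A.e j q) ≤ 2 * σ → y ∈ (A.e j).target := fun y hy =>
    t₂ y (hy.trans_lt hσρ)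
  obtain ⟨m₁, u₁⟩ := cut_sm A hσ s₁
  obtain ⟨m₂, u₂⟩ := cut_sm A hσ s₂
  have z₁ : ∀ y, nrm (y - A.e j q) < ρ → (A.e j).symm y ∉ tsupport (cut A i (A.e i p) σ) :=
    fun y hy h1 => by
      obtain ⟨z, hz, e⟩ := u₁ h1
      exact hd z y (lt_of_le_of_lt hz hσρ) hy e
  have z₂ : ∀ y, nrm (y - A.e i p) < ρ → (A.e i).symm y ∉ tsupport (cut A j (A.e j q) σ) :=
    fun y hy h1 => by
      obtain ⟨z, hz, e⟩ := u₂ h1
      exact hd y z hy (lt_of_le_of_lt hz hσρ) e.symm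
  set η : S → ℝ := fun x => 1 - cut A i (A.e i p) σ x - cut A j (A.e j q) σ x with hη
  have mη : A.SmOn {p, q}ᶜ η :=
    (((A.smOn_const univ 1).sub A m₁).sub A m₂).mono A (subset_univ _)
  have e₁ : ∀ y, nrm (y - A.e i p) < ρ → η ((A.e i).symm y) = stp (nrm (y - A.e i p) / σ) :=
    fun y hy => by
      simp only [hη]
      rw [cut_symm A _ _ (t₁ y hy), image_eq_zero_of_notMem_tsupport (z₂ y hy)]
      ring
  have e₂ : ∀ y, nrm (y - A.e j q) < ρ → η ((A.e j).symm y) = stp (nrm (y - A.e j q) / σ) :=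
    fun y hy => by
      simp only [hη]
      rw [cut_symm A _ _ (t₂ y hy), image_eq_zero_of_notMem_tsupport (z₁ y hy)]
      ring
  have hcase : ∀ x, η x = 1 ∨ (0 ≤ η x ∧ A.KG x = 0) := fun x => by
    by_cases h1 : x ∈ tsupport (cut A i (A.e i p) σ)
    · obtain ⟨y, hy, rfl⟩ := u₁ h1
      have hy' : nrm (y - A.e i p) < ρ := lt_of_le_of_lt hy hσρ
      exact Or.inr ⟨(e₁ y hy').symm ▸ (stp_mem _).1, KG_flat A hp (hy'.trans_le hr)⟩
    by_cases h2 : x ∈ tsupport (cut A j (A.e j q) σ)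
    · obtain ⟨y, hy, rfl⟩ := u₂ h2
      have hy' : nrm (y - A.e j q) < ρ := lt_of_le_of_lt hy hσρ
      exact Or.inr ⟨(e₂ y hy').symm ▸ (stp_mem _).1, KG_flat A hq (hy'.trans_le hs)⟩
    left
    simp only [hη]
    rw [image_eq_zero_of_notMem_tsupport h1, image_eq_zero_of_notMem_tsupport h2]
    ring
  have hsupp : tsupport η ⊆ {p, q}ᶜ := by
    have hc' : ∀ c : E 2, nrm (c - c) < σ := fun c => by rwa [sub_self, nrm_zero]
    intro x hx h1
    refine notMem_tsupport_iff_eventuallyEq.2 ?_ hx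
    rcases h1 with rfl | rfl
    · filter_upwards [cut_ev_one A hσ hp.2.1 (hc' _),
        notMem_tsupport_iff_eventuallyEq.1 (ep ▸ z₂ _ (hc _))] with z h2 h3
      simp [hη, h2, h3]
    · filter_upwards [cut_ev_one A hσ hq.2.1 (hc' _),
        notMem_tsupport_iff_eventuallyEq.1 (eq ▸ z₁ _ (hc _))] with z h2 h3
      simp [hη, h2, h3]
  have hσ2 : 0 < σ / 2 := by positivity
  obtain ⟨mβ, uβ⟩ := cut_sm A (i := i) (c := A.e i p) hσ2 fun y hy => s₁ y (by linarith)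
  have cβ := continuousOn_univ.1 mβ.continuousOn
  have iβ := A.integrable_of_continuous cβ
  have iK := A.integrable_of_continuous (continuousOn_univ.1 A.smOn_KG.continuousOn)
  have hβ : 0 < ∫ x, cut A i (A.e i p) (σ / 2) x ∂A.μ := by
    refine (integral_pos_iff_support_of_nonneg (fun x => (cut_mem A _ _ _ x).1) iβ).2
      (pos_iff_ne_zero.2 (A.μ_ne_zero cβ.isOpen_support ⟨p, ?_⟩))
    rw [Function.mem_support, (cut_ev_one A hσ2 hp.2.1
      (by rwa [sub_self, nrm_zero])).eq_of_nhds]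
    exact one_ne_zero
  obtain ⟨ψ, mψ, hψ⟩ := A.poisson2 (A.smOn_KG.sub A ((A.smOn_const univ
    ((∫ x, A.KG x ∂A.μ) / ∫ x, cut A i (A.e i p) (σ / 2) x ∂A.μ)).mul A mβ)) (by
      rw [integral_sub iK (iβ.const_mul _), integral_const_mul, div_mul_cancel₀ _ hβ.ne',
        sub_self])
  have mψ' : A.SmOn {p, q}ᶜ ψ := mψ.mono A (subset_univ _)
  obtain ⟨G₁, hG₁⟩ := hC₁ σ hσ (hσ'.trans ((min_le_left _ _).trans (min_le_left _ _))) hσρ ψ η
    mψ' mη e₁
  obtain ⟨G₂, hG₂⟩ := hC₂ σ hσ (hσ'.trans ((min_le_left _ _).trans (min_le_right _ _))) hσρ ψ η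
    mψ' mη e₂
  refine le_of_small (C := G₁ + G₂) one_pos fun δ hδ _ => ?_
  obtain ⟨i1, i2, hI⟩ := A.ibp2 hO mη (LL_sm A hO hh mψ' hδ) hsupp
  have h1 : ∫ x, A.KG x ∂A.μ ≤ ∫ x, η x * A.lapS (LL A h ψ δ) x ∂A.μ := by
    refine integral_mono iK i2 fun x => ?_
    have h2 : η x ≠ 0 → A.KG x ≤ A.lapS (LL A h ψ δ) x := fun h3 => by
      refine KG_le A hO hh mψ' h0 hδ (hsupp (subset_tsupport _ h3)) ?_
      rw [hψ, image_eq_zero_of_notMem_tsupport (f := cut A i (A.e i p) (σ / 2)) fun h4 => ?_,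
        mul_zero, sub_zero]
      obtain ⟨y, hy, rfl⟩ := uβ h4
      have hy' : nrm (y - A.e i p) ≤ σ := by linarith [mem_ofPred_eq ▸ hy]
      exact h3 ((e₁ y (by linarith)).trans (stp_zero ((div_le_one hσ).2 hy')))
    change A.KG x ≤ η x * A.lapS (LL A h ψ δ) x
    rcases hcase x with h3 | ⟨h3, h4⟩
    · rw [h3, one_mul]
      exact h2 (h3 ▸ one_ne_zero)
    · rcases h3.eq_or_lt with h5 | h5
      · rw [h4, ← h5, zero_mul]
      · exact h4.le.trans (mul_nonneg h3 (h4 ▸ h2 h5.ne'))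
  have b₂ := (cpt_ann (A.e j q) σ).image_of_continuousOn
    ((A.e j).continuousOn_symm.mono fun y hy => s₂ y hy.2)
  have h2 := setIntegral_union (f := A.gamS η (LL A h ψ δ)) (μ := A.μ)
    (s := (A.e i).symm '' {y | σ ≤ nrm (y - A.e i p) ∧ nrm (y - A.e i p) ≤ 2 * σ})
    (disjoint_left.2 (by
      rintro _ ⟨y, hy, rfl⟩ ⟨z, hz, e⟩
      exact hd y z (hy.2.trans_lt hσρ) (hz.2.trans_lt hσρ) e.symm))
    b₂.measurableSet i1.integrableOn i1.integrableOn
  rw [setIntegral_eq_integral_of_forall_compl_eq_zero fun x hx => ?_] at h2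
  · linarith [hG₁ δ hδ, hG₂ δ hδ]
  · obtain ⟨k₁, f₁⟩ := cut_ev A hσ s₁ fun h3 => hx (Or.inl h3)
    obtain ⟨k₂, f₂⟩ := cut_ev A hσ s₂ fun h3 => hx (Or.inr h3)
    rw [A.gamS_congr (u' := fun _ => 1 - k₁ - k₂) ?_ EventuallyEq.rfl, A.gamS_const_left]
    filter_upwards [f₁, f₂] with z h3 h4
    simp only [hη, h3, h4]

theorem gb2 {S : Type} [TopologicalSpace S] [MeasurableSpace S] [BorelSpace S] [T2Space S]
    [CompactSpace S] [ConnectedSpace S] (A : Atlas2 S) : ∫ x, A.KG x ∂A.μ ≤ 4 * Real.pi := by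
  obtain ⟨p⟩ : Nonempty S := inferInstance
  obtain ⟨q, hq⟩ : ∃ q, p ≠ q := by
    by_contra h
    push Not at h
    refine A.μ_ne_zero isOpen_univ ⟨p, mem_univ p⟩ ?_
    rw [← A.μ_singleton p, eq_univ_of_forall (s := {p}) fun x => (h x).symm]
  obtain ⟨A₁, h1, -, e1⟩ := flatten A hq
  obtain ⟨A₂, ⟨j, s, h2⟩, h3, e2⟩ := flatten A₁ hq.symm
  obtain ⟨i, r, h4⟩ := h3 h1
  rw [← e1, ← e2]
  exact gb2_flat A₂ hq h4 h2

end Pool.Agent.P.MP_56a1cd_gt
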