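import Pool.Agent.P.MP_56a1cd_gt.CalcN

namespace Pool.Agent.P.MP_56a1cd_gt

open MeasureTheory Matrix Set Filter Topology
open scoped ContDiff ENNReal

variable {m n : ℕ}

/-! PLAN. Suppose `A ∩ B` is the disjoint union of nonempty closed sets `C₁`, `C₂`. Take a continuous
`u` with values in `[0, 1]`, zero on `C₁`, one on `C₂` (`exists_continuous_zero_one_of_isClosed`). The map
`f = Circle.exp (π u)` on `A`, `Circle.exp (-π u)` on `B` is continuous. The space is simply connected
(contractible: `RealTopologicalVectorSpace.contractibleSpace`, `SimplyConnectedSpace.ofContractible`) and locally path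
connected, so `f` lifts through `Circle.isCoveringMap_exp` (`IsCoveringMap.existsUnique_continuousMap_lifts`)
to `θ`. On the connected set `A`, `θ - π u` takes values in `2 π ℤ`, so it is constant; same for
`θ + π u` on `B`. Compare at a point of `C₁` and at a point of `C₂`. Nonemptiness of `A ∩ B`: the space
is connected. -/

theorem unicoherent {A B : Set (E n)} (hA : IsClosed A) (hB : IsClosed B) (cA : IsConnected A)
    (cB : IsConnected B) (h : A ∪ B = univ) : IsConnected (A ∩ B) := by
  classical
  refine ⟨?_, ?_⟩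
  · have := isPreconnected_closed_iff.mp (isPreconnected_univ (α := E n)) A B hA hB h.ge
      (by simpa using cA.nonempty) (by simpa using cB.nonempty)
    simpa using this
  rw [isPreconnected_iff_subset_of_fully_disjoint_closed (hA.inter hB)]
  intro C D hC hD hcov hdis
  by_contra hne
  push Not at hne
  obtain ⟨x2, hx2, hx2C⟩ := not_subset.mp hne.1
  obtain ⟨x1, hx1, hx1D⟩ := not_subset.mp hne.2
  have hx2D : x2 ∈ D := (hcov hx2).resolve_left hx2C
  have hx1C : x1 ∈ C := (hcov hx1).resolve_right hx1D
  obtain ⟨u, hu0, hu1, -⟩ := exists_continuous_zero_one_of_isClosed hC hD hdis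
  let f : E n → Circle := fun x =>
    if x ∈ A then Circle.exp (Real.pi * u x) else Circle.exp (-(Real.pi * u x))
  have hfA : ∀ x ∈ A, f x = Circle.exp (Real.pi * u x) := fun x hx => if_pos hx
  have hfB : ∀ x ∈ B, f x = Circle.exp (-(Real.pi * u x)) := by
    intro x hx
    by_cases hxA : x ∈ A
    · rw [hfA x hxA, Circle.exp_eq_exp]
      rcases hcov ⟨hxA, hx⟩ with h1 | h1
      · exact ⟨0, by simp [hu0 h1]⟩
      · refine ⟨1, ?_⟩
        have : u x = 1 := hu1 h1
        rw [this]
        push_cast
        ring
    · exact if_neg hxA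
  have c1 : Continuous fun x => Real.pi * u x := by fun_prop
  have hf : Continuous f := by
    rw [← continuousOn_univ, ← h]
    refine ContinuousOn.union_of_isClosed ?_ ?_ hA hB
    · exact (Circle.exp.continuous.comp c1).continuousOn.congr hfA
    · exact (Circle.exp.continuous.comp c1.neg).continuousOn.congr hfB
  have h10 : u x1 = 0 := hu0 hx1C
  have h21 : u x2 = 1 := hu1 hx2D
  obtain ⟨θ, ⟨h0, hθ⟩, -⟩ := Circle.isCoveringMap_exp.existsUnique_continuousMap_lifts
    (⟨f, hf⟩ : C(E n, Circle)) x1 0 (by
      change _ = f x1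
      rw [hfA x1 hx1.1, h10, mul_zero])
  have eA := Circle.isCoveringMap_exp.eqOn_of_comp_eqOn cA.isPreconnected
    θ.continuous.continuousOn c1.continuousOn
    (fun x hx => (congrFun hθ x).trans (hfA x hx)) hx1.1 (by rw [h0, h10, mul_zero])
  have eB := Circle.isCoveringMap_exp.eqOn_of_comp_eqOn cB.isPreconnected
    θ.continuous.continuousOn c1.neg.continuousOn
    (fun x hx => (congrFun hθ x).trans (hfB x hx)) hx1.2 (by simp [h0, h10])
  have e1 : θ x2 = Real.pi * u x2 := eA hx2.1
  have e2 : θ x2 = -(Real.pi * u x2) := eB hx2.2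
  rw [h21] at e1 e2
  linarith [Real.pi_pos]

end Pool.Agent.P.MP_56a1cd_gt
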