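import Pool.Agent.P.MP_56a1cd_gt.Rules

namespace Pool.Agent.P.MP_56a1cd_gt

open MeasureTheory Matrix Set Filter Topology
open scoped ContDiff ENNReal

variable {m n : ℕ}

/-! PLAN. If `n = 0` everything is a single point and `lap = 0`: handle `Fin n` empty separately, so the
statement is for `E (n + 1)`. Barrier `e x = exp (α * x 0)`:
`lap g e = (α² G 0 0 - α ∑ i j, G i j * chr 0 i j) * e > 0` on `K` for large `α`. The maximum of
`u + ε e` on `K` is not attained in the interior: at an interior maximum the gradient vanishes and the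
matrix of second derivatives is negative semidefinite (restrict to lines; see
`snd_nonpos_of_isLocalMax` in `Pool/Agent/P/MP_4a4b50_gt/Hopf.lean`), so its trace against the positive
matrix `G` is nonpositive (write `G` as a sum of `v vᵀ`, for example by the spectral theorem).
Let `ε → 0`. -/

namespace WmpAux

theorem snd_nonpos {φ ψ : ℝ → ℝ} {a : ℝ} (hm : IsLocalMax φ 0)
    (h1 : ∀ᶠ t in 𝓝 (0 : ℝ), HasDerivAt φ (ψ t) t) (h2 : HasDerivAt ψ a 0) : a ≤ 0 := by
  by_contra ha
  have e : deriv φ =ᶠ[𝓝 0] ψ := h1.mono fun t ht => ht.deriv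
  have e2 : deriv (deriv φ) 0 = a := by rw [e.deriv_eq, h2.deriv]
  have hmin : IsLocalMin φ 0 := isLocalMin_of_deriv_deriv_pos (by rw [e2]; exact not_le.1 ha)
    hm.deriv_eq_zero h1.self_of_nhds.continuousAt
  have e3 : φ =ᶠ[𝓝 0] fun _ => φ 0 := (hm.and hmin).mono fun t ht => le_antisymm ht.1 ht.2
  have e4 := e3.deriv.deriv_eq
  rw [e2] at e4
  simp at e4
  exact ha e4.le

theorem line_deriv {f : E n → ℝ} {x v : E n} {t : ℝ} (hf : DifferentiableAt ℝ f (x + t • v)) :
    HasDerivAt (fun s : ℝ => f (x + s • v)) (∑ i, v i * pd i f (x + t • v)) t := by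
  have h : HasDerivAt (fun s : ℝ => x + s • v) v t := by
    simpa using ((hasDerivAt_id t).smul_const v).const_add x
  rw [← fderiv_eq_sum]
  exact hf.hasFDerivAt.comp_hasDerivAt t h

theorem quad_nonpos {U : Set (E n)} (hU : IsOpen U) {u : E n → ℝ} (hu : Sm U u) {x : E n}
    (hx : x ∈ U) (h : IsLocalMax u x) (v : E n) :
    ∑ j, v j * ∑ i, v i * pd i (pd j u) x ≤ 0 := by
  have hc : Continuous (fun s : ℝ => x + s • v) := by fun_prop
  have ht : Tendsto (fun s : ℝ => x + s • v) (𝓝 0) (𝓝 x) := by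
    simpa using hc.tendsto 0
  refine snd_nonpos (φ := fun s => u (x + s • v)) (ψ := fun s => ∑ j, v j * pd j u (x + s • v))
    ?_ ?_ ?_
  · have := ht.eventually h
    simpa [IsLocalMax, IsMaxFilter] using this
  · exact (ht.eventually (hU.mem_nhds hx)).mono fun t ht => line_deriv (sm_da hU hu ht)
  · refine HasDerivAt.fun_sum fun j _ => HasDerivAt.const_mul _ ?_
    have := line_deriv (f := pd j u) (x := x) (v := v) (t := 0)
      (by simpa using sm_da hU (sm_pd hU hu j) hx)
    simpa using this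

theorem trace_nonpos {G : Matrix (Fin n) (Fin n) ℝ} (hG : G.PosSemidef) {H : Fin n → Fin n → ℝ}
    (hH : ∀ v : E n, ∑ j, v j * ∑ i, v i * H i j ≤ 0) : ∑ i, ∑ j, G i j * H i j ≤ 0 := by
  obtain ⟨k, w, hw⟩ := Matrix.posSemidef_iff_eq_sum_vecMulVec.1 hG
  have e : ∑ i, ∑ j, G i j * H i j = ∑ a, ∑ j, w a j * ∑ i, w a i * H i j := by
    simp only [hw, Matrix.sum_apply, Matrix.vecMulVec_apply, star_trivial, Finset.sum_mul,
      Finset.mul_sum]
    rw [Finset.sum_comm]
    refine (Finset.sum_congr rfl fun j _ => Finset.sum_comm).trans (Finset.sum_comm.trans ?_)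
    exact Finset.sum_congr rfl fun a _ => Finset.sum_congr rfl fun j _ =>
      Finset.sum_congr rfl fun i _ => by ring
  rw [e]
  exact Finset.sum_nonpos fun a _ => hH _

theorem barrier {g : Met (n + 1)} {U K : Set (E (n + 1))} (hg : IsMet g U) (hK : IsCompact K)
    (hKU : K ⊆ U) : ∃ e : E (n + 1) → ℝ, Sm U e ∧ (∀ x, 0 < e x) ∧ ∀ x ∈ K, 0 < lap g e x := by
  set f : E (n + 1) → ℝ := fun x => x 0 with hf
  have hs : Sm U f := sm_coord U 0
  have hp : ∀ x ∈ K, 0 < gam g f f x := fun x hx => by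
    refine lt_of_le_of_ne (gam_nonneg (hg.pos x (hKU hx)) f) (fun e => ?_)
    have h1 := (fderiv_eq_zero_iff f x).1 ((gam_eq_zero_iff (hg.pos x (hKU hx)) f).1 e.symm) 0
    rw [hf, pd_coord] at h1
    simp at h1
  have hc : ContinuousOn (fun x => lap g f x / gam g f f x) K :=
    ((hg.sm_lap hs).continuousOn.mono hKU).div ((hg.sm_gam hs hs).continuousOn.mono hKU)
      (fun x hx => (hp x hx).ne')
  obtain ⟨C, hC⟩ := hK.exists_bound_of_continuousOn hc
  set α : ℝ := |C| + 1 with hα
  have hα0 : 0 < α := by positivity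
  have hβ : ContDiff ℝ ∞ (fun t : ℝ => Real.exp (α * t)) := by fun_prop
  have d1 : deriv (fun t : ℝ => Real.exp (α * t)) = fun t => α * Real.exp (α * t) := by
    funext t
    simp [mul_comm]
  have d2 : deriv (fun t : ℝ => α * Real.exp (α * t)) = fun t => α * (α * Real.exp (α * t)) := by
    funext t
    rw [deriv_const_mul_field', d1]
  refine ⟨fun x => Real.exp (α * f x), sm_comp_real (β := fun t => Real.exp (α * t)) hs
    (J := univ) hβ.contDiffOn (mapsTo_univ _ _), fun x => Real.exp_pos _, fun x hx => ?_⟩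
  rw [lap_comp (β := fun t => Real.exp (α * t)) g hg.opn hs isOpen_univ hβ.contDiffOn
    (mapsTo_univ _ _) (hKU hx), d1, d2]
  have h1 := (abs_le.1 (hC x hx)).1
  have h2 : -α < lap g f x / gam g f f x := by
    have := le_abs_self C
    linarith
  rw [lt_div_iff₀ (hp x hx)] at h2
  have h3 : 0 < α * Real.exp (α * f x) := by positivity
  have h4 := mul_pos h3 (show 0 < lap g f x + α * gam g f f x by linarith)
  linarith

end WmpAux

open WmpAux

theorem lap_nonpos_of_isLocalMax {g : Met n} {U : Set (E n)} (hg : IsMet g U) {u : E n → ℝ}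
    (hu : Sm U u) {x : E n} (hx : x ∈ U) (h : IsLocalMax u x) : lap g u x ≤ 0 := by
  have h0 := (fderiv_eq_zero_iff u x).1 h.fderiv_eq_zero
  simp only [lap, hess, h0, mul_zero, Finset.sum_const_zero, sub_zero]
  exact trace_nonpos (hg.pos x hx).inv.posSemidef (quad_nonpos hg.opn hu hx h)

/-- Weak maximum principle. -/
theorem wmp {g : Met (n + 1)} {U K : Set (E (n + 1))} (hg : IsMet g U) {u : E (n + 1) → ℝ}
    (hu : Sm U u) (hK : IsCompact K) (hKU : K ⊆ U) (h : ∀ x ∈ interior K, 0 ≤ lap g u x) {c : ℝ}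
    (hc : ∀ y ∈ frontier K, u y ≤ c) : ∀ x ∈ K, u x ≤ c := by
  intro x hx
  obtain ⟨e, he, hp, hl⟩ := barrier hg hK hKU
  obtain ⟨M, hM⟩ := hK.exists_bound_of_continuousOn (he.continuousOn.mono hKU)
  have hM0 : 0 < M := (hp x).trans_le ((le_abs_self _).trans (hM x hx))
  refine le_of_forall_pos_le_add fun δ hδ => ?_
  have hε : 0 < δ / M := div_pos hδ hM0
  have hs : Sm U (fun y => δ / M * e y) := contDiffOn_const.mul he
  have hw : Sm U (fun y => u y + δ / M * e y) := hu.add hs
  obtain ⟨z, hz, hmax⟩ := hK.exists_isMaxOn ⟨x, hx⟩ (hw.continuousOn.mono hKU)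
  have hzf : z ∈ frontier K := by
    rw [hK.isClosed.frontier_eq]
    refine ⟨hz, fun hi => ?_⟩
    have h1 := lap_nonpos_of_isLocalMax hg hw (hKU hz)
      (hmax.isLocalMax (mem_interior_iff_mem_nhds.1 hi))
    rw [lap_add g hg.opn hu hs (hKU hz), lap_cmul] at h1
    have h2 := mul_pos hε (hl z hz)
    have h3 := h z hi
    linarith
  have h1 : u x + δ / M * e x ≤ u z + δ / M * e z := hmax hx
  have h2 := mul_pos hε (hp x)
  have h3 : δ / M * e z ≤ δ / M * M :=
    mul_le_mul_of_nonneg_left ((le_abs_self _).trans (hM z hz)) hε.le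
  rw [div_mul_cancel₀ _ hM0.ne'] at h3
  have h4 := hc z hzf
  linarith

end Pool.Agent.P.MP_56a1cd_gt
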