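import Pool.Agent.P.MP_56a1cd_gt.CapD
import Pool.Agent.P.MP_56a1cd_gt.Wmp
import Pool.Agent.P.MP_56a1cd_gt.Unico

namespace Pool.Agent.P.MP_56a1cd_gt

open MeasureTheory Matrix Set Filter Topology
open scoped ContDiff ENNReal

variable {m n : ℕ}

/-! PLAN. Extend `G` by `T` off `M` to a continuous function `H` on the whole space (`Pot.G_bp`,
`frontier_eq`). `A = {t ≤ H}` is compact, `B = {H ≤ t}` is closed, `A ∩ B` is the level set. `A` is connected:
otherwise `A = A₁ ∪ A₂` with disjoint nonempty compact sets and the complement of the interior inside `A₁`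
(`isConnected_compl_interior`); `A₂ ⊆ interior M`, `H = t` on `frontier A₂`, so `H ≤ t` on `A₂` by `wmp`; at a
point of `A₂` the derivative is nonzero, so there are nearby points with `H > t`, they are in `A`, hence in
`A₂`: contradiction. `B` is connected in the same way, the far region `{R < nrm}` (`isConnected_shell`) lying in one
piece and the other piece being compact. Apply `unicoherent`. Use `isPreconnected_iff_subset_of_disjoint_closed`. -/

namespace LevelConnAux

variable {g : Met 3} {U O : Set (E 3)} {u H : E 3 → ℝ} {t : ℝ}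

/-- A compact, relatively open piece of a superlevel set of a subharmonic function is empty. -/
theorem piece_empty (hg : IsMet g U) (hO : IsOpen O) (hOU : O ⊆ U) (hu : Sm U u)
    (hl : ∀ x ∈ U, 0 ≤ lap g u x) (hH : Continuous H) (e : ∀ x ∈ O, H x = u x)
    (hr : ∀ x ∈ O, u x = t → fderiv ℝ u x ≠ 0) {a b : Set (E 3)} (ha : IsClosed a)
    (hab : {x | t ≤ H x} ⊆ a ∪ b) (hd : Disjoint a b) (hK : IsCompact ({x | t ≤ H x} ∩ b))
    (hKO : {x | t ≤ H x} ∩ b ⊆ O) : {x | t ≤ H x} ⊆ a := by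
  have h1 : ∀ x ∈ {x | t ≤ H x} ∩ b, ∀ᶠ y in 𝓝 x, t ≤ H y → y ∈ {x | t ≤ H x} ∩ b := by
    intro x hx
    filter_upwards [ha.isOpen_compl.mem_nhds (disjoint_right.1 hd hx.2)] with y hy h
    exact ⟨h, (hab h).resolve_left hy⟩
  have h2 : ∀ y ∈ frontier ({x | t ≤ H x} ∩ b), u y ≤ t := by
    intro y hy
    have hy' : y ∈ {x | t ≤ H x} ∩ b := hK.isClosed.frontier_subset hy
    by_contra hc
    rw [not_le, ← e y (hKO hy')] at hc
    refine hy.2 (mem_interior_iff_mem_nhds.2 ?_)
    filter_upwards [h1 y hy', hH.continuousAt.eventually (lt_mem_nhds hc)] with z h h'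
    exact h h'.le
  have h3 := wmp (n := 2) hg hu hK (hKO.trans hOU)
    (fun x hx => hl x (hOU (hKO (interior_subset hx)))) h2
  intro x hx
  by_contra hxa
  have hx' : x ∈ {x | t ≤ H x} ∩ b := ⟨hx, (hab hx).resolve_left hxa⟩
  have hxO := hKO hx'
  have h4 : u x = t := le_antisymm (h3 x hx') (e x hxO ▸ hx)
  refine hr x hxO h4 (IsLocalMax.fderiv_eq_zero ?_)
  filter_upwards [h1 x hx', hO.mem_nhds hxO] with y h h'
  rw [h4]
  by_contra hc
  exact hc (h3 y (h (e y h' ▸ (not_le.1 hc).le)))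

theorem conn_of (hg : IsMet g U) (hO : IsOpen O) (hOU : O ⊆ U) (hu : Sm U u)
    (hl : ∀ x ∈ U, 0 ≤ lap g u x) (hH : Continuous H) (e : ∀ x ∈ O, H x = u x)
    (hr : ∀ x ∈ O, u x = t → fderiv ℝ u x ≠ 0) {D K : Set (E 3)} (hD : IsConnected D)
    (hDA : D ⊆ {x | t ≤ H x}) (hK : IsCompact K) (h1 : {x | t ≤ H x} \ D ⊆ K)
    (h2 : {x | t ≤ H x} \ D ⊆ O) : IsConnected {x | t ≤ H x} := by
  have hA : IsClosed {x | t ≤ H x} := isClosed_le continuous_const hH
  have key : ∀ a b : Set (E 3), IsClosed a → IsClosed b → {x | t ≤ H x} ⊆ a ∪ b → Disjoint a b →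
      D ⊆ a → {x | t ≤ H x} ⊆ a := by
    intro a b ha hb hab hd hDa
    have h3 : {x | t ≤ H x} ∩ b ⊆ {x | t ≤ H x} \ D := fun x hx =>
      ⟨hx.1, fun h => disjoint_left.1 hd (hDa h) hx.2⟩
    exact piece_empty hg hO hOU hu hl hH e hr ha hab hd
      (hK.of_isClosed_subset (hA.inter hb) (h3.trans h1)) (h3.trans h2)
  refine ⟨hD.nonempty.mono hDA, (isPreconnected_iff_subset_of_fully_disjoint_closed hA).2
    fun a b ha hb hab hd => ?_⟩
  rcases isPreconnected_iff_subset_of_disjoint_closed.1 hD.isPreconnected a b ha hb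
    (hDA.trans hab) (by rw [hd.inter_eq, inter_empty]) with h | h
  · exact Or.inl (key a b ha hb hab hd h)
  · exact Or.inr (key b a hb ha (union_comm a b ▸ hab) hd.symm h)

theorem exists_ext {φ : E 3 → ℝ} {C : Cap φ} (P : Pot C) : ∃ H : E 3 → ℝ, Continuous H ∧
    (∀ x ∈ C.M, H x = P.G x) ∧ ∀ x, x ∉ interior C.M → H x = P.T := by
  classical
  have h1 : ∀ x ∈ frontier C.M, P.G x = P.T := by
    rw [C.frontier_eq]
    rintro _ ⟨p, hp, rfl⟩
    exact P.G_bp hp
  refine ⟨C.M.piecewise P.G fun _ => P.T, continuous_piecewise h1 ?_ continuousOn_const,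
    fun x hx => piecewise_eq_of_mem _ _ _ hx, fun x hx => ?_⟩
  · rw [C.closed.closure_eq]
    exact P.sm.continuousOn.mono C.M_sub
  · by_cases h : x ∈ C.M
    · rw [piecewise_eq_of_mem _ _ _ h]
      exact h1 x ⟨subset_closure h, hx⟩
    · exact piecewise_eq_of_notMem _ _ _ h

end LevelConnAux

open LevelConnAux

theorem level_conn {φ : E 3 → ℝ} {C : Cap φ} (P : Pot C) {t : ℝ} (h0 : 0 < t) (h1 : t < P.T)
    (hr : ∀ x ∈ C.M, P.G x = t → fderiv ℝ P.G x ≠ 0) :
    IsCompact {x | x ∈ interior C.M ∧ P.G x = t} ∧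
      IsConnected {x | x ∈ interior C.M ∧ P.G x = t} := by
  obtain ⟨H, hH, e, e'⟩ := exists_ext P
  have hO : interior C.M ⊆ C.Ω := interior_subset.trans C.M_sub
  have hA : IsClosed {x | t ≤ H x} := isClosed_le continuous_const hH
  have hB : IsClosed {x | -t ≤ -H x} := isClosed_le continuous_const hH.neg
  have hsub : {x | t ≤ H x} \ (interior C.M)ᶜ ⊆ {x | x ∈ C.M ∧ t ≤ P.G x} := fun x hx => by
    have h2 : x ∈ C.M := interior_subset (not_not.1 hx.2)
    exact ⟨h2, e x h2 ▸ hx.1⟩
  have hAc : IsCompact {x | t ≤ H x} := by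
    refine (C.isCompact_compl_interior.union (P.cpt t h0)).of_isClosed_subset hA fun x hx => ?_
    by_cases h : x ∈ interior C.M
    · exact Or.inr (hsub ⟨hx, not_not.2 h⟩)
    · exact Or.inl h
  have hBO : {x | -t ≤ -H x} ⊆ interior C.M := fun x hx => by
    by_contra h
    have h2 : -t ≤ -H x := hx
    rw [e' x h] at h2
    linarith
  have hAB : {x | t ≤ H x} ∩ {x | -t ≤ -H x} = {x | x ∈ interior C.M ∧ P.G x = t} := by
    ext x
    refine ⟨fun hx => ⟨hBO hx.2, ?_⟩, fun hx => ?_⟩
    · rw [← e x (interior_subset (hBO hx.2))]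
      exact le_antisymm (neg_le_neg_iff.1 hx.2) hx.1
    · have h2 : H x = t := (e x (interior_subset hx.1)).trans hx.2
      exact ⟨h2.ge, neg_le_neg h2.le⟩
  have cA : IsConnected {x | t ≤ H x} :=
    conn_of C.met' isOpen_interior hO P.sm (fun x hx => (P.harm x hx).ge) hH
      (fun x hx => e x (interior_subset hx)) (fun x hx => hr x (interior_subset hx))
      C.isConnected_compl_interior (fun x hx => h1.le.trans (e' x hx).ge) (P.cpt t h0) hsub
      fun x hx => not_not.1 hx.2
  obtain ⟨R, hR⟩ := isBounded_iff_nrm.1 hAc.isBounded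
  have cB : IsConnected {x | -t ≤ -H x} := by
    refine conn_of (u := fun x => -P.G x) (D := {x | nrm x ∈ Ioi (max R 0)}) C.met'
      isOpen_interior hO P.sm.neg (fun x hx => ?_) hH.neg
      (fun x hx => congrArg Neg.neg (e x (interior_subset hx))) (fun x hx h => ?_)
      (isConnected_shell isConnected_Ioi fun s hs => (le_max_right R 0).trans_lt hs)
      (fun x hx => ?_) (isCompact_nrm_le (max R 0))
      (fun x hx => show nrm x ≤ max R 0 from le_of_not_gt hx.2)
      fun x hx => hBO hx.1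
    · have h2 : (fun x => -P.G x) = fun x => -1 * P.G x := funext fun x => (neg_one_mul _).symm
      rw [h2, lap_cmul, P.harm x hx, mul_zero]
    · rw [fderiv_fun_neg, neg_ne_zero]
      exact hr x (interior_subset hx) (neg_injective h)
    · have h2 : ¬ t ≤ H x := fun h => absurd (hR x h) (not_le.2 ((le_max_left R 0).trans_lt hx))
      exact neg_le_neg (le_of_not_ge h2)
  rw [← hAB]
  refine ⟨hAc.inter_right hB, unicoherent hA hB cA cB (eq_univ_of_forall fun x => ?_)⟩
  exact (le_total t (H x)).imp id fun h => neg_le_neg h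

end Pool.Agent.P.MP_56a1cd_gt
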