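import Pool.Agent.P.MP_56a1cd_gt.LevelGB
import Pool.Agent.P.MP_56a1cd_gt.LevelConn
import Pool.Agent.P.MP_56a1cd_gt.Coarea

namespace Pool.Agent.P.MP_56a1cd_gt

open MeasureTheory Matrix Set Filter Topology
open scoped ContDiff ENNReal

variable {m n : ℕ}

namespace GBLevelAux

/-- A compact set of regular points is a finite disjoint union of measurable sets contained in
adapted charts. -/
theorem cover {U : Set (E 3)} (hU : IsOpen U) {G : E 3 → ℝ} (hG : Sm U G) {Z : Set (E 3)}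
    (hZ : IsCompact Z) (hZU : Z ⊆ U) (hr : ∀ x ∈ Z, fderiv ℝ G x ≠ 0) :
    ∃ (k : ℕ) (e : Fin k → OpenPartialHomeomorph (E 3) (E 3)) (B : Fin k → Set (E 3)),
      (∀ i, Adapted G (e i)) ∧ (∀ i, (e i).source ⊆ U) ∧ (∀ i, MeasurableSet (B i)) ∧
      (∀ i, B i ⊆ (e i).source) ∧ (Pairwise fun i j => Disjoint (B i) (B j)) ∧ Z = ⋃ i, B i := by
  have h1 : ∀ x : Z, ∃ e : OpenPartialHomeomorph (E 3) (E 3),
      Adapted G e ∧ x.1 ∈ e.source ∧ e.source ⊆ U := fun x =>
    exists_adapted hU hG (hZU x.2) (hr x.1 x.2)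
  choose c hc1 hc2 hc3 using h1
  obtain ⟨s, hs⟩ := hZ.elim_finite_subcover (fun x : Z => (c x).source)
    (fun x => (c x).open_source) (fun x hx => mem_iUnion.2 ⟨⟨x, hx⟩, hc2 ⟨x, hx⟩⟩)
  let e : Fin s.card → OpenPartialHomeomorph (E 3) (E 3) := fun i => c (s.equivFin.symm i).1
  have hcov : ∀ x ∈ Z, ∃ i, x ∈ (e i).source := by
    intro x hx
    obtain ⟨y, hy, hxy⟩ := mem_iUnion₂.1 (hs hx)
    refine ⟨s.equivFin ⟨y, hy⟩, ?_⟩
    simp only [e, Equiv.symm_apply_apply]
    exact hxy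
  refine ⟨s.card, e, fun i => Z ∩ ((e i).source \ ⋃ j ∈ {j | j < i}, (e j).source),
    fun i => hc1 _, fun i => hc3 _, fun i => ?_, fun i x hx => hx.2.1, ?_, ?_⟩
  · exact hZ.measurableSet.inter ((e i).open_source.measurableSet.diff
      (isOpen_biUnion fun j _ => (e j).open_source).measurableSet)
  · intro i j hij
    rw [Set.disjoint_left]
    intro x hi hj
    rcases lt_or_gt_of_ne hij with h | h
    · exact hj.2.2 (mem_biUnion (show i ∈ {l | l < j} from h) hi.2.1)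
    · exact hi.2.2 (mem_biUnion (show j ∈ {l | l < i} from h) hj.2.1)
  · refine Subset.antisymm (fun x hx => ?_) (iUnion_subset fun i => inter_subset_left)
    obtain ⟨i, hi, hmin⟩ := (wellFounded_lt (α := Fin s.card)).has_min
      {i | x ∈ (e i).source} (hcov x hx)
    refine mem_iUnion.2 ⟨i, hx, hi, fun h => ?_⟩
    obtain ⟨j, hj, hxj⟩ := mem_iUnion₂.1 h
    exact hmin j hxj hj

theorem level_eq {G : E 3 → ℝ} {e : OpenPartialHomeomorph (E 3) (E 3)} (he : Adapted G e)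
    {B : Set (E 3)} (hB : B ⊆ e.source) {t : ℝ} {y : E 2} (hy : lift t y ∈ e '' B) :
    e.symm (lift t y) ∈ B ∧ G (e.symm (lift t y)) = t := by
  obtain ⟨x, hx, hxy⟩ := hy
  have h1 : e.symm (lift t y) = x := by
    rw [← hxy]
    exact e.left_inv (hB hx)
  rw [h1]
  refine ⟨hx, ?_⟩
  rw [← he.last x (hB hx), hxy]
  rfl

end GBLevelAux

theorem gb_level {φ : E 3 → ℝ} {C : Cap φ} (P : Pot C) {Θ : ℝ → ℝ} {J : Set ℝ} (hJ : IsCompact J)
    (hJs : J ⊆ Ioo 0 P.T) (hΘ : ContinuousOn Θ (Icc 0 P.T)) (h0 : ∀ t ∈ Icc 0 P.T, 0 ≤ Θ t)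
    (hz : ∀ t ∈ Icc 0 P.T, t ∉ J → Θ t = 0)
    (hr : ∀ x ∈ C.M, P.G x ∈ J → fderiv ℝ P.G x ≠ 0) :
    IntegrableOn (fun x => Θ (P.G x) * KS C.g P.G x * √(gam C.g P.G P.G x) * vol C.g x) C.M ∧
      ∫ x in C.M, Θ (P.G x) * KS C.g P.G x * √(gam C.g P.G P.G x) * vol C.g x ≤
        4 * Real.pi * ∫ t in (0 : ℝ)..P.T, Θ t := by
  have hUΩ : interior C.M ⊆ C.Ω := interior_subset.trans C.M_sub
  have hg : IsMet C.g (interior C.M) := C.met'.mono isOpen_interior hUΩ
  have hG : Sm (interior C.M) P.G := P.sm.mono hUΩ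
  have hI : ∀ x ∈ C.M, P.G x ∈ Icc 0 P.T := fun x hx => ⟨(P.pos x hx).le, P.le x hx⟩
  obtain ⟨Z, hZdef⟩ : ∃ Z : Set (E 3), Z = {x | x ∈ C.M ∧ P.G x ∈ J} := ⟨_, rfl⟩
  have hmem : ∀ x, x ∈ Z ↔ x ∈ C.M ∧ P.G x ∈ J := fun x => by rw [hZdef]; rfl
  have hZM : Z ⊆ C.M := fun x hx => ((hmem x).1 hx).1
  have hZ : IsCompact Z := by
    obtain ⟨t0, ht0, hle⟩ := hJ.exists_forall_le' (f := fun t => t) continuousOn_id
      (a := 0) (fun t ht => (hJs ht).1)
    refine (P.cpt t0 ht0).of_isClosed_subset ?_ fun x hx =>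
      ⟨((hmem x).1 hx).1, hle _ ((hmem x).1 hx).2⟩
    rw [hZdef]
    exact (P.sm.continuousOn.mono C.M_sub).preimage_isClosed_of_isClosed C.closed hJ.isClosed
  have hZU : Z ⊆ interior C.M := by
    intro x hx
    by_contra hn
    have h1 : x ∈ frontier C.M := ⟨subset_closure (hZM hx), hn⟩
    rw [C.frontier_eq] at h1
    obtain ⟨p, hp, rfl⟩ := h1
    have h2 := (hJs ((hmem _).1 hx).2).2
    rw [P.G_bp hp] at h2
    exact lt_irrefl _ h2
  have hrZ : ∀ x ∈ Z, fderiv ℝ P.G x ≠ 0 := fun x hx => hr x ((hmem x).1 hx).1 ((hmem x).1 hx).2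
  have hcont : ContinuousOn
      (fun x => Θ (P.G x) * KS C.g P.G x * √(gam C.g P.G P.G x) * vol C.g x) Z := by
    refine ContinuousOn.mul (ContinuousOn.mul (ContinuousOn.mul ?_ ?_) ?_) ?_
    · exact hΘ.comp (hG.continuousOn.mono hZU) fun x hx => hI x (hZM hx)
    · refine (hg.continuousOn_KS hG).mono fun x hx => ⟨hZU hx, fun h => hrZ x hx ?_⟩
      exact (gam_eq_zero_iff (hg.pos x (hZU hx)) _).1 h
    · exact ((hg.sm_gam hG hG).continuousOn.mono hZU).sqrt
    · exact hg.sm_vol.continuousOn.mono hZU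
  have hint := hcont.integrableOn_compact (μ := volume) hZ
  have hzero : ∀ x ∈ C.M \ Z,
      Θ (P.G x) * KS C.g P.G x * √(gam C.g P.G P.G x) * vol C.g x = 0 := by
    intro x hx
    rw [hz _ (hI x hx.1) fun h => hx.2 ((hmem x).2 ⟨hx.1, h⟩)]
    simp
  refine ⟨hint.of_forall_diff_eq_zero C.closed.measurableSet hzero, ?_⟩
  rw [setIntegral_eq_of_subset_of_forall_diff_eq_zero C.closed.measurableSet hZM hzero]
  obtain ⟨k, e, B, he, hs, hB, hBs, hd, hZB⟩ := GBLevelAux.cover isOpen_interior hG hZ hZU hrZ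
  have hBZ : ∀ i, B i ⊆ Z := fun i => by
    rw [hZB]
    exact subset_iUnion B i
  have hco := fun i => coarea_chart hg hG (he i) (hs i) (hB i) (hBs i)
    (f := fun x => Θ (P.G x) * KS C.g P.G x) (hint.mono_set (hBZ i))
  have hTi : IntegrableOn (fun t => 4 * Real.pi * Θ t) (Ioc 0 P.T) :=
    (((continuousOn_const.mul hΘ).integrableOn_compact isCompact_Icc).mono_set
      Ioc_subset_Icc_self)
  have e1 : ∫ x in Z, Θ (P.G x) * KS C.g P.G x * √(gam C.g P.G P.G x) * vol C.g x =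
      ∑ i, ∫ x in B i, Θ (P.G x) * KS C.g P.G x * √(gam C.g P.G P.G x) * vol C.g x := by
    rw [← integral_iUnion_fintype hB hd fun i => hint.mono_set (hBZ i), ← hZB]
  rw [e1, Finset.sum_congr rfl fun i _ => (hco i).2,
    ← integral_finset_sum _ fun i _ => (hco i).1, intervalIntegral.integral_of_le P.T_pos.le,
    ← integral_const_mul, ← integral_indicator measurableSet_Ioc]
  refine integral_mono (integrable_finset_sum _ fun i _ => (hco i).1)
    ((integrable_indicator_iff measurableSet_Ioc).2 hTi) fun t => ?_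
  beta_reduce
  by_cases ht : t ∈ J
  · have ht' := hJs ht
    rw [indicator_of_mem (Ioo_subset_Ioc_self ht')]
    obtain ⟨hc, hn⟩ := level_conn P ht'.1 ht'.2 fun x hx hxt => hr x hx (hxt ▸ ht)
    have hgb := level_gb hg hG (fun x hx => P.harm x (hUΩ hx)) he hs hc hn hB hBs hd
      (fun x hx => by
        rw [← hZB]
        exact (hmem x).2 ⟨interior_subset hx.1, hx.2 ▸ ht⟩)
    have e2 : ∀ i, ∫ y in {y | lift t y ∈ e i '' B i},
        Θ (P.G ((e i).symm (lift t y))) * KS C.g P.G ((e i).symm (lift t y)) *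
          vol (slice (pull (e i).symm C.g) t) y =
        Θ t * ∫ y in {y | lift t y ∈ e i '' B i},
          KS C.g P.G ((e i).symm (lift t y)) * vol (slice (pull (e i).symm C.g) t) y := by
      intro i
      have hA : MeasurableSet (e i '' B i) := (hB i).image_of_continuousOn_injOn
        ((e i).continuousOn.mono (hBs i)) ((e i).injOn.mono (hBs i))
      have hm : MeasurableSet {y | lift t y ∈ e i '' B i} :=
        (contDiff_lift t).continuous.measurable hA
      rw [← integral_const_mul]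
      refine setIntegral_congr_fun hm fun y hy => ?_
      beta_reduce
      rw [(GBLevelAux.level_eq (he i) (hBs i) hy).2, mul_assoc]
    rw [Finset.sum_congr rfl fun i _ => e2 i, ← Finset.mul_sum, mul_comm (4 * Real.pi)]
    exact mul_le_mul_of_nonneg_left hgb (h0 t (Ioo_subset_Icc_self ht'))
  · have e2 : ∀ i, {y | lift t y ∈ e i '' B i} = ∅ := by
      intro i
      refine eq_empty_of_forall_notMem fun y hy => ht ?_
      obtain ⟨h1, h2⟩ := GBLevelAux.level_eq (he i) (hBs i) hy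
      rw [← h2]
      exact ((hmem _).1 (hBZ i h1)).2
    refine le_of_eq_of_le (Finset.sum_eq_zero fun i _ => ?_) ?_
    · rw [e2 i, setIntegral_empty]
    · refine indicator_nonneg (fun s hs => ?_) t
      have := h0 s (Ioc_subset_Icc_self hs)
      have := Real.pi_pos
      positivity

end Pool.Agent.P.MP_56a1cd_gt
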