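import Pool.Agent.P.MP_56a1cd_gt.Hor1

namespace Pool.Agent.P.MP_56a1cd_gt

open MeasureTheory Matrix Set Filter Topology
open scoped ContDiff ENNReal

variable {m n : ℕ}

/-! The horizon inequality: removing the truncation. -/

namespace HorAux

/-- A bump function around `[σ, 2σ]`. -/
noncomputable def th (σ t : ℝ) : ℝ := stp (2 * t / σ) * (1 - stp (t / (2 * σ)))

theorem th_sm (σ : ℝ) : ContDiff ℝ ∞ (th σ) := by
  unfold th
  exact (stp_sm.comp ((contDiff_const.mul contDiff_id).div_const σ)).mul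
    (contDiff_const.sub (stp_sm.comp (contDiff_id.div_const (2 * σ))))

theorem th_mem (σ t : ℝ) : 0 ≤ th σ t ∧ th σ t ≤ 1 := by
  obtain ⟨a1, a2⟩ := stp_mem (2 * t / σ)
  obtain ⟨b1, b2⟩ := stp_mem (t / (2 * σ))
  unfold th
  constructor
  · exact mul_nonneg a1 (by linarith)
  · exact mul_le_one₀ a2 (by linarith) (by linarith)

theorem th_low {σ t : ℝ} (hσ : 0 < σ) (h : t ≤ σ / 2) : th σ t = 0 := by
  unfold th
  rw [stp_zero (by rw [div_le_one hσ]; linarith), zero_mul]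

theorem th_high {σ t : ℝ} (hσ : 0 < σ) (h : 4 * σ ≤ t) : th σ t = 0 := by
  unfold th
  rw [stp_one (t := t / (2 * σ)) (by rw [le_div_iff₀ (by positivity)]; linarith), sub_self, mul_zero]

theorem th_one {σ t : ℝ} (hσ : 0 < σ) (h1 : σ ≤ t) (h2 : t ≤ 2 * σ) : th σ t = 1 := by
  unfold th
  rw [stp_one (by rw [le_div_iff₀ hσ]; linarith),
    stp_zero (by rw [div_le_one (by positivity)]; exact h2)]
  norm_num

theorem th_int {σ T : ℝ} (hσ : 0 < σ) (h : 4 * σ ≤ T) : ∫ t in (0 : ℝ)..T, th σ t ≤ 4 * σ := by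
  have hc : Continuous (th σ) := (th_sm σ).continuous
  rw [← intervalIntegral.integral_add_adjacent_intervals (b := 4 * σ) (hc.intervalIntegrable _ _)
    (hc.intervalIntegrable _ _)]
  have h1 : ∫ t in (4 * σ)..T, th σ t = 0 := by
    rw [intervalIntegral.integral_congr (g := fun _ => (0 : ℝ))]
    · simp
    · intro t ht
      rw [uIcc_of_le h] at ht
      exact th_high hσ ht.1
  have h2 : ∫ t in (0 : ℝ)..(4 * σ), th σ t ≤ ∫ _ in (0 : ℝ)..(4 * σ), (1 : ℝ) :=
    intervalIntegral.integral_mono_on (by positivity) (hc.intervalIntegrable _ _)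
      (continuous_const.intervalIntegrable _ _) fun t _ => (th_mem σ t).2
  rw [h1, add_zero]
  simpa using h2

/-- The error term is at most linear in `σ`. -/
theorem err_le {φ : E 3 → ℝ} (hφ : Hom0 φ) {C : Cap φ} (Q : Pot C) {c : ℝ} (hc : 0 ≤ c) :
    ∃ D σ₁ : ℝ, 0 ≤ D ∧ 0 < σ₁ ∧ ∀ σ P L, 0 < σ → σ ≤ σ₁ → σ ≤ Q.T / 4 → PL Q.T σ c P L →
      ∫ x in C.M, |deriv L (Q.G x) + 3 / 4 * lam Q.T (Q.G x) ^ 2 * P (Q.G x)| *
          (gam C.g Q.G Q.G x * √(gam C.g Q.G Q.G x)) * vol C.g x ≤ D * σ := by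
  obtain ⟨K, s, hs, hK⟩ := Q.grad
  refine ⟨4 * c * √K * (4 * Real.pi * 4), s / 2, by positivity, by positivity,
    fun σ P L hσ hσ1 hσT h => ?_⟩
  obtain ⟨i1, i2⟩ := Q.level_mass hφ (th_sm σ) (half_pos hσ) fun t ht => th_low hσ ht
  have hM : MeasurableSet C.M := C.closed.measurableSet
  have ha : ∀ x ∈ C.M, 0 ≤ gam C.g Q.G Q.G x :=
    fun x hx => gam_nonneg (C.met'.pos x (C.M_sub hx)) _
  have h1 : ∫ x in C.M, |deriv L (Q.G x) + 3 / 4 * lam Q.T (Q.G x) ^ 2 * P (Q.G x)| *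
          (gam C.g Q.G Q.G x * √(gam C.g Q.G Q.G x)) * vol C.g x ≤
      ∫ x in C.M, 4 * c * √K * (th σ (Q.G x) * gam C.g Q.G Q.G x * vol C.g x) := by
    refine integral_mono_of_nonneg (ae_restrict_of_forall_mem hM fun x hx => ?_) (i1.const_mul _)
      (ae_restrict_of_forall_mem hM fun x hx => ?_)
    · have := ha x hx
      have := vol_nonneg C.g x
      positivity
    · have a0 := ha x hx
      have v0 := vol_nonneg C.g x
      have t0 := (th_mem σ (Q.G x)).1
      have hG := Q.mapsTo (C.M_sub hx)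
      by_cases hr : Q.G x < σ ∨ 2 * σ < Q.G x
      · simp only
        rw [h.Q_zero _ hG hr, abs_zero, zero_mul, zero_mul]
        positivity
      · rw [not_or, not_lt, not_lt] at hr
        have q1 := h.Q_le _ hG
        have q2 : √(gam C.g Q.G Q.G x) ≤ √K * (2 * σ) ^ 2 := by
          have b1 := hK x hx (by linarith [hr.2])
          have b2 : √(K * Q.G x ^ 4) = √K * Q.G x ^ 2 := by
            rw [Real.sqrt_mul' _ (by positivity), show Q.G x ^ 4 = (Q.G x ^ 2) ^ 2 by ring,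
              Real.sqrt_sq (sq_nonneg _)]
          refine (Real.sqrt_le_sqrt b1).trans ?_
          rw [b2]
          exact mul_le_mul_of_nonneg_left (pow_le_pow_left₀ hG.1.le hr.2 2) (Real.sqrt_nonneg _)
        simp only
        rw [th_one hσ hr.1 hr.2]
        calc _ ≤ c / σ ^ 2 * (gam C.g Q.G Q.G x * (√K * (2 * σ) ^ 2)) * vol C.g x := by
              gcongr
          _ = _ := by field_simp; ring
  rw [integral_const_mul, i2] at h1
  refine h1.trans ?_
  have h2 := th_int hσ (T := Q.T) (by linarith)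
  calc _ ≤ 4 * c * √K * (4 * Real.pi * (4 * σ)) := by gcongr
    _ = _ := by ring

end HorAux

theorem hor {φ : E 3 → ℝ} (hφ : Hom0 φ) {C : Cap φ} (Q : Pot C) :
    IntegrableOn (fun x => Psi Q.T (Q.G x) * (scal C.g x / 2) * √(gam C.g Q.G Q.G x) * vol C.g x)
      C.M ∧
    ∫ p, C.fl Q.G p ^ 2 ∂aM φ + Q.T / 2 *
      ∫ x in C.M, Psi Q.T (Q.G x) * (scal C.g x / 2) * √(gam C.g Q.G Q.G x) * vol C.g x ≤
        Real.pi * Q.T ^ 2 := by
  obtain ⟨s, hs, hz⟩ := Q.exists_scal_zero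
  obtain ⟨c, hc, hPL⟩ := exists_PL Q.T_pos
  obtain ⟨D, σ₁, hD, hσ₁, he⟩ := HorAux.err_le hφ Q hc
  have hT := Q.T_pos
  have hM : MeasurableSet C.M := C.closed.measurableSet
  constructor
  · refine Q.integrableOn ?_ hs fun x hx h => by rw [hz x hx h]; ring
    refine ContinuousOn.mono ?_ C.M_sub
    refine ((((continuousOn_Psi Q.T).comp Q.sm.continuousOn fun x hx => (Q.mapsTo hx).2).mul
      (C.met'.sm_scal.continuousOn.div_const 2)).mul
        (C.met'.sm_gam Q.sm Q.sm).continuousOn.sqrt).mul C.met'.sm_vol.continuousOn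
  · refine le_of_forall_pos_le_add fun ε hε => ?_
    obtain ⟨σ, hσ, h1, h2, h3, h4⟩ : ∃ σ : ℝ, 0 < σ ∧ σ ≤ σ₁ ∧ σ ≤ Q.T / 4 ∧ σ ≤ s / 2 ∧
        σ ≤ ε / (Q.T / 2 * D + 1) :=
      ⟨min (min σ₁ (Q.T / 4)) (min (s / 2) (ε / (Q.T / 2 * D + 1))), by positivity,
        (min_le_left _ _).trans (min_le_left _ _), (min_le_left _ _).trans (min_le_right _ _),
        (min_le_right _ _).trans (min_le_left _ _), (min_le_right _ _).trans (min_le_right _ _)⟩
    obtain ⟨P, L, h⟩ := hPL σ hσ h2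
    have b1 := hor_one hφ Q hσ h2 h
    have b2 := he σ P L hσ h1 h2 h
    have b3 : ∫ x in C.M, P (Q.G x) * (scal C.g x / 2) * √(gam C.g Q.G Q.G x) * vol C.g x =
        ∫ x in C.M, Psi Q.T (Q.G x) * (scal C.g x / 2) * √(gam C.g Q.G Q.G x) * vol C.g x := by
      refine setIntegral_congr_fun hM fun x hx => ?_
      by_cases hr : Q.G x < s
      · simp only [hz x hx hr, zero_div, mul_zero]
      · simp only [h.P_eq _ (Q.mapsTo (C.M_sub hx)) (by linarith [not_lt.1 hr])]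
    rw [b3] at b1
    have b4 := mul_le_mul_of_nonneg_left (b1.trans (add_le_add_right b2 _)) (half_pos hT).le
    have b5 : Q.T / 2 * (-(2 / Q.T) * ∫ p, C.fl Q.G p ^ 2 ∂aM φ + 2 * Real.pi * Q.T + D * σ) =
        -∫ p, C.fl Q.G p ^ 2 ∂aM φ + Real.pi * Q.T ^ 2 + Q.T / 2 * D * σ := by
      field_simp
    rw [le_div_iff₀ (by positivity)] at h4
    rw [b5] at b4
    nlinarith

end Pool.Agent.P.MP_56a1cd_gt
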