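import Pool.Agent.P.MP_56a1cd_gt.CalcN

namespace Pool.Agent.P.MP_56a1cd_gt

open MeasureTheory Matrix Set Filter Topology
open scoped ContDiff ENNReal

variable {m n : ℕ}

/-! PLAN. `P t = stp (t / σ) * Psi T t`, `L = P' + (3/2) lam P`. For `Psi` itself,
`Λ t = T² (3 / (t (2T - t)²) - 1 / (2T - t)³)` satisfies `Λ = Psi' + (3/2) lam Psi`, `Λ' + (3/4) lam² Psi = 0`,
`Λ T = 2 / T`. With `z t = stp (t / σ)`: `L = z' Psi + z Λ` and
`L' + (3/4) lam² P = z'' Psi + z' (Psi' + Λ)`; on `[σ, 2σ] ⊆ (0, T/2]`, `Psi ≤ 1`, `Psi' ≤ 2/T`, `|Λ| ≤ C/σ`.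
Define `L` by the closed formula `z' Psi + z Λ`. -/

/-- The properties of the truncated weights. -/
structure PL (T σ C : ℝ) (P L : ℝ → ℝ) : Prop where
  P_sm : ContDiffOn ℝ ∞ P (Ioo 0 (2 * T))
  L_sm : ContDiffOn ℝ ∞ L (Ioo 0 (2 * T))
  L_eq : ∀ t ∈ Ioo 0 (2 * T), L t = deriv P t + 3 / 2 * lam T t * P t
  P_mem : ∀ t ∈ Ioo 0 (2 * T), 0 ≤ P t ∧ P t ≤ Psi T t
  zero : ∀ t ∈ Ioo 0 (2 * T), t ≤ σ → P t = 0 ∧ L t = 0
  P_eq : ∀ t ∈ Ioo 0 (2 * T), 2 * σ ≤ t → P t = Psi T t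
  L_T : L T = 2 / T
  Q_le : ∀ t ∈ Ioo 0 (2 * T), |deriv L t + 3 / 4 * lam T t ^ 2 * P t| ≤ C / σ ^ 2
  Q_zero : ∀ t ∈ Ioo 0 (2 * T), t < σ ∨ 2 * σ < t → deriv L t + 3 / 4 * lam T t ^ 2 * P t = 0

namespace PsiFAux

/-- The derivative of `Psi`. -/
noncomputable def dPsi (T t : ℝ) : ℝ := 2 * T ^ 2 / (2 * T - t) ^ 3

/-- The function `Psi' + (3/2) lam Psi`. -/
noncomputable def Lm (T t : ℝ) : ℝ := T ^ 2 * (3 / (t * (2 * T - t) ^ 2) - 1 / (2 * T - t) ^ 3)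

theorem hasDerivAt_u (T t : ℝ) : HasDerivAt (fun s : ℝ => 2 * T - s) (-1) t := by
  simpa using (hasDerivAt_id t).const_sub (2 * T)

theorem hasDerivAt_Psi {T t : ℝ} (h : 2 * T - t ≠ 0) : HasDerivAt (Psi T) (dPsi T t) t := by
  have h1 := ((hasDerivAt_const t (T ^ 2)).div ((hasDerivAt_u T t).pow 2) (pow_ne_zero 2 h))
  refine HasDerivAt.congr_deriv (f := Psi T) h1 ?_
  simp only [dPsi, Pi.pow_apply]
  field_simp
  ring

theorem hasDerivAt_Lm {T t : ℝ} (h0 : t ≠ 0) (h : 2 * T - t ≠ 0) :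
    HasDerivAt (Lm T) (-(3 / 4 * lam T t ^ 2 * Psi T t)) t := by
  have h1 := (hasDerivAt_const t (3 : ℝ)).div ((hasDerivAt_id t).mul ((hasDerivAt_u T t).pow 2))
    (mul_ne_zero h0 (pow_ne_zero 2 h))
  have h2 := (hasDerivAt_const t (1 : ℝ)).div ((hasDerivAt_u T t).pow 3) (pow_ne_zero 3 h)
  have h3 := (h1.sub h2).const_mul (T ^ 2)
  refine HasDerivAt.congr_deriv (f := Lm T) h3 ?_
  simp only [lam, Psi, Pi.pow_apply, Pi.mul_apply, id]
  generalize 2 * T - t = u at h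
  field_simp
  ring

theorem Lm_eq {T t : ℝ} (h0 : t ≠ 0) (h : 2 * T - t ≠ 0) :
    Lm T t = dPsi T t + 3 / 2 * lam T t * Psi T t := by
  simp only [Lm, dPsi, lam, Psi]
  generalize 2 * T - t = u at h
  field_simp
  ring

theorem Psi_sm (T : ℝ) : ContDiffOn ℝ ∞ (Psi T) (Ioo 0 (2 * T)) := by
  refine ContDiffOn.div contDiffOn_const (by fun_prop) ?_
  intro t ht
  exact pow_ne_zero 2 (sub_ne_zero.mpr ht.2.ne')

theorem Lm_sm (T : ℝ) : ContDiffOn ℝ ∞ (Lm T) (Ioo 0 (2 * T)) := by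
  refine ContDiffOn.mul contDiffOn_const (ContDiffOn.sub ?_ ?_)
  · refine ContDiffOn.div contDiffOn_const (by fun_prop) ?_
    intro t ht
    exact mul_ne_zero ht.1.ne' (pow_ne_zero 2 (sub_ne_zero.mpr ht.2.ne'))
  · refine ContDiffOn.div contDiffOn_const (by fun_prop) ?_
    intro t ht
    exact pow_ne_zero 3 (sub_ne_zero.mpr ht.2.ne')

theorem dstp_sm : ContDiff ℝ ∞ (deriv stp) := stp_sm.iterate_deriv 1

theorem hasDerivAt_comp {f : ℝ → ℝ} (hf : ContDiff ℝ ∞ f) (σ t : ℝ) :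
    HasDerivAt (fun s => f (s / σ)) (deriv f (t / σ) / σ) t := by
  have h1 : HasDerivAt f (deriv f (t / σ)) (t / σ) :=
    (hf.differentiable (by simp) _).hasDerivAt
  have h2 : HasDerivAt (fun s : ℝ => s / σ) (1 / σ) t := (hasDerivAt_id t).div_const σ
  refine HasDerivAt.congr_deriv (h1.comp t h2) ?_
  ring

theorem dstp_zero {t : ℝ} (h : t ≤ 1) : deriv stp t = 0 := by
  have hc : Continuous (deriv stp) := dstp_sm.continuous
  have hcl : IsClosed {s | deriv stp s = 0} := isClosed_eq hc continuous_const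
  have hsub : Iio (1 : ℝ) ⊆ {s | deriv stp s = 0} := fun s hs => (stp_deriv_zero (Or.inl hs)).1
  have := hcl.closure_subset_iff.mpr hsub
  rw [closure_Iio] at this
  exact this h

theorem Psi_nonneg (T t : ℝ) : 0 ≤ Psi T t := by
  unfold Psi
  positivity

theorem bounds {T σ t : ℝ} (hT : 0 < T) (hσ : 0 < σ) (hσT : σ ≤ T / 4) (h1 : σ ≤ t)
    (h2 : t ≤ 2 * σ) : Psi T t ≤ 1 ∧ |dPsi T t + Lm T t| ≤ 5 / σ := by
  have ht : 0 < t := by linarith
  have hu : T ≤ 2 * T - t := by linarith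
  have hu0 : 0 < 2 * T - t := by linarith
  have a2 : T ^ 2 ≤ (2 * T - t) ^ 2 := pow_le_pow_left₀ hT.le hu 2
  have hP : T ^ 2 / (2 * T - t) ^ 2 ≤ 1 := (div_le_one (by positivity)).mpr a2
  have hP0 : 0 ≤ T ^ 2 / (2 * T - t) ^ 2 := by positivity
  refine ⟨hP, ?_⟩
  have e : dPsi T t + Lm T t = T ^ 2 / (2 * T - t) ^ 2 * (3 / t + 1 / (2 * T - t)) := by
    simp only [dPsi, Lm]
    field_simp
    ring
  have b1 : 3 / t ≤ 3 / σ := div_le_div_of_nonneg_left (by norm_num) hσ h1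
  have b2 : 1 / (2 * T - t) ≤ 1 / σ := div_le_div_of_nonneg_left (by norm_num) hσ (by linarith)
  have b3 : 0 ≤ 3 / t + 1 / (2 * T - t) := by positivity
  have b4 : 0 < 1 / σ := by positivity
  rw [e, abs_of_nonneg (mul_nonneg hP0 b3)]
  calc T ^ 2 / (2 * T - t) ^ 2 * (3 / t + 1 / (2 * T - t)) ≤ 1 * (3 / t + 1 / (2 * T - t)) :=
        mul_le_mul_of_nonneg_right hP b3
    _ ≤ 5 / σ := by
        have : 5 / σ = 3 / σ + 2 * (1 / σ) := by ring
        linarith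

end PsiFAux

open PsiFAux in
theorem exists_PL {T : ℝ} (hT : 0 < T) :
    ∃ C : ℝ, 0 ≤ C ∧ ∀ σ, 0 < σ → σ ≤ T / 4 → ∃ P L, PL T σ C P L := by
  obtain ⟨C, hC, hb⟩ := stp_deriv_bdd
  refine ⟨6 * C, by positivity, fun σ hσ hσT => ?_⟩
  have hz : ContDiff ℝ ∞ (fun t : ℝ => stp (t / σ)) := stp_sm.comp (by fun_prop)
  have hz' : ContDiff ℝ ∞ (fun t : ℝ => deriv stp (t / σ) / σ) :=
    (dstp_sm.comp (by fun_prop)).div_const σ
  have hQ : ∀ t ∈ Ioo 0 (2 * T),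
      deriv (fun t => deriv stp (t / σ) / σ * Psi T t + stp (t / σ) * Lm T t) t +
        3 / 4 * lam T t ^ 2 * (stp (t / σ) * Psi T t) =
      deriv (deriv stp) (t / σ) / σ ^ 2 * Psi T t +
        deriv stp (t / σ) / σ * (dPsi T t + Lm T t) := by
    intro t ht
    have hu : 2 * T - t ≠ 0 := sub_ne_zero.mpr ht.2.ne'
    have h1 := (((hasDerivAt_comp dstp_sm σ t).div_const σ).mul (hasDerivAt_Psi hu)).add
      ((hasDerivAt_comp stp_sm σ t).mul (hasDerivAt_Lm ht.1.ne' hu))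
    have h2 : deriv (fun t => deriv stp (t / σ) / σ * Psi T t + stp (t / σ) * Lm T t) t = _ :=
      h1.deriv
    rw [h2]
    ring
  have hQz : ∀ t, t < σ ∨ 2 * σ < t → t / σ < 1 ∨ 2 < t / σ := by
    intro t h
    rcases h with h | h
    · exact Or.inl ((div_lt_one hσ).mpr h)
    · exact Or.inr ((lt_div_iff₀ hσ).mpr h)
  refine ⟨fun t => stp (t / σ) * Psi T t,
    fun t => deriv stp (t / σ) / σ * Psi T t + stp (t / σ) * Lm T t, ?_, ?_, ?_, ?_, ?_, ?_, ?_,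
    ?_, ?_⟩
  · exact hz.contDiffOn.mul (Psi_sm T)
  · exact (hz'.contDiffOn.mul (Psi_sm T)).add (hz.contDiffOn.mul (Lm_sm T))
  · intro t ht
    have hu : 2 * T - t ≠ 0 := sub_ne_zero.mpr ht.2.ne'
    have h1 := (hasDerivAt_comp stp_sm σ t).mul (hasDerivAt_Psi hu)
    have h2 : deriv (fun t => stp (t / σ) * Psi T t) t = _ := h1.deriv
    rw [h2, Lm_eq ht.1.ne' hu]
    ring
  · intro t _
    have := stp_mem (t / σ)
    have hp := Psi_nonneg T t
    exact ⟨mul_nonneg this.1 hp, mul_le_of_le_one_left hp this.2⟩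
  · intro t _ h
    have h1 : t / σ ≤ 1 := (div_le_one hσ).mpr h
    simp [stp_zero h1, dstp_zero h1]
  · intro t _ h
    have h1 : 2 ≤ t / σ := (le_div_iff₀ hσ).mpr h
    simp [stp_one h1]
  · have h1 : 2 < T / σ := (lt_div_iff₀ hσ).mpr (by linarith)
    simp only [stp_one h1.le, (stp_deriv_zero (Or.inr h1)).1, Lm]
    rw [show 2 * T - T = T by ring]
    field_simp
    ring
  · intro t ht
    rw [hQ t ht]
    by_cases h : t < σ ∨ 2 * σ < t
    · obtain ⟨e1, e2⟩ := stp_deriv_zero (hQz t h)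
      rw [e1, e2]
      simp only [zero_div, zero_mul, add_zero, abs_zero]
      positivity
    · push Not at h
      obtain ⟨b1, b2⟩ := bounds hT hσ hσT h.1 h.2
      obtain ⟨c1, c2⟩ := hb (t / σ)
      have hp := Psi_nonneg T t
      have d1 : |deriv (deriv stp) (t / σ) / σ ^ 2 * Psi T t| ≤ C / σ ^ 2 * 1 := by
        rw [abs_mul, abs_div, abs_of_nonneg hp, abs_of_pos (by positivity : 0 < σ ^ 2)]
        exact mul_le_mul (div_le_div_of_nonneg_right c2 (by positivity)) b1 hp (by positivity)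
      have d2 : |deriv stp (t / σ) / σ * (dPsi T t + Lm T t)| ≤ C / σ * (5 / σ) := by
        rw [abs_mul, abs_div, abs_of_pos hσ]
        exact mul_le_mul (div_le_div_of_nonneg_right c1 hσ.le) b2 (abs_nonneg _) (by positivity)
      have e : 6 * C / σ ^ 2 = C / σ ^ 2 * 1 + C / σ * (5 / σ) := by
        field_simp
        ring
      rw [e]
      exact (abs_add_le _ _).trans (add_le_add d1 d2)
  · intro t ht h
    rw [hQ t ht]
    obtain ⟨e1, e2⟩ := stp_deriv_zero (hQz t h)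
    rw [e1, e2]
    simp

theorem Psi_mem {T t : ℝ} (hT : 0 < T) (h0 : 0 ≤ t) (h1 : t ≤ T) :
    0 ≤ Psi T t ∧ Psi T t ≤ 1 ∧ 1 - Psi T t ≤ 2 * (T - t) / T := by
  have hu : T ≤ 2 * T - t := by linarith
  have hu0 : 0 < 2 * T - t := by linarith
  refine ⟨PsiFAux.Psi_nonneg T t, (div_le_one (by positivity)).mpr (pow_le_pow_left₀ hT.le hu 2), ?_⟩
  have e : 2 * (T - t) / T - (1 - Psi T t) =
      (T - t) ^ 2 * (3 * T + 2 * (T - t)) / (T * (2 * T - t) ^ 2) := by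
    unfold Psi
    field_simp
    ring
  have : 0 ≤ (T - t) ^ 2 * (3 * T + 2 * (T - t)) / (T * (2 * T - t) ^ 2) := by
    have : 0 ≤ T - t := by linarith
    positivity
  linarith

theorem continuousOn_Psi (T : ℝ) : ContinuousOn (Psi T) (Iio (2 * T)) := fun _ ht =>
  (PsiFAux.hasDerivAt_Psi (sub_ne_zero.mpr (ne_of_gt ht))).continuousAt.continuousWithinAt

theorem continuousOn_lam (T : ℝ) : ContinuousOn (lam T) (Ioo 0 (2 * T)) := by
  refine ContinuousOn.sub (ContinuousOn.div continuousOn_const continuousOn_id ?_)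
    (ContinuousOn.div continuousOn_const (by fun_prop) ?_)
  · intro t ht
    exact ht.1.ne'
  · intro t ht
    exact sub_ne_zero.mpr ht.2.ne'

theorem integral_Psi {T : ℝ} (hT : 0 < T) : ∫ t in (0 : ℝ)..T, Psi T t = T / 2 := by
  have hsub : uIcc 0 T ⊆ Iio (2 * T) := by
    rw [uIcc_of_le hT.le]
    intro t ht
    have := ht.2
    simp only [mem_Iio]
    linarith
  have h : ∀ t ∈ uIcc 0 T, HasDerivAt (fun s => T ^ 2 / (2 * T - s)) (Psi T t) t := by
    intro t ht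
    have hu : 2 * T - t ≠ 0 := sub_ne_zero.mpr (ne_of_gt (hsub ht))
    have h1 := (hasDerivAt_const t (T ^ 2)).div (PsiFAux.hasDerivAt_u T t) hu
    refine HasDerivAt.congr_deriv (f := fun s => T ^ 2 / (2 * T - s)) h1 ?_
    unfold Psi
    ring
  rw [intervalIntegral.integral_eq_sub_of_hasDerivAt h
    ((continuousOn_Psi T).mono hsub).intervalIntegrable]
  rw [show 2 * T - T = T by ring, sub_zero]
  field_simp
  ring

end Pool.Agent.P.MP_56a1cd_gt
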