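import Pool.Agent.P.MP_56a1cd_gt.NeckA
import Pool.Agent.P.MP_56a1cd_gt.Choice
import Pool.Agent.P.MP_56a1cd_gt.PsiF

namespace Pool.Agent.P.MP_56a1cd_gt

open MeasureTheory Matrix Set Filter Topology
open scoped ContDiff ENNReal

variable {m n : ℕ}

/-! Lower bound for the curvature term in the neck. -/

namespace NeckCAux

theorem intSh {f : E 3 → ℝ} {α β : ℝ} (hf : ContinuousOn f (Shc α β)) {A : Set (E 3)}
    (hA : A ⊆ Shc α β) : IntegrableOn f A :=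
  (hf.integrableOn_compact (isCompact_Shc α β)).mono_set hA

theorem Sh_sub (α β : ℝ) : Sh α β ⊆ Shc α β := fun _ hx => ⟨hx.1.le, hx.2.le⟩

theorem sph0 {p : E 3} (hp : p ∈ sph) : p ≠ 0 :=
  ne_zero_of_nrm_pos (by rw [mem_sph_iff.1 hp]; exact one_pos)

theorem mem_ray {α β t : ℝ} {p : E 3} (hp : p ∈ sph) (ht : t ∈ Icc α β) :
    Real.exp t • p ∈ Shc α β := by
  constructor <;> rw [nrm_exp_smul t hp]
  · exact Real.exp_le_exp.2 ht.1
  · exact Real.exp_le_exp.2 ht.2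

theorem contV {φ : E 3 → ℝ} (hφ : Hom0 φ) (α β : ℝ) :
    ContinuousOn (fun x => Real.exp (2 * φ x) / nrm x ^ 3) (Shc α β) := by
  have c1 : ContinuousOn φ (Shc α β) :=
    hφ.sm.continuousOn.mono fun x hx => ne_zero_of_mem_Shc hx
  refine (Real.continuous_exp.comp_continuousOn (continuousOn_const.mul c1)).div
    (continuous_nrm.continuousOn.pow 3) fun x hx => ?_
  exact pow_ne_zero _ (nrm_pos (ne_zero_of_mem_Shc hx)).ne'

theorem V_nonneg (φ : E 3 → ℝ) (x : E 3) : 0 ≤ Real.exp (2 * φ x) / nrm x ^ 3 :=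
  div_nonneg (Real.exp_pos _).le (pow_nonneg (nrm_nonneg x) 3)

/-- The weighted flux changes little across the neck. -/
theorem flux_lower {φ ρ N u : E 3 → ℝ} (hφ : Hom0 φ) (hρ : Hom0 ρ) {B : Set (E 3)}
    (hB : IsOpen B) (h0 : ∀ x ∈ B, x ≠ 0) (hN : Sm B N) (hN0 : ∀ x ∈ B, 0 < N x) (hu : Sm B u)
    (hl : ∀ x ∈ B, lap (cyl φ N) u x = 0) {α β : ℝ} (hs : Shc α β ⊆ B) {R Vb : ℝ} (hR0 : 0 ≤ R)
    (hR : ∀ x, x ≠ 0 → |tg φ ρ ρ x| ≤ R)
    (hV : ∫ x in Sh α β, N x * (Real.exp (2 * φ x) / nrm x ^ 3) ≤ Vb) {t : ℝ}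
    (ht : t ∈ Icc α β) :
    (∫ p, ρ (Real.exp t • p) * rad u (Real.exp t • p) / N (Real.exp t • p) ∂aM φ) ≤
      (∫ p, ρ (Real.exp α • p) * rad u (Real.exp α • p) / N (Real.exp α • p) ∂aM φ) +
        √(R * Vb) * √(∫ x in Sh α β, gam (cyl φ N) u u x * vol (cyl φ N) x) := by
  have hm := isMet_cyl hφ hB h0 hN hN0
  have hρB : Sm B ρ := hρ.sm.mono h0
  have s1 : Shc α t ⊆ Shc α β := fun x hx => ⟨hx.1, hx.2.trans (Real.exp_le_exp.2 ht.2)⟩
  have s2 : Sh α t ⊆ Sh α β := fun x hx => ⟨hx.1, hx.2.trans_le (Real.exp_le_exp.2 ht.2)⟩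
  have s3 : Sh α β ⊆ B := (Sh_sub α β).trans hs
  have G := green_sh hφ hB h0 hN hN0 hρB hu ht.1 (s1.trans hs)
  have mt : MeasurableSet (Sh α t) := (isOpen_Sh α t).measurableSet
  have mb : MeasurableSet (Sh α β) := (isOpen_Sh α β).measurableSet
  have e1 : ∫ x in Sh α t, (gam (cyl φ N) ρ u x + ρ x * lap (cyl φ N) u x) * vol (cyl φ N) x =
      ∫ x in Sh α t, gam (cyl φ N) ρ u x * vol (cyl φ N) x :=
    setIntegral_congr_fun mt fun x hx => by simp only [hl x (s3 (s2 hx)), mul_zero, add_zero]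
  have cv : ContinuousOn (vol (cyl φ N)) (Shc α β) := hm.sm_vol.continuousOn.mono hs
  have c1 : ContinuousOn (fun x => gam (cyl φ N) ρ u x * vol (cyl φ N) x) (Shc α β) :=
    ((hm.sm_gam hρB hu).continuousOn.mono hs).mul cv
  have c2 : ContinuousOn (fun x => gam (cyl φ N) ρ ρ x * vol (cyl φ N) x) (Shc α β) :=
    ((hm.sm_gam hρB hρB).continuousOn.mono hs).mul cv
  have c3 : ContinuousOn (fun x => gam (cyl φ N) u u x * vol (cyl φ N) x) (Shc α β) :=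
    ((hm.sm_gam hu hu).continuousOn.mono hs).mul cv
  have c4 : ContinuousOn (fun x => N x * (Real.exp (2 * φ x) / nrm x ^ 3)) (Shc α β) :=
    (hN.continuousOn.mono hs).mul (contV hφ α β)
  have s4 : Sh α t ⊆ Shc α β := s2.trans (Sh_sub α β)
  have n2 : ∀ f : E 3 → ℝ, ∀ x ∈ Sh α β, 0 ≤ gam (cyl φ N) f f x * vol (cyl φ N) x :=
    fun f x hx => mul_nonneg (gam_nonneg (hm.pos x (s3 hx)) f) (vol_nonneg _ x)
  obtain ⟨-, b⟩ := abs_integral_le_sqrt (μ := volume.restrict (Sh α t))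
    ((c1.mono s4).aestronglyMeasurable mt) (intSh c2 s4) (intSh c3 s4)
    ((ae_restrict_iff' mt).2 (ae_of_all _ fun x hx => n2 ρ x (s2 hx)))
    ((ae_restrict_iff' mt).2 (ae_of_all _ fun x hx => n2 u x (s2 hx)))
    ((ae_restrict_iff' mt).2 (ae_of_all _ fun x hx => by
      have := mul_le_mul_of_nonneg_right (gam_sq_le (hm.pos x (s3 (s2 hx))) ρ u)
        (sq_nonneg (vol (cyl φ N) x))
      linarith))
  have b1 : ∫ x in Sh α t, gam (cyl φ N) ρ ρ x * vol (cyl φ N) x ≤ R * Vb := by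
    refine (setIntegral_mono_set (intSh c2 (Sh_sub α β))
      ((ae_restrict_iff' mb).2 (ae_of_all _ (n2 ρ))) s2.eventuallyLE).trans ?_
    refine le_trans ?_ (mul_le_mul_of_nonneg_left hV hR0)
    rw [← integral_const_mul]
    refine setIntegral_mono_on (intSh c2 (Sh_sub α β)) ((intSh c4 (Sh_sub α β)).const_mul R) mb
      fun x hx => ?_
    have hx0 := h0 x (s3 hx)
    have hNx := hN0 x (s3 hx)
    rw [gam_cyl hx0 hNx, vol_cyl hx0 hNx, hρ.rad hx0]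
    simp only [mul_zero, zero_div, zero_add]
    exact mul_le_mul_of_nonneg_right (abs_le.1 (hR x hx0)).2
      (mul_nonneg hNx.le (V_nonneg φ x))
  have b2 : ∫ x in Sh α t, gam (cyl φ N) u u x * vol (cyl φ N) x ≤
      ∫ x in Sh α β, gam (cyl φ N) u u x * vol (cyl φ N) x :=
    setIntegral_mono_set (intSh c3 (Sh_sub α β))
      ((ae_restrict_iff' mb).2 (ae_of_all _ (n2 u))) s2.eventuallyLE
  have b3 := b.trans (mul_le_mul (Real.sqrt_le_sqrt b1) (Real.sqrt_le_sqrt b2)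
    (Real.sqrt_nonneg _) (Real.sqrt_nonneg _))
  have b4 := (abs_le.1 b3).2
  rw [e1] at G
  linarith

/-- The pointwise lower bound. -/
theorem pointwise {Ψ k b L ρ w F T u θ q N ξ : ℝ} (h1 : 0 ≤ Ψ) (h2 : 1 - Ψ ≤ 2 * (T - u) / T)
    (hT : 0 < T) (hk : 0 ≤ k) (hb0 : 0 ≤ b) (hb1 : b ≤ 1) (hL : 0 < L) (hρ : 0 ≤ ρ) (hw : 0 ≤ w)
    (hF : F ≤ w) (hθ : 0 < θ) (hq : 0 ≤ q) (hρq : ρ ≤ q * ξ) (hN : N = (1 - b) + b * L * ξ) :
    b * L * (ρ * F) - q / T * (N * (T - u) ^ 2 / θ + θ * (N * w ^ 2)) ≤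
      Ψ * ((1 - b) * k + b * L * ρ) * w := by
  have hbL : 0 ≤ b * L := by positivity
  have a1 : b * L * ρ ≤ q * N := by
    have := mul_le_mul_of_nonneg_left hρq hbL
    have h3 : 0 ≤ q * (1 - b) := mul_nonneg hq (by linarith)
    rw [hN]
    nlinarith
  have a0 : 0 ≤ b * L * ρ := by positivity
  have a2 : 2 * ((T - u) * w) ≤ (T - u) ^ 2 / θ + θ * w ^ 2 := by
    have : (T - u) ^ 2 / θ + θ * w ^ 2 - 2 * ((T - u) * w) = (T - u - θ * w) ^ 2 / θ := by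
      field_simp
      ring
    have h4 : 0 ≤ (T - u - θ * w) ^ 2 / θ := by positivity
    linarith
  have a3 : (1 - Ψ) * w ≤ 1 / T * ((T - u) ^ 2 / θ + θ * w ^ 2) := by
    refine (mul_le_mul_of_nonneg_right h2 hw).trans ?_
    have : 2 * (T - u) / T * w = 1 / T * (2 * ((T - u) * w)) := by ring
    rw [this]
    exact mul_le_mul_of_nonneg_left a2 (by positivity)
  have a4 : b * L * ρ * ((1 - Ψ) * w) ≤ q * N * (1 / T * ((T - u) ^ 2 / θ + θ * w ^ 2)) :=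
    (mul_le_mul_of_nonneg_left a3 a0).trans
      (mul_le_mul_of_nonneg_right a1 (by positivity))
  have a5 : b * L * ρ * F ≤ b * L * ρ * w := mul_le_mul_of_nonneg_left hF a0
  have a6 : 0 ≤ Ψ * ((1 - b) * k) * w :=
    mul_nonneg (mul_nonneg h1 (mul_nonneg (by linarith) hk)) hw
  have a7 : q / T * (N * (T - u) ^ 2 / θ + θ * (N * w ^ 2)) =
      q * N * (1 / T * ((T - u) ^ 2 / θ + θ * w ^ 2)) := by ring
  rw [a7]
  nlinarith

theorem core {φ ξ ρ N u : E 3 → ℝ} (hφ : Hom0 φ) (hρ' : Hom0 ρ) (hK : ∀ x, x ≠ 0 → 0 ≤ Kf φ x)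
    (hρ : ∀ x, x ≠ 0 → 0 ≤ ρ x) {B : Set (E 3)}
    (hB : IsOpen B) (h0 : ∀ x ∈ B, x ≠ 0) (hN : Sm B N) (hN0 : ∀ x ∈ B, 0 < N x) (hu : Sm B u)
    (hl : ∀ x ∈ B, lap (cyl φ N) u x = 0) {α β : ℝ} (hab : α ≤ β) (hs : Shc α β ⊆ B) {R : ℝ}
    (hR0 : 0 ≤ R) (hR : ∀ x, x ≠ 0 → |tg φ ρ ρ x| ≤ R) {T θ q L ε : ℝ} (hT : 0 < T) (hθ : 0 < θ)
    (hq : 0 ≤ q) (hρq : ∀ x, x ≠ 0 → ρ x ≤ q * ξ x) {b : ℝ → ℝ} (hbc : Continuous b)
    (hb : ∀ t, 0 ≤ b t ∧ b t ≤ 1) (hL : 0 < L) (hthick : L * ∫ t in α..β, b t = ε)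
    (hlapse : ∀ x, N x = (1 - b (Real.log (nrm x))) + b (Real.log (nrm x)) * L * ξ x)
    (hcurv : ∀ x, x ≠ 0 → scal (cyl φ N) x / 2 * N x =
      (1 - b (Real.log (nrm x))) * Kf φ x + b (Real.log (nrm x)) * L * ρ x)
    (hPsi : ∀ x ∈ Shc α β, 0 ≤ Psi T (u x) ∧ Psi T (u x) ≤ 1 ∧ 1 - Psi T (u x) ≤ 2 * (T - u x) / T)
    (hle : ∀ x ∈ Shc α β, u x < 2 * T)
    (hth : ∀ p ∈ sph, ∫ t in α..β, N (Real.exp t • p) ≤ θ)
    (hdrop : ∀ p ∈ sph, ∀ t ∈ Icc α β, (T - u (Real.exp t • p)) ^ 2 ≤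
      θ * ∫ τ in α..β, N (Real.exp τ • p) * gam (cyl φ N) u u (Real.exp τ • p)) :
    0 ≤ ∫ x in Sh α β, Psi T (u x) * (scal (cyl φ N) x / 2) * √(gam (cyl φ N) u u x) *
        vol (cyl φ N) x ∧
      ε * (-(∫ p, ρ (Real.exp α • p) * rad u (Real.exp α • p) / N (Real.exp α • p) ∂aM φ) -
        √(R * (Ar φ * θ)) * √(∫ x in Sh α β, gam (cyl φ N) u u x * vol (cyl φ N) x)) -
        2 * q / T * (θ * ∫ x in Sh α β, gam (cyl φ N) u u x * vol (cyl φ N) x) ≤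
      ∫ x in Sh α β, Psi T (u x) * (scal (cyl φ N) x / 2) * √(gam (cyl φ N) u u x) *
        vol (cyl φ N) x := by
  have hm := isMet_cyl hφ hB h0 hN hN0
  have mb : MeasurableSet (Sh α β) := (isOpen_Sh α β).measurableSet
  have s0 := Sh_sub α β
  have hx0 : ∀ x ∈ Shc α β, x ≠ 0 := fun x hx => h0 x (hs hx)
  have cV := contV hφ α β
  have cN : ContinuousOn N (Shc α β) := hN.continuousOn.mono hs
  have cu : ContinuousOn u (Shc α β) := hu.continuousOn.mono hs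
  have cW : ContinuousOn (gam (cyl φ N) u u) (Shc α β) := (hm.sm_gam hu hu).continuousOn.mono hs
  have cρ : ContinuousOn ρ (Shc α β) := hρ'.sm.continuousOn.mono hx0
  have cK : ContinuousOn (Kf φ) (Shc α β) := hφ.Kf.sm.continuousOn.mono hx0
  have cr : ContinuousOn (rad u) (Shc α β) := (sm_rad hB hu).continuousOn.mono hs
  have cb : ContinuousOn (fun x : E 3 => b (Real.log (nrm x))) (Shc α β) :=
    hbc.comp_continuousOn (sm_log_nrm.continuousOn.mono hx0)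
  have cP : ContinuousOn (fun x => Psi T (u x)) (Shc α β) :=
    (continuousOn_Psi T).comp cu fun x hx => hle x hx
  have W0 : ∀ x ∈ Shc α β, 0 ≤ gam (cyl φ N) u u x := fun x hx => gam_nonneg (hm.pos x (hs hx)) u
  have c0 : ContinuousOn (fun x => Psi T (u x) * ((1 - b (Real.log (nrm x))) * Kf φ x +
      b (Real.log (nrm x)) * L * ρ x) * √(gam (cyl φ N) u u x)) (Shc α β) :=
    (cP.mul (((continuousOn_const.sub cb).mul cK).add ((cb.mul continuousOn_const).mul cρ))).mul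
      cW.sqrt
  have c1 : ContinuousOn (fun x => b (Real.log (nrm x)) * L * (ρ x * -(rad u x / N x)))
      (Shc α β) :=
    (cb.mul continuousOn_const).mul (cρ.mul (cr.div cN fun x hx => (hN0 x (hs hx)).ne').neg)
  have c2 : ContinuousOn (fun x => N x * (T - u x) ^ 2) (Shc α β) :=
    cN.mul ((continuousOn_const.sub cu).pow 2)
  have c3 : ContinuousOn (fun x => N x * gam (cyl φ N) u u x) (Shc α β) := cN.mul cW
  have e0 : ∫ x in Sh α β, Psi T (u x) * (scal (cyl φ N) x / 2) * √(gam (cyl φ N) u u x) *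
        vol (cyl φ N) x = ∫ x in Sh α β, Psi T (u x) * ((1 - b (Real.log (nrm x))) * Kf φ x +
      b (Real.log (nrm x)) * L * ρ x) * √(gam (cyl φ N) u u x) *
        (Real.exp (2 * φ x) / nrm x ^ 3) :=
    setIntegral_congr_fun mb fun x hx => by
      simp only [← hcurv x (hx0 x (s0 hx)), vol_cyl (hx0 x (s0 hx)) (hN0 x (hs (s0 hx)))]
      ring
  have e3 : ∫ x in Sh α β, gam (cyl φ N) u u x * vol (cyl φ N) x =
      ∫ x in Sh α β, N x * gam (cyl φ N) u u x * (Real.exp (2 * φ x) / nrm x ^ 3) :=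
    setIntegral_congr_fun mb fun x hx => by
      simp only [vol_cyl (hx0 x (s0 hx)) (hN0 x (hs (s0 hx)))]
      ring
  have hV : ∫ x in Sh α β, N x * (Real.exp (2 * φ x) / nrm x ^ 3) ≤ Ar φ * θ := by
    rw [integral_Sh' hφ hab cN, ← integral_const_aM]
    exact integral_mono_ae (integrable_aM hφ (continuousOn_ray hab cN))
      (integrable_aM hφ continuousOn_const) ((ae_sph φ).mono fun p hp => hth p hp)
  have FL := fun (t : ℝ) (ht : t ∈ Icc α β) => flux_lower hφ hρ' hB h0 hN hN0 hu hl hs hR0 hR hV ht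
  rw [e0]
  rw [e3] at FL ⊢
  refine ⟨setIntegral_nonneg mb fun x hx => ?_, ?_⟩
  · have h1 := (hPsi x (s0 hx)).1
    have h2 := hK x (hx0 x (s0 hx))
    have h3 := hρ x (hx0 x (s0 hx))
    have h4 := (hb (Real.log (nrm x))).1
    have h5 := sub_nonneg.2 (hb (Real.log (nrm x))).2
    have h6 := V_nonneg φ x
    positivity
  have m1 : ∫ x in Sh α β, (b (Real.log (nrm x)) * L * (ρ x * -(rad u x / N x)) *
        (Real.exp (2 * φ x) / nrm x ^ 3) -
      q / T * (1 / θ * (N x * (T - u x) ^ 2 * (Real.exp (2 * φ x) / nrm x ^ 3)) +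
        θ * (N x * gam (cyl φ N) u u x * (Real.exp (2 * φ x) / nrm x ^ 3)))) ≤
      ∫ x in Sh α β, Psi T (u x) * ((1 - b (Real.log (nrm x))) * Kf φ x +
      b (Real.log (nrm x)) * L * ρ x) * √(gam (cyl φ N) u u x) *
        (Real.exp (2 * φ x) / nrm x ^ 3) := by
    refine setIntegral_mono_on (intSh ((c1.mul cV).sub (continuousOn_const.mul
      ((continuousOn_const.mul (c2.mul cV)).add (continuousOn_const.mul (c3.mul cV))))) s0)
      (intSh (c0.mul cV) s0) mb fun x hx => ?_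
    have hxc := s0 hx
    have hF : -(rad u x / N x) ≤ √(gam (cyl φ N) u u x) := by
      refine (neg_le_abs _).trans (Real.abs_le_sqrt ?_)
      rw [gam_cyl (hx0 x hxc) (hN0 x (hs hxc)), div_pow, sq (rad u x)]
      linarith [tg_nonneg φ u x]
    have h1 := pointwise (hPsi x hxc).1 (hPsi x hxc).2.2 hT (hK x (hx0 x hxc))
      (hb (Real.log (nrm x))).1 (hb (Real.log (nrm x))).2 hL (hρ x (hx0 x hxc))
      (Real.sqrt_nonneg _) hF hθ hq (hρq x (hx0 x hxc)) (hlapse x)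
    rw [Real.sq_sqrt (W0 x hxc)] at h1
    have h2 := mul_le_mul_of_nonneg_right h1 (V_nonneg φ x)
    refine le_trans (le_of_eq ?_) h2
    ring
  have i1 : IntegrableOn (fun x => b (Real.log (nrm x)) * L * (ρ x * -(rad u x / N x)) *
      (Real.exp (2 * φ x) / nrm x ^ 3)) (Sh α β) := intSh (c1.mul cV) s0
  have i2 : IntegrableOn (fun x => N x * (T - u x) ^ 2 * (Real.exp (2 * φ x) / nrm x ^ 3))
      (Sh α β) := intSh (c2.mul cV) s0
  have i3 : IntegrableOn (fun x => N x * gam (cyl φ N) u u x * (Real.exp (2 * φ x) / nrm x ^ 3))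
      (Sh α β) := intSh (c3.mul cV) s0
  have i4 : IntegrableOn (fun x => 1 / θ * (N x * (T - u x) ^ 2 * (Real.exp (2 * φ x) / nrm x ^ 3)) +
      θ * (N x * gam (cyl φ N) u u x * (Real.exp (2 * φ x) / nrm x ^ 3))) (Sh α β) :=
    (Integrable.const_mul i2 _).add (Integrable.const_mul i3 _)
  rw [integral_sub i1 (Integrable.const_mul i4 _), integral_const_mul,
    integral_add (Integrable.const_mul i2 _) (Integrable.const_mul i3 _), integral_const_mul,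
    integral_const_mul] at m1
  have m2 : ∫ x in Sh α β, N x * (T - u x) ^ 2 * (Real.exp (2 * φ x) / nrm x ^ 3) ≤
      θ ^ 2 * ∫ x in Sh α β, N x * gam (cyl φ N) u u x * (Real.exp (2 * φ x) / nrm x ^ 3) := by
    rw [integral_Sh' hφ hab c2, integral_Sh' hφ hab c3, ← integral_const_mul]
    refine integral_mono_ae (integrable_aM hφ (continuousOn_ray hab c2))
      ((integrable_aM hφ (continuousOn_ray hab c3)).const_mul _) ((ae_sph φ).mono fun p hp => ?_)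
    have cray : ContinuousOn (fun t : ℝ => Real.exp t • p) (Icc α β) := by fun_prop
    have mray : MapsTo (fun t : ℝ => Real.exp t • p) (Icc α β) (Shc α β) := fun t ht =>
      mem_ray hp ht
    have j1 : IntervalIntegrable (fun t => N (Real.exp t • p) * (T - u (Real.exp t • p)) ^ 2)
        volume α β := (c2.comp cray mray).intervalIntegrable_of_Icc hab
    have j2 : IntervalIntegrable (fun t => N (Real.exp t • p)) volume α β :=
      (cN.comp cray mray).intervalIntegrable_of_Icc hab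
    have n1 : 0 ≤ ∫ τ in α..β, N (Real.exp τ • p) * gam (cyl φ N) u u (Real.exp τ • p) :=
      intervalIntegral.integral_nonneg hab fun τ hτ =>
        mul_nonneg (hN0 _ (hs (mray hτ))).le (W0 _ (mray hτ))
    have h1 := intervalIntegral.integral_mono_on hab j1 (j2.mul_const
      (θ * ∫ τ in α..β, N (Real.exp τ • p) * gam (cyl φ N) u u (Real.exp τ • p))) fun t ht =>
      mul_le_mul_of_nonneg_left (hdrop p hp t ht) (hN0 _ (hs (mray ht))).le
    rw [intervalIntegral.integral_mul_const] at h1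
    have h2 := mul_le_mul_of_nonneg_right (hth p hp) (mul_nonneg hθ.le n1)
    refine h1.trans (h2.trans (le_of_eq ?_))
    ring
  obtain ⟨J, hJ⟩ : ∃ J : ℝ, J =
      -(∫ p, ρ (Real.exp α • p) * rad u (Real.exp α • p) / N (Real.exp α • p) ∂aM φ) -
        √(R * (Ar φ * θ)) * √(∫ x in Sh α β, N x * gam (cyl φ N) u u x *
          (Real.exp (2 * φ x) / nrm x ^ 3)) := ⟨_, rfl⟩
  have m3 : ε * J ≤ ∫ x in Sh α β, b (Real.log (nrm x)) * L * (ρ x * -(rad u x / N x)) *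
        (Real.exp (2 * φ x) / nrm x ^ 3) := by
    rw [integral_Sh hφ hab c1, ← hthick]
    have e : L * (∫ t in α..β, b t) * J = ∫ t in α..β, b t * (L * J) := by
      rw [intervalIntegral.integral_mul_const]
      ring
    rw [e]
    refine intervalIntegral.integral_mono_on hab
      ((hbc.mul continuous_const).intervalIntegrable _ _)
      ((continuousOn_slice hφ c1).intervalIntegrable_of_Icc hab) fun t ht => ?_
    have e' : ∫ p, b (Real.log (nrm (Real.exp t • p))) * L * (ρ (Real.exp t • p) *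
        -(rad u (Real.exp t • p) / N (Real.exp t • p))) ∂aM φ = b t * (L *
        -(∫ p, ρ (Real.exp t • p) * rad u (Real.exp t • p) / N (Real.exp t • p) ∂aM φ)) := by
      rw [← integral_neg, ← integral_const_mul, ← integral_const_mul]
      refine integral_congr_ae ((ae_sph φ).mono fun p hp => ?_)
      simp only [nrm_exp_smul t hp, Real.log_exp]
      ring
    rw [e']
    refine mul_le_mul_of_nonneg_left (mul_le_mul_of_nonneg_left ?_ hL.le) (hb t).1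
    have := FL t ht
    linarith
  rw [← hJ]
  have m4 := mul_le_mul_of_nonneg_left m2 (by positivity : 0 ≤ q / T * (1 / θ))
  have e5 : ∀ Z : ℝ, q / T * (1 / θ) * (θ ^ 2 * Z) = q / T * (θ * Z) := fun Z => by
    field_simp
  rw [e5] at m4
  have e6 : ∀ Z : ℝ, 2 * q / T * Z = 2 * (q / T * Z) := fun Z => by ring
  rw [e6]
  nlinarith

end NeckCAux

theorem neck_c {φ ξ : E 3 → ℝ} (hφ : Hom0 φ) (hξ : Hom0 ξ) (hξ0 : ∀ x, x ≠ 0 → 0 < ξ x)
    (hK : ∀ x, x ≠ 0 → 0 ≤ Kf φ x) (hρ : ∀ x, x ≠ 0 → 0 ≤ Kf φ x * ξ x - L0 φ ξ x) (w₀ : ℝ) :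
    ∃ c : ℝ, 0 ≤ c ∧ ∀ (ε s : ℝ), 0 < ε → 0 < s → ∀ (K : Neck φ ξ ε s) (P₁ : Pot K.C₁),
      0 ≤ K.gain P₁.T P₁.G ∧
      ε * (w₀ * ∫ p, Kf φ p * ξ p ∂aM φ - c * √(∫ p, (K.C₁.fl P₁.G p - w₀) ^ 2 ∂aM φ) -
          c * √((ε * c + s) * K.en P₁.G)) - c / P₁.T * ((ε * c + s) * K.en P₁.G) ≤
        K.gain P₁.T P₁.G := by
  have hρ' : Hom0 (fun x => Kf φ x * ξ x - L0 φ ξ x) := (hφ.Kf.mul hξ).sub (hφ.L0 hξ)
  have iρ : ∫ p, (Kf φ p * ξ p - L0 φ ξ p) ∂aM φ = ∫ p, Kf φ p * ξ p ∂aM φ := by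
    rw [integral_sub (integrable_aM hφ (hφ.Kf.mul hξ).continuousOn)
      (integrable_aM hφ (hφ.L0 hξ).continuousOn), integral_L0 hφ hξ, sub_zero]
  obtain ⟨ρ, hρd⟩ : ∃ ρ : E 3 → ℝ, ρ = fun x => Kf φ x * ξ x - L0 φ ξ x := ⟨_, rfl⟩
  have hρx : ∀ x, Kf φ x * ξ x - L0 φ ξ x = ρ x := fun x => by rw [hρd]
  rw [← hρd] at hρ'
  simp only [hρx] at hρ iρ
  obtain ⟨M, hM0, hM⟩ := hξ.bdd
  obtain ⟨m₀, hm₀0, hm₀⟩ := hξ.exists_pos hξ0
  obtain ⟨R₁, hR₁0, hR₁⟩ := hρ'.bdd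
  obtain ⟨R₂, hR₂0, hR₂⟩ := (hφ.tg hρ' hρ').bdd
  have hA := Ar_pos hφ
  obtain ⟨q, hqd⟩ : ∃ q : ℝ, q = R₁ / m₀ := ⟨_, rfl⟩
  have hq0 : 0 ≤ q := by rw [hqd]; positivity
  have hρq : ∀ x, x ≠ 0 → ρ x ≤ q * ξ x := fun x hx => by
    have h1 := (abs_le.1 (hR₁ x hx)).2
    have h2 := mul_le_mul_of_nonneg_left (hm₀ x hx) hq0
    have h3 : q * m₀ = R₁ := by rw [hqd]; field_simp
    linarith
  obtain ⟨Q, hQd⟩ : ∃ Q : ℝ, Q = √(∫ p, ρ p ^ 2 ∂aM φ) := ⟨_, rfl⟩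
  have hQ0 : 0 ≤ Q := by rw [hQd]; exact Real.sqrt_nonneg _
  have hS0 : 0 ≤ √(R₂ * Ar φ) := Real.sqrt_nonneg _
  obtain ⟨c, hcd⟩ : ∃ c : ℝ, c = Q + M + 2 * q + √(R₂ * Ar φ) := ⟨_, rfl⟩
  have hc0 : 0 ≤ c := by rw [hcd]; positivity
  refine ⟨c, hc0, fun ε s hε hs K P => ?_⟩
  have hT := P.T_pos
  have hθ : 0 < ε * c + s := by positivity
  have hξθ : ∀ p ∈ sph, ε * ξ p + s ≤ ε * c + s := fun p hp => by
    have := (abs_le.1 (hM p (NeckCAux.sph0 hp))).2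
    have h2 : ξ p ≤ c := by linarith
    nlinarith
  have hab := K.lt.le
  have hBo := isOpen_Sh (K.C₁.a - K.C₁.h) (K.C₀.a + K.C₀.h)
  have hB0 : ∀ x ∈ Sh (K.C₁.a - K.C₁.h) (K.C₀.a + K.C₀.h), x ≠ 0 := fun x hx =>
    ne_zero_of_mem_Sh hx
  obtain ⟨hN, hN0, hmet⟩ := isMet_lapse hφ hξ hξ0 K.b_sm K.b_mem K.L_pos
  have hu := K.sm_comp P.sm
  have hsub := K.Shc_subset
  have hl : ∀ x ∈ Sh (K.C₁.a - K.C₁.h) (K.C₀.a + K.C₀.h),
      lap (cyl φ (lapse K.b K.L ξ)) (fun y => P.G (K.C₀.Φ y)) x = 0 := fun x hx => by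
    have h1 := (K.gam_Φ P.sm hx).2.1
    have h2 := P.harm _ (K.maps hx)
    rw [K.g_eq] at h2
    exact h1.trans h2
  have huM : ∀ x ∈ Shc K.C₁.a K.C₀.a, K.C₀.Φ x ∈ K.C₁.M := fun x hx => by
    rw [K.M_eq]
    exact Or.inr (mem_image_of_mem _ hx)
  have hdrop := fun (p : E 3) (hp : p ∈ sph) (t : ℝ) (ht : t ∈ Icc K.C₁.a K.C₀.a) =>
    K.drop hφ hξ hξ0 P hp ht
  have hth := fun (p : E 3) (hp : p ∈ sph) => K.thickness hξ hp
  have hcurv := fun (x : E 3) (hx : x ≠ 0) => neck_curv hφ hξ hξ0 K.b_sm K.b_mem K.L_pos hx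
  have hfl : ∀ p ∈ sph, ρ (Real.exp K.C₁.a • p) *
      rad (fun y => P.G (K.C₀.Φ y)) (Real.exp K.C₁.a • p) / lapse K.b K.L ξ (Real.exp K.C₁.a • p) =
      -(ρ p * K.C₁.fl P.G p) := fun p hp => by
    rw [hρ'.hom p _ (Real.exp_pos _), Cap.fl, K.Φ_eq, K.N₁, lapse, nrm_exp_smul _ hp, Real.log_exp,
      K.b_one _ le_rfl, hξ.hom p _ (Real.exp_pos _)]
    ring
  have hlapse : ∀ x, lapse K.b K.L ξ x =
      (1 - K.b (Real.log (nrm x))) + K.b (Real.log (nrm x)) * K.L * ξ x := fun x => rfl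
  have hPsi : ∀ x ∈ Shc K.C₁.a K.C₀.a, _ := fun x hx =>
    Psi_mem hT (P.pos _ (huM x hx)).le (P.le _ (huM x hx))
  have hle : ∀ x ∈ Shc K.C₁.a K.C₀.a, P.G (K.C₀.Φ x) < 2 * P.T := fun x hx => by
    have := P.le _ (huM x hx)
    linarith
  have cfl := K.C₁.continuousOn_fl P.sm
  simp only [hρx] at hcurv
  obtain ⟨r1, r2⟩ := NeckCAux.core hφ hρ' hK hρ hBo hB0 (hN.mono hB0) (fun x hx => hN0 x (hB0 x hx))
    hu hl hab hsub hR₂0 hR₂ hT hθ hq0 hρq K.b_sm.continuous K.b_mem K.L_pos K.thick hlapse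
    hcurv hPsi hle (fun p hp => (hth p hp).trans (hξθ p hp))
    (fun p hp t ht => (hdrop p hp t ht).trans (mul_le_mul_of_nonneg_right (hξθ p hp)
      (intervalIntegral.integral_nonneg hab fun τ hτ => mul_nonneg
        (hN0 _ (hB0 _ (hsub (NeckCAux.mem_ray hp hτ)))).le
        (gam_nonneg (hmet.pos _ (hB0 _ (hsub (NeckCAux.mem_ray hp hτ)))) _))))
  refine ⟨r1, le_trans ?_ r2⟩
  have cd : ContinuousOn (fun p => K.C₁.fl P.G p - w₀) sph := cfl.sub continuousOn_const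
  have id : Integrable (fun p => ρ p * (K.C₁.fl P.G p - w₀)) (aM φ) :=
    integrable_aM hφ (hρ'.continuousOn.mul cd)
  have e1 : ∫ p, ρ (Real.exp K.C₁.a • p) *
      rad (fun y => P.G (K.C₀.Φ y)) (Real.exp K.C₁.a • p) / lapse K.b K.L ξ (Real.exp K.C₁.a • p)
      ∂aM φ = -(w₀ * ∫ p, ρ p ∂aM φ + ∫ p, ρ p * (K.C₁.fl P.G p - w₀) ∂aM φ) := by
    rw [← integral_const_mul, ← integral_add ((integrable_aM hφ hρ'.continuousOn).const_mul _)
      id, ← integral_neg]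
    refine integral_congr_ae ((ae_sph φ).mono fun p hp => ?_)
    simp only [hfl p hp]
    ring
  have e2 := (abs_le.1 (abs_integral_mul_le (memLp_aM hφ hρ'.continuousOn)
    (memLp_aM hφ cd))).1
  rw [← hQd] at e2
  rw [e1, iρ]
  have hE : 0 ≤ K.en P.G := setIntegral_nonneg (isOpen_Sh _ _).measurableSet fun x hx =>
    mul_nonneg (gam_nonneg (hmet.pos _ (ne_zero_of_mem_Sh hx)) _) (vol_nonneg _ _)
  have e3 : Q * √(∫ p, (K.C₁.fl P.G p - w₀) ^ 2 ∂aM φ) ≤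
      c * √(∫ p, (K.C₁.fl P.G p - w₀) ^ 2 ∂aM φ) :=
    mul_le_mul_of_nonneg_right (by linarith) (Real.sqrt_nonneg _)
  have e4 : √(R₂ * (Ar φ * (ε * c + s))) * √(K.en P.G) ≤ c * √((ε * c + s) * K.en P.G) := by
    rw [← mul_assoc, Real.sqrt_mul (by positivity) (ε * c + s), Real.sqrt_mul hθ.le, mul_assoc]
    exact mul_le_mul_of_nonneg_right (by linarith) (by positivity)
  have e5 : 2 * q / P.T * ((ε * c + s) * K.en P.G) ≤ c / P.T * ((ε * c + s) * K.en P.G) :=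
    mul_le_mul_of_nonneg_right (div_le_div_of_nonneg_right (by linarith) hT.le) (by positivity)
  change _ ≤ ε * (_ - _ * √(K.en P.G)) - _ * (_ * K.en P.G)
  refine sub_le_sub (mul_le_mul_of_nonneg_left ?_ hε.le) e5
  linarith

end Pool.Agent.P.MP_56a1cd_gt
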