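import Pool.Agent.P.MP_56a1cd_gt.CapD

namespace Pool.Agent.P.MP_56a1cd_gt

open MeasureTheory Matrix Set Filter Topology
open scoped ContDiff ENNReal

variable {m n : ℕ}

namespace NeckExAux

theorem Sh_mono {a b c d : ℝ} (h1 : c ≤ a) (h2 : b ≤ d) : Sh a b ⊆ Sh c d := fun _ hx =>
  ⟨(Real.exp_le_exp.2 h1).trans_lt hx.1, hx.2.trans_le (Real.exp_le_exp.2 h2)⟩

theorem exists_b (a : ℝ) {k : ℝ} (hk : 0 < k) : ∃ b : ℝ → ℝ, ContDiff ℝ ∞ b ∧
    (∀ t, 0 ≤ b t ∧ b t ≤ 1) ∧ (∀ t, t ≤ a - k / 2 → b t = 1) ∧ (∀ t, a - k / 4 ≤ t → b t = 0) ∧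
    0 < ∫ t in (a - 5 * k / 8)..a, b t := by
  have h1 : ContDiff ℝ ∞ fun t => 1 - stp (4 * (t - a) / k + 3) :=
    contDiff_const.sub (stp_sm.comp (by fun_prop))
  have h2 : ∀ t, 0 ≤ 1 - stp (4 * (t - a) / k + 3) ∧ 1 - stp (4 * (t - a) / k + 3) ≤ 1 :=
    fun t => ⟨sub_nonneg.2 (stp_mem _).2, sub_le_self _ (stp_mem _).1⟩
  have h3 : ∀ t, t ≤ a - k / 2 → 1 - stp (4 * (t - a) / k + 3) = 1 := fun t ht => by
    have : 4 * (t - a) / k ≤ -2 := by
      rw [div_le_iff₀ hk]
      linarith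
    rw [stp_zero (by linarith), sub_zero]
  refine ⟨_, h1, h2, h3, fun t ht => ?_, intervalIntegral.integral_pos (by linarith)
    h1.continuous.continuousOn (fun t _ => (h2 t).1)
    ⟨a - 5 * k / 8, ⟨le_rfl, by linarith⟩, by rw [h3 _ (by linarith)]; exact one_pos⟩⟩
  have : -1 ≤ 4 * (t - a) / k := by
    rw [le_div_iff₀ hk]
    linarith
  rw [stp_one (by linarith), sub_self]

end NeckExAux

open NeckExAux in
theorem neck_exists {φ ξ : E 3 → ℝ} (hφ : Hom0 φ) (hξ : Hom0 ξ) (hξ0 : ∀ x, x ≠ 0 → 0 < ξ x)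
    (C : Cap φ) (hN : C.N = fun _ => 1) {ε s : ℝ} (hε : 0 < ε) (hs : 0 < s) :
    ∃ K : Neck φ ξ ε s, K.C₀.M = C.M ∧ ∀ x ∈ K.C₀.Ω, K.C₀.g x = C.g x := by
  have hh := C.h_pos
  obtain ⟨k, hk, hkh, hks⟩ : ∃ k, 0 < k ∧ k ≤ C.h ∧ k ≤ s :=
    ⟨min C.h s, lt_min hh hs, min_le_left _ _, min_le_right _ _⟩
  obtain ⟨b, b1, b2, b3, b4, b5⟩ := exists_b C.a hk
  obtain ⟨L, hL, hLε⟩ : ∃ L, 0 < L ∧ L * ∫ t in (C.a - 5 * k / 8)..C.a, b t = ε :=
    ⟨_, div_pos hε b5, div_mul_cancel₀ _ b5.ne'⟩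
  have l0 : ∀ x : E 3, C.a - k / 4 < Real.log (nrm x) → cyl φ (lapse b L ξ) x = cyl φ C.N x :=
    fun x hx => cyl_congr (by rw [lapse, b4 _ hx.le, hN]; ring)
  have l1 : ∀ x : E 3, Real.log (nrm x) < C.a - k / 2 →
      cyl φ (lapse b L ξ) x = cyl φ (fun x => L * ξ x) x :=
    fun x hx => cyl_congr (by rw [lapse, b3 _ hx.le]; ring)
  obtain ⟨g, g1, g2, g3⟩ := patch (C.met'.mono isOpen_interior subset_union_left) C.chart'
    ((isMet_lapse hφ hξ hξ0 b1 b2 hL).2.2.mono C.isOpen_W fun x hx => C.ne_zero_of_mem_W hx)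
    (empty_subset _) (by simp) fun y hy _ hi => by
      have h1 := (Real.lt_log_iff_exp_lt (nrm_pos (C.ne_zero_of_mem_W hy))).2
        ((C.mem_interior_iff hy).1 hi)
      rw [l0 y (by linarith), C.cylΦ y hy]
  replace g3 : ∀ x ∈ interior C.M, g x = C.g x := fun x hx => g3 x hx (by simp)
  have w0 : Sh (C.a - k / 4) (C.a + k / 4) ⊆ C.W := Sh_mono (by linarith) (by linarith)
  have w1 : Sh (C.a - 5 * k / 8 - k / 8) (C.a - 5 * k / 8 + k / 8) ⊆ C.W :=
    Sh_mono (by linarith) (by linarith)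
  have w2 : Sh (C.a - 5 * k / 8 - k / 8) (C.a + k / 4) ⊆ C.W :=
    Sh_mono (by linarith) (by linarith)
  have w3 : Sh (C.a - 5 * k / 8) (C.a + C.h) ⊆ C.W := Sh_mono (by linarith) le_rfl
  have w4 : Shc (C.a - 5 * k / 8) C.a ⊆ C.W := C.Shc_subset_W (by linarith) (by linarith)
  have hF : ∀ x ∈ (Ext C.r : Set (E 3)), pull C.F g x = 1 := fun x hx => by
    rw [← C.flatF x hx, pull, pull, g3 _ (C.mapsF hx)]
  have hK : IsCompact (C.Φ '' Shc (C.a - 5 * k / 8) C.a) :=
    (isCompact_Shc _ _).image_of_continuousOn (C.chart'.sm.continuousOn.mono w4)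
  have hcl := C.closed.union hK.isClosed
  have hO : C.Φ '' Sh (C.a - 5 * k / 8) (C.a + C.h) ⊆
      interior (C.M ∪ C.Φ '' Shc (C.a - 5 * k / 8) C.a) := by
    refine interior_maximal ?_ (C.chart'.isOpen_image (isOpen_Sh _ _) w3)
    rintro _ ⟨x, hx, rfl⟩
    rcases le_total (Real.exp C.a) (nrm x) with h | h
    · exact Or.inl ((C.side x (w3 hx)).2 h)
    · exact Or.inr ⟨x, ⟨hx.1.le, h⟩, rfl⟩
  have hI : interior C.M ⊆ interior (C.M ∪ C.Φ '' Shc (C.a - 5 * k / 8) C.a) :=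
    interior_mono subset_union_left
  have e1 : Real.exp (C.a - 5 * k / 8) < Real.exp C.a := Real.exp_lt_exp.2 (by linarith)
  have e2 : Real.exp C.a < Real.exp (C.a + C.h) := Real.exp_lt_exp.2 (by linarith)
  have p0 : ∀ x ∈ Sh (C.a - k / 4) (C.a + k / 4), pull C.Φ g x = cyl φ C.N x := fun x hx =>
    (g2 x (w0 hx)).trans (l0 x (mem_Sh_iff.1 hx).2.1)
  let C₀ : Cap φ :=
    { C with
      g := g
      h := k / 4
      h_pos := by linarith
      met := g1.mono (isOpen_interior.union (C.chart'.isOpen_image (isOpen_Sh _ _) w0))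
        (union_subset_union_right _ (image_mono w0))
      chart := C.chart'.mono (isOpen_Sh _ _) w0
      side := fun x hx => C.side x (w0 hx)
      cylΦ := p0
      flatF := hF }
  let C₁ : Cap φ :=
    { M := C.M ∪ C.Φ '' Shc (C.a - 5 * k / 8) C.a
      g := g
      Φ := C.Φ
      F := C.F
      N := fun x => L * ξ x
      a := C.a - 5 * k / 8
      h := k / 8
      r := C.r
      h_pos := by linarith
      r_pos := C.r_pos
      closed := hcl
      bdd := C.bdd.subset (compl_subset_compl.2 subset_union_left)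
      met := g1.mono (isOpen_interior.union (C.chart'.isOpen_image (isOpen_Sh _ _) w1))
        (union_subset (interior_subset.trans (union_subset C.M_sub
          ((image_mono w4).trans subset_union_right))) ((image_mono w1).trans subset_union_right))
      chart := C.chart'.mono (isOpen_Sh _ _) w1
      side := fun x hx => by
        refine ⟨?_, fun h => Or.inr ⟨x, ⟨h, hx.2.le.trans (Real.exp_le_exp.2 (by linarith))⟩, rfl⟩⟩
        rintro (h | ⟨y, hy, e⟩)
        · exact e1.le.trans ((C.side x (w1 hx)).1 h)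
        · exact C.chart'.inj (w4 hy) (w1 hx) e ▸ hy.1
      front := fun z hz => by
        rw [hcl.frontier_eq] at hz
        rcases hz.1 with h | ⟨y, hy, rfl⟩
        · obtain ⟨x, hx, rfl⟩ := C.front (C.closed.frontier_eq.ge ⟨h, fun h' => hz.2 (hI h')⟩)
          exact (hz.2 (hO ⟨x, ⟨e1.trans_eq hx.symm, hx.trans_lt e2⟩, rfl⟩)).elim
        · refine ⟨y, ?_, rfl⟩
          by_contra hne
          exact hz.2 (hO ⟨y, ⟨lt_of_le_of_ne hy.1 (Ne.symm hne), hy.2.trans_lt e2⟩, rfl⟩)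
      N_hom := ⟨contDiffOn_const.mul hξ.sm, fun x t ht => by rw [hξ.hom x t ht]⟩
      N_pos := fun x hx => mul_pos hL (hξ0 x hx)
      cylΦ := fun x hx => (g2 x (w1 hx)).trans (l1 x (by linarith [(mem_Sh_iff.1 hx).2.2]))
      chartF := C.chartF
      mapsF := fun x hx => hI (C.mapsF hx)
      flatF := hF
      core := fun r' hr => ((C.core r' hr).union hK.isBounded).subset fun z hz =>
        hz.1.imp (fun h => ⟨h, hz.2⟩) id
      proper := C.proper }
  refine ⟨{ C₀ := C₀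
            C₁ := C₁
            b := b
            L := L
            g_eq := rfl
            Φ_eq := rfl
            N₀ := hN
            N₁ := rfl
            L_pos := hL
            lt := sub_lt_self _ (by linarith)
            short := (sub_sub_cancel _ _).trans_le (by linarith)
            b_sm := b1
            b_mem := b2
            b_one := fun t (ht : t ≤ C.a - 5 * k / 8) => b3 t (by linarith)
            b_zero := fun t (ht : C.a ≤ t) => b4 t (by linarith)
            thick := hLε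
            chart := C.chart'.mono (isOpen_Sh _ _) w2
            maps := fun x hx => ?_
            cylΦ := fun x hx => g2 x (w2 hx)
            M_eq := rfl
            disj := Set.disjoint_left.2 ?_
            Ω_sub := union_subset (hI.trans subset_union_left) ((image_mono
              (Sh_mono (by change C.a - 5 * k / 8 ≤ C.a - k / 4; linarith)
                (by change C.a + k / 4 ≤ C.a + C.h; linarith))).trans
              (hO.trans subset_union_left)) }, rfl, ?_⟩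
  · rcases lt_or_ge (Real.exp (C.a - 5 * k / 8)) (nrm x) with h | h
    · exact Or.inl (hO ⟨x, ⟨h, (w2 hx).2⟩, rfl⟩)
    · exact Or.inr ⟨x, ⟨hx.1, h.trans_lt (Real.exp_lt_exp.2 (lt_add_of_pos_right _ C₁.h_pos))⟩, rfl⟩
  · rintro _ h ⟨x, hx, rfl⟩
    exact not_le.2 hx.2 ((C.side x (w4 ⟨hx.1.le, hx.2.le⟩)).1 h)
  · rintro z (h | ⟨y, hy, rfl⟩)
    · exact g3 z h
    · have h1 := C.chart'.pull_inv g (mem_image_of_mem _ (w0 hy))
      have h2 := C.chart'.pull_inv C.g (mem_image_of_mem _ (w0 hy))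
      rw [pull, C.chart'.left_inv (w0 hy)] at h1 h2
      rw [p0 y hy, ← C.cylΦ y (w0 hy)] at h1
      exact h1.symm.trans h2

end Pool.Agent.P.MP_56a1cd_gt
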