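import Pool.Agent.P.MP_56a1cd_gt.Green
import Pool.Agent.P.MP_56a1cd_gt.Wmp

namespace Pool.Agent.P.MP_56a1cd_gt

open MeasureTheory Matrix Set Filter Topology
open scoped ContDiff ENNReal

variable {m n : ℕ}

/-! PLAN. `bdry`: `refl_of_nrm`. `mem`: `U ∘ F → 0`; `wmp` on the compact sets `M \\ F '' Ext r'` (`isCompact_core`,
`frontier_core`, `frontier_eq`) for `U` and `-U`, let `r' → ∞` (a point of `M` is in these sets for large `r'` by
`exists_far`). `flux_pos`: let `m = ∫ fl U`. For `β t = ∫ τ in 0..t, stp (τ / σ)`, `green` gives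
`∫ β'(U) gam U U vol = β 1 * m`. So `m ≥ 0`, and if `m = 0` then the continuous nonnegative integrand vanishes on
`interior M` for every `σ`, so `fderiv U = 0` on `{U > 0} ∩ interior M`. Then the continuous function equal to `U` on `M` and to
one off `M` has the open and closed level set `{1}` (near a boundary point use rays in the chart `Φ`:
`hasDerivAt_ray`, `mem_interior_iff`), which contradicts `cpt`. -/

namespace PotAAux

variable {φ : E 3 → ℝ} {C : Cap φ} {U : E 3 → ℝ}

theorem decay (h : PrePot C U) {ε : ℝ} (hε : 0 < ε) :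
    ∃ r₀, C.r < r₀ ∧ ∀ x, r₀ ≤ nrm x → |U (C.F x)| ≤ ε := by
  obtain ⟨c, K, r', hr', H⟩ := h.asym
  refine ⟨max r' (max 1 ((|c| + |K|) / ε)), lt_of_lt_of_le hr' (le_max_left _ _), fun x hx => ?_⟩
  have h1 : r' ≤ nrm x := le_trans (le_max_left _ _) hx
  have h2 : 1 ≤ nrm x := le_trans (le_trans (le_max_left _ _) (le_max_right _ _)) hx
  have h3 : (|c| + |K|) / ε ≤ nrm x :=
    le_trans (le_trans (le_max_right _ _) (le_max_right _ _)) hx
  have h0 : 0 < nrm x := by linarith
  have h4 := (H x h1).1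
  have h5 : K / nrm x ^ 2 ≤ |K| / nrm x := by
    refine le_trans (div_le_div_of_nonneg_right (le_abs_self K) (by positivity)) ?_
    exact div_le_div_of_nonneg_left (abs_nonneg K) h0 (by nlinarith)
  have h6 : |c / nrm x| = |c| / nrm x := by rw [abs_div, abs_of_pos h0]
  have h7 : |c| / nrm x + |K| / nrm x ≤ ε := by
    rw [← add_div, div_le_iff₀ h0]
    rw [div_le_iff₀ hε] at h3
    linarith
  have h8 := abs_sub_abs_le_abs_sub (U (C.F x)) (c / nrm x)
  linarith

theorem bdry (h : PrePot C U) {p : E 3} (hp : p ∈ sph) : U (C.bp p) = 1 := by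
  have hW : Real.exp C.a • p ∈ C.W :=
    C.exp_smul_mem_W hp (by linarith [C.h_pos]) (by linarith [C.h_pos])
  have := h.odd _ hW
  rw [refl_of_nrm _ (nrm_exp_smul _ hp)] at this
  unfold Cap.bp
  linarith

theorem front (h : PrePot C U) {y : E 3} (hy : y ∈ frontier C.M) : U y = 1 := by
  rw [C.frontier_eq] at hy
  obtain ⟨p, hp, rfl⟩ := hy
  exact bdry h hp

theorem bound (h : PrePot C U) {a c ε : ℝ} (hε : 0 < ε) (h1 : a ≤ c) (h2 : |a| * ε ≤ c) {x : E 3}
    (hx : x ∈ C.M) : a * U x ≤ c := by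
  obtain ⟨r₀, hr₀, H₀⟩ := decay h hε
  obtain ⟨r₁, -, H₁⟩ := C.exists_far (K := {x}) Bornology.isBounded_singleton
  have hr : C.r < max r₀ r₁ := lt_of_lt_of_le hr₀ (le_max_left _ _)
  have hsub : C.M \ C.F '' Ext (max r₀ r₁) ⊆ C.Ω := fun y hy => C.M_sub hy.1
  refine wmp (n := 2) C.met' (u := fun y => a * U y) (contDiffOn_const.mul h.sm)
    (C.isCompact_core hr) hsub (fun y hy => ?_) (fun y hy => ?_) x ⟨hx, ?_⟩
  · rw [lap_cmul, h.harm y (hsub (interior_subset hy)), mul_zero]
  · rcases C.frontier_core hr hy with hy | ⟨z, hz, rfl⟩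
    · simp only [front h hy, mul_one]
      exact h1
    · have hz' : nrm z = max r₀ r₁ := hz
      have := H₀ z (hz' ▸ le_max_left _ _)
      calc a * U (C.F z) ≤ |a * U (C.F z)| := le_abs_self _
        _ = |a| * |U (C.F z)| := abs_mul _ _
        _ ≤ |a| * ε := mul_le_mul_of_nonneg_left this (abs_nonneg a)
        _ ≤ c := h2
  · rintro ⟨z, hz, rfl⟩
    have hz' : max r₀ r₁ < nrm z := hz
    exact H₁ z (le_trans (le_max_right _ _) hz'.le) rfl

theorem cpt (h : PrePot C U) {t : ℝ} (ht : 0 < t) : IsCompact {x | x ∈ C.M ∧ t ≤ U x} := by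
  obtain ⟨r₀, hr₀, H₀⟩ := decay h (half_pos ht)
  refine (C.isCompact_core hr₀).of_isClosed_subset ?_ ?_
  · exact (h.sm.continuousOn.mono C.M_sub).preimage_isClosed_of_isClosed C.closed isClosed_Ici
  · rintro x ⟨hx, hxt⟩
    refine ⟨hx, ?_⟩
    rintro ⟨z, hz, rfl⟩
    have hz' : r₀ < nrm z := hz
    have := le_trans (le_abs_self _) (H₀ z hz'.le)
    linarith

/-- The test profile. -/
noncomputable def bt (t : ℝ) : ℝ := expNegInvGlue (t - 1 / 2)

theorem bt_sm : ContDiff ℝ ∞ bt := expNegInvGlue.contDiff.comp (contDiff_id.sub contDiff_const)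

theorem bt_zero {t : ℝ} (h : t ≤ 1 / 2) : bt t = 0 := expNegInvGlue.zero_of_nonpos (by linarith)

theorem bt_pos : 0 < bt 1 := expNegInvGlue.pos_of_pos (by norm_num)

theorem bt_mono : Monotone bt := fun _ _ h => expNegInvGlue.monotone (by linarith)

theorem bt_der (t : ℝ) : HasDerivAt bt (deriv bt t) t :=
  (bt_sm.differentiable (by simp) t).hasDerivAt

/-- A function with vanishing derivative in the interior has its boundary value everywhere. -/
theorem const_of_fderiv {V : E 3 → ℝ} (hV : Sm C.Ω V) {c : ℝ} (hc : ∀ y ∈ frontier C.M, V y = c)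
    (h0 : ∀ x ∈ interior C.M, fderiv ℝ V x = 0) : ∀ x ∈ C.M, V x = c := by
  intro x hx
  by_cases hi : x ∈ interior C.M
  swap
  · exact hc x (by rw [C.closed.frontier_eq]; exact ⟨hx, hi⟩)
  set O := connectedComponentIn (interior C.M) x with hO
  have hOo : IsOpen O := isOpen_interior.connectedComponentIn
  have hOs : O ⊆ interior C.M := connectedComponentIn_subset _ _
  have hxO : x ∈ O := mem_connectedComponentIn hi
  have hOΩ : O ⊆ C.Ω := fun y hy => C.M_sub (interior_subset (hOs hy))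
  have hconst : ∀ y ∈ O, V y = V x := fun y hy =>
    hOo.is_const_of_fderiv_eq_zero (𝕜 := ℝ) isPreconnected_connectedComponentIn
      (fun z hz => (sm_da C.isOpen_Ω hV (hOΩ hz)).differentiableWithinAt)
      (fun z hz => h0 z (hOs hz)) hy hxO
  have hne : O ≠ univ := by
    intro e
    obtain ⟨z, hz⟩ := C.compl_nonempty
    exact hz (interior_subset (hOs (e ▸ mem_univ z)))
  obtain ⟨y, hy⟩ := nonempty_frontier_iff.2 ⟨⟨x, hxO⟩, hne⟩
  rw [hOo.frontier_eq] at hy
  have hyM : y ∈ C.M := by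
    have := closure_mono (hOs.trans interior_subset) hy.1
    rwa [C.closed.closure_eq] at this
  have hyi : y ∉ interior C.M := by
    intro hyi
    have ho : IsOpen (connectedComponentIn (interior C.M) y) :=
      isOpen_interior.connectedComponentIn
    obtain ⟨z, hz1, hz2⟩ := mem_closure_iff.1 hy.1 _ ho (mem_connectedComponentIn hyi)
    apply hy.2
    rw [hO, connectedComponentIn_eq hz2, ← connectedComponentIn_eq hz1]
    exact mem_connectedComponentIn hyi
  have hyc : V y = c := hc y (by rw [C.closed.frontier_eq]; exact ⟨hyM, hyi⟩)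
  have hca : ContinuousAt V y := (sm_da C.isOpen_Ω hV (C.M_sub hyM)).continuousAt
  have h1 : V y ∈ closure (V '' O) := hca.continuousWithinAt.mem_closure_image hy.1
  have h2 : V '' O ⊆ {V x} := by
    rintro _ ⟨z, hz, rfl⟩
    exact hconst z hz
  have h3 := closure_mono h2 h1
  rw [closure_singleton, mem_singleton_iff] at h3
  rw [← h3, hyc]

end PotAAux

namespace PrePot

variable {φ : E 3 → ℝ} {C : Cap φ} {U : E 3 → ℝ}

theorem bdry (h : PrePot C U) {p : E 3} (hp : p ∈ sph) : U (C.bp p) = 1 := PotAAux.bdry h hp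

theorem mem (h : PrePot C U) : ∀ x ∈ C.M, 0 ≤ U x ∧ U x ≤ 1 := by
  intro x hx
  constructor
  · refine le_of_forall_pos_le_add fun ε hε => ?_
    have := PotAAux.bound h (a := -1) (c := ε) hε (by linarith) (by simp) hx
    linarith
  · have := PotAAux.bound h (a := 1) (c := 1) one_pos le_rfl (by simp) hx
    linarith

theorem cpt (h : PrePot C U) {t : ℝ} (ht : 0 < t) : IsCompact {x | x ∈ C.M ∧ t ≤ U x} :=
  PotAAux.cpt h ht

open PotAAux in
theorem flux_pos (hφ : Hom0 φ) (h : PrePot C U) : 0 < ∫ p, C.fl U p ∂aM φ := by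
  by_contra hm
  rw [not_lt] at hm
  have hV : Sm C.Ω (fun x => bt (U x)) := bt_sm.comp_contDiffOn h.sm
  have hK := PotAAux.cpt h (t := 1 / 2) (by norm_num)
  obtain ⟨hint, heq⟩ := green hφ C hV h.sm hK (fun x hx hn => bt_zero (by
    by_contra hlt
    exact hn ⟨hx, (not_le.1 hlt).le⟩))
  have hR : ∫ p, bt (U (C.bp p)) * C.fl U p ∂aM φ = bt 1 * ∫ p, C.fl U p ∂aM φ := by
    rw [← integral_const_mul]
    refine integral_congr_ae ((ae_sph φ).mono fun p hp => ?_)
    simp only [PotAAux.bdry h hp]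
  set f : E 3 → ℝ := fun x =>
    (gam C.g (fun x => bt (U x)) U x + bt (U x) * lap C.g U x) * vol C.g x with hf
  have hfe : ∀ x ∈ C.Ω, f x = deriv bt (U x) * gam C.g U U x * vol C.g x := by
    intro x hx
    simp only [hf]
    rw [gam_comp_left C.g (sm_da C.isOpen_Ω h.sm hx) (bt_der _), h.harm x hx, mul_zero, add_zero]
  have hf0 : ∀ x ∈ C.Ω, 0 ≤ f x := by
    intro x hx
    rw [hfe x hx]
    exact mul_nonneg (mul_nonneg bt_mono.deriv_nonneg (gam_nonneg (C.met'.pos x hx) U))
      (vol_nonneg _ _)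
  have hae : 0 ≤ᵐ[volume.restrict C.M] f :=
    (ae_restrict_iff' C.closed.measurableSet).2 (Eventually.of_forall fun x hx =>
      hf0 x (C.M_sub hx))
  have hz : ∫ x in C.M, f x = 0 := by
    refine le_antisymm ?_ (integral_nonneg_of_ae hae)
    rw [heq, hR]
    exact mul_nonpos_of_nonneg_of_nonpos bt_pos.le hm
  have hz' : f =ᵐ[volume.restrict C.M] 0 := (integral_eq_zero_iff_of_nonneg_ae hae hint).1 hz
  have hz'' : f =ᵐ[volume.restrict (interior C.M)] 0 :=
    ae_restrict_of_ae_restrict_of_subset interior_subset hz'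
  have hiΩ : interior C.M ⊆ C.Ω := interior_subset.trans C.M_sub
  have hfc : ContinuousOn f C.Ω :=
    (((C.met'.sm_gam hV h.sm).add (hV.mul (C.met'.sm_lap h.sm))).mul C.met'.sm_vol).continuousOn
  have hzero : EqOn f 0 (interior C.M) :=
    Measure.eqOn_open_of_ae_eq hz'' isOpen_interior (hfc.mono hiΩ) continuousOn_const
  have hconst := const_of_fderiv hV (c := bt 1) (fun y hy => by simp only [front h hy])
    (fun x hx => by
      have h1 : f x = 0 := hzero hx
      rw [hfe x (hiΩ hx)] at h1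
      have h2 := (mul_eq_zero.1 h1).resolve_right (C.met'.vol_pos (hiΩ hx)).ne'
      have h3 := ((bt_der (U x)).comp_hasFDerivAt x
        (sm_da C.isOpen_Ω h.sm (hiΩ hx)).hasFDerivAt).fderiv
      refine Eq.trans h3 ?_
      rcases mul_eq_zero.1 h2 with h4 | h4
      · rw [h4, zero_smul]
      · rw [(gam_eq_zero_iff (C.met'.pos x (hiΩ hx)) U).1 h4, smul_zero])
  have hMb : Bornology.IsBounded C.M := by
    refine hK.isBounded.subset fun x hx => ⟨hx, ?_⟩
    by_contra hlt
    have h1 := hconst x hx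
    simp only [bt_zero (not_le.1 hlt).le] at h1
    exact bt_pos.ne h1
  have := hMb.union C.bdd
  rw [union_compl_self] at this
  exact NormedSpace.unbounded_univ ℝ (E 3) this

end PrePot

end Pool.Agent.P.MP_56a1cd_gt
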