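import Pool.Agent.P.MP_56a1cd_gt.PrePotEx
import Pool.Agent.P.MP_56a1cd_gt.PotA

namespace Pool.Agent.P.MP_56a1cd_gt

open MeasureTheory Matrix Set Filter Topology
open scoped ContDiff ENNReal

variable {m n : ℕ}

/-! PLAN. `lower`: `green` with `η` from `exists_eta` gives `m = ∫ gam η U vol`, an integral over the shell
`ρ ≤ |x| ≤ 2ρ` in the chart `F` (`gam_F`, `integral_F`); if `c = 0` it is at most (C / ρ) (K / ρ³) (4ρ)³, which tends to zero,
against `flux_pos`. So `c ≠ 0`, and `c > 0` since `U ≥ 0`. `pot_exists`: `wmp` for `-U` on the core gives a positive lower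
bound of `U` there; far out `gam U U ≤ C / |x|⁴ ≤ C' U⁴`; `1 / |x|⁴` is integrable at infinity
(`integrable_rpow_neg_one_add_norm_sq` or `integrable_one_add_norm`, `norm_le_nrm`). Put `G = (4π / m) U`, `T = 4π / m`. -/

namespace PotExAux

theorem exists_nrm {s : ℝ} (hs : 0 ≤ s) : ∃ x : E 3, nrm x = s := by
  refine ⟨![s, 0, 0], ?_⟩
  simp [nrm, dotProduct, Fin.sum_univ_three, Real.sqrt_mul_self hs]

theorem pd_cut {ρ : ℝ} {x : E 3} (hx : x ≠ 0) (i : Fin 3) :
    pd i (fun y => 1 - stp (nrm y / ρ)) x = -(deriv stp (nrm x / ρ) * (1 / ρ)) * (x i / nrm x) := by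
  have dn : DifferentiableAt ℝ nrm x := sm_da isOpen_ne_zero sm_nrm hx
  have h1 : HasDerivAt (fun s => stp (s / ρ)) (deriv stp (nrm x / ρ) * (1 / ρ)) (nrm x) :=
    HasDerivAt.comp (h₂ := stp) (h := fun s => s / ρ) (nrm x)
      ((stp_sm.differentiable (by simp)) (nrm x / ρ)).hasDerivAt
      ((hasDerivAt_id' (nrm x)).div_const ρ)
  have h2 : HasDerivAt (fun s => 1 - stp (s / ρ)) (-(deriv stp (nrm x / ρ) * (1 / ρ))) (nrm x) :=
    h1.const_sub 1
  rw [pd_comp_real dn h2, pd_nrm hx]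

theorem volume_shell {ρ : ℝ} (hρ : 0 < ρ) :
    volume {x : E 3 | ρ ≤ nrm x ∧ nrm x ≤ 2 * ρ} < ⊤ ∧
      volume.real {x : E 3 | ρ ≤ nrm x ∧ nrm x ≤ 2 * ρ} ≤ (4 * ρ) ^ 3 := by
  have hs : {x : E 3 | ρ ≤ nrm x ∧ nrm x ≤ 2 * ρ} ⊆ Metric.closedBall 0 (2 * ρ) := fun x hx => by
    rw [mem_closedBall_zero_iff]
    exact (norm_le_nrm x).trans hx.2
  have hv : volume (Metric.closedBall (0 : E 3) (2 * ρ)) = ENNReal.ofReal ((4 * ρ) ^ 3) := by
    rw [Real.volume_pi_closedBall _ (by positivity), Fintype.card_fin]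
    ring_nf
  have h1 := measure_mono (μ := volume) hs
  rw [hv] at h1
  exact ⟨h1.trans_lt ENNReal.ofReal_lt_top, ENNReal.toReal_le_of_le_ofReal (by positivity) h1⟩

variable {φ : E 3 → ℝ} {C : Cap φ} {U : E 3 → ℝ}

/-- The flux is an integral over a far shell. -/
theorem flux_eq (hφ : Hom0 φ) (h : PrePot C U) {ρ : ℝ} (hρ : C.r < ρ) :
    ∫ p, C.fl U p ∂aM φ = ∫ x in {x : E 3 | ρ ≤ nrm x ∧ nrm x ≤ 2 * ρ},
      ∑ i, -(deriv stp (nrm x / ρ) * (1 / ρ)) * (x i / nrm x) * pd i (fun y => U (C.F y)) x := by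
  have hr := C.r_pos
  have hρ0 : 0 < ρ := hr.trans hρ
  obtain ⟨η, hη, h1, h2⟩ := C.exists_eta hρ
  have hηs : Sm C.Ω η := hη.contDiffOn
  have hgam : ∀ x ∈ (Ext C.r : Set (E 3)), gam C.g η U (C.F x) =
      ∑ i, -(deriv stp (nrm x / ρ) * (1 / ρ)) * (x i / nrm x) * pd i (fun y => U (C.F y)) x := by
    intro x hx
    rw [C.gam_F hηs h.sm hx]
    refine Finset.sum_congr rfl fun i _ => ?_
    rw [pd_congr_on (isOpen_Ext C.r) h1 hx, pd_cut (ne_zero_of_nrm_pos (hr.trans hx))]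
  have h2ρ : C.r < 2 * ρ := by linarith
  have hg := (green hφ C hηs h.sm (C.isCompact_core h2ρ) (by
    intro z hz hzK
    have : z ∈ C.F '' Ext (2 * ρ) := by
      by_contra h3
      exact hzK ⟨hz, h3⟩
    obtain ⟨y, hy, rfl⟩ := this
    have hy' : 2 * ρ < nrm y := hy
    rw [h1 y (h2ρ.trans hy'), stp_one ((le_div_iff₀ hρ0).2 hy'.le), sub_self])).2
  have hb : ∫ p, η (C.bp p) * C.fl U p ∂aM φ = ∫ p, C.fl U p ∂aM φ := by
    refine integral_congr_ae ?_
    filter_upwards [ae_sph φ] with p hp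
    rw [h2, one_mul]
    rintro ⟨y, hy, hyp⟩
    have h3 : C.bp p ∈ frontier C.M := by
      rw [C.frontier_eq]; exact mem_image_of_mem _ hp
    have hy' : ρ ≤ nrm y := hy
    exact h3.2 (hyp ▸ C.mapsF (hρ.trans_le hy'))
  have hA : {x : E 3 | ρ ≤ nrm x ∧ nrm x ≤ 2 * ρ} ⊆ Ext C.r := fun x hx => hρ.trans_le hx.1
  have hAm : MeasurableSet {x : E 3 | ρ ≤ nrm x ∧ nrm x ≤ 2 * ρ} :=
    ((isClosed_le continuous_const continuous_nrm).inter
      (isClosed_le continuous_nrm continuous_const)).measurableSet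
  rw [← hb, ← hg, ← setIntegral_congr_fun hAm fun x hx => hgam x (hA hx),
    ← (C.integral_F hAm hA (gam C.g η U)).2]
  have hl : ∀ z ∈ C.M, (gam C.g η U z + η z * lap C.g U z) * vol C.g z =
      gam C.g η U z * vol C.g z := fun z hz => by
    rw [h.harm z (C.M_sub hz), mul_zero, add_zero]
  rw [setIntegral_congr_fun C.closed.measurableSet hl]
  refine setIntegral_eq_of_subset_of_forall_sdiff_eq_zero C.closed.measurableSet ?_ ?_
  · rintro _ ⟨y, hy, rfl⟩
    exact interior_subset (C.mapsF (hA hy))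
  · rintro z ⟨-, hz⟩
    by_cases h3 : z ∈ C.F '' {x | ρ ≤ nrm x}
    · obtain ⟨y, hy, rfl⟩ := h3
      have hy' : ρ ≤ nrm y := hy
      have h4 : 2 * ρ < nrm y := by
        by_contra h5
        exact hz ⟨y, ⟨hy', not_lt.1 h5⟩, rfl⟩
      rw [hgam y (hρ.trans_le hy'), (stp_deriv_zero (Or.inr ((lt_div_iff₀ hρ0).2 h4))).1]
      simp
    · have he : η =ᶠ[𝓝 z] fun _ => 1 := by
        filter_upwards [(C.isClosed_far hρ).isOpen_compl.mem_nhds h3] with w hw
        exact h2 w hw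
      rw [gam_congr rfl he EventuallyEq.rfl, gam_const_left, zero_mul]

theorem flux_le (hφ : Hom0 φ) (h : PrePot C U) {K r' : ℝ} (hr' : C.r < r') (hK : 0 ≤ K)
    (hd : ∀ x, r' ≤ nrm x → ∀ i, |pd i (fun y => U (C.F y)) x| ≤ K / nrm x ^ 3) :
    ∃ A : ℝ, ∀ ρ, r' ≤ ρ → ∫ p, C.fl U p ∂aM φ ≤ A / ρ := by
  obtain ⟨D, hD, hDb⟩ := stp_deriv_bdd
  refine ⟨192 * D * K, fun ρ hρ => ?_⟩
  have hρ0 : 0 < ρ := C.r_pos.trans (hr'.trans_le hρ)
  rw [flux_eq hφ h (hr'.trans_le hρ)]
  obtain ⟨v1, v2⟩ := volume_shell hρ0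
  have hb : ∀ x ∈ {x : E 3 | ρ ≤ nrm x ∧ nrm x ≤ 2 * ρ},
      ‖∑ i, -(deriv stp (nrm x / ρ) * (1 / ρ)) * (x i / nrm x) * pd i (fun y => U (C.F y)) x‖ ≤
        3 * (D / ρ * (K / ρ ^ 3)) := by
    intro x hx
    have hn : 0 < nrm x := hρ0.trans_le hx.1
    have h3 : ∀ i : Fin 3,
        ‖-(deriv stp (nrm x / ρ) * (1 / ρ)) * (x i / nrm x) * pd i (fun y => U (C.F y)) x‖ ≤
          D / ρ * (K / ρ ^ 3) := by
      intro i
      rw [Real.norm_eq_abs, abs_mul, abs_mul, abs_neg, abs_mul, abs_div (x i), abs_of_pos hn,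
        abs_of_pos (one_div_pos.2 hρ0)]
      have a1 : |deriv stp (nrm x / ρ)| * (1 / ρ) ≤ D / ρ := by
        rw [mul_one_div]
        exact div_le_div_of_nonneg_right (hDb _).1 hρ0.le
      have a2 : |x i| / nrm x ≤ 1 := (div_le_one hn).2 (abs_le_nrm x i)
      have a3 : |pd i (fun y => U (C.F y)) x| ≤ K / ρ ^ 3 :=
        (hd x (hρ.trans hx.1) i).trans
          (div_le_div_of_nonneg_left hK (by positivity) (pow_le_pow_left₀ hρ0.le hx.1 3))
      have a4 : |deriv stp (nrm x / ρ)| * (1 / ρ) * (|x i| / nrm x) ≤ D / ρ :=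
        (mul_le_of_le_one_right (by positivity) a2).trans a1
      exact mul_le_mul a4 a3 (abs_nonneg _) (by positivity)
    refine (norm_sum_le _ _).trans ?_
    rw [Fin.sum_univ_three]
    linarith [h3 0, h3 1, h3 2]
  have h5 := norm_setIntegral_le_of_norm_le_const v1 hb
  refine (le_abs_self _).trans (h5.trans ?_)
  calc _ ≤ 3 * (D / ρ * (K / ρ ^ 3)) * (4 * ρ) ^ 3 := mul_le_mul_of_nonneg_left v2 (by positivity)
    _ = 192 * D * K / ρ := by field_simp; ring

theorem nonpos_of_le_div {a A : ℝ} (r : ℝ) (h : ∀ ρ, r ≤ ρ → a ≤ A / ρ) : a ≤ 0 := by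
  have h1 : Tendsto (fun ρ : ℝ => A / ρ) atTop (𝓝 0) := tendsto_const_nhds.div_atTop tendsto_id
  exact ge_of_tendsto h1 ((eventually_ge_atTop r).mono h)

theorem integrableOn_inv_four {r : ℝ} (hr : 0 < r) :
    IntegrableOn (fun x : E 3 => 1 / nrm x ^ 4) (Ext r) := by
  have h1 : Integrable (fun x : E 3 => (1 + ‖x‖) ^ (-(4 : ℝ))) volume :=
    integrable_one_add_norm (by simp; norm_num)
  have hc : ContinuousOn (fun x : E 3 => 1 / nrm x ^ 4) (Ext r) :=
    continuousOn_const.div (continuous_nrm.pow 4).continuousOn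
      fun x hx => pow_ne_zero 4 (hr.trans hx).ne'
  refine Integrable.mono' (h1.const_mul ((1 + 1 / r) ^ 4)).integrableOn
    (hc.aestronglyMeasurable (isOpen_Ext r).measurableSet) ?_
  refine (ae_restrict_iff' (isOpen_Ext r).measurableSet).2 (Eventually.of_forall fun x hx => ?_)
  have hx' : r < nrm x := hx
  have hn : 0 < nrm x := hr.trans hx'
  have h0 : 0 < 1 + ‖x‖ := by positivity
  have h2 : 1 + ‖x‖ ≤ (1 + 1 / r) * nrm x := by
    have a1 := norm_le_nrm x
    have a2 : 1 ≤ 1 / r * nrm x := by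
      rw [one_div_mul_eq_div]
      exact (one_le_div hr).2 hx'.le
    linarith
  rw [Real.norm_of_nonneg (by positivity), Real.rpow_neg h0.le, ← div_eq_mul_inv,
    div_le_div_iff₀ (by positivity) (by positivity), one_mul, ← mul_pow]
  have : (1 + ‖x‖) ^ (4 : ℝ) = (1 + ‖x‖) ^ 4 := by exact_mod_cast rfl
  rw [this]
  exact pow_le_pow_left₀ h0.le h2 4

/-- A positive lower bound on the core. -/
theorem core_lower (h : PrePot C U) {c r' : ℝ} (hr' : C.r < r')
    (hl : ∀ x, r' ≤ nrm x → c / nrm x ≤ U (C.F x)) :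
    ∀ z ∈ C.M \ C.F '' Ext r', min 1 (c / r') ≤ U z := by
  have hsub : C.M \ C.F '' Ext r' ⊆ C.Ω := fun z hz => C.M_sub hz.1
  have hw := wmp C.met' (u := fun y => -1 * U y) (contDiffOn_const.mul h.sm) (C.isCompact_core hr')
    hsub (fun x hx => by rw [lap_cmul, h.harm x (hsub (interior_subset hx)), mul_zero])
    (c := -min 1 (c / r')) (by
      intro y hy
      rcases C.frontier_core hr' hy with h1 | ⟨x, hx, rfl⟩
      · rw [C.frontier_eq] at h1
        obtain ⟨p, hp, rfl⟩ := h1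
        have := min_le_left 1 (c / r')
        rw [h.bdry hp]
        linarith
      · have hx' : nrm x = r' := hx
        have h2 := hl x hx'.ge
        rw [hx'] at h2
        have := min_le_right 1 (c / r')
        linarith)
  intro z hz
  have := hw z hz
  linarith

end PotExAux

open PotExAux

theorem PrePot.lower {φ : E 3 → ℝ} (hφ : Hom0 φ) {C : Cap φ} {U : E 3 → ℝ} (h : PrePot C U) :
    ∃ c K r' : ℝ, 0 < c ∧ C.r < r' ∧ ∀ x, r' ≤ nrm x →
      c / nrm x ≤ U (C.F x) ∧ gam C.g U U (C.F x) ≤ K / nrm x ^ 4 := by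
  obtain ⟨c, K, r', hr', ha⟩ := h.asym
  have hr0 : 0 < r' := C.r_pos.trans hr'
  have hK : 0 ≤ K := by
    obtain ⟨x, hx⟩ := exists_nrm hr0.le
    have h1 := (abs_nonneg _).trans (ha x hx.ge).1
    rw [hx] at h1
    exact (div_nonneg_iff.1 h1).elim (fun h => h.1) fun h => absurd h.2 (not_le.2 (by positivity))
  have hc0 : c ≠ 0 := by
    rintro rfl
    obtain ⟨A, hA⟩ := flux_le hφ h hr' hK fun x hx i => by simpa using (ha x hx).2 i
    exact absurd (nonpos_of_le_div r' hA) (not_le.2 (h.flux_pos hφ))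
  have hc1 : -c ≤ 0 := by
    refine nonpos_of_le_div (A := K) r' fun ρ hρ => ?_
    have hρ0 : 0 < ρ := hr0.trans_le hρ
    obtain ⟨x, hx⟩ := exists_nrm hρ0.le
    have h1 := (abs_le.1 (ha x (hx ▸ hρ)).1).2
    have h2 := (h.mem _ (interior_subset (C.mapsF (hr'.trans_le (hx ▸ hρ))))).1
    rw [hx] at h1
    have h3 : -c / ρ ≤ K / ρ / ρ := by
      rw [div_div, ← sq, neg_div]
      linarith
    exact (div_le_div_iff_of_pos_right hρ0).1 h3
  have hc : 0 < c := lt_of_le_of_ne (by linarith) hc0.symm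
  refine ⟨c / 2, 3 * (c + K / r') ^ 2, max r' (2 * K / c), half_pos hc,
    hr'.trans_le (le_max_left _ _), fun x hx => ?_⟩
  have hx1 : r' ≤ nrm x := (le_max_left _ _).trans hx
  have hx2 : 2 * K / c ≤ nrm x := (le_max_right _ _).trans hx
  have hn : 0 < nrm x := hr0.trans_le hx1
  constructor
  · have h1 := (abs_le.1 (ha x hx1).1).1
    have h2 : K / nrm x ^ 2 ≤ c / 2 / nrm x := by
      rw [sq, ← div_div]
      refine div_le_div_of_nonneg_right ?_ hn.le
      rw [div_le_iff₀ hn]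
      rw [div_le_iff₀ hc] at hx2
      linarith
    have h3 : c / nrm x = c / 2 / nrm x + c / 2 / nrm x := by ring
    linarith
  · rw [C.gam_F h.sm h.sm (hr'.trans_le hx1)]
    have h1 : ∀ i : Fin 3, pd i (fun y => U (C.F y)) x * pd i (fun y => U (C.F y)) x ≤
        (c + K / r') ^ 2 / nrm x ^ 4 := by
      intro i
      have a1 := (ha x hx1).2 i
      have a2 : |c * x i / nrm x ^ 3| ≤ c / nrm x ^ 2 := by
        rw [abs_div, abs_mul, abs_of_pos hc, abs_of_pos (pow_pos hn 3),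
          div_le_div_iff₀ (by positivity) (by positivity)]
        have := mul_le_mul_of_nonneg_left (abs_le_nrm x i)
          (show 0 ≤ c * nrm x ^ 2 by positivity)
        linarith
      have a3 : K / nrm x ^ 3 ≤ K / r' / nrm x ^ 2 := by
        rw [div_div]
        refine div_le_div_of_nonneg_left hK (by positivity) ?_
        have := mul_le_mul_of_nonneg_right hx1 (show 0 ≤ nrm x ^ 2 by positivity)
        linarith
      have a4 : |pd i (fun y => U (C.F y)) x| ≤ (c + K / r') / nrm x ^ 2 := by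
        have := abs_sub (pd i (fun y => U (C.F y)) x + c * x i / nrm x ^ 3) (c * x i / nrm x ^ 3)
        rw [add_sub_cancel_right] at this
        rw [add_div]
        linarith
      have a5 := mul_self_le_mul_self (abs_nonneg _) a4
      rw [abs_mul_abs_self] at a5
      refine a5.trans (le_of_eq ?_)
      field_simp
    rw [Fin.sum_univ_three, mul_div_assoc]
    linarith [h1 0, h1 1, h1 2]

theorem pot_exists {φ : E 3 → ℝ} (hφ : Hom0 φ) (C : Cap φ) : Nonempty (Pot C) := by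
  obtain ⟨U, h⟩ := prepot_exists hφ C
  obtain ⟨c, K, r', hc, hr', hl⟩ := h.lower hφ
  have hr0 : 0 < r' := C.r_pos.trans hr'
  have hm := h.flux_pos hφ
  set T := 4 * Real.pi / ∫ p, C.fl U p ∂aM φ with hT
  have hT0 : 0 < T := div_pos (by positivity) hm
  have hδ : 0 < min 1 (c / r') := lt_min one_pos (div_pos hc hr0)
  have hcore := core_lower h hr' fun x hx => (hl x hx).1
  have hpos : ∀ z ∈ C.M, 0 < U z := by
    intro z hz
    by_cases h1 : z ∈ C.F '' Ext r'
    · obtain ⟨x, hx, rfl⟩ := h1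
      have hx' : r' < nrm x := hx
      exact (div_pos hc (hr0.trans hx')).trans_le (hl x hx'.le).1
    · exact hδ.trans_le (hcore z ⟨hz, h1⟩)
  have hgam : ∀ z, gam C.g (fun y => T * U y) (fun y => T * U y) z = T ^ 2 * gam C.g U U z := by
    intro z
    rw [gam_cmul_left, gam_cmul_right]
    ring
  have hsm : Sm C.Ω (gam C.g U U) := C.met'.sm_gam h.sm h.sm
  have hsub : (Ext r' : Set (E 3)) ⊆ Ext C.r := fun x hx => hr'.trans hx
  have hint : IntegrableOn (fun x => gam C.g U U x * vol C.g x) C.M := by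
    have i1 : IntegrableOn (fun x => gam C.g U U x * vol C.g x) (C.M \ C.F '' Ext r') :=
      ((hsm.mul C.met'.sm_vol).continuousOn.mono fun z hz => C.M_sub hz.1).integrableOn_compact
        (C.isCompact_core hr')
    have i2 : IntegrableOn (fun x => gam C.g U U x * vol C.g x) (C.F '' Ext r') := by
      rw [(C.integral_F (isOpen_Ext r').measurableSet hsub (gam C.g U U)).1]
      have hcont : ContinuousOn (fun x => gam C.g U U (C.F x)) (Ext r') :=
        (hsm.continuousOn.comp C.chartF.sm.continuousOn C.mapsF').mono hsub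
      refine Integrable.mono' ((integrableOn_inv_four hr0).const_mul K)
        (hcont.aestronglyMeasurable (isOpen_Ext r').measurableSet) ?_
      refine (ae_restrict_iff' (isOpen_Ext r').measurableSet).2
        (Eventually.of_forall fun x hx => ?_)
      have hx' : r' < nrm x := hx
      rw [Real.norm_of_nonneg (gam_nonneg (C.met'.pos _ (C.mapsF' (hsub hx))) U), mul_one_div]
      exact (hl x hx'.le).2
    refine (i1.union i2).mono_set fun z hz => ?_
    by_cases h1 : z ∈ C.F '' Ext r'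
    · exact Or.inr h1
    · exact Or.inl ⟨hz, h1⟩
  refine ⟨{
    T := T
    G := fun y => T * U y
    T_pos := hT0
    sm := contDiffOn_const.mul h.sm
    harm := fun x hx => by rw [lap_cmul, h.harm x hx, mul_zero]
    odd := fun x hx => by rw [h.odd x hx]; ring
    pos := fun x hx => mul_pos hT0 (hpos x hx)
    le := fun x hx => mul_le_of_le_one_right hT0.le (h.mem x hx).2
    cpt := fun t ht => ?_
    grad := ⟨|K| / (c ^ 4 * T ^ 2), T * (min 1 (c / r') / 2), by positivity, fun z hz hs => ?_⟩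
    flux := ?_
    int := ?_ }⟩
  · have : {x | x ∈ C.M ∧ t ≤ T * U x} = {x | x ∈ C.M ∧ t / T ≤ U x} := by
      ext x
      simp only [mem_ofPred_eq, div_le_iff₀' hT0]
    rw [this]
    exact h.cpt (div_pos ht hT0)
  · have h1 : U z ≤ min 1 (c / r') / 2 := le_of_mul_le_mul_left hs hT0
    have h2 : z ∈ C.F '' Ext r' := by
      by_contra h3
      have := hcore z ⟨hz, h3⟩
      linarith
    obtain ⟨x, hx, rfl⟩ := h2
    have hx' : r' < nrm x := hx
    have hn : 0 < nrm x := hr0.trans hx'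
    obtain ⟨a1, a2⟩ := hl x hx'.le
    have a3 : (c / nrm x) ^ 4 ≤ U (C.F x) ^ 4 := pow_le_pow_left₀ (by positivity) a1 4
    have a4 : K / nrm x ^ 4 ≤ |K| / c ^ 4 * (c / nrm x) ^ 4 := by
      have : |K| / c ^ 4 * (c / nrm x) ^ 4 = |K| / nrm x ^ 4 := by field_simp
      rw [this]
      exact div_le_div_of_nonneg_right (le_abs_self K) (by positivity)
    have a5 : |K| / c ^ 4 * (c / nrm x) ^ 4 ≤ |K| / c ^ 4 * U (C.F x) ^ 4 :=
      mul_le_mul_of_nonneg_left a3 (by positivity)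
    rw [hgam]
    calc T ^ 2 * gam C.g U U (C.F x) ≤ T ^ 2 * (|K| / c ^ 4 * U (C.F x) ^ 4) :=
          mul_le_mul_of_nonneg_left (a2.trans (a4.trans a5)) (by positivity)
      _ = |K| / (c ^ 4 * T ^ 2) * (T * U (C.F x)) ^ 4 := by field_simp
  · have : ∀ p, C.fl (fun y => T * U y) p = T * C.fl U p := by
      intro p
      simp only [Cap.fl, rad_eq, pd_const_mul, Fin.sum_univ_three]
      ring
    simp only [this]
    rw [integral_const_mul, hT, div_mul_cancel₀ _ hm.ne']
  · refine IntegrableOn.congr_fun (hint.const_mul (T ^ 2)) (fun z _ => ?_) C.closed.measurableSet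
    show T ^ 2 * _ = _ * _
    rw [hgam, mul_assoc]

end Pool.Agent.P.MP_56a1cd_gt
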