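import Pool.Agent.P.MP_56a1cd_gt.NeckB
import Pool.Agent.P.MP_56a1cd_gt.NeckC
import Pool.Agent.P.MP_56a1cd_gt.NeckEx
import Pool.Agent.P.MP_56a1cd_gt.Arith
import Pool.Agent.P.MP_56a1cd_gt.Hor
import Pool.Agent.P.MP_56a1cd_gt.PotEx

namespace Pool.Agent.P.MP_56a1cd_gt

open MeasureTheory Matrix Set Filter Topology
open scoped ContDiff ENNReal

variable {m n : ℕ}

/-! PLAN. `A = Ar φ`, `w₀ = 4π / A`, `Ts = √(16π / A)`, so `π Ts² = A w₀²`; for a function `f` with `∫ f = 4π`,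
`∫ f² = π Ts² + ∫ (f - w₀)²`. Take `ξ` from `choice`, `X = w₀ ∫ K ξ`, `Y = w₀² ∫ ξ`, and `c` larger than the constant of
`neck_c` (the left side there is monotone in `c`), `2 w₀ ‖ξ‖₂`, `sup ξ`, `π Ts²`. Take `ε η ϖ s` from `arith`, the
neck from `neck_exists`, the potentials from `pot_exists`. `neg_part`: `Psi ∈ [0, 1]`,
`Psi * scal * w ≥ min scal 0 * w`, Cauchy-Schwarz. Apply it on `M₀` for `G₀` and for `G₁` (`split`, `energy`), the
scalar curvatures of `C` and `C₀` agree on `M` (`scal_congr`, `Ω` is open). -/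

theorem neg_part {g : Met 3} {U M : Set (E 3)} (hg : IsMet g U) (hM : MeasurableSet M) (hMU : M ⊆ U)
    {G Ψ : E 3 → ℝ} (hG : Sm U G) (hΨ : ∀ x ∈ M, 0 ≤ Ψ x ∧ Ψ x ≤ 1) {ϖ En : ℝ} (hϖ : 0 ≤ ϖ)
    (i1 : IntegrableOn (fun x => min (scal g x) 0 ^ 2 * vol g x) M)
    (b1 : ∫ x in M, min (scal g x) 0 ^ 2 * vol g x ≤ ϖ ^ 2)
    (i2 : IntegrableOn (fun x => gam g G G x * vol g x) M)
    (b2 : ∫ x in M, gam g G G x * vol g x ≤ En)
    (i3 : IntegrableOn (fun x => Ψ x * (scal g x / 2) * √(gam g G G x) * vol g x) M) :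
    -(ϖ * √En / 2) ≤ ∫ x in M, Ψ x * (scal g x / 2) * √(gam g G G x) * vol g x := by
  have c1 : ContinuousOn (scal g) M := hg.sm_scal.continuousOn.mono hMU
  have c2 : ContinuousOn (gam g G G) M := (hg.sm_gam hG hG).continuousOn.mono hMU
  have c3 : ContinuousOn (vol g) M := hg.sm_vol.continuousOn.mono hMU
  have cf : ContinuousOn (fun x => min (scal g x) 0 * √(gam g G G x) * vol g x) M :=
    ((c1.inf continuousOn_const).mul c2.sqrt).mul c3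
  have g0 : ∀ x ∈ M, 0 ≤ gam g G G x := fun x hx => gam_nonneg (hg.pos x (hMU hx)) G
  obtain ⟨i4, b4⟩ := abs_integral_le_sqrt (μ := volume.restrict M)
    (cf.aestronglyMeasurable hM) i1 i2
    (ae_of_all _ fun x => mul_nonneg (sq_nonneg _) (vol_nonneg g x))
    ((ae_restrict_iff' hM).2 (ae_of_all _ fun x hx => mul_nonneg (g0 x hx) (vol_nonneg g x)))
    ((ae_restrict_iff' hM).2 (ae_of_all _ fun x hx => by
      rw [mul_pow, mul_pow, Real.sq_sqrt (g0 x hx)]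
      exact le_of_eq (by ring)))
  have s1 : √(∫ x in M, min (scal g x) 0 ^ 2 * vol g x) ≤ ϖ := by
    rw [Real.sqrt_le_left hϖ]
    exact b1
  have s2 : √(∫ x in M, gam g G G x * vol g x) ≤ √En := Real.sqrt_le_sqrt b2
  have b5 := b4.trans (mul_le_mul s1 s2 (Real.sqrt_nonneg _) hϖ)
  have b6 := (abs_le.1 b5).1
  have m1 : ∫ x in M, (1 / 2) * (min (scal g x) 0 * √(gam g G G x) * vol g x) ≤
      ∫ x in M, Ψ x * (scal g x / 2) * √(gam g G G x) * vol g x := by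
    refine setIntegral_mono_on (i4.const_mul _) i3 hM fun x hx => ?_
    have h1 := (hΨ x hx).1
    have h2 := (hΨ x hx).2
    have h3 : 0 ≤ √(gam g G G x) * vol g x := mul_nonneg (Real.sqrt_nonneg _) (vol_nonneg g x)
    have h4 : min (scal g x) 0 ≤ Ψ x * scal g x := by
      rcases le_total (scal g x) 0 with h | h
      · rw [min_eq_left h]
        nlinarith
      · rw [min_eq_right h]
        positivity
    nlinarith [mul_le_mul_of_nonneg_right h4 h3]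
  rw [integral_const_mul] at m1
  linarith

namespace GapAux

theorem var_split {φ f : E 3 → ℝ} (hφ : Hom0 φ) (hf : ContinuousOn f sph)
    (h : ∫ p, f p ∂aM φ = 4 * Real.pi) :
    ∫ p, f p ^ 2 ∂aM φ = Real.pi * √(16 * Real.pi / Ar φ) ^ 2 +
      ∫ p, (f p - 4 * Real.pi / Ar φ) ^ 2 ∂aM φ := by
  have hA := Ar_pos hφ
  have hpi := Real.pi_pos
  set w := 4 * Real.pi / Ar φ with hw
  have i1 := integrable_aM hφ hf
  have i2 : Integrable (fun p => (f p - w) ^ 2) (aM φ) :=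
    integrable_aM hφ ((hf.sub continuousOn_const).pow 2)
  have i3 : Integrable (fun _ : E 3 => w ^ 2) (aM φ) := integrable_aM hφ continuousOn_const
  have e : (fun p => f p ^ 2) = fun p => (f p - w) ^ 2 + (2 * w * f p - w ^ 2) := by
    funext p
    ring
  have i4 : Integrable (fun p => 2 * w * f p - w ^ 2) (aM φ) := (i1.const_mul _).sub i3
  rw [e, integral_add i2 i4, integral_sub (i1.const_mul _) i3,
    integral_const_mul, h, integral_const_aM, Real.sq_sqrt (by positivity)]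
  have e2 : 2 * w * (4 * Real.pi) - Ar φ * w ^ 2 = Real.pi * (16 * Real.pi / Ar φ) := by
    rw [hw]
    field_simp
    ring
  linarith

theorem theta_le {φ ξ f : E 3 → ℝ} (hφ : Hom0 φ) (hξ : Hom0 ξ) (hf : ContinuousOn f sph)
    {w M : ℝ} (hw : 0 ≤ w) (hM : ∀ x, x ≠ 0 → |ξ x| ≤ M) :
    ∫ p, ξ p * f p ^ 2 ∂aM φ ≤ w ^ 2 * ∫ p, ξ p ∂aM φ +
      2 * w * √(∫ p, ξ p ^ 2 ∂aM φ) * √(∫ p, (f p - w) ^ 2 ∂aM φ) +
        M * ∫ p, (f p - w) ^ 2 ∂aM φ := by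
  have cξ := hξ.continuousOn
  have cd : ContinuousOn (fun p => f p - w) sph := hf.sub continuousOn_const
  have i1 := integrable_aM hφ cξ
  have i2 : Integrable (fun p => ξ p * (f p - w)) (aM φ) := integrable_aM hφ (cξ.mul cd)
  have i3 : Integrable (fun p => ξ p * (f p - w) ^ 2) (aM φ) := integrable_aM hφ (cξ.mul (cd.pow 2))
  have i4 : Integrable (fun p => (f p - w) ^ 2) (aM φ) := integrable_aM hφ (cd.pow 2)
  have e : (fun p => ξ p * f p ^ 2) =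
      fun p => (w ^ 2 * ξ p + 2 * w * (ξ p * (f p - w))) + ξ p * (f p - w) ^ 2 := by
    funext p
    ring
  have i5 : Integrable (fun p => w ^ 2 * ξ p + 2 * w * (ξ p * (f p - w))) (aM φ) :=
    (i1.const_mul _).add (i2.const_mul _)
  rw [e, integral_add i5 i3,
    integral_add (i1.const_mul _) (i2.const_mul _), integral_const_mul, integral_const_mul]
  have h1 := (abs_le.1 (abs_integral_mul_le (memLp_aM hφ cξ) (memLp_aM hφ cd))).2
  have h2 : ∫ p, ξ p * (f p - w) ^ 2 ∂aM φ ≤ M * ∫ p, (f p - w) ^ 2 ∂aM φ := by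
    rw [← integral_const_mul]
    refine integral_mono_ae i3 (i4.const_mul _) ((ae_sph φ).mono fun p hp => ?_)
    have hp0 : p ≠ 0 := ne_zero_of_nrm_pos (by rw [mem_sph_iff.1 hp]; exact one_pos)
    exact mul_le_mul_of_nonneg_right (abs_le.1 (hM p hp0)).2 (sq_nonneg _)
  have h3 := mul_le_mul_of_nonneg_left h1 (by positivity : 0 ≤ 2 * w)
  linarith

theorem mono_c {ε s X c₀ c d En T γ : ℝ} (hε : 0 < ε) (hT : 0 < T) (h0 : 0 ≤ c₀) (hs : 0 < s)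
    (hc : c₀ ≤ c) (hE : 0 ≤ En)
    (h : ε * (X - c₀ * √d - c₀ * √((ε * c₀ + s) * En)) - c₀ / T * ((ε * c₀ + s) * En) ≤ γ) :
    ε * (X - c * √d - c * √((ε * c + s) * En)) - c / T * ((ε * c + s) * En) ≤ γ := by
  have h1 : (ε * c₀ + s) * En ≤ (ε * c + s) * En :=
    mul_le_mul_of_nonneg_right (by nlinarith) hE
  have h2 : c₀ * √d ≤ c * √d := mul_le_mul_of_nonneg_right hc (Real.sqrt_nonneg _)
  have h3 : c₀ * √((ε * c₀ + s) * En) ≤ c * √((ε * c + s) * En) :=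
    mul_le_mul hc (Real.sqrt_le_sqrt h1) (Real.sqrt_nonneg _) (h0.trans hc)
  have h4 : c₀ / T * ((ε * c₀ + s) * En) ≤ c / T * ((ε * c + s) * En) :=
    mul_le_mul (div_le_div_of_nonneg_right hc hT.le) h1 (by positivity)
      (div_nonneg (h0.trans hc) hT.le)
  nlinarith

end GapAux

theorem gap {φ : E 3 → ℝ} (hφ : Hom0 φ) (hK : ∀ x, x ≠ 0 → 0 < Kf φ x)
    (hn : ∃ x y, x ≠ 0 ∧ y ≠ 0 ∧ Kf φ x ≠ Kf φ y) :
    ∃ η ϖ : ℝ, 0 < η ∧ 0 < ϖ ∧ ∀ C : Cap φ, (C.N = fun _ => 1) →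
      IntegrableOn (fun x => min (scal C.g x) 0 ^ 2 * vol C.g x) C.M →
      ∫ x in C.M, min (scal C.g x) 0 ^ 2 * vol C.g x ≤ ϖ ^ 2 →
      ∃ (C' : Cap φ) (P : Pot C'), C'.M = C.M ∧ (∀ x ∈ C.M, C'.g x = C.g x) ∧
        √(16 * Real.pi / Ar φ) + η ≤ P.T := by
  obtain ⟨ξ, hξ, hξ0, hρ, hlt⟩ := choice hφ hK hn
  have hA := Ar_pos hφ
  have hpi := Real.pi_pos
  set w := 4 * Real.pi / Ar φ with hw
  have hw0 : 0 < w := by positivity
  set Ts := √(16 * Real.pi / Ar φ) with hTs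
  have hTs0 : 0 < Ts := Real.sqrt_pos.2 (by positivity)
  obtain ⟨c₀, hc₀, HC⟩ := neck_c hφ hξ hξ0 (fun x hx => (hK x hx).le) hρ w
  obtain ⟨M, hM0, hM⟩ := hξ.bdd
  have sph0 : ∀ p ∈ sph, p ≠ 0 := fun p hp =>
    ne_zero_of_nrm_pos (by rw [mem_sph_iff.1 hp]; exact one_pos)
  have hY0 : 0 ≤ ∫ p, ξ p ∂aM φ :=
    integral_nonneg_of_ae ((ae_sph φ).mono fun p hp => (hξ0 p (sph0 p hp)).le)
  set R := √(∫ p, ξ p ^ 2 ∂aM φ) with hR
  have hR0 : 0 ≤ R := Real.sqrt_nonneg _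
  set c := c₀ + 2 * w * R + M + Real.pi * Ts ^ 2 with hc
  have p1 : 0 ≤ 2 * w * R := by positivity
  have p2 : 0 ≤ Real.pi * Ts ^ 2 := by positivity
  obtain ⟨ε, η, ϖ, s, hε, hη, hϖ, hs, HA⟩ := arith (Ts := Ts) (X := w * ∫ p, Kf φ p * ξ p ∂aM φ)
    (Y := w ^ 2 * ∫ p, ξ p ∂aM φ) (c := c) hTs0 (by positivity) (by nlinarith) (by linarith)
  refine ⟨η, ϖ, hη, hϖ, fun C hN hi hb => ?_⟩
  obtain ⟨K, hKM, hKg⟩ := neck_exists hφ hξ hξ0 C hN hε hs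
  obtain ⟨P₀⟩ := pot_exists hφ K.C₀
  obtain ⟨P₁⟩ := pot_exists hφ K.C₁
  refine ⟨K.C₀, P₀, hKM, fun x hx => hKg x (K.C₀.M_sub (hKM ▸ hx)), ?_⟩
  have mM : MeasurableSet K.C₀.M := K.C₀.closed.measurableSet
  have eq1 : ∀ x ∈ K.C₀.M, min (scal K.C₀.g x) 0 ^ 2 * vol K.C₀.g x =
      min (scal C.g x) 0 ^ 2 * vol C.g x := fun x hx => by
    have ev : K.C₀.g =ᶠ[𝓝 x] C.g :=
      (K.C₀.isOpen_Ω.eventually_mem (K.C₀.M_sub hx)).mono fun y hy => hKg y hy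
    rw [scal_congr ev, vol, vol, ev.eq_of_nhds]
  have hi0 : IntegrableOn (fun x => min (scal K.C₀.g x) 0 ^ 2 * vol K.C₀.g x) K.C₀.M := by
    rw [← hKM] at hi
    exact (integrableOn_congr_fun eq1 mM).2 hi
  have hb0 : ∫ x in K.C₀.M, min (scal K.C₀.g x) 0 ^ 2 * vol K.C₀.g x ≤ ϖ ^ 2 := by
    rw [setIntegral_congr_fun mM eq1, hKM]
    exact hb
  have sub01 : K.C₀.M ⊆ K.C₁.M := by
    rw [K.M_eq]
    exact subset_union_left
  obtain ⟨n1, n2, n3⟩ := K.neck_b hφ hξ hξ0 P₀ P₁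
  obtain ⟨k1, k2⟩ := HC ε s hε hs K P₁
  have cf₀ := K.C₀.continuousOn_fl P₀.sm
  have cf₁ := K.C₁.continuousOn_fl P₁.sm
  have v₀ := GapAux.var_split hφ cf₀ P₀.flux
  have v₁ := GapAux.var_split hφ cf₁ P₁.flux
  rw [← hTs, ← hw] at v₀ v₁
  have d0 : 0 ≤ ∫ p, (K.C₀.fl P₀.G p - w) ^ 2 ∂aM φ := integral_nonneg fun p => sq_nonneg _
  refine HA P₀.T P₁.T _ _ _ _ _ P₀.T_pos P₁.T_pos d0 (integral_nonneg fun p => sq_nonneg _) n1 k1
    ?_ ?_ n2 n3 ?_ (GapAux.mono_c hε P₁.T_pos hc₀ hs (by linarith) n1 k2)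
  · obtain ⟨h1, h2⟩ := hor hφ P₀
    have h3 := neg_part K.C₀.met' mM K.C₀.M_sub P₀.sm (Ψ := fun x => Psi P₀.T (P₀.G x))
      (fun x hx => ⟨(Psi_mem P₀.T_pos (P₀.pos x hx).le (P₀.le x hx)).1,
        (Psi_mem P₀.T_pos (P₀.pos x hx).le (P₀.le x hx)).2.1⟩) hϖ.le hi0 hb0 P₀.int
      (P₀.energy hφ).le h1
    have h4 := mul_le_mul_of_nonneg_left h3 (by have := P₀.T_pos; positivity : 0 ≤ P₀.T / 2)
    linarith
  · obtain ⟨h1, h2⟩ := hor hφ P₁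
    have i₁ := P₁.int
    have e₁ := P₁.energy hφ
    rw [K.g_eq] at h1 h2 i₁ e₁
    obtain ⟨h5, h6⟩ := K.split (f := fun x => Psi P₁.T (P₁.G x) * (scal K.C₀.g x / 2) *
      √(gam K.C₀.g P₁.G P₁.G x)) h1
    have sb : Sh K.C₁.a K.C₀.a ⊆ Sh (K.C₁.a - K.C₁.h) (K.C₀.a + K.C₀.h) := fun x hx =>
      K.Shc_subset ⟨hx.1.le, hx.2.le⟩
    have h7 : ∫ x in Sh K.C₁.a K.C₀.a, Psi P₁.T (P₁.G (K.C₀.Φ x)) * (scal K.C₀.g (K.C₀.Φ x) / 2) *
        √(gam K.C₀.g P₁.G P₁.G (K.C₀.Φ x)) * vol K.met x = K.gain P₁.T P₁.G := by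
      refine setIntegral_congr_fun (isOpen_Sh _ _).measurableSet fun x hx => ?_
      obtain ⟨e1, -, e3⟩ := K.gam_Φ P₁.sm (sb hx)
      simp only [e1, e3]
    have hle : ∫ x in K.C₀.M, gam K.C₀.g P₁.G P₁.G x * vol K.C₀.g x ≤ 4 * Real.pi * P₁.T := by
      rw [← e₁]
      refine setIntegral_mono_set i₁ ?_ sub01.eventuallyLE
      refine (ae_restrict_iff' K.C₁.closed.measurableSet).2 (ae_of_all _ fun x hx => ?_)
      have := K.C₁.met'.pos x (K.C₁.M_sub hx)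
      rw [K.g_eq] at this
      exact mul_nonneg (gam_nonneg this _) (vol_nonneg _ _)
    have h3 := neg_part K.C₀.met' mM K.C₀.M_sub (P₁.sm.mono K.Ω_sub)
      (Ψ := fun x => Psi P₁.T (P₁.G x))
      (fun x hx => ⟨(Psi_mem P₁.T_pos (P₁.pos x (sub01 hx)).le (P₁.le x (sub01 hx))).1,
        (Psi_mem P₁.T_pos (P₁.pos x (sub01 hx)).le (P₁.le x (sub01 hx))).2.1⟩) hϖ.le hi0 hb0
      (i₁.mono_set sub01) hle h5
    have h4 := mul_le_mul_of_nonneg_left h3 (by have := P₁.T_pos; positivity : 0 ≤ P₁.T / 2)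
    rw [h6, h7] at h2
    linarith
  · have i1 : Integrable (fun p => ξ p * K.C₀.fl P₀.G p ^ 2) (aM φ) :=
      integrable_aM hφ (hξ.continuousOn.mul (cf₀.pow 2))
    have i2 : Integrable (fun p => K.C₀.fl P₀.G p ^ 2) (aM φ) := integrable_aM hφ (cf₀.pow 2)
    have e : (fun p => (ε * ξ p + s) * K.C₀.fl P₀.G p ^ 2) =
        fun p => ε * (ξ p * K.C₀.fl P₀.G p ^ 2) + s * K.C₀.fl P₀.G p ^ 2 := by
      funext p
      ring
    rw [e, integral_add (i1.const_mul _) (i2.const_mul _), integral_const_mul, integral_const_mul,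
      v₀]
    have t := GapAux.theta_le hφ hξ cf₀ hw0.le hM
    rw [← hR] at t
    have q1 : 2 * w * R * √(∫ p, (K.C₀.fl P₀.G p - w) ^ 2 ∂aM φ) ≤
        c * √(∫ p, (K.C₀.fl P₀.G p - w) ^ 2 ∂aM φ) :=
      mul_le_mul_of_nonneg_right (by linarith) (Real.sqrt_nonneg _)
    have q2 : M * ∫ p, (K.C₀.fl P₀.G p - w) ^ 2 ∂aM φ ≤
        c * ∫ p, (K.C₀.fl P₀.G p - w) ^ 2 ∂aM φ := mul_le_mul_of_nonneg_right (by linarith) d0
    refine add_le_add (mul_le_mul_of_nonneg_left (by linarith) hε.le)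
      (mul_le_mul_of_nonneg_left (by linarith) hs.le)

end Pool.Agent.P.MP_56a1cd_gt
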