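import Pool.Agent.P.MP_56a1cd_gt.Riem
import Pool.Agent.P.MP_56a1cd_gt.Slice

namespace Pool.Agent.P.MP_56a1cd_gt

open MeasureTheory Matrix Set Filter Topology
open scoped ContDiff ENNReal

variable {m n : ℕ}

/-! The Gauss equation for the level sets of a harmonic coordinate in dimension three. -/

namespace GaussAux

/-- The determinant of a symmetric matrix of size three. -/
def dG (G : Matrix (Fin 3) (Fin 3) ℝ) : ℝ :=
  G 0 0 * G 1 1 * G 2 2 + 2 * G 0 1 * G 1 2 * G 0 2 - G 0 0 * G 1 2 ^ 2 - G 1 1 * G 0 2 ^ 2 -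
    G 2 2 * G 0 1 ^ 2

theorem algA (G : Matrix (Fin 3) (Fin 3) ℝ) (R : Fin 3 → Fin 3 → Fin 3 → Fin 3 → ℝ)
    (hG : ∀ i j, G i j = G j i) (h1 : ∀ i j k l, R i j k l = -R j i k l)
    (h2 : ∀ i j k l, R i j k l = -R i j l k) (h3 : ∀ i j k l, R i j k l = R k l i j) :
    G 2 2 * (∑ j, ∑ l, G j l * ∑ i, ∑ k, G i k * R i j k l) / 2 -
      ∑ j, ∑ l, (∑ i, ∑ k, G i k * R i j k l) * G j 2 * G l 2 = dG G * R 0 1 0 1 := by
  have e1 : ∀ i k l, R i i k l = 0 := fun i k l => by linarith [h1 i i k l]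
  have e2 : ∀ i j k, R i j k k = 0 := fun i j k => by linarith [h2 i j k k]
  have a1 : ∀ k l, R 1 0 k l = -R 0 1 k l := h1 1 0
  have a2 : ∀ k l, R 2 0 k l = -R 0 2 k l := h1 2 0
  have a3 : ∀ k l, R 2 1 k l = -R 1 2 k l := h1 2 1
  have b1 : ∀ i j, R i j 1 0 = -R i j 0 1 := fun i j => h2 i j 1 0
  have b2 : ∀ i j, R i j 2 0 = -R i j 0 2 := fun i j => h2 i j 2 0
  have b3 : ∀ i j, R i j 2 1 = -R i j 1 2 := fun i j => h2 i j 2 1
  simp only [Fin.sum_univ_three, e1, e2, a1, a2, a3, b1, b2, b3, h3 0 2 0 1, h3 1 2 0 1,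
    h3 1 2 0 2, hG 1 0, hG 2 0, hG 2 1, dG]
  ring

theorem algC (G : Matrix (Fin 3) (Fin 3) ℝ) (B : Fin 3 → Fin 3 → ℝ)
    (hG : ∀ i j, G i j = G j i) (hB : ∀ i j, B i j = B j i)
    (h0 : ∑ i, ∑ j, G i j * B i j = 0) :
    (∑ i, ∑ j, G i j * (∑ k, (B i k * G k 2 + B i k * G k 2)) *
        ∑ k, (B j k * G k 2 + B j k * G k 2)) / 4 -
      G 2 2 * (∑ i, ∑ j, ∑ k, ∑ l, G i k * G j l * B i j * B k l) / 2 =
      dG G * (B 0 0 * B 1 1 - B 0 1 * B 0 1) := by
  have key : (∑ i, ∑ j, G i j * (∑ k, (B i k * G k 2 + B i k * G k 2)) *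
        ∑ k, (B j k * G k 2 + B j k * G k 2)) / 4 -
      G 2 2 * (∑ i, ∑ j, ∑ k, ∑ l, G i k * G j l * B i j * B k l) / 2 =
      dG G * (B 0 0 * B 1 1 - B 0 1 * B 0 1) +
        (2 * (∑ i, ∑ j, G i 2 * G j 2 * B i j) - G 2 2 * ∑ i, ∑ j, G i j * B i j) *
          (∑ i, ∑ j, G i j * B i j) / 2 := by
    simp only [Fin.sum_univ_three, hG 1 0, hG 2 0, hG 2 1, hB 1 0, hB 2 0, hB 2 1, dG]
    ring
  rw [key, h0]
  ring

/-- The tangential part of the inverse metric. -/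
noncomputable def tan (G : Matrix (Fin 3) (Fin 3) ℝ) : Matrix (Fin 2) (Fin 2) ℝ :=
  Matrix.of fun i j => G i.castSucc j.castSucc - G i.castSucc 2 * G j.castSucc 2 / G 2 2

theorem c0 : (0 : Fin 2).castSucc = (0 : Fin 3) := rfl

theorem c1 : (1 : Fin 2).castSucc = (1 : Fin 3) := rfl

theorem tan_mul (G H : Matrix (Fin 3) (Fin 3) ℝ) (hG : ∀ i j, G i j = G j i) (ha : G 2 2 ≠ 0)
    (hm : ∀ i j, ∑ k, G i k * H k j = if i = j then 1 else 0) :
    tan G * (Matrix.of fun i j : Fin 2 => H i.castSucc j.castSucc) = 1 := by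
  ext i j
  have h1 := hm i.castSucc j.castSucc
  have h2 := hm 2 j.castSucc
  have h3 : (2 : Fin 3) ≠ j.castSucc := (Fin.castSucc_lt_last j).ne'
  rw [if_neg h3] at h2
  simp only [Fin.castSucc_inj] at h1
  rw [Matrix.mul_apply, Matrix.one_apply, ← h1]
  simp only [Fin.sum_univ_three, Fin.sum_univ_two, tan, Matrix.of_apply, c0, c1, hG 2 0,
    hG 2 1] at h2 ⊢
  field_simp
  linear_combination (-G i.castSucc 2) * h2

theorem det_tan (G : Matrix (Fin 3) (Fin 3) ℝ) (hG : ∀ i j, G i j = G j i) (ha : G 2 2 ≠ 0) :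
    (tan G).det = dG G / G 2 2 := by
  rw [Matrix.det_fin_two]
  simp only [tan, Matrix.of_apply, c0, c1, hG 1 0, dG]
  field_simp
  ring

theorem algB (G : Matrix (Fin 3) (Fin 3) ℝ) (hG : ∀ i j, G i j = G j i) (ha : G 2 2 ≠ 0)
    (X Y Z T : Fin 3 → ℝ) :
    ∑ a, ∑ b, G a b * (X a * Y b - Z a * T b) =
      ∑ a : Fin 2, ∑ b : Fin 2, tan G a b * (X a.castSucc * Y b.castSucc -
        Z a.castSucc * T b.castSucc) +
      ((-∑ l, G 2 l * X l) * (-∑ l, G 2 l * Y l) - (-∑ l, G 2 l * Z l) * (-∑ l, G 2 l * T l)) /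
        G 2 2 := by
  simp only [Fin.sum_univ_three, Fin.sum_univ_two, tan, Matrix.of_apply, c0, c1, hG 1 0, hG 2 0,
    hG 2 1]
  field_simp
  ring

theorem pd_u (j : Fin 3) : pd j (fun z : E 3 => z 2) = fun _ => if j = 2 then 1 else 0 :=
  funext fun x => pd_coord j 2 x

theorem gr_u (h : Met 3) (i : Fin 3) (z : E 3) : gr h (fun z => z 2) i z = (h z)⁻¹ i 2 := by
  simp [gr, pd_u]

theorem gam_u (h : Met 3) (z : E 3) : gam h (fun z => z 2) (fun z => z 2) z = (h z)⁻¹ 2 2 := by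
  simp [gam, pd_u]

theorem hess_u (h : Met 3) (i j : Fin 3) (z : E 3) :
    hess h (fun z => z 2) i j z = -∑ l, (h z)⁻¹ 2 l * chr1 h i j l z := by
  rw [← chr_eq, hess, pd_u, pd_const]
  simp [pd_u]

section
variable {h : Met 3} {W : Set (E 3)} {t : ℝ} {y : E 2}

theorem pd_slice (hh : IsMet h W) (hy : lift t y ∈ W) (k i j : Fin 2) :
    pd k (fun w => slice h t w i j) y =
      pd k.castSucc (fun z => h z i.castSucc j.castSucc) (lift t y) :=
  pd_lift (f := fun z => h z i.castSucc j.castSucc) (sm_da hh.opn (hh.sm _ _) hy) k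

theorem pd2_slice (hh : IsMet h W) (hy : lift t y ∈ W) (l k i j : Fin 2) :
    pd l (pd k (fun w => slice h t w i j)) y =
      pd l.castSucc (pd k.castSucc (fun z => h z i.castSucc j.castSucc)) (lift t y) := by
  rw [← pd_lift (sm_da hh.opn (sm_pd hh.opn (hh.sm _ _) _) hy) l]
  exact pd_congr_on (hh.slice t).opn (fun w hw => pd_slice hh hw k i j) hy l

theorem chr1_slice (hh : IsMet h W) (hy : lift t y ∈ W) (i j l : Fin 2) :
    chr1 (slice h t) i j l y = chr1 h i.castSucc j.castSucc l.castSucc (lift t y) := by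
  simp only [chr1, pd_slice hh hy]

end

end GaussAux

open GaussAux in
theorem gauss {h : Met 3} {W : Set (E 3)} (hh : IsMet h W) {t : ℝ} {y : E 2} (hy : lift t y ∈ W)
    (h0 : lap h (fun z => z 2) (lift t y) = 0) :
    KS h (fun z => z 2) (lift t y) = scal (slice h t) y / 2 := by
  have hu : Sm W (fun z : E 3 => z 2) := sm_coord W 2
  have hG := hh.inv_symm hy
  have ha : (h (lift t y))⁻¹ 2 2 ≠ 0 := ((hh.pos _ hy).inv.diag_pos (i := 2)).ne'
  have hm : tan (h (lift t y))⁻¹ * slice h t y = 1 := tan_mul _ _ hG ha (hh.inv_mul hy)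
  have hinv : (slice h t y)⁻¹ = tan (h (lift t y))⁻¹ := Matrix.inv_eq_left_inv hm
  have hdet : dG (h (lift t y))⁻¹ / (h (lift t y))⁻¹ 2 2 * (slice h t y).det = 1 := by
    rw [← det_tan _ hG ha, ← Matrix.det_mul, hm, Matrix.det_one]
  have hA := algA _ (fun i j k l => riem h i j k l (lift t y)) hG (riem_anti_left hh hy)
    (riem_anti_right hh hy) (riem_swap hh hy)
  have hC := algC _ (fun i j => hess h (fun z => z 2) i j (lift t y)) hG (hh.hess_symm hu hy) h0
  have hB : riem h 0 1 0 1 (lift t y) = riem (slice h t) 0 1 0 1 y +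
      (hess h (fun z => z 2) 1 0 (lift t y) * hess h (fun z => z 2) 0 1 (lift t y) -
        hess h (fun z => z 2) 1 1 (lift t y) * hess h (fun z => z 2) 0 0 (lift t y)) /
          (h (lift t y))⁻¹ 2 2 := by
    simp only [riem, hess_u, pd2_slice hh hy, chr1_slice hh hy, hinv, c0, c1]
    rw [algB _ hG ha]
    ring
  have h2 := scal_two (hh.slice t) (x := y) hy
  have hs : scal h (lift t y) = ∑ j, ∑ l, (h (lift t y))⁻¹ j l *
      ∑ i, ∑ k, (h (lift t y))⁻¹ i k * riem h i j k l (lift t y) := by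
    simp only [scal, ric_eq_riem hh hy]
  have hr : ricq h (fun z => z 2) (lift t y) = ∑ j, ∑ l,
      (∑ i, ∑ k, (h (lift t y))⁻¹ i k * riem h i j k l (lift t y)) * (h (lift t y))⁻¹ j 2 *
        (h (lift t y))⁻¹ l 2 := by
    simp only [ricq, ric_eq_riem hh hy, gr_u]
  have hg : gam h (gam h (fun z => z 2) (fun z => z 2)) (gam h (fun z => z 2) (fun z => z 2))
      (lift t y) = ∑ i, ∑ j, (h (lift t y))⁻¹ i j *
        (∑ k, (hess h (fun z => z 2) i k (lift t y) * (h (lift t y))⁻¹ k 2 +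
          hess h (fun z => z 2) i k (lift t y) * (h (lift t y))⁻¹ k 2)) *
        ∑ k, (hess h (fun z => z 2) j k (lift t y) * (h (lift t y))⁻¹ k 2 +
          hess h (fun z => z 2) j k (lift t y) * (h (lift t y))⁻¹ k 2) := by
    rw [gam]
    simp only [pd_gam hh hu hu hy, gr_u]
  rw [← hs, ← hr] at hA
  rw [← hg] at hC
  change _ - _ * hsq h (fun z => z 2) (lift t y) / 2 = _ at hC
  rw [hh.hess_symm hu hy 1 0] at hB
  rw [KS, gam_u]
  generalize gam h (gam h (fun z => z 2) (fun z => z 2)) (gam h (fun z => z 2) (fun z => z 2))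
    (lift t y) = w at hC ⊢
  generalize (h (lift t y))⁻¹ 2 2 = a at ha hdet hA hB hC ⊢
  generalize dG (h (lift t y))⁻¹ = d at hdet hA hC
  have e1 : scal h (lift t y) / 2 - ricq h (fun z => z 2) (lift t y) / a =
      d / a * riem h 0 1 0 1 (lift t y) := by
    field_simp
    linear_combination 2 * hA
  have e2 : (w / (4 * a) - hsq h (fun z => z 2) (lift t y) / 2) / a =
      d / a * ((hess h (fun z => z 2) 0 0 (lift t y) * hess h (fun z => z 2) 1 1 (lift t y) -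
        hess h (fun z => z 2) 0 1 (lift t y) * hess h (fun z => z 2) 0 1 (lift t y)) / a) := by
    field_simp
    linear_combination 8 * hC
  rw [e1, e2, hB, ← h2]
  linear_combination (scal (slice h t) y / 2) * hdet

end Pool.Agent.P.MP_56a1cd_gt
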