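import Pool.Agent.P.MP_56a1cd_gt.CapD
import Pool.Agent.P.MP_56a1cd_gt.GreenSh
import Pool.Agent.P.MP_56a1cd_gt.L2

namespace Pool.Agent.P.MP_56a1cd_gt

open MeasureTheory Matrix Set Filter Topology
open scoped ContDiff ENNReal

variable {m n : ℕ}

/-! Green identities on a cap. -/

namespace GreenAux

/-- The integrand of the Green identity. -/
noncomputable def Q (g : Met 3) (f h : E 3 → ℝ) (x : E 3) : ℝ :=
  (gam g f h x + f x * lap g h x) * vol g x

theorem Q_zero (g : Met 3) {f : E 3 → ℝ} (h : E 3 → ℝ) {x : E 3} {O : Set (E 3)} (hO : IsOpen O)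
    (hx : x ∈ O) (h0 : ∀ y ∈ O, f y = 0) : Q g f h x = 0 := by
  have e : f =ᶠ[𝓝 x] fun _ => (0 : ℝ) := by
    filter_upwards [hO.mem_nhds hx] with y hy using h0 y hy
  have e1 : gam g f h x = gam g (fun _ => (0 : ℝ)) h x :=
    gam_congr rfl e (EventuallyEq.refl _ _)
  unfold Q
  rw [e1, gam_const_left, h0 x hx]
  simp

theorem Q_cont {g : Met 3} {U : Set (E 3)} (hg : IsMet g U) {f h : E 3 → ℝ} (hf : Sm U f)
    (hh : Sm U h) : ContinuousOn (Q g f h) U := by
  have h1 := (hg.sm_gam hf hh).continuousOn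
  have h2 := (hg.sm_lap hh).continuousOn
  have h3 := hg.sm_vol.continuousOn
  exact (h1.add (hf.continuousOn.mul h2)).mul h3

variable {φ : E 3 → ℝ}

theorem interior_sub (C : Cap φ) : interior C.M ⊆ C.Ω := interior_subset.trans C.M_sub

theorem integ (C : Cap φ) {f h : E 3 → ℝ} (hf : Sm C.Ω f) (hh : Sm C.Ω h)
    {K : Set (E 3)} (hK : IsCompact K) (h0 : ∀ x ∈ C.M, x ∉ K → f x = 0) :
    IntegrableOn (Q C.g f h) C.M := by
  have hc : IsCompact ((K ∩ C.M) ∪ ((interior C.M)ᶜ ∩ C.M)) :=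
    (hK.inter_right C.closed).union (C.isCompact_compl_interior.inter_right C.closed)
  have hs : (K ∩ C.M) ∪ ((interior C.M)ᶜ ∩ C.M) ⊆ C.M :=
    union_subset inter_subset_right inter_subset_right
  refine integrableOn_of_cpt C.closed.measurableSet hc hs
    ((Q_cont C.met' hf hh).mono (hs.trans C.M_sub)) ?_
  intro x hx hn
  have h1 : x ∉ K := fun h => hn (Or.inl ⟨h, hx⟩)
  have h2 : x ∈ interior C.M := by
    by_contra h
    exact hn (Or.inr ⟨h, hx⟩)
  exact Q_zero C.g h (isOpen_interior.inter hK.isClosed.isOpen_compl) ⟨h2, h1⟩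
    fun y hy => h0 y (interior_subset hy.1) hy.2

/-- The part that is supported in the interior. -/
theorem inner_part (C : Cap φ) {f h : E 3 → ℝ} (hf : Sm C.Ω f) (hh : Sm C.Ω h)
    {K : Set (E 3)} (hK : IsCompact K) (hKM : K ⊆ interior C.M)
    (h0 : ∀ x ∈ interior C.M, x ∉ K → f x = 0) : ∫ x in C.M, Q C.g f h x = 0 := by
  have hg : IsMet C.g (interior C.M) := C.met'.mono isOpen_interior (interior_sub C)
  obtain ⟨i1, i2, e⟩ := ibp hg (hf.mono (interior_sub C)) (hh.mono (interior_sub C)) hK hKM h0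
  rw [← setIntegral_congr_set C.interior_ae_eq]
  have : ∀ x, Q C.g f h x = gam C.g f h x * vol C.g x + f x * lap C.g h x * vol C.g x := by
    intro x
    unfold Q
    ring
  simp only [this]
  rw [integral_add i1 i2, e]
  ring

/-- The part that is supported in the collar. -/
theorem collar_part (hφ : Hom0 φ) (C : Cap φ) {f h : E 3 → ℝ} (hf : Sm C.Ω f) (hh : Sm C.Ω h)
    (h0 : ∀ z ∈ C.M, z ∉ C.Φ '' Shc C.a (C.a + 2 * C.h / 3) → f z = 0) :
    ∫ x in C.M, Q C.g f h x = ∫ p, f (C.bp p) * C.fl h p ∂aM φ := by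
  have hp := C.h_pos
  have hb1 : Shc C.a (C.a + 2 * C.h / 3) ⊆ C.W := C.Shc_subset_W (by linarith) (by linarith)
  have hb2 : Shc C.a (C.a + 5 * C.h / 6) ⊆ C.W := C.Shc_subset_W (by linarith) (by linarith)
  have hA : Sh C.a (C.a + 5 * C.h / 6) ⊆ C.W := fun x hx => hb2 ⟨hx.1.le, hx.2.le⟩
  have hlt : Real.exp (C.a + 2 * C.h / 3) < Real.exp (C.a + 5 * C.h / 6) :=
    Real.exp_lt_exp.2 (by linarith)
  have hcl : IsClosed (C.Φ '' Shc C.a (C.a + 2 * C.h / 3)) :=
    ((isCompact_Shc _ _).image_of_continuousOn (C.chart'.sm.continuousOn.mono hb1)).isClosed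
  have hsub : C.Φ '' Sh C.a (C.a + 5 * C.h / 6) ⊆ interior C.M := by
    rintro _ ⟨y, hy, rfl⟩
    exact (C.mem_interior_iff (hA hy)).2 hy.1
  have e1 : ∫ x in interior C.M, Q C.g f h x =
      ∫ x in C.Φ '' Sh C.a (C.a + 5 * C.h / 6), Q C.g f h x := by
    refine setIntegral_eq_of_subset_of_forall_sdiff_eq_zero isOpen_interior.measurableSet hsub ?_
    intro x hx
    have hn : x ∉ C.Φ '' Shc C.a (C.a + 2 * C.h / 3) := by
      rintro ⟨y, hy, rfl⟩
      exact hx.2 ⟨y, ⟨(C.mem_interior_iff (hb1 hy)).1 hx.1, hy.2.trans_lt hlt⟩, rfl⟩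
    exact Q_zero C.g h (isOpen_interior.inter hcl.isOpen_compl) ⟨hx.1, hn⟩
      fun y hy => h0 y (interior_subset hy.1) hy.2
  have e2 := C.chart'.integral C.g (isOpen_Sh C.a (C.a + 5 * C.h / 6)).measurableSet hA
    (fun x => gam C.g f h x + f x * lap C.g h x)
  have e3 : ∫ y in Sh C.a (C.a + 5 * C.h / 6),
      (gam C.g f h (C.Φ y) + f (C.Φ y) * lap C.g h (C.Φ y)) * vol (pull C.Φ C.g) y =
      ∫ y in Sh C.a (C.a + 5 * C.h / 6),
        (gam (cyl φ C.N) (fun z => f (C.Φ z)) (fun z => h (C.Φ z)) y +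
          f (C.Φ y) * lap (cyl φ C.N) (fun z => h (C.Φ z)) y) * vol (cyl φ C.N) y := by
    refine setIntegral_congr_fun (isOpen_Sh _ _).measurableSet fun y hy => ?_
    have hv : vol (pull C.Φ C.g) y = vol (cyl φ C.N) y := by
      unfold vol
      rw [C.cylΦ y (hA hy)]
    rw [C.gam_Φ hf hh (hA hy), C.lap_Φ hh (hA hy), hv]
  have e4 := green_sh (N := C.N) (f := fun z => f (C.Φ z)) (h := fun z => h (C.Φ z)) hφ C.isOpen_W
    (fun x hx => C.ne_zero_of_mem_W hx)
    (C.N_hom.sm.mono fun x hx => C.ne_zero_of_mem_W hx)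
    (fun x hx => C.N_pos x (C.ne_zero_of_mem_W hx))
    (C.chart'.sm_comp C.mapsΦ hf) (C.chart'.sm_comp C.mapsΦ hh)
    (α := C.a) (β := C.a + 5 * C.h / 6) (by linarith) hb2
  have e5 : ∫ p, f (C.Φ (Real.exp (C.a + 5 * C.h / 6) • p)) *
      rad (fun z => h (C.Φ z)) (Real.exp (C.a + 5 * C.h / 6) • p) /
        C.N (Real.exp (C.a + 5 * C.h / 6) • p) ∂aM φ = 0 := by
    refine integral_eq_zero_of_ae ?_
    filter_upwards [ae_sph φ] with p hp
    have hW : Real.exp (C.a + 5 * C.h / 6) • p ∈ C.W :=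
      C.exp_smul_mem_W hp (by linarith) (by linarith)
    have hn := nrm_exp_smul (C.a + 5 * C.h / 6) hp
    have hM : C.Φ (Real.exp (C.a + 5 * C.h / 6) • p) ∈ C.M := by
      refine (C.side _ hW).2 ?_
      rw [hn]
      exact Real.exp_le_exp.2 (by linarith)
    have hz : f (C.Φ (Real.exp (C.a + 5 * C.h / 6) • p)) = 0 := by
      refine h0 _ hM ?_
      rintro ⟨y, hy, e⟩
      have := C.chart'.inj (hb1 hy) hW e
      have h2 := hy.2
      rw [this, hn] at h2
      exact absurd h2 (not_le.2 hlt)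
    simp [hz]
  have e6 : ∫ p, f (C.bp p) * C.fl h p ∂aM φ =
      -∫ p, f (C.Φ (Real.exp C.a • p)) * rad (fun z => h (C.Φ z)) (Real.exp C.a • p) /
        C.N (Real.exp C.a • p) ∂aM φ := by
    rw [← integral_neg]
    refine integral_congr_ae (Eventually.of_forall fun p => ?_)
    simp only [Cap.bp, Cap.fl]
    rw [C.N_hom.hom p _ (Real.exp_pos _)]
    ring
  rw [← setIntegral_congr_set C.interior_ae_eq, e1]
  unfold Q
  rw [e2, e3, e4, e5, e6]
  ring

theorem green' (hφ : Hom0 φ) (C : Cap φ) {f h : E 3 → ℝ} (hf : Sm C.Ω f) (hh : Sm C.Ω h)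
    {K : Set (E 3)} (hK : IsCompact K) (h0 : ∀ x ∈ C.M, x ∉ K → f x = 0) :
    ∫ x in C.M, Q C.g f h x = ∫ p, f (C.bp p) * C.fl h p ∂aM φ := by
  obtain ⟨ζ, hζ, -, -, -, z1, z2, z0⟩ := C.exists_zeta
  have hp := C.h_pos
  have s1 : Sm C.Ω (fun x => ζ x * f x) := hζ.contDiffOn.mul hf
  have s2 : Sm C.Ω (fun x => f x - ζ x * f x) := hf.sub s1
  have i1 := integ C s1 hh hK fun x hx hn => by simp [h0 x hx hn]
  have i2 := integ C s2 hh hK fun x hx hn => by simp [h0 x hx hn]
  have e : ∫ x in C.M, Q C.g f h x =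
      ∫ x in C.M, (Q C.g (fun x => ζ x * f x) h x + Q C.g (fun x => f x - ζ x * f x) h x) := by
    refine setIntegral_congr_fun C.closed.measurableSet fun x hx => ?_
    have d1 := sm_da C.isOpen_Ω hf (C.M_sub hx)
    have d2 := sm_da C.isOpen_Ω s1 (C.M_sub hx)
    simp only [Q]
    rw [gam_sub_left C.g d1 d2]
    ring
  obtain ⟨O, hO, hO1, hO2⟩ := mem_nhdsSet_iff_exists.1 z2
  have e2 : ∫ x in C.M, Q C.g (fun x => f x - ζ x * f x) h x = 0 := by
    refine inner_part C s2 hh (hK.inter_right hO.isClosed_compl) ?_ ?_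
    · intro x hx
      by_contra hn
      exact hx.2 (hO1 hn)
    · intro x hx hn
      by_cases hxK : x ∈ K
      · have hxO : x ∈ O := by
          by_contra h'
          exact hn ⟨hxK, h'⟩
        have : ζ x = 1 := hO2 hxO
        simp [this]
      · simp [h0 x (interior_subset hx) hxK]
  have e1 := collar_part hφ C s1 hh fun z hz hn => by simp [z0 z hz hn]
  rw [e, integral_add i1 i2, e1, e2, add_zero]
  refine integral_congr_ae ?_
  filter_upwards [ae_sph φ] with p hp'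
  have hn := nrm_exp_smul C.a hp'
  have : ζ (C.bp p) = 1 := by
    refine z1 _ ⟨?_, ?_⟩
    · rw [hn]
      exact Real.exp_lt_exp.2 (by linarith)
    · rw [hn]
      exact Real.exp_lt_exp.2 (by linarith)
  simp [this]

/-- The primitive of `θ` that vanishes at zero. -/
noncomputable def prim (θ : ℝ → ℝ) (t : ℝ) : ℝ := ∫ τ in (0 : ℝ)..t, θ τ

theorem prim_deriv {θ : ℝ → ℝ} (hθ : Continuous θ) (t : ℝ) : HasDerivAt (prim θ) (θ t) t :=
  (hθ.integral_hasStrictDerivAt 0 t).hasDerivAt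

theorem prim_sm {θ : ℝ → ℝ} (hθ : ContDiff ℝ ∞ θ) : ContDiff ℝ ∞ (prim θ) := by
  rw [contDiff_infty_iff_deriv]
  refine ⟨fun t => (prim_deriv hθ.continuous t).differentiableAt, ?_⟩
  have : deriv (prim θ) = θ := funext fun t => (prim_deriv hθ.continuous t).deriv
  rw [this]
  exact hθ

theorem prim_zero {θ : ℝ → ℝ} {σ : ℝ} (hσ : 0 < σ) (h0 : ∀ t, t ≤ σ → θ t = 0) {t : ℝ}
    (ht : t ≤ σ) : prim θ t = 0 := by
  unfold prim
  rw [intervalIntegral.integral_congr (g := fun _ => (0 : ℝ))]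
  · simp
  · intro τ hτ
    exact h0 τ (hτ.2.trans (max_le hσ.le ht))

theorem green_prim (hφ : Hom0 φ) (C : Cap φ) {u v : E 3 → ℝ} (hu : Sm C.Ω u) (hv : Sm C.Ω v)
    (hl : ∀ x ∈ C.M, lap C.g v x = 0) {θ : ℝ → ℝ} (hθ : ContDiff ℝ ∞ θ) {σ : ℝ} (hσ : 0 < σ)
    (h0 : ∀ t, t ≤ σ → θ t = 0) (hc : IsCompact {x | x ∈ C.M ∧ σ ≤ u x}) :
    IntegrableOn (fun x => θ (u x) * gam C.g u v x * vol C.g x) C.M ∧
      ∫ x in C.M, θ (u x) * gam C.g u v x * vol C.g x =
        ∫ p, prim θ (u (C.bp p)) * C.fl v p ∂aM φ := by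
  have hf : Sm C.Ω (fun x => prim θ (u x)) :=
    sm_comp_real hu (prim_sm hθ).contDiffOn (mapsTo_univ _ _)
  have hz : ∀ x ∈ C.M, x ∉ {x | x ∈ C.M ∧ σ ≤ u x} → prim θ (u x) = 0 := by
    intro x hx hn
    refine prim_zero hσ h0 ?_
    by_contra h'
    exact hn ⟨hx, (not_le.1 h').le⟩
  have e : EqOn (Q C.g (fun x => prim θ (u x)) v)
      (fun x => θ (u x) * gam C.g u v x * vol C.g x) C.M := by
    intro x hx
    simp only [Q]
    rw [gam_comp_left C.g (sm_da C.isOpen_Ω hu (C.M_sub hx)) (prim_deriv hθ.continuous _),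
      hl x hx]
    ring
  refine ⟨(integ C hf hv hc hz).congr_fun e C.closed.measurableSet, ?_⟩
  rw [← setIntegral_congr_fun C.closed.measurableSet e]
  exact green' hφ C hf hv hc hz

/-- The approximating step functions. -/
noncomputable def th (k : ℕ) (t : ℝ) : ℝ := stp (((k : ℝ) + 1) * t)

theorem th_sm (k : ℕ) : ContDiff ℝ ∞ (th k) :=
  stp_sm.comp (contDiff_const.mul contDiff_id)

theorem th_zero (k : ℕ) (t : ℝ) (ht : t ≤ 1 / ((k : ℝ) + 1)) : th k t = 0 := by
  refine stp_zero ?_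
  have h : (0 : ℝ) < (k : ℝ) + 1 := by positivity
  rw [le_div_iff₀ h] at ht
  linarith

theorem th_abs (k : ℕ) (t : ℝ) : |th k t| ≤ 1 := by
  have := stp_mem (((k : ℝ) + 1) * t)
  rw [abs_le]
  unfold th
  constructor <;> linarith [this.1, this.2]

theorem th_lim {t : ℝ} (ht : 0 < t) : Tendsto (fun k => th k t) atTop (𝓝 1) := by
  refine tendsto_const_nhds.congr' ?_
  obtain ⟨N, hN⟩ := exists_nat_ge (2 / t)
  filter_upwards [eventually_ge_atTop N] with k hk
  refine (stp_one ?_).symm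
  have h1 : (N : ℝ) ≤ k := by exact_mod_cast hk
  rw [div_le_iff₀ ht] at hN
  nlinarith

theorem prim_abs (k : ℕ) (t : ℝ) : |prim (th k) t| ≤ |t| := by
  have := intervalIntegral.norm_integral_le_of_norm_le_const (a := 0) (b := t) (C := 1)
    (f := th k) fun x _ => th_abs k x
  simpa [prim] using this

theorem prim_lim {t : ℝ} (ht : 0 < t) : Tendsto (fun k => prim (th k) t) atTop (𝓝 t) := by
  have h := intervalIntegral.tendsto_integral_filter_of_dominated_convergence (μ := volume)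
    (a := 0) (b := t) (l := atTop) (F := fun k => th k) (f := fun _ => (1 : ℝ))
    (fun _ => (1 : ℝ))
    (Eventually.of_forall fun k => (th_sm k).continuous.aestronglyMeasurable)
    (Eventually.of_forall fun k => Eventually.of_forall fun x _ => th_abs k x)
    intervalIntegrable_const
    (Eventually.of_forall fun x hx => th_lim (by
      rw [uIoc_of_le ht.le] at hx
      exact hx.1))
  simpa [prim] using h

end GreenAux

open GreenAux

section
variable {φ : E 3 → ℝ}

theorem green (hφ : Hom0 φ) (C : Cap φ) {f h : E 3 → ℝ} (hf : Sm C.Ω f) (hh : Sm C.Ω h)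
    {K : Set (E 3)} (hK : IsCompact K) (h0 : ∀ x ∈ C.M, x ∉ K → f x = 0) :
    IntegrableOn (fun x => (gam C.g f h x + f x * lap C.g h x) * vol C.g x) C.M ∧
      ∫ x in C.M, (gam C.g f h x + f x * lap C.g h x) * vol C.g x =
        ∫ p, f (C.bp p) * C.fl h p ∂aM φ :=
  ⟨integ C hf hh hK h0, green' hφ C hf hh hK h0⟩

theorem green_pot (hφ : Hom0 φ) (C : Cap φ) {u v : E 3 → ℝ} (hu : Sm C.Ω u) (hv : Sm C.Ω v)
    (hl : ∀ x ∈ C.M, lap C.g v x = 0) (hp : ∀ x ∈ C.M, 0 < u x)
    (hc : ∀ t, 0 < t → IsCompact {x | x ∈ C.M ∧ t ≤ u x})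
    (iu : IntegrableOn (fun x => gam C.g u u x * vol C.g x) C.M)
    (iv : IntegrableOn (fun x => gam C.g v v x * vol C.g x) C.M) :
    IntegrableOn (fun x => gam C.g u v x * vol C.g x) C.M ∧
      ∫ x in C.M, gam C.g u v x * vol C.g x = ∫ p, u (C.bp p) * C.fl v p ∂aM φ := by
  have hM := C.closed.measurableSet
  have c1 : ContinuousOn (fun x => gam C.g u v x * vol C.g x) C.M :=
    ((C.met'.sm_gam hu hv).continuousOn.mul C.met'.sm_vol.continuousOn).mono C.M_sub
  have i1 : IntegrableOn (fun x => gam C.g u v x * vol C.g x) C.M := by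
    refine Integrable.mono' (iu.add iv) (c1.aestronglyMeasurable hM) ?_
    filter_upwards [ae_restrict_mem hM] with x hx
    have hd := C.met'.pos x (C.M_sub hx)
    have a1 := gam_nonneg hd u
    have a2 := gam_nonneg hd v
    have a3 := gam_sq_le hd u v
    have a4 := vol_nonneg C.g x
    have a5 : |gam C.g u v x| ≤ gam C.g u u x + gam C.g v v x := by
      refine abs_le_of_sq_le_sq' ?_ (by linarith) |> abs_le.2
      nlinarith [mul_nonneg a1 a2]
    rw [Real.norm_eq_abs, abs_mul, abs_of_nonneg a4]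
    simp only [Pi.add_apply]
    nlinarith
  refine ⟨i1, ?_⟩
  have key := fun k : ℕ => green_prim hφ C hu hv hl (th_sm k) (σ := 1 / ((k : ℝ) + 1))
    (by positivity) (th_zero k) (hc _ (by positivity))
  have l1 : Tendsto (fun k : ℕ => ∫ x in C.M, th k (u x) * gam C.g u v x * vol C.g x) atTop
      (𝓝 (∫ x in C.M, gam C.g u v x * vol C.g x)) := by
    refine tendsto_integral_of_dominated_convergence (fun x => ‖gam C.g u v x * vol C.g x‖)
      (fun k => (key k).1.aestronglyMeasurable) i1.norm ?_ ?_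
    · intro k
      refine Eventually.of_forall fun x => ?_
      rw [mul_assoc, norm_mul]
      exact mul_le_of_le_one_left (norm_nonneg _) (th_abs k _)
    · filter_upwards [ae_restrict_mem hM] with x hx
      have := ((th_lim (hp x hx)).mul_const (gam C.g u v x)).mul_const (vol C.g x)
      simpa using this
  have cb : ContinuousOn (fun p => u (C.bp p)) sph :=
    hu.continuousOn.comp C.continuousOn_bp fun p hp' => C.M_sub (C.bp_mem hp')
  have cf := C.continuousOn_fl hv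
  have l2 : Tendsto (fun k : ℕ => ∫ p, prim (th k) (u (C.bp p)) * C.fl v p ∂aM φ) atTop
      (𝓝 (∫ p, u (C.bp p) * C.fl v p ∂aM φ)) := by
    refine tendsto_integral_of_dominated_convergence (fun p => ‖u (C.bp p) * C.fl v p‖)
      (fun k => ?_) (integrable_aM hφ (cb.mul cf)).norm ?_ ?_
    · exact (integrable_aM hφ
        (((prim_sm (th_sm k)).continuous.comp_continuousOn cb).mul cf)).aestronglyMeasurable
    · intro k
      refine Eventually.of_forall fun p => ?_
      rw [norm_mul, norm_mul]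
      exact mul_le_mul_of_nonneg_right (prim_abs k _) (norm_nonneg _)
    · filter_upwards [ae_sph φ] with p hp'
      exact (prim_lim (hp _ (C.bp_mem hp'))).mul_const _
  exact tendsto_nhds_unique l1 (l2.congr fun k => (key k).2.symm)

theorem Pot.energy (hφ : Hom0 φ) {C : Cap φ} (P : Pot C) :
    ∫ x in C.M, gam C.g P.G P.G x * vol C.g x = 4 * Real.pi * P.T := by
  rw [(green_pot hφ C P.sm P.sm (fun x hx => P.harm x (C.M_sub hx)) P.pos P.cpt P.int P.int).2]
  have e : ∫ p, P.G (C.bp p) * C.fl P.G p ∂aM φ = ∫ p, P.T * C.fl P.G p ∂aM φ := by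
    refine integral_congr_ae ?_
    filter_upwards [ae_sph φ] with p hp
    rw [P.G_bp hp]
  rw [e, integral_const_mul, P.flux]
  ring

theorem Pot.level_mass (hφ : Hom0 φ) {C : Cap φ} (P : Pot C) {θ : ℝ → ℝ} (hθ : ContDiff ℝ ∞ θ)
    {σ : ℝ} (hσ : 0 < σ) (h0 : ∀ t, t ≤ σ → θ t = 0) :
    IntegrableOn (fun x => θ (P.G x) * gam C.g P.G P.G x * vol C.g x) C.M ∧
      ∫ x in C.M, θ (P.G x) * gam C.g P.G P.G x * vol C.g x =
        4 * Real.pi * ∫ t in (0 : ℝ)..P.T, θ t := by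
  obtain ⟨i, e⟩ := green_prim hφ C P.sm P.sm (fun x hx => P.harm x (C.M_sub hx)) hθ hσ h0
    (P.cpt σ hσ)
  refine ⟨i, ?_⟩
  have e' : ∫ p, prim θ (P.G (C.bp p)) * C.fl P.G p ∂aM φ =
      ∫ p, prim θ P.T * C.fl P.G p ∂aM φ := by
    refine integral_congr_ae ?_
    filter_upwards [ae_sph φ] with p hp
    rw [P.G_bp hp]
  rw [e, e', integral_const_mul, P.flux]
  unfold prim
  ring

end

end Pool.Agent.P.MP_56a1cd_gt
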