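import Pool.Agent.P.MP_56a1cd_gt.Weak
import Pool.Agent.P.MP_56a1cd_gt.CalcB

namespace Pool.Agent.P.MP_56a1cd_gt

open MeasureTheory Matrix Set Filter Topology
open scoped ContDiff ENNReal

variable {m n : ℕ}

/-! PLAN. Difference quotients. The coefficients are bounded, globally Lipschitz
(`|a (x + t e) - a x| ≤ C |t|`) and uniformly elliptic because they equal the identity off a compact
set (`IsMet.ellip`). By `exists_test_approx` and `tendsto_integral_mul` the weak equation holds for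
every `ψ` in `L²` with weak derivatives `r i` in `L²`: `∫ ∑ a i j * p j * r i = -∫ f * ψ`. Write
`τ u = u (· + t e)`, `δ u = τ u - u`, `δ' u = u (· - t e) - u`. Take `ψ = δ' (δ w)`, `r i = δ' (δ (p i))`.
Since `∫ A * δ' B = ∫ δ A * B` and `δ (a p) = τ a * δ p + δ a * p`, one gets
`c ∑ ‖δ p j‖² ≤ C |t| ‖p‖ ‖δ p‖ + ‖f‖ ‖δ' δ w‖` and `‖δ' δ w‖ ≤ |t| ‖δ (p k)‖` by `translate_le`. Hence
`‖δ p j‖ ≤ C' |t|`; finish with `wd_of_quotients`. -/

namespace H2Aux

/-- The difference operator. -/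
def dl (y : E n) (u : E n → ℝ) (x : E n) : ℝ := u (x + y) - u x

theorem memLp_shift {u : E n → ℝ} (hu : MemLp u 2 volume) (y : E n) :
    MemLp (fun x => u (x + y)) 2 volume :=
  hu.comp_measurePreserving (measurePreserving_add_right volume y)

theorem memLp_dl {u : E n → ℝ} (hu : MemLp u 2 volume) (y : E n) : MemLp (dl y u) 2 volume :=
  (memLp_shift hu y).sub hu

theorem int_mul {u v : E n → ℝ} (hu : MemLp u 2 volume) (hv : MemLp v 2 volume) :
    Integrable (fun x => u x * v x) volume := hu.integrable_mul hv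

theorem dl_adj {A B : E n → ℝ} (hA : MemLp A 2 volume) (hB : MemLp B 2 volume) (y : E n) :
    ∫ x, A x * dl (-y) B x = ∫ x, dl y A x * B x := by
  have h1 : ∫ x, A x * B (x + -y) = ∫ x, A (x + y) * B x := by
    rw [← integral_add_right_eq_self (fun x => A x * B (x + -y)) y]
    simp only [add_neg_cancel_right]
  simp only [dl, mul_sub, sub_mul]
  rw [integral_sub (int_mul hA (memLp_shift hB _)) (int_mul hA hB),
    integral_sub (int_mul (memLp_shift hA _) hB) (int_mul hA hB), h1]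

theorem wd_dl {i : Fin n} {u v : E n → ℝ} (h : WD univ i u v) (hu : MemLp u 2 volume)
    (hv : MemLp v 2 volume) (y : E n) : WD univ i (dl y u) (dl y v) := by
  have h1 := (h.translate y).add (h.cmul (-1)) (memLp_shift hu y) (memLp_shift hv y)
    (hu.const_mul _) (hv.const_mul _)
  have e : ∀ u : E n → ℝ, (fun x => u (x + y) + -1 * u x) = dl y u := fun u => by
    funext x
    simp only [dl]
    ring
  rwa [e, e] at h1

theorem memLp_mul {b u : E n → ℝ} {M : ℝ} (hb : Continuous b) (hM : ∀ x, |b x| ≤ M)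
    (hu : MemLp u 2 volume) : MemLp (fun x => b x * u x) 2 volume :=
  hu.of_le_mul (c := M) (hb.aestronglyMeasurable.mul hu.1) (ae_of_all _ fun x => by
    rw [norm_mul]
    exact mul_le_mul_of_nonneg_right (hM x) (norm_nonneg _))

/-- The weak equation holds for all functions in `H¹`. -/
theorem weak_ext {A : Fin n → E n → ℝ} {f ψ : E n → ℝ} {r : Fin n → E n → ℝ}
    (hA : ∀ i, MemLp (A i) 2 volume) (hf : MemLp f 2 volume)
    (he : ∀ φ, Test univ φ → ∑ i, ∫ x, A i x * pd i φ x = -∫ x, f x * φ x)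
    (hψ : MemLp ψ 2 volume) (hr : ∀ i, MemLp (r i) 2 volume) (h : ∀ i, WD univ i ψ (r i)) :
    ∑ i, ∫ x, A i x * r i x = -∫ x, f x * ψ x := by
  obtain ⟨φ, h1, h2, h3⟩ := exists_test_approx hψ hr h
  have hm : ∀ {g : E n → ℝ}, Test univ g → MemLp g 2 volume := fun hg =>
    hg.sm.continuous.memLp_of_hasCompactSupport hg.cpt
  have t1 : Tendsto (fun l => ∑ i, ∫ x, A i x * pd i (φ l) x) atTop
      (𝓝 (∑ i, ∫ x, A i x * r i x)) :=
    tendsto_finsetSum _ fun i _ =>
      tendsto_integral_mul (fun l => hm ((h1 l).pd i)) (hr i) (hA i) (h3 i)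
  have t2 := (tendsto_integral_mul (fun l => hm (h1 l)) hψ hf h2).neg
  exact tendsto_nhds_unique t1 (t2.congr fun l => (he _ (h1 l)).symm)

theorem coeff {a : Met n} (ha : IsMet a univ) {K : Set (E n)} (hK : IsCompact K)
    (h1 : ∀ x, x ∉ K → a x = 1) :
    ∃ M L : ℝ, (∀ x i j, |a x i j| ≤ M) ∧
      ∀ x y i j, |a (x + y) i j - a x i j| ≤ L * ‖y‖ := by
  have hs : ∀ i j, ContDiff ℝ ∞ fun x => a x i j - (1 : Matrix (Fin n) (Fin n) ℝ) i j :=
    fun i j => (contDiffOn_univ.1 (ha.sm i j)).sub contDiff_const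
  have hc : ∀ i j, HasCompactSupport fun x => a x i j - (1 : Matrix (Fin n) (Fin n) ℝ) i j :=
    fun i j => HasCompactSupport.intro hK fun x hx => by rw [h1 x hx, sub_self]
  choose M hM using fun i j => (hc i j).exists_bound_of_continuous (hs i j).continuous
  choose L hL using fun i j =>
    ContDiff.lipschitzWith_of_hasCompactSupport (hc i j) (hs i j) (by simp)
  have hle : ∀ (F : Fin n → Fin n → ℝ), (∀ i j, 0 ≤ F i j) → ∀ i j, F i j ≤ ∑ i, ∑ j, F i j :=
    fun F hF i j => (Finset.single_le_sum (fun j _ => hF i j) (Finset.mem_univ j)).trans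
      (Finset.single_le_sum (f := fun i => ∑ j, F i j)
        (fun i _ => Finset.sum_nonneg fun j _ => hF i j) (Finset.mem_univ i))
  refine ⟨∑ i, ∑ j, (M i j + |(1 : Matrix (Fin n) (Fin n) ℝ) i j|), ∑ i, ∑ j, (L i j : ℝ),
    fun x i j => ?_, fun x y i j => ?_⟩
  · refine le_trans ?_ (hle _ (fun i j => add_nonneg ((norm_nonneg _).trans (hM i j x))
      (abs_nonneg _)) i j)
    have h2 := abs_add_le (a x i j - (1 : Matrix (Fin n) (Fin n) ℝ) i j)
      ((1 : Matrix (Fin n) (Fin n) ℝ) i j)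
    rw [sub_add_cancel] at h2
    have h3 := hM i j x
    rw [Real.norm_eq_abs] at h3
    linarith
  · have h2 := (hL i j).dist_le_mul (x + y) x
    rw [Real.dist_eq, dist_eq_norm, add_sub_cancel_left, sub_sub_sub_cancel_right] at h2
    exact h2.trans (mul_le_mul_of_nonneg_right (hle (fun i j => (L i j : ℝ))
      (fun i j => (L i j).2) i j) (norm_nonneg _))

theorem ellip {a : Met n} (ha : IsMet a univ) {K : Set (E n)} (hK : IsCompact K)
    (h1 : ∀ x, x ∉ K → a x = 1) :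
    ∃ c : ℝ, 0 < c ∧ ∀ x (v : E n), c * ∑ i, v i ^ 2 ≤ ∑ i, ∑ j, a x i j * v j * v i := by
  obtain ⟨c, C, hc, -, h⟩ := ha.ellip hK (subset_univ _)
  refine ⟨min c 1, lt_min hc one_pos, fun x v => ?_⟩
  have e1 : ∑ i, v i ^ 2 = v ⬝ᵥ v := Finset.sum_congr rfl fun i _ => sq _
  have e2 : ∑ i, ∑ j, a x i j * v j * v i = v ⬝ᵥ a x *ᵥ v :=
    Finset.sum_congr rfl fun i _ => by
      rw [← Finset.sum_mul, mul_comm]
      rfl
  have h0 : 0 ≤ ∑ i, v i ^ 2 := Finset.sum_nonneg fun i _ => sq_nonneg _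
  by_cases hx : x ∈ K
  · refine (mul_le_mul_of_nonneg_right (min_le_left _ _) h0).trans ?_
    rw [e1, e2]
    exact ((h x hx).2.2 v).1
  · refine (mul_le_mul_of_nonneg_right (min_le_right _ _) h0).trans ?_
    rw [e1, e2, h1 x hx, one_mulVec, one_mul]

theorem amgm {s e L d p : ℝ} (hs : 0 < s) (he : e ^ 2 ≤ L) :
    -(s * d ^ 2 + L / (4 * s) * p ^ 2) ≤ e * p * d := by
  have h1 : e ^ 2 / (4 * s) * p ^ 2 ≤ L / (4 * s) * p ^ 2 := by gcongr
  have h2 : s * d ^ 2 + e * p * d + e ^ 2 / (4 * s) * p ^ 2 = (2 * s * d + e * p) ^ 2 / (4 * s) := by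
    field_simp
    ring
  have h3 : 0 ≤ (2 * s * d + e * p) ^ 2 / (4 * s) := by positivity
  linarith

theorem pointwise {c L : ℝ} (hc : 0 < c) {a b : Matrix (Fin n) (Fin n) ℝ} {p p' : Fin n → ℝ}
    (h : ∀ v : E n, c * ∑ i, v i ^ 2 ≤ ∑ i, ∑ j, b i j * v j * v i)
    (he : ∀ i j, (b i j - a i j) ^ 2 ≤ L) :
    c / 2 * ∑ i, (p' i - p i) ^ 2 - n * (L / (4 * (c / (2 * (n + 1))))) * ∑ j, p j ^ 2 ≤
      ∑ i, (∑ j, b i j * p' j - ∑ j, a i j * p j) * (p' i - p i) := by
  have hs : 0 < c / (2 * ((n : ℝ) + 1)) := by positivity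
  have h1 := h fun i => p' i - p i
  have h2 : ∑ i, ∑ j, -(c / (2 * ((n : ℝ) + 1)) * (p' i - p i) ^ 2 +
      L / (4 * (c / (2 * (n + 1)))) * p j ^ 2) ≤ ∑ i, ∑ j, (b i j - a i j) * p j * (p' i - p i) :=
    Finset.sum_le_sum fun i _ => Finset.sum_le_sum fun j _ => amgm hs (he i j)
  have h3 : ∑ i, (∑ j, b i j * p' j - ∑ j, a i j * p j) * (p' i - p i) =
      ∑ i, ∑ j, b i j * (p' j - p j) * (p' i - p i) +
        ∑ i, ∑ j, (b i j - a i j) * p j * (p' i - p i) := by
    rw [← Finset.sum_add_distrib]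
    refine Finset.sum_congr rfl fun i _ => ?_
    rw [← Finset.sum_add_distrib, ← Finset.sum_sub_distrib, Finset.sum_mul]
    exact Finset.sum_congr rfl fun j _ => by ring
  simp only [Finset.sum_neg_distrib, Finset.sum_add_distrib, Finset.sum_const, Finset.card_univ,
    Fintype.card_fin, nsmul_eq_mul, ← Finset.mul_sum, neg_add_rev] at h2
  have h0 : 0 ≤ ∑ i, (p' i - p i) ^ 2 := Finset.sum_nonneg fun i _ => sq_nonneg _
  have h4 : (n : ℝ) * (c / (2 * ((n : ℝ) + 1))) ≤ c / 2 := by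
    rw [← mul_div_assoc, div_le_div_iff₀ (by positivity) (by positivity)]
    nlinarith
  have h5 := mul_le_mul_of_nonneg_right h4 h0
  rw [h3]
  nlinarith

theorem final {c Q F t X : ℝ} (hc : 0 < c) (hX : 0 ≤ X) (hF : 0 ≤ F)
    (h : c / 2 * X - Q * t ^ 2 ≤ √F * √(t ^ 2 * X)) : X ≤ 4 / c * (Q + F / c) * t ^ 2 := by
  have h1 : √F * √(t ^ 2 * X) ≤ c / 4 * X + F / c * t ^ 2 := by
    rw [← Real.sqrt_mul hF]
    refine Real.sqrt_le_iff.2 ⟨by positivity, ?_⟩
    have h2 : (c / 4 * X + F / c * t ^ 2) ^ 2 - F * (t ^ 2 * X) =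
        (c / 4 * X - F / c * t ^ 2) ^ 2 := by
      field_simp
      ring
    nlinarith [sq_nonneg (c / 4 * X - F / c * t ^ 2)]
  have h3 : c / 4 * X ≤ (Q + F / c) * t ^ 2 := by linarith
  have h4 : X = 4 / c * (c / 4 * X) := by field_simp
  rw [h4, mul_assoc]
  exact mul_le_mul_of_nonneg_left h3 (by positivity)

end H2Aux

open H2Aux in
theorem h2_step {a : Met n} (ha : IsMet a univ) {K : Set (E n)} (hK : IsCompact K)
    (h1 : ∀ x, x ∉ K → a x = 1) {w f : E n → ℝ} {p : Fin n → E n → ℝ} (hw : MemLp w 2 volume)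
    (hp : ∀ j, MemLp (p j) 2 volume) (hd : ∀ j, WD univ j w (p j)) (hf : MemLp f 2 volume)
    (he : WeakEq univ a p f) (j k : Fin n) : ∃ q, MemLp q 2 volume ∧ WD univ k (p j) q := by
  obtain ⟨M, L, hM, hL⟩ := coeff ha hK h1
  obtain ⟨c, hc, hell⟩ := ellip ha hK h1
  have hcont : ∀ i l, Continuous fun x => a x i l :=
    fun i l => (contDiffOn_univ.1 (ha.sm i l)).continuous
  have hap : ∀ i l, MemLp (fun x => a x i l * p l x) 2 volume :=
    fun i l => memLp_mul (hcont i l) (fun x => hM x i l) (hp l)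
  let A : Fin n → E n → ℝ := fun i x => ∑ l, a x i l * p l x
  have hA : ∀ i, MemLp (A i) 2 volume := fun i => memLp_finsetSum _ fun l _ => hap i l
  have he' : ∀ φ, Test univ φ → ∑ i, ∫ x, A i x * pd i φ x = -∫ x, f x * φ x := by
    intro φ hφ
    rw [← he φ hφ, ← integral_finsetSum _ fun i _ => int_mul (hA i)
      ((hφ.pd i).sm.continuous.memLp_of_hasCompactSupport (hφ.pd i).cpt)]
    simp only [A, Finset.sum_mul]
  refine wd_of_quotients (hp j) k (C := 4 / c * (n * (L ^ 2 / (4 * (c / (2 * (n + 1))))) *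
    (∫ x, ∑ l, p l x ^ 2) + (∫ x, f x ^ 2) / c)) fun t => ?_
  set y : E n := Pi.single k t with hy
  have hd2 : ∀ i, MemLp (dl y (p i)) 2 volume := fun i => memLp_dl (hp i) y
  have hv : ∀ i, WD univ i (dl y w) (dl y (p i)) := fun i => wd_dl (hd i) hw (hp i) y
  have h2 := weak_ext hA hf he' (memLp_dl (memLp_dl hw y) (-y)) (fun i => memLp_dl (hd2 i) (-y))
    fun i => wd_dl (hv i) (memLp_dl hw y) (hd2 i) (-y)
  simp only [dl_adj (hA _) (hd2 _)] at h2
  rw [← integral_finsetSum _ fun i _ => int_mul (memLp_dl (hA i) y) (hd2 i)] at h2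
  have iS : Integrable (fun x => ∑ i, dl y (p i) x ^ 2) volume :=
    integrable_finsetSum _ fun i _ => (hd2 i).integrable_sq
  have iQ : Integrable (fun x => ∑ l, p l x ^ 2) volume :=
    integrable_finsetSum _ fun i _ => (hp i).integrable_sq
  have hle : ∀ i, ∫ x, dl y (p i) x ^ 2 ≤ ∫ x, ∑ i, dl y (p i) x ^ 2 := fun i =>
    integral_mono (hd2 i).integrable_sq iS fun x =>
      Finset.single_le_sum (f := fun i => dl y (p i) x ^ 2) (fun i _ => sq_nonneg _)
        (Finset.mem_univ i)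
  have h3 : ∫ x, (c / 2 * ∑ i, dl y (p i) x ^ 2 -
      n * (L ^ 2 * t ^ 2 / (4 * (c / (2 * (n + 1))))) * ∑ l, p l x ^ 2) ≤
      ∫ x, ∑ i, dl y (A i) x * dl y (p i) x := by
    refine integral_mono ((iS.const_mul _).sub (iQ.const_mul _))
      (integrable_finsetSum _ fun i _ => int_mul (memLp_dl (hA i) y) (hd2 i)) fun x => ?_
    refine pointwise hc (hell (x + y)) fun i l => ?_
    have h4 := hL x y i l
    rw [hy, Pi.norm_single, Real.norm_eq_abs] at h4
    rw [← sq_abs, ← sq_abs t, ← mul_pow]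
    exact pow_le_pow_left₀ (abs_nonneg _) h4 2
  rw [integral_sub (iS.const_mul _) (iQ.const_mul _), integral_const_mul, integral_const_mul,
    h2] at h3
  have h5 := abs_integral_mul_le hf (memLp_dl (memLp_dl hw y) (-y))
  have h6 := translate_le (memLp_dl hw y) (hd2 k) (hv k) (-t)
  rw [Pi.single_neg, ← hy, neg_sq] at h6
  have h7 : √(∫ x, dl (-y) (dl y w) x ^ 2) ≤ √(t ^ 2 * ∫ x, ∑ i, dl y (p i) x ^ 2) :=
    Real.sqrt_le_sqrt (h6.trans (mul_le_mul_of_nonneg_left (hle k) (sq_nonneg _)))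
  refine (hle j).trans (final hc
    (integral_nonneg fun x => Finset.sum_nonneg fun i _ => sq_nonneg _)
    (integral_nonneg fun x => sq_nonneg _) ?_)
  have h8 := (neg_le_abs _).trans (h5.trans (mul_le_mul_of_nonneg_left h7 (Real.sqrt_nonneg _)))
  refine le_trans (le_of_eq ?_) (h3.trans h8)
  ring

end Pool.Agent.P.MP_56a1cd_gt
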