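import Pool.Agent.P.MP_56a1cd_gt.Ibp
import Pool.Agent.P.MP_56a1cd_gt.H1Chart

namespace Pool.Agent.P.MP_56a1cd_gt

open MeasureTheory Matrix Set Filter Topology
open scoped ContDiff ENNReal

variable {m n : ℕ}

/-! PLAN. `hardy`: apply `integral_div_eq_zero` on `Ext r` to `Y i = η * v² * x i / |x|²` with
`η = stp (|x| / ρ)`, `ρ = r₁ / 2 > r`; `div (x / |x|²) = 1 / |x|²` in dimension three and the term with
the derivative of `η` is nonnegative, so `∫ η v² / |x|² ≤ 2 ∫ η |v| |∇v| / |x|`, and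
`2 |v| |∇v| / |x| ≤ v² / (2 |x|²) + 2 |∇v|²`. `hardy_limit`: `integrableOn_of_tendH1` on `Ext r₁`. -/

namespace HardyAux

/-- The radial weight of the vector field. -/
noncomputable def wt (ρ s : ℝ) : ℝ := stp (s / ρ) / s ^ 2

theorem hasDerivAt_wt (ρ : ℝ) {s : ℝ} (hs : s ≠ 0) :
    HasDerivAt (wt ρ) ((deriv stp (s / ρ) * (1 / ρ) * s ^ 2 - stp (s / ρ) * (2 * s)) / (s ^ 2) ^ 2)
      s := by
  have h1 : HasDerivAt (fun s => stp (s / ρ)) (deriv stp (s / ρ) * (1 / ρ)) s :=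
    HasDerivAt.comp (h₂ := stp) (h := fun s => s / ρ) s
      ((stp_sm.differentiable (by simp)) (s / ρ)).hasDerivAt ((hasDerivAt_id' s).div_const ρ)
  have h2 : HasDerivAt (fun s : ℝ => s ^ 2) (2 * s) s := by
    simpa using hasDerivAt_pow 2 s
  exact h1.div h2 (pow_ne_zero 2 hs)

theorem wt_nonneg (ρ s : ℝ) : 0 ≤ wt ρ s := div_nonneg (stp_mem _).1 (sq_nonneg _)

theorem Ext_ne {r : ℝ} (hr : 0 < r) {x : E 3} (hx : x ∈ (Ext r : Set (E 3))) : x ≠ 0 :=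
  ne_zero_of_nrm_pos (hr.trans hx)

theorem sm_nrm_Ext {r : ℝ} (hr : 0 < r) : Sm (Ext r : Set (E 3)) nrm :=
  sm_nrm.mono fun _ hx => Ext_ne hr hx

theorem sm_wt {r : ℝ} (hr : 0 < r) (ρ : ℝ) : Sm (Ext r : Set (E 3)) fun x => wt ρ (nrm x) := by
  refine ContDiffOn.div (stp_sm.comp_contDiffOn ((sm_nrm_Ext hr).div_const ρ))
    ((sm_nrm_Ext hr).pow 2) fun x hx => pow_ne_zero 2 (hr.trans hx).ne'

theorem pd_field {r : ℝ} (hr : 0 < r) (ρ : ℝ) {v : E 3 → ℝ} (hv : Sm (Ext r) v) {x : E 3}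
    (hx : x ∈ (Ext r : Set (E 3))) (i : Fin 3) :
    pd i (fun y => wt ρ (nrm y) * (v y * v y) * y i) x =
      ((deriv stp (nrm x / ρ) * (1 / ρ) * nrm x ^ 2 - stp (nrm x / ρ) * (2 * nrm x)) /
          (nrm x ^ 2) ^ 2 * (x i / nrm x) * (v x * v x) +
        wt ρ (nrm x) * (pd i v x * v x + v x * pd i v x)) * x i + wt ρ (nrm x) * (v x * v x) := by
  have hO := isOpen_Ext (n := 3) r
  have dv := sm_da hO hv hx
  have dw := sm_da hO (sm_wt hr ρ) hx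
  have dn := sm_da hO (sm_nrm_Ext hr) hx
  have dc := sm_da hO (sm_coord _ i) hx
  rw [pd_mul (dw.fun_mul (dv.fun_mul dv)) dc, pd_mul dw (dv.fun_mul dv), pd_mul dv dv,
    pd_comp_real dn (hasDerivAt_wt ρ (hr.trans hx).ne'), pd_nrm (Ext_ne hr hx), pd_coord,
    if_pos rfl, mul_one]

theorem alg {s ρ η d v x0 x1 x2 p0 p1 p2 : ℝ} (hs : 0 < s) (hρ : 0 < ρ) (h0 : 0 ≤ η) (h1 : η ≤ 1)
    (hd : 0 ≤ d) (hx : s ^ 2 = x0 * x0 + x1 * x1 + x2 * x2) :
    η / s ^ 2 * (v * v) ≤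
      2 * ((((d * (1 / ρ) * s ^ 2 - η * (2 * s)) / (s ^ 2) ^ 2 * (x0 / s) * (v * v) +
          η / s ^ 2 * (p0 * v + v * p0)) * x0 + η / s ^ 2 * (v * v)) +
        (((d * (1 / ρ) * s ^ 2 - η * (2 * s)) / (s ^ 2) ^ 2 * (x1 / s) * (v * v) +
          η / s ^ 2 * (p1 * v + v * p1)) * x1 + η / s ^ 2 * (v * v)) +
        (((d * (1 / ρ) * s ^ 2 - η * (2 * s)) / (s ^ 2) ^ 2 * (x2 / s) * (v * v) +
          η / s ^ 2 * (p2 * v + v * p2)) * x2 + η / s ^ 2 * (v * v))) +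
      4 * (p0 ^ 2 + p1 ^ 2 + p2 ^ 2) := by
  set c := (d * (1 / ρ) * s ^ 2 - η * (2 * s)) / (s ^ 2) ^ 2 with hc
  set q := v / s ^ 2 with hq
  have e1 : c * (x0 / s) * (v * v) * x0 + c * (x1 / s) * (v * v) * x1 + c * (x2 / s) * (v * v) * x2 =
      d / (ρ * s) * (v * v) - 2 * (η / s ^ 2 * (v * v)) := by
    have : c * (x0 / s) * (v * v) * x0 + c * (x1 / s) * (v * v) * x1 +
        c * (x2 / s) * (v * v) * x2 = c / s * (v * v) * (x0 * x0 + x1 * x1 + x2 * x2) := by ring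
    rw [this, ← hx, hc]
    field_simp
  have e2 : η / s ^ 2 * (v * v) = η * (q ^ 2 * (x0 * x0 + x1 * x1 + x2 * x2)) := by
    rw [← hx, hq]
    field_simp
  have e3 : ∀ p y : ℝ, η / s ^ 2 * (p * v + v * p) * y = η * (2 * p * q * y) := by
    intro p y
    rw [hq]
    ring
  have n1 : 0 ≤ d / (ρ * s) * (v * v) := mul_nonneg (by positivity) (mul_self_nonneg v)
  have n2 : 0 ≤ η * ((2 * p0 + q * x0) ^ 2 + (2 * p1 + q * x1) ^ 2 + (2 * p2 + q * x2) ^ 2) := by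
    positivity
  have n3 : 0 ≤ (1 - η) * (p0 ^ 2 + p1 ^ 2 + p2 ^ 2) := mul_nonneg (by linarith) (by positivity)
  have f0 := e3 p0 x0
  have f1 := e3 p1 x1
  have f2 := e3 p2 x2
  nlinarith [e1, e2, f0, f1, f2, n1, n2, n3]

theorem pointwise {r ρ : ℝ} (hr : 0 < r) (hρ : 0 < ρ) {v : E 3 → ℝ} (hv : Sm (Ext r) v) {x : E 3}
    (hx : x ∈ (Ext r : Set (E 3))) :
    wt ρ (nrm x) * (v x * v x) ≤
      2 * ∑ i, pd i (fun y => wt ρ (nrm y) * (v y * v y) * y i) x + 4 * ∑ i, pd i v x ^ 2 := by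
  simp only [pd_field hr ρ hv hx, Fin.sum_univ_three]
  have hn : nrm x ^ 2 = x 0 * x 0 + x 1 * x 1 + x 2 * x 2 := by
    rw [nrm_sq, dotProduct, Fin.sum_univ_three]
  exact alg (hr.trans hx) hρ (stp_mem _).1 (stp_mem _).2 (stp_deriv_nonneg _) hn

end HardyAux

open HardyAux

theorem hardy {r r₁ : ℝ} (hr : 0 < r) (h1 : 2 * r < r₁) {v : E 3 → ℝ} (hv : Sm (Ext r) v) {R : ℝ}
    (h0 : ∀ x, R ≤ nrm x → v x = 0) (hi : IntegrableOn (fun x => ∑ i, pd i v x ^ 2) (Ext r)) :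
    IntegrableOn (fun x => v x ^ 2 / nrm x ^ 2) (Ext r₁) ∧
      ∫ x in Ext r₁, v x ^ 2 / nrm x ^ 2 ≤ 4 * ∫ x in Ext r, ∑ i, pd i v x ^ 2 := by
  have hO := isOpen_Ext (n := 3) r
  have hO1 := isOpen_Ext (n := 3) r₁
  set ρ := r₁ / 2 with hρ
  have hρ0 : 0 < ρ := by linarith
  set K : Set (E 3) := {x | nrm x ≤ R} ∩ {x | ρ ≤ nrm x} with hK
  have hKc : IsCompact K :=
    (isCompact_nrm_le R).inter_right (isClosed_le continuous_const continuous_nrm)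
  have hKU : K ⊆ Ext r := fun x hx => by
    have : ρ ≤ nrm x := hx.2
    show r < nrm x
    linarith
  have hz : ∀ x, x ∉ K → wt ρ (nrm x) * (v x * v x) = 0 := by
    intro x hx
    by_cases h : R ≤ nrm x
    · rw [h0 x h]; simp
    · have h2 : nrm x < ρ := by
        by_contra h3
        exact hx ⟨(not_le.1 h).le, not_lt.1 h3⟩
      have : stp (nrm x / ρ) = 0 := stp_zero ((div_le_one hρ0).2 h2.le)
      simp [wt, this]
  have hf : Sm (Ext r) fun x => wt ρ (nrm x) * (v x * v x) := (sm_wt hr ρ).mul (hv.mul hv)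
  have hY : ∀ i : Fin 3, Sm (Ext r) fun y => wt ρ (nrm y) * (v y * v y) * y i := fun i =>
    hf.mul (sm_coord _ i)
  have hY0 : ∀ i : Fin 3, ∀ y ∈ (Ext r : Set (E 3)), y ∉ K →
      wt ρ (nrm y) * (v y * v y) * y i = 0 := fun i y _ hy => by rw [hz y hy, zero_mul]
  have hdiv := integral_div_eq_zero hO hY hKc hKU hY0
  have if1 : IntegrableOn (fun x => wt ρ (nrm x) * (v x * v x)) (Ext r) :=
    integrableOn_of_cpt hO.measurableSet hKc hKU (hf.continuousOn.mono hKU) fun x _ hx => hz x hx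
  have if2 : IntegrableOn (fun x => ∑ i, pd i (fun y => wt ρ (nrm y) * (v y * v y) * y i) x)
      (Ext r) := by
    refine integrableOn_of_cpt hO.measurableSet hKc hKU
      ((continuousOn_finsetSum _ fun i _ => (sm_pd hO (hY i) i).continuousOn).mono hKU) ?_
    intro x hx hxK
    refine Finset.sum_eq_zero fun i _ => ?_
    rw [pd_congr_on (h := fun _ => 0) (hO.sdiff hKc.isClosed) (fun y hy => hY0 i y hy.1 hy.2)
      ⟨hx, hxK⟩, pd_const]
  have hsub : (Ext r₁ : Set (E 3)) ⊆ Ext r := fun x hx => by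
    have : r₁ < nrm x := hx
    show r < nrm x
    linarith
  have he : ∀ x ∈ (Ext r₁ : Set (E 3)), wt ρ (nrm x) * (v x * v x) = v x ^ 2 / nrm x ^ 2 := by
    intro x hx
    have h2 : r₁ < nrm x := hx
    have : stp (nrm x / ρ) = 1 := stp_one ((le_div_iff₀ hρ0).2 (by linarith))
    rw [wt, this]
    ring
  refine ⟨(if1.mono_set hsub).congr_fun he hO1.measurableSet, ?_⟩
  rw [← setIntegral_congr_fun hO1.measurableSet he]
  calc ∫ x in Ext r₁, wt ρ (nrm x) * (v x * v x)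
      ≤ ∫ x in Ext r, wt ρ (nrm x) * (v x * v x) :=
        setIntegral_mono_set if1
          (Eventually.of_forall fun x => mul_nonneg (wt_nonneg _ _) (mul_self_nonneg _))
          hsub.eventuallyLE
    _ ≤ ∫ x in Ext r, (2 * ∑ i, pd i (fun y => wt ρ (nrm y) * (v y * v y) * y i) x +
          4 * ∑ i, pd i v x ^ 2) :=
        setIntegral_mono_on if1 ((if2.const_mul 2).add (hi.const_mul 4)) hO.measurableSet
          fun x hx => pointwise hr hρ0 hv hx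
    _ = 4 * ∫ x in Ext r, ∑ i, pd i v x ^ 2 := by
        rw [integral_add (if2.const_mul 2) (hi.const_mul 4), integral_const_mul, integral_const_mul,
          hdiv, mul_zero, zero_add]

theorem hardy_limit {r r₁ : ℝ} (hr : 0 < r) (h1 : 2 * r < r₁) {u : ℕ → E 3 → ℝ} {v : E 3 → ℝ}
    (hu : ∀ k, Sm (Ext r) (u k)) (hv : Sm (Ext r) v) (h0 : ∀ k, ∃ R, ∀ x, R ≤ nrm x → u k x = 0)
    (hi : ∀ k, IntegrableOn (fun x => ∑ i, pd i (u k) x ^ 2) (Ext r)) {B : ℝ}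
    (hB : ∀ k, ∫ x in Ext r, ∑ i, pd i (u k) x ^ 2 ≤ B)
    (h : ∀ K, IsCompact K → K ⊆ Ext r → TendH1 K u v) :
    IntegrableOn (fun x => v x ^ 2 / nrm x ^ 2 + ∑ i, pd i v x ^ 2) (Ext r₁) := by
  have hO1 := isOpen_Ext (n := 3) r₁
  have hr1 : 0 < r₁ := by linarith
  have hsub : (Ext r₁ : Set (E 3)) ⊆ Ext r := fun x hx => by
    have : r₁ < nrm x := hx
    show r < nrm x
    linarith
  have ha : ContinuousOn (fun x : E 3 => (nrm x ^ 2)⁻¹) (Ext r₁) :=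
    (continuous_nrm.pow 2).continuousOn.inv₀ fun x hx => pow_ne_zero 2 (hr1.trans hx).ne'
  have key := integrableOn_of_tendH1 hO1 (fun k => (hu k).mono hsub) (hv.mono hsub)
    (fun K hK hKU => h K hK (hKU.trans hsub)) ha (continuousOn_const (c := (1 : ℝ)))
    (fun x _ => inv_nonneg.2 (sq_nonneg _)) (fun _ _ => zero_le_one) (B := 4 * B + B) ?_
  · refine key.congr_fun (fun x _ => ?_) hO1.measurableSet
    show _ * _ + 1 * _ = _ / _ + _
    ring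
  · intro k K _ hKU
    obtain ⟨R, hR⟩ := h0 k
    obtain ⟨i1, i2⟩ := hardy hr h1 (hu k) hR (hi k)
    have e : (fun x => (nrm x ^ 2)⁻¹ * u k x ^ 2 + 1 * ∑ i, pd i (u k) x ^ 2) =
        fun x => u k x ^ 2 / nrm x ^ 2 + ∑ i, pd i (u k) x ^ 2 := by
      funext x; ring
    rw [e, integral_add (i1.mono_set hKU) ((hi k).mono_set (hKU.trans hsub))]
    have b1 : ∫ x in K, u k x ^ 2 / nrm x ^ 2 ≤ ∫ x in Ext r₁, u k x ^ 2 / nrm x ^ 2 :=
      setIntegral_mono_set i1 (Eventually.of_forall fun x => div_nonneg (sq_nonneg _) (sq_nonneg _))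
        hKU.eventuallyLE
    have b2 : ∫ x in K, ∑ i, pd i (u k) x ^ 2 ≤ ∫ x in Ext r, ∑ i, pd i (u k) x ^ 2 :=
      setIntegral_mono_set (hi k)
        (Eventually.of_forall fun x => Finset.sum_nonneg fun i _ => sq_nonneg _)
        (hKU.trans hsub).eventuallyLE
    have := hB k
    linarith

end Pool.Agent.P.MP_56a1cd_gt
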