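import Pool.Agent.P.MP_56a1cd_gt.CalcN

namespace Pool.Agent.P.MP_56a1cd_gt

open MeasureTheory Matrix Set Filter Topology
open scoped ContDiff ENNReal

variable {m n : ℕ}

namespace SardAAux

theorem mean_value {U s : Set (E n)} (hU : IsOpen U) {f : E n → ℝ} (hf : Sm U f) (hs : s ⊆ U)
    (hc : Convex ℝ s) {B : Fin n → ℝ} (hB : ∀ z ∈ s, ∀ i, |pd i f z| ≤ B i) {x y : E n}
    (hx : x ∈ s) (hy : y ∈ s) : |f y - f x| ≤ (∑ i, B i) * ‖y - x‖ := by
  have h0 : ∀ i, 0 ≤ B i := fun i => (abs_nonneg _).trans (hB x hx i)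
  refine hc.norm_image_sub_le_of_norm_fderiv_le (𝕜 := ℝ) (fun z hz => sm_da hU hf (hs hz))
    (fun z hz => ?_) hx hy
  refine ContinuousLinearMap.opNorm_le_bound _ (Finset.sum_nonneg fun i _ => h0 i) fun v => ?_
  rw [fderiv_eq_sum, Finset.sum_mul]
  refine (norm_sum_le _ _).trans (Finset.sum_le_sum fun i _ => ?_)
  rw [norm_mul, mul_comm]
  exact mul_le_mul (hB z hz i) (norm_le_pi_norm v i) (norm_nonneg _) (h0 i)

end SardAAux

open SardAAux in
theorem taylor_bdd {U : Set (E n)} (hU : IsOpen U) {c : E n} {R : ℝ}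
    (hB : Metric.closedBall c R ⊆ U) (k : ℕ) {f : E n → ℝ} (hf : Sm U f) :
    ∃ C : ℝ, 0 ≤ C ∧ ∀ x ∈ Metric.closedBall c R,
      (∀ L : List (Fin n), L ≠ [] → L.length ≤ k → pds L f x = 0) →
      ∀ y ∈ Metric.closedBall c R, |f y - f x| ≤ C * ‖y - x‖ ^ (k + 1) := by
  induction k generalizing f with
  | zero =>
    have h : ∀ i, ∃ B : ℝ, 0 ≤ B ∧ ∀ z ∈ Metric.closedBall c R, |pd i f z| ≤ B := fun i => by
      obtain ⟨B, hB'⟩ := (isCompact_closedBall c R).exists_bound_of_continuousOn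
        ((sm_pd hU hf i).continuousOn.mono hB)
      exact ⟨max B 0, le_max_right _ _, fun z hz => (hB' z hz).trans (le_max_left _ _)⟩
    choose B h0 h1 using h
    refine ⟨∑ i, B i, Finset.sum_nonneg fun i _ => h0 i, fun x hx _ y hy => ?_⟩
    rw [zero_add, pow_one]
    exact mean_value hU hf hB (convex_closedBall c R) (fun z hz i => h1 i z hz) hx hy
  | succ k ih =>
    choose B h0 h1 using fun i => ih (sm_pd hU hf i)
    refine ⟨∑ i, B i, Finset.sum_nonneg fun i _ => h0 i, fun x hx hL y hy => ?_⟩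
    have h2 := mean_value (s := Metric.closedBall c R ∩ Metric.closedBall x ‖y - x‖) hU hf
      (inter_subset_left.trans hB) ((convex_closedBall _ _).inter (convex_closedBall _ _))
      (B := fun i => B i * ‖y - x‖ ^ (k + 1)) (fun z hz i => ?_)
      ⟨hx, Metric.mem_closedBall_self (norm_nonneg _)⟩ ⟨hy, mem_closedBall_iff_norm.2 le_rfl⟩
    · rwa [← Finset.sum_mul, mul_assoc, ← pow_succ] at h2
    · have h3 := h1 i x hx (fun L _ hl => hL (i :: L) (List.cons_ne_nil _ _)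
        (Nat.succ_le_succ hl)) z hz.1
      have h4 : pd i f x = 0 := hL [i] (List.cons_ne_nil _ _) (Nat.succ_le_succ (Nat.zero_le k))
      rw [h4, sub_zero] at h3
      exact h3.trans (mul_le_mul_of_nonneg_left
        (pow_le_pow_left₀ (norm_nonneg _) (mem_closedBall_iff_norm.1 hz.2) _) (h0 i))

theorem sard_flat {U : Set (E n)} (hU : IsOpen U) {f : E n → ℝ} (hf : Sm U f) :
    volume (f '' {x | x ∈ U ∧ ∀ L : List (Fin n), L ≠ [] → L.length ≤ n → pds L f x = 0}) = 0 := by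
  have h1 := dimH_image_le_of_locally_holder_on (f := f) (r := ((n + 1 : ℕ) : NNReal))
    (s := {x | x ∈ U ∧ ∀ L : List (Fin n), L ≠ [] → L.length ≤ n → pds L f x = 0})
    (by exact_mod_cast Nat.succ_pos n) fun x hx => by
      obtain ⟨R, hR, hB⟩ := Metric.nhds_basis_closedBall.mem_iff.1 (hU.mem_nhds hx.1)
      obtain ⟨C, hC, h⟩ := taylor_bdd hU hB n hf
      refine ⟨C.toNNReal, _, inter_mem_nhdsWithin _ (Metric.closedBall_mem_nhds x hR),
        fun y hy z hz => ?_⟩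
      have h2 := h z hz.2 hz.1.2 y hy.2
      rw [edist_dist, edist_dist, Real.dist_eq, dist_eq_norm, NNReal.coe_natCast,
        ENNReal.rpow_natCast, ← ENNReal.ofReal_pow (norm_nonneg _)]
      exact (ENNReal.ofReal_le_ofReal h2).trans_eq (ENNReal.ofReal_mul hC)
  rw [← hausdorffMeasure_real]
  refine hausdorffMeasure_of_dimH_lt (d := 1) (h1.trans_lt ?_)
  have h3 := (dimH_mono (subset_univ
    {x | x ∈ U ∧ ∀ L : List (Fin n), L ≠ [] → L.length ≤ n → pds L f x = 0})).trans_eq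
    (Real.dimH_univ_pi_fin n)
  refine (ENNReal.div_le_div_right h3 _).trans_lt ?_
  rw [ENNReal.div_lt_iff (Or.inl (by simp)) (Or.inl ENNReal.coe_ne_top), ENNReal.coe_one, one_mul]
  exact_mod_cast Nat.lt_succ_self n

/-- A smooth cut-off around a compact null set of the line, with small integral. -/
theorem exists_small_cutoff {C : Set ℝ} (hC : IsCompact C) (h0 : volume C = 0) {ε : ℝ}
    (hε : 0 < ε) : ∃ χ : ℝ → ℝ, ContDiff ℝ ∞ χ ∧ HasCompactSupport χ ∧ (∀ t, 0 ≤ χ t ∧ χ t ≤ 1) ∧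
      (∀ᶠ t in 𝓝ˢ C, χ t = 1) ∧ ∫ t, χ t ≤ ε := by
  obtain ⟨V, hCV, hV, hm⟩ := C.exists_isOpen_lt_of_lt (μ := volume) (ENNReal.ofReal ε)
    (by rw [h0]; exact ENNReal.ofReal_pos.2 hε)
  obtain ⟨K, hK, h1, h2⟩ := exists_compact_between hC hV hCV
  obtain ⟨χ, h3, h4, h5⟩ := exists_contMDiffMap_one_nhds_of_subset_interior
    (modelWithCornersSelf ℝ ℝ) (n := ⊤) hC.isClosed h1
  refine ⟨χ, χ.contMDiff.contDiff, HasCompactSupport.intro hK h4, h5, h3, ?_⟩
  rw [← setIntegral_eq_integral_of_forall_compl_eq_zero h4]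
  have h6 := norm_setIntegral_le_of_norm_le_const (μ := volume) (s := K) (f := χ) (C := 1)
    hK.measure_lt_top fun x _ => by
      rw [Real.norm_of_nonneg (h5 x).1]
      exact (h5 x).2
  refine (le_abs_self _).trans (h6.trans ?_)
  rw [one_mul]
  exact ENNReal.toReal_le_of_le_ofReal hε.le ((measure_mono h2).trans hm.le)

end Pool.Agent.P.MP_56a1cd_gt
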