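import Pool.Agent.P.MP_56a1cd_gt.Chart
import Pool.Agent.P.MP_56a1cd_gt.SardA

namespace Pool.Agent.P.MP_56a1cd_gt

open MeasureTheory Matrix Set Filter Topology
open scoped ContDiff ENNReal

variable {m n : ℕ}

namespace SardAux

theorem pds_append (L : List (Fin n)) (j : Fin n) (f : E n → ℝ) :
    pds (L ++ [j]) f = pd j (pds L f) := by
  induction L generalizing f with
  | nil => rfl
  | cons i L ih => exact ih _

theorem sm_pds {U : Set (E n)} (hU : IsOpen U) (L : List (Fin n)) {f : E n → ℝ} (hf : Sm U f) :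
    Sm U (pds L f) := by
  induction L generalizing f with
  | nil => exact hf
  | cons i L ih => exact ih (sm_pd hU hf i)

theorem null_of_local {S : Set (E n)} {f : E n → ℝ}
    (h : ∀ x ∈ S, ∃ V ∈ 𝓝 x, volume (f '' (S ∩ V)) = 0) : volume (f '' S) = 0 := by
  choose! V h1 h2 using h
  obtain ⟨t, ht, hc, hS⟩ := TopologicalSpace.countable_cover_nhdsWithin (f := fun x => S ∩ V x)
    (s := S) fun x hx => inter_mem_nhdsWithin S (h1 x hx)
  refine measure_mono_null (image_mono hS) ?_
  rw [image_iUnion₂]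
  exact (measure_biUnion_null_iff hc).2 fun x hx => h2 x (ht hx)

/-- Reduction to critical points on regular hypersurfaces. -/
theorem glue {U : Set (E n)} (hU : IsOpen U) {f : E n → ℝ} (hf : Sm U f)
    (H : ∀ (j : Fin n) (h : E n → ℝ), Sm U h →
      volume (f '' {x | x ∈ U ∧ fderiv ℝ f x = 0 ∧ h x = 0 ∧ pd j h x ≠ 0}) = 0) :
    volume (f '' {x | x ∈ U ∧ fderiv ℝ f x = 0}) = 0 := by
  refine measure_mono_null ?_ (measure_union_null (sard_flat hU hf) (measure_iUnion_null
    fun p : Fin n × List (Fin n) => H p.1 _ (sm_pds hU p.2 hf)))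
  rintro _ ⟨x, hx, rfl⟩
  by_cases e : ∃ j L, pds L f x = 0 ∧ pd j (pds L f) x ≠ 0
  · obtain ⟨j, L, e⟩ := e
    exact Or.inr (mem_iUnion.2 ⟨(j, L), x, ⟨hx.1, hx.2, e⟩, rfl⟩)
  · push Not at e
    refine Or.inl ⟨x, ⟨hx.1, fun L h1 h2 => ?_⟩, rfl⟩
    clear h2
    induction L using List.reverseRecOn with
    | nil => exact absurd rfl h1
    | append_singleton L j ih =>
      rw [pds_append]
      by_cases h0 : L = []
      · subst h0
        exact (fderiv_eq_zero_iff f x).1 hx.2 j
      · exact e j L (ih h0)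

theorem det_update (j : Fin n) (h : E n → ℝ) (x : E n) :
    (jac (fun y => Function.update y j (h y)) x).det = pd j h x := by
  have e : jac (fun y => Function.update y j (h y)) x =
      (1 : Matrix (Fin n) (Fin n) ℝ).updateRow j fun k => pd k h x := by
    ext i k
    by_cases hi : i = j
    · simp [jac, hi]
    · simp [jac, hi, pd_coord, Matrix.one_apply, eq_comm]
  rw [e, ← cramer_transpose_apply, transpose_one, cramer_one, Module.End.one_apply]

theorem step (ih : ∀ {U : Set (E n)}, IsOpen U → ∀ {f : E n → ℝ}, Sm U f →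
      volume (f '' {x | x ∈ U ∧ fderiv ℝ f x = 0}) = 0)
    {U : Set (E (n + 1))} (hU : IsOpen U) {f : E (n + 1) → ℝ} (hf : Sm U f) (j : Fin (n + 1))
    (h : E (n + 1) → ℝ) (hh : Sm U h) :
    volume (f '' {x | x ∈ U ∧ fderiv ℝ f x = 0 ∧ h x = 0 ∧ pd j h x ≠ 0}) = 0 := by
  refine null_of_local fun x₀ hx₀ => ?_
  obtain ⟨V, hVU, hV, hc⟩ := exists_local_chart (Φ := fun y => Function.update y j (h y)) hU
    (contDiffOn_pi.2 fun i => by
      by_cases hi : i = j
      · simpa [hi] using hh
      · simpa [hi] using sm_coord U i) hx₀.1 (by rw [det_update]; exact hx₀.2.2.2)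
  have hι : ContDiff ℝ ∞ fun z : E n => (j.insertNth 0 z : E (n + 1)) :=
    contDiff_pi.2 fun i => by
      induction i using j.succAboveCases with
      | x => simpa using contDiff_const
      | p i => simpa using contDiff_apply ℝ ℝ i
  have hW := hc.inv.opn.preimage hι.continuous
  have hψ := hc.inv.sm.comp hι.contDiffOn (mapsTo_preimage _ _)
  refine ⟨V, hc.opn.mem_nhds hV, measure_mono_null ?_
    (ih hW (hf.comp hψ fun z hz => hVU (hc.inv_mapsTo hz)))⟩
  rintro _ ⟨x, ⟨hx, hxV⟩, rfl⟩
  have e1 : (j.insertNth 0 (j.removeNth x) : E (n + 1)) = Function.update x j (h x) := by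
    rw [hx.2.2.1, Fin.insertNth_removeNth]
  have e2 : (Function.invFunOn (fun y => Function.update y j (h y)) V ∘
      fun z : E n => (j.insertNth 0 z : E (n + 1))) (j.removeNth x) = x :=
    (congrArg _ e1).trans (hc.left_inv hxV)
  have e3 : j.removeNth x ∈ (fun z : E n => (j.insertNth 0 z : E (n + 1))) ⁻¹'
      ((fun y => Function.update y j (h y)) '' V) := ⟨x, hxV, e1.symm⟩
  refine ⟨j.removeNth x, ⟨e3, ?_⟩, congrArg f e2⟩
  rw [fderiv_comp _ (e2.symm ▸ sm_da hU hf hx.1)
    ((hψ.contDiffAt (hW.mem_nhds e3)).differentiableAt (by simp)), e2, hx.2.1,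
    ContinuousLinearMap.zero_comp]

end SardAux

theorem sard {U : Set (E n)} (hU : IsOpen U) {f : E n → ℝ} (hf : Sm U f) :
    volume (f '' {x | x ∈ U ∧ fderiv ℝ f x = 0}) = 0 := by
  induction n with
  | zero => exact SardAux.glue hU hf fun j => j.elim0
  | succ n ih => exact SardAux.glue hU hf (SardAux.step ih hU hf)

end Pool.Agent.P.MP_56a1cd_gt
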