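import Pool.Agent.P.MP_56a1cd_gt.Bochner
import Pool.Agent.P.MP_56a1cd_gt.Kato

namespace Pool.Agent.P.MP_56a1cd_gt

open MeasureTheory Matrix Set Filter Topology
open scoped ContDiff ENNReal

variable {m n : ℕ}

/-! The differential inequality for the regularised length of the gradient. -/

namespace SternAux

theorem hasDeriv_sqrt {δ t : ℝ} (ht : -δ < t) :
    HasDerivAt (fun s : ℝ => √(s + δ)) (1 / (2 * √(t + δ))) t := by
  have h : t + δ ≠ 0 := by linarith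
  have := ((hasDerivAt_id t).add_const δ).sqrt h
  simpa using this

theorem contDiffOn_sqrt (δ : ℝ) :
    ContDiffOn ℝ ∞ (fun s : ℝ => √(s + δ)) (Ioi (-δ)) := by
  refine ContDiffOn.sqrt (contDiffOn_id.add contDiffOn_const) ?_
  intro t ht
  have : -δ < t := ht
  have h : 0 < t + δ := by linarith
  exact h.ne'

theorem deriv2_sqrt {δ t : ℝ} (ht : -δ < t) :
    deriv (deriv (fun s : ℝ => √(s + δ))) t = -(1 / (4 * √(t + δ) ^ 3)) := by
  have e : deriv (fun s : ℝ => √(s + δ)) =ᶠ[𝓝 t] fun s => 1 / (2 * √(s + δ)) := by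
    filter_upwards [Ioi_mem_nhds ht] with s hs
    exact (hasDeriv_sqrt hs).deriv
  rw [e.deriv_eq]
  have hp : 0 < √(t + δ) := Real.sqrt_pos.mpr (by linarith)
  have h1 := ((hasDeriv_sqrt ht).const_mul 2).inv (by positivity)
  have h2 : (fun s : ℝ => 1 / (2 * √(s + δ))) = (fun y : ℝ => 2 * √(y + δ))⁻¹ := by
    funext s
    simp
  rw [h2, h1.deriv]
  field_simp
  ring

theorem weak_ineq {a c h l : ℝ} (ha : 0 ≤ a) (hh : 0 ≤ h) (hc : c ^ 2 ≤ 2 / 3 * h * a ^ 2) :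
    0 ≤ h / 3 - 3 / 2 * l * c + 27 / 16 * l ^ 2 * a ^ 2 := by
  rcases ha.eq_or_lt with h0 | h0
  · subst h0
    have : c = 0 := by nlinarith [sq_nonneg c]
    subst this
    nlinarith
  · obtain ⟨b, rfl⟩ : ∃ b, c = a * b := ⟨c / a, by field_simp⟩
    have hb : b ^ 2 ≤ 2 / 3 * h := by
      have ha2 : 0 < a ^ 2 := by positivity
      have : a ^ 2 * b ^ 2 ≤ a ^ 2 * (2 / 3 * h) := by nlinarith
      exact le_of_mul_le_mul_left this ha2
    nlinarith [sq_nonneg (b - 3 / 2 * l * a), sq_nonneg (l * a)]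

theorem strong_ineq {a c h l : ℝ} (h0 : 0 < a) (hc : c ^ 2 ≤ 2 / 3 * h * a ^ 2) :
    0 ≤ h / 2 - 3 / 2 * l * c + 3 / 4 * l ^ 2 * a ^ 2 := by
  obtain ⟨b, rfl⟩ : ∃ b, c = a * b := ⟨c / a, by field_simp⟩
  have hb : b ^ 2 ≤ 2 / 3 * h := by
    have ha2 : 0 < a ^ 2 := by positivity
    have : a ^ 2 * b ^ 2 ≤ a ^ 2 * (2 / 3 * h) := by nlinarith
    exact le_of_mul_le_mul_left this ha2
  nlinarith [sq_nonneg (b - l * a)]

variable {g : Met 3} {U : Set (E 3)} {G : E 3 → ℝ} {δ : ℝ} {x : E 3}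

theorem maps (hg : IsMet g U) (G : E 3 → ℝ) (hδ : 0 < δ) :
    MapsTo (gam g G G) U (Ioi (-δ)) := by
  intro y hy
  have := gam_nonneg (hg.pos y hy) G
  show -δ < gam g G G y
  linarith

theorem Wd_pos (hg : IsMet g U) (G : E 3 → ℝ) (hδ : 0 < δ) (hx : x ∈ U) : 0 < Wd g G δ x := by
  have := gam_nonneg (hg.pos x hx) G
  exact Real.sqrt_pos.mpr (by linarith)

theorem Wd_sq (hg : IsMet g U) (G : E 3 → ℝ) (hδ : 0 < δ) (hx : x ∈ U) :
    Wd g G δ x ^ 2 = gam g G G x + δ := by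
  have := gam_nonneg (hg.pos x hx) G
  exact Real.sq_sqrt (by linarith)

theorem lap_Wd (hg : IsMet g U) (hG : Sm U G) (h0 : ∀ y ∈ U, lap g G y = 0) (hδ : 0 < δ)
    (hx : x ∈ U) :
    lap g (Wd g G δ) x = (hsq g G x + ricq g G x) / Wd g G δ x -
      gam g (gam g G G) (gam g G G) x / (4 * Wd g G δ x ^ 3) := by
  have h1 := lap_comp g hg.opn (hg.sm_gam hG hG) isOpen_Ioi (contDiffOn_sqrt δ) (maps hg G hδ) hx
  have hm : -δ < gam g G G x := maps hg G hδ hx
  rw [(hasDeriv_sqrt hm).deriv, deriv2_sqrt hm, bochner hg hG hx] at h1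
  have h2 : gam g G (lap g G) x = 0 := by
    have e : lap g G =ᶠ[𝓝 x] fun _ => (0 : ℝ) := by
      filter_upwards [hg.opn.mem_nhds hx] with y hy
      exact h0 y hy
    rw [gam_congr (g := g) (g' := g) (f := G) (f' := G) rfl (EventuallyEq.refl _ _) e,
      gam_const_right]
  have hW := Wd_pos hg G hδ hx
  have e1 : lap g (Wd g G δ) x = lap g (fun y => √(gam g G G y + δ)) x := rfl
  have e2 : √(gam g G G x + δ) = Wd g G δ x := rfl
  rw [e1, h1, h2, e2]
  field_simp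
  ring

theorem gam_Wd (hg : IsMet g U) (hG : Sm U G) (hδ : 0 < δ) (hx : x ∈ U) :
    gam g G (Wd g G δ) x = gam g G (gam g G G) x / (2 * Wd g G δ x) := by
  have hm : -δ < gam g G G x := maps hg G hδ hx
  have h1 := gam_comp_right g (sm_da hg.opn (hg.sm_gam hG hG) hx) (hasDeriv_sqrt hm) G
  have e1 : gam g G (Wd g G δ) x = gam g G (fun y => √(gam g G G y + δ)) x := rfl
  have e2 : √(gam g G G x + δ) = Wd g G δ x := rfl
  rw [e1, h1, e2]
  ring

theorem c_sq (hg : IsMet g U) (hG : Sm U G) (h0 : ∀ y ∈ U, lap g G y = 0) (hx : x ∈ U) :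
    (gam g G (gam g G G) x / 2) ^ 2 ≤ 2 / 3 * hsq g G x * gam g G G x ^ 2 := by
  have h1 := gam_sq_le (hg.pos x hx) G (gam g G G)
  have h2 := kato_three hg hG hx (h0 x hx)
  have h3 := gam_nonneg (hg.pos x hx) G
  have h4 := mul_le_mul_of_nonneg_left h2 h3
  nlinarith

end SternAux

open SternAux

section
variable {g : Met 3} {U : Set (E 3)} {G : E 3 → ℝ} {P L l : ℝ → ℝ} {J : Set ℝ} {δ : ℝ} {x : E 3}

theorem sm_Wd (hg : IsMet g U) (hG : Sm U G) (hδ : 0 < δ) : Sm U (Wd g G δ) :=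
  sm_comp_real (β := fun s : ℝ => √(s + δ)) (hg.sm_gam hG hG) (contDiffOn_sqrt δ) (maps hg G hδ)

theorem sm_divX (hg : IsMet g U) (hG : Sm U G) (hδ : 0 < δ) (hm : MapsTo G U J)
    (hP : ContDiffOn ℝ ∞ P J) (hL : ContDiffOn ℝ ∞ L J) : Sm U (divX g G P L δ) := by
  have hW := sm_Wd hg hG hδ
  have hPG := sm_comp_real hG hP hm
  have hLG := sm_comp_real hG hL hm
  exact ((hg.sm_gam hPG hW).add (hPG.mul (hg.sm_lap hW))).sub
    ((hg.sm_gam (hLG.mul hW) hG).add ((hLG.mul hW).mul (hg.sm_lap hG)))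

theorem divX_eq (hg : IsMet g U) (hG : Sm U G) (h0 : ∀ y ∈ U, lap g G y = 0) (hδ : 0 < δ)
    (hJ : IsOpen J) (hm : MapsTo G U J) (hP : ContDiffOn ℝ ∞ P J) (hL : ContDiffOn ℝ ∞ L J)
    (hx : x ∈ U) :
    divX g G P L δ x = P (G x) * lap g (Wd g G δ) x +
      (deriv P (G x) - L (G x)) * (gam g G (gam g G G) x / (2 * Wd g G δ x)) -
        deriv L (G x) * Wd g G δ x * gam g G G x := by
  have hW := sm_Wd hg hG hδ
  have hLG := sm_comp_real hG hL hm
  have dG := sm_da hg.opn hG hx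
  have dP : HasDerivAt P (deriv P (G x)) (G x) :=
    ((hP.contDiffAt (hJ.mem_nhds (hm hx))).differentiableAt (by simp)).hasDerivAt
  have dL : HasDerivAt L (deriv L (G x)) (G x) :=
    ((hL.contDiffAt (hJ.mem_nhds (hm hx))).differentiableAt (by simp)).hasDerivAt
  unfold divX
  rw [gam_comp_left g dG dP, gam_mul_left g (sm_da hg.opn hLG hx) (sm_da hg.opn hW hx),
    gam_comp_left g dG dL, gam_comm (hg.pos x hx) (Wd g G δ) G, gam_Wd hg hG hδ hx, h0 x hx]
  ring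

theorem stern_weak (hg : IsMet g U) (hG : Sm U G) (h0 : ∀ y ∈ U, lap g G y = 0) (hδ : 0 < δ)
    (hJ : IsOpen J) (hm : MapsTo G U J) (hP : ContDiffOn ℝ ∞ P J) (hL : ContDiffOn ℝ ∞ L J)
    (hx : x ∈ U) (he : L (G x) = deriv P (G x) + 3 / 2 * l (G x) * P (G x)) (hP0 : 0 ≤ P (G x)) :
    P (G x) * ((ricq g G x - 27 / 16 * l (G x) ^ 2 * gam g G G x ^ 2) / Wd g G δ x) -
      deriv L (G x) * Wd g G δ x * gam g G G x ≤ divX g G P L δ x := by
  rw [divX_eq hg hG h0 hδ hJ hm hP hL hx, lap_Wd hg hG h0 hδ hx, he]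
  have hW := Wd_pos hg G hδ hx
  have hW2 := Wd_sq hg G hδ hx
  have ha := gam_nonneg (hg.pos x hx) G
  have hh := hsq_nonneg hg hx G
  have hk := kato_three hg hG hx (h0 x hx)
  have hi := weak_ineq (l := l (G x)) ha hh (c_sq hg hG h0 hx)
  set W := Wd g G δ x
  set a := gam g G G x
  set h := hsq g G x
  set r := ricq g G x
  set γ := gam g (gam g G G) (gam g G G) x
  set c := gam g G (gam g G G) x
  have h1 : γ / (4 * W ^ 3) ≤ 2 / 3 * h / W := by
    rw [div_le_div_iff₀ (by positivity) hW]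
    have : γ ≤ 8 / 3 * h * W ^ 2 := by
      rw [hW2]
      nlinarith [mul_nonneg hh hδ.le]
    nlinarith [mul_le_mul_of_nonneg_right this hW.le]
  have h2 : (r - 27 / 16 * l (G x) ^ 2 * a ^ 2) / W ≤
      ((h + r) / W - γ / (4 * W ^ 3)) - 3 / 2 * l (G x) * (c / (2 * W)) := by
    have e : (h + r) / W - 2 / 3 * h / W - 3 / 2 * l (G x) * (c / (2 * W)) -
        (r - 27 / 16 * l (G x) ^ 2 * a ^ 2) / W =
        (h / 3 - 3 / 2 * l (G x) * (c / 2) + 27 / 16 * l (G x) ^ 2 * a ^ 2) / W := by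
      field_simp
      ring
    have := div_nonneg hi hW.le
    linarith
  have h3 := mul_le_mul_of_nonneg_left h2 hP0
  nlinarith

theorem stern (hg : IsMet g U) (hG : Sm U G) (h0 : ∀ y ∈ U, lap g G y = 0) (hδ : 0 < δ)
    (hJ : IsOpen J) (hm : MapsTo G U J) (hP : ContDiffOn ℝ ∞ P J) (hL : ContDiffOn ℝ ∞ L J)
    (hx : x ∈ U) (he : L (G x) = deriv P (G x) + 3 / 2 * l (G x) * P (G x)) (hP0 : 0 ≤ P (G x))
    (ha : gam g G G x ≠ 0) :
    P (G x) * ((gam g G G x * (scal g x / 2 - KS g G x) -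
        3 / 4 * l (G x) ^ 2 * gam g G G x ^ 2) / Wd g G δ x) -
      deriv L (G x) * Wd g G δ x * gam g G G x ≤ divX g G P L δ x := by
  rw [divX_eq hg hG h0 hδ hJ hm hP hL hx, lap_Wd hg hG h0 hδ hx, he]
  have hW := Wd_pos hg G hδ hx
  have hW2 := Wd_sq hg G hδ hx
  have ha0 : 0 < gam g G G x := lt_of_le_of_ne (gam_nonneg (hg.pos x hx) G) ha.symm
  have hγ := gam_nonneg (hg.pos x hx) (gam g G G)
  have hi := strong_ineq (l := l (G x)) ha0 (c_sq hg hG h0 hx)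
  unfold KS
  set W := Wd g G δ x
  set a := gam g G G x
  set h := hsq g G x
  set r := ricq g G x
  set γ := gam g (gam g G G) (gam g G G) x
  set c := gam g G (gam g G G) x
  set s := scal g x
  have h1 : γ / (4 * W ^ 3) ≤ γ / (4 * a) / W := by
    rw [div_div]
    refine div_le_div_of_nonneg_left hγ (by positivity) ?_
    have : a ≤ W ^ 2 := by linarith
    nlinarith [mul_le_mul_of_nonneg_right this hW.le]
  have h2 : (a * (s / 2 - (s / 2 - r / a + (γ / (4 * a) - h / 2) / a)) -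
        3 / 4 * l (G x) ^ 2 * a ^ 2) / W ≤
      ((h + r) / W - γ / (4 * W ^ 3)) - 3 / 2 * l (G x) * (c / (2 * W)) := by
    have e : (h + r) / W - γ / (4 * a) / W - 3 / 2 * l (G x) * (c / (2 * W)) -
        (a * (s / 2 - (s / 2 - r / a + (γ / (4 * a) - h / 2) / a)) -
          3 / 4 * l (G x) ^ 2 * a ^ 2) / W =
        (h / 2 - 3 / 2 * l (G x) * (c / 2) + 3 / 4 * l (G x) ^ 2 * a ^ 2) / W := by
      field_simp
      ring
    have := div_nonneg hi hW.le
    linarith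
  have h3 := mul_le_mul_of_nonneg_left h2 hP0
  nlinarith

end

end Pool.Agent.P.MP_56a1cd_gt
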