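import Pool.Agent.P.MP_56a1cd_gt.Green
import Pool.Agent.P.MP_56a1cd_gt.Stern
import Pool.Agent.P.MP_56a1cd_gt.PsiF
import Pool.Agent.P.MP_56a1cd_gt.Sard

namespace Pool.Agent.P.MP_56a1cd_gt

open MeasureTheory Matrix Set Filter Topology
open scoped ContDiff ENNReal

variable {m n : ℕ}

/-! Horizon inequality: lower bound and cut-off near critical values. -/

namespace HorAAux

theorem alg {p r R l a W d c w : ℝ} (hp0 : 0 ≤ p) (hp1 : p ≤ 1) (hR : 0 ≤ R) (hr : |r| ≤ R * a)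
    (hw : 0 ≤ w) (ha : a = w * w) (hW : 0 < W) (hwW : w ≤ W) (hd : d ≤ c) :
    -((R + 27 / 16 * l ^ 2 * a + c * W * w) * w) ≤
      p * ((r - 27 / 16 * l ^ 2 * a ^ 2) / W) - d * W * a := by
  have ha0 : 0 ≤ a := ha ▸ mul_nonneg hw hw
  have hm : 0 ≤ R + 27 / 16 * l ^ 2 * a := by positivity
  have h1 : -((R + 27 / 16 * l ^ 2 * a) * w) ≤ (r - 27 / 16 * l ^ 2 * a ^ 2) / W := by
    rw [le_div_iff₀ hW]
    have h2 : (R + 27 / 16 * l ^ 2 * a) * a ≤ (R + 27 / 16 * l ^ 2 * a) * (w * W) :=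
      mul_le_mul_of_nonneg_left (ha ▸ mul_le_mul_of_nonneg_left hwW hw) hm
    have h3 := neg_abs_le r
    nlinarith
  have h2 := mul_le_mul_of_nonneg_left h1 hp0
  have h3 : p * ((R + 27 / 16 * l ^ 2 * a) * w) ≤ (R + 27 / 16 * l ^ 2 * a) * w :=
    mul_le_of_le_one_left (mul_nonneg hm hw) hp1
  have h4 : d * (W * a) ≤ c * (W * a) := mul_le_mul_of_nonneg_right hd (mul_nonneg hW.le ha0)
  have h5 : c * W * w * w = c * (W * a) := by rw [ha]; ring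
  nlinarith

end HorAAux

theorem div_lower {φ : E 3 → ℝ} {C : Cap φ} (Q : Pot C) {σ c : ℝ} {P L : ℝ → ℝ} (hσ : 0 < σ)
    (h : PL Q.T σ c P L) : ∃ b : ℝ, 0 ≤ b ∧ ∀ δ, 0 < δ → δ ≤ 1 → ∀ x ∈ C.M,
      (Q.G x < σ → divX C.g Q.G P L δ x = 0) ∧
        -(b * √(gam C.g Q.G Q.G x)) ≤ divX C.g Q.G P L δ x := by
  have hT := Q.T_pos
  have hU : IsOpen (C.Ω ∩ Q.G ⁻¹' Ioo 0 (2 * Q.T)) :=
    Q.sm.continuousOn.isOpen_inter_preimage C.isOpen_Ω isOpen_Ioo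
  have hg : IsMet C.g (C.Ω ∩ Q.G ⁻¹' Ioo 0 (2 * Q.T)) := C.met'.mono hU inter_subset_left
  have hG : Sm (C.Ω ∩ Q.G ⁻¹' Ioo 0 (2 * Q.T)) Q.G := Q.sm.mono inter_subset_left
  have hJ : ∀ x ∈ C.M, Q.G x ∈ Ioo 0 (2 * Q.T) := fun x hx =>
    ⟨Q.pos x hx, by linarith [Q.le x hx]⟩
  have hZ := Q.cpt σ hσ
  have hZΩ : {x | x ∈ C.M ∧ σ ≤ Q.G x} ⊆ C.Ω := fun x hx => C.M_sub hx.1
  obtain ⟨R, hR, hr⟩ := C.met'.ricq_bdd hZ hZΩ
  have ha : ContinuousOn (gam C.g Q.G Q.G) {x | x ∈ C.M ∧ σ ≤ Q.G x} :=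
    (C.met'.sm_gam Q.sm Q.sm).continuousOn.mono hZΩ
  have hl : ContinuousOn (fun x => lam Q.T (Q.G x)) {x | x ∈ C.M ∧ σ ≤ Q.G x} :=
    (continuousOn_lam Q.T).comp (Q.sm.continuousOn.mono hZΩ) fun x hx => hJ x hx.1
  have hc : ContinuousOn (fun x => R + 27 / 16 * lam Q.T (Q.G x) ^ 2 * gam C.g Q.G Q.G x +
      c / σ ^ 2 * √(gam C.g Q.G Q.G x + 1) * √(gam C.g Q.G Q.G x)) {x | x ∈ C.M ∧ σ ≤ Q.G x} :=
    (continuousOn_const.add ((continuousOn_const.mul (hl.pow 2)).mul ha)).add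
      ((continuousOn_const.mul (ha.add continuousOn_const).sqrt).mul ha.sqrt)
  obtain ⟨b, hb⟩ := hZ.exists_bound_of_continuousOn hc
  refine ⟨max b 0, le_max_right _ _, fun δ h0 h1 x hx => ?_⟩
  have hxU : x ∈ C.Ω ∩ Q.G ⁻¹' Ioo 0 (2 * Q.T) := ⟨C.M_sub hx, hJ x hx⟩
  have hz : Q.G x < σ → divX C.g Q.G P L δ x = 0 := fun hlt => by
    have e : ∀ᶠ t in 𝓝 (Q.G x), P t = 0 ∧ L t = 0 := by
      filter_upwards [isOpen_Ioo.mem_nhds (hJ x hx), isOpen_Iio.mem_nhds hlt] with t ht ht'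
      exact h.zero t ht (le_of_lt ht')
    have eP : P =ᶠ[𝓝 (Q.G x)] fun _ => 0 := e.mono fun t ht => ht.1
    have eL : L =ᶠ[𝓝 (Q.G x)] fun _ => 0 := e.mono fun t ht => ht.2
    rw [divX_eq hg hG (fun y hy => Q.harm y hy.1) h0 isOpen_Ioo (fun y hy => hy.2) h.P_sm h.L_sm
      hxU, eP.deriv_eq, eL.deriv_eq, e.self_of_nhds.1, e.self_of_nhds.2]
    simp
  refine ⟨hz, ?_⟩
  rcases lt_or_ge (Q.G x) σ with hlt | hge
  · rw [hz hlt]
    exact neg_nonpos.2 (mul_nonneg (le_max_right _ _) (Real.sqrt_nonneg _))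
  · have ha0 := gam_nonneg (hg.pos x hxU) Q.G
    have hP := h.P_mem _ (hJ x hx)
    have hq := h.Q_le _ (hJ x hx)
    have hc0 : 0 ≤ c / σ ^ 2 := (abs_nonneg _).trans hq
    have hd : deriv L (Q.G x) ≤ c / σ ^ 2 := by
      have h2 : 0 ≤ 3 / 4 * lam Q.T (Q.G x) ^ 2 * P (Q.G x) := mul_nonneg (by positivity) hP.1
      linarith [le_abs_self (deriv L (Q.G x) + 3 / 4 * lam Q.T (Q.G x) ^ 2 * P (Q.G x))]
    refine le_trans ?_ (stern_weak (l := lam Q.T) hg hG (fun y hy => Q.harm y hy.1) h0 isOpen_Ioo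
      (fun y hy => hy.2) h.P_sm h.L_sm hxU (h.L_eq _ (hJ x hx)) hP.1)
    refine le_trans ?_ (HorAAux.alg hP.1
      (hP.2.trans (Psi_mem hT (Q.pos x hx).le (Q.le x hx)).2.1) hR (hr x ⟨hx, hge⟩ Q.G)
      (Real.sqrt_nonneg _) (Real.mul_self_sqrt ha0).symm (Real.sqrt_pos.2 (by linarith))
      (Real.sqrt_le_sqrt (by linarith)) hd)
    refine neg_le_neg (mul_le_mul_of_nonneg_right ?_ (Real.sqrt_nonneg _))
    refine le_trans ?_ (((le_abs_self _).trans (hb x ⟨hx, hge⟩)).trans (le_max_left _ _))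
    have h3 : Wd C.g Q.G δ x ≤ √(gam C.g Q.G Q.G x + 1) := Real.sqrt_le_sqrt (by linarith)
    gcongr

theorem exists_cut {φ : E 3 → ℝ} (hφ : Hom0 φ) {C : Cap φ} (Q : Pot C) {σ ε : ℝ} (hσ : 0 < σ)
    (hε : 0 < ε) : ∃ (χ : ℝ → ℝ) (J : Set ℝ), Continuous χ ∧ (∀ t, 0 ≤ χ t ∧ χ t ≤ 1) ∧
      IsCompact J ∧ J ⊆ Ico σ Q.T ∧ (∀ t ∈ Icc σ Q.T, t ∉ J → χ t = 1) ∧
      (∀ x ∈ C.M, Q.G x ∈ J → fderiv ℝ Q.G x ≠ 0) ∧
      ∫ x in {x | x ∈ C.M ∧ σ ≤ Q.G x}, χ (Q.G x) * √(gam C.g Q.G Q.G x) * vol C.g x ≤ ε := by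
  have hZ := Q.cpt σ hσ
  set Z := {x | x ∈ C.M ∧ σ ≤ Q.G x} with hZd
  have hZΩ : Z ⊆ C.Ω := fun x hx => C.M_sub hx.1
  have hG : ContinuousOn Q.G Z := Q.sm.continuousOn.mono hZΩ
  have ha : ContinuousOn (gam C.g Q.G Q.G) Z := (C.met'.sm_gam Q.sm Q.sm).continuousOn.mono hZΩ
  have hv : ContinuousOn (vol C.g) Z := C.met'.sm_vol.continuousOn.mono hZΩ
  have hK : IsCompact (Z ∩ fderiv ℝ Q.G ⁻¹' {0}) :=
    hZ.of_isClosed_subset
      (((Q.sm.continuousOn_fderiv_of_isOpen C.isOpen_Ω (by simp)).mono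
        hZΩ).preimage_isClosed_of_isClosed hZ.isClosed isClosed_singleton) inter_subset_left
  have hCr : IsCompact (Q.G '' (Z ∩ fderiv ℝ Q.G ⁻¹' {0}) ∪ {Q.T}) :=
    (hK.image_of_continuousOn (hG.mono inter_subset_left)).union isCompact_singleton
  have hnull : volume (Q.G '' (Z ∩ fderiv ℝ Q.G ⁻¹' {0}) ∪ {Q.T}) = 0 :=
    measure_union_null (measure_mono_null
      (image_mono fun x hx => (⟨hZΩ hx.1, hx.2⟩ : x ∈ C.Ω ∧ fderiv ℝ Q.G x = 0))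
      (sard C.isOpen_Ω Q.sm)) (measure_singleton _)
  have hV : 0 ≤ ∫ x in Z, vol C.g x := integral_nonneg fun x => vol_nonneg _ x
  set V := ∫ x in Z, vol C.g x with hVd
  have hpi := Real.pi_pos
  obtain ⟨χ, hχ, hcs, h01, h1, hi⟩ := exists_small_cutoff hCr hnull
    (ε := ε ^ 2 / (4 * Real.pi * (V + 1))) (by positivity)
  have hsub : Q.G '' (Z ∩ fderiv ℝ Q.G ⁻¹' {0}) ∪ {Q.T} ⊆ interior {t | χ t = 1} :=
    subset_interior_iff_mem_nhdsSet.2 h1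
  refine ⟨χ, Icc σ Q.T \ interior {t | χ t = 1}, hχ.continuous, h01,
    isCompact_Icc.diff isOpen_interior, fun t ht => ⟨ht.1.1, lt_of_le_of_ne ht.1.2 fun e =>
      ht.2 (hsub (Or.inr e))⟩, fun t ht ht' => ?_,
    fun x hx hJ e => hJ.2 (hsub (Or.inl ⟨x, ⟨⟨hx, hJ.1.1⟩, e⟩, rfl⟩)), ?_⟩
  · have h2 : t ∈ interior {t | χ t = 1} := by
      by_contra h3
      exact ht' ⟨ht, h3⟩
    exact interior_subset (s := {t | χ t = 1}) h2
  have hθ : ContDiff ℝ ∞ fun t => χ t * stp (2 * t / σ) :=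
    hχ.mul (stp_sm.comp ((contDiff_const.mul contDiff_id).div_const σ))
  have hθ0 : ∀ t, 0 ≤ χ t * stp (2 * t / σ) := fun t => mul_nonneg (h01 t).1 (stp_mem _).1
  obtain ⟨i1, e1⟩ := Q.level_mass hφ hθ (half_pos hσ) fun t ht => by
    rw [stp_zero ((div_le_one hσ).2 (by linarith)), mul_zero]
  have hn : ∀ x ∈ C.M, 0 ≤ χ (Q.G x) * stp (2 * Q.G x / σ) * gam C.g Q.G Q.G x * vol C.g x :=
    fun x hx => mul_nonneg (mul_nonneg (hθ0 _) (gam_nonneg (C.met'.pos x (C.M_sub hx)) _))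
      (vol_nonneg _ _)
  have hZM : Z ⊆ C.M := fun x hx => hx.1
  have mZ := hZ.measurableSet
  obtain ⟨-, h2⟩ := abs_integral_le_sqrt (μ := volume.restrict Z)
    (f := fun x => χ (Q.G x) * √(gam C.g Q.G Q.G x) * vol C.g x)
    ((((hχ.continuous.comp_continuousOn hG).mul ha.sqrt).mul hv).aestronglyMeasurable mZ)
    (i1.mono_set hZM) (hv.integrableOn_compact hZ)
    ((ae_restrict_mem mZ).mono fun x hx => hn x hx.1)
    (Eventually.of_forall fun x => vol_nonneg _ x)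
    ((ae_restrict_mem mZ).mono fun x hx => by
      have h3 := gam_nonneg (C.met'.pos x (hZΩ hx)) Q.G
      have h4 : χ (Q.G x) ^ 2 ≤ χ (Q.G x) := by nlinarith [h01 (Q.G x)]
      rw [stp_one ((le_div_iff₀ hσ).2 (by linarith [hx.2])), mul_pow, mul_pow, Real.sq_sqrt h3]
      calc χ (Q.G x) ^ 2 * gam C.g Q.G Q.G x * vol C.g x ^ 2
          ≤ χ (Q.G x) * gam C.g Q.G Q.G x * vol C.g x ^ 2 := by gcongr
        _ = _ := by ring)
  have iχ : Integrable χ := hχ.continuous.integrable_of_hasCompactSupport hcs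
  have iθ : Integrable fun t => χ t * stp (2 * t / σ) :=
    hθ.continuous.integrable_of_hasCompactSupport hcs.mul_right
  have h3 : ∫ t in (0 : ℝ)..Q.T, χ t * stp (2 * t / σ) ≤ ε ^ 2 / (4 * Real.pi * (V + 1)) := by
    rw [intervalIntegral.integral_of_le Q.T_pos.le]
    refine ((setIntegral_le_integral iθ (Eventually.of_forall hθ0)).trans
      (integral_mono iθ iχ fun t => ?_)).trans hi
    exact mul_le_of_le_one_right (h01 t).1 (stp_mem _).2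
  have h4 : ∫ x in Z, χ (Q.G x) * stp (2 * Q.G x / σ) * gam C.g Q.G Q.G x * vol C.g x ≤
      ε ^ 2 / (V + 1) := by
    refine (setIntegral_mono_set i1 ((ae_restrict_mem C.closed.measurableSet).mono hn)
      hZM.eventuallyLE).trans ?_
    rw [e1]
    refine (mul_le_mul_of_nonneg_left h3 (by positivity)).trans_eq ?_
    field_simp
  refine ((le_abs_self _).trans h2).trans ?_
  calc _ ≤ √(ε ^ 2 / (V + 1)) * √(V + 1) :=
        mul_le_mul (Real.sqrt_le_sqrt h4) (Real.sqrt_le_sqrt (by linarith)) (Real.sqrt_nonneg _)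
          (Real.sqrt_nonneg _)
    _ = ε := by
      rw [← Real.sqrt_mul (by positivity), div_mul_cancel₀ _ (by positivity), Real.sqrt_sq hε.le]

end Pool.Agent.P.MP_56a1cd_gt
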