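import Pool.Agent.P.MP_56a1cd_gt.Green
import Pool.Agent.P.MP_56a1cd_gt.Stern
import Pool.Agent.P.MP_56a1cd_gt.PsiF

namespace Pool.Agent.P.MP_56a1cd_gt

open MeasureTheory Matrix Set Filter Topology
open scoped ContDiff ENNReal

variable {m n : ℕ}

/-! PLAN. Two applications of `green` with `K = {σ ≤ G} ∩ M`: the pairs `P ∘ G`, `W` and
`L(G) W`, `G`. The first boundary term vanishes: `u = G ∘ Φ` satisfies `u ∘ refl a = 2T - u` on `W`, so by
`gam_pull` for the chart `refl a`, `pull_refl_cyl` and `gam_Φ` the function `W ∘ Φ` is invariant under `refl a`;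
so `s ↦ W (Φ (exp s • p))` is even about `a` (`refl_exp_smul`) and its derivative (`hasDerivAt_ray`) vanishes
there. The second one uses `Pot.G_bp`, `Pot.gam_bp`. -/

namespace HorBdAux

variable {φ : E 3 → ℝ} {C : Cap φ}

theorem gam_refl (hφ : Hom0 φ) (Q : Pot C) {x : E 3} (hx : x ∈ C.W) :
    gam C.g Q.G Q.G (C.Φ (refl C.a x)) = gam C.g Q.G Q.G (C.Φ x) := by
  have hu : Sm C.W fun y => Q.G (C.Φ y) := C.chart'.sm_comp C.mapsΦ Q.sm
  have h0 := C.ne_zero_of_mem_W hx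
  have h1 := sm_da C.isOpen_W hu (C.refl_mem_W hx)
  have h2 := sm_da C.isOpen_W hu hx
  have e : (fun y => Q.G (C.Φ (refl C.a y))) =ᶠ[𝓝 x] fun y => 2 * Q.T - Q.G (C.Φ y) := by
    filter_upwards [C.isOpen_W.mem_nhds hx] with y hy
    exact Q.odd y hy
  rw [C.gam_Φ Q.sm Q.sm (C.refl_mem_W hx), C.gam_Φ Q.sm Q.sm hx,
    ← gam_pull' _ ((isChart_refl C.a).da h0) ((isChart_refl C.a).det x h0) h1 h1,
    gam_congr (pull_refl_cyl C.a hφ C.N_hom h0) e e,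
    gam_sub_left _ (differentiableAt_const _) h2, gam_const_left,
    gam_sub_right _ (differentiableAt_const _) h2, gam_const_right]
  ring

theorem fl_Wd (hφ : Hom0 φ) (Q : Pot C) {δ : ℝ} (hδ : 0 < δ) {p : E 3} (hp : p ∈ sph) :
    C.fl (Wd C.g Q.G δ) p = 0 := by
  have hh := C.h_pos
  have hw : Sm C.W fun y => Wd C.g Q.G δ (C.Φ y) :=
    C.chart'.sm_comp C.mapsΦ (sm_Wd C.met' Q.sm hδ)
  have h1 := hasDerivAt_ray (sm_da C.isOpen_W hw
    (C.exp_smul_mem_W hp (s := C.a) (by linarith) (by linarith)))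
  have h2 : HasDerivAt (fun t : ℝ => 2 * C.a - t) (-1) C.a := (hasDerivAt_id' C.a).const_sub _
  have h3 := HasDerivAt.comp_of_eq C.a h1 h2 (by ring)
  have e : (fun t : ℝ => Wd C.g Q.G δ (C.Φ (Real.exp t • p))) =ᶠ[𝓝 C.a]
      (fun t : ℝ => Wd C.g Q.G δ (C.Φ (Real.exp t • p))) ∘ fun t : ℝ => 2 * C.a - t := by
    filter_upwards [Ioo_mem_nhds (show C.a - C.h < C.a by linarith)
      (show C.a < C.a + C.h by linarith)] with t ht
    simp only [Function.comp_apply, Wd]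
    rw [← refl_exp_smul C.a t hp, gam_refl hφ Q (C.exp_smul_mem_W hp ht.1 ht.2)]
  have h4 := h1.unique (h3.congr_of_eventuallyEq e)
  have h5 : rad (fun y => Wd C.g Q.G δ (C.Φ y)) (Real.exp C.a • p) = 0 := by linarith
  rw [Cap.fl, h5, neg_zero, zero_div]

end HorBdAux

open HorBdAux

theorem hor_bd {φ : E 3 → ℝ} (hφ : Hom0 φ) {C : Cap φ} (Q : Pot C) {σ c : ℝ} {P L : ℝ → ℝ}
    (hσ : 0 < σ) (h : PL Q.T σ c P L) {δ : ℝ} (hδ : 0 < δ) :
    IntegrableOn (fun x => divX C.g Q.G P L δ x * vol C.g x) C.M ∧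
      ∫ x in C.M, divX C.g Q.G P L δ x * vol C.g x =
        -(2 / Q.T) * ∫ p, √(C.fl Q.G p ^ 2 + δ) * C.fl Q.G p ∂aM φ := by
  have hW := sm_Wd C.met' Q.sm hδ
  have hz : ∀ x ∈ C.M, x ∉ {x | x ∈ C.M ∧ σ ≤ Q.G x} → P (Q.G x) = 0 ∧ L (Q.G x) = 0 :=
    fun x hx hx' => h.zero _ (Q.mapsTo (C.M_sub hx)) (le_of_not_ge fun h0 => hx' ⟨hx, h0⟩)
  obtain ⟨i1, e1⟩ := green hφ C (sm_comp_real Q.sm h.P_sm Q.mapsTo) hW (Q.cpt σ hσ)
    fun x hx hx' => (hz x hx hx').1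
  obtain ⟨i2, e2⟩ := green hφ C (f := fun y => L (Q.G y) * Wd C.g Q.G δ y)
    ((sm_comp_real Q.sm h.L_sm Q.mapsTo).mul hW) Q.sm (Q.cpt σ hσ)
    fun x hx hx' => by rw [(hz x hx hx').2, zero_mul]
  have e : (fun x => divX C.g Q.G P L δ x * vol C.g x) = fun x =>
      (gam C.g (fun y => P (Q.G y)) (Wd C.g Q.G δ) x + P (Q.G x) * lap C.g (Wd C.g Q.G δ) x) *
        vol C.g x - (gam C.g (fun y => L (Q.G y) * Wd C.g Q.G δ y) Q.G x +
          L (Q.G x) * Wd C.g Q.G δ x * lap C.g Q.G x) * vol C.g x :=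
    funext fun x => sub_mul _ _ _
  rw [e]
  refine ⟨i1.sub i2, ?_⟩
  have e3 : ∫ p, P (Q.G (C.bp p)) * C.fl (Wd C.g Q.G δ) p ∂aM φ = 0 :=
    integral_eq_zero_of_ae ((ae_sph φ).mono fun p hp => by
      simp only [fl_Wd hφ Q hδ hp, mul_zero, Pi.zero_apply])
  rw [integral_sub i1 i2, e1, e2, e3, zero_sub, neg_mul, ← integral_const_mul]
  congr 1
  refine integral_congr_ae ((ae_sph φ).mono fun p hp => ?_)
  simp only [Wd, Q.G_bp hp, Q.gam_bp hp, h.L_T, mul_assoc]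

end Pool.Agent.P.MP_56a1cd_gt
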