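import Pool.Agent.P.MP_56a1cd_gt.GBLevel
import Pool.Agent.P.MP_56a1cd_gt.HorBd
import Pool.Agent.P.MP_56a1cd_gt.HorA

namespace Pool.Agent.P.MP_56a1cd_gt

open MeasureTheory Matrix Set Filter Topology
open scoped ContDiff ENNReal

variable {m n : ℕ}

/-! PLAN. Write `a = gam G G`, `w = √a`, `Z = {σ ≤ G} ∩ M`, `Y = {G ∈ J} ∩ M` (compact) with `χ`, `J` from `exists_cut`.
Pointwise on `M`: `divX ≥ -b χ(G) w 1_Z + (1 - χ(G)) 1_Y * (bound of stern)` by `div_lower` and `stern`. Integrate,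
use `hor_bd`, and let `δ → 0` by dominated convergence (on `Y`, `a ≥ c > 0` and `KS` is continuous; the boundary term tends to
`-(2/T) ∫ fl²` by `fl_nonneg`). The limit of the bound is `P w (scal / 2 - KS) - (L' + (3/4) lam² P) w³`. Apply `gb_level` with
`Θ t = (1 - χ t) * P t` for `t > 0` and `Θ t = 0` for `t ≤ 0`; `∫ Θ ≤ ∫ Psi = T / 2`. The term `∫ χ(G) P w scal / 2` is at
most `sup_Z |scal| * ε`. Let `ε → 0`. -/

namespace Hor1Aux

theorem lim0 {x y K : ℝ} (h : ∀ s, 0 < s → s ≤ 1 → x ≤ y + s * K) : x ≤ y := by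
  have h1 : Tendsto (fun s : ℝ => y + s * K) (𝓝[>] 0) (𝓝 (y + 0 * K)) :=
    ((continuous_const.add (continuous_id.mul continuous_const)).tendsto 0).mono_left
      nhdsWithin_le_nhds
  rw [zero_mul, add_zero] at h1
  exact ge_of_tendsto h1 (mem_of_superset (Ioc_mem_nhdsGT one_pos) fun s hs => h s hs.1 hs.2)

theorem reg {a s A B K : ℝ} (ha : 0 ≤ a) (hs : 0 < s) (hK : |A| + |B| ≤ K) :
    √a * A - √a * B - s * K ≤ a / √(a + s ^ 2) * A - √(a + s ^ 2) * B := by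
  have h0 := Real.sqrt_nonneg a
  have h1 : √a ≤ √(a + s ^ 2) := Real.sqrt_le_sqrt (by nlinarith)
  have h2 : √(a + s ^ 2) ≤ √a + s :=
    Real.sqrt_le_iff.2 ⟨by positivity, by nlinarith [Real.sq_sqrt ha]⟩
  have h3 : 0 < √(a + s ^ 2) := Real.sqrt_pos.2 (by positivity)
  have h4 : a / √(a + s ^ 2) ≤ √a := by
    rw [div_le_iff₀ h3]
    nlinarith [Real.mul_self_sqrt ha]
  have h5 : √a - s ≤ a / √(a + s ^ 2) := by
    rw [le_div_iff₀ h3]
    nlinarith [Real.mul_self_sqrt ha]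
  have h6 : (√a - a / √(a + s ^ 2)) * A ≤ s * |A| :=
    (mul_le_mul_of_nonneg_left (le_abs_self A) (by linarith)).trans
      (mul_le_mul_of_nonneg_right (by linarith) (abs_nonneg A))
  have h7 : (√(a + s ^ 2) - √a) * B ≤ s * |B| :=
    (mul_le_mul_of_nonneg_left (le_abs_self B) (by linarith)).trans
      (mul_le_mul_of_nonneg_right (by linarith) (abs_nonneg B))
  nlinarith

theorem mix {D S c b w p k q a K₁ e : ℝ} (hc : 0 ≤ c ∧ c ≤ 1) (hw : 0 ≤ w) (ha : 0 ≤ a)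
    (he : 0 ≤ e) (h1 : -(b * w) ≤ D) (h2 : S ≤ D) (h3 : w * (p - k) - q * (a * w) - e ≤ S)
    (h4 : p ≤ K₁) : p * w ≤ D + (1 - c) * k * w + |q| * (a * w) + ((b + K₁) * (c * w) + e) := by
  have h5 : (1 - c) * (q * (a * w)) ≤ |q| * (a * w) := by
    have := mul_le_mul_of_nonneg_right (le_abs_self q) (mul_nonneg ha hw)
    have := mul_nonneg (abs_nonneg q) (mul_nonneg ha hw)
    nlinarith
  have h6 := mul_le_mul_of_nonneg_left h1 hc.1
  have h7 := mul_le_mul_of_nonneg_left (h3.trans h2) (sub_nonneg.2 hc.2)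
  have h8 := mul_le_mul_of_nonneg_left h4 (mul_nonneg hc.1 hw)
  have h9 := mul_nonneg hc.1 he
  nlinarith

end Hor1Aux

open Hor1Aux in
theorem hor_one {φ : E 3 → ℝ} (hφ : Hom0 φ) {C : Cap φ} (Q : Pot C) {σ c : ℝ} {P L : ℝ → ℝ}
    (hσ : 0 < σ) (hσT : σ ≤ Q.T / 4) (h : PL Q.T σ c P L) :
    ∫ x in C.M, P (Q.G x) * (scal C.g x / 2) * √(gam C.g Q.G Q.G x) * vol C.g x ≤
      -(2 / Q.T) * ∫ p, C.fl Q.G p ^ 2 ∂aM φ + 2 * Real.pi * Q.T +
        ∫ x in C.M, |deriv L (Q.G x) + 3 / 4 * lam Q.T (Q.G x) ^ 2 * P (Q.G x)| *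
          (gam C.g Q.G Q.G x * √(gam C.g Q.G Q.G x)) * vol C.g x := by
  have hT := Q.T_pos
  have hg := C.met'
  have hM := C.M_sub
  have hMm : MeasurableSet C.M := C.closed.measurableSet
  have hI : ∀ x ∈ C.M, Q.G x ∈ Ioo 0 (2 * Q.T) := fun x hx => Q.mapsTo (hM hx)
  have ha : ∀ x ∈ C.M, 0 ≤ gam C.g Q.G Q.G x := fun x hx => gam_nonneg (hg.pos x (hM hx)) _
  have cG : ContinuousOn Q.G C.M := Q.sm.continuousOn.mono hM
  have ca : ContinuousOn (gam C.g Q.G Q.G) C.M := (hg.sm_gam Q.sm Q.sm).continuousOn.mono hM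
  have cv : ContinuousOn (vol C.g) C.M := hg.sm_vol.continuousOn.mono hM
  have cs : ContinuousOn (scal C.g) C.M := hg.sm_scal.continuousOn.mono hM
  have cP : ContinuousOn (fun x => P (Q.G x)) C.M := h.P_sm.continuousOn.comp cG hI
  have cL : ContinuousOn (fun x => deriv L (Q.G x)) C.M :=
    (h.L_sm.continuousOn_deriv_of_isOpen isOpen_Ioo (by simp)).comp cG hI
  have cl : ContinuousOn (fun x => lam Q.T (Q.G x)) C.M := (continuousOn_lam Q.T).comp cG hI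
  have hZ := Q.cpt σ hσ
  set Z := {x | x ∈ C.M ∧ σ ≤ Q.G x} with hZd
  have hZM : Z ⊆ C.M := fun x hx => hx.1
  have hZm : MeasurableSet Z := hZ.isClosed.measurableSet
  obtain ⟨K₁, hK₁⟩ := hZ.exists_bound_of_continuousOn ((cP.mul (cs.div_const 2)).mono hZM)
  obtain ⟨b, -, hb⟩ := div_lower Q hσ h
  have i1 : IntegrableOn (fun x => P (Q.G x) * (scal C.g x / 2) * √(gam C.g Q.G Q.G x) *
      vol C.g x) C.M :=
    Q.integrableOn (((cP.mul (cs.div_const 2)).mul ca.sqrt).mul cv) hσ fun x hx h1 => by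
      simp only [(h.zero _ (hI x hx) h1.le).1, zero_mul]
  have i2 : IntegrableOn (fun x => |deriv L (Q.G x) + 3 / 4 * lam Q.T (Q.G x) ^ 2 * P (Q.G x)| *
      (gam C.g Q.G Q.G x * √(gam C.g Q.G Q.G x)) * vol C.g x) C.M :=
    Q.integrableOn ((((cL.add ((continuousOn_const.mul (cl.pow 2)).mul cP)).abs).mul
      (ca.mul ca.sqrt)).mul cv) hσ fun x hx h1 => by
      simp only [h.Q_zero _ (hI x hx) (Or.inl h1), abs_zero, zero_mul]
  refine lim0 (K := |b + K₁|) fun ε hε _ => ?_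
  obtain ⟨χ, J, cχ, hχ, hJ, hJs, hχ1, hr, hcut⟩ := exists_cut hφ Q hσ hε
  have hY : IsCompact (Z ∩ Q.G ⁻¹' J) := hZ.of_isClosed_subset
    ((cG.mono hZM).preimage_isClosed_of_isClosed hZ.isClosed hJ.isClosed) inter_subset_left
  have hYM : Z ∩ Q.G ⁻¹' J ⊆ C.M := fun x hx => hx.1.1
  have hY0 : ∀ x ∈ Z ∩ Q.G ⁻¹' J, gam C.g Q.G Q.G x ≠ 0 := fun x hx h0 =>
    hr x hx.1.1 hx.2 ((gam_eq_zero_iff (hg.pos x (hM hx.1.1)) _).1 h0)
  have cK : ContinuousOn (KS C.g Q.G) (Z ∩ Q.G ⁻¹' J) :=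
    (hg.continuousOn_KS Q.sm).mono fun x hx => ⟨hM hx.1.1, hY0 x hx⟩
  obtain ⟨K, hK⟩ := hY.exists_bound_of_continuousOn (f := fun x =>
      |P (Q.G x) * (scal C.g x / 2 - KS C.g Q.G x -
        3 / 4 * lam Q.T (Q.G x) ^ 2 * gam C.g Q.G Q.G x)| + |deriv L (Q.G x) * gam C.g Q.G Q.G x|)
    (((cP.mono hYM).mul ((((cs.div_const 2).mono hYM).sub cK).sub
      (((continuousOn_const.mul (cl.pow 2)).mul ca).mono hYM))).abs.add
      ((cL.mul ca).mono hYM).abs)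
  have hmax : ∀ t ∈ Icc 0 Q.T, max t σ ∈ Ioo 0 (2 * Q.T) := fun t ht =>
    ⟨lt_max_of_lt_right hσ, max_lt (by linarith [ht.2]) (by linarith)⟩
  have hσ0 : P σ = 0 := (h.zero σ ⟨hσ, by linarith⟩ le_rfl).1
  have cΘ : ContinuousOn (fun t => (1 - χ t) * P (max t σ)) (Icc 0 Q.T) :=
    (continuous_const.sub cχ).continuousOn.mul
      (h.P_sm.continuousOn.comp (continuous_id.max continuous_const).continuousOn hmax)
  have hz : ∀ t ∈ Icc 0 Q.T, t ∉ J → (1 - χ t) * P (max t σ) = 0 := fun t ht hn => by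
    rcases le_total t σ with h1 | h1
    · rw [max_eq_right h1, hσ0, mul_zero]
    · rw [hχ1 t ⟨h1, ht.2⟩ hn, sub_self, zero_mul]
  obtain ⟨i3, e3⟩ := gb_level Q hJ (fun t ht => ⟨hσ.trans_le (hJs ht).1, (hJs ht).2⟩) cΘ
    (fun t ht => mul_nonneg (sub_nonneg.2 (hχ t).2) (h.P_mem _ (hmax t ht)).1) hz hr
  have e4 : ∫ t in (0 : ℝ)..Q.T, (1 - χ t) * P (max t σ) ≤ Q.T / 2 := by
    rw [← integral_Psi hT]
    refine intervalIntegral.integral_mono_on hT.le (cΘ.intervalIntegrable_of_Icc hT.le)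
      (((continuousOn_Psi Q.T).mono fun t ht => ?_).intervalIntegrable_of_Icc hT.le)
      fun t ht => ?_
    · exact lt_of_le_of_lt ht.2 (by linarith)
    · rcases le_total t σ with h1 | h1
      · rw [max_eq_right h1, hσ0, mul_zero]
        exact (Psi_mem hT ht.1 ht.2).1
      · have h2 := h.P_mem _ (hmax t ht)
        rw [max_eq_left h1] at h2 ⊢
        nlinarith [(hχ t).1]
  have i5 : IntegrableOn (fun x => χ (Q.G x) * √(gam C.g Q.G Q.G x) * vol C.g x) Z :=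
    ((((cχ.comp_continuousOn cG).mul ca.sqrt).mul cv).mono hZM).integrableOn_compact hZ
  have i6 : IntegrableOn (vol C.g) Z := (cv.mono hZM).integrableOn_compact hZ
  have e5 : 0 ≤ ∫ x in Z, χ (Q.G x) * √(gam C.g Q.G Q.G x) * vol C.g x :=
    integral_nonneg fun x => mul_nonneg (mul_nonneg (hχ _).1 (Real.sqrt_nonneg _)) (vol_nonneg _ _)
  refine lim0 (K := |K| * ∫ x in Z, vol C.g x) fun s hs hs1 => ?_
  have hδ : 0 < s ^ 2 := by positivity
  obtain ⟨i4, e1⟩ := hor_bd hφ Q hσ h hδ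
  have cf := C.continuousOn_fl Q.sm
  have e2 : ∫ p, C.fl Q.G p ^ 2 ∂aM φ ≤ ∫ p, √(C.fl Q.G p ^ 2 + s ^ 2) * C.fl Q.G p ∂aM φ := by
    refine integral_mono_ae (integrable_aM hφ (cf.pow 2))
      (integrable_aM hφ (((cf.pow 2).add continuousOn_const).sqrt.mul cf))
      ((ae_sph φ).mono fun p hp => ?_)
    have h1 := Q.fl_nonneg hp
    have h2 : C.fl Q.G p ≤ √(C.fl Q.G p ^ 2 + s ^ 2) := Real.le_sqrt_of_sq_le (by linarith)
    exact (sq _).trans_le (mul_le_mul_of_nonneg_right h2 h1)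
  have i7 : IntegrableOn (fun x => (b + K₁) * (χ (Q.G x) * √(gam C.g Q.G Q.G x) * vol C.g x) +
      s * |K| * vol C.g x) Z := (i5.const_mul _).add (i6.const_mul _)
  have i8 := ((integrable_indicator_iff hZm).2 i7).integrableOn (s := C.M)
  have key := setIntegral_mono_on i1 (((i4.add i3).add i2).add i8) hMm fun x hx => by
    have hv := vol_nonneg C.g x
    have hw := Real.sqrt_nonneg (gam C.g Q.G Q.G x)
    have hx' : Q.G x ∈ Icc 0 Q.T := ⟨(Q.pos x hx).le, Q.le x hx⟩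
    obtain ⟨d1, d2⟩ := hb _ hδ (by nlinarith) x hx
    simp only [Pi.add_apply]
    by_cases h1 : Q.G x < σ
    · rw [indicator_of_notMem fun h2 : x ∈ Z => h1.not_ge h2.2, d1 h1,
        (h.zero _ (hI x hx) h1.le).1, max_eq_right h1.le, hσ0]
      have := ha x hx
      simp only [zero_mul, mul_zero, add_zero, zero_add]
      positivity
    have hxZ : x ∈ Z := ⟨hx, not_lt.1 h1⟩
    have h4 : P (Q.G x) * (scal C.g x / 2) ≤ K₁ := (le_abs_self _).trans (hK₁ x hxZ)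
    have he : 0 ≤ s * |K| := by positivity
    rw [indicator_of_mem hxZ, max_eq_left hxZ.2]
    by_cases h2 : Q.G x ∈ J
    · have h5 := stern (l := lam Q.T) hg Q.sm Q.harm hδ isOpen_Ioo Q.mapsTo h.P_sm h.L_sm (hM hx)
        (h.L_eq _ (hI x hx)) (h.P_mem _ (hI x hx)).1 (hY0 x ⟨hxZ, h2⟩)
      have h6 := reg (ha x hx) hs (((le_abs_self _).trans (hK x ⟨hxZ, h2⟩)).trans (le_abs_self K))
      have h7 := mix (k := P (Q.G x) * KS C.g Q.G x)
        (q := deriv L (Q.G x) + 3 / 4 * lam Q.T (Q.G x) ^ 2 * P (Q.G x)) (hχ (Q.G x)) hw (ha x hx)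
        he d2 h5 (le_of_eq_of_le (by ring) (h6.trans_eq (by unfold Wd; ring))) h4
      exact (mul_le_mul_of_nonneg_right h7 hv).trans_eq (by ring)
    · have h5 := hχ1 _ ⟨hxZ.2, hx'.2⟩ h2
      have h6 := mul_nonneg (abs_nonneg
        (deriv L (Q.G x) + 3 / 4 * lam Q.T (Q.G x) ^ 2 * P (Q.G x))) (mul_nonneg (ha x hx) hw)
      have h7 := mul_le_mul_of_nonneg_right h4 hw
      have h8 : P (Q.G x) * (scal C.g x / 2) * √(gam C.g Q.G Q.G x) ≤
          divX C.g Q.G P L (s ^ 2) x + |deriv L (Q.G x) + 3 / 4 * lam Q.T (Q.G x) ^ 2 * P (Q.G x)| *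
            (gam C.g Q.G Q.G x * √(gam C.g Q.G Q.G x)) +
            ((b + K₁) * √(gam C.g Q.G Q.G x) + s * |K|) := by linarith
      rw [h5]
      exact (mul_le_mul_of_nonneg_right h8 hv).trans_eq (by ring)
  rw [integral_add' ((i4.add i3).add i2) i8, integral_add' (i4.add i3) i2, integral_add' i4 i3,
    setIntegral_indicator hZm, inter_eq_right.2 hZM, integral_add (i5.const_mul _) (i6.const_mul _),
    integral_const_mul, integral_const_mul, e1] at key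
  have f1 := mul_le_mul_of_nonneg_left e2 (show 0 ≤ 2 / Q.T by positivity)
  have f2 := mul_le_mul_of_nonneg_left e4 (show 0 ≤ 4 * Real.pi by positivity)
  have f3 := (mul_le_mul_of_nonneg_right (le_abs_self (b + K₁)) e5).trans
    (mul_le_mul_of_nonneg_left hcut (abs_nonneg _))
  linarith

end Pool.Agent.P.MP_56a1cd_gt
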