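import Pool.Agent.P.MP_56a1cd_gt.CalcN

namespace Pool.Agent.P.MP_56a1cd_gt

open MeasureTheory Matrix Set Filter Topology
open scoped ContDiff ENNReal

variable {m n : ℕ}

/-! PLAN. `exists_kappa`: `k t = ∫ τ in 0..t, stp τ` is convex, zero for `t ≤ 1`, equal to `t - c₀` for `t ≥ 2`
with `c₀ ∈ [1, 2]`; put `δ = D² / 4`, `κ s = δ k (s / δ) + c₀ δ stp (2 s / D)`. -/

namespace KappaAux

/-- The primitive of the step function. -/
noncomputable def kk (t : ℝ) : ℝ := ∫ τ in (1 : ℝ)..t, stp τ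

theorem stp_cont : Continuous stp := stp_sm.continuous

theorem kk_deriv (t : ℝ) : HasDerivAt kk (stp t) t :=
  (stp_cont.integral_hasStrictDerivAt 1 t).hasDerivAt

theorem deriv_kk : deriv kk = stp := funext fun t => (kk_deriv t).deriv

theorem kk_sm : ContDiff ℝ ∞ kk := by
  rw [contDiff_infty_iff_deriv]
  exact ⟨fun t => (kk_deriv t).differentiableAt, by rw [deriv_kk]; exact stp_sm⟩

theorem kk_mono : Monotone kk :=
  monotone_of_deriv_nonneg (fun t => (kk_deriv t).differentiableAt)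
    (fun t => by rw [deriv_kk]; exact (stp_mem t).1)

theorem kk_zero {t : ℝ} (h : t ≤ 1) : kk t = 0 := by
  unfold kk
  rw [intervalIntegral.integral_congr (g := fun _ => (0 : ℝ))]
  · simp
  · intro x hx
    rw [uIcc_of_ge h] at hx
    exact stp_zero hx.2

theorem kk_nonneg (t : ℝ) : 0 ≤ kk t := by
  rcases le_total t 1 with h | h
  · rw [kk_zero h]
  · rw [← kk_zero (le_refl (1 : ℝ))]
    exact kk_mono h

theorem kk_two_le : kk 2 ≤ 1 := by
  unfold kk
  have h := intervalIntegral.integral_mono_on (μ := volume) (a := (1 : ℝ)) (b := 2)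
    (f := stp) (g := fun _ => (1 : ℝ)) (by norm_num) (stp_cont.intervalIntegrable _ _)
    (continuous_const.intervalIntegrable _ _) (fun x _ => (stp_mem x).2)
  have h2 : (∫ _ in (1 : ℝ)..2, (1 : ℝ)) = 1 := by
    simp only [intervalIntegral.integral_const, smul_eq_mul, mul_one]
    norm_num
  rw [h2] at h
  exact h

theorem kk_big {t : ℝ} (h : 2 ≤ t) : kk t = t - (2 - kk 2) := by
  have h1 : kk t = kk 2 + ∫ τ in (2 : ℝ)..t, stp τ := by
    unfold kk
    rw [intervalIntegral.integral_add_adjacent_intervals (stp_cont.intervalIntegrable _ _)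
      (stp_cont.intervalIntegrable _ _)]
  have h2 : (∫ τ in (2 : ℝ)..t, stp τ) = t - 2 := by
    rw [intervalIntegral.integral_congr (g := fun _ => (1 : ℝ))]
    · simp
    · intro x hx
      rw [uIcc_of_le h] at hx
      exact stp_one hx.1
  rw [h1, h2]
  ring

theorem stp_hasDeriv (t : ℝ) : HasDerivAt stp (deriv stp t) t :=
  (stp_sm.differentiable (by simp) t).hasDerivAt

theorem stp_hasDeriv2 (t : ℝ) : HasDerivAt (deriv stp) (deriv (deriv stp) t) t :=
  (((contDiff_infty_iff_deriv.mp stp_sm).2).differentiable (by simp) t).hasDerivAt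

/-- The cut-off function. -/
noncomputable def ka (D s : ℝ) : ℝ :=
  D ^ 2 / 4 * kk (s * (4 / D ^ 2)) + (2 - kk 2) * (D ^ 2 / 4) * stp (s * (2 / D))

theorem ka_deriv {D : ℝ} (hD : 0 < D) (s : ℝ) :
    HasDerivAt (ka D) (stp (s * (4 / D ^ 2)) + (2 - kk 2) * (D / 2) * deriv stp (s * (2 / D))) s := by
  have h1 := ((kk_deriv (s * (4 / D ^ 2))).comp s (hasDerivAt_mul_const (4 / D ^ 2))).const_mul
    (D ^ 2 / 4)
  have h2 := ((stp_hasDeriv (s * (2 / D))).comp s (hasDerivAt_mul_const (2 / D))).const_mul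
    ((2 - kk 2) * (D ^ 2 / 4))
  have h3 := h1.add h2
  have e : D ^ 2 / 4 * (stp (s * (4 / D ^ 2)) * (4 / D ^ 2)) +
      (2 - kk 2) * (D ^ 2 / 4) * (deriv stp (s * (2 / D)) * (2 / D)) =
      stp (s * (4 / D ^ 2)) + (2 - kk 2) * (D / 2) * deriv stp (s * (2 / D)) := by
    field_simp
    ring
  rw [e] at h3
  exact h3

theorem ka_deriv2 {D : ℝ} (hD : 0 < D) (s : ℝ) :
    HasDerivAt (deriv (ka D)) (deriv stp (s * (4 / D ^ 2)) * (4 / D ^ 2) +
      (2 - kk 2) * deriv (deriv stp) (s * (2 / D))) s := by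
  have e0 : deriv (ka D) = fun s =>
      stp (s * (4 / D ^ 2)) + (2 - kk 2) * (D / 2) * deriv stp (s * (2 / D)) :=
    funext fun s => (ka_deriv hD s).deriv
  rw [e0]
  have h1 := (stp_hasDeriv (s * (4 / D ^ 2))).comp s (hasDerivAt_mul_const (4 / D ^ 2))
  have h2 := ((stp_hasDeriv2 (s * (2 / D))).comp s (hasDerivAt_mul_const (2 / D))).const_mul
    ((2 - kk 2) * (D / 2))
  have h3 := h1.add h2
  have e : deriv stp (s * (4 / D ^ 2)) * (4 / D ^ 2) +
      (2 - kk 2) * (D / 2) * (deriv (deriv stp) (s * (2 / D)) * (2 / D)) =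
      deriv stp (s * (4 / D ^ 2)) * (4 / D ^ 2) +
      (2 - kk 2) * deriv (deriv stp) (s * (2 / D)) := by
    field_simp
  rw [e] at h3
  exact h3

theorem ka_sm (D : ℝ) : ContDiff ℝ ∞ (ka D) := by
  unfold ka
  exact (contDiff_const.mul (kk_sm.comp (contDiff_id.mul contDiff_const))).add
    (contDiff_const.mul (stp_sm.comp (contDiff_id.mul contDiff_const)))

theorem ka_nonneg (D s : ℝ) : 0 ≤ ka D s := by
  unfold ka
  have h1 := kk_nonneg (s * (4 / D ^ 2))
  have h2 := (stp_mem (s * (2 / D))).1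
  have h3 : 0 ≤ 2 - kk 2 := by linarith [kk_two_le]
  positivity

theorem ka_le {D : ℝ} (hD : 0 < D) (hD1 : D ≤ 1) {s : ℝ} (hs : s ≤ D) : ka D s ≤ D := by
  unfold ka
  have h0 : s * (4 / D ^ 2) ≤ D * (4 / D ^ 2) := mul_le_mul_of_nonneg_right hs (by positivity)
  have h2 : 2 ≤ D * (4 / D ^ 2) := by
    have : D * (4 / D ^ 2) = 4 / D := by field_simp
    rw [this, le_div_iff₀ hD]
    linarith
  have h1 := kk_mono h0
  rw [kk_big h2] at h1
  have h3 : 0 ≤ 2 - kk 2 := by linarith [kk_two_le]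
  have h4 := (stp_mem (s * (2 / D))).2
  have h5 : D ^ 2 / 4 * kk (s * (4 / D ^ 2)) ≤ D ^ 2 / 4 * (D * (4 / D ^ 2) - (2 - kk 2)) :=
    mul_le_mul_of_nonneg_left h1 (by positivity)
  have h6 : (2 - kk 2) * (D ^ 2 / 4) * stp (s * (2 / D)) ≤ (2 - kk 2) * (D ^ 2 / 4) * 1 :=
    mul_le_mul_of_nonneg_left h4 (by positivity)
  have h7 : D ^ 2 / 4 * (D * (4 / D ^ 2) - (2 - kk 2)) + (2 - kk 2) * (D ^ 2 / 4) * 1 = D := by
    field_simp
    ring
  linarith

theorem ka_small {D : ℝ} (hD : 0 < D) (hD1 : D ≤ 1) {s : ℝ} (hs : s * (4 / D ^ 2) ≤ 2) :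
    ka D s = D ^ 2 / 4 * kk (s * (4 / D ^ 2)) := by
  unfold ka
  have h1 : s * (2 / D) ≤ 1 := by
    have e : s * (2 / D) = s * (4 / D ^ 2) * (D / 2) := by
      field_simp
      ring
    rw [e]
    calc s * (4 / D ^ 2) * (D / 2) ≤ 2 * (D / 2) := mul_le_mul_of_nonneg_right hs (by positivity)
      _ ≤ 1 := by linarith
  rw [stp_zero h1]
  ring

end KappaAux

open KappaAux in
theorem exists_kappa : ∃ C₀ : ℝ, 0 < C₀ ∧ ∀ D : ℝ, 0 < D → D ≤ 1 → ∃ (κ : ℝ → ℝ) (δ : ℝ),
    0 < δ ∧ δ < D ∧ ContDiff ℝ ∞ κ ∧ (∀ s, s ≤ δ → κ s = 0) ∧ (∀ s, D ≤ s → κ s = s) ∧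
      (∀ s, 0 ≤ κ s) ∧ (∀ s, s ≤ D → κ s ≤ D) ∧ ∀ s, |deriv κ s| ≤ C₀ ∧
        -C₀ ≤ deriv (deriv κ) s ∧ κ s * deriv (deriv κ) s ≤ C₀ := by
  obtain ⟨C, hC, hb⟩ := stp_deriv_bdd
  refine ⟨1 + 3 * C, by positivity, fun D hD hD1 => ⟨ka D, D ^ 2 / 4, by positivity, by nlinarith,
    ka_sm D, ?_, ?_, ka_nonneg D, fun s hs => ka_le hD hD1 hs, ?_⟩⟩
  · intro s hs
    have h1 : s * (4 / D ^ 2) ≤ 1 := by
      calc s * (4 / D ^ 2) ≤ D ^ 2 / 4 * (4 / D ^ 2) :=
            mul_le_mul_of_nonneg_right hs (by positivity)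
        _ = 1 := by field_simp
    rw [ka_small hD hD1 (by linarith), kk_zero h1, mul_zero]
  · intro s hs
    have h1 : 2 ≤ s * (4 / D ^ 2) := by
      have h0 : D * (4 / D ^ 2) ≤ s * (4 / D ^ 2) := mul_le_mul_of_nonneg_right hs (by positivity)
      have h2 : 2 ≤ D * (4 / D ^ 2) := by
        have : D * (4 / D ^ 2) = 4 / D := by field_simp
        rw [this, le_div_iff₀ hD]
        linarith
      linarith
    have h2 : 2 ≤ s * (2 / D) := by
      calc (2 : ℝ) = D * (2 / D) := by field_simp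
        _ ≤ s * (2 / D) := mul_le_mul_of_nonneg_right hs (by positivity)
    unfold ka
    rw [kk_big h1, stp_one h2]
    field_simp
    ring
  · intro s
    have c0 : 0 ≤ 2 - kk 2 := by linarith [kk_two_le]
    have c2 : 2 - kk 2 ≤ 2 := by linarith [kk_nonneg 2]
    have b1 := abs_le.mp (hb (s * (2 / D))).1
    have b2 := abs_le.mp (hb (s * (2 / D))).2
    have b3 := abs_le.mp (hb (s * (4 / D ^ 2))).1
    have p1 := stp_deriv_nonneg (s * (2 / D))
    have p3 := stp_deriv_nonneg (s * (4 / D ^ 2))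
    have m3 := stp_mem (s * (4 / D ^ 2))
    rw [(ka_deriv hD s).deriv, (ka_deriv2 hD s).deriv]
    refine ⟨?_, ?_, ?_⟩
    · have u1 : (2 - kk 2) * (D / 2) ≤ 1 := by nlinarith
      have u0 : 0 ≤ (2 - kk 2) * (D / 2) := by positivity
      have u2 : (2 - kk 2) * (D / 2) * deriv stp (s * (2 / D)) ≤ 1 * C :=
        mul_le_mul u1 b1.2 p1 zero_le_one
      have u3 : 0 ≤ (2 - kk 2) * (D / 2) * deriv stp (s * (2 / D)) := mul_nonneg u0 p1
      rw [abs_le]
      constructor <;> linarith [m3.1, m3.2]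
    · have u1 : 0 ≤ deriv stp (s * (4 / D ^ 2)) * (4 / D ^ 2) := by positivity
      have u2 : (2 - kk 2) * (-C) ≤ (2 - kk 2) * deriv (deriv stp) (s * (2 / D)) :=
        mul_le_mul_of_nonneg_left b2.1 c0
      nlinarith
    · have k0 := ka_nonneg D s
      have v1 : ka D s * (deriv stp (s * (4 / D ^ 2)) * (4 / D ^ 2)) ≤ C := by
        rcases le_or_gt (s * (4 / D ^ 2)) 2 with h | h
        · rw [ka_small hD hD1 h]
          have w1 : kk (s * (4 / D ^ 2)) ≤ 1 := (kk_mono h).trans kk_two_le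
          have e : D ^ 2 / 4 * kk (s * (4 / D ^ 2)) * (deriv stp (s * (4 / D ^ 2)) * (4 / D ^ 2)) =
              kk (s * (4 / D ^ 2)) * deriv stp (s * (4 / D ^ 2)) := by
            field_simp
          rw [e]
          calc _ ≤ 1 * C := mul_le_mul w1 b3.2 p3 zero_le_one
            _ = C := one_mul C
        · rw [(stp_deriv_zero (Or.inr h)).1]
          simp only [zero_mul, mul_zero]
          exact hC.le
      have v2 : ka D s * ((2 - kk 2) * deriv (deriv stp) (s * (2 / D))) ≤ 2 * C := by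
        rcases le_or_gt s D with h | h
        · have w1 : ka D s ≤ 1 := (ka_le hD hD1 h).trans hD1
          have w2 : (2 - kk 2) * deriv (deriv stp) (s * (2 / D)) ≤ 2 * C :=
            (mul_le_mul_of_nonneg_left b2.2 c0).trans (mul_le_mul_of_nonneg_right c2 hC.le)
          calc _ ≤ ka D s * (2 * C) := mul_le_mul_of_nonneg_left w2 k0
            _ ≤ 1 * (2 * C) := mul_le_mul_of_nonneg_right w1 (by positivity)
            _ = 2 * C := one_mul _
        · have h2 : 2 < s * (2 / D) := by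
            calc (2 : ℝ) = D * (2 / D) := by field_simp
              _ < s * (2 / D) := mul_lt_mul_of_pos_right h (by positivity)
          rw [(stp_deriv_zero (Or.inr h2)).2]
          simp only [mul_zero]
          positivity
      rw [mul_add]
      linarith

end Pool.Agent.P.MP_56a1cd_gt
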