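import Pool.Agent.P.MP_56a1cd_gt.EllSeq

namespace Pool.Agent.P.MP_56a1cd_gt

open MeasureTheory Matrix Set Filter Topology
open scoped ContDiff ENNReal

variable {m n : ℕ}

/-! PLAN. Removable singularity. Let `B = {nrm y < ρ}`, `ζ k y = stp ((k + 1) * nrm y)`, `u k = ζ k * u`
(zero near the origin, so smooth on `B`). With `D k = {0 < nrm y ≤ 2 / (k + 1)}`,
` (u k - u)² + |∇ (u k - u)|² ≤ C (u² / |y|² + |∇u|²)` on `D k` and zero off `D k`, and the integral over
`D k` tends to zero (`tendsto_setIntegral_of_antitone` or dominated convergence); this gives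
`CauchyH1`. Weak equation for a test function `φ`: `∫ ∇(u k) · ∇φ → ∫ ∇u · ∇φ`, and
`0 = ∫ ∇u · ∇(ζ k φ) = ∫ ζ k ∇u · ∇φ + ∫ φ ∇u · ∇(ζ k)` by `ibp` on the punctured ball, where
`∫ |∇ ζ k|² ≤ C (k+1)² * volume (D k) → 0`. Apply `ell_seq` with `flat` and `tendH1_unique` on the punctured
ball. -/

namespace RemovAux

/-- The punctured ball. -/
def PB (ρ : ℝ) : Set (E 3) := {y | y ≠ 0 ∧ nrm y < ρ}

/-- The energy density. -/
noncomputable def HH (u : E 3 → ℝ) (y : E 3) : ℝ := u y ^ 2 / nrm y ^ 2 + ∑ i, pd i u y ^ 2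

/-- The small balls. -/
def DD (N : ℕ) : Set (E 3) := {y | ((N : ℝ) + 1) * nrm y ≤ 2}

/-- The cut-off functions. -/
noncomputable def zt (k : ℕ) (y : E 3) : ℝ := stp (((k : ℝ) + 1) * nrm y)

structure Cut (c : ℝ) (N : ℕ) (a : E 3 → ℝ) : Prop where
  da : ∀ y, y ≠ 0 → DifferentiableAt ℝ a y
  mem : ∀ y, 0 ≤ a y ∧ a y ≤ 1
  grad : ∀ y, y ≠ 0 → ∀ i, |pd i a y| ≤ c / nrm y
  one : ∀ y, y ∉ DD N → a y = 1 ∧ ∀ i, pd i a y = 0

theorem opn0 : IsOpen {y : E 3 | y ≠ 0} := isOpen_ne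

theorem isOpen_B (ρ : ℝ) : IsOpen {y : E 3 | nrm y < ρ} :=
  isOpen_lt continuous_nrm continuous_const

theorem isOpen_PB (ρ : ℝ) : IsOpen (PB ρ) := opn0.inter (isOpen_B ρ)

theorem meas_DD (N : ℕ) : MeasurableSet (DD N) :=
  (isClosed_le (continuous_const.mul continuous_nrm) continuous_const).measurableSet

theorem HH_nonneg (u : E 3 → ℝ) (y : E 3) : 0 ≤ HH u y := by
  unfold HH; positivity

theorem sm_zt (k : ℕ) : Sm {y : E 3 | y ≠ 0} (zt k) :=
  stp_sm.comp_contDiffOn (contDiffOn_const.mul sm_nrm)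

theorem pd_zt (k : ℕ) {y : E 3} (hy : y ≠ 0) (i : Fin 3) :
    pd i (zt k) y = deriv stp (((k : ℝ) + 1) * nrm y) * (((k : ℝ) + 1) * (y i / nrm y)) := by
  have h1 : DifferentiableAt ℝ (fun z : E 3 => ((k : ℝ) + 1) * nrm z) y :=
    (sm_da opn0 sm_nrm hy).const_mul _
  have h2 : HasDerivAt stp (deriv stp (((k : ℝ) + 1) * nrm y)) (((k : ℝ) + 1) * nrm y) :=
    ((stp_sm.differentiable (by simp)) _).hasDerivAt
  have h3 := pd_comp_real h1 h2 i
  rw [pd_const_mul, pd_nrm hy] at h3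
  exact h3

theorem cut_zt : ∃ c : ℝ, 0 < c ∧ ∀ N k : ℕ, N ≤ k → Cut c N (zt k) := by
  obtain ⟨C, hC, hb⟩ := stp_deriv_bdd
  refine ⟨2 * C, by positivity, fun N k hk => ⟨fun y hy => sm_da opn0 (sm_zt k) hy,
    fun y => stp_mem _, fun y hy i => ?_, fun y hy => ?_⟩⟩
  · have hn := nrm_pos hy
    rw [pd_zt k hy]
    by_cases h : 2 < ((k : ℝ) + 1) * nrm y
    · rw [(stp_deriv_zero (Or.inr h)).1]
      simp only [zero_mul, abs_zero]
      positivity
    · push Not at h
      have hk0 : (0 : ℝ) < (k : ℝ) + 1 := by positivity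
      have h1 : |y i / nrm y| ≤ 1 := by
        rw [abs_div, abs_of_pos hn, div_le_one hn]
        exact abs_le_nrm y i
      have h2 : (k : ℝ) + 1 ≤ 2 / nrm y := by rw [le_div_iff₀ hn]; exact h
      rw [abs_mul, abs_mul, abs_of_pos hk0]
      calc |deriv stp (((k : ℝ) + 1) * nrm y)| * (((k : ℝ) + 1) * |y i / nrm y|)
          ≤ C * (2 / nrm y * 1) := by
            apply mul_le_mul (hb _).1 _ (by positivity) hC.le
            exact mul_le_mul h2 h1 (abs_nonneg _) (by positivity)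
        _ = 2 * C / nrm y := by ring
  · have h : 2 < ((N : ℝ) + 1) * nrm y := not_le.mp hy
    have hk' : (N : ℝ) ≤ k := by exact_mod_cast hk
    have h' : 2 < ((k : ℝ) + 1) * nrm y :=
      h.trans_le (mul_le_mul_of_nonneg_right (by linarith) (nrm_nonneg y))
    have hy0 : y ≠ 0 := by
      rintro rfl
      rw [nrm_zero] at h
      norm_num at h
    refine ⟨stp_one h'.le, fun i => ?_⟩
    rw [pd_zt k hy0, (stp_deriv_zero (Or.inr h')).1, zero_mul]

theorem cut_one {c : ℝ} (hc : 0 < c) (N : ℕ) : Cut c N (fun _ => 1) :=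
  ⟨fun _ _ => differentiableAt_const _, fun _ => ⟨zero_le_one, le_rfl⟩, fun y hy i => by
    rw [pd_const, abs_zero]
    have := nrm_pos hy
    positivity, fun y _ => ⟨rfl, fun i => pd_const _ _ _⟩⟩

theorem ev_not_DD {y : E 3} (hy : y ≠ 0) : ∀ᶠ N in atTop, y ∉ DD N := by
  have hn := nrm_pos hy
  obtain ⟨M, hM⟩ := exists_nat_gt (2 / nrm y)
  filter_upwards [eventually_ge_atTop M] with N hN
  have h1 : (M : ℝ) ≤ N := by exact_mod_cast hN
  rw [div_lt_iff₀ hn] at hM
  have : (M : ℝ) * nrm y ≤ ((N : ℝ) + 1) * nrm y :=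
    mul_le_mul_of_nonneg_right (by linarith) hn.le
  exact not_le.mpr (hM.trans_le this)

theorem tendsto_err {ρ : ℝ} {G : E 3 → ℝ} (hG : IntegrableOn G (PB ρ)) :
    Tendsto (fun N => ∫ y in PB ρ, (DD N).indicator G y) atTop (𝓝 0) := by
  have h := tendsto_integral_of_dominated_convergence (μ := volume.restrict (PB ρ))
    (F := fun N y => (DD N).indicator G y) (f := fun _ => (0 : ℝ)) (fun y => ‖G y‖)
    (fun N => hG.aestronglyMeasurable.indicator (meas_DD N)) hG.norm
    (fun N => Eventually.of_forall fun y => norm_indicator_le_norm_self _ _) (by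
      filter_upwards [ae_restrict_mem (isOpen_PB ρ).measurableSet] with y hy
      refine tendsto_const_nhds.congr' ?_
      filter_upwards [ev_not_DD hy.1] with N hN
      rw [indicator_of_notMem hN])
  simpa using h

theorem ae_PB {ρ : ℝ} {K : Set (E 3)} (hK : K ⊆ {y | nrm y < ρ}) :
    K =ᵐ[volume] (K ∩ PB ρ : Set (E 3)) := by
  have h0 : ∀ᵐ y : E 3, y ≠ 0 := by
    have : volume ({0} : Set (E 3)) = 0 := measure_singleton _
    exact compl_mem_ae_iff.mpr this
  filter_upwards [h0] with y hy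
  exact propext ⟨fun h => ⟨h, hy, hK h⟩, fun h => h.1⟩

theorem point_bd {ρ c : ℝ} {N : ℕ} {u a b : E 3 → ℝ} (hu : Sm (PB ρ) u) (ha : Cut c N a)
    (hb : Cut c N b) {y : E 3} (hy : y ∈ PB ρ) :
    (a y * u y - b y * u y) ^ 2 +
      ∑ i, (pd i (fun z => a z * u z) y - pd i (fun z => b z * u z) y) ^ 2 ≤
      (ρ ^ 2 + 24 * c ^ 2 + 2) * (DD N).indicator (HH u) y := by
  have hd := sm_da (isOpen_PB ρ) hu hy
  have hn := nrm_pos hy.1
  simp only [pd_mul (ha.da y hy.1) hd, pd_mul (hb.da y hy.1) hd]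
  by_cases h : y ∈ DD N
  · rw [indicator_of_mem h]
    have hab : (a y - b y) ^ 2 ≤ 1 := by
      have h1 := ha.mem y
      have h2 := hb.mem y
      nlinarith
    set q := u y ^ 2 / nrm y ^ 2 with hq
    have hq0 : 0 ≤ q := by positivity
    have e1 : u y ^ 2 = nrm y ^ 2 * q := by rw [hq]; field_simp
    have h1 : (a y * u y - b y * u y) ^ 2 ≤ ρ ^ 2 * q := by
      have : nrm y ^ 2 ≤ ρ ^ 2 := pow_le_pow_left₀ hn.le hy.2.le 2
      calc (a y * u y - b y * u y) ^ 2 = (a y - b y) ^ 2 * u y ^ 2 := by ring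
        _ ≤ 1 * u y ^ 2 := mul_le_mul_of_nonneg_right hab (sq_nonneg _)
        _ = nrm y ^ 2 * q := by rw [one_mul, e1]
        _ ≤ ρ ^ 2 * q := mul_le_mul_of_nonneg_right this hq0
    have h2 : ∀ i, (pd i a y * u y + a y * pd i u y - (pd i b y * u y + b y * pd i u y)) ^ 2 ≤
        8 * c ^ 2 * q + 2 * pd i u y ^ 2 := by
      intro i
      have g1 := ha.grad y hy.1 i
      have g2 := hb.grad y hy.1 i
      have g3 : |pd i a y - pd i b y| ≤ 2 * (c / nrm y) := by
        have := abs_sub (pd i a y) (pd i b y)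
        linarith
      have g4 : (pd i a y - pd i b y) ^ 2 ≤ (2 * (c / nrm y)) ^ 2 := by
        rw [← sq_abs]
        exact pow_le_pow_left₀ (abs_nonneg _) g3 2
      have g5 : (pd i a y - pd i b y) ^ 2 * u y ^ 2 ≤ 4 * c ^ 2 * q := by
        calc (pd i a y - pd i b y) ^ 2 * u y ^ 2 ≤ (2 * (c / nrm y)) ^ 2 * u y ^ 2 :=
              mul_le_mul_of_nonneg_right g4 (sq_nonneg _)
          _ = 4 * c ^ 2 * q := by rw [hq]; field_simp; ring
      have g6 : (a y - b y) ^ 2 * pd i u y ^ 2 ≤ pd i u y ^ 2 := by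
        nlinarith [sq_nonneg (pd i u y)]
      nlinarith [sq_nonneg ((pd i a y - pd i b y) * u y - (a y - b y) * pd i u y)]
    have h3 := Finset.sum_le_sum (s := Finset.univ) fun i _ => h2 i
    rw [Finset.sum_add_distrib, ← Finset.mul_sum] at h3
    simp only [Finset.sum_const, Finset.card_univ, Fintype.card_fin, nsmul_eq_mul] at h3
    have h4 : 0 ≤ ∑ i, pd i u y ^ 2 := by positivity
    unfold HH
    rw [← hq]
    push_cast at h3
    rw [← Finset.mul_sum] at h3
    nlinarith [mul_nonneg hq0 zero_le_two, mul_nonneg (sq_nonneg ρ) h4, mul_nonneg (sq_nonneg c) h4]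
  · rw [indicator_of_notMem h, (ha.one y h).1, (hb.one y h).1]
    simp [(ha.one y h).2, (hb.one y h).2]

theorem dH1_bd {ρ c : ℝ} {N : ℕ} {u a b : E 3 → ℝ} (hu : Sm (PB ρ) u)
    (hi : IntegrableOn (HH u) (PB ρ)) (ha : Cut c N a) (hb : Cut c N b) {K : Set (E 3)}
    (hK : MeasurableSet K) (hKB : K ⊆ {y | nrm y < ρ}) :
    dH1 K (fun z => a z * u z) (fun z => b z * u z) ≤
      (ρ ^ 2 + 24 * c ^ 2 + 2) * ∫ y in PB ρ, (DD N).indicator (HH u) y := by
  have hG : IntegrableOn (fun y => (ρ ^ 2 + 24 * c ^ 2 + 2) * (DD N).indicator (HH u) y) (PB ρ) :=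
    Integrable.const_mul (hi.indicator (meas_DD N)) _
  unfold dH1
  rw [setIntegral_congr_set (ae_PB hKB), ← integral_const_mul]
  refine le_trans (integral_mono_of_nonneg (Eventually.of_forall fun y => by positivity)
    (hG.mono_set inter_subset_right) ?_) ?_
  · filter_upwards [ae_restrict_mem (hK.inter (isOpen_PB ρ).measurableSet)] with y hy
    exact point_bd hu ha hb hy.2
  · refine setIntegral_mono_set hG (Eventually.of_forall fun y => ?_)
      (inter_subset_right.eventuallyLE)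
    have : 0 ≤ (DD N).indicator (HH u) y := indicator_nonneg (fun z _ => HH_nonneg u z) y
    positivity

theorem sm_uk {ρ : ℝ} {u : E 3 → ℝ} (hu : Sm (PB ρ) u) (k : ℕ) :
    Sm {y | nrm y < ρ} (fun z => zt k z * u z) := by
  intro y hy
  by_cases h0 : y = 0
  · subst h0
    have h1 : ∀ᶠ z : E 3 in 𝓝 0, ((k : ℝ) + 1) * nrm z < 1 := by
      have hc : Continuous fun z : E 3 => ((k : ℝ) + 1) * nrm z :=
        continuous_const.mul continuous_nrm
      refine (isOpen_lt hc continuous_const).mem_nhds ?_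
      show ((k : ℝ) + 1) * nrm (0 : E 3) < 1
      rw [nrm_zero]
      norm_num
    have h2 : (fun z => zt k z * u z) =ᶠ[𝓝 0] fun _ => (0 : ℝ) := by
      filter_upwards [h1] with z hz
      unfold zt
      rw [stp_zero hz.le, zero_mul]
    exact (contDiffAt_const.congr_of_eventuallyEq h2).contDiffWithinAt
  · have hP : y ∈ PB ρ := ⟨h0, hy⟩
    have h1 : Sm (PB ρ) (fun z => zt k z * u z) := ((sm_zt k).mono fun z hz => hz.1).mul hu
    exact (h1.contDiffAt ((isOpen_PB ρ).mem_nhds hP)).contDiffWithinAt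

theorem int_inv (ρ : ℝ) : IntegrableOn (fun y : E 3 => 1 / nrm y ^ 2) (PB ρ) := by
  have h := integrableOn_ball_of_norm_le_rpow (E := E 3) (μ := volume)
    (f := fun y : E 3 => 1 / nrm y ^ 2) (C := 1) (α := 2) (r := ρ) (by simp) (by simp; norm_num)
    (Eventually.of_forall fun y => by
      by_cases hy : y = 0
      · subst hy
        simp [nrm_zero]
      · have h1 : 0 < ‖y‖ := norm_pos_iff.mpr hy
        rw [Real.norm_eq_abs, abs_of_nonneg (by positivity), one_mul, Real.rpow_neg h1.le,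
          Real.rpow_two, one_div]
        exact inv_anti₀ (by positivity) (pow_le_pow_left₀ h1.le (norm_le_nrm y) 2))
    ((measurable_const.div (continuous_nrm.measurable.pow_const 2)).aestronglyMeasurable)
  refine h.mono_set fun y hy => ?_
  rw [mem_ball_zero_iff]
  exact (norm_le_nrm y).trans_lt hy.2

theorem weak_eq {ρ : ℝ} {u : E 3 → ℝ} (hu : Sm (PB ρ) u)
    (hl : ∀ y, y ≠ 0 → nrm y < ρ → lap flat u y = 0) (hi : IntegrableOn (HH u) (PB ρ))
    {φ : E 3 → ℝ} (hφ : Test {y | nrm y < ρ} φ) :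
    Tendsto (fun k => ∫ x in {y | nrm y < ρ}, gam flat (fun z => zt k z * u z) φ x * vol flat x)
      atTop (𝓝 0) := by
  obtain ⟨c, hc, hcut⟩ := cut_zt
  have hP := isOpen_PB ρ
  obtain ⟨M, hM0, hM1, hM2⟩ : ∃ M : ℝ, 0 ≤ M ∧ (∀ y, |φ y| ≤ M) ∧ ∀ i y, |pd i φ y| ≤ M := by
    obtain ⟨M₁, h1⟩ := hφ.sm.continuous.bounded_above_of_compact_support hφ.cpt
    have h2 : ∀ i, ∃ M₂, ∀ y, ‖pd i φ y‖ ≤ M₂ := fun i =>
      (hφ.pd i).sm.continuous.bounded_above_of_compact_support (hφ.pd i).cpt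
    choose M₂ h2 using h2
    have h3 : ∀ i, 0 ≤ M₂ i := fun i => (norm_nonneg _).trans (h2 i 0)
    have h4 : 0 ≤ M₁ := (norm_nonneg _).trans (h1 0)
    have h5 : 0 ≤ ∑ i, M₂ i := Finset.sum_nonneg fun i _ => h3 i
    refine ⟨M₁ + ∑ i, M₂ i, by linarith, fun y => ?_, fun i y => ?_⟩
    · have := h1 y
      rw [Real.norm_eq_abs] at this
      linarith
    · have := h2 i y
      rw [Real.norm_eq_abs] at this
      have h6 : M₂ i ≤ ∑ i, M₂ i := Finset.single_le_sum (fun i _ => h3 i) (Finset.mem_univ i)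
      linarith
  set R : ℕ → E 3 → ℝ := fun k y => ∑ i, pd i (zt k) y * (u y * pd i φ y - φ y * pd i u y) with hR
  set G : E 3 → ℝ := fun y => (3 * c * M * (1 + ρ)) * (HH u y + 1 / nrm y ^ 2) with hG
  have hGi : IntegrableOn G (PB ρ) := Integrable.const_mul (hi.add (int_inv ρ)) _
  have hφP : Sm (PB ρ) φ := hφ.sm.contDiffOn
  have hzP : ∀ k, Sm (PB ρ) (zt k) := fun k => (sm_zt k).mono fun z hz => hz.1
  have hRc : ∀ k, ContinuousOn (R k) (PB ρ) := fun k =>
    continuousOn_finsetSum _ fun i _ => (sm_pd hP (hzP k) i).continuousOn.mul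
      ((hu.continuousOn.mul (sm_pd hP hφP i).continuousOn).sub
        (hφP.continuousOn.mul (sm_pd hP hu i).continuousOn))
  have hRb : ∀ k, ∀ y ∈ PB ρ, ‖R k y‖ ≤ G y := by
    intro k y hy
    have hn := nrm_pos hy.1
    have hρ : 0 < ρ := hn.trans hy.2
    have hH := HH_nonneg u y
    have hw : 0 ≤ 1 / nrm y ^ 2 := by positivity
    have h1 : ∀ i, |pd i (zt k) y * (u y * pd i φ y - φ y * pd i u y)| ≤
        (c * M * (1 + ρ)) * (HH u y + 1 / nrm y ^ 2) := by
      intro i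
      have g1 := (hcut k k le_rfl).grad y hy.1 i
      have g2 : |u y * pd i φ y - φ y * pd i u y| ≤ |u y| * M + M * |pd i u y| := by
        refine (abs_sub _ _).trans (add_le_add ?_ ?_)
        · rw [abs_mul]
          exact mul_le_mul_of_nonneg_left (hM2 i y) (abs_nonneg _)
        · rw [abs_mul]
          exact mul_le_mul_of_nonneg_right (hM1 y) (abs_nonneg _)
      have g3 : pd i u y ^ 2 ≤ ∑ j, pd j u y ^ 2 :=
        Finset.single_le_sum (f := fun j => pd j u y ^ 2) (fun j _ => sq_nonneg _)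
          (Finset.mem_univ i)
      have g4 : 0 ≤ u y ^ 2 / nrm y ^ 2 := by positivity
      have g5 : 0 ≤ ∑ j, pd j u y ^ 2 := by positivity
      have g6 : |pd i u y| / nrm y ≤ HH u y + 1 / nrm y ^ 2 := by
        have e : |pd i u y| / nrm y = |pd i u y| * (1 / nrm y) := by ring
        have e' : 1 / nrm y ^ 2 = (1 / nrm y) ^ 2 := by ring
        have e'' : |pd i u y| ^ 2 = pd i u y ^ 2 := sq_abs _
        unfold HH
        rw [e, e']
        nlinarith [sq_nonneg (|pd i u y| - 1 / nrm y), sq_nonneg (1 / nrm y)]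
      have g7 : |u y| / nrm y ≤ ρ * (HH u y + 1 / nrm y ^ 2) := by
        have e : |u y| / nrm y = nrm y * ((|u y| / nrm y) * (1 / nrm y)) := by field_simp
        have e' : 1 / nrm y ^ 2 = (1 / nrm y) ^ 2 := by ring
        have e'' : u y ^ 2 / nrm y ^ 2 = (|u y| / nrm y) ^ 2 := by rw [div_pow, sq_abs]
        have g8 : (|u y| / nrm y) * (1 / nrm y) ≤ HH u y + 1 / nrm y ^ 2 := by
          unfold HH
          rw [e', e'']
          nlinarith [sq_nonneg (|u y| / nrm y - 1 / nrm y), sq_nonneg (1 / nrm y),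
            sq_nonneg (|u y| / nrm y)]
        rw [e]
        exact mul_le_mul hy.2.le g8 (by positivity) hρ.le
      rw [abs_mul]
      calc |pd i (zt k) y| * |u y * pd i φ y - φ y * pd i u y|
          ≤ (c / nrm y) * (|u y| * M + M * |pd i u y|) :=
            mul_le_mul g1 g2 (abs_nonneg _) (by positivity)
        _ = c * M * (|pd i u y| / nrm y + |u y| / nrm y) := by ring
        _ ≤ c * M * ((HH u y + 1 / nrm y ^ 2) + ρ * (HH u y + 1 / nrm y ^ 2)) :=
            mul_le_mul_of_nonneg_left (add_le_add g6 g7) (by positivity)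
        _ = _ := by ring
    rw [Real.norm_eq_abs]
    refine (Finset.abs_sum_le_sum_abs _ _).trans ((Finset.sum_le_sum fun i _ => h1 i).trans ?_)
    simp only [Finset.sum_const, Finset.card_univ, Fintype.card_fin, nsmul_eq_mul, hG]
    push_cast
    apply le_of_eq
    ring
  have hRm : ∀ k, AEStronglyMeasurable (R k) (volume.restrict (PB ρ)) := fun k =>
    (hRc k).aestronglyMeasurable hP.measurableSet
  have hRb' : ∀ k, ∀ᵐ y ∂(volume.restrict (PB ρ)), ‖R k y‖ ≤ G y := fun k => by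
    filter_upwards [ae_restrict_mem hP.measurableSet] with y hy using hRb k y hy
  have hlim := tendsto_integral_of_dominated_convergence (μ := volume.restrict (PB ρ))
    (F := R) (f := fun _ => (0 : ℝ)) G hRm hGi hRb' (by
      filter_upwards [ae_restrict_mem hP.measurableSet] with y hy
      refine tendsto_const_nhds.congr' ?_
      filter_upwards [ev_not_DD hy.1] with N hN
      simp [hR, ((hcut N N le_rfl).one y hN).2])
  rw [integral_zero] at hlim
  refine hlim.congr fun k => ?_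
  have hB : ({y : E 3 | nrm y < ρ}) =ᵐ[volume] PB ρ := by
    have := ae_PB (ρ := ρ) (K := {y | nrm y < ρ}) subset_rfl
    have hs : PB ρ ⊆ {y : E 3 | nrm y < ρ} := fun y hy => hy.2
    rwa [inter_eq_self_of_subset_right hs] at this
  rw [setIntegral_congr_set hB]
  have hk0 : (0 : ℝ) < (k : ℝ) + 1 := by positivity
  have hKc : IsCompact (tsupport φ ∩ {y | 1 ≤ ((k : ℝ) + 1) * nrm y}) :=
    hφ.cpt.isCompact.inter_right
      (isClosed_le continuous_const (continuous_const.mul continuous_nrm))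
  have hKP : tsupport φ ∩ {y | 1 ≤ ((k : ℝ) + 1) * nrm y} ⊆ PB ρ := by
    rintro y ⟨h1, h2⟩
    refine ⟨?_, hφ.sub h1⟩
    rintro rfl
    have h3 : (1 : ℝ) ≤ ((k : ℝ) + 1) * nrm (0 : E 3) := h2
    rw [nrm_zero] at h3
    norm_num at h3
  obtain ⟨i1, -, i3⟩ := ibp (isMet_flat hP) ((hzP k).mul hφP) hu hKc hKP (by
    intro x _ hx
    by_cases h1 : x ∈ tsupport φ
    · have h2 : ((k : ℝ) + 1) * nrm x < 1 := not_le.mp fun h => hx ⟨h1, h⟩
      unfold zt
      rw [stp_zero h2.le, zero_mul]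
    · rw [image_eq_zero_of_notMem_tsupport h1, mul_zero])
  have i4 : ∫ x in PB ρ, (zt k x * φ x) * lap flat u x * vol flat x = 0 := by
    rw [setIntegral_congr_fun hP.measurableSet (g := fun _ => (0 : ℝ))]
    · simp
    · intro y hy
      simp [hl y hy.1 hy.2]
  rw [i4, neg_zero] at i3
  have i5 : IntegrableOn (R k) (PB ρ) := Integrable.mono' hGi (hRm k) (hRb' k)
  have i6 := integral_add i5 i1
  rw [i3, add_zero] at i6
  rw [← i6]
  refine setIntegral_congr_fun hP.measurableSet fun y hy => ?_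
  have d1 := sm_da hP (hzP k) hy
  have d2 := sm_da hP hφP hy
  have d3 := sm_da hP hu hy
  simp only [gam_flat, vol_flat, mul_one, hR, pd_mul d1 d2, pd_mul d1 d3]
  rw [← Finset.sum_add_distrib]
  exact Finset.sum_congr rfl fun i _ => by ring

end RemovAux

open RemovAux in
theorem removable {ρ : ℝ} (hρ : 0 < ρ) {u : E 3 → ℝ} (hu : Sm {y | y ≠ 0 ∧ nrm y < ρ} u)
    (hl : ∀ y, y ≠ 0 → nrm y < ρ → lap flat u y = 0)
    (hi : IntegrableOn (fun y => u y ^ 2 / nrm y ^ 2 + ∑ i, pd i u y ^ 2)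
      {y | y ≠ 0 ∧ nrm y < ρ}) :
    ∃ w, Sm {y | nrm y < ρ} w ∧ ∀ y, y ≠ 0 → nrm y < ρ → w y = u y := by
  have _ := hρ
  have hu' : Sm (PB ρ) u := hu
  have hi' : IntegrableOn (HH u) (PB ρ) := hi
  obtain ⟨c, hc, hcut⟩ := cut_zt
  have herr := (tendsto_err hi').const_mul (ρ ^ 2 + 24 * c ^ 2 + 2)
  rw [mul_zero] at herr
  obtain ⟨v, hv, -, ht⟩ := ell_seq (isMet_flat (isOpen_B ρ)) (f := fun _ => 0) contDiffOn_const
    (u := fun k z => zt k z * u z) (sm_uk hu') (by
      intro K hK hKB ε hε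
      obtain ⟨N, hN⟩ := (herr.eventually (gt_mem_nhds hε)).exists
      refine ⟨N, fun k hk l hl' => ?_⟩
      exact (dH1_bd hu' hi' (hcut N k hk) (hcut N l hl') hK.measurableSet hKB).trans hN.le) (by
      intro φ hφ
      have := weak_eq hu' hl hi' hφ
      simpa using this)
  refine ⟨v, hv, fun y hy hy' => ?_⟩
  have hsub : PB ρ ⊆ {y | nrm y < ρ} := fun y hy => hy.2
  refine tendH1_unique (isOpen_PB ρ) (u := fun k z => zt k z * u z)
    (fun k => (sm_uk hu' k).mono hsub) (hv.mono hsub) hu'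
    (fun K hK hKP => ht K hK (hKP.trans hsub)) (fun K hK hKP => ?_) y ⟨hy, hy'⟩
  refine squeeze_zero (fun k => dH1_nonneg _ _ _) (fun k => ?_) herr
  have := dH1_bd hu' hi' (hcut k k le_rfl) (cut_one hc k) hK.measurableSet (hKP.trans hsub)
  simpa only [one_mul] using this

end Pool.Agent.P.MP_56a1cd_gt
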