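import Pool.Agent.P.MP_56a1cd_gt.Refl
import Pool.Agent.P.MP_56a1cd_gt.Remov

namespace Pool.Agent.P.MP_56a1cd_gt

open MeasureTheory Matrix Set Filter Topology
open scoped ContDiff ENNReal

variable {m n : ℕ}

/-! PLAN. Put `u y = v (refl 0 y) / nrm y` on the punctured ball of radius `ρ = 1 / r`. With
`h = v ∘ refl 0`, `lap_pull`, `pull_refl_flat`, `lap_congr` and `lap_conf` give
`Δ h - 2 (y · ∇h) / |y|² = 0`; since `1 / |y|` is harmonic, `lap_mul` shows that `u` is harmonic.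
Integrability: `|∇u|² ≤ 2 |∇h|² / |y|² + 2 h² / |y|⁴`; by `IsChart.integrableOn_iff` for `refl 0` and
`flat` (`vol = |y|⁻⁶`, `gam = |y|⁴ |∇h|²` by `gam_pull`, `gam_conf`, `vol_conf`) both `|∇h|² / |y|²` and
`h² / |y|⁴` are integrable. Let `w` be given by `removable`, `c = w 0`. Then `v x = w (refl 0 x) / |x|`;
on the compact ball of radius `ρ / 2`, `|w y - c| ≤ K |y|` and `|pd i w| ≤ K`; use `pd_comp`, `jac_refl`. -/

namespace KelvinAux

/-- The punctured ball. -/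
def PB (ρ : ℝ) : Set (E 3) := {y | y ≠ 0 ∧ nrm y < ρ}

/-- The fundamental solution. -/
noncomputable def inv1 (y : E 3) : ℝ := (nrm y)⁻¹

theorem opn0 : IsOpen {y : E 3 | y ≠ 0} := isOpen_ne

theorem isOpen_PB (ρ : ℝ) : IsOpen (PB ρ) :=
  opn0.inter (isOpen_lt continuous_nrm continuous_const)

theorem PB_sub (ρ : ℝ) : PB ρ ⊆ {y : E 3 | y ≠ 0} := fun _ hy => hy.1

theorem nrm_refl0 {x : E 3} (hx : x ≠ 0) : nrm (refl 0 x) = (nrm x)⁻¹ := by
  rw [nrm_refl 0 hx]; simp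

theorem maps {r : ℝ} (hr : 0 < r) : MapsTo (refl 0) (PB r⁻¹) (Ext r : Set (E 3)) := by
  intro y hy
  change r < nrm (refl 0 y)
  rw [nrm_refl0 hy.1]
  exact (lt_inv_comm₀ hr (nrm_pos hy.1)).2 hy.2

theorem ne_of_Ext {r : ℝ} (hr : 0 < r) {x : E 3} (hx : x ∈ (Ext r : Set (E 3))) : x ≠ 0 :=
  ne_zero_of_nrm_pos (hr.trans hx)

theorem maps' {r : ℝ} (hr : 0 < r) : MapsTo (refl 0) (Ext r : Set (E 3)) (PB r⁻¹) := by
  intro x hx
  have h0 := ne_of_Ext hr hx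
  refine ⟨refl_ne_zero 0 h0, ?_⟩
  rw [nrm_refl0 h0]
  exact (inv_lt_inv₀ (nrm_pos h0) hr).2 hx

theorem image_eq {r : ℝ} (hr : 0 < r) : refl 0 '' PB r⁻¹ = (Ext r : Set (E 3)) := by
  apply Subset.antisymm (maps hr).image_subset
  intro x hx
  exact ⟨refl 0 x, maps' hr hx, refl_refl 0 (ne_of_Ext hr hx)⟩

theorem da_nrm {y : E 3} (hy : y ≠ 0) : DifferentiableAt ℝ nrm y := sm_da opn0 sm_nrm hy

theorem sm_inv1 : Sm {y : E 3 | y ≠ 0} inv1 :=
  ContDiffOn.inv sm_nrm fun _ hy => (nrm_pos hy).ne'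

theorem pd_inv1 {y : E 3} (hy : y ≠ 0) (i : Fin 3) : pd i inv1 y = -(y i * inv1 y ^ 3) := by
  have h := pd_comp_real (da_nrm hy) (hasDerivAt_inv (nrm_pos hy).ne') i
  have h0 := (nrm_pos hy).ne'
  change pd i (fun z => (fun t : ℝ => t⁻¹) (nrm z)) y = _
  rw [h, pd_nrm hy]
  unfold inv1
  field_simp

theorem sum_sq (y : E 3) : ∑ i, y i ^ 2 = nrm y ^ 2 := by
  rw [nrm_sq]; simp [dotProduct, sq]

theorem lap_inv1 {y : E 3} (hy : y ≠ 0) : lap flat inv1 y = 0 := by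
  rw [lap_flat]
  have hd : DifferentiableAt ℝ inv1 y := sm_da opn0 sm_inv1 hy
  have key : ∀ i : Fin 3, pd i (pd i inv1) y = -inv1 y ^ 3 + 3 * inv1 y ^ 5 * y i ^ 2 := by
    intro i
    rw [pd_congr_on opn0 (fun z hz => pd_inv1 hz i) hy i, pd_neg]
    have h3 : pd i (fun z => inv1 z ^ 3) y = (3 * inv1 y ^ 2) * pd i inv1 y := by
      have := pd_comp_real (β := fun t : ℝ => t ^ 3) hd (hasDerivAt_pow 3 (inv1 y)) i
      simpa using this
    have hd3 : DifferentiableAt ℝ (fun z => inv1 z ^ 3) y := hd.pow 3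
    rw [pd_mul (sm_da isOpen_univ (sm_coord univ i) (mem_univ y)) hd3 i, pd_coord, h3,
      pd_inv1 hy]
    simp only [if_true]
    ring
  simp only [key, Finset.sum_add_distrib, ← Finset.mul_sum, sum_sq]
  have h0 := (nrm_pos hy).ne'
  unfold inv1
  simp only [Finset.sum_const, Finset.card_univ, Fintype.card_fin, nsmul_eq_mul]
  field_simp
  ring

theorem chart (ρ : ℝ) : IsChart (refl 0 : E 3 → E 3) (PB ρ) :=
  (isChart_refl 0).mono (isOpen_PB ρ) (PB_sub ρ)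

/-- The conformal factor of the inversion. -/
noncomputable def cf (y : E 3) : ℝ := -2 * Real.log (nrm y)

theorem sm_cf : Sm {y : E 3 | y ≠ 0} cf := contDiffOn_const.mul sm_log_nrm

theorem pd_cf {y : E 3} (hy : y ≠ 0) (i : Fin 3) : pd i cf y = -2 * (y i / nrm y ^ 2) := by
  unfold cf
  rw [pd_const_mul, pd_log_nrm hy]

theorem pull_ev {y : E 3} (hy : y ≠ 0) : pull (refl 0) (flat : Met 3) =ᶠ[𝓝 y] conf cf := by
  filter_upwards [opn0.mem_nhds hy] with z hz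
  exact pull_refl_flat hz

theorem exp_cf {y : E 3} (hy : y ≠ 0) (k : ℕ) : Real.exp (-(k : ℝ) * cf y) = nrm y ^ (2 * k) := by
  unfold cf
  have : -(k : ℝ) * (-2 * Real.log (nrm y)) = ((2 * k : ℕ) : ℝ) * Real.log (nrm y) := by
    push_cast; ring
  rw [this, Real.exp_nat_mul, Real.exp_log (nrm_pos hy)]

section
variable {r : ℝ} {v : E 3 → ℝ}

theorem sm_h (hr : 0 < r) (hv : Sm (Ext r) v) : Sm (PB r⁻¹) (fun y => v (refl 0 y)) :=
  (chart _).sm_comp (maps hr) hv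

theorem sm_u (hr : 0 < r) (hv : Sm (Ext r) v) :
    Sm (PB r⁻¹) (fun y => v (refl 0 y) * inv1 y) :=
  (sm_h hr hv).mul (sm_inv1.mono (PB_sub _))

theorem lap_u (hr : 0 < r) (hv : Sm (Ext r) v)
    (hl : ∀ x ∈ (Ext r : Set (E 3)), lap flat v x = 0) {y : E 3} (hy : y ∈ PB r⁻¹) :
    lap flat (fun y => v (refl 0 y) * inv1 y) y = 0 := by
  have h1 := lap_pull (isMet_flat (isOpen_Ext r)) (chart r⁻¹) (maps hr) hv hy
  rw [hl _ (maps hr hy), lap_congr (pull_ev hy.1) EventuallyEq.rfl,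
    lap_conf opn0 sm_cf hy.1] at h1
  have h2 := (mul_eq_zero.1 h1).resolve_left (Real.exp_pos _).ne'
  rw [lap_mul (isMet_flat (isOpen_PB _)) (sm_h hr hv) (sm_inv1.mono (PB_sub _)) hy, lap_inv1 hy.1,
    gam_flat, lap_flat]
  simp only [pd_cf hy.1, pd_inv1 hy.1, Fin.sum_univ_three] at h2 ⊢
  have h0 := (nrm_pos hy.1).ne'
  have h3 : inv1 y = (nrm y)⁻¹ := rfl
  rw [h3]
  norm_num at h2
  generalize pd 0 (pd 0 fun y => v (refl 0 y)) y = a0 at *
  generalize pd 1 (pd 1 fun y => v (refl 0 y)) y = a1 at *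
  generalize pd 2 (pd 2 fun y => v (refl 0 y)) y = a2 at *
  generalize pd 0 (fun y => v (refl 0 y)) y = b0 at *
  generalize pd 1 (fun y => v (refl 0 y)) y = b1 at *
  generalize pd 2 (fun y => v (refl 0 y)) y = b2 at *
  have h4 : a0 + a1 + a2 = 2 * (y 0 * b0 + y 1 * b1 + y 2 * b2) / nrm y ^ 2 := by
    field_simp
    field_simp at h2
    linarith
  rw [h4]
  field_simp
  ring

theorem int_u (hr : 0 < r) (hv : Sm (Ext r) v)
    (hi : IntegrableOn (fun x => v x ^ 2 / nrm x ^ 2 + ∑ i, pd i v x ^ 2) (Ext r)) :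
    IntegrableOn (fun y => (v (refl 0 y) * inv1 y) ^ 2 / nrm y ^ 2 +
      ∑ i, pd i (fun y => v (refl 0 y) * inv1 y) y ^ 2) (PB r⁻¹) := by
  have hm := (isOpen_PB r⁻¹).measurableSet
  have h1 := ((chart r⁻¹).integrableOn_iff flat hm Subset.rfl
    (fun x => v x ^ 2 / nrm x ^ 2 + ∑ i, pd i v x ^ 2)).1 (by
      rw [image_eq hr]
      have e : (fun x => (v x ^ 2 / nrm x ^ 2 + ∑ i, pd i v x ^ 2) * vol flat x) =
          fun x => v x ^ 2 / nrm x ^ 2 + ∑ i, pd i v x ^ 2 := by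
        funext x
        rw [vol_flat, mul_one]
      rw [e]
      exact hi)
  have hu := sm_u hr hv
  refine Integrable.mono' (h1.const_mul 3) ?_ ?_
  · refine ContinuousOn.aestronglyMeasurable ?_ hm
    refine ContinuousOn.add ?_ (continuousOn_finsetSum _ fun i _ =>
      (sm_pd (isOpen_PB _) hu i).continuousOn.pow 2)
    exact (hu.continuousOn.pow 2).div (continuous_nrm.continuousOn.pow 2)
      fun y hy => pow_ne_zero 2 (nrm_pos hy.1).ne'
  · filter_upwards [ae_restrict_mem hm] with y hy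
    have h0 := nrm_pos hy.1
    have e1 : vol (pull (refl 0) (flat : Met 3)) y = (nrm y ^ 6)⁻¹ := by
      have : vol (pull (refl 0) (flat : Met 3)) y = vol (conf cf) y := by
        unfold vol; rw [(pull_ev hy.1).eq_of_nhds]
      rw [this, vol_conf, ← exp_cf hy.1 3, ← Real.exp_neg]
      congr 1; ring
    have e2 : ∑ i, pd i v (refl 0 y) ^ 2 =
        nrm y ^ 4 * ∑ i, pd i (fun y => v (refl 0 y)) y ^ 2 := by
      have h2 := gam_pull (isMet_flat (isOpen_Ext r)) (chart r⁻¹) (maps hr) hv hv hy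
      rw [gam_congr (pull_ev hy.1).eq_of_nhds EventuallyEq.rfl EventuallyEq.rfl, gam_conf,
        gam_flat] at h2
      have h3 := exp_cf hy.1 2
      simp only [Nat.cast_ofNat] at h3
      rw [h3] at h2
      simp only [sq]
      exact h2.symm
    have hdh : DifferentiableAt ℝ (fun y => v (refl 0 y)) y := sm_da (isOpen_PB _) (sm_h hr hv) hy
    have hdi : DifferentiableAt ℝ inv1 y := sm_da opn0 sm_inv1 hy.1
    rw [Real.norm_of_nonneg (by positivity), e1, e2, nrm_refl0 hy.1]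
    simp only [pd_mul hdh hdi, pd_inv1 hy.1, Fin.sum_univ_three]
    have h3 : inv1 y = (nrm y)⁻¹ := rfl
    rw [h3]
    have h5 := sum_sq y
    rw [Fin.sum_univ_three] at h5
    generalize pd 0 (fun y => v (refl 0 y)) y = b0 at *
    generalize pd 1 (fun y => v (refl 0 y)) y = b1 at *
    generalize pd 2 (fun y => v (refl 0 y)) y = b2 at *
    generalize v (refl 0 y) = a at *
    generalize nrm y = t at *
    have k : ∀ b z : ℝ, (b * t⁻¹ + a * -(z * t⁻¹ ^ 3)) ^ 2 ≤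
        2 * (b ^ 2 * t⁻¹ ^ 2) + 2 * (a ^ 2 * t⁻¹ ^ 6) * z ^ 2 := by
      intro b z
      nlinarith [sq_nonneg (b * t⁻¹ + a * (z * t⁻¹ ^ 3))]
    have e3 : 3 * ((a ^ 2 / t⁻¹ ^ 2 + t ^ 4 * (b0 ^ 2 + b1 ^ 2 + b2 ^ 2)) * (t ^ 6)⁻¹) =
        3 * (a ^ 2 * t⁻¹ ^ 4) + 3 * ((b0 ^ 2 + b1 ^ 2 + b2 ^ 2) * t⁻¹ ^ 2) := by
      field_simp
    have e4 : (a * t⁻¹) ^ 2 / t ^ 2 = a ^ 2 * t⁻¹ ^ 4 := by field_simp
    have e5 : 2 * (a ^ 2 * t⁻¹ ^ 6) * (y 0 ^ 2 + y 1 ^ 2 + y 2 ^ 2) = 2 * (a ^ 2 * t⁻¹ ^ 4) := by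
      rw [h5]; field_simp
    rw [e3, e4]
    have p : 0 ≤ (b0 ^ 2 + b1 ^ 2 + b2 ^ 2) * t⁻¹ ^ 2 := by positivity
    nlinarith [k b0 (y 0), k b1 (y 1), k b2 (y 2)]

end

theorem convex_ball (R : ℝ) : Convex ℝ {y : E 3 | nrm y ≤ R} := by
  intro x hx y hy a b ha hb hab
  have h1 := nrm_add_le (a • x) (b • y)
  rw [nrm_smul, nrm_smul, abs_of_nonneg ha, abs_of_nonneg hb] at h1
  have h2 : a * nrm x ≤ a * R := mul_le_mul_of_nonneg_left hx ha
  have h3 : b * nrm y ≤ b * R := mul_le_mul_of_nonneg_left hy hb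
  change nrm (a • x + b • y) ≤ R
  calc nrm (a • x + b • y) ≤ a * R + b * R := by linarith
    _ = R := by rw [← add_mul, hab, one_mul]

theorem bounds {ρ R : ℝ} (hR : 0 ≤ R) (hρ : R < ρ) {w : E 3 → ℝ} (hw : Sm {y | nrm y < ρ} w) :
    ∃ C : ℝ, 0 ≤ C ∧ ∀ y, nrm y ≤ R → |w y - w 0| ≤ C * nrm y ∧ ∀ i, |pd i w y| ≤ C := by
  have ho : IsOpen {y : E 3 | nrm y < ρ} := isOpen_lt continuous_nrm continuous_const
  have hs : {y : E 3 | nrm y ≤ R} ⊆ {y : E 3 | nrm y < ρ} := fun y hy => lt_of_le_of_lt hy hρ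
  have hc : ContinuousOn (fderiv ℝ w) {y : E 3 | nrm y ≤ R} :=
    (hw.continuousOn_fderiv_of_isOpen ho (by simp)).mono hs
  obtain ⟨C, hC⟩ := (isCompact_nrm_le R).exists_bound_of_continuousOn hc
  have h0 : (0 : E 3) ∈ {y : E 3 | nrm y ≤ R} := by
    change nrm (0 : E 3) ≤ R
    rw [nrm_zero]; exact hR
  have hC0 : 0 ≤ C := (norm_nonneg _).trans (hC 0 h0)
  refine ⟨C, hC0, fun y hy => ⟨?_, fun i => ?_⟩⟩
  · have h1 := (convex_ball R).norm_image_sub_le_of_norm_fderiv_le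
      (fun z hz => sm_da ho hw (hs hz)) hC h0 hy
    rw [sub_zero, Real.norm_eq_abs] at h1
    exact h1.trans (mul_le_mul_of_nonneg_left (norm_le_nrm y) hC0)
  · unfold pd
    have h1 := (fderiv ℝ w y).le_opNorm (Pi.single i 1)
    rw [Pi.norm_single, norm_one, mul_one, Real.norm_eq_abs] at h1
    exact h1.trans (hC y hy)

theorem abs_jac {x : E 3} (hx : x ≠ 0) (i j : Fin 3) :
    |jac (refl 0) x i j| ≤ 3 / nrm x ^ 2 := by
  have h0 := nrm_pos hx
  rw [jac_refl 0 hx, abs_mul]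
  have e : Real.exp (2 * 0) / nrm x ^ 2 = 1 / nrm x ^ 2 := by simp
  rw [e, abs_of_pos (by positivity)]
  have h1 : |(if i = j then (1 : ℝ) else 0)| ≤ 1 := by split_ifs <;> simp
  have h2 : |2 * (x i * x j) / nrm x ^ 2| ≤ 2 := by
    rw [abs_div, abs_mul, abs_mul, abs_of_pos (by positivity : (0 : ℝ) < nrm x ^ 2),
      div_le_iff₀ (by positivity), abs_two]
    have := mul_le_mul (abs_le_nrm x i) (abs_le_nrm x j) (abs_nonneg _) h0.le
    nlinarith
  have h3 := (abs_sub _ _).trans (add_le_add h1 h2)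
  calc 1 / nrm x ^ 2 * |(if i = j then (1 : ℝ) else 0) - 2 * (x i * x j) / nrm x ^ 2|
      ≤ 1 / nrm x ^ 2 * (1 + 2) := mul_le_mul_of_nonneg_left h3 (by positivity)
    _ = 3 / nrm x ^ 2 := by ring

end KelvinAux

open KelvinAux in
theorem kelvin {r : ℝ} (hr : 0 < r) {v : E 3 → ℝ} (hv : Sm (Ext r) v)
    (hl : ∀ x ∈ (Ext r : Set (E 3)), lap flat v x = 0)
    (hi : IntegrableOn (fun x => v x ^ 2 / nrm x ^ 2 + ∑ i, pd i v x ^ 2) (Ext r)) :
    ∃ c K r' : ℝ, r < r' ∧ ∀ x, r' ≤ nrm x → |v x - c / nrm x| ≤ K / nrm x ^ 2 ∧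
      ∀ i, |pd i v x + c * x i / nrm x ^ 3| ≤ K / nrm x ^ 3 := by
  obtain ⟨w, hw, ew⟩ := removable (inv_pos.2 hr) (u := fun y => v (refl 0 y) * inv1 y)
    (sm_u hr hv) (fun y h1 h2 => lap_u hr hv hl ⟨h1, h2⟩) (int_u hr hv hi)
  have h2r : r < 2 * r := by linarith
  obtain ⟨C, hC0, hC⟩ := bounds (R := (2 * r)⁻¹) (by positivity)
    ((inv_lt_inv₀ (by positivity) hr).2 h2r) hw
  have ev : ∀ x ∈ (Ext r : Set (E 3)), v x = w (refl 0 x) * inv1 x := by
    intro x hx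
    have h0 := ne_of_Ext hr hx
    have h1 := maps' hr hx
    have h3 := (nrm_pos h0).ne'
    rw [ew _ h1.1 h1.2, refl_refl 0 h0]
    unfold inv1
    rw [nrm_refl0 h0]
    field_simp
  refine ⟨w 0, 10 * C, 2 * r, h2r, fun x hx => ?_⟩
  have hx' : x ∈ (Ext r : Set (E 3)) := lt_of_lt_of_le h2r hx
  have h0 := ne_of_Ext hr hx'
  have hp := nrm_pos h0
  have hy : nrm (refl 0 x) ≤ (2 * r)⁻¹ := by
    rw [nrm_refl0 h0]; exact inv_anti₀ (by positivity) hx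
  obtain ⟨b1, b2⟩ := hC _ hy
  rw [nrm_refl0 h0] at b1
  have h3 : inv1 x = (nrm x)⁻¹ := rfl
  constructor
  · have e : v x - w 0 / nrm x = (w (refl 0 x) - w 0) * (nrm x)⁻¹ := by
      rw [ev x hx', h3]; ring
    rw [e, abs_mul, abs_of_pos (inv_pos.2 hp)]
    calc |w (refl 0 x) - w 0| * (nrm x)⁻¹ ≤ C * (nrm x)⁻¹ * (nrm x)⁻¹ :=
          mul_le_mul_of_nonneg_right b1 (by positivity)
      _ = C / nrm x ^ 2 := by field_simp
      _ ≤ 10 * C / nrm x ^ 2 := by gcongr; linarith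
  · intro i
    have ho : IsOpen {y : E 3 | nrm y < r⁻¹} := isOpen_lt continuous_nrm continuous_const
    have dw : DifferentiableAt ℝ w (refl 0 x) := sm_da ho hw (maps' hr hx').2
    have dr : DifferentiableAt ℝ (refl 0 : E 3 → E 3) x := (isChart_refl 0).da h0
    have di : DifferentiableAt ℝ inv1 x := sm_da opn0 sm_inv1 h0
    have dc : DifferentiableAt ℝ (fun z => w (refl 0 z)) x := dw.comp x dr
    rw [pd_congr_on (isOpen_Ext r) ev hx' i, pd_mul dc di i, pd_comp dw dr i, pd_inv1 h0, h3]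
    have s1 : |∑ j, pd j w (refl 0 x) * jac (refl 0) x j i| ≤ 9 * C / nrm x ^ 2 := by
      refine (Finset.abs_sum_le_sum_abs _ _).trans ?_
      have : ∀ j : Fin 3, |pd j w (refl 0 x) * jac (refl 0) x j i| ≤ C * (3 / nrm x ^ 2) := by
        intro j
        rw [abs_mul]
        exact mul_le_mul (b2 j) (abs_jac h0 j i) (abs_nonneg _) hC0
      refine (Finset.sum_le_sum fun j _ => this j).trans (le_of_eq ?_)
      simp only [Finset.sum_const, Finset.card_univ, Fintype.card_fin, nsmul_eq_mul]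
      push_cast
      ring
    have e : (∑ j, pd j w (refl 0 x) * jac (refl 0) x j i) * (nrm x)⁻¹ +
        w (refl 0 x) * -(x i * (nrm x)⁻¹ ^ 3) + w 0 * x i / nrm x ^ 3 =
        (∑ j, pd j w (refl 0 x) * jac (refl 0) x j i) * (nrm x)⁻¹ -
          (w (refl 0 x) - w 0) * x i * (nrm x)⁻¹ ^ 3 := by
      ring
    rw [e]
    refine (abs_sub _ _).trans ?_
    rw [abs_mul, abs_mul, abs_mul, abs_of_pos (inv_pos.2 hp),
      abs_of_pos (pow_pos (inv_pos.2 hp) 3)]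
    have s2 : |w (refl 0 x) - w 0| * |x i| ≤ C * (nrm x)⁻¹ * nrm x :=
      mul_le_mul b1 (abs_le_nrm x i) (abs_nonneg _) (by positivity)
    calc |∑ j, pd j w (refl 0 x) * jac (refl 0) x j i| * (nrm x)⁻¹ +
          |w (refl 0 x) - w 0| * |x i| * (nrm x)⁻¹ ^ 3
        ≤ 9 * C / nrm x ^ 2 * (nrm x)⁻¹ + C * (nrm x)⁻¹ * nrm x * (nrm x)⁻¹ ^ 3 := by
          gcongr
      _ = 10 * C / nrm x ^ 3 := by field_simp; ring

end Pool.Agent.P.MP_56a1cd_gt
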