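import Pool.Agent.P.MP_56a1cd_gt.Ibp

namespace Pool.Agent.P.MP_56a1cd_gt

open MeasureTheory Matrix Set Filter Topology
open scoped ContDiff ENNReal

variable {m n : ℕ}

/-! PLAN. Integration in the plane. Transport to `ℝ × ℝ` (`volume_preserving_finTwoArrow`,
`MeasurableEquiv.finTwoArrow`) and use `integral_comp_polarCoord_symm`.
`annulus_le`: on `σ ≤ |y| ≤ 2σ`, `pd i (stp (|y| / σ)) = stp' (|y|/σ) * y i / (σ |y|)` and
`pd i ((1/2) log (μ / |y|²)) = (1/2) pd i μ / μ - y i / |y|²`. The second part integrates to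
`2 π ∫ stp' (t / σ) / σ dt = 2 π`, the first part is at most `C / σ` on a set of area at most `16 σ²`. -/

theorem integral_radial (f : ℝ → ℝ) :
    ∫ y : E 2, f (nrm y) = 2 * Real.pi * ∫ t in Ioi (0 : ℝ), t * f t := by
  have h1 := (volume_preserving_finTwoArrow ℝ).symm.integral_comp'
    (f := (MeasurableEquiv.finTwoArrow (α := ℝ)).symm) (fun y : E 2 => f (nrm y))
  rw [← h1, ← integral_comp_polarCoord_symm]
  have h2 : ∫ p in polarCoord.target, p.1 • f (nrm ((MeasurableEquiv.finTwoArrow (α := ℝ)).symm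
      (polarCoord.symm p))) = ∫ p in Ioi (0 : ℝ) ×ˢ Ioo (-Real.pi) Real.pi,
        (p.1 * f p.1) * (fun _ : ℝ => (1 : ℝ)) p.2 := by
    refine setIntegral_congr_fun polarCoord.open_target.measurableSet fun p hp => ?_
    have hp1 : 0 < p.1 := hp.1
    have h3 : nrm ((MeasurableEquiv.finTwoArrow (α := ℝ)).symm (polarCoord.symm p)) = p.1 := by
      have h4 : nrm ((MeasurableEquiv.finTwoArrow (α := ℝ)).symm (polarCoord.symm p)) =
          √(p.1 ^ 2) := by
        unfold nrm
        congr 1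
        simp [dotProduct, Fin.sum_univ_two, MeasurableEquiv.finTwoArrow]
        nlinarith [Real.sin_sq_add_cos_sq p.2]
      rw [h4, Real.sqrt_sq hp1.le]
    show p.1 • f (nrm ((MeasurableEquiv.finTwoArrow (α := ℝ)).symm (polarCoord.symm p))) =
      (p.1 * f p.1) * 1
    rw [h3, smul_eq_mul, mul_one]
  rw [h2, Measure.volume_eq_prod,
    setIntegral_prod_mul (fun t : ℝ => t * f t) (fun _ : ℝ => (1 : ℝ))]
  have h5 : ∫ _ in Ioo (-Real.pi) Real.pi, (1 : ℝ) = 2 * Real.pi := by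
    rw [setIntegral_const, Real.volume_real_Ioo_of_le (by linarith [Real.pi_pos]), smul_eq_mul]
    ring
  rw [h5, mul_comm]

namespace Polar2Aux

theorem round : ∫ y : E 2, (2 / (1 + y ⬝ᵥ y)) ^ 2 = 4 * Real.pi := by
  have h1 := integral_radial fun t => (2 / (1 + t ^ 2)) ^ 2
  simp only [nrm_sq] at h1
  have hd : ∀ t ∈ Ici (0 : ℝ), HasDerivAt (fun t : ℝ => -2 * (1 + t ^ 2)⁻¹)
      (t * (2 / (1 + t ^ 2)) ^ 2) t := by
    intro t _
    have h2 : (1 + t ^ 2 : ℝ) ≠ 0 := by positivity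
    have h3 : HasDerivAt (fun t : ℝ => 1 + t ^ 2) (2 * t) t := by
      simpa using (hasDerivAt_pow 2 t).const_add 1
    refine ((h3.inv h2).const_mul (-2)).congr_deriv ?_
    field_simp
  have ht : Tendsto (fun t : ℝ => -2 * (1 + t ^ 2)⁻¹) atTop (𝓝 (-2 * 0)) := by
    refine Tendsto.const_mul _ (tendsto_inv_atTop_zero.comp ?_)
    exact tendsto_atTop_add_const_left _ _ (tendsto_pow_atTop two_ne_zero)
  have h4 := integral_Ioi_of_hasDerivAt_of_nonneg' hd
    (fun t ht => mul_nonneg (le_of_lt ht) (sq_nonneg _)) ht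
  rw [h1, h4]
  ring

theorem pd_shift (F : E n → ℝ) (c y : E n) (i : Fin n) :
    pd i (fun z => F (z - c)) y = pd i F (y - c) := by
  unfold pd
  rw [fderiv_comp_sub]

theorem radial_stp (c : E 2) {σ : ℝ} (hσ : 0 < σ) :
    ∫ y : E 2, deriv stp (nrm (y - c) / σ) / σ / nrm (y - c) = 2 * Real.pi := by
  rw [integral_sub_right_eq_self (fun y : E 2 => deriv stp (nrm y / σ) / σ / nrm y) c,
    integral_radial fun t => deriv stp (t / σ) / σ / t]
  have hd : ∀ t ∈ Ici (0 : ℝ), HasDerivAt (fun t : ℝ => stp (t / σ))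
      (deriv stp (t / σ) / σ) t := by
    intro t _
    have h1 : HasDerivAt stp (deriv stp (t / σ)) (t / σ) :=
      (stp_sm.differentiable (by simp) _).hasDerivAt
    have h2 : HasDerivAt (fun t : ℝ => t / σ) (1 / σ) t := (hasDerivAt_id t).div_const σ
    refine (HasDerivAt.comp (h₂ := stp) (h := fun t : ℝ => t / σ) _ h1 h2).congr_deriv ?_
    ring
  have ht : Tendsto (fun t : ℝ => stp (t / σ)) atTop (𝓝 1) := by
    refine tendsto_const_nhds.congr' ?_
    filter_upwards [eventually_ge_atTop (2 * σ)] with t ht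
    exact (stp_one ((le_div_iff₀ hσ).2 ht)).symm
  have h4 := integral_Ioi_of_hasDerivAt_of_nonneg' hd
    (fun t _ => div_nonneg (stp_deriv_nonneg _) hσ.le) ht
  have h5 : ∫ t in Ioi (0 : ℝ), t * (deriv stp (t / σ) / σ / t) =
      ∫ t in Ioi (0 : ℝ), deriv stp (t / σ) / σ := by
    refine setIntegral_congr_fun measurableSet_Ioi fun t ht => ?_
    have ht' : t ≠ 0 := ne_of_gt ht
    show t * (deriv stp (t / σ) / σ / t) = deriv stp (t / σ) / σ
    field_simp
  rw [h5, h4, stp_zero (by simp)]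
  ring

end Polar2Aux

open Polar2Aux

theorem integrable_round : Integrable (fun y : E 2 => (2 / (1 + y ⬝ᵥ y)) ^ 2) := by
  refine Integrable.of_integral_ne_zero ?_
  rw [Polar2Aux.round]
  positivity

theorem integral_round : ∫ y : E 2, (2 / (1 + y ⬝ᵥ y)) ^ 2 = 4 * Real.pi := Polar2Aux.round

theorem lap_log_nrm {y : E 2} (c : E 2) (hy : y ≠ c) :
    lap flat (fun z => Real.log (nrm (z - c))) y = 0 := by
  have hx : y - c ≠ 0 := sub_ne_zero.2 hy
  have hn := nrm_pos hx
  have hO : IsOpen {x : E 2 | x ≠ 0} := isOpen_ne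
  have h1 : ∀ i, pd i (pd i fun z => Real.log (nrm (z - c))) y =
      (nrm (y - c) ^ 2)⁻¹ - 2 * (y - c) i ^ 2 / nrm (y - c) ^ 4 := by
    intro i
    have e1 : (pd i fun z => Real.log (nrm (z - c))) =
        fun z => pd i (fun x => Real.log (nrm x)) (z - c) :=
      funext fun z => pd_shift (fun x => Real.log (nrm x)) c z i
    have e2 : pd i (pd i fun x : E 2 => Real.log (nrm x)) (y - c) =
        pd i (fun x : E 2 => x i * (nrm x ^ 2)⁻¹) (y - c) :=
      pd_congr_on hO (fun x hx => by rw [pd_log_nrm hx, div_eq_mul_inv]) hx i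
    have dn : DifferentiableAt ℝ (nrm : E 2 → ℝ) (y - c) := sm_da hO sm_nrm hx
    have d1 : HasDerivAt (fun t : ℝ => (t ^ 2)⁻¹) (-2 / nrm (y - c) ^ 3) (nrm (y - c)) := by
      have h3 : HasDerivAt (fun t : ℝ => t ^ 2) (2 * nrm (y - c)) (nrm (y - c)) := by
        simpa using hasDerivAt_pow 2 (nrm (y - c))
      refine (h3.inv (by positivity)).congr_deriv ?_
      field_simp
    have e3 := pd_comp_real (β := fun t : ℝ => (t ^ 2)⁻¹) dn d1 i
    have dc : DifferentiableAt ℝ (fun x : E 2 => x i) (y - c) := sm_da hO (sm_coord _ i) hx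
    have d2 : DifferentiableAt ℝ (fun x : E 2 => (nrm x ^ 2)⁻¹) (y - c) :=
      d1.differentiableAt.comp _ dn
    rw [e1, pd_shift (pd i fun x => Real.log (nrm x)) c y i, e2, pd_mul dc d2, e3, pd_coord,
      if_pos rfl, pd_nrm hx]
    field_simp
    ring
  have h2 : nrm (y - c) ^ 2 = (y - c) 0 ^ 2 + (y - c) 1 ^ 2 := by
    rw [nrm_sq, dotProduct, Fin.sum_univ_two]
    ring
  rw [lap_flat, Fin.sum_univ_two, h1, h1]
  field_simp
  linarith

theorem annulus_le (c : E 2) {r : ℝ} (hr : 0 < r) {μ : E 2 → ℝ} (hμ : Sm {y | nrm (y - c) < r} μ)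
    (hμ0 : ∀ y, nrm (y - c) < r → 0 < μ y) :
    ∃ C σ₀ : ℝ, 0 < σ₀ ∧ ∀ σ, 0 < σ → σ ≤ σ₀ →
      -∫ y in {y | σ ≤ nrm (y - c) ∧ nrm (y - c) ≤ 2 * σ},
        gam flat (fun z => stp (nrm (z - c) / σ))
          (fun z => 1 / 2 * Real.log (μ z / nrm (z - c) ^ 2)) y ≤ 2 * Real.pi + C * σ := by
  have hcn : Continuous fun y : E 2 => nrm (y - c) :=
    continuous_nrm.comp (continuous_id.sub continuous_const)
  have hU : IsOpen {y : E 2 | nrm (y - c) < r} := isOpen_lt hcn continuous_const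
  have hK : IsCompact {y : E 2 | nrm (y - c) ≤ r / 2} :=
    (Homeomorph.subRight c).isCompact_preimage.2 (isCompact_nrm_le (r / 2))
  have hKU : {y : E 2 | nrm (y - c) ≤ r / 2} ⊆ {y : E 2 | nrm (y - c) < r} := by
    intro y hy
    have hy' : nrm (y - c) ≤ r / 2 := hy
    show nrm (y - c) < r
    linarith
  have hcont : ContinuousOn (fun y => |pd 0 μ y / μ y| + |pd 1 μ y / μ y|)
      {y : E 2 | nrm (y - c) ≤ r / 2} := by
    have h1 : ∀ i, ContinuousOn (fun y => pd i μ y / μ y) {y : E 2 | nrm (y - c) ≤ r / 2} :=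
      fun i => ((sm_pd hU hμ i).continuousOn.div hμ.continuousOn
        fun y hy => (hμ0 y hy).ne').mono hKU
    exact (h1 0).abs.add (h1 1).abs
  obtain ⟨M₀, hM₀⟩ := hK.bddAbove_image hcont
  obtain ⟨M, hM0, hM⟩ : ∃ M : ℝ, 0 ≤ M ∧ ∀ y, nrm (y - c) ≤ r / 2 →
      |pd 0 μ y / μ y| + |pd 1 μ y / μ y| ≤ M :=
    ⟨max M₀ 0, le_max_right _ _, fun y hy => (hM₀ ⟨y, hy, rfl⟩).trans (le_max_left _ _)⟩
  refine ⟨2 * Real.pi * M, r / 4, by positivity, fun σ hσ hσr => ?_⟩
  have hpi := Real.pi_pos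
  by_cases hint : IntegrableOn (gam flat (fun z => stp (nrm (z - c) / σ))
      (fun z => 1 / 2 * Real.log (μ z / nrm (z - c) ^ 2)))
      {y | σ ≤ nrm (y - c) ∧ nrm (y - c) ≤ 2 * σ}
  swap
  · rw [integral_undef hint, neg_zero]
    positivity
  have hA : MeasurableSet {y : E 2 | σ ≤ nrm (y - c) ∧ nrm (y - c) ≤ 2 * σ} :=
    ((isClosed_le continuous_const hcn).inter (isClosed_le hcn continuous_const)).measurableSet
  have hF := radial_stp c hσ
  have iF : Integrable fun y : E 2 => deriv stp (nrm (y - c) / σ) / σ / nrm (y - c) := by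
    refine Integrable.of_integral_ne_zero ?_
    rw [hF]
    positivity
  have hF0 : ∀ y : E 2, 0 ≤ deriv stp (nrm (y - c) / σ) / σ / nrm (y - c) := fun y =>
    div_nonneg (div_nonneg (stp_deriv_nonneg _) hσ.le) (nrm_nonneg _)
  have key : ∀ y ∈ {y : E 2 | σ ≤ nrm (y - c) ∧ nrm (y - c) ≤ 2 * σ},
      -gam flat (fun z => stp (nrm (z - c) / σ))
        (fun z => 1 / 2 * Real.log (μ z / nrm (z - c) ^ 2)) y ≤
      (1 + M * σ) * (deriv stp (nrm (y - c) / σ) / σ / nrm (y - c)) := by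
    intro y hy
    have hn : 0 < nrm (y - c) := hσ.trans_le hy.1
    have hx : y - c ≠ 0 := ne_zero_of_nrm_pos hn
    have hy2 : nrm (y - c) ≤ r / 2 := by linarith [hy.2]
    have hyU : y ∈ {y : E 2 | nrm (y - c) < r} := hKU hy2
    have hO : IsOpen {x : E 2 | x ≠ 0} := isOpen_ne
    have dn : DifferentiableAt ℝ (nrm : E 2 → ℝ) (y - c) := sm_da hO sm_nrm hx
    have p1 : ∀ i, pd i (fun z => stp (nrm (z - c) / σ)) y =
        deriv stp (nrm (y - c) / σ) / σ * ((y - c) i / nrm (y - c)) := by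
      intro i
      have h1 : HasDerivAt stp (deriv stp (nrm (y - c) / σ)) (nrm (y - c) / σ) :=
        (stp_sm.differentiable (by simp) _).hasDerivAt
      have h2 : HasDerivAt (fun t : ℝ => t / σ) (1 / σ) (nrm (y - c)) :=
        (hasDerivAt_id _).div_const σ
      have h3 : HasDerivAt (fun t : ℝ => stp (t / σ)) (deriv stp (nrm (y - c) / σ) / σ)
          (nrm (y - c)) := by
        refine (HasDerivAt.comp (h₂ := stp) (h := fun t : ℝ => t / σ) _ h1 h2).congr_deriv ?_
        ring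
      rw [pd_shift (fun x => stp (nrm x / σ)) c y i,
        pd_comp_real (β := fun t : ℝ => stp (t / σ)) dn h3 i, pd_nrm hx]
    have p2 : ∀ i, pd i (fun z => 1 / 2 * Real.log (μ z / nrm (z - c) ^ 2)) y =
        1 / 2 * (pd i μ y / μ y) - (y - c) i / nrm (y - c) ^ 2 := by
      intro i
      have dμ := sm_da hU hμ hyU
      have e1 : (fun z => 1 / 2 * Real.log (μ z / nrm (z - c) ^ 2)) =ᶠ[𝓝 y]
          fun z => 1 / 2 * Real.log (μ z) - Real.log (nrm (z - c)) := by
        filter_upwards [hU.mem_nhds hyU,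
          (isOpen_lt continuous_const hcn).mem_nhds hn] with z hz1 hz2
        have hz3 : 0 < nrm (z - c) := hz2
        rw [Real.log_div (hμ0 z hz1).ne' (by positivity), Real.log_pow]
        push_cast
        ring
      have d1 : DifferentiableAt ℝ (fun z => Real.log (μ z)) y := dμ.log (hμ0 y hyU).ne'
      have d2 : DifferentiableAt ℝ (fun z => Real.log (nrm (z - c))) y :=
        (DifferentiableAt.comp (g := nrm) (f := fun z : E 2 => z - c) y dn
          (differentiableAt_id.sub_const c)).log hn.ne'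
      rw [pd_congr e1, pd_sub (d1.const_mul _) d2, pd_const_mul,
        pd_comp_real (β := Real.log) dμ (Real.hasDerivAt_log (hμ0 y hyU).ne') i,
        pd_shift (fun x => Real.log (nrm x)) c y i, pd_log_nrm hx]
      ring
    have h2 : nrm (y - c) ^ 2 = (y - c) 0 ^ 2 + (y - c) 1 ^ 2 := by
      rw [nrm_sq, dotProduct, Fin.sum_univ_two]
      ring
    rw [gam_flat, Fin.sum_univ_two, p1, p1, p2, p2]
    have hM' := hM y hy2
    have a0 := abs_le_nrm (y - c) 0
    have a1 := abs_le_nrm (y - c) 1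
    have hs := hF0 y
    generalize pd 0 μ y / μ y = q₀ at hM' ⊢
    generalize pd 1 μ y / μ y = q₁ at hM' ⊢
    have b0 : -((y - c) 0 * q₀) ≤ nrm (y - c) * |q₀| := by
      refine (neg_le_abs _).trans ?_
      rw [abs_mul]
      exact mul_le_mul_of_nonneg_right a0 (abs_nonneg _)
    have b1 : -((y - c) 1 * q₁) ≤ nrm (y - c) * |q₁| := by
      refine (neg_le_abs _).trans ?_
      rw [abs_mul]
      exact mul_le_mul_of_nonneg_right a1 (abs_nonneg _)
    have b2 : nrm (y - c) * (|q₀| + |q₁|) ≤ 2 * σ * M :=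
      mul_le_mul hy.2 hM' (by positivity) (by positivity)
    have e2 : -(deriv stp (nrm (y - c) / σ) / σ * ((y - c) 0 / nrm (y - c)) *
          (1 / 2 * q₀ - (y - c) 0 / nrm (y - c) ^ 2) +
        deriv stp (nrm (y - c) / σ) / σ * ((y - c) 1 / nrm (y - c)) *
          (1 / 2 * q₁ - (y - c) 1 / nrm (y - c) ^ 2)) =
        (((y - c) 0 ^ 2 + (y - c) 1 ^ 2) / nrm (y - c) ^ 2 +
          1 / 2 * (-((y - c) 0 * q₀) + -((y - c) 1 * q₁))) *
          (deriv stp (nrm (y - c) / σ) / σ / nrm (y - c)) := by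
      field_simp
      ring
    rw [e2, ← h2, div_self (by positivity)]
    refine mul_le_mul_of_nonneg_right ?_ hs
    linarith
  rw [← integral_neg]
  have s1 := setIntegral_mono_on hint.neg (iF.const_mul (1 + M * σ)).integrableOn hA key
  have s2 := setIntegral_le_integral (s := {y : E 2 | σ ≤ nrm (y - c) ∧ nrm (y - c) ≤ 2 * σ})
    (iF.const_mul (1 + M * σ))
    (Eventually.of_forall fun y => mul_nonneg (by positivity) (hF0 y))
  have s3 := s1.trans s2
  rw [integral_const_mul, hF] at s3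
  exact s3.trans (le_of_eq (by ring))

end Pool.Agent.P.MP_56a1cd_gt
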