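import Pool.Agent.P.MP_56a1cd_gt.PolarCh
import Pool.Agent.P.MP_56a1cd_gt.Polar2

namespace Pool.Agent.P.MP_56a1cd_gt

open MeasureTheory Matrix Set Filter Topology
open scoped ContDiff ENNReal

variable {m n : ℕ}

/-! Integration on the sphere through the stereographic chart. -/

namespace SphIntAux

variable {φ u : E 3 → ℝ}

theorem cont_comp (hu : ContinuousOn u sph) : Continuous fun y : E 2 => u (stereo y) :=
  hu.comp_continuous contDiff_stereo.continuous stereo_mem_sph

theorem dens_eq (φ : E 3 → ℝ) (y : E 2) : Real.exp (2 * phs φ 1 y) =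
    Real.exp (2 * φ (stereo y)) * (2 / (1 + y ⬝ᵥ y)) ^ 2 := by
  rw [exp_phs, one_smul]

theorem cont_dens (hφ : Hom0 φ) : Continuous fun y : E 2 => Real.exp (2 * phs φ 1 y) :=
  (continuous_const.mul (sm_phs hφ (Or.inl rfl)).continuous).rexp

theorem int_mul (hu : ContinuousOn u sph) {f : E 2 → ℝ} (hf : Integrable f) :
    Integrable fun y : E 2 => u (stereo y) * f y := by
  obtain ⟨C, hC⟩ := isCompact_sph.exists_bound_of_continuousOn hu
  exact hf.bdd_mul (cont_comp hu).aestronglyMeasurable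
    (Eventually.of_forall fun y => hC _ (stereo_mem_sph y))

theorem int_dens (hφ : Hom0 φ) : Integrable fun y : E 2 => Real.exp (2 * phs φ 1 y) :=
  (int_mul (u := fun p => Real.exp (2 * φ p))
    (continuousOn_const.mul hφ.continuousOn).rexp integrable_round).congr
      (Eventually.of_forall fun y => (dens_eq φ y).symm)

theorem aM_eq (φ : E 3 → ℝ) : aM φ = Measure.map stereo
    (volume.withDensity fun y : E 2 => ENNReal.ofReal (Real.exp (2 * phs φ 1 y))) := by
  simp only [dens_eq]
  rfl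

end SphIntAux

section
variable {φ u : E 3 → ℝ}

theorem isFiniteMeasure_aM (hφ : Hom0 φ) : IsFiniteMeasure (aM φ) := by
  rw [SphIntAux.aM_eq]
  have := isFiniteMeasure_withDensity_ofReal (SphIntAux.int_dens hφ).hasFiniteIntegral
  infer_instance

theorem ae_sph (φ : E 3 → ℝ) : ∀ᵐ p ∂aM φ, p ∈ sph :=
  (ae_map_iff contDiff_stereo.continuous.aemeasurable isCompact_sph.measurableSet).2
    (Eventually.of_forall stereo_mem_sph)

theorem integrable_aM (hφ : Hom0 φ) (hu : ContinuousOn u sph) : Integrable u (aM φ) := by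
  have := isFiniteMeasure_aM hφ
  have h : IntegrableOn u sph (aM φ) := hu.integrableOn_compact isCompact_sph
  rwa [IntegrableOn, Measure.restrict_eq_self_of_ae_mem (ae_sph φ)] at h

theorem memLp_aM (hφ : Hom0 φ) (hu : ContinuousOn u sph) : MemLp u 2 (aM φ) :=
  (memLp_two_iff_integrable_sq (integrable_aM hφ hu).aestronglyMeasurable).2
    (integrable_aM hφ (hu.pow 2))

theorem integral_aM (hφ : Hom0 φ) (hu : ContinuousOn u sph) :
    Integrable (fun y : E 2 => u (stereo y) * Real.exp (2 * phs φ 1 y)) ∧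
      ∫ p, u p ∂aM φ = ∫ y : E 2, u (stereo y) * Real.exp (2 * phs φ 1 y) := by
  refine ⟨SphIntAux.int_mul hu (SphIntAux.int_dens hφ), ?_⟩
  have h := (integrable_aM hφ hu).aestronglyMeasurable
  rw [SphIntAux.aM_eq] at h ⊢
  rw [integral_map contDiff_stereo.continuous.aemeasurable h,
    integral_withDensity_eq_integral_toReal_smul (SphIntAux.cont_dens hφ).measurable.ennreal_ofReal
      (Eventually.of_forall fun _ => ENNReal.ofReal_lt_top)]
  refine integral_congr_ae (Eventually.of_forall fun y => ?_)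
  simp only [ENNReal.toReal_ofReal (Real.exp_pos _).le, smul_eq_mul, mul_comm]

theorem integral_aM_pos (hφ : Hom0 φ) (hu : ContinuousOn u sph) (h0 : ∀ p ∈ sph, 0 ≤ u p)
    (h1 : ∃ p ∈ sph, u p ≠ 0) : 0 < ∫ p, u p ∂aM φ := by
  obtain ⟨i1, i2⟩ := integral_aM hφ hu
  obtain ⟨y, hy⟩ : ∃ y, u (stereo y) ≠ 0 := by
    by_contra hn
    obtain ⟨p, hp, hp0⟩ := h1
    have e : EqOn u (fun _ => 0) (range stereo) := by
      rintro _ ⟨y, rfl⟩
      by_contra h
      exact hn ⟨y, h⟩
    exact hp0 (e.of_subset_closure hu continuousOn_const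
      (range_subset_iff.2 stereo_mem_sph) sph_subset_closure hp)
  rw [i2]
  exact integral_pos_of_integrable_nonneg_nonzero (x := y)
    ((SphIntAux.cont_comp hu).mul (SphIntAux.cont_dens hφ)) i1
    (fun z => mul_nonneg (h0 _ (stereo_mem_sph z)) (Real.exp_pos _).le)
    (mul_ne_zero hy (Real.exp_pos _).ne')

theorem Ar_pos (hφ : Hom0 φ) : 0 < Ar φ := by
  have h := integral_aM_pos hφ (u := fun _ => 1) continuousOn_const (fun _ _ => zero_le_one)
    ⟨_, stereo_mem_sph 0, one_ne_zero⟩
  rwa [integral_const, smul_eq_mul, mul_one] at h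

theorem integral_const_aM (φ : E 3 → ℝ) (c : ℝ) : ∫ _p, c ∂aM φ = Ar φ * c := by
  rw [integral_const, smul_eq_mul]
  rfl

theorem integral_exp_aM (hφ : Hom0 φ) : ∫ p, Real.exp (-2 * φ p) ∂aM φ = 4 * Real.pi := by
  rw [(integral_aM hφ (u := fun p => Real.exp (-2 * φ p))
    (continuousOn_const.mul hφ.continuousOn).rexp).2, ← integral_round]
  refine integral_congr_ae (Eventually.of_forall fun y => ?_)
  simp only
  rw [SphIntAux.dens_eq, ← mul_assoc, ← Real.exp_add]
  simp

end

end Pool.Agent.P.MP_56a1cd_gt
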