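import Pool.Agent.P.MP_56a1cd_gt.Curv
import Pool.Agent.P.MP_56a1cd_gt.SphInt

namespace Pool.Agent.P.MP_56a1cd_gt

open MeasureTheory Matrix Set Filter Topology
open scoped ContDiff ENNReal

variable {m n : ℕ}

namespace LamAux

theorem vol_two (u : E 2 → ℝ) (y : E 2) : vol (conf u) y = Real.exp (2 * u y) := by
  rw [vol_conf]; norm_num

theorem gam_vol (u f : E 2 → ℝ) (y : E 2) :
    gam (conf u) f f y * vol (conf u) y = ∑ i, pd i f y ^ 2 := by
  rw [gam_conf, vol_two]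
  have h : Real.exp (-2 * u y) * Real.exp (2 * u y) = 1 := by
    rw [← Real.exp_add]; simp
  calc Real.exp (-2 * u y) * (∑ i, pd i f y * pd i f y) * Real.exp (2 * u y)
      = (Real.exp (-2 * u y) * Real.exp (2 * u y)) * ∑ i, pd i f y * pd i f y := by ring
    _ = ∑ i, pd i f y ^ 2 := by
      rw [h, one_mul]; exact Finset.sum_congr rfl fun i _ => by ring

theorem dot_sq_le (a b : E n) : (a ⬝ᵥ b) ^ 2 ≤ (a ⬝ᵥ a) * (b ⬝ᵥ b) := by
  have h := abs_dot_le a b
  have h2 : |a ⬝ᵥ b| ^ 2 ≤ (nrm a * nrm b) ^ 2 := pow_le_pow_left₀ (abs_nonneg _) h 2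
  rw [sq_abs, mul_pow, nrm_sq, nrm_sq] at h2
  exact h2

theorem pd_sq_le {u : E 3 → ℝ} (hu : ContDiff ℝ ∞ u) (y : E 2) (j : Fin 2) :
    pd j (fun z => u (stereo z)) y ^ 2 ≤
      (∑ i, pd i u (stereo y) * pd i u (stereo y)) * (2 / (1 + y ⬝ᵥ y)) ^ 2 := by
  have hd : DifferentiableAt ℝ u (stereo y) := hu.differentiable (by simp) _
  have hs : DifferentiableAt ℝ stereo y := contDiff_stereo.differentiable (by simp) _
  have e : pd j (fun z => u (stereo z)) y =
      (fun i => pd i u (stereo y)) ⬝ᵥ (jac stereo y *ᵥ Pi.single j 1) := by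
    rw [pd_comp hd hs j, Matrix.mulVec_single_one]
    rfl
  have h := dot_sq_le (fun i => pd i u (stereo y)) (jac stereo y *ᵥ Pi.single j 1)
  rw [jac_stereo_dot_jac] at h
  have e1 : (Pi.single j 1 : E 2) ⬝ᵥ Pi.single j 1 = 1 := by simp
  rw [e1, mul_one] at h
  rw [e]
  exact h

theorem integrable_grad {u : E 3 → ℝ} (hu : ContDiff ℝ ∞ u) :
    Integrable (fun y : E 2 => ∑ j, pd j (fun z => u (stereo z)) y ^ 2) := by
  have hc : Continuous (fun p : E 3 => ∑ i, pd i u p * pd i u p) :=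
    continuous_finsetSum _ fun i _ =>
      (contDiff_pd hu i).continuous.mul (contDiff_pd hu i).continuous
  obtain ⟨C, hC⟩ := isCompact_sph.exists_bound_of_continuousOn hc.continuousOn
  have hus : ContDiff ℝ ∞ (fun z => u (stereo z)) := hu.comp contDiff_stereo
  refine integrable_finsetSum _ fun j _ => ?_
  refine Integrable.mono' (integrable_round.const_mul C)
    ((contDiff_pd hus j).continuous.pow 2).aestronglyMeasurable (Eventually.of_forall fun y => ?_)
  rw [Real.norm_eq_abs, abs_of_nonneg (sq_nonneg _)]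
  refine (pd_sq_le hu y j).trans (mul_le_mul_of_nonneg_right ?_ (sq_nonneg _))
  exact (le_abs_self _).trans (hC _ (stereo_mem_sph y))

theorem ne_zero_of_sph {p : E 3} (hp : p ∈ sph) : p ≠ 0 := by
  rintro rfl
  simp [sph] at hp

end LamAux

theorem area_eq {S : SphereMetric} {φ : E 3 → ℝ} (hφ : Hom0 φ)
    (hγ : ∀ p ∈ sph, ∀ v w : E 3, v ⬝ᵥ p = 0 → w ⬝ᵥ p = 0 →
      v ⬝ᵥ (S.γ p).mulVec w = Real.exp (2 * φ p) * (v ⬝ᵥ w)) : area S = Ar φ := by
  have h := (integral_aM (u := fun _ => 1) hφ continuousOn_const).2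
  rw [integral_const_aM, mul_one] at h
  rw [h, area, pull_stereo hγ]
  refine integral_congr_ae (Eventually.of_forall fun y => ?_)
  simp only [LamAux.vol_two, one_mul]

theorem lambdaOne_pos {S : SphereMetric} {φ : E 3 → ℝ} (hφ : Hom0 φ)
    (hγ : ∀ p ∈ sph, ∀ v w : E 3, v ⬝ᵥ p = 0 → w ⬝ᵥ p = 0 →
      v ⬝ᵥ (S.γ p).mulVec w = Real.exp (2 * φ p) * (v ⬝ᵥ w))
    (hK : ∀ x, x ≠ 0 → 0 < Kf φ x) : 0 < lambdaOne S := by
  obtain ⟨c, hc, hcK⟩ := hφ.Kf.exists_pos hK
  refine lt_of_lt_of_le hc (le_csInf ⟨_, fun _ => 1, contDiff_const,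
    ⟨stereo 0, stereo_mem_sph 0, one_ne_zero⟩, rfl⟩ ?_)
  rintro q ⟨u, hu, ⟨p, hp, hup⟩, rfl⟩
  have hu2 : ContinuousOn (fun x => u x ^ 2) sph := (hu.continuous.pow 2).continuousOn
  have hKu : ContinuousOn (fun x => Kf φ x * u x ^ 2) sph := hφ.Kf.continuousOn.mul hu2
  obtain ⟨i1, e1⟩ := integral_aM hφ hu2
  obtain ⟨i2, -⟩ := integral_aM hφ hKu
  have hden : rayleighDen S u = ∫ y : E 2, u (stereo y) ^ 2 * Real.exp (2 * phs φ 1 y) := by
    rw [rayleighDen, pull_stereo hγ]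
    simp only [LamAux.vol_two]
  have hpos : 0 < rayleighDen S u := by
    rw [hden, ← e1]
    exact integral_aM_pos hφ hu2 (fun x _ => sq_nonneg _) ⟨p, hp, pow_ne_zero 2 hup⟩
  have hnum : rayleighNum S u = ∫ y : E 2, ((∑ j, pd j (fun z => u (stereo z)) y ^ 2) +
      Kf φ (stereo y) * u (stereo y) ^ 2 * Real.exp (2 * phs φ 1 y)) := by
    rw [rayleighNum, pull_stereo hγ]
    refine integral_congr_ae (Eventually.of_forall fun y => ?_)
    have k := Kf_stereo hφ (Or.inl rfl) y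
    rw [one_smul] at k
    simp only []
    rw [add_mul, LamAux.gam_vol, ← k, LamAux.vol_two]
  rw [le_div_iff₀ hpos, hnum, hden, ← integral_const_mul]
  refine integral_mono (i1.const_mul c) ((LamAux.integrable_grad hu).add i2) fun y => ?_
  have h0 : 0 ≤ ∑ j, pd j (fun z => u (stereo z)) y ^ 2 :=
    Finset.sum_nonneg fun j _ => sq_nonneg _
  have h1 : c ≤ Kf φ (stereo y) := hcK _ (LamAux.ne_zero_of_sph (stereo_mem_sph y))
  have h2 : 0 ≤ u (stereo y) ^ 2 * Real.exp (2 * phs φ 1 y) := by positivity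
  have h3 := mul_le_mul_of_nonneg_right h1 h2
  simp only []
  linarith only [h0, h3]

end Pool.Agent.P.MP_56a1cd_gt
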