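import Pool.Agent.P.MP_56a1cd_gt.Riem
import Pool.Agent.P.MP_56a1cd_gt.Slice

namespace Pool.Agent.P.MP_56a1cd_gt

open MeasureTheory Matrix Set Filter Topology
open scoped ContDiff ENNReal

variable {m n : ℕ}

namespace LayerAux

/-- The reparametrisation of the last coordinate. -/
def th (κ : ℝ → ℝ) (z : E 3) : E 3 := lift (κ (z 2)) (pr z)

/-- The diagonal entries of the Jacobian of `th`. -/
noncomputable def wt (κ : ℝ → ℝ) (i : Fin 3) (z : E 3) : ℝ := if i = 2 then deriv κ (z 2) else 1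

theorem th_zero (κ : ℝ → ℝ) (z : E 3) : th κ z 0 = z 0 := rfl

theorem th_one (κ : ℝ → ℝ) (z : E 3) : th κ z 1 = z 1 := rfl

theorem th_two (κ : ℝ → ℝ) (z : E 3) : th κ z 2 = κ (z 2) := rfl

theorem contDiff_th {κ : ℝ → ℝ} (hκ : ContDiff ℝ ∞ κ) : ContDiff ℝ ∞ (th κ) := by
  rw [contDiff_pi]
  intro i
  fin_cases i
  · exact contDiff_apply ℝ ℝ (0 : Fin 3)
  · exact contDiff_apply ℝ ℝ (1 : Fin 3)
  · exact hκ.comp (contDiff_apply ℝ ℝ (2 : Fin 3))

theorem da_coord (i : Fin 3) (z : E 3) : DifferentiableAt ℝ (fun y : E 3 => y i) z :=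
  differentiableAt_apply i z

theorem pd_last {β : ℝ → ℝ} (hβ : Differentiable ℝ β) (z : E 3) (j : Fin 3) :
    pd j (fun y : E 3 => β (y 2)) z = if j = 2 then deriv β (z 2) else 0 := by
  have h := pd_comp_real (f := fun y : E 3 => y 2) (β := β) (x := z) (da_coord 2 z)
    (hβ (z 2)).hasDerivAt j
  rw [h, pd_coord]
  split_ifs <;> simp

theorem jac_th {κ : ℝ → ℝ} (hκ : ContDiff ℝ ∞ κ) (z : E 3) (i j : Fin 3) :
    jac (th κ) z i j = if i = j then wt κ j z else 0 := by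
  have hd : Differentiable ℝ κ := hκ.differentiable (by simp)
  have h0 : jac (th κ) z 0 j = if j = 0 then 1 else 0 := pd_coord j 0 z
  have h1 : jac (th κ) z 1 j = if j = 1 then 1 else 0 := pd_coord j 1 z
  have h2 : jac (th κ) z 2 j = if j = 2 then deriv κ (z 2) else 0 := pd_last hd z j
  fin_cases i
  · refine h0.trans ?_
    fin_cases j <;> simp [wt]
  · refine h1.trans ?_
    fin_cases j <;> simp [wt]
  · refine h2.trans ?_
    fin_cases j <;> simp [wt]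

theorem pd_th {κ : ℝ → ℝ} (hκ : ContDiff ℝ ∞ κ) {f : E 3 → ℝ} {z : E 3}
    (hf : DifferentiableAt ℝ f (th κ z)) (j : Fin 3) :
    pd j (fun y => f (th κ y)) z = wt κ j z * pd j f (th κ z) := by
  rw [pd_comp hf (((contDiff_th hκ).differentiable (by simp)) z) j]
  simp only [jac_th hκ, mul_ite, mul_zero]
  rw [Finset.sum_ite_eq' Finset.univ j]
  simp [mul_comm]

theorem isOpen_pre {W : Set (E 3)} (hW : IsOpen W) {κ : ℝ → ℝ} (hκ : ContDiff ℝ ∞ κ) :
    IsOpen {z | th κ z ∈ W} :=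
  hW.preimage (contDiff_th hκ).continuous

theorem pd_wt {κ : ℝ → ℝ} (hκ : ContDiff ℝ ∞ κ) (a b : Fin 3) (z : E 3) :
    pd a (wt κ b) z = if a = 2 ∧ b = 2 then deriv (deriv κ) (z 2) else 0 := by
  have hd : Differentiable ℝ (deriv κ) :=
    (contDiff_infty_iff_deriv.mp hκ).2.differentiable (by simp)
  by_cases hb : b = 2
  · have e : wt κ b = fun y : E 3 => deriv κ (y 2) := by
      funext y
      simp [wt, hb]
    rw [e, pd_last hd]
    simp [hb]
  · have e : wt κ b = fun _ : E 3 => (1 : ℝ) := by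
      funext y
      simp [wt, hb]
    rw [e, pd_const]
    simp [hb]

theorem da_wt {κ : ℝ → ℝ} (hκ : ContDiff ℝ ∞ κ) (b : Fin 3) (z : E 3) :
    DifferentiableAt ℝ (wt κ b) z := by
  have hd : Differentiable ℝ (deriv κ) :=
    (contDiff_infty_iff_deriv.mp hκ).2.differentiable (by simp)
  by_cases hb : b = 2
  · have e : wt κ b = fun y : E 3 => deriv κ (y 2) := by
      funext y
      simp [wt, hb]
    rw [e]
    exact (hd (z 2)).comp z (da_coord 2 z)
  · have e : wt κ b = fun _ : E 3 => (1 : ℝ) := by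
      funext y
      simp [wt, hb]
    rw [e]
    exact differentiableAt_const _

theorem pd_pd_th {W : Set (E 3)} (hW : IsOpen W) {κ : ℝ → ℝ} (hκ : ContDiff ℝ ∞ κ) {f : E 3 → ℝ}
    (hf : Sm W f) {z : E 3} (hz : th κ z ∈ W) (a b : Fin 3) :
    pd a (pd b (fun y => f (th κ y))) z =
      wt κ a z * wt κ b z * pd a (pd b f) (th κ z) +
        (if a = 2 ∧ b = 2 then deriv (deriv κ) (z 2) else 0) * pd b f (th κ z) := by
  have e : ∀ y ∈ {z | th κ z ∈ W}, pd b (fun y => f (th κ y)) y =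
      (fun y => wt κ b y * pd b f (th κ y)) y :=
    fun y hy => pd_th hκ (sm_da hW hf hy) b
  rw [pd_congr_on (isOpen_pre hW hκ) e hz a]
  have h1 : DifferentiableAt ℝ (pd b f) (th κ z) := sm_da hW (sm_pd hW hf b) hz
  have h2 : DifferentiableAt ℝ (fun y => pd b f (th κ y)) z :=
    h1.comp z (((contDiff_th hκ).differentiable (by simp)) z)
  rw [pd_mul (da_wt hκ b z) h2, pd_th hκ h1, pd_wt hκ]
  ring

theorem abs_wt_le {κ : ℝ → ℝ} {z : E 3} {C₀ : ℝ} (hC : 0 < C₀) (h : |deriv κ (z 2)| ≤ C₀)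
    (i : Fin 3) : |wt κ i z| ≤ 1 + C₀ := by
  unfold wt
  split_ifs
  · linarith
  · rw [abs_one]
    linarith

/-- A finite family of smooth functions is bounded on a compact set. -/
theorem exists_bound {ι : Type} [Finite ι] {W K : Set (E 3)} (hK : IsCompact K) (hKW : K ⊆ W)
    {f : ι → E 3 → ℝ} (hf : ∀ i, Sm W (f i)) : ∃ M : ℝ, 0 ≤ M ∧ ∀ i, ∀ x ∈ K, |f i x| ≤ M := by
  have h : ∀ i, ∃ M : ℝ, ∀ x ∈ K, |f i x| ≤ M := fun i =>
    hK.exists_bound_of_continuousOn ((hf i).continuousOn.mono hKW)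
  choose M hM using h
  obtain ⟨B, hB⟩ := (Set.finite_range M).bddAbove
  refine ⟨max B 0, le_max_right _ _, fun i x hx => ?_⟩
  exact (hM i x hx).trans ((hB ⟨i, rfl⟩).trans (le_max_left _ _))

theorem continuous_lift : Continuous (fun q : E 2 × ℝ => lift q.2 q.1) := by
  refine continuous_pi fun i => ?_
  fin_cases i
  · exact (continuous_apply (0 : Fin 2)).comp continuous_fst
  · exact (continuous_apply (1 : Fin 2)).comp continuous_fst
  · exact continuous_snd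

theorem hasDerivAt_lift (y : E 2) (t : ℝ) :
    HasDerivAt (fun s => lift s y) (Pi.single (2 : Fin 3) (1 : ℝ) : E 3) t := by
  rw [hasDerivAt_pi]
  intro i
  fin_cases i
  · exact hasDerivAt_const t (y 0)
  · exact hasDerivAt_const t (y 1)
  · exact hasDerivAt_id t

theorem hasDerivAt_comp_lift {f : E 3 → ℝ} {y : E 2} {t : ℝ}
    (hf : DifferentiableAt ℝ f (lift t y)) :
    HasDerivAt (fun s => f (lift s y)) (pd 2 f (lift t y)) t :=
  hf.hasFDerivAt.comp_hasDerivAt t (hasDerivAt_lift y t)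

/-- The coefficient of the second derivative of the reparametrisation. -/
noncomputable def coef (h : Met 3) (w : E 3) : ℝ :=
  ∑ c, ∑ e, ((h w)⁻¹ 2 c * (h w)⁻¹ 2 e - (h w)⁻¹ 2 2 * (h w)⁻¹ c e) * pd 2 (fun w => h w c e) w

theorem sm_coef {h : Met 3} {W : Set (E 3)} (hh : IsMet h W) : Sm W (coef h) := by
  unfold coef
  refine ContDiffOn.sum fun c _ => ContDiffOn.sum fun e _ => ?_
  exact (((hh.sm_inv 2 c).mul (hh.sm_inv 2 e)).sub ((hh.sm_inv 2 2).mul (hh.sm_inv c e))).mul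
    (sm_pd hh.opn (hh.sm c e) 2)

theorem sum_split (G : Matrix (Fin 3) (Fin 3) ℝ) (P : Fin 3 → Fin 3 → Fin 3 → Fin 3 → ℝ)
    (D : Fin 3 → Fin 3 → Fin 3 → ℝ) (k : ℝ) :
    (∑ a, ∑ b, ∑ c, ∑ d, (G a c * G b d - G a b * G c d) *
      (P a b c d + (if a = 2 ∧ b = 2 then k else 0) * D b c d)) =
    (∑ a, ∑ b, ∑ c, ∑ d, (G a c * G b d - G a b * G c d) * P a b c d) +
      k * ∑ c, ∑ d, (G 2 c * G 2 d - G 2 2 * G c d) * D 2 c d := by
  simp only [mul_add, Finset.sum_add_distrib]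
  congr 1
  rw [Finset.sum_eq_single (2 : Fin 3), Finset.sum_eq_single (2 : Fin 3)]
  · rw [Finset.mul_sum]
    refine Finset.sum_congr rfl fun c _ => ?_
    rw [Finset.mul_sum]
    refine Finset.sum_congr rfl fun d _ => ?_
    simp only [and_self, if_true]
    ring
  · intro b _ hb
    simp [hb]
  · simp
  · intro a _ ha
    simp [ha]
  · simp

theorem abs_sum_le (G : Matrix (Fin 3) (Fin 3) ℝ) (P : Fin 3 → Fin 3 → Fin 3 → Fin 3 → ℝ)
    {M B : ℝ} (hM : 0 ≤ M) (hG : ∀ i j, |G i j| ≤ M) (hP : ∀ a b c d, |P a b c d| ≤ B) :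
    |∑ a, ∑ b, ∑ c, ∑ d, (G a c * G b d - G a b * G c d) * P a b c d| ≤
      81 * (2 * M ^ 2 * B) := by
  have key : ∀ a b c d, |(G a c * G b d - G a b * G c d) * P a b c d| ≤ 2 * M ^ 2 * B := by
    intro a b c d
    rw [abs_mul]
    have h1 : |G a c * G b d| ≤ M ^ 2 := by
      rw [abs_mul, sq]
      exact mul_le_mul (hG _ _) (hG _ _) (abs_nonneg _) hM
    have h2 : |G a b * G c d| ≤ M ^ 2 := by
      rw [abs_mul, sq]
      exact mul_le_mul (hG _ _) (hG _ _) (abs_nonneg _) hM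
    have h3 : |G a c * G b d - G a b * G c d| ≤ 2 * M ^ 2 :=
      (abs_sub _ _).trans (by linarith)
    exact mul_le_mul h3 (hP a b c d) (abs_nonneg _) (by positivity)
  have step : ∀ (u : Fin 3 → ℝ) (T : ℝ), (∀ i, |u i| ≤ T) → |∑ i, u i| ≤ 3 * T := by
    intro u T hu
    refine (Finset.abs_sum_le_sum_abs _ _).trans ?_
    rw [Fin.sum_univ_three]
    linarith [hu 0, hu 1, hu 2]
  have := step _ _ fun a => step _ _ fun b => step _ _ fun c => step _ _ fun d => key a b c d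
  linarith

end LayerAux

open LayerAux

theorem isMet_resc {h : Met 3} {W : Set (E 3)} (hh : IsMet h W) {κ : ℝ → ℝ} (hκ : ContDiff ℝ ∞ κ) :
    IsMet (resc κ h) {z | lift (κ (z 2)) (pr z) ∈ W} :=
  ⟨isOpen_pre hh.opn hκ,
    fun i j => (hh.sm i j).comp (contDiff_th hκ).contDiffOn fun _ hz => hz,
    fun _ hz => hh.pos _ hz⟩

theorem layer {h : Met 3} {W : Set (E 3)} (hh : IsMet h W) {Q : Set (E 2)} (hQ : IsCompact Q)
    {d : ℝ} (hW : ∀ y ∈ Q, ∀ t ∈ Icc 0 d, lift t y ∈ W)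
    (hA : ∀ y ∈ Q, 0 ≤ ∑ c, ∑ e, ((h (lift 0 y))⁻¹ 2 c * (h (lift 0 y))⁻¹ 2 e -
      (h (lift 0 y))⁻¹ 2 2 * (h (lift 0 y))⁻¹ c e) * pd 2 (fun w => h w c e) (lift 0 y))
    {C₀ : ℝ} (hC : 0 < C₀) :
    ∃ C : ℝ, ∀ κ : ℝ → ℝ, ContDiff ℝ ∞ κ → ∀ z : E 3, pr z ∈ Q → κ (z 2) ∈ Icc 0 d →
      |deriv κ (z 2)| ≤ C₀ → -C₀ ≤ deriv (deriv κ) (z 2) →
      κ (z 2) * deriv (deriv κ) (z 2) ≤ C₀ → -C ≤ scal (resc κ h) z := by
  set K : Set (E 3) := (fun q : E 2 × ℝ => lift q.2 q.1) '' (Q ×ˢ Icc 0 d) with hKdef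
  have hK : IsCompact K := (hQ.prod isCompact_Icc).image continuous_lift
  have hKW : K ⊆ W := by
    rintro _ ⟨q, hq, rfl⟩
    exact hW _ hq.1 _ hq.2
  have hmem : ∀ y ∈ Q, ∀ t ∈ Icc 0 d, lift t y ∈ K := fun y hy t ht => ⟨(y, t), ⟨hy, ht⟩, rfl⟩
  obtain ⟨M, hM0, hM⟩ := exists_bound (ι := Fin 3 × Fin 3) hK hKW
    (f := fun p x => (h x)⁻¹ p.1 p.2) fun p => hh.sm_inv p.1 p.2
  obtain ⟨A, hA0, hA1⟩ := exists_bound (ι := Fin 3 × Fin 3 × Fin 3) hK hKW
    (f := fun p => pd p.1 (fun x => h x p.2.1 p.2.2)) fun p => sm_pd hh.opn (hh.sm _ _) _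
  obtain ⟨B, hB0, hB⟩ := exists_bound (ι := (Fin 3 × Fin 3) × Fin 3 × Fin 3) hK hKW
    (f := fun p => pd p.1.1 (pd p.1.2 (fun x => h x p.2.1 p.2.2)))
    fun p => sm_pd hh.opn (sm_pd hh.opn (hh.sm _ _) _) _
  obtain ⟨S, hS0, hS⟩ := exists_bound (ι := Unit) hK hKW (f := fun _ => coef h)
    fun _ => sm_coef hh
  obtain ⟨L, hL0, hL⟩ := exists_bound (ι := Unit) hK hKW (f := fun _ => pd 2 (coef h))
    fun _ => sm_pd hh.opn (sm_coef hh) 2
  obtain ⟨Cq, _, hCq⟩ := scalQ_bdd 3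
  have hmv : ∀ y ∈ Q, ∀ t ∈ Icc 0 d, -(L * t) ≤ coef h (lift t y) := by
    intro y hy t ht
    have h1 := norm_image_sub_le_of_norm_deriv_le_segment' (f := fun s => coef h (lift s y))
      (f' := fun s => pd 2 (coef h) (lift s y)) (a := 0) (b := d) (C := L)
      (fun s hs => (hasDerivAt_comp_lift (sm_da hh.opn (sm_coef hh) (hW y hy s hs))).hasDerivWithinAt)
      (fun s hs => hL () _ (hmem y hy s (Ico_subset_Icc_self hs))) t ht
    have h2 : 0 ≤ coef h (lift 0 y) := hA y hy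
    rw [Real.norm_eq_abs, sub_zero] at h1
    have h3 := (abs_le.mp h1).1
    linarith
  refine ⟨81 * (2 * M ^ 2 * ((1 + C₀) * (1 + C₀) * B)) + (L * C₀ + C₀ * S) +
    Cq * M ^ 3 * (3 / 2 * ((1 + C₀) * A)) ^ 2, ?_⟩
  intro κ hκ z hz ht h1 h2 h3
  have hzW : th κ z ∈ W := hW _ hz _ ht
  have hzK : th κ z ∈ K := hmem _ hz _ ht
  have hw := abs_wt_le hC h1
  have hC1 : 0 ≤ 1 + C₀ := by linarith
  rw [scal_jet (isMet_resc hh hκ) hzW]
  have e1 : ∀ a b c e, pd a (pd b (fun y => resc κ h y c e)) z =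
      wt κ a z * wt κ b z * pd a (pd b (fun y => h y c e)) (th κ z) +
        (if a = 2 ∧ b = 2 then deriv (deriv κ) (z 2) else 0) *
          pd b (fun y => h y c e) (th κ z) :=
    fun a b c e => pd_pd_th hh.opn hκ (hh.sm c e) hzW a b
  have e2 : ∀ a c e, |pd a (fun y => resc κ h y c e) z| ≤ (1 + C₀) * A := by
    intro a c e
    have e3 : pd a (fun y => resc κ h y c e) z = wt κ a z * pd a (fun y => h y c e) (th κ z) :=
      pd_th hκ (f := fun y => h y c e) (sm_da hh.opn (hh.sm c e) hzW) a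
    rw [e3, abs_mul]
    exact mul_le_mul (hw a) (hA1 (a, c, e) _ hzK) (abs_nonneg _) hC1
  have hG : ∀ i j, |(resc κ h z)⁻¹ i j| ≤ M := fun i j => hM (i, j) _ hzK
  have hc : ∀ i j l, |chr1 (resc κ h) i j l z| ≤ 3 / 2 * ((1 + C₀) * A) := by
    intro i j l
    unfold chr1
    have a1 := abs_le.mp (e2 i j l)
    have a2 := abs_le.mp (e2 j i l)
    have a3 := abs_le.mp (e2 l i j)
    rw [abs_le]
    constructor <;> linarith [a1.1, a1.2, a2.1, a2.2, a3.1, a3.2]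
  have hq := (abs_le.mp (hCq _ (fun i j l => chr1 (resc κ h) i j l z) M _ hM0 hG hc)).1
  simp only [e1]
  rw [sum_split (resc κ h z)⁻¹
    (fun a b c e => wt κ a z * wt κ b z * pd a (pd b (fun y => h y c e)) (th κ z))
    (fun b c e => pd b (fun y => h y c e) (th κ z))]
  have hs := (abs_le.mp (abs_sum_le (resc κ h z)⁻¹
    (fun a b c e => wt κ a z * wt κ b z * pd a (pd b (fun y => h y c e)) (th κ z))
    (B := (1 + C₀) * (1 + C₀) * B) hM0 hG (by
      intro a b c e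
      rw [abs_mul, abs_mul]
      exact mul_le_mul (mul_le_mul (hw a) (hw b) (abs_nonneg _) hC1)
        (hB ((a, b), c, e) _ hzK) (abs_nonneg _) (mul_nonneg hC1 hC1)))).1
  have hk : -(L * C₀ + C₀ * S) ≤ deriv (deriv κ) (z 2) * coef h (th κ z) := by
    have b1 := hmv _ hz _ ht
    have b2 := abs_le.mp (hS () _ hzK)
    have b3 : 0 ≤ L * C₀ := mul_nonneg hL0 hC.le
    have b4 : 0 ≤ C₀ * S := mul_nonneg hC.le hS0
    rcases le_total 0 (deriv (deriv κ) (z 2)) with hp | hp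
    · have b5 := mul_le_mul_of_nonneg_left b1 hp
      have b6 := mul_le_mul_of_nonneg_left h3 hL0
      have b7 : deriv (deriv κ) (z 2) * -(L * κ (z 2)) =
        -(L * (κ (z 2) * deriv (deriv κ) (z 2))) := by ring
      change deriv (deriv κ) (z 2) * -(L * κ (z 2)) ≤
        deriv (deriv κ) (z 2) * coef h (th κ z) at b5
      linarith
    · have b5 := mul_le_mul_of_nonpos_left b2.2 hp
      have b6 := mul_le_mul_of_nonneg_right h2 hS0
      nlinarith
  have e4 : coef h (th κ z) = ∑ c, ∑ e, ((resc κ h z)⁻¹ 2 c * (resc κ h z)⁻¹ 2 e -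
      (resc κ h z)⁻¹ 2 2 * (resc κ h z)⁻¹ c e) * pd 2 (fun y => h y c e) (th κ z) := rfl
  rw [← e4]
  linarith

end Pool.Agent.P.MP_56a1cd_gt
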