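import Pool.Agent.P.MP_56a1cd_gt.GB2
import Pool.Agent.P.MP_56a1cd_gt.Gauss
import Pool.Agent.P.MP_56a1cd_gt.AtB
import Pool.Agent.P.MP_56a1cd_gt.InvB

namespace Pool.Agent.P.MP_56a1cd_gt

open MeasureTheory Matrix Set Filter Topology
open scoped ContDiff ENNReal

variable {m n : ℕ}

/-! PLAN. Build an `Atlas2` on the subtype `Z` with the charts of `exists_level_chart` and the metrics
`slice (pull (e i).symm g) t` (`IsMet.pull`, `IsMet.slice`). Compatibility: the transition
`τ = e j ∘ (e i).symm` preserves the last coordinate, so `τ (lift t y) = lift t (τ' y)` near the point;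
`pull (e i).symm g = pull τ (pull (e j).symm g)` (`pull_comp`, `pull_congr`); the last row of `jac τ` is
the vector 0, 0, 1 and its upper left block is `jac τ'` (`pd_lift`). Then `gb2`, `integral_chart`, `KG_eq`,
`gauss`, `KS_pull`, `lap_pull`, `KS_congr`; sum over the disjoint sets (`integral_iUnion_fintype` or
`integral_finset_biUnion`). -/

namespace LevelGBAux

theorem lift_two (t : ℝ) (y : E 2) : lift t y 2 = t := rfl

theorem lift_pr_of {z : E 3} {t : ℝ} (h : z 2 = t) : lift t (pr z) = z := by
  rw [← h]; exact lift_pr z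

theorem pr_apply (z : E 3) (a : Fin 2) : pr z a = z a.castSucc := by
  fin_cases a <;> rfl

theorem symm_mem {G : E 3 → ℝ} {e : OpenPartialHomeomorph (E 3) (E 3)}
    (he : Adapted G e) {U : Set (E 3)} (hs : e.source ⊆ U) {t : ℝ} {y : E 2}
    (hy : lift t y ∈ e.target) : e.symm (lift t y) ∈ {x | x ∈ U ∧ G x = t} := by
  have h1 : e.symm (lift t y) ∈ e.source := e.map_target hy
  refine ⟨hs h1, ?_⟩
  rw [← he.last _ h1, e.right_inv hy]
  rfl

/-- A map that preserves the last coordinate commutes with taking slices. -/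
theorem slice_pull {τ : E 3 → E 3} (H : Met 3) {t : ℝ} {y : E 2} {τ' : E 2 → E 2}
    (hτ : DifferentiableAt ℝ τ (lift t y))
    (hl : (fun w => τ w 2) =ᶠ[𝓝 (lift t y)] fun w => w 2)
    (hτ' : τ' =ᶠ[𝓝 y] fun w => pr (τ (lift t w))) :
    slice (pull τ H) t y = pull τ' (slice H t) y := by
  have h2 : τ (lift t y) 2 = t := hl.eq_of_nhds
  have h3 : lift t (τ' y) = τ (lift t y) := by
    rw [hτ'.eq_of_nhds]; exact lift_pr_of h2
  have hJ : ∀ a b : Fin 2, jac τ' y a b = jac τ (lift t y) a.castSucc b.castSucc := by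
    intro a b
    rw [jac_congr hτ']
    have hd : DifferentiableAt ℝ (fun z => τ z a.castSucc) (lift t y) :=
      differentiableAt_pi.1 hτ _
    have := pd_lift hd b
    simp only [jac, Matrix.of_apply, pr_apply]
    exact this
  have hL : ∀ b : Fin 2, jac τ (lift t y) 2 b.castSucc = 0 := by
    intro b
    simp only [jac, Matrix.of_apply]
    rw [pd_congr hl, pd_coord, if_neg]
    fin_cases b <;> decide
  ext a b
  simp only [slice, pull, Matrix.of_apply, Matrix.mul_apply, Matrix.transpose_apply, h3, hJ,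
    Fin.sum_univ_two, Fin.sum_univ_three, hL]
  have e0 : (0 : Fin 2).castSucc = (0 : Fin 3) := rfl
  have e1 : (1 : Fin 2).castSucc = (1 : Fin 3) := rfl
  rw [e0, e1]
  ring

/-- The domain of a transition map is open. -/
theorem isOpen_dom (e e' : OpenPartialHomeomorph (E 3) (E 3)) :
    IsOpen (e.target ∩ e.symm ⁻¹' e'.source) :=
  e.continuousOn_symm.isOpen_inter_preimage e.open_target e'.open_source

theorem trans_sm {G : E 3 → ℝ} {e e' : OpenPartialHomeomorph (E 3) (E 3)}
    (he : Adapted G e) (he' : Adapted G e') :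
    ContDiffOn ℝ ∞ (fun w => e' (e.symm w)) (e.target ∩ e.symm ⁻¹' e'.source) :=
  he'.sm.comp (he.chart.sm.mono inter_subset_left) fun _ hw => hw.2

theorem slice_compat {G : E 3 → ℝ} {e e' : OpenPartialHomeomorph (E 3) (E 3)}
    (he : Adapted G e) (he' : Adapted G e') (g : Met 3) {t : ℝ} {y : E 2} {τ' : E 2 → E 2}
    (hy : lift t y ∈ e.target ∩ e.symm ⁻¹' e'.source)
    (hτ' : τ' =ᶠ[𝓝 y] fun w => pr (e' (e.symm (lift t w)))) :
    slice (pull e.symm g) t y = pull τ' (slice (pull e'.symm g) t) y := by
  have hn := (isOpen_dom e e').mem_nhds hy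
  have hτ : DifferentiableAt ℝ (fun w => e' (e.symm w)) (lift t y) :=
    ((trans_sm he he').contDiffAt hn).differentiableAt (by simp)
  have hl : (fun w => e' (e.symm w) 2) =ᶠ[𝓝 (lift t y)] fun w => w 2 := by
    filter_upwards [hn] with w hw
    rw [he'.last _ hw.2, ← he.last _ (e.map_target hw.1), e.right_inv hw.1]
  rw [← slice_pull (τ := fun w => e' (e.symm w)) _ hτ hl hτ']
  have h1 : pull e.symm g (lift t y) =
      pull (fun w => e' (e.symm w)) (pull e'.symm g) (lift t y) := by
    rw [← pull_comp (Φ := e'.symm) (Θ := fun w => e' (e.symm w)) g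
      (he'.chart.da (e'.map_source hy.2)) hτ]
    refine pull_congr ?_ rfl
    filter_upwards [hn] with w hw
    exact (e'.left_inv hw.2).symm
  ext a b
  simp only [slice, Matrix.of_apply, h1]

theorem KS_eq {g : Met 3} {U : Set (E 3)} (hg : IsMet g U) {G : E 3 → ℝ} (hG : Sm U G)
    (h0 : ∀ x ∈ U, lap g G x = 0) {e : OpenPartialHomeomorph (E 3) (E 3)} (he : Adapted G e)
    (hs : e.source ⊆ U) {t : ℝ} {y : E 2} (hy : lift t y ∈ e.target) :
    scal (slice (pull e.symm g) t) y / 2 = KS g G (e.symm (lift t y)) := by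
  have hm : MapsTo e.symm e.target U := fun w hw => hs (e.map_target hw)
  have hev : (fun z => G (e.symm z)) =ᶠ[𝓝 (lift t y)] fun z => z 2 := by
    filter_upwards [e.open_target.mem_nhds hy] with w hw
    rw [← he.last _ (e.map_target hw), e.right_inv hw]
  have h1 : lap (pull e.symm g) (fun z => z 2) (lift t y) = 0 := by
    rw [← lap_congr EventuallyEq.rfl hev, lap_pull hg he.chart hm hG hy]
    exact h0 _ (hm hy)
  rw [← gauss (hg.pull he.chart hm) hy h1, ← KS_congr EventuallyEq.rfl hev,
    KS_pull hg he.chart hm hG hy]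

end LevelGBAux

open LevelGBAux

theorem exists_level_chart {G : E 3 → ℝ} {e : OpenPartialHomeomorph (E 3) (E 3)}
    (he : Adapted G e) {U : Set (E 3)} (hs : e.source ⊆ U) {t : ℝ} {Z : Set (E 3)}
    (hZ : Z = {x | x ∈ U ∧ G x = t}) (hne : Z.Nonempty) :
    ∃ c : OpenPartialHomeomorph Z (E 2), c.source = Subtype.val ⁻¹' e.source ∧
      c.target = lift t ⁻¹' e.target ∧ (∀ x ∈ c.source, c x = pr (e x)) ∧
      ∀ y ∈ c.target, (c.symm y : E 3) = e.symm (lift t y) := by
  classical
  obtain ⟨p, hp⟩ := hne
  have hmem : ∀ y : E 2, lift t y ∈ e.target → e.symm (lift t y) ∈ Z := fun y hy => by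
    rw [hZ]; exact symm_mem he hs hy
  have hlast : ∀ x : Z, (x : E 3) ∈ e.source → lift t (pr (e x)) = e x := fun x hx => by
    refine lift_pr_of ?_
    rw [he.last _ hx]
    have : (x : E 3) ∈ {x | x ∈ U ∧ G x = t} := hZ ▸ x.2
    exact this.2
  let inv : E 2 → Z := fun y => if h : e.symm (lift t y) ∈ Z then ⟨_, h⟩ else ⟨p, hp⟩
  have hinv : ∀ y : E 2, lift t y ∈ e.target → (inv y : E 3) = e.symm (lift t y) := fun y hy => by
    simp only [inv, dif_pos (hmem y hy)]
  let c : OpenPartialHomeomorph Z (E 2) :=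
    { toFun := fun x => pr (e x)
      invFun := inv
      source := Subtype.val ⁻¹' e.source
      target := lift t ⁻¹' e.target
      map_source' := fun x hx => by
        show lift t (pr (e x)) ∈ e.target
        rw [hlast x hx]; exact e.map_source hx
      map_target' := fun y hy => by
        show (inv y : E 3) ∈ e.source
        rw [hinv y hy]; exact e.map_target hy
      left_inv' := fun x hx => by
        apply Subtype.ext
        have h1 : lift t (pr (e x)) ∈ e.target := by
          rw [hlast x hx]; exact e.map_source hx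
        rw [hinv _ h1, hlast x hx]
        exact e.left_inv hx
      right_inv' := fun y hy => by
        show pr (e (inv y)) = y
        rw [hinv y hy, e.right_inv hy, pr_lift]
      open_source := e.open_source.preimage continuous_subtype_val
      open_target := e.open_target.preimage (contDiff_lift t).continuous
      continuousOn_toFun := contDiff_pr.continuous.comp_continuousOn
        (e.continuousOn.comp continuous_subtype_val.continuousOn fun _ hx => hx)
      continuousOn_invFun := by
        rw [IsInducing.subtypeVal.continuousOn_iff]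
        refine (e.continuousOn_symm.comp (contDiff_lift t).continuous.continuousOn
          fun _ hy => hy).congr ?_
        intro y hy
        exact hinv y hy }
  exact ⟨c, rfl, rfl, fun _ _ => rfl, fun y hy => hinv y hy⟩

theorem level_gb {g : Met 3} {U : Set (E 3)} (hg : IsMet g U) {G : E 3 → ℝ} (hG : Sm U G)
    (h0 : ∀ x ∈ U, lap g G x = 0) {k : ℕ} {e : Fin k → OpenPartialHomeomorph (E 3) (E 3)}
    (he : ∀ i, Adapted G (e i)) (hs : ∀ i, (e i).source ⊆ U) {t : ℝ}
    (hc : IsCompact {x | x ∈ U ∧ G x = t}) (hn : IsConnected {x | x ∈ U ∧ G x = t})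
    {B : Fin k → Set (E 3)} (hB : ∀ i, MeasurableSet (B i)) (hBs : ∀ i, B i ⊆ (e i).source)
    (hd : Pairwise fun i j => Disjoint (B i) (B j)) (hcov : {x | x ∈ U ∧ G x = t} ⊆ ⋃ i, B i) :
    ∑ i, ∫ y in {y | lift t y ∈ e i '' B i},
      KS g G ((e i).symm (lift t y)) * vol (slice (pull (e i).symm g) t) y ≤ 4 * Real.pi := by
  set Z : Set (E 3) := {x | x ∈ U ∧ G x = t} with hZ
  choose c hc1 hc2 hc3 hc4 using fun i => exists_level_chart (he i) (hs i) hZ hn.nonempty
  have : CompactSpace Z := isCompact_iff_compactSpace.1 hc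
  have : ConnectedSpace Z := isConnected_iff_connectedSpace.1 hn
  have hdom : ∀ i j, ∀ y ∈ (c i).target ∩ (c i).symm ⁻¹' (c j).source,
      lift t y ∈ (e i).target ∩ (e i).symm ⁻¹' (e j).source := by
    intro i j y hy
    have h1 := hy.1
    have h2 : (c i).symm y ∈ (c j).source := hy.2
    rw [hc1] at h2
    have h3 : ((c i).symm y : E 3) ∈ (e j).source := h2
    rw [hc4 i y h1] at h3
    rw [hc2] at h1
    exact ⟨h1, h3⟩
  have htr : ∀ i j, ∀ y ∈ (c i).target ∩ (c i).symm ⁻¹' (c j).source,
      c j ((c i).symm y) = pr (e j ((e i).symm (lift t y))) := by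
    intro i j y hy
    rw [hc3 j _ hy.2, hc4 i y hy.1]
  let A : Atlas2 Z :=
    { k := k
      e := c
      γ := fun i => slice (pull (e i).symm g) t
      cover := fun x => by
        obtain ⟨i, hi⟩ := mem_iUnion.1 (hcov x.2)
        exact ⟨i, by rw [hc1]; exact hBs i hi⟩
      met := fun i => by
        rw [hc2]
        exact (hg.pull (he i).chart fun w hw => hs i ((e i).map_target hw)).slice t
      trans_sm := fun i j => by
        refine ContDiffOn.congr ?_ (htr i j)
        exact contDiff_pr.comp_contDiffOn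
          ((trans_sm (he i) (he j)).comp (contDiff_lift t).contDiffOn (hdom i j))
      compat := fun i j y hy => by
        refine slice_compat (he i) (he j) g (hdom i j y hy) ?_
        have ho : IsOpen ((c i).target ∩ (c i).symm ⁻¹' (c j).source) :=
          (c i).continuousOn_symm.isOpen_inter_preimage (c i).open_target (c j).open_source
        filter_upwards [ho.mem_nhds hy] with w hw
        exact htr i j w hw }
  have hint : Integrable A.KG A.μ :=
    A.integrable_of_continuous (continuousOn_univ.1 A.smOn_KG.continuousOn)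
  let B' : Fin k → Set Z := fun i => Subtype.val ⁻¹' B i
  have hB' : ∀ i, MeasurableSet (B' i) := fun i => measurable_subtype_coe (hB i)
  have hB's : ∀ i, B' i ⊆ (c i).source := fun i x hx => by
    rw [hc1]; exact hBs i hx
  have hcov' : ⋃ i, B' i = univ := by
    refine eq_univ_of_forall fun x => ?_
    obtain ⟨i, hi⟩ := mem_iUnion.1 (hcov x.2)
    exact mem_iUnion.2 ⟨i, hi⟩
  have hd' : Pairwise (Function.onFun Disjoint B') := fun i j hij => (hd hij).preimage _
  have hsum : ∫ x, A.KG x ∂A.μ = ∑ i, ∫ x in B' i, A.KG x ∂A.μ := by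
    rw [← integral_iUnion_fintype hB' hd' fun i => hint.integrableOn, hcov', Measure.restrict_univ]
  have himg : ∀ i, c i '' B' i = {y | lift t y ∈ e i '' B i} := by
    intro i
    ext y
    constructor
    · rintro ⟨x, hx, rfl⟩
      refine ⟨x, hx, ?_⟩
      rw [hc3 i x (hB's i hx)]
      refine (lift_pr_of ?_).symm
      rw [(he i).last _ (hBs i hx)]
      exact x.2.2
    · rintro ⟨x, hx, hxy⟩
      have hxs := hBs i hx
      have hxZ : x ∈ Z := ⟨hs i hxs, by rw [← (he i).last _ hxs, hxy]; rfl⟩
      refine ⟨⟨x, hxZ⟩, hx, ?_⟩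
      rw [hc3 i _ (hB's i hx)]
      show pr (e i x) = y
      rw [hxy, pr_lift]
  refine le_of_eq_of_le ?_ (gb2 A)
  rw [hsum]
  refine Finset.sum_congr rfl fun i _ => ?_
  rw [(A.integral_chart i (hB' i) (hB's i) A.KG).2, ← himg i]
  refine setIntegral_congr_fun (A.measurableSet_image i (hB' i) (hB's i)) ?_
  rintro y ⟨x, hx, rfl⟩
  have hxs : x ∈ (c i).source := hB's i hx
  have hyt : c i x ∈ (c i).target := (c i).map_source hxs
  have h1 : A.KG ((c i).symm (c i x)) = scal (slice (pull (e i).symm g) t) (c i x) / 2 := by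
    rw [(c i).left_inv hxs]
    exact A.KG_eq i hxs
  rw [hc2] at hyt
  show _ = A.KG ((c i).symm (c i x)) * vol (slice (pull (e i).symm g) t) (c i x)
  rw [h1, KS_eq hg hG h0 (he i) (hs i) hyt]

end Pool.Agent.P.MP_56a1cd_gt
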