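import Pool.Agent.P.MP_56a1cd_gt.ModC
import Pool.Agent.P.MP_56a1cd_gt.Proper
import Pool.Agent.P.MP_56a1cd_gt.Collar

namespace Pool.Agent.P.MP_56a1cd_gt

open MeasureTheory Matrix Set Filter Topology
open scoped ContDiff ENNReal

variable {m n : ℕ}

/-! PLAN. Take `Φ, s₀` from `collar`, `F, r` from `proper`; `g` is a metric on `P = {g positive definite}`
(`isMet_posDef`). `mod_collar` for `pull Φ g` and `ρ ∘ Φ` (`meanCurv_pull`; `gam ≠ 0` by `gam_eq_zero_iff`). `patch` with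
`U = {0 < ρ}`, `Z = Shc 0 D` gives `g₁`. Choose `R₀` so that `F x ∉ Φ '' Sh (-s₀) s₀` for `nrm x ≥ R₀ / 2`; `mod_end`
for `pull F g`; `patch` with `U = {0 < ρ} ∪ Φ '' Sh`, `W = Ext (max r (R/2))`, `Z = {R ≤ nrm}` gives `g₂`. The cap has `a = 0`,
`h = δ`, radius `2R`. `Cmp`: `Cmp.of_conj` on the two chart images, `Cmp.refl` elsewhere. The negative part of `scal g₂`
vanishes on `M` off the compact set `Φ '' Shc 0 D ∪ F '' {R ≤ nrm ≤ 2R}` (`scal_congr` on the open set where `g₂ = g`,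
`scal_pull`, `scal_flat`); `integrableOn_of_cpt`, `IsChart.integral`, `min s 0 ^ 2 ≤ s ^ 2`. -/

namespace ModAux

theorem sph_sub_Shc {D : ℝ} (hD : 0 ≤ D) : sph ⊆ Shc 0 D := by
  intro x hx
  rw [mem_sph_iff] at hx
  refine ⟨by rw [hx, Real.exp_zero], ?_⟩
  rw [hx]
  exact Real.one_le_exp hD

theorem Shc_sub_Sh {a b c d : ℝ} (h1 : c < a) (h2 : b < d) : Shc a b ⊆ Sh c d := by
  intro x hx
  exact ⟨lt_of_lt_of_le (Real.exp_lt_exp.2 h1) hx.1, lt_of_le_of_lt hx.2 (Real.exp_lt_exp.2 h2)⟩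

theorem Sh_sub_Sh {a b c d : ℝ} (h1 : c ≤ a) (h2 : b ≤ d) : Sh a b ⊆ Sh c d := by
  intro x hx
  exact ⟨lt_of_le_of_lt (Real.exp_le_exp.2 h1) hx.1, lt_of_lt_of_le hx.2 (Real.exp_le_exp.2 h2)⟩

theorem Ext_sub {r s : ℝ} (h : r ≤ s) : (Ext s : Set (E 3)) ⊆ Ext r := fun _ hx =>
  lt_of_le_of_lt h hx

theorem cmp_of_pull {μ : ℝ} {Φ : E 3 → E 3} {W : Set (E 3)} (hΦ : IsChart Φ W) {g g' : Met 3}
    {y : E 3} (hy : y ∈ W) (h : Cmp μ (pull Φ g y) (pull Φ g' y)) :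
    Cmp μ (g (Φ y)) (g' (Φ y)) :=
  Cmp.of_conj (hΦ.det y hy) h

theorem scal_eq_of_pull {Φ : E 3 → E 3} {W U : Set (E 3)} {g h : Met 3} (hg : IsMet g U)
    (hΦ : IsChart Φ W) (hm : MapsTo Φ W U) (e : ∀ y ∈ W, pull Φ g y = h y) {y : E 3}
    (hy : y ∈ W) : scal g (Φ y) = scal h y := by
  rw [← scal_pull hg hΦ hm hy]
  apply scal_congr
  filter_upwards [hΦ.opn.mem_nhds hy] with z hz using e z hz

theorem cont_neg {g : Met 3} {U : Set (E 3)} (hg : IsMet g U) :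
    ContinuousOn (fun x => min (scal g x) 0 ^ 2 * vol g x) U :=
  ((hg.sm_scal.continuousOn.inf continuousOn_const).pow 2).mul hg.sm_vol.continuousOn

theorem cont_sq {g : Met 3} {U : Set (E 3)} (hg : IsMet g U) :
    ContinuousOn (fun x => scal g x ^ 2 * vol g x) U :=
  (hg.sm_scal.continuousOn.pow 2).mul hg.sm_vol.continuousOn

theorem min_sq_le (s : ℝ) : min s 0 ^ 2 ≤ s ^ 2 := by
  rcases le_total s 0 with h | h
  · rw [min_eq_left h]
  · rw [min_eq_right h]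
    nlinarith [sq_nonneg s]

theorem isCompact_ann (R : ℝ) : IsCompact {x : E 3 | R ≤ nrm x ∧ nrm x ≤ 2 * R} := by
  have h1 : IsClosed {x : E 3 | R ≤ nrm x} := isClosed_le continuous_const continuous_nrm
  have h2 := (isCompact_nrm_le (n := 3) (2 * R)).inter_left h1
  exact h2

end ModAux

open ModAux in
theorem modify {S : SphereMetric} {φ : E 3 → ℝ} (hφ : Hom0 φ)
    (hγ : ∀ p ∈ sph, ∀ v w : E 3, v ⬝ᵥ p = 0 → w ⬝ᵥ p = 0 →
      v ⬝ᵥ (S.γ p).mulVec w = Real.exp (2 * φ p) * (v ⬝ᵥ w)) (X : AdmExt S) {μ ϖ : ℝ}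
    (hμ : 0 < μ) (hϖ : 0 < ϖ) :
    ∃ C : Cap φ, C.M = {x | 0 ≤ X.ρ x} ∧ (C.N = fun _ => 1) ∧
      (∀ x ∈ C.M, Cmp μ (X.g x) (C.g x)) ∧
      IntegrableOn (fun x => min (scal C.g x) 0 ^ 2 * vol C.g x) C.M ∧
      ∫ x in C.M, min (scal C.g x) 0 ^ 2 * vol C.g x ≤ ϖ ^ 2 := by
  obtain ⟨Φ, s₀, hs₀, hΦ, hΦb, hΦp, hΦs, hΦc⟩ := collar hφ hγ X
  have hρc : Continuous X.ρ := X.exterior.smooth.continuous
  have hP : IsMet X.g {x | (X.g x).PosDef} := isMet_posDef X.metric.smooth X.metric.symm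
  have hU0 : IsOpen {x | 0 < X.ρ x} := isOpen_lt continuous_const hρc
  have hMc : IsClosed {x | 0 ≤ X.ρ x} := isClosed_le continuous_const hρc
  have hgU : IsMet X.g {x | 0 < X.ρ x} :=
    hP.mono hU0 fun x hx => X.metric.pos x (show 0 ≤ X.ρ x from le_of_lt hx)
  have hmP : MapsTo Φ (Sh (-s₀) s₀) {x | (X.g x).PosDef} := fun x hx => (hΦp x hx).1
  have hρP : Sm {x | (X.g x).PosDef} X.ρ := X.exterior.smooth.contDiffOn
  have hsW : sph ⊆ Sh (-s₀) s₀ :=
    (sph_sub_Shc le_rfl).trans (Shc_sub_Sh (by linarith) hs₀)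
  have hz : ∀ x ∈ sph, X.ρ (Φ x) = 0 := fun x hx => by
    have : Φ x ∈ Φ '' sph := ⟨x, hx, rfl⟩
    rw [hΦs] at this
    exact this
  have hϖ2 : 0 < ϖ ^ 2 / 2 := by positivity
  obtain ⟨h', D, δ, hδ, hδD, hDs, hh', e1, e2, c1, i1⟩ :=
    mod_collar (ρ := fun y => X.ρ (Φ y)) (h := pull Φ X.g) hφ hs₀ (hP.pull hΦ hmP)
      (hΦ.sm_comp hmP hρP) (fun x hx => by
        refine ⟨(hΦc x hx).1, hz x hx, (hΦc x hx).2, ?_⟩
        have h0 : gam X.g X.ρ X.ρ (Φ x) ≠ 0 := by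
          intro h
          rw [gam_eq_zero_iff (hmP (hsW hx)), fderiv_eq_zero_iff] at h
          obtain ⟨i, hi⟩ := X.exterior.regular _ (hz x hx)
          exact hi (h i)
        rw [meanCurv_pull hP hΦ hmP hρP (hsW hx) h0]
        exact X.meanCurv_nonpos _ (hz x hx)) hμ hϖ2
  have hD : 0 < D := hδ.trans hδD
  have hZW : Shc 0 D ⊆ Sh (-s₀) s₀ := Shc_sub_Sh (by linarith) hDs
  have hK1 : IsCompact (Φ '' Shc 0 D) :=
    (isCompact_Shc 0 D).image_of_continuousOn (hΦ.sm.continuousOn.mono hZW)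
  obtain ⟨g₁, hg₁, p1, q1⟩ := patch hgU hΦ hh' hZW hK1.isClosed (fun y hy hyZ hyU => by
    have h1 : 1 < nrm y := (hΦp y hy).2.2.1 hyU
    apply e2 y hy
    by_contra hc
    exact hyZ ⟨by rw [Real.exp_zero]; exact h1.le, (not_le.1 hc).le⟩)
  have hne : ∃ x, X.ρ x = 0 := by
    obtain ⟨p, hp⟩ := isConnected_sph.nonempty
    exact ⟨_, hz p hp⟩
  obtain ⟨F, r, hr, hF, hFm, hFd, hcore, hFcl, hprop⟩ :=
    proper X.exterior hne X.metric X.flat
  obtain ⟨Rb, hRb⟩ := isBounded_iff_nrm.1 hΦb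
  obtain ⟨r', hr'⟩ := hprop Rb
  obtain ⟨k', R, hR0, hrR, hk', f1, f2, c2, i2⟩ :=
    mod_end hr (hgU.pull hF hFm) hFd hμ hϖ2 (max r r' + 1)
  have hR : 0 < R := hr.trans hrR
  have hW2 : (Ext (max r r') : Set (E 3)) ⊆ Ext r := Ext_sub (le_max_left _ _)
  have hF2 : IsChart F (Ext (max r r')) := hF.mono (isOpen_Ext _) hW2
  have hout : ∀ y ∈ (Ext (max r r') : Set (E 3)), F y ∉ Φ '' Sh (-s₀) s₀ := fun y hy hc => by
    have h1 := hr' y (hW2 hy) (lt_of_le_of_lt (le_max_right _ _) hy)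
    exact absurd (hRb _ hc) (not_le.2 h1)
  have hZ2 : {x : E 3 | R ≤ nrm x} ⊆ Ext (max r r') := fun x hx => by
    have : R ≤ nrm x := hx
    show max r r' < nrm x
    linarith
  have hg1F : ∀ y ∈ (Ext (max r r') : Set (E 3)), g₁ (F y) = X.g (F y) := fun y hy =>
    q1 _ (hFm (hW2 hy)) fun hc => hout y hy (image_mono hZW hc)
  obtain ⟨g₂, hg₂, p2, q2⟩ := patch hg₁ hF2 (hk'.mono (isOpen_Ext _) hW2) hZ2 (hFcl R hrR)
    (fun y hy hyZ _ => by
      rw [f1 y (hW2 hy) (not_le.1 hyZ).le]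
      exact pull_congr (Filter.EventuallyEq.refl _ _) (hg1F y hy).symm)
  have hg2Φ : ∀ y ∈ Sh (-s₀) s₀, g₂ (Φ y) = g₁ (Φ y) := fun y hy =>
    q2 _ (Or.inr ⟨y, hy, rfl⟩) fun ⟨z, hz1, hz2⟩ => hout z (hZ2 hz1) ⟨y, hy, hz2.symm⟩
  have p1' : ∀ y ∈ Sh (-s₀) s₀, pull Φ g₂ y = h' y := fun y hy => by
    rw [← p1 y hy]
    exact pull_congr (Filter.EventuallyEq.refl _ _) (hg2Φ y hy)
  have hδW : Sh (0 - δ) (0 + δ) ⊆ Sh (-s₀) s₀ := Sh_sub_Sh (by linarith) (by linarith)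
  have hint := (interior_eq X.exterior).1
  have hfr := (interior_eq X.exterior).2
  have h2R : (Ext (2 * R) : Set (E 3)) ⊆ Ext (max r r') := Ext_sub (by linarith)
  have hpos : ∀ x, 0 ≤ X.ρ x → x ∉ Φ '' sph → 0 < X.ρ x := fun x hx hn => by
    rcases hx.lt_or_eq with h | h
    · exact h
    · rw [hΦs] at hn
      exact absurd h.symm hn
  let C : Cap φ :=
    { M := {x | 0 ≤ X.ρ x}
      g := g₂
      Φ := Φ
      F := F
      N := fun _ => 1
      a := 0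
      h := δ
      r := 2 * R
      h_pos := hδ
      r_pos := by linarith
      closed := hMc
      bdd := by
        have : {x | 0 ≤ X.ρ x}ᶜ = {x | X.ρ x < 0} := by
          ext x
          simp
        rw [this]
        exact X.exterior.bounded
      met := by
        rw [hint]
        refine hg₂.mono (hU0.union (hΦ.isOpen_image (isOpen_Sh _ _) hδW)) ?_
        rintro x (hx | hx)
        · exact Or.inl (Or.inl hx)
        · exact Or.inl (Or.inr (image_mono hδW hx))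
      chart := hΦ.mono (isOpen_Sh _ _) hδW
      side := fun x hx => by
        rw [Real.exp_zero]
        exact (hΦp x (hδW hx)).2.1
      front := by
        rw [hfr, ← hΦs]
        apply image_mono
        intro x hx
        rw [Real.exp_zero]
        exact mem_sph_iff.1 hx
      N_hom := ⟨contDiffOn_const, fun _ _ _ => rfl⟩
      N_pos := fun _ _ => one_pos
      cylΦ := fun x hx => by
        rw [p1' x (hδW hx)]
        exact e1 x (Sh_sub_Sh (by linarith) (by linarith) hx)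
      chartF := hF2.mono (isOpen_Ext _) h2R
      mapsF := by
        rw [hint]
        exact fun x hx => hFm (hW2 (h2R hx))
      flatF := fun x hx => by
        rw [p2 x (h2R hx)]
        exact f2 x (le_of_lt hx)
      core := fun s hs => hcore s (by linarith)
      proper := fun R' => by
        obtain ⟨s, hs⟩ := hprop R'
        exact ⟨s, fun x h1 h2 => hs x (by linarith) h2⟩ }
  have hAW : {x : E 3 | R ≤ nrm x ∧ nrm x ≤ 2 * R} ⊆ Ext (max r r') := fun x hx => hZ2 hx.1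
  have hK2 : IsCompact (F '' {x : E 3 | R ≤ nrm x ∧ nrm x ≤ 2 * R}) :=
    (isCompact_ann R).image_of_continuousOn (hF2.sm.continuousOn.mono hAW)
  have hmF : MapsTo F (Ext (max r r'))
      (({x | 0 < X.ρ x} ∪ Φ '' Sh (-s₀) s₀) ∪ F '' Ext (max r r')) :=
    fun y hy => Or.inr ⟨y, hy, rfl⟩
  have hmΦ : MapsTo Φ (Sh (-s₀) s₀)
      (({x | 0 < X.ρ x} ∪ Φ '' Sh (-s₀) s₀) ∪ F '' Ext (max r r')) :=
    fun y hy => Or.inl (Or.inr ⟨y, hy, rfl⟩)
  have hKM : Φ '' Shc 0 D ∪ F '' {x : E 3 | R ≤ nrm x ∧ nrm x ≤ 2 * R} ⊆ {x | 0 ≤ X.ρ x} := by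
    rintro x (⟨y, hy, rfl⟩ | ⟨y, hy, rfl⟩)
    · apply (hΦp y (hZW hy)).2.1.2
      have := hy.1
      rwa [Real.exp_zero] at this
    · have h5 : 0 < X.ρ (F y) := hFm (hW2 (hAW hy))
      exact h5.le
  have hKc : ContinuousOn (fun x => min (scal g₂ x) 0 ^ 2 * vol g₂ x)
      (Φ '' Shc 0 D ∪ F '' {x : E 3 | R ≤ nrm x ∧ nrm x ≤ 2 * R}) := by
    apply (cont_neg hg₂).mono
    rintro x (⟨y, hy, rfl⟩ | ⟨y, hy, rfl⟩)
    · exact hmΦ (hZW hy)
    · exact hmF (hAW hy)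
  have hvan : ∀ x ∈ {x | 0 ≤ X.ρ x},
      x ∉ Φ '' Shc 0 D ∪ F '' {x : E 3 | R ≤ nrm x ∧ nrm x ≤ 2 * R} →
      min (scal g₂ x) 0 ^ 2 * vol g₂ x = 0 := by
    intro x hx hn
    have key : 0 ≤ scal g₂ x := by
      by_cases hc : x ∈ F '' {x : E 3 | R ≤ nrm x}
      · obtain ⟨y, hy, rfl⟩ := hc
        have h2 : 2 * R < nrm y := by
          by_contra h
          exact hn (Or.inr ⟨y, ⟨hy, not_lt.1 h⟩, rfl⟩)
        rw [scal_eq_of_pull hg₂ hF2 hmF p2 (hZ2 hy)]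
        have : k' =ᶠ[𝓝 y] flat := by
          filter_upwards [(isOpen_Ext (n := 3) (2 * R)).mem_nhds h2] with z hz
          exact f2 z (le_of_lt hz)
        rw [scal_congr this, scal_flat]
      · have h1 : x ∉ Φ '' Shc 0 D := fun h => hn (Or.inl h)
        have h0 : 0 < X.ρ x := hpos x hx fun h => h1 (image_mono (sph_sub_Shc hD.le) h)
        have : g₂ =ᶠ[𝓝 x] X.g := by
          filter_upwards [hU0.mem_nhds h0, hK1.isClosed.isOpen_compl.mem_nhds h1,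
            (hFcl R hrR).isOpen_compl.mem_nhds hc] with z a1 a2 a3
          rw [q2 z (Or.inl a1) a3, q1 z a1 a2]
        rw [scal_congr this]
        exact X.scal_nonneg x hx
    rw [min_eq_right key]
    simp
  refine ⟨C, rfl, rfl, ?_, ?_, ?_⟩
  · intro x hx
    show Cmp μ (X.g x) (g₂ x)
    by_cases hc : x ∈ F '' Ext (max r r')
    · obtain ⟨y, hy, rfl⟩ := hc
      apply cmp_of_pull hF2 hy
      rw [p2 y hy]
      exact c2 y (hW2 hy)
    · by_cases hd : x ∈ Φ '' Sh (-s₀) s₀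
      · obtain ⟨y, hy, rfl⟩ := hd
        apply cmp_of_pull hΦ hy
        rw [p1' y hy]
        exact c1 y hy ((hΦp y hy).2.1.1 hx)
      · have h0 : 0 < X.ρ x := hpos x hx fun h => hd (image_mono hsW h)
        rw [q2 x (Or.inl h0) fun h => hc (image_mono hZ2 h),
          q1 x h0 fun h => hd (image_mono hZW h)]
        exact Cmp.refl hμ.le (X.metric.pos x hx)
  · exact integrableOn_of_cpt hMc.measurableSet (hK1.union hK2) hKM hKc hvan
  · show ∫ x in {x | 0 ≤ X.ρ x}, min (scal g₂ x) 0 ^ 2 * vol g₂ x ≤ ϖ ^ 2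
    rw [setIntegral_eq_of_subset_of_forall_sdiff_eq_zero hMc.measurableSet hKM
      fun x hx => hvan x hx.1 hx.2]
    have hdis : Disjoint (Φ '' Shc 0 D) (F '' {x : E 3 | R ≤ nrm x ∧ nrm x ≤ 2 * R}) := by
      rw [Set.disjoint_left]
      rintro x h1 ⟨y, hy, rfl⟩
      exact hout y (hAW hy) (image_mono hZW h1)
    rw [setIntegral_union hdis hK2.measurableSet
      ((hKc.mono subset_union_left).integrableOn_compact hK1)
      ((hKc.mono subset_union_right).integrableOn_compact hK2)]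
    have j1 : ∫ x in Φ '' Shc 0 D, min (scal g₂ x) 0 ^ 2 * vol g₂ x ≤ ϖ ^ 2 / 2 := by
      rw [hΦ.integral g₂ (isCompact_Shc 0 D).measurableSet hZW fun x => min (scal g₂ x) 0 ^ 2]
      refine le_of_eq_of_le ?_ i1
      apply setIntegral_congr_fun (isCompact_Shc 0 D).measurableSet
      intro y hy
      show min (scal g₂ (Φ y)) 0 ^ 2 * vol (pull Φ g₂) y = min (scal h' y) 0 ^ 2 * vol h' y
      rw [scal_eq_of_pull hg₂ hΦ hmΦ p1' (hZW hy)]
      unfold vol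
      rw [p1' y (hZW hy)]
    have j2 : ∫ x in F '' {x : E 3 | R ≤ nrm x ∧ nrm x ≤ 2 * R},
        min (scal g₂ x) 0 ^ 2 * vol g₂ x ≤ ϖ ^ 2 / 2 := by
      rw [hF2.integral g₂ (isCompact_ann R).measurableSet hAW fun x => min (scal g₂ x) 0 ^ 2]
      refine le_trans ?_ i2
      have e3 : ∫ y in {x : E 3 | R ≤ nrm x ∧ nrm x ≤ 2 * R},
          min (scal g₂ (F y)) 0 ^ 2 * vol (pull F g₂) y =
          ∫ y in {x : E 3 | R ≤ nrm x ∧ nrm x ≤ 2 * R}, min (scal k' y) 0 ^ 2 * vol k' y := by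
        apply setIntegral_congr_fun (isCompact_ann R).measurableSet
        intro y hy
        show min (scal g₂ (F y)) 0 ^ 2 * vol (pull F g₂) y = min (scal k' y) 0 ^ 2 * vol k' y
        rw [scal_eq_of_pull hg₂ hF2 hmF p2 (hAW hy)]
        unfold vol
        rw [p2 y (hAW hy)]
      rw [e3]
      apply setIntegral_mono_on
        (((cont_neg hk').mono (hAW.trans hW2)).integrableOn_compact (isCompact_ann R))
        (((cont_sq hk').mono (hAW.trans hW2)).integrableOn_compact (isCompact_ann R))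
        (isCompact_ann R).measurableSet
      intro y _
      exact mul_le_mul_of_nonneg_right (min_sq_le _) (vol_nonneg _ _)
    linarith

end Pool.Agent.P.MP_56a1cd_gt
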