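import Pool.Agent.P.MP_56a1cd_gt.Gap
import Pool.Agent.P.MP_56a1cd_gt.Mod
import Pool.Agent.P.MP_56a1cd_gt.CapLe
import Pool.Agent.P.MP_56a1cd_gt.Lam
import Pool.Agent.P.MP_56a1cd_gt.ExK
import Pool.Agent.P.MP_56a1cd_gt.ExExt

namespace Pool.Agent.P.MP_56a1cd_gt

open MeasureTheory Matrix Set Filter Topology
open scoped ContDiff ENNReal

variable {m n : ℕ}

/-! PLAN. Glue. -/

theorem maxCapacity_lt {S : SphereMetric} {φ : E 3 → ℝ} (hφ : Hom0 φ)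
    (hγ : ∀ p ∈ sph, ∀ v w : E 3, v ⬝ᵥ p = 0 → w ⬝ᵥ p = 0 →
      v ⬝ᵥ (S.γ p).mulVec w = Real.exp (2 * φ p) * (v ⬝ᵥ w))
    (hK : ∀ x, x ≠ 0 → 0 < Kf φ x) (hn : ∃ x y, x ≠ 0 ∧ y ≠ 0 ∧ Kf φ x ≠ Kf φ y) :
    maxCapacity S < ((√(area S / (16 * Real.pi)) : ℝ) : EReal) := by
  obtain ⟨η, ϖ, hη, hϖ, H⟩ := gap hφ hK hn
  have hA := Ar_pos hφ
  have hpi := Real.pi_pos
  set Ts := √(16 * Real.pi / Ar φ) with hTs
  have hTs0 : 0 < Ts := Real.sqrt_pos.2 (by positivity)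
  have e1 : √(area S / (16 * Real.pi)) = 1 / Ts := by
    rw [area_eq hφ hγ, hTs, one_div, ← Real.sqrt_inv, inv_div]
  obtain ⟨μ, hμ, hμ2⟩ : ∃ μ : ℝ, 0 < μ ∧ (1 + μ) ^ 3 / (Ts + η) < 1 / Ts := by
    have c : ContinuousAt (fun μ : ℝ => (1 + μ) ^ 3 / (Ts + η)) 0 := by fun_prop
    have h0 : (fun μ : ℝ => (1 + μ) ^ 3 / (Ts + η)) 0 < 1 / Ts := by
      simp only [add_zero, one_pow]
      exact one_div_lt_one_div_of_lt hTs0 (by linarith)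
    have ev : ∀ᶠ μ in 𝓝[>] (0 : ℝ), (1 + μ) ^ 3 / (Ts + η) < 1 / Ts :=
      (c.eventually (gt_mem_nhds h0)).filter_mono nhdsWithin_le_nhds
    obtain ⟨μ, h1, h2⟩ := (ev.and self_mem_nhdsWithin).exists
    exact ⟨μ, h2, h1⟩
  have key : maxCapacity S ≤ (((1 + μ) ^ 3 / (Ts + η) : ℝ) : EReal) := by
    refine iSup_le fun X => ?_
    obtain ⟨C, hM, hN, hc, hi, hb⟩ := modify hφ hγ X hμ hϖ
    obtain ⟨C', P, hM', hg', hT⟩ := H C hN hi hb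
    have h1 := capacity_le hφ X.exterior X.metric P (hM'.trans hM) hμ.le (fun x hx => by
      rw [hM'] at hx
      rw [hg' x hx]
      exact hc x hx)
    have h2 : (1 + μ) ^ 3 / P.T ≤ (1 + μ) ^ 3 / (Ts + η) :=
      div_le_div_of_nonneg_left (by positivity) (by positivity) hT
    have h3 := h1.trans (ENNReal.ofReal_le_ofReal h2)
    have h4 := EReal.coe_ennreal_le_coe_ennreal_iff.2 h3
    rw [EReal.coe_ennreal_ofReal, max_eq_left (by positivity)] at h4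
    exact h4
  rw [e1]
  exact key.trans_lt (EReal.coe_lt_coe_iff.2 hμ2)

theorem main : ∃ S : SphereMetric, 0 < lambdaOne S ∧ Nonempty (AdmExt S) ∧
    maxCapacity S < ((√(area S / (16 * Real.pi)) : ℝ) : EReal) :=
  ⟨S₀, lambdaOne_pos hom0_φ₀ S₀_eq Kf_φ₀_pos, admExt_exists,
    maxCapacity_lt hom0_φ₀ S₀_eq Kf_φ₀_pos Kf_φ₀_ne⟩

end Pool.Agent.P.MP_56a1cd_gt
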