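import Pool.Agent.P.MP_56a1cd_gt.ModS
import Pool.Agent.P.MP_56a1cd_gt.Kappa
import Pool.Agent.P.MP_56a1cd_gt.Comp

namespace Pool.Agent.P.MP_56a1cd_gt

open MeasureTheory Matrix Set Filter Topology
open scoped ContDiff ENNReal

variable {m n : ℕ}

/-! PLAN. `mod_collar`: `h' = stretch κ h` with `κ` from `exists_kappa` and `D` small. For `log |x| ≤ δ` it is
`cyl φ 1` (`cyl_smul`). The function `y ↦ |y|² h y` is uniformly continuous and uniformly positive on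
`Shc 0 (s₀/2)`, and `|x|² h' x` is its value at `exp (κ s) • π x`; use `cmp_of_close` (then rescale). The integral is at
most `C² * 4 * sup vol * volume (Shc 0 D)` (`Cmp.vol_le`), and `volume (Shc 0 D) → volume (Shc 0 0) = 0`. -/

namespace ModCAux

theorem close {h : Met 3} {U K : Set (E 3)} (hh : IsMet h U) (hK : IsCompact K) (hKU : K ⊆ U)
    {η : ℝ} (hη : 0 < η) : ∃ D : ℝ, 0 < D ∧ ∀ u : ℝ, |u| ≤ D → ∀ y ∈ K, ∀ i j,
      |(Real.exp u ^ 2 • h (Real.exp u • y)) i j - h y i j| ≤ η := by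
  have key : ∀ᶠ u in 𝓝 (0 : ℝ), ∀ y ∈ K, ∀ i j,
      |(Real.exp u ^ 2 • h (Real.exp u • y)) i j - h y i j| ≤ η := by
    apply hK.eventually_forall_of_forall_eventually
    intro y hy
    rw [Filter.eventually_all]
    intro i
    rw [Filter.eventually_all]
    intro j
    have hc : ContinuousAt (fun x => h x i j) y :=
      ((hh.sm i j).continuousOn).continuousAt (hh.opn.mem_nhds (hKU hy))
    have h1 : ContinuousAt (fun z : ℝ × E 3 => Real.exp z.1 • z.2) (0, y) := by fun_prop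
    have h2 : ContinuousAt (fun z : ℝ × E 3 => h (Real.exp z.1 • z.2) i j) (0, y) := by
      apply ContinuousAt.comp (g := fun x => h x i j) _ h1
      simpa using hc
    have h3 : ContinuousAt (fun z : ℝ × E 3 => h z.2 i j) (0, y) :=
      ContinuousAt.comp (g := fun x => h x i j) (f := fun z : ℝ × E 3 => z.2) hc continuousAt_snd
    have h4 : ContinuousAt (fun z : ℝ × E 3 => Real.exp z.1 ^ 2) (0, y) := by fun_prop
    have h5 : ContinuousAt
        (fun z : ℝ × E 3 => |Real.exp z.1 ^ 2 * h (Real.exp z.1 • z.2) i j - h z.2 i j|) (0, y) :=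
      ((h4.mul h2).sub h3).abs
    have h6 : ∀ᶠ z : ℝ × E 3 in 𝓝 (0, y),
        |Real.exp z.1 ^ 2 * h (Real.exp z.1 • z.2) i j - h z.2 i j| < η := by
      apply h5.eventually_lt continuousAt_const
      simpa using hη
    filter_upwards [h6] with z hz
    simpa [Matrix.smul_apply] using hz.le
  obtain ⟨ε, hε, hb⟩ := Metric.eventually_nhds_iff.1 key
  refine ⟨ε / 2, by positivity, fun u hu => hb ?_⟩
  rw [Real.dist_eq, sub_zero]
  linarith

theorem small_vol {ε : ℝ} (hε : 0 < ε) :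
    ∃ D : ℝ, 0 < D ∧ ∀ d, d ≤ D → volume.real (Shc 0 d) ≤ ε := by
  have hmono : ∀ {a b : ℝ}, a ≤ b → Shc 0 a ⊆ Shc 0 b := fun hab x hx =>
    ⟨hx.1, hx.2.trans (Real.exp_le_exp.2 hab)⟩
  have hanti : Antitone fun k : ℕ => Shc 0 (1 / ((k : ℝ) + 1)) := by
    intro a b hab
    apply hmono
    apply one_div_le_one_div_of_le (by positivity)
    have : (a : ℝ) ≤ b := by exact_mod_cast hab
    linarith
  have ht := tendsto_measure_iInter_atTop (μ := (volume : Measure (E 3)))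
    (fun k => (isCompact_Shc _ _).measurableSet.nullMeasurableSet) hanti
    ⟨0, (isCompact_Shc _ _).measure_lt_top.ne⟩
  have h0 : volume (⋂ k : ℕ, Shc 0 (1 / ((k : ℝ) + 1))) = 0 := by
    apply measure_mono_null _ (volume_nrm_eq (n := 2) 1)
    intro x hx
    rw [mem_iInter] at hx
    have h1 : 1 ≤ nrm x := by simpa using (hx 0).1
    have h2 : Tendsto (fun k : ℕ => Real.exp (1 / ((k : ℝ) + 1))) atTop (𝓝 (Real.exp 0)) :=
      (Real.continuous_exp.tendsto 0).comp tendsto_one_div_add_atTop_nhds_zero_nat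
    have h3 : nrm x ≤ Real.exp 0 := ge_of_tendsto' h2 fun k => (hx k).2
    rw [Real.exp_zero] at h3
    exact le_antisymm h3 h1
  rw [h0] at ht
  have h1 : ∀ᶠ k : ℕ in atTop, volume (Shc 0 (1 / ((k : ℝ) + 1))) < ENNReal.ofReal ε :=
    ht.eventually (gt_mem_nhds (ENNReal.ofReal_pos.2 hε))
  obtain ⟨k, hk⟩ := h1.exists
  refine ⟨1 / ((k : ℝ) + 1), by positivity, fun d hd => ?_⟩
  have h2 : volume (Shc 0 d) ≤ ENNReal.ofReal ε := (measure_mono (hmono hd)).trans hk.le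
  exact ENNReal.toReal_le_of_le_ofReal hε.le h2

end ModCAux

section
variable {φ ρ : E 3 → ℝ} {h : Met 3} {s₀ : ℝ}

theorem mod_collar (hφ : Hom0 φ) (hs : 0 < s₀) (hh : IsMet h (Sh (-s₀) s₀))
    (hρ : Sm (Sh (-s₀) s₀) ρ)
    (h0 : ∀ x ∈ sph, h x = cyl φ (fun _ => 1) x ∧ ρ x = 0 ∧ 0 < rad ρ x ∧ meanCurv h ρ x ≤ 0)
    {μ ϖ : ℝ} (hμ : 0 < μ) (hϖ : 0 < ϖ) :
    ∃ (h' : Met 3) (D δ : ℝ), 0 < δ ∧ δ < D ∧ D < s₀ ∧ IsMet h' (Sh (-s₀) s₀) ∧
      (∀ x ∈ Sh (-s₀) δ, h' x = cyl φ (fun _ => 1) x) ∧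
      (∀ x ∈ Sh (-s₀) s₀, Real.exp D ≤ nrm x → h' x = h x) ∧
      (∀ x ∈ Sh (-s₀) s₀, 1 ≤ nrm x → Cmp μ (h x) (h' x)) ∧
      ∫ x in Shc 0 D, min (scal h' x) 0 ^ 2 * vol h' x ≤ ϖ := by
  obtain ⟨C₀, hC₀, hκ⟩ := exists_kappa
  obtain ⟨C, hC⟩ := stretch_scal hφ hs hh hρ h0 hC₀
  have hKU : Shc 0 (s₀ / 2) ⊆ Sh (-s₀) s₀ := fun x hx =>
    ⟨(Real.exp_lt_exp.2 (by linarith)).trans_le hx.1,
      hx.2.trans_lt (Real.exp_lt_exp.2 (by linarith))⟩
  obtain ⟨c, V, hc, hV, hel⟩ := hh.ellip (isCompact_Shc 0 (s₀ / 2)) hKU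
  obtain ⟨η, hη, hcmp⟩ := cmp_of_close (n := 3) hμ hc
  obtain ⟨D₁, hD₁, hcl⟩ := ModCAux.close hh (isCompact_Shc 0 (s₀ / 2)) hKU hη
  have hB : 0 < (C ^ 2 + 1) * ((1 + μ) ^ 2 * V) := by positivity
  obtain ⟨D₂, hD₂, hvol⟩ := ModCAux.small_vol (div_pos hϖ hB)
  obtain ⟨D, hD0, hD1, hDs, hDa, hDb⟩ :
      ∃ D : ℝ, 0 < D ∧ D ≤ 1 ∧ D ≤ s₀ / 2 ∧ D ≤ D₁ ∧ D ≤ D₂ :=
    ⟨min (min 1 (s₀ / 2)) (min D₁ D₂), by positivity,
      (min_le_left _ _).trans (min_le_left _ _), (min_le_left _ _).trans (min_le_right _ _),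
      (min_le_right _ _).trans (min_le_left _ _), (min_le_right _ _).trans (min_le_right _ _)⟩
  obtain ⟨κ, δ, hδ, hδD, hsm, hz, hid, hnn, hle, hder⟩ := hκ D hD0 hD1
  have hmet : IsMet (stretch κ h) (Sh (-s₀) s₀) := by
    apply (isMet_stretch hh hsm).mono (isOpen_Sh _ _)
    intro x hx
    obtain ⟨hx0, h1, h2⟩ := mem_Sh_iff.1 hx
    refine ⟨hx0, ?_⟩
    rw [abs_of_nonneg (hnn _)]
    rcases le_total (Real.log (nrm x)) D with hl | hl
    · linarith [hle _ hl]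
    · rw [hid _ hl]
      exact h2
  have hout : ∀ x : E 3, Real.exp D ≤ nrm x → stretch κ h x = h x := by
    intro x hx
    have hl : D ≤ Real.log (nrm x) :=
      (Real.le_log_iff_exp_le ((Real.exp_pos D).trans_le hx)).2 hx
    simp [stretch, hid _ hl]
  have hsub : Shc 0 D ⊆ Shc 0 (s₀ / 2) := fun x hx =>
    ⟨hx.1, hx.2.trans (Real.exp_le_exp.2 hDs)⟩
  have hin : ∀ x ∈ Shc 0 D, Cmp μ (h x) (stretch κ h x) := by
    intro x hx
    obtain ⟨hx0, h1, h2⟩ := mem_Shc_iff.1 hx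
    have hxK := hsub hx
    refine (hcmp (h x) (stretch κ h x) (hh.pos x (hKU hxK)) (fun v => ((hel x hxK).2.2 v).1)
      (fun i j => hmet.symm (hKU hxK) i j) ?_).2
    apply hcl _ _ x hxK
    rw [abs_le]
    constructor <;> linarith [hnn (Real.log (nrm x)), hle _ h2]
  refine ⟨stretch κ h, D, δ, hδ, hδD, by linarith, hmet, ?_, fun x _ hx => hout x hx, ?_, ?_⟩
  · intro x hx
    obtain ⟨hx0, h1, h2⟩ := mem_Sh_iff.1 hx
    have hp := nrm_pos hx0
    have hs1 : Real.exp (0 - Real.log (nrm x)) • x ∈ sph := by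
      rw [mem_sph_iff, nrm_smul, abs_of_pos (Real.exp_pos _), zero_sub, Real.exp_neg,
        Real.exp_log hp, inv_mul_cancel₀ hp.ne']
    have hone : Hom0 (fun _ => (1 : ℝ)) := ⟨contDiffOn_const, fun _ _ _ => rfl⟩
    unfold stretch
    rw [hz _ h2.le, (h0 _ hs1).1]
    exact cyl_smul hφ hone hx0 (Real.exp_pos _)
  · intro x hx h1
    rcases le_total (Real.exp D) (nrm x) with hl | hl
    · rw [hout x hl]
      exact Cmp.refl hμ.le (hh.pos x hx)
    · exact hin x ⟨by simpa using h1, hl⟩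
  · have hb : ∀ x ∈ Shc 0 D, ‖min (scal (stretch κ h) x) 0 ^ 2 * vol (stretch κ h) x‖ ≤
        (C ^ 2 + 1) * ((1 + μ) ^ 2 * V) := by
      intro x hx
      obtain ⟨hx0, h1, h2⟩ := mem_Shc_iff.1 hx
      have hxK := hsub hx
      have h3 : -C ≤ scal (stretch κ h) x :=
        hC κ hsm x hx0 ⟨hnn _, (hle _ h2).trans hDs⟩ (hder _).1 (hder _).2.1 (hder _).2.2
      have h4 : min (scal (stretch κ h) x) 0 ^ 2 ≤ C ^ 2 + 1 := by
        rcases le_total (scal (stretch κ h) x) 0 with hl | hl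
        · rw [min_eq_left hl]
          nlinarith
        · rw [min_eq_right hl]
          nlinarith [sq_nonneg C]
      have h5 : vol (stretch κ h) x ≤ (1 + μ) ^ 2 * V :=
        ((hin x hx).symm.vol_le hμ.le (hmet.pos x (hKU hxK)) (hh.pos x (hKU hxK))).trans
          (mul_le_mul_of_nonneg_left (hel x hxK).2.1 (by positivity))
      rw [Real.norm_of_nonneg (mul_nonneg (sq_nonneg _) (vol_nonneg _ _))]
      exact mul_le_mul h4 h5 (vol_nonneg _ _) (by positivity)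
    have h6 := norm_setIntegral_le_of_norm_le_const (μ := (volume : Measure (E 3)))
      (isCompact_Shc 0 D).measure_lt_top hb
    have h7 := hvol D hDb
    rw [le_div_iff₀ hB] at h7
    have h8 := (le_abs_self _).trans ((Real.norm_eq_abs _).symm.le.trans h6)
    linarith

end

end Pool.Agent.P.MP_56a1cd_gt
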