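import Pool.Agent.P.MP_56a1cd_gt.Riem
import Pool.Agent.P.MP_56a1cd_gt.Slice
import Pool.Agent.P.MP_56a1cd_gt.Ibp

namespace Pool.Agent.P.MP_56a1cd_gt

open MeasureTheory Matrix Set Filter Topology
open scoped ContDiff ENNReal

variable {m n : ℕ}

/-! Curvature of warped block metrics. -/

namespace WarpAux

section
variable (γ : Met 2) (N : E 3 → ℝ)

theorem b00 : (fun w => blk γ N w 0 0) = fun w => γ (pr w) 0 0 := rfl
theorem b01 : (fun w => blk γ N w 0 1) = fun w => γ (pr w) 0 1 := rfl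
theorem b10 : (fun w => blk γ N w 1 0) = fun w => γ (pr w) 1 0 := rfl
theorem b11 : (fun w => blk γ N w 1 1) = fun w => γ (pr w) 1 1 := rfl
theorem b02 : (fun w => blk γ N w 0 2) = fun _ => 0 := rfl
theorem b12 : (fun w => blk γ N w 1 2) = fun _ => 0 := rfl
theorem b20 : (fun w => blk γ N w 2 0) = fun _ => 0 := rfl
theorem b21 : (fun w => blk γ N w 2 1) = fun _ => 0 := rfl
theorem b22 : (fun w => blk γ N w 2 2) = fun w => N w ^ 2 := rfl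

end

theorem pd_const_fun (c : ℝ) (i : Fin n) : pd i (fun _ : E n => c) = fun _ => 0 :=
  funext fun x => pd_const c x i

variable {γ : Met 2} {V : Set (E 2)} {N : E 3 → ℝ} {z : E 3} {f : E 2 → ℝ}

theorem isOpen_pr (hV : IsOpen V) : IsOpen (pr ⁻¹' V) := hV.preimage contDiff_pr.continuous

theorem p0 (hV : IsOpen V) (hf : Sm V f) (hz : pr z ∈ V) :
    pd 0 (fun w => f (pr w)) z = pd 0 f (pr z) := (pd_pr (sm_da hV hf hz)).1 0

theorem p1 (hV : IsOpen V) (hf : Sm V f) (hz : pr z ∈ V) :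
    pd 1 (fun w => f (pr w)) z = pd 1 f (pr z) := (pd_pr (sm_da hV hf hz)).1 1

theorem p2 (hV : IsOpen V) (hf : Sm V f) (hz : pr z ∈ V) :
    pd 2 (fun w => f (pr w)) z = 0 := (pd_pr (sm_da hV hf hz)).2

theorem q0 (hV : IsOpen V) (hf : Sm V f) (hz : pr z ∈ V) (a : Fin 3) :
    pd a (pd 0 fun w => f (pr w)) z = pd a (fun w => pd 0 f (pr w)) z :=
  pd_congr_on (isOpen_pr hV) (fun _ hw => p0 hV hf hw) hz a

theorem q1 (hV : IsOpen V) (hf : Sm V f) (hz : pr z ∈ V) (a : Fin 3) :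
    pd a (pd 1 fun w => f (pr w)) z = pd a (fun w => pd 1 f (pr w)) z :=
  pd_congr_on (isOpen_pr hV) (fun _ hw => p1 hV hf hw) hz a

theorem q2 (hV : IsOpen V) (hf : Sm V f) (hz : pr z ∈ V) (a : Fin 3) :
    pd a (pd 2 fun w => f (pr w)) z = 0 :=
  (pd_congr_on (isOpen_pr hV) (fun _ hw => p2 hV hf hw) hz a).trans (pd_const 0 z a)

/-- The two-jet of a function of the first two coordinates. -/
theorem jet (hV : IsOpen V) (hf : Sm V f) (hz : pr z ∈ V) :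
    pd 0 (fun w => f (pr w)) z = pd 0 f (pr z) ∧ pd 1 (fun w => f (pr w)) z = pd 1 f (pr z) ∧
    pd 2 (fun w => f (pr w)) z = 0 ∧
    pd 0 (pd 0 fun w => f (pr w)) z = pd 0 (pd 0 f) (pr z) ∧
    pd 1 (pd 0 fun w => f (pr w)) z = pd 1 (pd 0 f) (pr z) ∧
    pd 2 (pd 0 fun w => f (pr w)) z = 0 ∧
    pd 0 (pd 1 fun w => f (pr w)) z = pd 0 (pd 1 f) (pr z) ∧
    pd 1 (pd 1 fun w => f (pr w)) z = pd 1 (pd 1 f) (pr z) ∧
    pd 2 (pd 1 fun w => f (pr w)) z = 0 ∧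
    pd 0 (pd 2 fun w => f (pr w)) z = 0 ∧ pd 1 (pd 2 fun w => f (pr w)) z = 0 ∧
    pd 2 (pd 2 fun w => f (pr w)) z = 0 :=
  ⟨p0 hV hf hz, p1 hV hf hz, p2 hV hf hz,
    (q0 hV hf hz 0).trans (p0 hV (sm_pd hV hf 0) hz), (q0 hV hf hz 1).trans (p1 hV (sm_pd hV hf 0) hz),
    (q0 hV hf hz 2).trans (p2 hV (sm_pd hV hf 0) hz),
    (q1 hV hf hz 0).trans (p0 hV (sm_pd hV hf 1) hz), (q1 hV hf hz 1).trans (p1 hV (sm_pd hV hf 1) hz),
    (q1 hV hf hz 2).trans (p2 hV (sm_pd hV hf 1) hz), q2 hV hf hz 0, q2 hV hf hz 1, q2 hV hf hz 2⟩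

theorem blk_inv (hγ : IsMet γ V) (hz : pr z ∈ V) (hN : N z ≠ 0) :
    (blk γ N z)⁻¹ = !![(γ (pr z))⁻¹ 0 0, (γ (pr z))⁻¹ 0 1, 0; (γ (pr z))⁻¹ 1 0, (γ (pr z))⁻¹ 1 1, 0;
      0, 0, (N z ^ 2)⁻¹] := by
  refine Matrix.inv_eq_right_inv ?_
  have h := hγ.mul_inv hz
  simp only [Fin.sum_univ_two] at h
  have h2 : N z ^ 2 * (N z ^ 2)⁻¹ = 1 := mul_inv_cancel₀ (pow_ne_zero 2 hN)
  rw [blk, Matrix.mul_fin_three, Matrix.one_fin_three]
  simp only [mul_zero, zero_mul, add_zero, zero_add, h, h2]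
  simp

theorem inv_entries (hγ : IsMet γ V) (hz : pr z ∈ V) (hN : N z ≠ 0) :
    (blk γ N z)⁻¹ 0 0 = (γ (pr z))⁻¹ 0 0 ∧ (blk γ N z)⁻¹ 0 1 = (γ (pr z))⁻¹ 0 1 ∧
    (blk γ N z)⁻¹ 1 0 = (γ (pr z))⁻¹ 1 0 ∧ (blk γ N z)⁻¹ 1 1 = (γ (pr z))⁻¹ 1 1 ∧
    (blk γ N z)⁻¹ 0 2 = 0 ∧ (blk γ N z)⁻¹ 1 2 = 0 ∧ (blk γ N z)⁻¹ 2 0 = 0 ∧
    (blk γ N z)⁻¹ 2 1 = 0 ∧ (blk γ N z)⁻¹ 2 2 = (N z ^ 2)⁻¹ := by
  rw [blk_inv hγ hz hN]
  exact ⟨rfl, rfl, rfl, rfl, rfl, rfl, rfl, rfl, rfl⟩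

theorem pd_sq {W : Set (E n)} {u : E n → ℝ} (hW : IsOpen W) (hu : Sm W u) {x : E n} (hx : x ∈ W)
    (a : Fin n) : pd a (fun w => u w ^ 2) x = 2 * (u x * pd a u x) := by
  simp only [pow_two]
  rw [pd_mul (sm_da hW hu hx) (sm_da hW hu hx)]
  ring

theorem pd_pd_sq {W : Set (E n)} {u : E n → ℝ} (hW : IsOpen W) (hu : Sm W u) {x : E n}
    (hx : x ∈ W) (a b : Fin n) :
    pd a (pd b fun w => u w ^ 2) x = 2 * (pd a u x * pd b u x + u x * pd a (pd b u) x) := by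
  rw [pd_congr_on hW (fun y hy => pd_sq hW hu hy b) hx, pd_const_mul,
    pd_mul (sm_da hW hu hx) (sm_da hW (sm_pd hW hu b) hx)]

theorem pd_slice {W : Set (E 3)} (hW : IsOpen W) (hN : Sm W N) (hz : z ∈ W) (i : Fin 2) :
    pd i (fun y => N (lift (z 2) y)) (pr z) = pd i.castSucc N z := by
  rw [pd_lift (by rw [lift_pr]; exact sm_da hW hN hz), lift_pr]

theorem pd_pd_slice {W : Set (E 3)} (hW : IsOpen W) (hN : Sm W N) (hz : z ∈ W) (i j : Fin 2) :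
    pd i (pd j fun y => N (lift (z 2) y)) (pr z) = pd i.castSucc (pd j.castSucc N) z := by
  rw [pd_congr_on (hW.preimage (contDiff_lift (z 2)).continuous)
    (fun y hy => pd_lift (sm_da hW hN hy) j) (by rw [mem_preimage, lift_pr]; exact hz)]
  exact pd_slice hW (sm_pd hW hN _) hz i

/-- Tangential derivatives of a function that is constant on the plane. -/
theorem pd_plane {W : Set (E 3)} (hW : IsOpen W) (hN : Sm W N) {c : ℝ}
    (h0 : ∀ w ∈ W, w 2 = 0 → N w = c) (hz : z ∈ W) (hz0 : z 2 = 0) (i : Fin 2) :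
    pd i.castSucc N z = 0 := by
  rw [← pd_slice hW hN hz, pd_congr_on (hW.preimage (contDiff_lift (z 2)).continuous)
    (fun y hy => h0 _ hy hz0) (by rw [mem_preimage, lift_pr]; exact hz), pd_const]

end WarpAux

open WarpAux

theorem isMet_blk {γ : Met 2} {V : Set (E 2)} (hγ : IsMet γ V) {N : E 3 → ℝ} {W : Set (E 3)}
    (hW : IsOpen W) (hWV : MapsTo pr W V) (hN : Sm W N) (hN0 : ∀ z ∈ W, 0 < N z) :
    IsMet (blk γ N) W := by
  have hs : ∀ i j, Sm W fun w => γ (pr w) i j := fun i j =>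
    (hγ.sm i j).comp contDiff_pr.contDiffOn hWV
  refine ⟨hW, fun i j => ?_, fun z hz => ?_⟩
  · fin_cases i <;> fin_cases j
    exacts [hs 0 0, hs 0 1, contDiffOn_const, hs 1 0, hs 1 1, contDiffOn_const, contDiffOn_const,
      contDiffOn_const, hN.pow 2]
  · obtain ⟨-, h2⟩ := Matrix.posDef_iff_dotProduct_mulVec.1 (hγ.pos _ (hWV hz))
    refine Matrix.posDef_iff_dotProduct_mulVec.2 ⟨?_, fun v hv => ?_⟩
    · ext i j
      fin_cases i <;> fin_cases j <;> simp [blk, hγ.symm (hWV hz) 1 0]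
    · have e : star v ⬝ᵥ blk γ N z *ᵥ v =
          star (pr v) ⬝ᵥ γ (pr z) *ᵥ pr v + N z ^ 2 * v 2 ^ 2 := by
        simp [blk, pr, dotProduct, Matrix.mulVec, Fin.sum_univ_three, Fin.sum_univ_two]
        ring
      rw [e]
      have h3 := hN0 z hz
      by_cases h : pr v = 0
      · have h4 : v 2 ≠ 0 := fun h4 => hv (by
          have h5 : v 0 = 0 := congrFun h 0
          have h6 : v 1 = 0 := congrFun h 1
          ext i
          fin_cases i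
          exacts [h5, h6, h4])
        rw [h, Matrix.mulVec_zero, dotProduct_zero, zero_add]
        positivity
      · have := h2 h
        positivity

theorem scal_blk {γ : Met 2} {V : Set (E 2)} (hγ : IsMet γ V) {N : E 3 → ℝ} {W : Set (E 3)}
    (hW : IsOpen W) (hWV : MapsTo pr W V) (hN : Sm W N) (hN0 : ∀ z ∈ W, 0 < N z) {z : E 3}
    (hz : z ∈ W) :
    scal (blk γ N) z = scal γ (pr z) - 2 * lap γ (fun y => N (lift (z 2) y)) (pr z) / N z := by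
  have hn := (hN0 z hz).ne'
  obtain ⟨g1, g2, g3, g4, g5, g6, g7, g8, g9⟩ := inv_entries hγ (hWV hz) hn
  have hj := fun i j => jet hγ.opn (hγ.sm i j) (hWV hz)
  simp only [forall_and] at hj
  obtain ⟨j1, j2, j3, j4, j5, j6, j7, j8, j9, j10, j11, j12⟩ := hj
  have s0 : pd 0 (fun y => N (lift (z 2) y)) (pr z) = pd 0 N z := pd_slice hW hN hz 0
  have s1 : pd 1 (fun y => N (lift (z 2) y)) (pr z) = pd 1 N z := pd_slice hW hN hz 1
  have s00 : pd 0 (pd 0 fun y => N (lift (z 2) y)) (pr z) = pd 0 (pd 0 N) z :=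
    pd_pd_slice hW hN hz 0 0
  have s01 : pd 0 (pd 1 fun y => N (lift (z 2) y)) (pr z) = pd 0 (pd 1 N) z :=
    pd_pd_slice hW hN hz 0 1
  have s10 : pd 1 (pd 0 fun y => N (lift (z 2) y)) (pr z) = pd 1 (pd 0 N) z :=
    pd_pd_slice hW hN hz 1 0
  have s11 : pd 1 (pd 1 fun y => N (lift (z 2) y)) (pr z) = pd 1 (pd 1 N) z :=
    pd_pd_slice hW hN hz 1 1
  rw [scal_jet (isMet_blk hγ hW hWV hN hN0) hz, scal_jet hγ (hWV hz)]
  simp only [scalQ, lap, hess, chr_eq, Fin.sum_univ_three, Fin.sum_univ_two, g1, g2, g3, g4, g5, g6,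
    g7, g8, g9, mul_zero, zero_mul, add_zero, zero_add, sub_zero, zero_sub, sub_self]
  simp only [chr1, b00, b01, b10, b11, b02, b12, b20, b21, b22, pd_const_fun, j1, j2, j3, j4, j5,
    j7, j8, j10, j11, j12, s0, s1, s00, s01, s10, s11, pd_sq hW hN hz, pd_pd_sq hW hN hz,
    hγ.inv_symm (hWV hz) 1 0]
  field_simp
  ring

theorem lap_blk_pr {γ : Met 2} {V : Set (E 2)} (hγ : IsMet γ V) {f : E 2 → ℝ} (hf : Sm V f)
    {z : E 3} (hz : pr z ∈ V) :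
    lap (blk γ fun _ => 1) (fun w => f (pr w)) z = lap γ f (pr z) := by
  obtain ⟨g1, g2, g3, g4, g5, g6, g7, g8, g9⟩ :=
    inv_entries (N := fun _ => 1) hγ hz one_ne_zero
  have hj := fun i j => jet hγ.opn (hγ.sm i j) hz
  simp only [forall_and] at hj
  obtain ⟨j1, j2, j3, -⟩ := hj
  obtain ⟨k1, k2, k3, k4, k5, k6, k7, k8, k9, k10, k11, k12⟩ := jet hγ.opn hf hz
  simp only [lap, hess, chr_eq, Fin.sum_univ_three, Fin.sum_univ_two, g1, g2, g3, g4, g5, g6,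
    g7, g8, g9, chr1, b00, b01, b10, b11, b02, b12, b20, b21, b22, pd_const_fun, j1, j2, j3,
    k1, k2, k3, k4, k5, k6, k7, k8, k9, k10, k11, k12]
  ring

theorem hlink {h : Met 3} {W : Set (E 3)} (hh : IsMet h W) {ρ : E 3 → ℝ} (hρ : Sm W ρ)
    (h0 : ∀ z ∈ W, z 2 = 0 → ρ z = 0 ∧ h z 0 2 = 0 ∧ h z 1 2 = 0 ∧ h z 2 2 = 1) {z : E 3}
    (hz : z ∈ W) (hz0 : z 2 = 0) (hp : 0 < pd 2 ρ z) :
    ∑ c, ∑ d, ((h z)⁻¹ 2 c * (h z)⁻¹ 2 d - (h z)⁻¹ 2 2 * (h z)⁻¹ c d) *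
      pd 2 (fun w => h w c d) z = -2 * meanCurv h ρ z := by
  obtain ⟨-, a0, a1, a2⟩ := h0 z hz hz0
  have hG := fun i => hh.inv_mul hz i 2
  simp only [Fin.sum_univ_three, a0, a1, a2, mul_zero, mul_one, zero_add] at hG
  have g02 : (h z)⁻¹ 0 2 = 0 := hG 0
  have g12 : (h z)⁻¹ 1 2 = 0 := hG 1
  have g22 : (h z)⁻¹ 2 2 = 1 := hG 2
  have g20 : (h z)⁻¹ 2 0 = 0 := (hh.inv_symm hz 2 0).trans g02
  have g21 : (h z)⁻¹ 2 1 = 0 := (hh.inv_symm hz 2 1).trans g12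
  have r : ∀ i : Fin 2, ∀ w ∈ W, w 2 = 0 → pd i.castSucc ρ w = 0 := fun i w hw hw0 =>
    pd_plane hh.opn hρ (fun u hu hu0 => (h0 u hu hu0).1) hw hw0 i
  have rr : ∀ i j : Fin 2, pd i.castSucc (pd j.castSucc ρ) z = 0 := fun i j =>
    pd_plane hh.opn (sm_pd hh.opn hρ _) (r j) hz hz0 i
  have r0 : pd 0 ρ z = 0 := r 0 z hz hz0
  have r1 : pd 1 ρ z = 0 := r 1 z hz hz0
  have r00 : pd 0 (pd 0 ρ) z = 0 := rr 0 0
  have r01 : pd 0 (pd 1 ρ) z = 0 := rr 0 1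
  have r10 : pd 1 (pd 0 ρ) z = 0 := rr 1 0
  have r11 : pd 1 (pd 1 ρ) z = 0 := rr 1 1
  have t0 := pd_plane hh.opn (hh.sm 0 2) (fun u hu hu0 => (h0 u hu hu0).2.1) hz hz0
  have t1 := pd_plane hh.opn (hh.sm 1 2) (fun u hu hu0 => (h0 u hu hu0).2.2.1) hz hz0
  have t00 : pd 0 (fun w => h w 0 2) z = 0 := t0 0
  have t10 : pd 1 (fun w => h w 0 2) z = 0 := t0 1
  have t01 : pd 0 (fun w => h w 1 2) z = 0 := t1 0
  have t11 : pd 1 (fun w => h w 1 2) z = 0 := t1 1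
  have hg : gam h ρ ρ z = pd 2 ρ z ^ 2 := by
    simp only [gam, Fin.sum_univ_three, r0, r1, g22]
    ring
  have hgg : gam h ρ (gam h ρ ρ) z = 2 * hess h ρ 2 2 z * pd 2 ρ z ^ 2 := by
    rw [gam_gam hh hρ hρ hz]
    simp only [hb, gr, Fin.sum_univ_three, r0, r1, g02, g12, g22]
    ring
  have hl : lap h ρ z = hess h ρ 2 2 z + pd 2 ρ z / 2 *
      ((h z)⁻¹ 0 0 * pd 2 (fun w => h w 0 0) z + (h z)⁻¹ 0 1 * pd 2 (fun w => h w 0 1) z +
        (h z)⁻¹ 1 0 * pd 2 (fun w => h w 1 0) z + (h z)⁻¹ 1 1 * pd 2 (fun w => h w 1 1) z) := by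
    simp only [lap, Fin.sum_univ_three, g02, g12, g20, g21, g22]
    simp only [hess, chr, Fin.sum_univ_three, g20, g21, g22, r0, r1, r00, r01, r10, r11, t00, t01,
      t10, t11]
    ring
  rw [meanCurv_eq hh hρ hz (by rw [hg]; positivity), hgg, hg, hl, Real.sqrt_sq hp.le]
  simp only [Fin.sum_univ_three, g02, g12, g20, g21, g22]
  field_simp
  ring

end Pool.Agent.P.MP_56a1cd_gt
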