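import Pool.Agent.P.MP_56a1cd_gt.Cyl
import Pool.Agent.P.MP_56a1cd_gt.Warp
import Pool.Agent.P.MP_56a1cd_gt.Conf

namespace Pool.Agent.P.MP_56a1cd_gt

open MeasureTheory Matrix Set Filter Topology
open scoped ContDiff ENNReal

variable {m n : ℕ}

/-! PLAN. Let `σ = stereo`, `λ = 2 / (1 + y ⬝ y)`. Then `σ ⬝ σ = 1`, `pd i σ ⬝ σ = 0` and
`pd i σ ⬝ pd j σ = λ² δ i j` (compute the three components; `field_simp; ring`). The columns of
`jac (polar ε) z` are `ε exp (z 2) • pd i σ` and `polar ε z`. The determinant is nonzero since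
`Jᵀ J` is the diagonal matrix `exp (2 z 2) (λ², λ², 1)`. Inverse of `σ`: `y i = p i / (1 - p 2)` for
`p 2 ≠ 1`; if `p 2 ≤ 0` then `y ⬝ y ≤ 1`; if `p 2 > 0` use `-p`. The complement of the range of
`polar 1` lies in the line `x 0 = 0, x 1 = 0`. For `pull` use `pull_quad` and `cyl_quad`. -/

namespace PolarChAux

theorem dot2 (v w : E 2) : v ⬝ᵥ w = v 0 * w 0 + v 1 * w 1 := by
  simp [dotProduct, Fin.sum_univ_two]

theorem dot3 (v w : E 3) : v ⬝ᵥ w = v 0 * w 0 + v 1 * w 1 + v 2 * w 2 := by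
  simp [dotProduct, Fin.sum_univ_three]

theorem den_pos (y : E 2) : 0 < 1 + y ⬝ᵥ y := by
  rw [dot2]
  nlinarith [mul_self_nonneg (y 0), mul_self_nonneg (y 1)]

theorem contDiff_q : ContDiff ℝ ∞ (fun y : E 2 => y ⬝ᵥ y) := by
  have e : (fun y : E 2 => y ⬝ᵥ y) = fun y => y 0 * y 0 + y 1 * y 1 := funext fun y => dot2 y y
  rw [e]
  fun_prop

theorem st0 (y : E 2) : stereo y 0 = 2 * y 0 / (1 + y ⬝ᵥ y) := rfl

theorem st1 (y : E 2) : stereo y 1 = 2 * y 1 / (1 + y ⬝ᵥ y) := rfl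

theorem st2 (y : E 2) : stereo y 2 = (y ⬝ᵥ y - 1) / (1 + y ⬝ᵥ y) := rfl

theorem ext3 {v w : E 3} (h0 : v 0 = w 0) (h1 : v 1 = w 1) (h2 : v 2 = w 2) : v = w := by
  funext i
  fin_cases i
  · exact h0
  · exact h1
  · exact h2

theorem ext2 {v w : E 2} (h0 : v 0 = w 0) (h1 : v 1 = w 1) : v = w := by
  funext i
  fin_cases i
  · exact h0
  · exact h1

theorem mat_ext {A B : Matrix (Fin n) (Fin n) ℝ}
    (h : ∀ v w : E n, v ⬝ᵥ A *ᵥ w = v ⬝ᵥ B *ᵥ w) : A = B := by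
  ext i j
  simpa using h (Pi.single i 1) (Pi.single j 1)

theorem hasDerivAt_line (y v : E m) : HasDerivAt (fun t : ℝ => y + t • v) v 0 := by
  simpa using ((hasDerivAt_id (0 : ℝ)).smul_const v).const_add y

theorem fderiv_line {f : E m → E n} {y v : E m} (hf : DifferentiableAt ℝ f y) :
    HasDerivAt (fun t : ℝ => f (y + t • v)) (fderiv ℝ f y v) 0 := by
  have h2 : HasFDerivAt f (fderiv ℝ f y) (y + (0 : ℝ) • v) := by simpa using hf.hasFDerivAt
  exact h2.comp_hasDerivAt (0 : ℝ) (hasDerivAt_line y v)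

theorem sq_eps {ε : ℝ} (hε : ε = 1 ∨ ε = -1) : ε * ε = 1 := by
  rcases hε with h | h <;> simp [h]

theorem abs_eps {ε : ℝ} (hε : ε = 1 ∨ ε = -1) : |ε| = 1 := by
  rcases hε with h | h <;> simp [h]

end PolarChAux

open PolarChAux

theorem contDiff_stereo : ContDiff ℝ ∞ stereo := by
  have hq := contDiff_q
  have hd : ContDiff ℝ ∞ (fun y : E 2 => 1 + y ⬝ᵥ y) := contDiff_const.add hq
  refine contDiff_pi.2 fun i => ?_
  fin_cases i
  · exact ContDiff.div (f := fun y : E 2 => 2 * y 0) (by fun_prop) hd fun y => (den_pos y).ne'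
  · exact ContDiff.div (f := fun y : E 2 => 2 * y 1) (by fun_prop) hd fun y => (den_pos y).ne'
  · exact ContDiff.div (hq.sub contDiff_const) hd fun y => (den_pos y).ne'

theorem stereo_mem_sph (y : E 2) : stereo y ∈ sph := by
  have hd := (den_pos y).ne'
  show stereo y ⬝ᵥ stereo y = 1
  rw [dot3, st0, st1, st2]
  rw [dot2] at hd ⊢
  field_simp
  ring

theorem stereo_injective : Function.Injective stereo := by
  intro y y' h
  have h0 : stereo y 0 = stereo y' 0 := by rw [h]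
  have h1 : stereo y 1 = stereo y' 1 := by rw [h]
  have h2 : stereo y 2 = stereo y' 2 := by rw [h]
  have hd := den_pos y
  have hd' := den_pos y'
  rw [st2, st2, div_eq_div_iff hd.ne' hd'.ne'] at h2
  have hq : y ⬝ᵥ y = y' ⬝ᵥ y' := by linarith
  rw [st0, st0, hq, div_left_inj' hd'.ne'] at h0
  rw [st1, st1, hq, div_left_inj' hd'.ne'] at h1
  exact ext2 (by linarith) (by linarith)

theorem exists_stereo {p : E 3} (hp : p ∈ sph) (h : p ≠ ![0, 0, 1]) : ∃ y, stereo y = p := by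
  have hp' : p 0 * p 0 + p 1 * p 1 + p 2 * p 2 = 1 := by
    rw [← dot3]
    exact hp
  have h2 : 1 - p 2 ≠ 0 := by
    intro h2
    have e2 : p 2 = 1 := by linarith
    rw [e2] at hp'
    have e0 : p 0 = 0 := by nlinarith [mul_self_nonneg (p 0), mul_self_nonneg (p 1)]
    have e1 : p 1 = 0 := by nlinarith [mul_self_nonneg (p 0), mul_self_nonneg (p 1)]
    exact h (ext3 e0 e1 e2)
  set y : E 2 := ![p 0 / (1 - p 2), p 1 / (1 - p 2)] with hy
  have y0 : y 0 = p 0 / (1 - p 2) := rfl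
  have y1 : y 1 = p 1 / (1 - p 2) := rfl
  have hq : y ⬝ᵥ y = (1 + p 2) / (1 - p 2) := by
    rw [dot2, y0, y1]
    field_simp
    linear_combination hp'
  have hD : 1 + y ⬝ᵥ y = 2 / (1 - p 2) := by
    rw [hq]
    field_simp
    ring
  refine ⟨y, ext3 ?_ ?_ ?_⟩
  · rw [st0, hD, y0]
    field_simp
  · rw [st1, hD, y1]
    field_simp
  · rw [st2, hD, hq]
    field_simp
    ring

theorem sph_subset_closure : sph ⊆ closure (range stereo) := by
  intro p hp
  by_cases h : p = ![0, 0, 1]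
  · have hc : Continuous (fun s : ℝ => -stereo ![s, 0]) :=
      (contDiff_stereo.continuous.comp (by fun_prop)).neg
    have h0 : -stereo ![(0 : ℝ), 0] = p := by
      rw [h]
      refine ext3 ?_ ?_ ?_ <;> simp [st0, st1, st2]
    have ht : Tendsto (fun s : ℝ => -stereo ![s, 0]) (𝓝[≠] 0) (𝓝 p) := by
      rw [← h0]
      exact (hc.tendsto 0).mono_left nhdsWithin_le_nhds
    refine mem_closure_of_tendsto ht ?_
    filter_upwards [self_mem_nhdsWithin] with s hs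
    refine exists_stereo ?_ ?_
    · have := stereo_mem_sph ![s, 0]
      simpa [sph] using this
    · intro e
      have e0 : (-stereo ![s, 0]) 0 = 0 := by
        rw [e]
        rfl
      have hd := den_pos ![s, 0]
      rw [Pi.neg_apply, st0, neg_eq_zero, div_eq_zero_iff] at e0
      rcases e0 with e0 | e0
      · have : s = 0 := by simpa using e0
        exact hs this
      · exact hd.ne' e0
  · exact subset_closure (exists_stereo hp h)

namespace PolarChAux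

theorem da_stereo (y : E 2) : DifferentiableAt ℝ stereo y :=
  (contDiff_stereo.differentiable (by simp)) y

theorem jac_stereo_mulVec (y v : E 2) : jac stereo y *ᵥ v =
    ![2 * v 0 / (1 + y ⬝ᵥ y) - 4 * y 0 * (y ⬝ᵥ v) / (1 + y ⬝ᵥ y) ^ 2,
      2 * v 1 / (1 + y ⬝ᵥ y) - 4 * y 1 * (y ⬝ᵥ v) / (1 + y ⬝ᵥ y) ^ 2,
      4 * (y ⬝ᵥ v) / (1 + y ⬝ᵥ y) ^ 2] := by
  rw [jac_mulVec (da_stereo y)]
  refine (fderiv_line (da_stereo y)).unique ?_
  have hd := (den_pos y).ne'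
  have hc : ∀ i, HasDerivAt (fun t : ℝ => (y + t • v) i) (v i) 0 :=
    hasDerivAt_pi.1 (hasDerivAt_line y v)
  have hq : HasDerivAt (fun t : ℝ => (y + t • v) ⬝ᵥ (y + t • v)) (2 * (y ⬝ᵥ v)) 0 := by
    have e : (fun t : ℝ => (y + t • v) ⬝ᵥ (y + t • v)) =
        fun t : ℝ => (y + t • v) 0 * (y + t • v) 0 + (y + t • v) 1 * (y + t • v) 1 :=
      funext fun t => dot2 _ _
    rw [e]
    refine (((hc 0).mul (hc 0)).add ((hc 1).mul (hc 1))).congr_deriv ?_
    rw [dot2]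
    simp only [zero_smul, add_zero]
    ring
  have hD := hq.const_add 1
  have hd' : 1 + (y + (0 : ℝ) • v) ⬝ᵥ (y + (0 : ℝ) • v) ≠ 0 := (den_pos _).ne'
  refine hasDerivAt_pi.2 fun i => ?_
  fin_cases i
  · refine (((hc 0).const_mul 2).div hD hd').congr_deriv ?_
    simp only [zero_smul, add_zero]
    show _ = 2 * v 0 / (1 + y ⬝ᵥ y) - 4 * y 0 * (y ⬝ᵥ v) / (1 + y ⬝ᵥ y) ^ 2
    field_simp
    ring
  · refine (((hc 1).const_mul 2).div hD hd').congr_deriv ?_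
    simp only [zero_smul, add_zero]
    show _ = 2 * v 1 / (1 + y ⬝ᵥ y) - 4 * y 1 * (y ⬝ᵥ v) / (1 + y ⬝ᵥ y) ^ 2
    field_simp
    ring
  · refine ((hq.sub_const 1).div hD hd').congr_deriv ?_
    simp only [zero_smul, add_zero]
    show _ = 4 * (y ⬝ᵥ v) / (1 + y ⬝ᵥ y) ^ 2
    field_simp
    ring

theorem js0 (y v : E 2) : (jac stereo y *ᵥ v) 0 =
    2 * v 0 / (1 + y ⬝ᵥ y) - 4 * y 0 * (y ⬝ᵥ v) / (1 + y ⬝ᵥ y) ^ 2 := by
  rw [jac_stereo_mulVec]
  rfl

theorem js1 (y v : E 2) : (jac stereo y *ᵥ v) 1 =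
    2 * v 1 / (1 + y ⬝ᵥ y) - 4 * y 1 * (y ⬝ᵥ v) / (1 + y ⬝ᵥ y) ^ 2 := by
  rw [jac_stereo_mulVec]
  rfl

theorem js2 (y v : E 2) : (jac stereo y *ᵥ v) 2 = 4 * (y ⬝ᵥ v) / (1 + y ⬝ᵥ y) ^ 2 := by
  rw [jac_stereo_mulVec]
  rfl

end PolarChAux

theorem jac_stereo_dot (y v : E 2) : (jac stereo y *ᵥ v) ⬝ᵥ stereo y = 0 := by
  have hd := (den_pos y).ne'
  rw [dot3, js0, js1, js2, st0, st1, st2]
  simp only [dot2] at hd ⊢
  field_simp
  ring

theorem jac_stereo_dot_jac (y v w : E 2) :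
    (jac stereo y *ᵥ v) ⬝ᵥ (jac stereo y *ᵥ w) = (2 / (1 + y ⬝ᵥ y)) ^ 2 * (v ⬝ᵥ w) := by
  have hd := (den_pos y).ne'
  rw [dot3, js0, js1, js2, js0, js1, js2]
  simp only [dot2] at hd ⊢
  field_simp
  ring

namespace PolarChAux

theorem nrm_stereo (y : E 2) : nrm (stereo y) = 1 := mem_sph_iff.1 (stereo_mem_sph y)

theorem nrm_eps_stereo {ε : ℝ} (hε : ε = 1 ∨ ε = -1) (y : E 2) : nrm (ε • stereo y) = 1 := by
  rw [nrm_smul, abs_eps hε, nrm_stereo, one_mul]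

theorem eps_stereo_ne {ε : ℝ} (hε : ε = 1 ∨ ε = -1) (y : E 2) : ε • stereo y ≠ 0 :=
  ne_zero_of_nrm_pos (by rw [nrm_eps_stereo hε]; exact one_pos)

theorem conf_quad (u : E n → ℝ) (x v w : E n) :
    v ⬝ᵥ conf u x *ᵥ w = Real.exp (2 * u x) * (v ⬝ᵥ w) := by
  simp only [conf, Matrix.smul_mulVec, Matrix.one_mulVec, dotProduct_smul, smul_eq_mul]

end PolarChAux

theorem sm_phs {φ : E 3 → ℝ} (hφ : Hom0 φ) {ε : ℝ} (hε : ε = 1 ∨ ε = -1) :
    ContDiff ℝ ∞ (phs φ ε) := by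
  have h1 : ContDiff ℝ ∞ (fun y : E 2 => φ (ε • stereo y)) :=
    ContDiffOn.comp_contDiff hφ.sm (contDiff_stereo.const_smul ε) fun y => eps_stereo_ne hε y
  have h2 : ContDiff ℝ ∞ (fun y : E 2 => Real.log (2 / (1 + y ⬝ᵥ y))) :=
    ContDiff.log (contDiff_const.div (contDiff_const.add contDiff_q) fun y => (den_pos y).ne')
      fun y => (div_pos two_pos (den_pos y)).ne'
  exact h1.add h2

theorem exp_phs (φ : E 3 → ℝ) (ε : ℝ) (y : E 2) :
    Real.exp (2 * phs φ ε y) = Real.exp (2 * φ (ε • stereo y)) * (2 / (1 + y ⬝ᵥ y)) ^ 2 := by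
  have hl : 0 < 2 / (1 + y ⬝ᵥ y) := div_pos two_pos (den_pos y)
  rw [phs, mul_add, Real.exp_add, two_mul (Real.log _), Real.exp_add, Real.exp_log hl, sq]

theorem pull_stereo {γ : Met 3} {φ : E 3 → ℝ}
    (h : ∀ p ∈ sph, ∀ v w : E 3, v ⬝ᵥ p = 0 → w ⬝ᵥ p = 0 →
      v ⬝ᵥ (γ p).mulVec w = Real.exp (2 * φ p) * (v ⬝ᵥ w)) :
    pull stereo γ = conf (phs φ 1) := by
  funext y
  refine mat_ext fun v w => ?_
  rw [pull_quad, h _ (stereo_mem_sph y) _ _ (jac_stereo_dot y v) (jac_stereo_dot y w),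
    jac_stereo_dot_jac, conf_quad, exp_phs, one_smul, mul_assoc]

theorem contDiff_polar (ε : ℝ) : ContDiff ℝ ∞ (polar ε) := by
  have h1 : ContDiff ℝ ∞ (fun z : E 3 => ε * Real.exp (z 2)) := by fun_prop
  exact h1.smul (contDiff_stereo.comp contDiff_pr)

namespace PolarChAux

theorem polar_eq (ε : ℝ) (z : E 3) : polar ε z = Real.exp (z 2) • (ε • stereo (pr z)) := by
  rw [polar, smul_smul, mul_comm]

theorem da_polar (ε : ℝ) (z : E 3) : DifferentiableAt ℝ (polar ε) z :=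
  ((contDiff_polar ε).differentiable (by simp)) z

theorem pr_line (z v : E 3) (t : ℝ) : pr (z + t • v) = pr z + t • pr v :=
  ext2 rfl rfl

theorem jac_polar_mulVec (ε : ℝ) (z v : E 3) : jac (polar ε) z *ᵥ v =
    (ε * Real.exp (z 2)) • (v 2 • stereo (pr z) + jac stereo (pr z) *ᵥ pr v) := by
  rw [jac_mulVec (da_polar ε z), jac_mulVec (da_stereo _)]
  refine (fderiv_line (da_polar ε z)).unique ?_
  have hc : HasDerivAt (fun t : ℝ => (z + t • v) 2) (v 2) 0 :=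
    hasDerivAt_pi.1 (hasDerivAt_line z v) 2
  have h1 := hc.exp.const_mul ε
  have h2 : HasDerivAt (fun t : ℝ => stereo (pr z + t • pr v))
      (fderiv ℝ stereo (pr z) (pr v)) 0 := fderiv_line (da_stereo _)
  have e : (fun t : ℝ => polar ε (z + t • v)) =
      fun t : ℝ => (ε * Real.exp ((z + t • v) 2)) • stereo (pr z + t • pr v) := by
    funext t
    rw [polar, pr_line]
  rw [e]
  refine (h1.smul h2).congr_deriv ?_
  simp only [zero_smul, add_zero, smul_add, smul_smul]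
  rw [add_comm, mul_assoc]

theorem jac_polar_dot {ε : ℝ} (hε : ε = 1 ∨ ε = -1) (z v : E 3) :
    (jac (polar ε) z *ᵥ v) ⬝ᵥ polar ε z = Real.exp (z 2) ^ 2 * v 2 := by
  have hs : stereo (pr z) ⬝ᵥ stereo (pr z) = 1 := stereo_mem_sph _
  rw [jac_polar_mulVec, polar]
  simp only [smul_dotProduct, dotProduct_smul, add_dotProduct, jac_stereo_dot, hs, smul_eq_mul]
  linear_combination (Real.exp (z 2) ^ 2 * v 2) * sq_eps hε

theorem jac_polar_dot_jac {ε : ℝ} (hε : ε = 1 ∨ ε = -1) (z v w : E 3) :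
    (jac (polar ε) z *ᵥ v) ⬝ᵥ (jac (polar ε) z *ᵥ w) = Real.exp (z 2) ^ 2 *
      (v 2 * w 2 + (2 / (1 + pr z ⬝ᵥ pr z)) ^ 2 * (pr v ⬝ᵥ pr w)) := by
  have hs : stereo (pr z) ⬝ᵥ stereo (pr z) = 1 := stereo_mem_sph _
  have h3 : stereo (pr z) ⬝ᵥ (jac stereo (pr z) *ᵥ pr w) = 0 := by
    rw [dotProduct_comm, jac_stereo_dot]
  rw [jac_polar_mulVec, jac_polar_mulVec]
  simp only [smul_dotProduct, dotProduct_smul, add_dotProduct, dotProduct_add, jac_stereo_dot, hs,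
    h3, jac_stereo_dot_jac, smul_eq_mul]
  linear_combination (Real.exp (z 2) ^ 2 *
      (v 2 * w 2 + (2 / (1 + pr z ⬝ᵥ pr z)) ^ 2 * (pr v ⬝ᵥ pr w))) * sq_eps hε

theorem blk_quad (γ : Met 2) (N : E 3 → ℝ) (z v w : E 3) :
    v ⬝ᵥ blk γ N z *ᵥ w = pr v ⬝ᵥ γ (pr z) *ᵥ pr w + N z ^ 2 * (v 2 * w 2) := by
  simp [blk, pr, dotProduct, Matrix.mulVec, Fin.sum_univ_three, Fin.sum_univ_two]
  ring

end PolarChAux

theorem nrm_polar {ε : ℝ} (hε : ε = 1 ∨ ε = -1) (z : E 3) :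
    nrm (polar ε z) = Real.exp (z 2) := by
  rw [polar_eq, nrm_smul, nrm_eps_stereo hε, mul_one, abs_of_pos (Real.exp_pos _)]

theorem polar_ne_zero {ε : ℝ} (hε : ε = 1 ∨ ε = -1) (z : E 3) : polar ε z ≠ 0 :=
  ne_zero_of_nrm_pos (by rw [nrm_polar hε]; exact Real.exp_pos _)

theorem polar_lift (ε t : ℝ) (y : E 2) :
    polar ε (lift t y) = Real.exp t • (ε • stereo y) := by
  rw [polar_eq, pr_lift]
  rfl

theorem isChart_polar {ε : ℝ} (hε : ε = 1 ∨ ε = -1) : IsChart (polar ε) univ := by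
  refine ⟨isOpen_univ, (contDiff_polar ε).contDiffOn, ?_, ?_⟩
  · intro z _ z' _ h
    have h2 : z 2 = z' 2 := by
      have e := nrm_polar hε z
      rw [h, nrm_polar hε] at e
      exact (Real.exp_injective e).symm
    have hne : ε * Real.exp (z' 2) ≠ 0 := by
      refine mul_ne_zero ?_ (Real.exp_pos _).ne'
      rcases hε with e | e <;> simp [e]
    rw [polar, polar, h2] at h
    have h3 : pr z = pr z' := stereo_injective (smul_right_injective _ hne h)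
    rw [← lift_pr z, ← lift_pr z', h2, h3]
  · intro z _ hdet
    obtain ⟨v, hv, hz⟩ := Matrix.exists_mulVec_eq_zero_iff.2 hdet
    have e := jac_polar_dot_jac hε z v v
    rw [hz, dotProduct_zero, dot2 (pr v)] at e
    have hl : 0 < (2 / (1 + pr z ⬝ᵥ pr z)) ^ 2 := pow_pos (div_pos two_pos (den_pos _)) 2
    have he : Real.exp (z 2) ^ 2 ≠ 0 := (pow_pos (Real.exp_pos _) 2).ne'
    have e' := (mul_eq_zero.1 e.symm).resolve_left he
    have p0 : pr v 0 = v 0 := rfl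
    have p1 : pr v 1 = v 1 := rfl
    rw [p0, p1] at e'
    have n0 := mul_self_nonneg (v 0)
    have n1 := mul_self_nonneg (v 1)
    have n2 := mul_self_nonneg (v 2)
    have m01 := mul_nonneg hl.le (add_nonneg n0 n1)
    have z2 : v 2 * v 2 = 0 := by linarith
    have z01 : v 0 * v 0 + v 1 * v 1 = 0 :=
      (mul_eq_zero.1 (by linarith)).resolve_left hl.ne'
    exact hv (ext3 (mul_self_eq_zero.1 (by linarith)) (mul_self_eq_zero.1 (by linarith))
      (mul_self_eq_zero.1 z2))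

namespace PolarChAux

theorem unit_mem {x : E 3} (hx : x ≠ 0) : (nrm x)⁻¹ • x ∈ sph := by
  have h := nrm_pos hx
  rw [mem_sph_iff, nrm_smul, abs_of_pos (inv_pos.2 h), inv_mul_cancel₀ h.ne']

theorem polar_of_stereo {x : E 3} (hx : x ≠ 0) {ε : ℝ} {y : E 2}
    (h : ε • stereo y = (nrm x)⁻¹ • x) : polar ε (lift (Real.log (nrm x)) y) = x := by
  have h0 := nrm_pos hx
  rw [polar_lift, h, Real.exp_log h0, smul_smul, mul_inv_cancel₀ h0.ne', one_smul]

theorem exists_stereo_le {p : E 3} (hp : p ∈ sph) (h : p 2 ≤ 0) :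
    ∃ y, y ⬝ᵥ y ≤ 1 ∧ stereo y = p := by
  obtain ⟨y, hy⟩ := exists_stereo hp (by
    intro e
    have e2 : p 2 = 1 := by
      rw [e]
      rfl
    linarith)
  refine ⟨y, ?_, hy⟩
  rw [← hy, st2, div_le_iff₀ (den_pos y)] at h
  linarith

end PolarChAux

theorem exists_polar {x : E 3} (hx : x ≠ 0) : ∃ (ε : ℝ) (z : E 3), (ε = 1 ∨ ε = -1) ∧
    pr z ⬝ᵥ pr z ≤ 1 ∧ z 2 = Real.log (nrm x) ∧ polar ε z = x := by
  have hp := unit_mem hx
  rcases le_total (((nrm x)⁻¹ • x) 2) 0 with h | h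
  · obtain ⟨y, hy, e⟩ := exists_stereo_le hp h
    refine ⟨1, lift (Real.log (nrm x)) y, Or.inl rfl, by rw [pr_lift]; exact hy, rfl, ?_⟩
    exact polar_of_stereo hx (by rw [e, one_smul])
  · have hp' : -((nrm x)⁻¹ • x) ∈ sph := by
      show -((nrm x)⁻¹ • x) ⬝ᵥ -((nrm x)⁻¹ • x) = 1
      rw [neg_dotProduct_neg]
      exact hp
    obtain ⟨y, hy, e⟩ := exists_stereo_le hp' (by rw [Pi.neg_apply]; linarith)
    refine ⟨-1, lift (Real.log (nrm x)) y, Or.inr rfl, by rw [pr_lift]; exact hy, rfl, ?_⟩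
    exact polar_of_stereo hx (by rw [e, neg_one_smul, neg_neg])

theorem volume_compl_range_polar : volume (range (polar 1))ᶜ = 0 := by
  have h0 : volume {x : E 3 | x 0 = 0} = 0 := by
    rw [volume_pi]
    exact Measure.pi_hyperplane _ 0 0
  refine measure_mono_null ?_ h0
  intro x hx
  by_contra h
  have h' : x 0 ≠ 0 := h
  have hx0 : x ≠ 0 := fun e => h' (by rw [e]; rfl)
  obtain ⟨y, hy⟩ := exists_stereo (unit_mem hx0) (by
    intro e
    have e0 : ((nrm x)⁻¹ • x) 0 = 0 := by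
      rw [e]
      rfl
    rw [Pi.smul_apply, smul_eq_mul] at e0
    exact mul_ne_zero (inv_pos.2 (nrm_pos hx0)).ne' h' e0)
  exact hx ⟨_, polar_of_stereo hx0 (by rw [hy, one_smul])⟩

theorem pd_two_polar (ε : ℝ) {f : E 3 → ℝ} {z : E 3} (hf : DifferentiableAt ℝ f (polar ε z)) :
    pd 2 (fun w => f (polar ε w)) z = rad f (polar ε z) := by
  have e := jac_polar_mulVec ε z (Pi.single 2 1)
  have p0 : pr (Pi.single 2 1 : E 3) = 0 := ext2 (by simp [pr]) (by simp [pr])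
  rw [p0, Matrix.mulVec_zero, add_zero, Pi.single_eq_same, one_smul, ← polar,
    jac_mulVec (da_polar ε z)] at e
  have hc := (hf.hasFDerivAt.comp z (da_polar ε z).hasFDerivAt).fderiv
  show fderiv ℝ (f ∘ polar ε) z (Pi.single 2 1) = fderiv ℝ f (polar ε z) (polar ε z)
  rw [hc, ContinuousLinearMap.comp_apply, e]

theorem pull_polar_cyl {φ : E 3 → ℝ} (hφ : Hom0 φ) (N : E 3 → ℝ) {ε : ℝ} (hε : ε = 1 ∨ ε = -1)
    (z : E 3) :
    pull (polar ε) (cyl φ N) z = blk (conf (phs φ ε)) (fun w => N (polar ε w)) z := by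
  refine mat_ext fun v w => ?_
  have hφ' : φ (polar ε z) = φ (ε • stereo (pr z)) := by
    rw [polar_eq, hφ.hom _ _ (Real.exp_pos _)]
  have he := (Real.exp_pos (z 2)).ne'
  rw [pull_quad, cyl_quad φ N (polar_ne_zero hε z), jac_polar_dot hε, jac_polar_dot hε,
    jac_polar_dot_jac hε, nrm_polar hε, blk_quad, conf_quad, exp_phs, hφ']
  generalize (2 / (1 + pr z ⬝ᵥ pr z)) ^ 2 = L
  field_simp
  ring

theorem pull_polar_stretch (κ : ℝ → ℝ) (h : Met 3) {ε : ℝ} (hε : ε = 1 ∨ ε = -1) (z : E 3) :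
    pull (polar ε) (stretch κ h) z = resc κ (pull (polar ε) h) z := by
  refine mat_ext fun v w => ?_
  have l2 : lift (κ (z 2)) (pr z) 2 = κ (z 2) := rfl
  have hc : ε * Real.exp (κ (z 2)) = Real.exp (κ (z 2) - z 2) * (ε * Real.exp (z 2)) := by
    rw [mul_left_comm, ← Real.exp_add, sub_add_cancel]
  have hP : polar ε (lift (κ (z 2)) (pr z)) = Real.exp (κ (z 2) - z 2) • polar ε z := by
    rw [polar, polar, pr_lift, l2, hc, smul_smul]
  have hJ : ∀ u : E 3, jac (polar ε) (lift (κ (z 2)) (pr z)) *ᵥ u =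
      Real.exp (κ (z 2) - z 2) • (jac (polar ε) z *ᵥ u) := fun u => by
    rw [jac_polar_mulVec, jac_polar_mulVec, pr_lift, l2, hc, smul_smul]
  rw [resc, pull_quad, pull_quad, hP, hJ, hJ, stretch, nrm_polar hε, Real.log_exp]
  simp only [Matrix.smul_mulVec, Matrix.mulVec_smul, smul_dotProduct, dotProduct_smul,
    smul_eq_mul]
  ring

end Pool.Agent.P.MP_56a1cd_gt
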