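import Pool.Agent.P.MP_56a1cd_gt.Layer
import Pool.Agent.P.MP_56a1cd_gt.PolarCh

namespace Pool.Agent.P.MP_56a1cd_gt

open MeasureTheory Matrix Set Filter Topology
open scoped ContDiff ENNReal

variable {m n : ℕ}

/-! PLAN. `stretch_scal`: for `ε = ± 1` let `h' = pull (polar ε) h` on `W = {|z 2| < s₀}`, `ρ' = ρ ∘ polar ε`. On the
plane `z 2 = 0`, `h' = blk ..` (`pull_congr`, `pull_polar_cyl`); `hlink`, `meanCurv_pull`, `pd_two_polar` give the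
hypothesis of `layer` with `Q = {y ⬝ y ≤ 1}`, `d = s₀ / 2`. Transport with `exists_polar`, `scal_pull`,
`pull_polar_stretch`. -/

namespace ModSAux

theorem sm_kap {κ : ℝ → ℝ} (hκ : ContDiff ℝ ∞ κ) :
    Sm {x : E 3 | x ≠ 0} (fun x => κ (Real.log (nrm x))) :=
  hκ.comp_contDiffOn sm_log_nrm

theorem sm_fac {κ : ℝ → ℝ} (hκ : ContDiff ℝ ∞ κ) :
    Sm {x : E 3 | x ≠ 0} (fun x => Real.exp (κ (Real.log (nrm x)) - Real.log (nrm x))) :=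
  Real.contDiff_exp.comp_contDiffOn ((sm_kap hκ).sub sm_log_nrm)

theorem isOpen_dom {κ : ℝ → ℝ} (hκ : ContDiff ℝ ∞ κ) (s₀ : ℝ) :
    IsOpen {x : E 3 | x ≠ 0 ∧ |κ (Real.log (nrm x))| < s₀} := by
  have h1 : ContinuousOn (fun x : E 3 => |κ (Real.log (nrm x))|) {x : E 3 | x ≠ 0} :=
    (sm_kap hκ).continuousOn.abs
  exact h1.isOpen_inter_preimage isOpen_ne_zero isOpen_Iio

theorem log_nrm_fac (κ : ℝ → ℝ) {x : E 3} (hx : x ≠ 0) :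
    Real.log (nrm (Real.exp (κ (Real.log (nrm x)) - Real.log (nrm x)) • x)) =
      κ (Real.log (nrm x)) := by
  rw [nrm_smul, abs_of_pos (Real.exp_pos _),
    Real.log_mul (Real.exp_pos _).ne' (nrm_pos hx).ne', Real.log_exp]
  ring

theorem fac_mem (κ : ℝ → ℝ) {s₀ : ℝ} {x : E 3}
    (hx : x ∈ {x : E 3 | x ≠ 0 ∧ |κ (Real.log (nrm x))| < s₀}) :
    Real.exp (κ (Real.log (nrm x)) - Real.log (nrm x)) • x ∈ Sh (-s₀) s₀ := by
  obtain ⟨hx0, hx1⟩ := hx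
  rw [mem_Sh_iff, log_nrm_fac κ hx0]
  exact ⟨smul_ne_zero (Real.exp_pos _).ne' hx0, (abs_lt.mp hx1).1, (abs_lt.mp hx1).2⟩

theorem isOpen_slab (s₀ : ℝ) : IsOpen {z : E 3 | |z 2| < s₀} :=
  isOpen_lt (continuous_apply 2).abs continuous_const

theorem polar_maps {ε : ℝ} (hε : ε = 1 ∨ ε = -1) (s₀ : ℝ) :
    MapsTo (polar ε) {z : E 3 | |z 2| < s₀} (Sh (-s₀) s₀) := by
  intro z hz
  have hz' : |z 2| < s₀ := hz
  rw [mem_Sh_iff, nrm_polar hε, Real.log_exp]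
  exact ⟨polar_ne_zero hε z, (abs_lt.mp hz').1, (abs_lt.mp hz').2⟩

theorem isCompact_disc : IsCompact {y : E 2 | y ⬝ᵥ y ≤ 1} := by
  refine (isCompact_nrm_le (n := 2) 1).of_isClosed_subset ?_ ?_
  · exact isClosed_le (continuous_id.dotProduct continuous_id) continuous_const
  · intro y hy
    have hy' : y ⬝ᵥ y ≤ 1 := hy
    have h1 := nrm_sq y
    have h2 := nrm_nonneg y
    show nrm y ≤ 1
    nlinarith

theorem lift_two (t : ℝ) (y : E 2) : lift t y 2 = t := rfl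

theorem chart_bound {φ ρ : E 3 → ℝ} {h : Met 3} {s₀ : ℝ} (hφ : Hom0 φ) (hs : 0 < s₀)
    (hh : IsMet h (Sh (-s₀) s₀)) (hρ : Sm (Sh (-s₀) s₀) ρ)
    (h0 : ∀ x ∈ sph, h x = cyl φ (fun _ => 1) x ∧ ρ x = 0 ∧ 0 < rad ρ x ∧ meanCurv h ρ x ≤ 0)
    {C₀ : ℝ} (hC : 0 < C₀) {ε : ℝ} (hε : ε = 1 ∨ ε = -1) :
    ∃ C : ℝ, ∀ κ : ℝ → ℝ, ContDiff ℝ ∞ κ → ∀ z : E 3, pr z ⬝ᵥ pr z ≤ 1 →
      κ (z 2) ∈ Icc 0 (s₀ / 2) → |deriv κ (z 2)| ≤ C₀ → -C₀ ≤ deriv (deriv κ) (z 2) →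
      κ (z 2) * deriv (deriv κ) (z 2) ≤ C₀ → -C ≤ scal (resc κ (pull (polar ε) h)) z := by
  have hch : IsChart (polar ε) {z : E 3 | |z 2| < s₀} :=
    (isChart_polar hε).mono (isOpen_slab s₀) (subset_univ _)
  have hm := polar_maps hε s₀
  have hh' : IsMet (pull (polar ε) h) {z : E 3 | |z 2| < s₀} := hh.pull hch hm
  have hρ' : Sm {z : E 3 | |z 2| < s₀} (fun z => ρ (polar ε z)) := hch.sm_comp hm hρ
  have hsph : ∀ z : E 3, z 2 = 0 → polar ε z ∈ sph := by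
    intro z hz
    rw [mem_sph_iff, nrm_polar hε, hz, Real.exp_zero]
  have hpl : ∀ z ∈ {z : E 3 | |z 2| < s₀}, z 2 = 0 → ρ (polar ε z) = 0 ∧
      pull (polar ε) h z 0 2 = 0 ∧ pull (polar ε) h z 1 2 = 0 ∧ pull (polar ε) h z 2 2 = 1 := by
    intro z _ hz
    obtain ⟨e1, e2, -, -⟩ := h0 _ (hsph z hz)
    have e3 : pull (polar ε) h z = blk (conf (phs φ ε)) (fun _ => 1) z := by
      rw [pull_congr (Θ := polar ε) (g' := cyl φ (fun _ => 1)) (Filter.EventuallyEq.refl _ _) e1,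
        pull_polar_cyl hφ _ hε]
    rw [e3]
    refine ⟨e2, ?_, ?_, ?_⟩ <;> simp [blk]
  have hW : ∀ y ∈ {y : E 2 | y ⬝ᵥ y ≤ 1}, ∀ t ∈ Icc 0 (s₀ / 2),
      lift t y ∈ {z : E 3 | |z 2| < s₀} := by
    intro y _ t ht
    show |lift t y 2| < s₀
    rw [lift_two, abs_of_nonneg ht.1]
    linarith [ht.2]
  refine layer hh' isCompact_disc hW ?_ hC
  intro y hy
  have hz : lift 0 y ∈ {z : E 3 | |z 2| < s₀} := hW y hy 0 ⟨le_rfl, by linarith⟩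
  obtain ⟨-, -, e3, e4⟩ := h0 _ (hsph (lift 0 y) (lift_two 0 y))
  have hda : DifferentiableAt ℝ ρ (polar ε (lift 0 y)) := sm_da hh.opn hρ (hm hz)
  have hp : 0 < pd 2 (fun z => ρ (polar ε z)) (lift 0 y) := by
    rw [pd_two_polar ε hda]
    exact e3
  have hg : gam h ρ ρ (polar ε (lift 0 y)) ≠ 0 := by
    intro e
    rw [gam_eq_zero_iff (hh.pos _ (hm hz))] at e
    rw [rad, e] at e3
    simp at e3
  rw [hlink hh' hρ' hpl hz (lift_two 0 y) hp, meanCurv_pull hh hch hm hρ hz hg]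
  linarith

end ModSAux

open ModSAux

section
variable {φ ρ : E 3 → ℝ} {h : Met 3} {s₀ : ℝ}

theorem isMet_stretch (hh : IsMet h (Sh (-s₀) s₀)) {κ : ℝ → ℝ} (hκ : ContDiff ℝ ∞ κ) :
    IsMet (stretch κ h) {x | x ≠ 0 ∧ |κ (Real.log (nrm x))| < s₀} := by
  have hf : Sm {x : E 3 | x ≠ 0 ∧ |κ (Real.log (nrm x))| < s₀}
      (fun x => Real.exp (κ (Real.log (nrm x)) - Real.log (nrm x))) :=
    (sm_fac hκ).mono fun x hx => hx.1
  refine ⟨isOpen_dom hκ s₀, fun i j => ?_, fun x hx => ?_⟩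
  · have h1 : ContDiffOn ℝ ∞
        (fun x : E 3 => Real.exp (κ (Real.log (nrm x)) - Real.log (nrm x)) • x)
        {x : E 3 | x ≠ 0 ∧ |κ (Real.log (nrm x))| < s₀} := hf.smul contDiffOn_id
    have h2 := (hh.sm i j).comp h1 (fun x hx => fac_mem κ hx)
    exact ((hf.pow 2).mul h2).congr fun x _ => rfl
  · exact (hh.pos _ (fac_mem κ hx)).smul (pow_pos (Real.exp_pos _) 2)

theorem stretch_scal (hφ : Hom0 φ) (hs : 0 < s₀) (hh : IsMet h (Sh (-s₀) s₀))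
    (hρ : Sm (Sh (-s₀) s₀) ρ)
    (h0 : ∀ x ∈ sph, h x = cyl φ (fun _ => 1) x ∧ ρ x = 0 ∧ 0 < rad ρ x ∧ meanCurv h ρ x ≤ 0)
    {C₀ : ℝ} (hC : 0 < C₀) :
    ∃ C : ℝ, ∀ κ : ℝ → ℝ, ContDiff ℝ ∞ κ → ∀ x : E 3, x ≠ 0 →
      κ (Real.log (nrm x)) ∈ Icc 0 (s₀ / 2) → |deriv κ (Real.log (nrm x))| ≤ C₀ →
      -C₀ ≤ deriv (deriv κ) (Real.log (nrm x)) →
      κ (Real.log (nrm x)) * deriv (deriv κ) (Real.log (nrm x)) ≤ C₀ →
      -C ≤ scal (stretch κ h) x := by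
  obtain ⟨C₁, h1⟩ := chart_bound hφ hs hh hρ h0 hC (Or.inl rfl)
  obtain ⟨C₂, h2⟩ := chart_bound hφ hs hh hρ h0 hC (Or.inr rfl)
  refine ⟨max C₁ C₂, fun κ hκ x hx a1 a2 a3 a4 => ?_⟩
  obtain ⟨ε, z, hε, hz1, hz2, rfl⟩ := exists_polar hx
  have hst := isMet_stretch hh hκ
  have hop : IsOpen (univ ∩ polar ε ⁻¹' {x | x ≠ 0 ∧ |κ (Real.log (nrm x))| < s₀}) :=
    (isChart_polar hε).isOpen_preimage hst.opn
  have hch := (isChart_polar hε).mono hop inter_subset_left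
  have hz : z ∈ univ ∩ polar ε ⁻¹' {x | x ≠ 0 ∧ |κ (Real.log (nrm x))| < s₀} := by
    refine ⟨mem_univ _, hx, ?_⟩
    rw [abs_of_nonneg a1.1]
    linarith [a1.2]
  have e1 := scal_pull hst hch (fun w hw => hw.2) hz
  have e2 : pull (polar ε) (stretch κ h) = resc κ (pull (polar ε) h) :=
    funext fun w => pull_polar_stretch κ h hε w
  rw [← e1, e2]
  rw [← hz2] at a1 a2 a3 a4
  rcases hε with rfl | rfl
  · exact le_trans (neg_le_neg (le_max_left _ _)) (h1 κ hκ z hz1 a1 a2 a3 a4)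
  · exact le_trans (neg_le_neg (le_max_right _ _)) (h2 κ hκ z hz1 a1 a2 a3 a4)

end

end Pool.Agent.P.MP_56a1cd_gt
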