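import Pool.Agent.P.MP_56a1cd_gt.L2
import Pool.Agent.P.MP_593b7e_an.Compact

namespace Pool.Agent.P.MP_56a1cd_gt

open MeasureTheory Matrix Set Filter Topology
open scoped ContDiff ENNReal Convolution

variable {m n : ℕ}

namespace MolAux

open Pool.Agent.P.MP_593b7e_an (eLpNorm_integral_le eLpNorm_two_eq integral_sq_le_of_eLpNorm_le
  eLpNorm_le_of_tendsto)

theorem mol_conv (k : ℕ) (u : E n → ℝ) :
    mol k u = (bumpSeq n k).normed volume ⋆[ContinuousLinearMap.lsmul ℝ ℝ, volume] u := by
  funext x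
  rw [convolution_lsmul]
  rfl

theorem mol_swap (k : ℕ) (u : E n → ℝ) (x : E n) :
    mol k u x = ∫ t, (bumpSeq n k).normed volume (x - t) * u t := by
  rw [mol_conv, convolution_lsmul_swap]
  rfl

theorem locInt {u : E n → ℝ} (hu : MemLp u 2 volume) : LocallyIntegrable u volume :=
  hu.locallyIntegrable one_le_two

/-- The probability measure with density the normalised bump function. -/
noncomputable def bm (n k : ℕ) : Measure (E n) :=
  volume.withDensity (fun t => ENNReal.ofReal ((bumpSeq n k).normed volume t))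

theorem bm_prob (n k : ℕ) : IsProbabilityMeasure (bm n k) := by
  constructor
  rw [bm, withDensity_apply _ MeasurableSet.univ, Measure.restrict_univ,
    ← ofReal_integral_eq_lintegral_ofReal (bumpSeq n k).integrable_normed
      (Eventually.of_forall (bumpSeq n k).nonneg_normed), (bumpSeq n k).integral_normed,
    ENNReal.ofReal_one]

theorem mol_bm (k : ℕ) (u : E n → ℝ) (x : E n) : mol k u x = ∫ t, u (x - t) ∂(bm n k) := by
  rw [bm, integral_withDensity_eq_integral_toReal_smul
    ((bumpSeq n k).continuous_normed.measurable.ennreal_ofReal) (by simp), mol]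
  refine integral_congr_ae (Eventually.of_forall fun t => ?_)
  beta_reduce
  rw [ENNReal.toReal_ofReal ((bumpSeq n k).nonneg_normed t), smul_eq_mul]

theorem eLpNorm_mol_le (k : ℕ) {u : E n → ℝ} (hu : AEStronglyMeasurable u volume) :
    eLpNorm (mol k u) 2 volume ≤ eLpNorm u 2 volume := by
  have e : mol k u = fun x => ∫ t, u (x - t) ∂(bm n k) := funext (mol_bm k u)
  have := bm_prob n k
  rw [e]
  apply eLpNorm_integral_le volume (bm n k) (fun x t => u (x - t))
    (hu.comp_quasiMeasurePreserving (quasiMeasurePreserving_sub_of_right_invariant volume _))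
    one_le_two ENNReal.ofNat_ne_top
  exact Eventually.of_forall fun t =>
    (eLpNorm_comp_measurePreserving (g := u) hu (measurePreserving_sub_right volume t)).le

theorem ae_tendsto {u : E n → ℝ} (hu : MemLp u 2 volume) :
    ∀ᵐ x, Tendsto (fun k => mol k u x) atTop (𝓝 (u x)) := by
  have h := ContDiffBump.ae_convolution_tendsto_right_of_locallyIntegrable
    (φ := fun k => bumpSeq n k) (l := atTop) (K := 2) (μ := volume)
    tendsto_one_div_add_atTop_nhds_zero_nat
    (Eventually.of_forall fun k => le_of_eq (by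
      simp only [bumpSeq]
      field_simp)) (locInt hu)
  filter_upwards [h] with x hx
  refine hx.congr fun k => ?_
  rw [mol_conv]

theorem eLp_eq {X : Type*} [MeasurableSpace X] {μ : Measure X} {f : X → ℝ} (hf : MemLp f 2 μ) :
    eLpNorm f 2 μ = ENNReal.ofReal (√(∫ x, f x ^ 2 ∂μ)) := by
  rw [eLpNorm_two_eq hf]
  congr 2
  refine integral_congr_ae (Eventually.of_forall fun x => ?_)
  beta_reduce
  rw [Real.norm_eq_abs, sq_abs]

theorem sq_le_of {X : Type*} [MeasurableSpace X] {μ : Measure X} {f : X → ℝ}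
    (hf : AEStronglyMeasurable f μ) {c : ℝ} (hc : 0 ≤ c) (h : eLpNorm f 2 μ ≤ ENNReal.ofReal c) :
    MemLp f 2 μ ∧ ∫ x, f x ^ 2 ∂μ ≤ c ^ 2 := by
  obtain ⟨h1, h2⟩ := integral_sq_le_of_eLpNorm_le hf hc h
  refine ⟨h1, le_of_eq_of_le ?_ h2⟩
  refine integral_congr_ae (Eventually.of_forall fun x => ?_)
  beta_reduce
  rw [Real.norm_eq_abs, sq_abs]

/-- Almost everywhere convergence without gain of norm gives strong convergence. -/
theorem riesz {X : Type*} [MeasurableSpace X] {μ : Measure X} {f : ℕ → X → ℝ} {u : X → ℝ}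
    (hf : ∀ k, MemLp (f k) 2 μ) (hu : MemLp u 2 μ)
    (hl : ∀ᵐ x ∂μ, Tendsto (fun k => f k x) atTop (𝓝 (u x)))
    (hb : ∀ k, ∫ x, f k x ^ 2 ∂μ ≤ ∫ x, u x ^ 2 ∂μ) :
    Tendsto (fun k => ∫ x, (f k x - u x) ^ 2 ∂μ) atTop (𝓝 0) := by
  have hs : ∀ k, Integrable (fun x => (f k x + u x) ^ 2) μ := fun k =>
    ((hf k).add hu).integrable_sq
  have hu2 : Integrable (fun x => 4 * u x ^ 2) μ := hu.integrable_sq.const_mul 4
  have e : ∀ k, ∫ x, (f k x - u x) ^ 2 ∂μ =
      2 * ∫ x, f k x ^ 2 ∂μ + 2 * ∫ x, u x ^ 2 ∂μ - ∫ x, (f k x + u x) ^ 2 ∂μ := by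
    intro k
    have i0 : Integrable (fun x => 2 * f k x ^ 2 + 2 * u x ^ 2) μ :=
      ((hf k).integrable_sq.const_mul 2).add (hu.integrable_sq.const_mul 2)
    rw [← integral_const_mul, ← integral_const_mul, ← integral_add
      ((hf k).integrable_sq.const_mul 2) (hu.integrable_sq.const_mul 2), ← integral_sub i0 (hs k)]
    refine integral_congr_ae (Eventually.of_forall fun x => ?_)
    beta_reduce
    ring
  have fat : ENNReal.ofReal (∫ x, 4 * u x ^ 2 ∂μ) ≤
      liminf (fun k => ENNReal.ofReal (∫ x, (f k x + u x) ^ 2 ∂μ)) atTop := by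
    have e1 : (fun k => ENNReal.ofReal (∫ x, (f k x + u x) ^ 2 ∂μ)) =
        fun k => ∫⁻ x, ENNReal.ofReal ((f k x + u x) ^ 2) ∂μ := funext fun k =>
      ofReal_integral_eq_lintegral_ofReal (hs k) (Eventually.of_forall fun x => sq_nonneg _)
    rw [e1, ofReal_integral_eq_lintegral_ofReal hu2
      (Eventually.of_forall fun x => by positivity)]
    refine le_trans (le_of_eq ?_)
      (lintegral_liminf_le' fun k => (hs k).aemeasurable.ennreal_ofReal)
    refine lintegral_congr_ae ?_
    filter_upwards [hl] with x hx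
    have h1 := ENNReal.tendsto_ofReal ((hx.add_const (u x)).pow 2)
    rw [h1.liminf_eq]
    congr 1
    ring
  rw [integral_const_mul] at fat
  refine tendsto_order.2 ⟨fun a ha => Eventually.of_forall fun k =>
    ha.trans_le (integral_nonneg fun x => sq_nonneg _), fun a ha => ?_⟩
  by_cases hc : 4 * ∫ x, u x ^ 2 ∂μ - a < 0
  · refine Eventually.of_forall fun k => ?_
    have h0 : 0 ≤ ∫ x, (f k x + u x) ^ 2 ∂μ := integral_nonneg fun x => sq_nonneg _
    have := hb k
    rw [e]
    linarith
  · have h1 : ENNReal.ofReal (4 * ∫ x, u x ^ 2 ∂μ - a) < ENNReal.ofReal (4 * ∫ x, u x ^ 2 ∂μ) :=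
      (ENNReal.ofReal_lt_ofReal_iff_of_nonneg (not_lt.1 hc)).2 (by linarith)
    filter_upwards [eventually_lt_of_lt_liminf (h1.trans_le fat)] with k hk
    have h2 := (ENNReal.ofReal_lt_ofReal_iff_of_nonneg (not_lt.1 hc)).1 hk
    have := hb k
    rw [e]
    linarith

theorem translate_smooth {w : E n → ℝ} (hw : ContDiff ℝ ∞ w) (i : Fin n) (t : ℝ) :
    eLpNorm (fun x => w (x + Pi.single i t) - w x) 2 volume ≤
      ENNReal.ofReal |t| * eLpNorm (pd i w) 2 volume := by
  have : IsProbabilityMeasure (volume.restrict (Ioc (0 : ℝ) 1)) := ⟨by simp⟩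
  have hc : Continuous (pd i w) := (contDiff_pd hw i).continuous
  have hy : (Pi.single i t : E n) = t • (Pi.single i 1 : E n) := by
    rw [← Pi.single_smul, smul_eq_mul, mul_one]
  have key : ∀ x, w (x + Pi.single i t) - w x =
      ∫ s, t * pd i w (x + s • (Pi.single i t : E n)) ∂(volume.restrict (Ioc (0 : ℝ) 1)) := by
    intro x
    rw [← intervalIntegral.integral_of_le zero_le_one]
    have hd : ∀ s ∈ uIcc (0 : ℝ) 1, HasDerivAt (fun s : ℝ => w (x + s • (Pi.single i t : E n)))
        (t * pd i w (x + s • (Pi.single i t : E n))) s := by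
      intro s _
      have h1 : HasDerivAt (fun s : ℝ => x + s • (Pi.single i t : E n)) (Pi.single i t) s := by
        simpa using ((hasDerivAt_id s).smul_const (Pi.single i t : E n)).const_add x
      have h2 := ((hw.differentiable (by simp) _).hasFDerivAt.comp_hasDerivAt s h1)
      have h3 : fderiv ℝ w (x + s • (Pi.single i t : E n)) (Pi.single i t) =
          t * pd i w (x + s • (Pi.single i t : E n)) := by
        rw [pd, ← smul_eq_mul, ← map_smul, ← hy]
      rw [h3] at h2
      exact h2
    rw [intervalIntegral.integral_eq_sub_of_hasDerivAt hd]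
    · simp
    · apply Continuous.intervalIntegrable
      fun_prop
  rw [funext key]
  apply eLpNorm_integral_le volume _ (fun x s => t * pd i w (x + s • (Pi.single i t : E n))) _
    one_le_two ENNReal.ofNat_ne_top
  · refine Eventually.of_forall fun s => ?_
    rw [← eLpNorm_comp_measurePreserving (g := pd i w) hc.aestronglyMeasurable
      (measurePreserving_add_right volume (s • (Pi.single i t : E n)))]
    exact eLpNorm_le_mul_eLpNorm_of_ae_le_mul (Eventually.of_forall fun x => by
      rw [norm_mul, Real.norm_eq_abs]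
      rfl) 2
  · apply Continuous.aestronglyMeasurable
    unfold Function.uncurry
    fun_prop

end MolAux

theorem contDiff_mol (k : ℕ) {u : E n → ℝ} (hu : MemLp u 2 volume) : ContDiff ℝ ∞ (mol k u) := by
  rw [MolAux.mol_conv]
  exact (bumpSeq n k).hasCompactSupport_normed.contDiff_convolution_left _
    (bumpSeq n k).contDiff_normed (MolAux.locInt hu)

theorem memLp_mol (k : ℕ) {u : E n → ℝ} (hu : MemLp u 2 volume) :
    MemLp (mol k u) 2 volume ∧ ∫ x, mol k u x ^ 2 ≤ ∫ x, u x ^ 2 := by
  have h := MolAux.sq_le_of (contDiff_mol k hu).continuous.aestronglyMeasurable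
    (Real.sqrt_nonneg _) ((MolAux.eLpNorm_mol_le k hu.1).trans_eq (MolAux.eLp_eq hu))
  rw [Real.sq_sqrt (integral_nonneg fun x => sq_nonneg _)] at h
  exact h

theorem pd_mol (k : ℕ) {u v : E n → ℝ} (hu : MemLp u 2 volume) (hv : MemLp v 2 volume) {i : Fin n}
    (h : WD univ i u v) : pd i (mol k u) = mol k v := by
  funext x
  have hf := MolAux.locInt hu
  set η := (bumpSeq n k).normed volume with hη
  have hηs : ContDiff ℝ ∞ η := (bumpSeq n k).contDiff_normed
  have hη1 : ContDiff ℝ 1 η := (bumpSeq n k).contDiff_normed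
  have hηc : HasCompactSupport η := (bumpSeq n k).hasCompactSupport_normed
  have h1 := hηc.hasFDerivAt_convolution_left (ContinuousLinearMap.lsmul ℝ ℝ) hη1 hf x
  have hφs : ContDiff ℝ ∞ (fun t => η (x - t)) := hηs.comp (contDiff_const.sub contDiff_id)
  have hφc : HasCompactSupport (fun t => η (x - t)) :=
    hηc.comp_homeomorph (Homeomorph.subLeft x)
  have hgr : ∀ t, pd i (fun t => η (x - t)) t = -pd i η (x - t) := by
    intro t
    have : HasFDerivAt (fun t => η (x - t))
        ((fderiv ℝ η (x - t)).comp (-ContinuousLinearMap.id ℝ (E n))) t :=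
      ((hη1.differentiable one_ne_zero (x - t)).hasFDerivAt).comp t
        ((hasFDerivAt_id t).const_sub x)
    rw [pd, pd, this.fderiv]
    simp
  have h2 := h _ ⟨hφs, hφc, subset_univ _⟩
  have h3 : ∫ t, u t * pd i (fun t => η (x - t)) t = -∫ t, pd i η (x - t) * u t := by
    rw [← integral_neg]
    refine integral_congr_ae (Eventually.of_forall fun t => ?_)
    beta_reduce
    rw [hgr]
    ring
  have h4 : ∫ t, v t * η (x - t) = ∫ t, η (x - t) * v t :=
    integral_congr_ae (Eventually.of_forall fun t => mul_comm _ _)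
  rw [h3, h4, neg_inj] at h2
  rw [MolAux.mol_swap k v, ← hη, ← h2, pd, MolAux.mol_conv, ← hη, h1.fderiv, convolution_eq_swap,
    ContinuousLinearMap.integral_apply]
  · refine integral_congr_ae (Eventually.of_forall fun t => ?_)
    simp [pd]
  · have := (hηc.fderiv ℝ).convolutionExists_left
      ((ContinuousLinearMap.lsmul ℝ ℝ : ℝ →L[ℝ] ℝ →L[ℝ] ℝ).precompL (E n))
      (hη1.continuous_fderiv one_ne_zero) hf x
    exact this.integrable_swap

theorem tendsto_mol {u : E n → ℝ} (hu : MemLp u 2 volume) :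
    Tendsto (fun k => ∫ x, (mol k u x - u x) ^ 2) atTop (𝓝 0) :=
  MolAux.riesz (fun k => (memLp_mol k hu).1) hu (MolAux.ae_tendsto hu)
    fun k => (memLp_mol k hu).2

theorem mol_eq_zero (k : ℕ) {u : E n → ℝ} {c : E n} {R : ℝ}
    (h0 : ∀ x, x ∉ Metric.closedBall c R → u x = 0) {x : E n}
    (hx : x ∉ Metric.closedBall c (R + 1)) : mol k u x = 0 := by
  refine integral_eq_zero_of_ae (Eventually.of_forall fun t => ?_)
  by_cases ht : (bumpSeq n k).normed volume t = 0
  · simp [ht]
  · have h1 : t ∈ Function.support ((bumpSeq n k).normed volume) := ht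
    rw [(bumpSeq n k).support_normed_eq, mem_ball_zero_iff] at h1
    have h2 : (bumpSeq n k).rOut ≤ 1 := by
      change 1 / ((k : ℝ) + 1) ≤ 1
      rw [div_le_one (by positivity)]
      have : (0 : ℝ) ≤ k := Nat.cast_nonneg k
      linarith
    have h3 : u (x - t) = 0 := by
      refine h0 _ fun hm => hx ?_
      rw [Metric.mem_closedBall, dist_eq_norm] at hm ⊢
      have h4 : x - c = (x - t - c) + t := by abel
      rw [h4]
      have := norm_add_le (x - t - c) t
      linarith
    simp [h3]

/-- Test functions are dense in `H¹`. -/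
theorem exists_test_approx {ψ : E n → ℝ} {r : Fin n → E n → ℝ} (hψ : MemLp ψ 2 volume)
    (hr : ∀ i, MemLp (r i) 2 volume) (h : ∀ i, WD univ i ψ (r i)) :
    ∃ φ : ℕ → E n → ℝ, (∀ k, Test univ (φ k)) ∧
      Tendsto (fun k => ∫ x, (φ k x - ψ x) ^ 2) atTop (𝓝 0) ∧
      ∀ i, Tendsto (fun k => ∫ x, (pd i (φ k) x - r i x) ^ 2) atTop (𝓝 0) := by
  let χ : ContDiffBump (0 : E n) := ⟨1, 2, one_pos, one_lt_two⟩
  have hχ : ContDiff ℝ ∞ χ := χ.contDiff
  let c : ℕ → ℝ := fun k => 1 / ((k : ℝ) + 1)
  have hcpos : ∀ k, 0 < c k := fun k => by positivity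
  have hc0 : Tendsto c atTop (𝓝 0) := tendsto_one_div_add_atTop_nhds_zero_nat
  have hsm : ∀ k, ContDiff ℝ ∞ (fun x => χ (c k • x)) := fun k =>
    hχ.comp (contDiff_const_smul _)
  have hcs : ∀ k, HasCompactSupport (fun x => χ (c k • x)) := fun k =>
    χ.hasCompactSupport.comp_homeomorph (Homeomorph.smulOfNeZero (c k) (hcpos k).ne')
  have hlim : ∀ x : E n, Tendsto (fun k => χ (c k • x)) atTop (𝓝 1) := by
    intro x
    have h1 : Tendsto (fun k => c k • x) atTop (𝓝 0) := by simpa using hc0.smul_const x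
    have h2 := (χ.continuous.tendsto 0).comp h1
    have h3 : χ 0 = 1 := χ.one_of_mem_closedBall (by simp [χ])
    rw [h3] at h2
    exact h2
  have hmem : ∀ {v : E n → ℝ}, MemLp v 2 volume → ∀ k,
      MemLp (fun x => χ (c k • x) * mol k v x) 2 volume := fun hv k =>
    ((hsm k).mul (contDiff_mol k hv)).continuous.memLp_of_hasCompactSupport (hcs k).mul_right
  have main : ∀ {v : E n → ℝ}, MemLp v 2 volume →
      Tendsto (fun k => ∫ x, (χ (c k • x) * mol k v x - v x) ^ 2) atTop (𝓝 0) := by
    intro v hv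
    refine MolAux.riesz (f := fun k x => χ (c k • x) * mol k v x) (hmem hv) hv ?_ fun k => ?_
    · filter_upwards [MolAux.ae_tendsto hv] with x hx
      simpa using (hlim x).mul hx
    · refine le_trans (integral_mono (hmem hv k).integrable_sq (memLp_mol k hv).1.integrable_sq
        fun x => ?_) (memLp_mol k hv).2
      have h1 : 0 ≤ χ (c k • x) := χ.nonneg
      have h2 : χ (c k • x) ≤ 1 := χ.le_one
      have h3 : χ (c k • x) ^ 2 ≤ 1 := by nlinarith
      beta_reduce
      rw [mul_pow]
      exact mul_le_of_le_one_left (sq_nonneg _) h3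
  refine ⟨fun k x => χ (c k • x) * mol k ψ x,
    fun k => ⟨(hsm k).mul (contDiff_mol k hψ), (hcs k).mul_right, subset_univ _⟩, main hψ,
    fun i => ?_⟩
  have hT : Test univ (pd i χ) := Test.pd ⟨hχ, χ.hasCompactSupport, subset_univ _⟩ i
  obtain ⟨C, hC⟩ := hT.cpt.exists_bound_of_continuous hT.sm.continuous
  have hpd : ∀ k x, pd i (fun x => χ (c k • x) * mol k ψ x) x =
      c k * pd i χ (c k • x) * mol k ψ x + χ (c k • x) * mol k (r i) x := by
    intro k x
    rw [pd_mul ((hsm k).differentiable (by simp) x)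
      ((contDiff_mol k hψ).differentiable (by simp) x), pd_mol k hψ (hr i) (h i)]
    have d1 : HasFDerivAt (fun x => χ (c k • x))
        ((fderiv ℝ χ (c k • x)).comp (c k • ContinuousLinearMap.id ℝ (E n))) x :=
      HasFDerivAt.comp (f := fun x => c k • x) x (hχ.differentiable (by simp) _).hasFDerivAt
        ((hasFDerivAt_id x).const_smul (c k))
    have d2 : pd i (fun x => χ (c k • x)) x = c k * pd i χ (c k • x) := by
      rw [pd, pd, d1.fderiv]
      simp
    rw [d2]
  have hup : Tendsto (fun k => 2 * ((c k * C) ^ 2 * ∫ x, ψ x ^ 2) +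
      2 * ∫ x, (χ (c k • x) * mol k (r i) x - r i x) ^ 2) atTop (𝓝 0) := by
    have h1 := ((((hc0.mul_const C).pow 2).mul_const (∫ x, ψ x ^ 2)).const_mul 2).add
      ((main (hr i)).const_mul 2)
    simpa using h1
  refine squeeze_zero (fun k => integral_nonneg fun x => sq_nonneg _) (fun k => ?_) hup
  have i1 : Integrable (fun x => 2 * ((c k * C) ^ 2 * mol k ψ x ^ 2)) volume :=
    ((memLp_mol k hψ).1.integrable_sq.const_mul _).const_mul 2
  have i2 : Integrable (fun x => 2 * (χ (c k • x) * mol k (r i) x - r i x) ^ 2) volume :=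
    ((hmem (hr i) k).sub (hr i)).integrable_sq.const_mul 2
  refine le_trans (integral_mono_of_nonneg (Eventually.of_forall fun x => sq_nonneg _) (i1.add i2)
    (Eventually.of_forall fun x => ?_)) ?_
  · simp only [Pi.add_apply]
    rw [hpd]
    have h1 : pd i χ (c k • x) ^ 2 ≤ C ^ 2 := by
      have := hC (c k • x)
      rw [Real.norm_eq_abs] at this
      exact sq_le_sq' (abs_le.1 this).1 (abs_le.1 this).2
    have h2 : (c k * pd i χ (c k • x) * mol k ψ x) ^ 2 ≤ (c k * C) ^ 2 * mol k ψ x ^ 2 := by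
      rw [mul_pow, mul_pow, mul_pow]
      gcongr
    nlinarith [sq_nonneg (c k * pd i χ (c k • x) * mol k ψ x -
      (χ (c k • x) * mol k (r i) x - r i x))]
  · rw [integral_add' i1 i2, integral_const_mul, integral_const_mul, integral_const_mul]
    have := (memLp_mol k hψ).2
    gcongr

theorem translate_le {w r : E n → ℝ} (hw : MemLp w 2 volume) (hr : MemLp r 2 volume) {i : Fin n}
    (h : WD univ i w r) (t : ℝ) :
    ∫ x, (w (x + Pi.single i t) - w x) ^ 2 ≤ t ^ 2 * ∫ x, r x ^ 2 := by
  have hq := (measurePreserving_add_right (volume : Measure (E n))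
    (Pi.single i t)).quasiMeasurePreserving
  have h1 : eLpNorm (fun x => w (x + Pi.single i t) - w x) 2 volume ≤
      ENNReal.ofReal |t| * eLpNorm r 2 volume := by
    apply Pool.Agent.P.MP_593b7e_an.eLpNorm_le_of_tendsto
      (f := fun k x => mol k w (x + Pi.single i t) - mol k w x)
      (b := fun _ => ENNReal.ofReal |t| * eLpNorm r 2 volume) _ _ _ tendsto_const_nhds
    · intro k
      have := (contDiff_mol k hw).continuous
      apply Continuous.aestronglyMeasurable
      fun_prop
    · have h1 := MolAux.ae_tendsto hw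
      filter_upwards [h1, hq.ae h1] with x a b
      exact b.sub a
    · intro k
      refine (MolAux.translate_smooth (contDiff_mol k hw) i t).trans ?_
      rw [pd_mol k hw hr h]
      gcongr
      exact MolAux.eLpNorm_mol_le k hr.1
  rw [MolAux.eLp_eq hr, ← ENNReal.ofReal_mul (abs_nonneg t)] at h1
  have h2 := (MolAux.sq_le_of ((hw.1.comp_quasiMeasurePreserving hq).sub hw.1)
    (by positivity) h1).2
  rw [mul_pow, sq_abs, Real.sq_sqrt (integral_nonneg fun x => sq_nonneg _)] at h2
  exact h2

end Pool.Agent.P.MP_56a1cd_gt
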