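import Pool.Agent.P.MP_56a1cd_gt.Green

namespace Pool.Agent.P.MP_56a1cd_gt

open MeasureTheory Matrix Set Filter Topology
open scoped ContDiff ENNReal

variable {m n : ℕ}

/-! The neck: energy and flux identities. -/

namespace Neck

variable {φ ξ : E 3 → ℝ} {ε s : ℝ} (K : Neck φ ξ ε s)

/-- The metric of the neck. -/
noncomputable def met : Met 3 := cyl φ (lapse K.b K.L ξ)

/-- The energy in the neck. -/
noncomputable def en (G : E 3 → ℝ) : ℝ :=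
  ∫ x in Sh K.C₁.a K.C₀.a,
    gam K.met (fun y => G (K.C₀.Φ y)) (fun y => G (K.C₀.Φ y)) x * vol K.met x

/-- The curvature term in the neck. -/
noncomputable def gain (T : ℝ) (G : E 3 → ℝ) : ℝ :=
  ∫ x in Sh K.C₁.a K.C₀.a, Psi T (G (K.C₀.Φ x)) * (scal K.met x / 2) *
    √(gam K.met (fun y => G (K.C₀.Φ y)) (fun y => G (K.C₀.Φ y)) x) * vol K.met x

theorem Shc_subset : Shc K.C₁.a K.C₀.a ⊆ Sh (K.C₁.a - K.C₁.h) (K.C₀.a + K.C₀.h) := by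
  intro x hx
  have h1 := K.C₁.h_pos
  have h0 := K.C₀.h_pos
  exact ⟨lt_of_lt_of_le (Real.exp_lt_exp.2 (by linarith)) hx.1,
    lt_of_le_of_lt hx.2 (Real.exp_lt_exp.2 (by linarith))⟩

theorem sm_comp {G : E 3 → ℝ} (hG : Sm K.C₁.Ω G) :
    Sm (Sh (K.C₁.a - K.C₁.h) (K.C₀.a + K.C₀.h)) (fun y => G (K.C₀.Φ y)) := K.chart.sm_comp K.maps hG

private theorem hmet : IsMet K.C₀.g K.C₁.Ω := K.g_eq ▸ K.C₁.met'

private theorem Sh_sub : Sh K.C₁.a K.C₀.a ⊆ Shc K.C₁.a K.C₀.a := fun _ hx => ⟨hx.1.le, hx.2.le⟩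

private theorem ray_mem {p : E 3} (hp : p ∈ sph) {t : ℝ} (ht : t ∈ Icc K.C₁.a K.C₀.a) :
    Real.exp t • p ∈ Shc K.C₁.a K.C₀.a := by
  constructor <;> rw [nrm_exp_smul t hp]
  · exact Real.exp_le_exp.2 ht.1
  · exact Real.exp_le_exp.2 ht.2

private theorem cont_ray {w : E 3 → ℝ}
    (hw : Sm (Sh (K.C₁.a - K.C₁.h) (K.C₀.a + K.C₀.h)) w) {p : E 3} (hp : p ∈ sph) :
    ContinuousOn (fun τ => w (Real.exp τ • p)) (Icc K.C₁.a K.C₀.a) :=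
  hw.continuousOn.comp (f := fun τ => Real.exp τ • p)
    (Real.continuous_exp.smul continuous_const).continuousOn
    (fun _ ht => K.Shc_subset (K.ray_mem hp ht))

private theorem lapse_ray (hξ : Hom0 ξ) {p : E 3} (hp : p ∈ sph) (t : ℝ) :
    lapse K.b K.L ξ (Real.exp t • p) = (1 - K.b t) + K.b t * (K.L * ξ p) := by
  rw [lapse, nrm_exp_smul t hp, Real.log_exp, hξ.hom p _ (Real.exp_pos t), mul_assoc]

private theorem lapse_facts (hφ : Hom0 φ) (hξ : Hom0 ξ) (hξ0 : ∀ x, x ≠ 0 → 0 < ξ x) :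
    Sm (Sh (K.C₁.a - K.C₁.h) (K.C₀.a + K.C₀.h)) (lapse K.b K.L ξ) ∧
      (∀ x ∈ Sh (K.C₁.a - K.C₁.h) (K.C₀.a + K.C₀.h), 0 < lapse K.b K.L ξ x) ∧
      IsMet K.met (Sh (K.C₁.a - K.C₁.h) (K.C₀.a + K.C₀.h)) := by
  obtain ⟨h1, h2, h3⟩ := isMet_lapse hφ hξ hξ0 K.b_sm K.b_mem K.L_pos
  exact ⟨h1.mono fun _ hx => ne_zero_of_mem_Sh hx, fun x hx => h2 x (ne_zero_of_mem_Sh hx),
    h3.mono (isOpen_Sh _ _) fun _ hx => ne_zero_of_mem_Sh hx⟩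

theorem gam_Φ {G : E 3 → ℝ} (hG : Sm K.C₁.Ω G) {x : E 3}
    (hx : x ∈ Sh (K.C₁.a - K.C₁.h) (K.C₀.a + K.C₀.h)) :
    gam K.met (fun y => G (K.C₀.Φ y)) (fun y => G (K.C₀.Φ y)) x = gam K.C₀.g G G (K.C₀.Φ x) ∧
      lap K.met (fun y => G (K.C₀.Φ y)) x = lap K.C₀.g G (K.C₀.Φ x) ∧
      scal K.met x = scal K.C₀.g (K.C₀.Φ x) := by
  have e : K.met =ᶠ[𝓝 x] pull K.C₀.Φ K.C₀.g :=
    Filter.eventually_of_mem ((isOpen_Sh _ _).mem_nhds hx) fun y hy => (K.cylΦ y hy).symm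
  refine ⟨?_, ?_, ?_⟩
  · rw [gam_congr e.eq_of_nhds EventuallyEq.rfl EventuallyEq.rfl]
    exact gam_pull K.hmet K.chart K.maps hG hG hx
  · rw [lap_congr e EventuallyEq.rfl]
    exact lap_pull K.hmet K.chart K.maps hG hx
  · rw [scal_congr e]
    exact scal_pull K.hmet K.chart K.maps hx

theorem split {f : E 3 → ℝ} (hf : IntegrableOn (fun x => f x * vol K.C₀.g x) K.C₁.M) :
    IntegrableOn (fun x => f x * vol K.C₀.g x) K.C₀.M ∧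
      ∫ x in K.C₁.M, f x * vol K.C₀.g x = (∫ x in K.C₀.M, f x * vol K.C₀.g x) +
        ∫ x in Sh K.C₁.a K.C₀.a, f (K.C₀.Φ x) * vol K.met x := by
  have hA : Sh K.C₁.a K.C₀.a ⊆ Sh (K.C₁.a - K.C₁.h) (K.C₀.a + K.C₀.h) :=
    K.Sh_sub.trans K.Shc_subset
  have hm : MeasurableSet (Sh K.C₁.a K.C₀.a) := (isOpen_Sh _ _).measurableSet
  have h0 : IntegrableOn (fun x => f x * vol K.C₀.g x) K.C₀.M :=
    hf.mono_set (by rw [K.M_eq]; exact subset_union_left)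
  have h1 : IntegrableOn (fun x => f x * vol K.C₀.g x) (K.C₀.Φ '' Sh K.C₁.a K.C₀.a) :=
    hf.mono_set (by rw [K.M_eq]; exact (image_mono K.Sh_sub).trans subset_union_right)
  have h2 : (K.C₀.Φ '' Shc K.C₁.a K.C₀.a : Set (E 3)) =ᵐ[volume]
      (K.C₀.Φ '' Sh K.C₁.a K.C₀.a : Set (E 3)) := by
    refine ae_eq_set.2 ⟨?_, ?_⟩
    · refine measure_mono_null ?_ (K.chart.volume_image_null
        (A := Shc K.C₁.a K.C₀.a \ Sh K.C₁.a K.C₀.a) (sdiff_subset.trans K.Shc_subset)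
        (ae_eq_set.1 (Shc_ae_eq _ _)).1)
      rintro _ ⟨⟨x, hx, rfl⟩, hx'⟩
      exact ⟨x, ⟨hx, fun h => hx' ⟨x, h, rfl⟩⟩, rfl⟩
    · rw [sdiff_eq_empty.2 (image_mono K.Sh_sub), measure_empty]
  refine ⟨h0, ?_⟩
  rw [K.M_eq, setIntegral_congr_set (ae_eq_set_union (ae_eq_refl _) h2),
    setIntegral_union K.disj (K.chart.measurableSet_image hm hA) h0 h1,
    K.chart.integral _ hm hA]
  congr 1
  refine setIntegral_congr_fun hm fun x hx => ?_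
  simp only [vol, met, K.cylΦ x (hA hx)]

theorem thickness (hξ : Hom0 ξ) {p : E 3} (hp : p ∈ sph) :
    ∫ t in K.C₁.a..K.C₀.a, lapse K.b K.L ξ (Real.exp t • p) ≤ ε * ξ p + s := by
  have hb : IntervalIntegrable K.b volume K.C₁.a K.C₀.a :=
    K.b_sm.continuous.intervalIntegrable _ _
  have h1 : 0 ≤ ∫ t in K.C₁.a..K.C₀.a, K.b t :=
    intervalIntegral.integral_nonneg K.lt.le fun t _ => (K.b_mem t).1
  simp only [K.lapse_ray hξ hp]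
  rw [intervalIntegral.integral_add (intervalIntegrable_const.sub hb) (hb.mul_const _),
    intervalIntegral.integral_sub intervalIntegrable_const hb, intervalIntegral.integral_const,
    intervalIntegral.integral_mul_const, smul_eq_mul]
  have h2 := K.thick
  have h4 := K.short
  have h3 : (∫ t in K.C₁.a..K.C₀.a, K.b t) * (K.L * ξ p) = ε * ξ p := by
    linear_combination ξ p * h2
  linarith

theorem flux (hφ : Hom0 φ) (hξ : Hom0 ξ) (hξ0 : ∀ x, x ≠ 0 → 0 < ξ x) (P₁ : Pot K.C₁) :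
    ∫ p, K.C₀.fl P₁.G p ∂aM φ = 4 * Real.pi := by
  obtain ⟨h1, h2, _⟩ := K.lapse_facts hφ hξ hξ0
  have h := green_sh (f := fun _ => 1) hφ (isOpen_Sh _ _) (fun _ hx => ne_zero_of_mem_Sh hx) h1 h2
    contDiffOn_const (K.sm_comp P₁.sm) K.lt.le K.Shc_subset
  have h3 : ∫ x in Sh K.C₁.a K.C₀.a, (gam (cyl φ (lapse K.b K.L ξ)) (fun _ => 1)
      (fun y => P₁.G (K.C₀.Φ y)) x + 1 * lap (cyl φ (lapse K.b K.L ξ))
      (fun y => P₁.G (K.C₀.Φ y)) x) * vol (cyl φ (lapse K.b K.L ξ)) x = 0 := by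
    refine setIntegral_eq_zero_of_forall_eq_zero fun x hx => ?_
    have hx' := K.Shc_subset (K.Sh_sub hx)
    have h4 : lap (cyl φ (lapse K.b K.L ξ)) (fun y => P₁.G (K.C₀.Φ y)) x = 0 := by
      refine (K.gam_Φ P₁.sm hx').2.1.trans ?_
      rw [← K.g_eq]
      exact P₁.harm _ (K.maps hx')
    rw [gam_const_left, h4]
    simp
  rw [h3, eq_comm, sub_eq_zero] at h
  have h5 : ∫ p, K.C₀.fl P₁.G p ∂aM φ = -∫ p, 1 * rad (fun y => P₁.G (K.C₀.Φ y))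
      (Real.exp K.C₀.a • p) / lapse K.b K.L ξ (Real.exp K.C₀.a • p) ∂aM φ := by
    rw [← integral_neg]
    refine integral_congr_ae ((ae_sph φ).mono fun p hp => ?_)
    simp only [Cap.fl, K.N₀, K.lapse_ray hξ hp, K.b_zero _ le_rfl]
    ring
  have h6 : ∫ p, K.C₁.fl P₁.G p ∂aM φ = -∫ p, 1 * rad (fun y => P₁.G (K.C₀.Φ y))
      (Real.exp K.C₁.a • p) / lapse K.b K.L ξ (Real.exp K.C₁.a • p) ∂aM φ := by
    rw [← integral_neg]
    refine integral_congr_ae ((ae_sph φ).mono fun p hp => ?_)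
    simp only [Cap.fl, K.N₁, K.Φ_eq, K.lapse_ray hξ hp, K.b_one _ le_rfl]
    ring
  rw [h5, h, ← h6, P₁.flux]

/-- The drop of the potential along a ray is bounded by the energy along the ray. -/
theorem drop (hφ : Hom0 φ) (hξ : Hom0 ξ) (hξ0 : ∀ x, x ≠ 0 → 0 < ξ x) (P₁ : Pot K.C₁) {p : E 3}
    (hp : p ∈ sph) {t : ℝ} (ht : t ∈ Icc K.C₁.a K.C₀.a) :
    (P₁.T - P₁.G (K.C₀.Φ (Real.exp t • p))) ^ 2 ≤ (ε * ξ p + s) *
      ∫ τ in K.C₁.a..K.C₀.a, lapse K.b K.L ξ (Real.exp τ • p) *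
        gam K.met (fun y => P₁.G (K.C₀.Φ y)) (fun y => P₁.G (K.C₀.Φ y)) (Real.exp τ • p) := by
  obtain ⟨h1, h2, h3⟩ := K.lapse_facts hφ hξ hξ0
  have hu := K.sm_comp P₁.sm
  have hS : ∀ τ ∈ Icc K.C₁.a K.C₀.a, Real.exp τ • p ∈ Sh (K.C₁.a - K.C₁.h) (K.C₀.a + K.C₀.h) :=
    fun τ hτ => K.Shc_subset (K.ray_mem hp hτ)
  have hsub : Icc K.C₁.a t ⊆ Icc K.C₁.a K.C₀.a := Icc_subset_Icc_right ht.2
  have cr := K.cont_ray (sm_rad (isOpen_Sh _ _) hu) hp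
  have cN := K.cont_ray h1 hp
  have cB := cN.mul (K.cont_ray (h3.sm_gam hu hu) hp)
  have hT : P₁.G (K.C₀.Φ (Real.exp K.C₁.a • p)) = P₁.T := by
    rw [← K.Φ_eq]
    exact P₁.G_bp hp
  have ftc := intervalIntegral.integral_eq_sub_of_hasDerivAt
    (f := fun τ => P₁.G (K.C₀.Φ (Real.exp τ • p)))
    (f' := fun τ => rad (fun y => P₁.G (K.C₀.Φ y)) (Real.exp τ • p)) (a := K.C₁.a) (b := t)
    (fun τ hτ => hasDerivAt_ray (f := fun y => P₁.G (K.C₀.Φ y))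
      (sm_da (isOpen_Sh _ _) hu (hS τ (hsub (by rwa [uIcc_of_le ht.1] at hτ)))))
    ((cr.mono (by rw [uIcc_of_le ht.1]; exact hsub)).intervalIntegrable)
  have hN0 : ∀ τ ∈ Icc K.C₁.a K.C₀.a, 0 ≤ lapse K.b K.L ξ (Real.exp τ • p) :=
    fun τ hτ => (h2 _ (hS τ hτ)).le
  have hB0 : ∀ τ ∈ Icc K.C₁.a K.C₀.a, 0 ≤ lapse K.b K.L ξ (Real.exp τ • p) *
      gam K.met (fun y => P₁.G (K.C₀.Φ y)) (fun y => P₁.G (K.C₀.Φ y)) (Real.exp τ • p) :=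
    fun τ hτ => mul_nonneg (hN0 τ hτ) (gam_nonneg (h3.pos _ (hS τ hτ)) _)
  have hI : Ioc K.C₁.a t ⊆ Icc K.C₁.a K.C₀.a := Ioc_subset_Icc_self.trans hsub
  have ae : ∀ {q : ℝ → Prop}, (∀ τ ∈ Icc K.C₁.a K.C₀.a, q τ) →
      ∀ᵐ τ ∂(volume.restrict (Ioc K.C₁.a t)), q τ := fun h =>
    (ae_restrict_mem measurableSet_Ioc).mono fun τ hτ => h τ (hI hτ)
  have cs := (abs_integral_le_sqrt (μ := volume.restrict (Ioc K.C₁.a t))
    (cr.integrableOn_Icc.mono_set hI).aestronglyMeasurable (cN.integrableOn_Icc.mono_set hI)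
    (cB.integrableOn_Icc.mono_set hI) (ae hN0) (ae hB0) (ae fun τ hτ => by
      have h4 := h2 _ (hS τ hτ)
      have h5 := tg_nonneg φ (fun y => P₁.G (K.C₀.Φ y)) (Real.exp τ • p)
      show _ ≤ lapse K.b K.L ξ (Real.exp τ • p) * (lapse K.b K.L ξ (Real.exp τ • p) *
        gam (cyl φ (lapse K.b K.L ξ)) (fun y => P₁.G (K.C₀.Φ y)) (fun y => P₁.G (K.C₀.Φ y))
          (Real.exp τ • p))
      rw [gam_cyl (ne_zero_of_mem_Sh (hS τ hτ)) h4]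
      have h6 : ∀ N r T : ℝ, 0 < N → 0 ≤ T → r ^ 2 ≤ N * (N * (r * r / N ^ 2 + T)) := by
        intro N r T hN hT
        have : N * (N * (r * r / N ^ 2 + T)) = r ^ 2 + N ^ 2 * T := by
          field_simp
        rw [this]
        nlinarith [mul_nonneg (sq_nonneg N) hT]
      exact h6 _ _ _ h4 h5)).2
  have mono : ∀ {w : ℝ → ℝ}, ContinuousOn w (Icc K.C₁.a K.C₀.a) →
      (∀ τ ∈ Icc K.C₁.a K.C₀.a, 0 ≤ w τ) →
      0 ≤ ∫ τ in Ioc K.C₁.a t, w τ ∧ ∫ τ in Ioc K.C₁.a t, w τ ≤ ∫ τ in K.C₁.a..K.C₀.a, w τ := by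
    intro w hw hw0
    refine ⟨integral_nonneg_of_ae (ae hw0), ?_⟩
    rw [intervalIntegral.integral_of_le K.lt.le]
    exact setIntegral_mono_set (hw.integrableOn_Icc.mono_set Ioc_subset_Icc_self)
      ((ae_restrict_mem measurableSet_Ioc).mono fun τ hτ => hw0 τ (Ioc_subset_Icc_self hτ))
      (Ioc_subset_Ioc_right ht.2).eventuallyLE
  obtain ⟨a0, a1⟩ := mono cN hN0
  obtain ⟨b0, b1⟩ := mono cB hB0
  have a2 := a1.trans (K.thickness hξ hp)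
  rw [← intervalIntegral.integral_of_le ht.1, ftc, hT, ← Real.sqrt_mul a0, abs_sub_comm] at cs
  have cs2 := (Real.le_sqrt (abs_nonneg _) (mul_nonneg a0 b0)).1 cs
  rw [sq_abs] at cs2
  exact cs2.trans (mul_le_mul a2 b1 b0 (a0.trans a2))

theorem en_eq (hφ : Hom0 φ) (hξ : Hom0 ξ) (hξ0 : ∀ x, x ≠ 0 → 0 < ξ x) {G : E 3 → ℝ}
    (hG : Sm K.C₁.Ω G) :
    K.en G = ∫ p, (∫ τ in K.C₁.a..K.C₀.a, lapse K.b K.L ξ (Real.exp τ • p) *
      gam K.met (fun y => G (K.C₀.Φ y)) (fun y => G (K.C₀.Φ y)) (Real.exp τ • p)) ∂aM φ := by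
  obtain ⟨h1, h2, h3⟩ := K.lapse_facts hφ hξ hξ0
  have hu := K.sm_comp hG
  rw [← integral_Sh' (u := fun x => lapse K.b K.L ξ x *
    gam K.met (fun y => G (K.C₀.Φ y)) (fun y => G (K.C₀.Φ y)) x) hφ K.lt.le
    ((h1.mul (h3.sm_gam hu hu)).continuousOn.mono K.Shc_subset)]
  refine setIntegral_congr_fun (isOpen_Sh _ _).measurableSet fun x hx => ?_
  have h4 := vol_cyl (φ := φ) (ne_zero_of_mem_Sh hx) (h2 x (K.Shc_subset (K.Sh_sub hx)))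
  simp only [met, h4]
  ring

end Neck

end Pool.Agent.P.MP_56a1cd_gt
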