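import Pool.Agent.P.MP_56a1cd_gt.NeckA

namespace Pool.Agent.P.MP_56a1cd_gt

open MeasureTheory Matrix Set Filter Topology
open scoped ContDiff ENNReal

variable {m n : ℕ}

/-! The reciprocity inequality for a neck. -/

namespace NeckBAux

theorem two_mul_le {a b c : ℝ} (ha : 0 ≤ a) (hc : 0 ≤ c) (h : b ^ 2 ≤ a * c) : 2 * b ≤ a + c := by
  refine (le_abs_self _).trans (abs_le_of_sq_le_sq' ?_ (add_nonneg ha hc) |> abs_le.2)
  nlinarith [sq_nonneg (a - c)]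

end NeckBAux

namespace Neck

variable {φ ξ : E 3 → ℝ} {ε s : ℝ} (K : Neck φ ξ ε s)

theorem neck_b (hφ : Hom0 φ) (hξ : Hom0 ξ) (hξ0 : ∀ x, x ≠ 0 → 0 < ξ x) (P₀ : Pot K.C₀)
    (P₁ : Pot K.C₁) :
    0 ≤ K.en P₁.G ∧ K.en P₁.G ≤ 4 * Real.pi * (P₁.T - P₀.T) ∧
      4 * Real.pi * (P₁.T - P₀.T) ≤ ∫ p, (ε * ξ p + s) * K.C₀.fl P₀.G p ^ 2 ∂aM φ := by
  have hM : K.C₀.M ⊆ K.C₁.M := K.M_eq ▸ subset_union_left
  have hG : Sm K.C₀.Ω P₁.G := P₁.sm.mono K.Ω_sub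
  have hmM : MeasurableSet K.C₀.M := K.C₀.closed.measurableSet
  have hpd : ∀ x ∈ K.C₀.M, (K.C₀.g x).PosDef := fun x hx => K.C₀.met'.pos x (K.C₀.M_sub hx)
  have hint := P₁.int
  have hen := P₁.energy hφ
  rw [K.g_eq] at hint hen
  obtain ⟨i₁, hs⟩ := K.split hint
  have hSh : Sh K.C₁.a K.C₀.a ⊆ Sh (K.C₁.a - K.C₁.h) (K.C₀.a + K.C₀.h) :=
    fun x hx => K.Shc_subset ⟨hx.1.le, hx.2.le⟩
  have hE : ∫ x in Sh K.C₁.a K.C₀.a, gam K.C₀.g P₁.G P₁.G (K.C₀.Φ x) * vol K.met x = K.en P₁.G :=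
    setIntegral_congr_fun (isOpen_Sh _ _).measurableSet fun x hx => by
      simp only [(K.gam_Φ P₁.sm (hSh hx)).1]
  obtain ⟨i01, h01⟩ := green_pot hφ K.C₀ P₀.sm hG
    (fun x hx => K.g_eq ▸ P₁.harm x (K.C₁.M_sub (hM hx))) P₀.pos P₀.cpt P₀.int i₁
  obtain ⟨-, h10⟩ := green_pot hφ K.C₀ hG P₀.sm (fun x hx => P₀.harm x (K.C₀.M_sub hx))
    (fun x hx => P₁.pos x (hM hx))
    (fun t ht => by
      have e : {x | x ∈ K.C₀.M ∧ t ≤ P₁.G x} = {x | x ∈ K.C₁.M ∧ t ≤ P₁.G x} ∩ K.C₀.M :=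
        Set.ext fun x => ⟨fun h => ⟨⟨hM h.1, h.2⟩, h.1⟩, fun h => ⟨h.2, h.1.2⟩⟩
      rw [e]
      exact (P₁.cpt t ht).inter_right K.C₀.closed) i₁ P₀.int
  have h1 : ∫ p, P₀.G (K.C₀.bp p) * K.C₀.fl P₁.G p ∂aM φ = P₀.T * (4 * Real.pi) := by
    rw [← K.flux hφ hξ hξ0 P₁, ← integral_const_mul]
    exact integral_congr_ae ((ae_sph φ).mono fun p hp => by simp only [P₀.G_bp hp])
  have h2 : ∫ x in K.C₀.M, gam K.C₀.g P₁.G P₀.G x * vol K.C₀.g x =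
      ∫ x in K.C₀.M, gam K.C₀.g P₀.G P₁.G x * vol K.C₀.g x :=
    setIntegral_congr_fun hmM fun x hx => by simp only [gam_comm (hpd x hx) P₁.G P₀.G]
  have h3 : 2 * ∫ x in K.C₀.M, gam K.C₀.g P₀.G P₁.G x * vol K.C₀.g x ≤
      (∫ x in K.C₀.M, gam K.C₀.g P₀.G P₀.G x * vol K.C₀.g x) +
        ∫ x in K.C₀.M, gam K.C₀.g P₁.G P₁.G x * vol K.C₀.g x := by
    rw [← integral_const_mul, ← integral_add P₀.int i₁]
    refine setIntegral_mono_on (i01.const_mul 2) (P₀.int.add i₁) hmM fun x hx => ?_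
    have := mul_le_mul_of_nonneg_right (NeckBAux.two_mul_le (gam_nonneg (hpd x hx) P₀.G)
      (gam_nonneg (hpd x hx) P₁.G) (gam_sq_le (hpd x hx) P₀.G P₁.G)) (vol_nonneg K.C₀.g x)
    linarith
  have h4 := P₀.energy hφ
  obtain ⟨hl1, hl2, hl3⟩ := isMet_lapse hφ hξ hξ0 K.b_sm K.b_mem K.L_pos
  have hne : ∀ p ∈ sph, p ≠ 0 := fun p hp =>
    ne_zero_of_nrm_pos (by rw [mem_sph_iff.1 hp]; exact one_pos)
  set e : E 3 → ℝ := fun p => ∫ τ in K.C₁.a..K.C₀.a, lapse K.b K.L ξ (Real.exp τ • p) *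
    gam K.met (fun y => P₁.G (K.C₀.Φ y)) (fun y => P₁.G (K.C₀.Φ y)) (Real.exp τ • p) with he
  have he0 : ∀ p ∈ sph, 0 ≤ e p := fun p hp =>
    intervalIntegral.integral_nonneg K.lt.le fun τ _ => by
      have h := smul_ne_zero (Real.exp_pos τ).ne' (hne p hp)
      exact mul_nonneg (hl2 _ h).le (gam_nonneg (hl3.pos _ h) _)
  have hec : ContinuousOn e sph := by
    have hm : IsMet K.met (Sh (K.C₁.a - K.C₁.h) (K.C₀.a + K.C₀.h)) :=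
      hl3.mono (isOpen_Sh _ _) fun x hx => ne_zero_of_mem_Sh hx
    exact continuousOn_ray (u := fun x => lapse K.b K.L ξ x *
      gam K.met (fun y => P₁.G (K.C₀.Φ y)) (fun y => P₁.G (K.C₀.Φ y)) x) K.lt.le
      ((hl1.continuousOn.mono fun x hx => ne_zero_of_mem_Shc hx).mul
        ((hm.sm_gam (K.sm_comp P₁.sm) (K.sm_comp P₁.sm)).continuousOn.mono K.Shc_subset))
  have h5 : K.en P₁.G = ∫ p, e p ∂aM φ := K.en_eq hφ hξ hξ0 P₁.sm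
  have hε : 0 ≤ ε := K.thick ▸ mul_nonneg K.L_pos.le
    (intervalIntegral.integral_nonneg K.lt.le fun t _ => (K.b_mem t).1)
  have hθ : ∀ p ∈ sph, 0 ≤ ε * ξ p + s := fun p hp =>
    add_nonneg (mul_nonneg hε (hξ0 p (hne p hp)).le) (by linarith [K.lt, K.short])
  have cf : ContinuousOn (K.C₀.fl P₀.G) sph := K.C₀.continuousOn_fl P₀.sm
  have cG : ContinuousOn (fun p => P₁.G (K.C₀.bp p)) sph :=
    hG.continuousOn.comp K.C₀.continuousOn_bp fun p hp => K.C₀.M_sub (K.C₀.bp_mem hp)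
  have j1 := (integrable_aM hφ cf).const_mul P₁.T
  have j2 : Integrable (fun p => P₁.G (K.C₀.bp p) * K.C₀.fl P₀.G p) (aM φ) :=
    integrable_aM hφ (cG.mul cf)
  have j3 := integrable_aM hφ hec
  have j4 : Integrable (fun p => (ε * ξ p + s) * K.C₀.fl P₀.G p ^ 2) (aM φ) :=
    integrable_aM hφ (((continuousOn_const.mul hξ.continuousOn).add continuousOn_const).mul (cf.pow 2))
  have h6 : 2 * ((∫ p, P₁.T * K.C₀.fl P₀.G p ∂aM φ) -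
      ∫ p, P₁.G (K.C₀.bp p) * K.C₀.fl P₀.G p ∂aM φ) ≤
      (∫ p, e p ∂aM φ) + ∫ p, (ε * ξ p + s) * K.C₀.fl P₀.G p ^ 2 ∂aM φ := by
    rw [← integral_sub j1 j2, ← integral_const_mul, ← integral_add j3 j4]
    refine integral_mono_ae ((j1.sub j2).const_mul 2) (j3.add j4) ((ae_sph φ).mono fun p hp => ?_)
    have h : (P₁.T - P₁.G (K.C₀.bp p)) ^ 2 ≤ (ε * ξ p + s) * e p :=
      K.drop hφ hξ hξ0 P₁ hp (right_mem_Icc.2 K.lt.le)
    refine NeckBAux.two_mul_le (he0 p hp) (mul_nonneg (hθ p hp) (sq_nonneg _)) ?_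
    have := mul_le_mul_of_nonneg_right h (sq_nonneg (K.C₀.fl P₀.G p))
    nlinarith
  rw [integral_const_mul, P₀.flux] at h6
  have h7 : 0 ≤ ∫ p, e p ∂aM φ := integral_nonneg_of_ae ((ae_sph φ).mono he0)
  refine ⟨by linarith, by linarith, by linarith⟩

end Neck

end Pool.Agent.P.MP_56a1cd_gt
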