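import Pool.Agent.P.MP_56a1cd_gt.AtSol
import Pool.Agent.P.MP_56a1cd_gt.Polar2

namespace Pool.Agent.P.MP_56a1cd_gt

open MeasureTheory Matrix Set Filter Topology
open scoped ContDiff ENNReal

variable {m n : ℕ}

/-! PLAN. Choose `ρ₁ ≤ min r s` so that the two discs of radius `ρ₁` have disjoint images (Hausdorff).
Let `ℓ y = (1 - stp (4 nrm y / ρ₁)) * log (nrm y)`, `l_p = push i (ℓ (· - e i p))`, `l_q` likewise (`smOn_push` with
`V = {y ≠ c}`). The function `f₀ y = lap flat ℓ y` for `y ≠ 0`, `f₀ 0 = 0` vanishes near `0` (`lap_log_nrm`) and off the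
disc of radius `ρ₁ / 2`, so it is a test function; `f = push i (f₀ (· - e i p)) - push j (f₀ (· - e j q))` is
smooth with `∫ f = 0` by `integral_chart` and translation invariance. Solve `lapS w = -f` (`poisson2`) and
put `h = l_p - l_q + w`. Near `c = e i p`: `loc i h = log (nrm (y - c)) + w'` with `w'` smooth, so
`|∇h|² |y - c|² = 1 + 2 (y - c) · ∇w' + |y - c|² |∇w'|²`, which is smooth and positive on a small disc. -/

namespace PolesAux

theorem pd_shift (f : E n → ℝ) (c : E n) (i : Fin n) :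
    pd i (fun z => f (z - c)) = fun y => pd i f (y - c) := by
  funext y
  simp only [pd]
  rw [fderiv_comp_sub]

theorem lap_shift (f : E n → ℝ) (c y : E n) :
    lap flat (fun z => f (z - c)) y = lap flat f (y - c) := by
  rw [lap_flat, lap_flat]
  refine Finset.sum_congr rfl fun i _ => ?_
  rw [pd_shift f c i, pd_shift (pd i f) c i]

theorem isOpen_disc (c : E n) (R : ℝ) : IsOpen {y : E n | nrm (y - c) < R} :=
  isOpen_lt (continuous_nrm.comp (continuous_id.sub continuous_const)) continuous_const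

theorem isCompact_disc (c : E n) (R : ℝ) : IsCompact {y : E n | nrm (y - c) ≤ R} :=
  (Homeomorph.subRight c).isCompact_preimage.2 (isCompact_nrm_le R)

theorem exists_disc {O : Set (E n)} (hO : IsOpen O) {c : E n} (hc : c ∈ O) :
    ∃ ε > 0, ∀ y, nrm (y - c) < ε → y ∈ O := by
  obtain ⟨ε, hε, h⟩ := Metric.isOpen_iff.1 hO c hc
  refine ⟨ε, hε, fun y hy => h ?_⟩
  rw [Metric.mem_ball, dist_eq_norm]
  exact (norm_le_nrm _).trans_lt hy

/-- The truncated logarithm. -/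
noncomputable def ell (R : ℝ) (y : E 2) : ℝ := (1 - stp (4 * nrm y / R)) * Real.log (nrm y)

/-- Its Laplacian away from the pole. -/
noncomputable def fz (R : ℝ) (y : E 2) : ℝ := if y = 0 then 0 else lap flat (ell R) y

theorem sm_ell (R : ℝ) : Sm {y : E 2 | y ≠ 0} (ell R) :=
  (contDiffOn_const.sub (stp_sm.comp_contDiffOn
    ((contDiffOn_const.mul sm_nrm).div_const R))).mul sm_log_nrm

theorem ell_far {R : ℝ} (hR : 0 < R) {y : E 2} (hy : R / 2 ≤ nrm y) : ell R y = 0 := by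
  have : stp (4 * nrm y / R) = 1 := stp_one (by rw [le_div_iff₀ hR]; linarith)
  simp [ell, this]

theorem ell_near {R : ℝ} (hR : 0 < R) {y : E 2} (hy : nrm y < R / 4) :
    ell R y = Real.log (nrm y) := by
  have : stp (4 * nrm y / R) = 0 := stp_zero (by rw [div_le_iff₀ hR]; linarith)
  simp [ell, this]

theorem fz_far {R : ℝ} (hR : 0 < R) {y : E 2} (hy : R / 2 < nrm y) : fz R y = 0 := by
  unfold fz
  split_ifs with h
  · rfl
  · have e : ell R =ᶠ[𝓝 y] fun _ => 0 :=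
      eventually_of_mem ((isOpen_lt continuous_const continuous_nrm).mem_nhds hy)
        fun z hz => ell_far hR (le_of_lt hz)
    rw [lap_congr EventuallyEq.rfl e, lap_const]

theorem fz_near {R : ℝ} (hR : 0 < R) {y : E 2} (hy : nrm y < R / 4) : fz R y = 0 := by
  unfold fz
  split_ifs with h
  · rfl
  · have e : ell R =ᶠ[𝓝 y] fun z => Real.log (nrm (z - 0)) :=
      eventually_of_mem ((isOpen_lt continuous_nrm continuous_const).mem_nhds hy)
        fun z hz => (ell_near hR hz).trans (by simp only [sub_zero])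
    rw [lap_congr EventuallyEq.rfl e, lap_log_nrm 0 h]

theorem sm_fz {R : ℝ} (hR : 0 < R) : ContDiff ℝ ∞ (fz R) := by
  rw [contDiff_iff_contDiffAt]
  intro y
  by_cases h : y = 0
  · have hy : nrm y < R / 4 := by
      rw [h, nrm_zero]
      positivity
    have e : fz R =ᶠ[𝓝 y] fun _ => 0 :=
      eventually_of_mem ((isOpen_lt continuous_nrm continuous_const).mem_nhds hy)
        fun z hz => fz_near hR hz
    exact contDiffAt_const.congr_of_eventuallyEq e
  · have hO : IsOpen {y : E 2 | y ≠ 0} := isOpen_ne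
    have e : fz R =ᶠ[𝓝 y] lap flat (ell R) :=
      eventually_of_mem (hO.mem_nhds h) fun z hz => if_neg hz
    exact (((isMet_flat hO).sm_lap (sm_ell R)).contDiffAt (hO.mem_nhds h)).congr_of_eventuallyEq e

theorem pole {S : Type} [TopologicalSpace S] [MeasurableSpace S] [BorelSpace S] [T2Space S]
    (A : Atlas2 S) {p : S} {i : Fin A.k} {r R : ℝ} (hp : A.FlatAt p i r) (hR : 0 < R)
    (hRr : R ≤ r) :
    ∃ l f : S → ℝ, A.SmOn {p}ᶜ l ∧ A.SmOn univ f ∧ (∀ x, x ≠ p → A.lapS l x = f x) ∧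
      ∫ x, f x ∂A.μ = ∫ y, fz R y ∧
      (∀ y, nrm (y - A.e i p) < R / 4 → A.loc i l y = Real.log (nrm (y - A.e i p))) ∧
      tsupport l ⊆ (A.e i).symm '' {y | nrm (y - A.e i p) ≤ R / 2} := by
  obtain ⟨-, hps, hfl⟩ := hp
  set c := A.e i p with hc
  have hK := isCompact_disc c (R / 2)
  have hKr : ∀ y, nrm (y - c) ≤ R / 2 → nrm (y - c) < r := fun y hy => by linarith
  have hKt : {y | nrm (y - c) ≤ R / 2} ⊆ (A.e i).target := fun y hy => (hfl y (hKr y hy)).1
  have hsub : ContDiff ℝ ∞ fun y : E 2 => y - c := contDiff_id.sub contDiff_const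
  obtain ⟨hl1, hl2⟩ := A.smOn_push i (V := {y | y ≠ c}) (f := fun y => ell R (y - c)) hK hKt
    isOpen_ne ((sm_ell R).comp hsub.contDiffOn fun y hy => sub_ne_zero.2 hy.2)
    (fun y _ hy => ell_far hR (le_of_lt (not_le.1 hy)))
  obtain ⟨hf1, hf2⟩ := A.smOn_push i (V := univ) (f := fun y => fz R (y - c)) hK hKt
    isOpen_univ ((sm_fz hR).comp hsub).contDiffOn (fun y _ hy => fz_far hR (not_le.1 hy))
  have hl : A.SmOn {p}ᶜ ((A.e i).source.indicator fun x => ell R (A.e i x - c)) :=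
    Atlas2.SmOn.mono A hl1 fun x hx hs h => hx ((A.e i).injOn hs hps h)
  have hloc : ∀ (g : E 2 → ℝ), ∀ y ∈ (A.e i).target,
      (A.e i).source.indicator (fun x => g (A.e i x)) ((A.e i).symm y) = g y := fun g y hy => by
    rw [indicator_of_mem ((A.e i).map_target hy), (A.e i).right_inv hy]
  refine ⟨_, _, hl, Atlas2.SmOn.mono A hf1 fun x _ _ => mem_univ _, fun x hx => ?_, ?_,
    fun y hy => ?_, hl2⟩
  · by_cases hxK : x ∈ (A.e i).symm '' {y | nrm (y - c) ≤ R / 2}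
    · obtain ⟨y, hy, rfl⟩ := hxK
      have hyt := hKt hy
      have hyc : y - c ≠ 0 := fun h => hx (by
        rw [sub_eq_zero.1 h, hc, (A.e i).left_inv hps])
      rw [A.lapS_eq isOpen_compl_singleton hl i hx ((A.e i).map_target hyt),
        (A.e i).right_inv hyt, hloc (fun y => fz R (y - c)) y hyt]
      have hn := (isOpen_disc c r).mem_nhds (hKr y hy)
      have e1 : A.γ i =ᶠ[𝓝 y] flat := eventually_of_mem hn fun z hz => (hfl z hz).2
      have e2 : A.loc i ((A.e i).source.indicator fun x => ell R (A.e i x - c)) =ᶠ[𝓝 y]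
          fun z => ell R (z - c) :=
        eventually_of_mem hn fun z hz => hloc (fun y => ell R (y - c)) z (hfl z hz).1
      rw [lap_congr e1 e2, lap_shift, fz, if_neg hyc]
    · have e : ((A.e i).source.indicator fun x => ell R (A.e i x - c)) =ᶠ[𝓝 x] fun _ => 0 :=
        notMem_tsupport_iff_eventuallyEq.1 fun h => hxK (hl2 h)
      rw [A.lapS_congr e, image_eq_zero_of_notMem_tsupport fun h => hxK (hf2 h)]
      exact lap_const _ 0 _
  · have hm := (A.e i).open_source.measurableSet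
    rw [← setIntegral_eq_integral_of_forall_compl_eq_zero (s := (A.e i).source)
        (fun x hx => indicator_of_notMem hx _),
      (A.integral_chart i hm Subset.rfl _).2, (A.e i).image_source_eq_target,
      ← integral_sub_right_eq_self (fz R) c,
      ← setIntegral_eq_integral_of_forall_compl_eq_zero (s := (A.e i).target)
        (f := fun y => fz R (y - c)) (fun y hy => fz_far hR (not_le.1 fun h => hy (hKt h)))]
    refine setIntegral_congr_fun (A.e i).open_target.measurableSet fun y hy => ?_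
    rw [hloc (fun y => fz R (y - c)) y hy]
    by_cases h : nrm (y - c) ≤ R / 2
    · have : vol (A.γ i) y = 1 := by simp [vol, (hfl y (hKr y h)).2]
      rw [this, mul_one]
    · rw [fz_far hR (not_le.1 h), zero_mul]
  · have hyt := (hfl y (by linarith)).1
    exact (hloc (fun y => ell R (y - c)) y hyt).trans (ell_near hR hy)

theorem grad {c : E 2} {R σ : ℝ} (hR : 0 < R) (hσ : σ ^ 2 = 1) {w H : E 2 → ℝ}
    (hw : Sm {y | nrm (y - c) < R} w)
    (hH : ∀ y, nrm (y - c) < R → H y = σ * Real.log (nrm (y - c)) + w y) :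
    ∃ (ρ : ℝ) (μ : E 2 → ℝ), 0 < ρ ∧ ρ ≤ R ∧ Sm {y | nrm (y - c) < ρ} μ ∧
      ∀ y, nrm (y - c) < ρ → 0 < μ y ∧ (y ≠ c → gam flat H H y = μ y / nrm (y - c) ^ 2) := by
  have hO := isOpen_disc c R
  have hd : ∀ k, Sm {y | nrm (y - c) < R} fun y : E 2 => y k - c k := fun k =>
    (sm_coord _ k).sub contDiffOn_const
  have hg : ∀ k, Sm {y | nrm (y - c) < R} (pd k w) := sm_pd hO hw
  let μ : E 2 → ℝ := fun y => 1 + 2 * σ * ((y 0 - c 0) * pd 0 w y + (y 1 - c 1) * pd 1 w y) +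
    ((y 0 - c 0) ^ 2 + (y 1 - c 1) ^ 2) * (pd 0 w y ^ 2 + pd 1 w y ^ 2)
  have hμ : Sm {y | nrm (y - c) < R} μ :=
    (contDiffOn_const.add (contDiffOn_const.mul (((hd 0).mul (hg 0)).add ((hd 1).mul (hg 1))))).add
      ((((hd 0).pow 2).add ((hd 1).pow 2)).mul (((hg 0).pow 2).add ((hg 1).pow 2)))
  have hc : c ∈ {y | nrm (y - c) < R} ∩ μ ⁻¹' Ioi 0 := by
    refine ⟨?_, ?_⟩
    · simpa [nrm_zero] using hR
    · simp [μ]
  obtain ⟨ε, hε, hεO⟩ := exists_disc (hμ.continuousOn.isOpen_inter_preimage hO isOpen_Ioi) hc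
  refine ⟨min ε R, μ, lt_min hε hR, min_le_right _ _,
    hμ.mono fun y (hy : nrm (y - c) < min ε R) => hy.trans_le (min_le_right _ _),
    fun y hy => ?_⟩
  have hy' := hεO y (lt_of_lt_of_le hy (min_le_left _ _))
  refine ⟨hy'.2, fun hyc => ?_⟩
  have h0 : y - c ≠ 0 := sub_ne_zero.2 hyc
  have hN := nrm_pos h0
  have hdl : DifferentiableAt ℝ (fun z : E 2 => Real.log (nrm (z - c))) y :=
    (sm_da isOpen_ne sm_log_nrm h0).comp y (differentiableAt_id.sub_const c)
  have e : ∀ k, pd k H y = σ * ((y k - c k) / nrm (y - c) ^ 2) + pd k w y := fun k => by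
    rw [pd_congr_on hO hH hy'.1, pd_add (hdl.const_mul σ) (sm_da hO hw hy'.1), pd_const_mul,
      pd_shift (fun z => Real.log (nrm z)) c k]
    simp only
    rw [pd_log_nrm h0, Pi.sub_apply]
  have hN2 : nrm (y - c) ^ 2 = (y 0 - c 0) ^ 2 + (y 1 - c 1) ^ 2 := by
    rw [nrm_sq]
    simp [dotProduct, Fin.sum_univ_two, sq]
  have hN3 : (y 0 - c 0) ^ 2 + (y 1 - c 1) ^ 2 ≠ 0 := by
    rw [← hN2]
    positivity
  rw [gam_flat, Fin.sum_univ_two, e, e, hN2]
  simp only [μ]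
  field_simp
  linear_combination ((y 0 - c 0) ^ 2 + (y 1 - c 1) ^ 2) * hσ

end PolesAux

theorem poles {S : Type} [TopologicalSpace S] [MeasurableSpace S] [BorelSpace S] [T2Space S]
    [CompactSpace S] [ConnectedSpace S] (A : Atlas2 S) {p q : S} (hpq : p ≠ q) {i j : Fin A.k}
    {r s : ℝ} (hp : A.FlatAt p i r) (hq : A.FlatAt q j s) :
    ∃ (h : S → ℝ) (ρ : ℝ) (μ₁ μ₂ : E 2 → ℝ), 0 < ρ ∧ ρ ≤ r ∧ ρ ≤ s ∧ A.SmOn {p, q}ᶜ h ∧
      (∀ x ∈ ({p, q}ᶜ : Set S), A.lapS h x = 0) ∧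
      (∀ y y', nrm (y - A.e i p) < ρ → nrm (y' - A.e j q) < ρ →
        (A.e i).symm y ≠ (A.e j).symm y') ∧
      Sm {y | nrm (y - A.e i p) < ρ} μ₁ ∧ Sm {y | nrm (y - A.e j q) < ρ} μ₂ ∧
      (∀ y, nrm (y - A.e i p) < ρ → 0 < μ₁ y ∧ (y ≠ A.e i p →
        gam flat (A.loc i h) (A.loc i h) y = μ₁ y / nrm (y - A.e i p) ^ 2)) ∧
      ∀ y, nrm (y - A.e j q) < ρ → 0 < μ₂ y ∧ (y ≠ A.e j q →
        gam flat (A.loc j h) (A.loc j h) y = μ₂ y / nrm (y - A.e j q) ^ 2) := by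
  obtain ⟨U, V, hU, hV, hpU, hqV, hUV⟩ := t2_separation hpq
  obtain ⟨ε₁, hε₁, h₁⟩ := PolesAux.exists_disc (A.isOpen_dom i hU) (c := A.e i p)
    ⟨(A.e i).map_source hp.2.1, by simpa [(A.e i).left_inv hp.2.1] using hpU⟩
  obtain ⟨ε₂, hε₂, h₂⟩ := PolesAux.exists_disc (A.isOpen_dom j hV) (c := A.e j q)
    ⟨(A.e j).map_source hq.2.1, by simpa [(A.e j).left_inv hq.2.1] using hqV⟩
  obtain ⟨R, hR, hRr, hRs, hR1, hR2⟩ : ∃ R, 0 < R ∧ R ≤ r ∧ R ≤ s ∧ R ≤ ε₁ ∧ R ≤ ε₂ :=
    ⟨min (min r s) (min ε₁ ε₂), lt_min (lt_min hp.1 hq.1) (lt_min hε₁ hε₂),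
      (min_le_left _ _).trans (min_le_left _ _), (min_le_left _ _).trans (min_le_right _ _),
      (min_le_right _ _).trans (min_le_left _ _), (min_le_right _ _).trans (min_le_right _ _)⟩
  obtain ⟨l₁, f₁, a1, a2, a3, a4, a5, a6⟩ := PolesAux.pole A hp hR hRr
  obtain ⟨l₂, f₂, b1, b2, b3, b4, b5, b6⟩ := PolesAux.pole A hq hR hRs
  have hI : ∀ f, A.SmOn univ f → Integrable f A.μ := fun f hf =>
    A.integrable_of_continuous (continuousOn_univ.1 (Atlas2.SmOn.continuousOn A hf))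
  obtain ⟨w, hw, hw'⟩ := A.poisson2 (Atlas2.SmOn.sub A b2 a2)
    (by rw [integral_sub (hI _ b2) (hI _ a2), a4, b4, sub_self])
  have hO : IsOpen ({p, q}ᶜ : Set S) := (toFinite _).isClosed.isOpen_compl
  have c1 : A.SmOn {p, q}ᶜ l₁ :=
    Atlas2.SmOn.mono A a1 (compl_subset_compl.2 (by simp))
  have c2 : A.SmOn {p, q}ᶜ fun x => -1 * l₂ x :=
    Atlas2.SmOn.mul A (A.smOn_const _ _) (Atlas2.SmOn.mono A b1 (compl_subset_compl.2 (by simp)))
  have c3 : A.SmOn {p, q}ᶜ w := Atlas2.SmOn.mono A hw (subset_univ _)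
  have z₂ : ∀ x ∈ U, l₂ x = 0 := fun x hx => image_eq_zero_of_notMem_tsupport fun h => by
    obtain ⟨y, hy, rfl⟩ := b6 h
    exact disjoint_left.1 hUV hx (h₂ y (lt_of_le_of_lt hy (by linarith))).2
  have z₁ : ∀ x ∈ V, l₁ x = 0 := fun x hx => image_eq_zero_of_notMem_tsupport fun h => by
    obtain ⟨y, hy, rfl⟩ := a6 h
    exact disjoint_left.1 hUV (h₁ y (lt_of_le_of_lt hy (by linarith))).2 hx
  obtain ⟨ρ₁, μ₁, d1, d2, d3, d4⟩ := PolesAux.grad (c := A.e i p) (R := R / 4) (σ := 1)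
    (w := A.loc i w) (H := A.loc i fun x => l₁ x + -1 * l₂ x + w x) (by positivity) (by norm_num)
    ((hw i).mono fun y hy => ⟨(h₁ y (lt_of_lt_of_le hy (by linarith))).1, mem_univ _⟩)
    fun y hy => by
      have e1 := a5 y hy
      have e2 := z₂ _ (h₁ y (lt_of_lt_of_le hy (by linarith))).2
      simp only [Atlas2.loc] at e1 ⊢
      rw [e1, e2]
      ring
  obtain ⟨ρ₂, μ₂, g1, g2, g3, g4⟩ := PolesAux.grad (c := A.e j q) (R := R / 4) (σ := -1)
    (w := A.loc j w) (H := A.loc j fun x => l₁ x + -1 * l₂ x + w x) (by positivity) (by norm_num)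
    ((hw j).mono fun y hy => ⟨(h₂ y (lt_of_lt_of_le hy (by linarith))).1, mem_univ _⟩)
    fun y hy => by
      have e1 := b5 y hy
      have e2 := z₁ _ (h₂ y (lt_of_lt_of_le hy (by linarith))).2
      simp only [Atlas2.loc] at e1 ⊢
      rw [e1, e2]
      ring
  have m1 := min_le_left ρ₁ ρ₂
  have m2 := min_le_right ρ₁ ρ₂
  refine ⟨fun x => l₁ x + -1 * l₂ x + w x, min ρ₁ ρ₂, μ₁, μ₂, lt_min d1 g1, by linarith,
    by linarith, Atlas2.SmOn.add A (Atlas2.SmOn.add A c1 c2) c3, fun x hx => ?_,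
    fun y y' hy hy' h => ?_, d3.mono fun y hy => lt_of_lt_of_le hy m1,
    g3.mono fun y hy => lt_of_lt_of_le hy m2, fun y hy => d4 y (lt_of_lt_of_le hy m1),
    fun y hy => g4 y (lt_of_lt_of_le hy m2)⟩
  · have hx' : x ≠ p ∧ x ≠ q := by simpa [not_or] using hx
    rw [A.lapS_add hO (Atlas2.SmOn.add A c1 c2) c3 hx, A.lapS_add hO c1 c2 hx, A.lapS_cmul,
      a3 x hx'.1, b3 x hx'.2, hw']
    ring
  · have k1 := (h₁ y (by linarith)).2
    have k2 := (h₂ y' (by linarith)).2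
    rw [mem_preimage] at k1 k2
    rw [h] at k1
    exact disjoint_left.1 hUV k1 k2

end Pool.Agent.P.MP_56a1cd_gt
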