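import Pool.Agent.P.MP_56a1cd_gt.SphInt

namespace Pool.Agent.P.MP_56a1cd_gt

open MeasureTheory Matrix Set Filter Topology
open scoped ContDiff ENNReal

variable {m n : ℕ}

/-! PLAN. `integral_Sh`: remove the null set outside the range of `polar 1`, apply `IsChart.integral` for `polar 1` and the
metric `cyl φ 1` (`vol_cyl`, `pull_polar_cyl`; the determinant of `blk` is the one of the block, `vol_conf`), then Fubini with
`measurePreserving_lift`, `polar_lift`, `integral_aM`. Continuity of parametric integrals: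
`continuousOn_of_dominated` with a constant bound from compactness of `Shc`. `integral_Sh'`:
`intervalIntegral_integral_swap` or `integral_integral_swap`. -/

namespace SphPolAux

variable {φ u : E 3 → ℝ} {α β : ℝ}

theorem mem_Shc {s : ℝ} {p : E 3} (hs : s ∈ Icc α β) (hp : p ∈ sph) :
    Real.exp s • p ∈ Shc α β := by
  change Real.exp α ≤ nrm _ ∧ nrm _ ≤ Real.exp β
  rw [nrm_exp_smul s hp]
  exact ⟨Real.exp_le_exp.2 hs.1, Real.exp_le_exp.2 hs.2⟩

theorem cont_prod (hu : ContinuousOn u (Shc α β)) :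
    ContinuousOn (fun q : ℝ × E 3 => u (Real.exp q.1 • q.2)) (Icc α β ×ˢ sph) :=
  hu.comp (f := fun q : ℝ × E 3 => Real.exp q.1 • q.2) (by fun_prop)
    fun _ hq => mem_Shc hq.1 hq.2

theorem cont_left (hu : ContinuousOn u (Shc α β)) {p : E 3} (hp : p ∈ sph) :
    ContinuousOn (fun s => u (Real.exp s • p)) (Icc α β) :=
  hu.comp (f := fun s : ℝ => Real.exp s • p) (by fun_prop) fun _ hs => mem_Shc hs hp

theorem cont_right (hu : ContinuousOn u (Shc α β)) {s : ℝ} (hs : s ∈ Icc α β) :
    ContinuousOn (fun p => u (Real.exp s • p)) sph :=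
  hu.comp (f := fun p : E 3 => Real.exp s • p) (by fun_prop) fun _ hp => mem_Shc hs hp

theorem image_polar (α β : ℝ) :
    polar 1 '' {z : E 3 | z 2 ∈ Ioo α β} = Sh α β ∩ range (polar 1) := by
  have key : ∀ z : E 3, polar 1 z ∈ Sh α β ↔ z 2 ∈ Ioo α β := fun z => by
    change Real.exp α < nrm _ ∧ nrm _ < Real.exp β ↔ _
    rw [nrm_polar (Or.inl rfl), Real.exp_lt_exp, Real.exp_lt_exp]
    rfl
  ext x
  constructor
  · rintro ⟨z, hz, rfl⟩
    exact ⟨(key z).2 hz, z, rfl⟩
  · rintro ⟨hx, z, rfl⟩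
    exact ⟨z, (key z).1 hx, rfl⟩

theorem vol_polar (hφ : Hom0 φ) (z : E 3) :
    vol (pull (polar 1) (cyl φ fun _ => 1)) z = Real.exp (2 * phs φ 1 (pr z)) := by
  rw [vol, pull_polar_cyl hφ _ (Or.inl rfl)]
  have : (blk (conf (phs φ 1)) (fun _ => 1) z).det = Real.exp (2 * phs φ 1 (pr z)) ^ 2 := by
    simp [blk, conf, Matrix.det_fin_three, sq]
  rw [this, Real.sqrt_sq (Real.exp_pos _).le]

theorem step_chart (hφ : Hom0 φ) (u : E 3 → ℝ) (α β : ℝ) :
    ∫ x in Sh α β, u x * (Real.exp (2 * φ x) / nrm x ^ 3) =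
      ∫ z in {z : E 3 | z 2 ∈ Ioo α β}, u (polar 1 z) * Real.exp (2 * phs φ 1 (pr z)) := by
  have hA : MeasurableSet {z : E 3 | z 2 ∈ Ioo α β} :=
    measurableSet_Ioo.preimage (measurable_pi_apply 2)
  have h1 : Sh α β =ᵐ[volume] (polar 1 '' {z : E 3 | z 2 ∈ Ioo α β} : Set (E 3)) := by
    rw [image_polar]
    exact (inter_ae_eq_left_of_ae_eq_univ (ae_eq_univ.2 volume_compl_range_polar)).symm
  have h2 : ∫ x in Sh α β, u x * (Real.exp (2 * φ x) / nrm x ^ 3) =
      ∫ x in Sh α β, u x * vol (cyl φ fun _ => 1) x :=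
    setIntegral_congr_fun (isOpen_Sh α β).measurableSet fun x hx => by
      rw [vol_cyl (ne_zero_of_mem_Sh hx) one_pos, one_mul]
  rw [h2, setIntegral_congr_set h1,
    (isChart_polar (Or.inl rfl)).integral _ hA (subset_univ _)]
  simp only [vol_polar hφ]

theorem integrable_prod (hφ : Hom0 φ) (hu : ContinuousOn u (Shc α β)) :
    IntegrableOn (fun q : ℝ × E 2 => u (Real.exp q.1 • stereo q.2) * Real.exp (2 * phs φ 1 q.2))
      (Ioo α β ×ˢ univ) (volume.prod volume) := by
  obtain ⟨C, hC⟩ := (isCompact_Shc α β).exists_bound_of_continuousOn hu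
  have h1 : Integrable fun y : E 2 => Real.exp (2 * phs φ 1 y) :=
    (integral_aM (u := fun _ => 1) hφ continuousOn_const).1.congr
      (Eventually.of_forall fun _ => one_mul _)
  have h2 : IntegrableOn (fun q : ℝ × E 2 => C * Real.exp (2 * phs φ 1 q.2)) (Ioo α β ×ˢ univ)
      (volume.prod volume) := by
    rw [IntegrableOn, ← Measure.prod_restrict, Measure.restrict_univ]
    exact (integrable_const C).mul_prod h1
  have hm : MeasurableSet (Ioo α β ×ˢ (univ : Set (E 2))) :=
    measurableSet_Ioo.prod MeasurableSet.univ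
  have hs := contDiff_stereo.continuous
  have hp := (sm_phs hφ (Or.inl rfl)).continuous
  refine h2.mono' (ContinuousOn.aestronglyMeasurable ?_ hm) ?_
  · refine ContinuousOn.mul (hu.comp (f := fun q : ℝ × E 2 => Real.exp q.1 • stereo q.2)
      (by fun_prop) fun q hq => mem_Shc (Ioo_subset_Icc_self hq.1) (stereo_mem_sph _)) ?_
    fun_prop
  · refine (ae_restrict_iff' hm).2 (Eventually.of_forall fun q hq => ?_)
    rw [norm_mul, Real.norm_of_nonneg (Real.exp_pos _).le]
    exact mul_le_mul_of_nonneg_right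
      (hC _ (mem_Shc (Ioo_subset_Icc_self hq.1) (stereo_mem_sph _))) (Real.exp_pos _).le

end SphPolAux

open SphPolAux

section
variable {φ u : E 3 → ℝ}

theorem continuousOn_slice (hφ : Hom0 φ) {α β : ℝ} (hu : ContinuousOn u (Shc α β)) :
    ContinuousOn (fun s => ∫ p, u (Real.exp s • p) ∂aM φ) (Icc α β) := by
  obtain ⟨C, hC⟩ := (isCompact_Shc α β).exists_bound_of_continuousOn hu
  have := isFiniteMeasure_aM hφ
  exact continuousOn_of_dominated (bound := fun _ => C)
    (fun s hs => (integrable_aM hφ (cont_right hu hs)).aestronglyMeasurable)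
    (fun s hs => (ae_sph φ).mono fun p hp => hC _ (mem_Shc hs hp)) (integrable_const C)
    ((ae_sph φ).mono fun p hp => cont_left hu hp)

theorem continuousOn_ray {α β : ℝ} (hαβ : α ≤ β) (hu : ContinuousOn u (Shc α β)) :
    ContinuousOn (fun p => ∫ s in α..β, u (Real.exp s • p)) sph := by
  obtain ⟨C, hC⟩ := (isCompact_Shc α β).exists_bound_of_continuousOn hu
  simp only [intervalIntegral.integral_of_le hαβ]
  exact continuousOn_of_dominated (bound := fun _ => C)
    (fun p hp => ((cont_left hu hp).mono Ioc_subset_Icc_self).aestronglyMeasurable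
      measurableSet_Ioc)
    (fun p hp => (ae_restrict_mem measurableSet_Ioc).mono fun s hs =>
      hC _ (mem_Shc (Ioc_subset_Icc_self hs) hp)) (integrable_const C)
    ((ae_restrict_mem measurableSet_Ioc).mono fun s hs => cont_right hu (Ioc_subset_Icc_self hs))

theorem integral_Sh (hφ : Hom0 φ) {α β : ℝ} (hαβ : α ≤ β) (hu : ContinuousOn u (Shc α β)) :
    ∫ x in Sh α β, u x * (Real.exp (2 * φ x) / nrm x ^ 3) =
      ∫ s in α..β, ∫ p, u (Real.exp s • p) ∂aM φ := by
  have h1 : (fun q : ℝ × E 2 => lift q.1 q.2) ⁻¹' {z : E 3 | z 2 ∈ Ioo α β} =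
      Ioo α β ×ˢ univ := by
    ext q
    simp [lift]
  rw [step_chart hφ, ← measurePreserving_lift.setIntegral_preimage_emb measurableEmbedding_lift,
    h1]
  simp only [polar_lift, pr_lift, one_smul]
  rw [setIntegral_prod _ (integrable_prod hφ hu), intervalIntegral.integral_of_le hαβ,
    integral_Ioc_eq_integral_Ioo]
  refine setIntegral_congr_fun measurableSet_Ioo fun s hs => ?_
  simp only [Measure.restrict_univ]
  exact (integral_aM hφ (cont_right hu (Ioo_subset_Icc_self hs))).2.symm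

theorem integral_Sh' (hφ : Hom0 φ) {α β : ℝ} (hαβ : α ≤ β) (hu : ContinuousOn u (Shc α β)) :
    ∫ x in Sh α β, u x * (Real.exp (2 * φ x) / nrm x ^ 3) =
      ∫ p, (∫ s in α..β, u (Real.exp s • p)) ∂aM φ := by
  have := isFiniteMeasure_aM hφ
  rw [integral_Sh hφ hαβ hu]
  refine intervalIntegral_integral_swap ?_
  rw [uIoc_of_le hαβ, ← Measure.restrict_eq_self_of_ae_mem (ae_sph φ), Measure.prod_restrict]
  exact ((cont_prod hu).integrableOn_compact (isCompact_Icc.prod isCompact_sph)).mono_set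
    (prod_mono Ioc_subset_Icc_self subset_rfl)

theorem Shc_ae_eq (α β : ℝ) : Shc α β =ᵐ[volume] Sh α β := by
  have h1 : ∀ᵐ x : E 3, nrm x ≠ Real.exp α := by
    rw [ae_iff]
    simpa using volume_nrm_eq (n := 2) (Real.exp α)
  have h2 : ∀ᵐ x : E 3, nrm x ≠ Real.exp β := by
    rw [ae_iff]
    simpa using volume_nrm_eq (n := 2) (Real.exp β)
  filter_upwards [h1, h2] with x a b
  exact propext ⟨fun h => ⟨lt_of_le_of_ne h.1 a.symm, lt_of_le_of_ne h.2 b⟩,
    fun h => ⟨h.1.le, h.2.le⟩⟩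

end

end Pool.Agent.P.MP_56a1cd_gt
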