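import Pool.Agent.P.MP_56a1cd_gt.Refl
import Pool.Agent.P.MP_56a1cd_gt.EllSeq
import Pool.Agent.P.MP_56a1cd_gt.SphPol

namespace Pool.Agent.P.MP_56a1cd_gt

open MeasureTheory Matrix Set Filter Topology
open scoped ContDiff ENNReal

variable {m n : ℕ}

/-! PLAN. `w k = v k - v k ∘ refl a` is smooth on `W`, equals `v k` on the outer half and is odd. It is
Cauchy (`dH1_comp_le` for the chart `refl a`). Weak equation on `W` for a test function `ψ`: by invariance
(`gam_pull`, `pull_refl_cyl`, `IsChart.integral`), `∫_W gam (w k) ψ = ∫_W gam (v k) (ψ - ψ ∘ refl a)`, and the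
integrand vanishes on the inner half. Let `o = ψ - ψ ∘ refl a` (zero on the middle sphere, so
`|o x| ≤ C |log |x| - a|`), `ζ ε x = stp ((log |x| - a) / ε)`. Then `ζ ε * o` extended by zero is a test function
of the outer half, and the rest (1 - ζ ε) * o has bounded gradient and vanishes for `log |x| ≥ a + 2ε`, so by
Cauchy-Schwarz its contribution is at most `C √(volume (Shc a (a + 2ε)))` uniformly in `k` (a Cauchy
sequence is bounded; `IsMet.ellip_gam`). Apply `ell_seq`. Oddness of the limit: `tendH1_unique`. -/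

namespace ReflectAux

theorem dH1_two {U K : Set (E n)} (hU : IsOpen U) (hK : IsCompact K) (hKU : K ⊆ U)
    {p q u₁ v₁ u₂ v₂ : E n → ℝ} (hp : Sm U p) (hq : Sm U q) (hu₁ : Sm U u₁) (hv₁ : Sm U v₁)
    (hu₂ : Sm U u₂) (hv₂ : Sm U v₂)
    (e : ∀ x ∈ U, p x - q x = (u₁ x - v₁ x) - (u₂ x - v₂ x)) :
    dH1 K p q ≤ 2 * dH1 K u₁ v₁ + 2 * dH1 K u₂ v₂ := by
  have i0 := dH1_integrable hU hK hKU hp hq
  have i1 := dH1_integrable hU hK hKU hu₁ hv₁
  have i2 := dH1_integrable hU hK hKU hu₂ hv₂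
  unfold dH1
  rw [← integral_const_mul, ← integral_const_mul,
    ← integral_add (i1.const_mul 2) (i2.const_mul 2)]
  refine setIntegral_mono_on i0 ((i1.const_mul 2).add (i2.const_mul 2)) hK.measurableSet ?_
  intro x hx
  have hx' := hKU hx
  have dp := sm_da hU hp hx'
  have dq := sm_da hU hq hx'
  have d1 := sm_da hU hu₁ hx'
  have d2 := sm_da hU hv₁ hx'
  have d3 := sm_da hU hu₂ hx'
  have d4 := sm_da hU hv₂ hx'
  have hd : ∀ i, pd i p x - pd i q x = (pd i u₁ x - pd i v₁ x) - (pd i u₂ x - pd i v₂ x) := by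
    intro i
    have a1 := pd_sub dp dq i
    have a2 := pd_sub d1 d2 i
    have a3 := pd_sub d3 d4 i
    have a4 := pd_sub (f := fun y => u₁ y - v₁ y) (h := fun y => u₂ y - v₂ y)
      (d1.sub d2) (d3.sub d4) i
    have a5 : pd i (fun y => p y - q y) x = pd i (fun y => (u₁ y - v₁ y) - (u₂ y - v₂ y)) x :=
      pd_congr_on hU e hx' i
    linarith
  have h1 : ∑ i, (pd i p x - pd i q x) ^ 2 ≤
      2 * ∑ i, (pd i u₁ x - pd i v₁ x) ^ 2 + 2 * ∑ i, (pd i u₂ x - pd i v₂ x) ^ 2 := by
    rw [Finset.mul_sum, Finset.mul_sum, ← Finset.sum_add_distrib]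
    refine Finset.sum_le_sum fun i _ => ?_
    rw [hd i]
    nlinarith [sq_nonneg ((pd i u₁ x - pd i v₁ x) + (pd i u₂ x - pd i v₂ x))]
  have h2 : (p x - q x) ^ 2 ≤ 2 * (u₁ x - v₁ x) ^ 2 + 2 * (u₂ x - v₂ x) ^ 2 := by
    rw [e x hx']
    nlinarith [sq_nonneg ((u₁ x - v₁ x) + (u₂ x - v₂ x))]
  linarith

theorem dH1_neg (K : Set (E n)) (u v : E n → ℝ) :
    dH1 K (fun x => -u x) (fun x => -v x) = dH1 K u v := by
  unfold dH1
  refine integral_congr_ae (Eventually.of_forall fun x => ?_)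
  have h1 : ∑ i, (pd i (fun y => -u y) x - pd i (fun y => -v y) x) ^ 2 =
      ∑ i, (pd i u x - pd i v x) ^ 2 := by
    refine Finset.sum_congr rfl fun i _ => ?_
    rw [pd_neg, pd_neg]
    ring
  show (-u x - -v x) ^ 2 + ∑ i, (pd i (fun y => -u y) x - pd i (fun y => -v y) x) ^ 2 =
    (u x - v x) ^ 2 + ∑ i, (pd i u x - pd i v x) ^ 2
  rw [h1]
  ring

theorem gam_zero_left (g : Met n) {f : E n → ℝ} (h : E n → ℝ) {x : E n}
    (e : ∀ᶠ y in 𝓝 x, f y = 0) : gam g f h x = 0 := by
  have e' : f =ᶠ[𝓝 x] fun _ => (0 : ℝ) := e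
  rw [gam_congr (g' := g) rfl e' (EventuallyEq.refl _ h), gam_const_left]

theorem gam_zero_right (g : Met n) (f : E n → ℝ) {h : E n → ℝ} {x : E n}
    (e : ∀ᶠ y in 𝓝 x, h y = 0) : gam g f h x = 0 := by
  have e' : h =ᶠ[𝓝 x] fun _ => (0 : ℝ) := e
  rw [gam_congr (g' := g) rfl (EventuallyEq.refl _ f) e', gam_const_right]

theorem ev_zero {o : E n → ℝ} {x : E n} (hx : x ∉ tsupport o) : ∀ᶠ y in 𝓝 x, o y = 0 :=
  notMem_tsupport_iff_eventuallyEq.1 hx

theorem int_test {g : Met n} {U : Set (E n)} (hg : IsMet g U) {f o : E n → ℝ} (hf : Sm U f)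
    (ho : Test U o) : IntegrableOn (fun x => gam g f o x * vol g x) U := by
  refine integrableOn_of_cpt hg.opn.measurableSet ho.cpt.isCompact ho.sub ?_ ?_
  · exact (((hg.sm_gam hf ho.sm.contDiffOn).mul hg.sm_vol).continuousOn).mono ho.sub
  · intro x _ hx
    rw [gam_zero_right g f (ev_zero hx), zero_mul]

theorem small_shell (a : ℝ) {δ : ℝ} (hδ : 0 < δ) :
    ∃ ε : ℝ, 0 < ε ∧ volume.real (Shc a (a + 2 * ε)) < δ := by
  let S : ℕ → Set (E 3) := fun k => Shc a (a + 2 * (1 / ((k : ℝ) + 1)))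
  have hS : Antitone S := by
    intro k l hkl x hx
    refine ⟨hx.1, hx.2.trans (Real.exp_le_exp.2 ?_)⟩
    have h1 : (k : ℝ) ≤ l := by exact_mod_cast hkl
    have h2 : 1 / ((l : ℝ) + 1) ≤ 1 / ((k : ℝ) + 1) :=
      one_div_le_one_div_of_le (by positivity) (by linarith)
    linarith
  have hT := tendsto_measure_iInter_atTop (μ := (volume : Measure (E 3))) (s := S)
    (fun k => (isCompact_Shc _ _).measurableSet.nullMeasurableSet) hS
    ⟨0, (isCompact_Shc _ _).measure_lt_top.ne⟩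
  have h0 : volume (⋂ k, S k) = 0 := by
    refine measure_mono_null ?_ (volume_nrm_eq (n := 2) (Real.exp a))
    intro x hx
    have hx' : ∀ k, x ∈ S k := mem_iInter.1 hx
    refine le_antisymm ?_ (hx' 0).1
    have t1 : Tendsto (fun k : ℕ => a + 2 * (1 / ((k : ℝ) + 1))) atTop (𝓝 (a + 2 * 0)) :=
      (tendsto_one_div_add_atTop_nhds_zero_nat.const_mul 2).const_add a
    have t2 := (Real.continuous_exp.tendsto _).comp t1
    have t3 := ge_of_tendsto' t2 fun k => (hx' k).2
    simpa using t3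
  rw [h0] at hT
  have hT' : Tendsto (fun k => volume.real (S k)) atTop (𝓝 0) := by
    have := (ENNReal.tendsto_toReal ENNReal.zero_ne_top).comp hT
    exact this
  obtain ⟨k, hk⟩ := (hT'.eventually (gt_mem_nhds hδ)).exists
  exact ⟨1 / ((k : ℝ) + 1), by positivity, hk⟩

/-- The cut-off function. -/
noncomputable def ze (a ε : ℝ) (x : E 3) : ℝ := stp ((Real.log (nrm x) - a) / ε)

theorem sm_ze (a ε : ℝ) : Sm {x : E 3 | x ≠ 0} (ze a ε) :=
  stp_sm.comp_contDiffOn ((sm_log_nrm.sub contDiffOn_const).div_const ε)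

theorem pd_ze (a ε : ℝ) {x : E 3} (hx : x ≠ 0) (i : Fin 3) :
    pd i (ze a ε) x = deriv stp ((Real.log (nrm x) - a) / ε) / ε * (x i / nrm x ^ 2) := by
  have hf : DifferentiableAt ℝ (fun y : E 3 => Real.log (nrm y)) x :=
    sm_da isOpen_ne_zero sm_log_nrm hx
  have h1 : HasDerivAt stp (deriv stp ((Real.log (nrm x) - a) / ε))
      ((Real.log (nrm x) - a) / ε) :=
    (stp_sm.differentiable (by simp) _).hasDerivAt
  have h2 : HasDerivAt (fun t : ℝ => (t - a) / ε) (1 / ε) (Real.log (nrm x)) :=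
    ((hasDerivAt_id _).sub_const a).div_const ε
  have h3 : HasDerivAt (fun t : ℝ => stp ((t - a) / ε))
      (deriv stp ((Real.log (nrm x) - a) / ε) * (1 / ε)) (Real.log (nrm x)) :=
    HasDerivAt.comp (h₂ := stp) (h := fun t : ℝ => (t - a) / ε) _ h1 h2
  have h4 := pd_comp_real (β := fun t : ℝ => stp ((t - a) / ε)) hf h3 i
  rw [pd_log_nrm hx] at h4
  have h5 : pd i (ze a ε) x = pd i (fun y => stp ((Real.log (nrm y) - a) / ε)) x := rfl
  rw [h5, h4]
  ring

theorem lip_bound {o : E 3 → ℝ} {L : NNReal} (hL : LipschitzWith L o) {a : ℝ}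
    (hz : ∀ x, nrm x = Real.exp a → o x = 0) {x : E 3} (hx : Real.exp a ≤ nrm x) :
    |o x| ≤ L * (nrm x * (Real.log (nrm x) - a)) := by
  have he := Real.exp_pos a
  have hn : 0 < nrm x := he.trans_le hx
  have hy : nrm ((Real.exp a / nrm x) • x) = Real.exp a := by
    rw [nrm_smul, abs_of_pos (div_pos he hn), div_mul_cancel₀ _ hn.ne']
  have h1 := hL.dist_le_mul x ((Real.exp a / nrm x) • x)
  rw [hz _ hy, Real.dist_eq, sub_zero, dist_eq_norm] at h1
  have h2 : x - (Real.exp a / nrm x) • x = (1 - Real.exp a / nrm x) • x := by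
    rw [sub_smul, one_smul]
  have h3 : 0 ≤ 1 - Real.exp a / nrm x := by
    rw [sub_nonneg, div_le_one hn]; exact hx
  have h4 : ‖x - (Real.exp a / nrm x) • x‖ ≤ (1 - Real.exp a / nrm x) * nrm x := by
    refine (norm_le_nrm _).trans ?_
    rw [h2, nrm_smul, abs_of_nonneg h3]
  have h5 : 1 - Real.exp a / nrm x ≤ Real.log (nrm x) - a := by
    have h6 := Real.log_le_sub_one_of_pos (div_pos he hn)
    rw [Real.log_div he.ne' hn.ne', Real.log_exp] at h6
    linarith
  refine h1.trans (mul_le_mul_of_nonneg_left (h4.trans ?_) L.coe_nonneg)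
  rw [mul_comm]
  exact mul_le_mul_of_nonneg_left h5 hn.le

theorem lip_pd {o : E 3 → ℝ} {L : NNReal} (hL : LipschitzWith L o) (x : E 3) (i : Fin 3) :
    |pd i o x| ≤ L := by
  have h1 : ‖fderiv ℝ o x‖ ≤ L := norm_fderiv_le_of_lipschitz ℝ hL
  have h2 := (fderiv ℝ o x).le_opNorm (Pi.single i 1)
  have h3 : ‖(Pi.single i 1 : E 3)‖ = 1 := by simp [Pi.norm_single]
  rw [h3, mul_one] at h2
  exact h2.trans h1

theorem grad_bound {o : E 3 → ℝ} (ho : ContDiff ℝ ∞ o) (hc : HasCompactSupport o) {a : ℝ}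
    (hz : ∀ x, nrm x = Real.exp a → o x = 0) :
    ∃ M : ℝ, 0 ≤ M ∧ ∀ ε, 0 < ε → ∀ x ∈ Shc a (a + 2 * ε),
      ∑ i, pd i (fun y => (1 - ze a ε y) * o y) x ^ 2 ≤ M := by
  obtain ⟨L, hL⟩ := ho.lipschitzWith_of_hasCompactSupport hc (by simp)
  obtain ⟨C, hC0, hC⟩ := stp_deriv_bdd
  have hL0 : (0 : ℝ) ≤ L := L.coe_nonneg
  refine ⟨3 * (2 * C * L + L) ^ 2, by positivity, fun ε hε x hx => ?_⟩
  have hx0 := ne_zero_of_mem_Shc hx
  have hn := nrm_pos hx0
  obtain ⟨-, hl1, hl2⟩ := mem_Shc_iff.1 hx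
  have dz : DifferentiableAt ℝ (ze a ε) x := sm_da isOpen_ne_zero (sm_ze a ε) hx0
  have d1 : DifferentiableAt ℝ (fun y => 1 - ze a ε y) x := (differentiableAt_const _).sub dz
  have do' : DifferentiableAt ℝ o x := ho.differentiable (by simp) x
  have hb : ∀ i, |pd i (fun y => (1 - ze a ε y) * o y) x| ≤ 2 * C * L + L := by
    intro i
    rw [pd_mul d1 do', pd_sub (f := fun _ => (1 : ℝ)) (differentiableAt_const _) dz, pd_const,
      pd_ze a ε hx0]
    have b1 : |deriv stp ((Real.log (nrm x) - a) / ε) / ε * (x i / nrm x ^ 2)| ≤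
        C / ε * (1 / nrm x) := by
      rw [abs_mul, abs_div, abs_div, abs_of_pos hε, abs_of_pos (pow_pos hn 2)]
      refine mul_le_mul (div_le_div_of_nonneg_right (hC _).1 hε.le) ?_ (by positivity)
        (by positivity)
      rw [div_le_div_iff₀ (pow_pos hn 2) hn]
      have := abs_le_nrm x i
      nlinarith
    have b2 : |o x| ≤ L * (nrm x * (2 * ε)) := by
      refine (lip_bound hL hz hx.1).trans (mul_le_mul_of_nonneg_left ?_ hL0)
      exact mul_le_mul_of_nonneg_left (by linarith) hn.le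
    have b3 : |(0 - deriv stp ((Real.log (nrm x) - a) / ε) / ε * (x i / nrm x ^ 2)) * o x| ≤
        2 * C * L := by
      rw [zero_sub, abs_mul, abs_neg]
      refine (mul_le_mul b1 b2 (abs_nonneg _) (by positivity)).trans (le_of_eq ?_)
      field_simp
    have b4 : |(1 - ze a ε x) * pd i o x| ≤ L := by
      rw [abs_mul]
      have s := stp_mem ((Real.log (nrm x) - a) / ε)
      have b5 : |1 - ze a ε x| ≤ 1 := by
        rw [abs_le]; unfold ze; constructor <;> linarith [s.1, s.2]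
      have := mul_le_mul b5 (lip_pd hL x i) (abs_nonneg _) zero_le_one
      linarith
    exact (abs_add_le _ _).trans (add_le_add b3 b4)
  have hb2 : ∀ i, pd i (fun y => (1 - ze a ε y) * o y) x ^ 2 ≤ (2 * C * L + L) ^ 2 := by
    intro i
    rw [← sq_abs]
    exact pow_le_pow_left₀ (abs_nonneg _) (hb i) 2
  rw [Fin.sum_univ_three]
  linarith [hb2 0, hb2 1, hb2 2]

/-- The weak equation extends to test functions that vanish on the middle sphere. -/
theorem core {g : Met 3} {a h : ℝ} (hh : 0 < h) (hg : IsMet g (Sh (a - h) (a + h)))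
    {v : ℕ → E 3 → ℝ} (hv : ∀ k, Sm (Sh (a - h) (a + h)) (v k))
    (h0 : ∀ k, ∀ x ∈ Sh (a - h) (a + h), nrm x < Real.exp a → v k x = 0)
    (hc : ∀ K, IsCompact K → K ⊆ Sh (a - h) (a + h) → CauchyH1 K v)
    (he : ∀ ψ, Test (Sh a (a + h)) ψ → Tendsto
      (fun k => ∫ x in Sh a (a + h), gam g (v k) ψ x * vol g x) atTop (𝓝 0))
    {o : E 3 → ℝ} (ho : Test (Sh (a - h) (a + h)) o) (hz : ∀ x, nrm x = Real.exp a → o x = 0) :
    Tendsto (fun k => ∫ x in Sh (a - h) (a + h), gam g (v k) o x * vol g x) atTop (𝓝 0) := by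
  have hW := hg.opn
  have hK : IsCompact (tsupport o) := ho.cpt.isCompact
  have hKW := ho.sub
  have hW0 : Sh (a - h) (a + h) ⊆ {x : E 3 | x ≠ 0} := fun x hx => ne_zero_of_mem_Sh hx
  have hsub : Sh a (a + h) ⊆ Sh (a - h) (a + h) := fun x hx =>
    ⟨(Real.exp_lt_exp.2 (by linarith)).trans hx.1, hx.2⟩
  obtain ⟨M, hM0, hM⟩ := grad_bound ho.sm ho.cpt hz
  obtain ⟨c, C, -, hC0, hC⟩ := hg.ellip_gam hK hKW
  obtain ⟨N, hN⟩ := hc _ hK hKW 1 one_pos
  have sm0 : Sm (Sh (a - h) (a + h)) (fun _ => (0 : ℝ)) := contDiffOn_const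
  obtain ⟨B, hB0, hB⟩ : ∃ B : ℝ, 0 < B ∧ ∀ k ≥ N, dH1 (tsupport o) (v k) (fun _ => 0) ≤ B := by
    refine ⟨2 + 2 * dH1 (tsupport o) (fun _ => 0) (v N), ?_, fun k hk => ?_⟩
    · have := dH1_nonneg (tsupport o) (fun _ => 0) (v N)
      linarith
    · have h1 := dH1_two hW hK hKW (hv k) sm0 (hv k) (hv N) sm0 (hv N) (fun x _ => by ring)
      have h2 := hN k hk N le_rfl
      linarith
  refine Metric.tendsto_nhds.2 fun δ hδ => ?_
  have hD : 0 < C * B * (C * (M + 1)) := by positivity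
  obtain ⟨ε, hε, hvol⟩ := small_shell a (δ := (δ / 2) ^ 2 / (C * B * (C * (M + 1))))
    (by positivity)
  have hz1 : Sm (Sh (a - h) (a + h)) (ze a ε) := (sm_ze a ε).mono hW0
  have hz2 : Sm (Sh (a - h) (a + h)) (fun x => 1 - ze a ε x) := contDiffOn_const.sub hz1
  have t1 : Test (Sh (a - h) (a + h)) (fun x => ze a ε x * o x) := ho.mul hW hz1
  have t2 : Test (Sh (a - h) (a + h)) (fun x => (1 - ze a ε x) * o x) := ho.mul hW hz2
  have hs1 : tsupport (fun x => ze a ε x * o x) ⊆ {x | Real.exp (a + ε) ≤ nrm x} := by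
    refine closure_minimal ?_ (isClosed_le continuous_const continuous_nrm)
    intro x hx
    have hx1 : ze a ε x ≠ 0 := left_ne_zero_of_mul hx
    have hx2 : o x ≠ 0 := right_ne_zero_of_mul hx
    have hn := nrm_pos (hW0 (hKW (subset_tsupport o hx2)))
    have h1 : 1 < (Real.log (nrm x) - a) / ε := by
      by_contra hcon
      exact hx1 (stp_zero (not_lt.1 hcon))
    rw [lt_div_iff₀ hε] at h1
    have h2 : Real.exp (a + ε) ≤ Real.exp (Real.log (nrm x)) := Real.exp_le_exp.2 (by linarith)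
    rwa [Real.exp_log hn] at h2
  have t1' : Test (Sh a (a + h)) (fun x => ze a ε x * o x) := by
    refine ⟨t1.sm, t1.cpt, fun x hx => ⟨?_, (t1.sub hx).2⟩⟩
    exact (Real.exp_lt_exp.2 (by linarith)).trans_le (hs1 hx)
  have hJ := Metric.tendsto_nhds.1 (he _ t1') (δ / 2) (by positivity)
  filter_upwards [hJ, eventually_ge_atTop N] with k hJk hk
  rw [Real.dist_eq, sub_zero] at hJk ⊢
  have e1 : ∫ x in Sh (a - h) (a + h), gam g (v k) o x * vol g x =
      (∫ x in Sh (a - h) (a + h), gam g (v k) (fun x => ze a ε x * o x) x * vol g x) +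
        ∫ x in Sh (a - h) (a + h), gam g (v k) (fun x => (1 - ze a ε x) * o x) x * vol g x := by
    rw [← integral_add (int_test hg (hv k) t1) (int_test hg (hv k) t2)]
    refine integral_congr_ae (Eventually.of_forall fun x => ?_)
    have d1 : DifferentiableAt ℝ (fun x => ze a ε x * o x) x := t1.sm.differentiable (by simp) x
    have d2 : DifferentiableAt ℝ (fun x => (1 - ze a ε x) * o x) x :=
      t2.sm.differentiable (by simp) x
    have e2 := gam_add_right g d1 d2 (v k)
    have e3 : (fun y => ze a ε y * o y + (1 - ze a ε y) * o y) = o := by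
      funext y; ring
    rw [e3] at e2
    show gam g (v k) o x * vol g x = gam g (v k) (fun x => ze a ε x * o x) x * vol g x +
      gam g (v k) (fun x => (1 - ze a ε x) * o x) x * vol g x
    rw [e2]
    ring
  have e2 : ∫ x in Sh (a - h) (a + h), gam g (v k) (fun x => ze a ε x * o x) x * vol g x =
      ∫ x in Sh a (a + h), gam g (v k) (fun x => ze a ε x * o x) x * vol g x := by
    refine setIntegral_eq_of_subset_of_forall_sdiff_eq_zero hW.measurableSet hsub ?_
    intro x hx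
    rw [gam_zero_right g _ (ev_zero fun hx' => hx.2 (t1'.sub hx')), zero_mul]
  have hA : IsCompact (tsupport o ∩ Shc a (a + 2 * ε)) :=
    hK.inter_right (isCompact_Shc _ _).isClosed
  have hAW : tsupport o ∩ Shc a (a + 2 * ε) ⊆ Sh (a - h) (a + h) := inter_subset_left.trans hKW
  have e3 : ∫ x in Sh (a - h) (a + h), gam g (v k) (fun x => (1 - ze a ε x) * o x) x * vol g x =
      ∫ x in tsupport o ∩ Shc a (a + 2 * ε),
        gam g (v k) (fun x => (1 - ze a ε x) * o x) x * vol g x := by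
    refine setIntegral_eq_of_subset_of_forall_sdiff_eq_zero hW.measurableSet hAW ?_
    intro x hx
    by_cases c1 : x ∈ tsupport o
    · by_cases c2 : nrm x < Real.exp a
      · rw [gam_zero_left g _ ?_, zero_mul]
        filter_upwards [hW.mem_nhds hx.1,
          (isOpen_lt continuous_nrm continuous_const).mem_nhds c2] with y hy1 hy2
        exact h0 k y hy1 hy2
      · have c3 : Real.exp (a + 2 * ε) < nrm x := by
          by_contra hcon
          exact hx.2 ⟨c1, not_lt.1 c2, not_lt.1 hcon⟩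
        rw [gam_zero_right g _ ?_, zero_mul]
        filter_upwards [(isOpen_lt continuous_const continuous_nrm).mem_nhds c3] with y hy
        have hy' : Real.exp (a + 2 * ε) < nrm y := hy
        have h1 : a + 2 * ε < Real.log (nrm y) := by
          have := Real.log_lt_log (Real.exp_pos _) hy'
          rwa [Real.log_exp] at this
        have h2 : ze a ε y = 1 := by
          refine stp_one ?_
          rw [le_div_iff₀ hε]
          linarith
        rw [h2, sub_self, zero_mul]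
    · rw [gam_zero_right g _ ?_, zero_mul]
      filter_upwards [ev_zero c1] with y hy
      rw [hy, mul_zero]
  have i0 := dH1_integrable hW hA hAW (hv k) sm0
  have cs := (abs_integral_le_sqrt (μ := volume.restrict (tsupport o ∩ Shc a (a + 2 * ε)))
    (f := fun x => gam g (v k) (fun x => (1 - ze a ε x) * o x) x * vol g x)
    (a := fun x => C * ((v k x - 0) ^ 2 + ∑ i, (pd i (v k) x - pd i (fun _ => (0 : ℝ)) x) ^ 2))
    (b := fun _ => C * (M + 1))
    ((int_test hg (hv k) t2).mono_set hAW).aestronglyMeasurable (i0.const_mul C)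
    (integrableOn_const hA.measure_lt_top.ne)
    (Eventually.of_forall fun x => by positivity) (Eventually.of_forall fun x => by positivity)
    ?_).2
  · rw [integral_const_mul, setIntegral_const, smul_eq_mul] at cs
    have b1 : ∫ x in tsupport o ∩ Shc a (a + 2 * ε),
        ((v k x - 0) ^ 2 + ∑ i, (pd i (v k) x - pd i (fun _ => (0 : ℝ)) x) ^ 2) ≤ B :=
      (dH1_mono hW hK hKW inter_subset_left (hv k) sm0).trans (hB k hk)
    have b2 : volume.real (tsupport o ∩ Shc a (a + 2 * ε)) ≤ volume.real (Shc a (a + 2 * ε)) :=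
      measureReal_mono inter_subset_right (isCompact_Shc _ _).measure_lt_top.ne
    have b3 : √(C * ∫ x in tsupport o ∩ Shc a (a + 2 * ε),
        ((v k x - 0) ^ 2 + ∑ i, (pd i (v k) x - pd i (fun _ => (0 : ℝ)) x) ^ 2)) ≤ √(C * B) :=
      Real.sqrt_le_sqrt (mul_le_mul_of_nonneg_left b1 hC0.le)
    have b4 : √(C * B) * √(volume.real (tsupport o ∩ Shc a (a + 2 * ε)) * (C * (M + 1))) ≤
        δ / 2 := by
      rw [← Real.sqrt_mul (by positivity)]
      refine Real.sqrt_le_iff.2 ⟨by positivity, ?_⟩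
      have b5 := (b2.trans_lt hvol).le
      rw [le_div_iff₀ hD] at b5
      linarith
    have b5 := cs.trans ((mul_le_mul_of_nonneg_right b3 (Real.sqrt_nonneg _)).trans b4)
    rw [e1, e2, e3]
    exact (abs_add_le _ _).trans_lt (by linarith)
  · refine (ae_restrict_iff' hA.measurableSet).2 (Eventually.of_forall fun x hx => ?_)
    have hp := hg.pos x (hAW hx)
    have hv0 := vol_nonneg g x
    have q1 := gam_sq_le hp (v k) (fun x => (1 - ze a ε x) * o x)
    have q2 := ((hC x hx.1).2.2 (v k)).2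
    have q3 := ((hC x hx.1).2.2 (fun x => (1 - ze a ε x) * o x)).2
    have q4 := hM ε hε x hx.2
    have q5 := mul_nonneg (gam_nonneg hp (fun x => (1 - ze a ε x) * o x)) hv0
    have q6 : gam g (v k) (v k) x * vol g x ≤
        C * ((v k x - 0) ^ 2 + ∑ i, (pd i (v k) x - pd i (fun _ => (0 : ℝ)) x) ^ 2) := by
      refine q2.trans (mul_le_mul_of_nonneg_left ?_ hC0.le)
      simp only [pd_const, sub_zero]
      nlinarith [sq_nonneg (v k x)]
    have q7 : gam g (fun x => (1 - ze a ε x) * o x) (fun x => (1 - ze a ε x) * o x) x * vol g x ≤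
        C * (M + 1) := q3.trans (mul_le_mul_of_nonneg_left (by linarith) hC0.le)
    have q8 := mul_le_mul q6 q7 q5 (by positivity)
    refine le_trans ?_ q8
    have q9 := mul_le_mul_of_nonneg_right q1 (sq_nonneg (vol g x))
    nlinarith

end ReflectAux

open ReflectAux in
theorem reflect {φ N : E 3 → ℝ} (hφ : Hom0 φ) (hN : Hom0 N) (hN0 : ∀ x, x ≠ 0 → 0 < N x)
    {a h : ℝ} (hh : 0 < h) {v : ℕ → E 3 → ℝ} (hv : ∀ k, Sm (Sh (a - h) (a + h)) (v k))
    (h0 : ∀ k, ∃ ε, 0 < ε ∧ ∀ x ∈ Sh (a - h) (a + h), nrm x < Real.exp (a + ε) → v k x = 0)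
    (hc : ∀ K, IsCompact K → K ⊆ Sh (a - h) (a + h) → CauchyH1 K v)
    (he : ∀ ψ, Test (Sh a (a + h)) ψ → Tendsto
      (fun k => ∫ x in Sh a (a + h), gam (cyl φ N) (v k) ψ x * vol (cyl φ N) x) atTop (𝓝 0)) :
    ∃ V, Sm (Sh (a - h) (a + h)) V ∧ (∀ x ∈ Sh (a - h) (a + h), lap (cyl φ N) V x = 0) ∧
      (∀ x ∈ Sh (a - h) (a + h), V (refl a x) = -V x) ∧
      ∀ K, IsCompact K → K ⊆ Sh a (a + h) → TendH1 K v V := by
  have hW : IsOpen (Sh (a - h) (a + h)) := isOpen_Sh _ _
  have hW0 : Sh (a - h) (a + h) ⊆ {x : E 3 | x ≠ 0} := fun x hx => ne_zero_of_mem_Sh hx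
  have hsub : Sh a (a + h) ⊆ Sh (a - h) (a + h) := fun x hx =>
    ⟨(Real.exp_lt_exp.2 (by linarith)).trans hx.1, hx.2⟩
  have hg : IsMet (cyl φ N) (Sh (a - h) (a + h)) :=
    isMet_cyl hφ hW hW0 (hN.sm.mono hW0) fun x hx => hN0 x (hW0 hx)
  have hR : IsChart (refl a) (Sh (a - h) (a + h)) := (isChart_refl a).mono hW hW0
  have hm : MapsTo (refl a) (Sh (a - h) (a + h)) (Sh (a - h) (a + h)) := by
    intro x hx
    have h1 := refl_mem_Sh (a := a) hx
    rwa [show 2 * a - (a + h) = a - h by ring, show 2 * a - (a - h) = a + h by ring] at h1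
  have hRR : ∀ x ∈ Sh (a - h) (a + h), refl a (refl a x) = x := fun x hx => refl_refl a (hW0 hx)
  have hIm : refl a '' Sh (a - h) (a + h) = Sh (a - h) (a + h) :=
    Subset.antisymm hm.image_subset fun x hx => ⟨refl a x, hm hx, hRR x hx⟩
  have hcI : ∀ K, IsCompact K → K ⊆ Sh (a - h) (a + h) →
      IsCompact (refl a '' K) ∧ refl a '' K ⊆ Sh (a - h) (a + h) := fun K hK hKW =>
    ⟨hK.image_of_continuousOn (hR.sm.continuousOn.mono hKW), (hm.mono_left hKW).image_subset⟩
  have h0' : ∀ k, ∀ x ∈ Sh (a - h) (a + h), nrm x < Real.exp a → v k x = 0 := by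
    intro k x hx hlt
    obtain ⟨ε, hε, h1⟩ := h0 k
    exact h1 x hx (hlt.trans (Real.exp_lt_exp.2 (by linarith)))
  have hvR : ∀ k, Sm (Sh (a - h) (a + h)) (fun x => v k (refl a x)) := fun k =>
    hR.sm_comp hm (hv k)
  have hw : ∀ k, Sm (Sh (a - h) (a + h)) (fun x => v k x - v k (refl a x)) := fun k =>
    (hv k).sub (hvR k)
  have hcw : ∀ K, IsCompact K → K ⊆ Sh (a - h) (a + h) →
      CauchyH1 K (fun k x => v k x - v k (refl a x)) := by
    intro K hK hKW ε hε
    obtain ⟨C, hC0, hC⟩ := dH1_comp_le hR hW hm hK hKW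
    obtain ⟨N₁, hN₁⟩ := hc K hK hKW (ε / 4) (by positivity)
    obtain ⟨N₂, hN₂⟩ := hc _ (hcI K hK hKW).1 (hcI K hK hKW).2 (ε / (4 * C)) (by positivity)
    refine ⟨max N₁ N₂, fun k hk l hl => ?_⟩
    have h1 := dH1_two hW hK hKW (hw k) (hw l) (hv k) (hv l) (hvR k) (hvR l) (fun x _ => by ring)
    have h2 := hN₁ k (le_of_max_le_left hk) l (le_of_max_le_left hl)
    have h3 := hN₂ k (le_of_max_le_right hk) l (le_of_max_le_right hl)
    have h4 := hC K hK.measurableSet subset_rfl _ _ (hv k) (hv l)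
    have h5 := mul_le_mul_of_nonneg_left h3 hC0.le
    have h6 : C * (ε / (4 * C)) = ε / 4 := by field_simp
    show dH1 K (fun x => v k x - v k (refl a x)) (fun x => v l x - v l (refl a x)) ≤ ε
    linarith
  have hew : ∀ ψ, Test (Sh (a - h) (a + h)) ψ → Tendsto (fun k => ∫ x in Sh (a - h) (a + h),
      gam (cyl φ N) (fun x => v k x - v k (refl a x)) ψ x * vol (cyl φ N) x) atTop
      (𝓝 (-∫ x in Sh (a - h) (a + h), (fun _ => (0 : ℝ)) x * ψ x * vol (cyl φ N) x)) := by
    intro ψ hψ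
    have hψs : Sm (Sh (a - h) (a + h)) ψ := hψ.sm.contDiffOn
    have hψR : Sm (Sh (a - h) (a + h)) (fun x => ψ (refl a x)) := hR.sm_comp hm hψs
    obtain ⟨hK', hK'W⟩ := hcI _ hψ.cpt.isCompact hψ.sub
    have tR : Test (Sh (a - h) (a + h))
        ((Sh (a - h) (a + h)).indicator fun x => ψ (refl a x)) := by
      refine (test_indicator hW hψR hK' hK'W fun x hx hx' => ?_).1
      by_contra hne
      exact hx' ⟨refl a x, subset_tsupport ψ hne, hRR x hx⟩
    have tO : Test (Sh (a - h) (a + h))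
        (fun x => ψ x - (Sh (a - h) (a + h)).indicator (fun x => ψ (refl a x)) x) := by
      refine ⟨hψ.sm.sub tR.sm, hψ.cpt.sub tR.cpt, ?_⟩
      exact (tsupport_sub ψ _).trans (union_subset hψ.sub tR.sub)
    have hz : ∀ x, nrm x = Real.exp a →
        ψ x - (Sh (a - h) (a + h)).indicator (fun x => ψ (refl a x)) x = 0 := by
      intro x hx
      have hxW : x ∈ Sh (a - h) (a + h) := by
        constructor <;> rw [hx] <;> exact Real.exp_lt_exp.2 (by linarith)
      rw [indicator_of_mem hxW, refl_of_nrm a hx, sub_self]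
    have hco := core hh hg hv h0' hc he tO hz
    have e0 : -∫ x in Sh (a - h) (a + h), (fun _ => (0 : ℝ)) x * ψ x * vol (cyl φ N) x = 0 := by
      simp
    rw [e0]
    refine hco.congr fun k => ?_
    have e1 : ∫ x in Sh (a - h) (a + h), gam (cyl φ N) (v k)
          ((Sh (a - h) (a + h)).indicator fun x => ψ (refl a x)) x * vol (cyl φ N) x =
        ∫ x in Sh (a - h) (a + h),
          gam (cyl φ N) (fun x => v k (refl a x)) ψ x * vol (cyl φ N) x := by
      have e2 := hR.integral (cyl φ N) hW.measurableSet subset_rfl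
        (gam (cyl φ N) (v k) ((Sh (a - h) (a + h)).indicator fun x => ψ (refl a x)))
      rw [hIm] at e2
      rw [e2]
      refine setIntegral_congr_fun hW.measurableSet fun y hy => ?_
      have e3 := pull_refl_cyl a hφ hN (hW0 hy)
      have e4 := gam_pull hg hR hm (hv k) tR.sm.contDiffOn hy
      have e5 : vol (pull (refl a) (cyl φ N)) y = vol (cyl φ N) y := by
        unfold vol; rw [e3]
      show gam (cyl φ N) (v k) ((Sh (a - h) (a + h)).indicator fun x => ψ (refl a x)) (refl a y) *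
        vol (pull (refl a) (cyl φ N)) y =
        gam (cyl φ N) (fun x => v k (refl a x)) ψ y * vol (cyl φ N) y
      rw [← e4, e5]
      congr 1
      refine gam_congr e3 (EventuallyEq.refl _ _) ?_
      filter_upwards [hW.mem_nhds hy] with z hz
      rw [indicator_of_mem (hm hz), hRR z hz]
    have e6 : ∫ x in Sh (a - h) (a + h), gam (cyl φ N) (v k)
          (fun x => ψ x - (Sh (a - h) (a + h)).indicator (fun x => ψ (refl a x)) x) x *
            vol (cyl φ N) x =
        (∫ x in Sh (a - h) (a + h), gam (cyl φ N) (v k) ψ x * vol (cyl φ N) x) -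
          ∫ x in Sh (a - h) (a + h), gam (cyl φ N) (v k)
            ((Sh (a - h) (a + h)).indicator fun x => ψ (refl a x)) x * vol (cyl φ N) x := by
      rw [← integral_sub (int_test hg (hv k) hψ) (int_test hg (hv k) tR)]
      refine integral_congr_ae (Eventually.of_forall fun x => ?_)
      have e7 := gam_sub_right (cyl φ N) (hψ.sm.differentiable (by simp) x)
        (tR.sm.differentiable (by simp) x) (v k)
      show gam (cyl φ N) (v k)
        (fun x => ψ x - (Sh (a - h) (a + h)).indicator (fun x => ψ (refl a x)) x) x *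
          vol (cyl φ N) x = gam (cyl φ N) (v k) ψ x * vol (cyl φ N) x - gam (cyl φ N) (v k)
            ((Sh (a - h) (a + h)).indicator fun x => ψ (refl a x)) x * vol (cyl φ N) x
      rw [e7]
      ring
    rw [e6, e1, ← integral_sub (int_test hg (hv k) hψ) (int_test hg (hvR k) hψ)]
    refine setIntegral_congr_fun hW.measurableSet fun x hx => ?_
    have e8 := gam_sub_left (cyl φ N) (sm_da hW (hv k) hx) (sm_da hW (hvR k) hx) ψ
    show gam (cyl φ N) (v k) ψ x * vol (cyl φ N) x -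
      gam (cyl φ N) (fun x => v k (refl a x)) ψ x * vol (cyl φ N) x =
      gam (cyl φ N) (fun x => v k x - v k (refl a x)) ψ x * vol (cyl φ N) x
    rw [e8]
    ring
  obtain ⟨V, hV, hlap, hT⟩ := ell_seq hg (f := fun _ => 0) contDiffOn_const hw hcw hew
  have hVR : Sm (Sh (a - h) (a + h)) (fun x => V (refl a x)) := hR.sm_comp hm hV
  refine ⟨V, hV, hlap, ?_, ?_⟩
  · have hT' : ∀ K, IsCompact K → K ⊆ Sh (a - h) (a + h) →
        TendH1 K (fun k x => v k x - v k (refl a x)) (fun x => -V (refl a x)) := by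
      intro K hK hKW
      obtain ⟨C, hC0, hC⟩ := dH1_comp_le hR hW hm hK hKW
      have t1 := (hT _ (hcI K hK hKW).1 (hcI K hK hKW).2).const_mul C
      rw [mul_zero] at t1
      refine squeeze_zero (fun k => dH1_nonneg _ _ _) (fun k => ?_) t1
      have h1 := hC K hK.measurableSet subset_rfl _ _ (hw k) hV
      refine le_trans (le_of_eq ?_) h1
      rw [← dH1_neg K (fun y => v k (refl a y) - v k (refl a (refl a y)))]
      refine dH1_congr hW hK.measurableSet hKW (fun x hx => ?_) fun x _ => rfl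
      rw [hRR x hx]
      ring
    intro x hx
    have h1 := tendH1_unique hW hw hV hVR.neg hT hT' x hx
    rw [h1, neg_neg]
  · intro K hK hKW
    refine (hT K hK (hKW.trans hsub)).congr fun k => ?_
    refine dH1_congr (isOpen_Sh a (a + h)) hK.measurableSet hKW (fun x hx => ?_) fun x _ => rfl
    have h1 := (refl_mem_Sh (a := a) hx).2
    rw [show 2 * a - a = a by ring] at h1
    show v k x - v k (refl a x) = v k x
    rw [h0' k _ (hm (hsub hx)) h1, sub_zero]

end Pool.Agent.P.MP_56a1cd_gt
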