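import Pool.Agent.P.MP_56a1cd_gt.Exist
import Pool.Agent.P.MP_56a1cd_gt.Reflect
import Pool.Agent.P.MP_56a1cd_gt.Hardy
import Pool.Agent.P.MP_56a1cd_gt.Kelvin

namespace Pool.Agent.P.MP_56a1cd_gt

open MeasureTheory Matrix Set Filter Topology
open scoped ContDiff ENNReal

variable {m n : ℕ}

/-! Existence of the harmonic potential. Take `U k` from `exist_seq`; `ell_seq` on `interior M` gives a
harmonic limit, `reflect` continues it across the boundary, `hardy_limit` and `kelvin` give the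
asymptotics. -/

namespace PrePotExAux

theorem pd_one_sub (u : E n → ℝ) (x : E n) (i : Fin n) :
    pd i (fun y => 1 - u y) x = -pd i u x := by
  have e : (fun y => 1 - u y) = fun y => -u y + 1 := by
    funext y
    ring
  rw [e, pd_add_const, pd_neg]

theorem dH1_one_sub (K : Set (E n)) (u v : E n → ℝ) :
    dH1 K (fun y => 1 - u y) (fun y => 1 - v y) = dH1 K u v := by
  unfold dH1
  refine congrArg _ ?_
  funext x
  have e : ∀ i, (pd i (fun y => 1 - u y) x - pd i (fun y => 1 - v y) x) ^ 2 =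
      (pd i u x - pd i v x) ^ 2 := by
    intro i
    rw [pd_one_sub, pd_one_sub]
    ring
  simp only [e]
  ring

theorem gam_one_sub (g : Met n) (u k : E n → ℝ) (x : E n) :
    gam g (fun y => 1 - u y) k x = -gam g u k x := by
  unfold gam
  simp only [pd_one_sub, mul_neg, neg_mul, Finset.sum_neg_distrib]

theorem pd_eq_zero_of_notMem {f : E n → ℝ} {x : E n} (hx : x ∉ tsupport f) (i : Fin n) :
    pd i f x = 0 := by
  have e : f =ᶠ[𝓝 x] fun _ => 0 := notMem_tsupport_iff_eventuallyEq.mp hx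
  rw [pd_congr e, pd_const]

theorem gam_eq_zero_of_notMem (g : Met n) (u : E n → ℝ) {f : E n → ℝ} {x : E n}
    (hx : x ∉ tsupport f) : gam g u f x = 0 := by
  unfold gam
  simp only [pd_eq_zero_of_notMem hx, mul_zero, Finset.sum_const_zero]

theorem cauchy_comp {Φ : E n → E n} {W U K : Set (E n)} (h : IsChart Φ W) (hU : IsOpen U)
    (hm : MapsTo Φ W U) (hK : IsCompact K) (hKW : K ⊆ W) {u : ℕ → E n → ℝ}
    (hu : ∀ k, Sm U (u k)) (hc : CauchyH1 (Φ '' K) u) :
    CauchyH1 K (fun k y => u k (Φ y)) := by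
  obtain ⟨c, hc0, hle⟩ := dH1_comp_le h hU hm hK hKW
  intro ε hε
  obtain ⟨N, hN⟩ := hc (ε / c) (div_pos hε hc0)
  refine ⟨N, fun k hk l hl => ?_⟩
  have h1 := hle K hK.measurableSet subset_rfl (u k) (u l) (hu k) (hu l)
  have h2 := hN k hk l hl
  have h3 : c * dH1 (Φ '' K) (u k) (u l) ≤ c * (ε / c) := mul_le_mul_of_nonneg_left h2 hc0.le
  have h4 : c * (ε / c) = ε := by field_simp
  exact h1.trans (h3.trans h4.le)

theorem tend_comp {Φ : E n → E n} {W U K : Set (E n)} (h : IsChart Φ W) (hU : IsOpen U)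
    (hm : MapsTo Φ W U) (hK : IsCompact K) (hKW : K ⊆ W) {u : ℕ → E n → ℝ} {v : E n → ℝ}
    (hu : ∀ k, Sm U (u k)) (hv : Sm U v) (hc : TendH1 (Φ '' K) u v) :
    TendH1 K (fun k y => u k (Φ y)) (fun y => v (Φ y)) := by
  obtain ⟨c, _, hle⟩ := dH1_comp_le h hU hm hK hKW
  have h1 : Tendsto (fun k => c * dH1 (Φ '' K) (u k) v) atTop (𝓝 0) := by
    have h2 := Tendsto.const_mul c hc
    rwa [mul_zero] at h2
  exact squeeze_zero (fun k => dH1_nonneg _ _ _)
    (fun k => hle K hK.measurableSet subset_rfl (u k) v (hu k) hv) h1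

variable {φ : E 3 → ℝ} (C : Cap φ)

theorem half_sub : Sh C.a (C.a + C.h) ⊆ C.W := by
  intro x hx
  refine ⟨lt_trans ?_ hx.1, hx.2⟩
  exact Real.exp_lt_exp.mpr (by linarith [C.h_pos])

theorem half_chart : IsChart C.Φ (Sh C.a (C.a + C.h)) :=
  C.chart'.mono (isOpen_Sh _ _) (half_sub C)

theorem half_maps : MapsTo C.Φ (Sh C.a (C.a + C.h)) (interior C.M) :=
  fun _ hx => (C.mem_interior_iff (half_sub C hx)).mpr hx.1

theorem near_one {u : E 3 → ℝ} (hu : ∀ᶠ z in 𝓝ˢ (interior C.M)ᶜ, u z = 1) :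
    ∃ ε, 0 < ε ∧ ∀ x ∈ C.W, nrm x < Real.exp (C.a + ε) → 1 - u (C.Φ x) = 0 := by
  obtain ⟨O, hO, hsub, hone⟩ := eventually_nhdsSet_iff_exists.mp hu
  have hh := C.h_pos
  have hop : IsOpen (C.W ∩ C.Φ ⁻¹' O) := C.chart'.isOpen_preimage hO
  have hlow : ∀ x ∈ C.W, nrm x ≤ Real.exp C.a → C.Φ x ∈ O := by
    intro x hx hle
    apply hsub
    intro hin
    exact absurd ((C.mem_interior_iff hx).mp hin) (not_lt.mpr hle)
  have hK : IsCompact (Shc C.a (C.a + C.h / 2) \ (C.W ∩ C.Φ ⁻¹' O)) :=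
    (isCompact_Shc _ _).diff hop
  have hS : Shc C.a (C.a + C.h / 2) ⊆ C.W := C.Shc_subset_W (by linarith) (by linarith)
  have hgt : ∀ x ∈ Shc C.a (C.a + C.h / 2) \ (C.W ∩ C.Φ ⁻¹' O), Real.exp C.a < nrm x := by
    intro x hx
    by_contra hle
    exact hx.2 ⟨hS hx.1, hlow x (hS hx.1) (not_lt.mp hle)⟩
  obtain ⟨b, hb, hbK⟩ := hK.exists_forall_le' continuous_nrm.continuousOn hgt
  have hb0 : 0 < b := lt_trans (Real.exp_pos _) hb
  have hlog : C.a < Real.log b := (Real.lt_log_iff_exp_lt hb0).mpr hb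
  refine ⟨min (Real.log b - C.a) (C.h / 2), lt_min (by linarith) (by linarith), ?_⟩
  intro x hx hlt
  have hin : C.Φ x ∈ O := by
    by_cases hle : nrm x ≤ Real.exp C.a
    · exact hlow x hx hle
    · by_contra hno
      have h1 : Real.exp (C.a + min (Real.log b - C.a) (C.h / 2)) ≤ Real.exp (C.a + C.h / 2) :=
        Real.exp_le_exp.mpr (by linarith [min_le_right (Real.log b - C.a) (C.h / 2)])
      have h2 : Real.exp (C.a + min (Real.log b - C.a) (C.h / 2)) ≤ Real.exp (Real.log b) :=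
        Real.exp_le_exp.mpr (by linarith [min_le_left (Real.log b - C.a) (C.h / 2)])
      rw [Real.exp_log hb0] at h2
      have h3 := hbK x ⟨⟨(not_le.mp hle).le, by linarith⟩, fun hc => hno hc.2⟩
      linarith
  rw [hone _ hin, sub_self]

theorem weak_half {u ψ : E 3 → ℝ} (hu : ContDiff ℝ ∞ u) {ψ' : E 3 → ℝ}
    (hψ' : Test (C.Φ '' Sh C.a (C.a + C.h)) ψ')
    (e : ∀ y ∈ Sh C.a (C.a + C.h), ψ' (C.Φ y) = ψ y) :
    ∫ x in Sh C.a (C.a + C.h),
        gam (cyl φ C.N) (fun y => 1 - u (C.Φ y)) ψ x * vol (cyl φ C.N) x =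
      -∫ x in interior C.M, gam C.g u ψ' x * vol C.g x := by
  have hsub : C.Φ '' Sh C.a (C.a + C.h) ⊆ interior C.M := (half_maps C).image_subset
  have h1 : ∫ x in interior C.M, gam C.g u ψ' x * vol C.g x =
      ∫ x in C.Φ '' Sh C.a (C.a + C.h), gam C.g u ψ' x * vol C.g x := by
    refine setIntegral_eq_of_subset_of_forall_sdiff_eq_zero isOpen_interior.measurableSet hsub ?_
    intro x hx
    rw [gam_eq_zero_of_notMem C.g u (fun hc => hx.2 (hψ'.sub hc)), zero_mul]
  rw [h1, (half_chart C).integral C.g (isOpen_Sh _ _).measurableSet subset_rfl, ← integral_neg]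
  refine setIntegral_congr_fun (isOpen_Sh _ _).measurableSet ?_
  intro x hx
  have hxW : x ∈ C.W := half_sub C hx
  have h2 : vol (pull C.Φ C.g) x = vol (cyl φ C.N) x := by
    unfold vol
    rw [C.cylΦ x hxW]
  have h3 : gam (cyl φ C.N) (fun y => u (C.Φ y)) (fun y => ψ' (C.Φ y)) x =
      gam (cyl φ C.N) (fun y => u (C.Φ y)) ψ x :=
    gam_congr rfl EventuallyEq.rfl
      (eventually_of_mem ((isOpen_Sh _ _).mem_nhds hx) e)
  simp only
  rw [gam_one_sub, h2, C.gam_Φ hu.contDiffOn hψ'.sm.contDiffOn hxW, h3]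
  ring

theorem energy_int {u : E 3 → ℝ} (hu : ContDiff ℝ ∞ u) (hc : HasCompactSupport u) :
    IntegrableOn (fun x => gam C.g u u x * vol C.g x) C.M := by
  have hs : Sm C.Ω (fun x => gam C.g u u x * vol C.g x) :=
    (C.met'.sm_gam hu.contDiffOn hu.contDiffOn).mul C.met'.sm_vol
  refine integrableOn_of_cpt (K := tsupport u ∩ C.M) C.closed.measurableSet
    (hc.isCompact.inter_right C.closed) inter_subset_right
    (hs.continuousOn.mono (inter_subset_right.trans C.M_sub)) ?_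
  intro x hx hx'
  rw [gam_eq_zero_of_notMem C.g u (fun h => hx' ⟨h, hx⟩), zero_mul]

theorem energy_far {u : E 3 → ℝ} (hu : ContDiff ℝ ∞ u) (hc : HasCompactSupport u) :
    IntegrableOn (fun x => ∑ i, pd i (fun y => u (C.F y)) x ^ 2) (Ext C.r) ∧
      ∫ x in Ext C.r, ∑ i, pd i (fun y => u (C.F y)) x ^ 2 ≤
        ∫ x in C.M, gam C.g u u x * vol C.g x := by
  have hsub : C.F '' Ext C.r ⊆ C.M := C.mapsF.image_subset.trans interior_subset
  have hi := energy_int C hu hc
  obtain ⟨h1, h2⟩ := C.integral_F (isOpen_Ext C.r).measurableSet subset_rfl (gam C.g u u)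
  have e : EqOn (fun x => gam C.g u u (C.F x))
      (fun x => ∑ i, pd i (fun y => u (C.F y)) x ^ 2) (Ext C.r) := by
    intro x hx
    simp only
    rw [C.gam_F hu.contDiffOn hu.contDiffOn hx]
    simp only [sq]
  refine ⟨(h1.mp (hi.mono_set hsub)).congr_fun e (isOpen_Ext C.r).measurableSet, ?_⟩
  rw [← setIntegral_congr_fun (isOpen_Ext C.r).measurableSet e, ← h2]
  refine setIntegral_mono_set hi ?_ hsub.eventuallyLE
  refine (ae_restrict_iff' C.closed.measurableSet).mpr (Eventually.of_forall fun x hx => ?_)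
  exact mul_nonneg (gam_nonneg (C.met'.pos x (C.M_sub hx)) u) (vol_nonneg _ _)

theorem asym {u : ℕ → E 3 → ℝ} (hu : ∀ k, ContDiff ℝ ∞ (u k)) (hc : ∀ k, HasCompactSupport (u k))
    {B : ℝ} (hB : ∀ k, ∫ x in C.M, gam C.g (u k) (u k) x * vol C.g x ≤ B) {U : E 3 → ℝ}
    (hU : Sm C.Ω U) (hl : ∀ x ∈ C.Ω, lap C.g U x = 0)
    (ht : ∀ K, IsCompact K → K ⊆ interior C.M → TendH1 K u U) :
    ∃ c K r' : ℝ, C.r < r' ∧ ∀ x, r' ≤ nrm x →
      |U (C.F x) - c / nrm x| ≤ K / nrm x ^ 2 ∧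
        ∀ i, |pd i (fun y => U (C.F y)) x + c * x i / nrm x ^ 3| ≤ K / nrm x ^ 3 := by
  have hr := C.r_pos
  have hv : Sm (Ext C.r) (fun y => U (C.F y)) := C.chartF.sm_comp C.mapsF' hU
  have hi : IntegrableOn (fun x => (fun y => U (C.F y)) x ^ 2 / nrm x ^ 2 +
      ∑ i, pd i (fun y => U (C.F y)) x ^ 2) (Ext (3 * C.r)) := by
    refine hardy_limit (u := fun k y => u k (C.F y)) (B := B) hr (by linarith)
      (fun k => C.chartF.sm_comp C.mapsF' (hu k).contDiffOn) hv ?_
      (fun k => (energy_far C (hu k) (hc k)).1)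
      (fun k => (energy_far C (hu k) (hc k)).2.trans (hB k)) ?_
    · intro k
      obtain ⟨R, _, hR⟩ := C.exists_far (hc k).isCompact.isBounded
      exact ⟨R, fun x hx => image_eq_zero_of_notMem_tsupport (hR x hx)⟩
    · intro K hK hKW
      exact tend_comp C.chartF isOpen_interior C.mapsF hK hKW (fun k => (hu k).contDiffOn)
        (hU.mono subset_union_left)
        (ht _ (hK.image_of_continuousOn (C.chartF.sm.continuousOn.mono hKW))
          ((C.mapsF.mono_left hKW).image_subset))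
  have hsub : (Ext (3 * C.r) : Set (E 3)) ⊆ Ext C.r := by
    intro x hx
    have hx' : 3 * C.r < nrm x := hx
    show C.r < nrm x
    linarith
  have hlap : ∀ x ∈ (Ext (3 * C.r) : Set (E 3)), lap flat (fun y => U (C.F y)) x = 0 := by
    intro x hx
    have h1 := lap_pull C.met' C.chartF C.mapsF' hU (hsub hx)
    have h2 : pull C.F C.g =ᶠ[𝓝 x] flat :=
      eventually_of_mem ((isOpen_Ext C.r).mem_nhds (hsub hx)) C.flatF
    rw [← lap_congr h2 EventuallyEq.rfl, h1]
    exact hl _ (C.mapsF' (hsub hx))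
  obtain ⟨c, K, r', h1, h2⟩ := kelvin (by linarith) (hv.mono hsub) hlap hi
  exact ⟨c, K, r', by linarith, h2⟩

end PrePotExAux

open PrePotExAux in
theorem prepot_exists {φ : E 3 → ℝ} (hφ : Hom0 φ) (C : Cap φ) : ∃ U, PrePot C U := by
  classical
  obtain ⟨u, hus, huc, hu1, huC, ⟨B, hB⟩, huw⟩ := exist_seq C
  have hI : IsMet C.g (interior C.M) := C.met'.mono isOpen_interior subset_union_left
  obtain ⟨U₀, hU₀, hl₀, ht₀⟩ := ell_seq hI (f := fun _ => 0) contDiffOn_const
    (u := u) (fun k => (hus k).contDiffOn) (fun K hK _ => huC K hK) (by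
      intro ψ hψ
      simpa using huw ψ hψ)
  have hvs : ∀ k, Sm C.W (fun y => 1 - u k (C.Φ y)) := fun k =>
    contDiffOn_const.sub (C.chart'.sm_comp C.mapsΦ (hus k).contDiffOn)
  obtain ⟨V, hVs, hVl, hVo, hVt⟩ := reflect hφ C.N_hom C.N_pos C.h_pos
    (v := fun k y => 1 - u k (C.Φ y)) hvs (fun k => near_one C (hu1 k)) (by
      intro K hK hKW ε hε
      obtain ⟨N, hN⟩ := cauchy_comp C.chart' C.isOpen_Ω C.mapsΦ hK hKW
        (fun k => (hus k).contDiffOn)
        (huC _ (hK.image_of_continuousOn (C.chart.sm.continuousOn.mono hKW))) ε hε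
      refine ⟨N, fun k hk l hl => ?_⟩
      exact (dH1_one_sub K (fun y => u k (C.Φ y)) (fun y => u l (C.Φ y))).le.trans
        (hN k hk l hl)) (by
      intro ψ hψ
      obtain ⟨ψ', hψ', e, _⟩ := (half_chart C).push hψ
      have h1 := (huw ψ' (hψ'.mono (half_maps C).image_subset)).neg
      rw [neg_zero] at h1
      exact h1.congr fun k => (weak_half C (hus k) hψ' e).symm)
  have hVU : ∀ x ∈ Sh C.a (C.a + C.h), V x = 1 - U₀ (C.Φ x) := by
    refine tendH1_unique (isOpen_Sh _ _) (u := fun k y => 1 - u k (C.Φ y))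
      (fun k => (hvs k).mono (half_sub C)) (hVs.mono (half_sub C))
      (contDiffOn_const.sub ((half_chart C).sm_comp (half_maps C) hU₀)) hVt ?_
    intro K hK hKW
    have h1 := tend_comp (half_chart C) isOpen_interior (half_maps C) hK hKW
      (fun k => (hus k).contDiffOn) hU₀
      (ht₀ _ (hK.image_of_continuousOn ((half_chart C).sm.continuousOn.mono hKW))
        (((half_maps C).mono_left hKW).image_subset))
    exact Tendsto.congr
      (fun k => (dH1_one_sub K (fun y => u k (C.Φ y)) (fun y => U₀ (C.Φ y))).symm) h1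
  obtain ⟨U, hUΦ, hUI⟩ : ∃ U : E 3 → ℝ, (∀ x ∈ C.W, U (C.Φ x) = 1 - V x) ∧
      ∀ z ∈ interior C.M, U z = U₀ z := by
    refine ⟨fun z => if z ∈ C.Φ '' C.W then 1 - V (Function.invFunOn C.Φ C.W z) else U₀ z,
      ?_, ?_⟩
    · intro x hx
      simp only
      rw [if_pos (mem_image_of_mem _ hx), C.chart'.left_inv hx]
    · intro z hz
      simp only
      split_ifs with h
      · obtain ⟨x, hx, rfl⟩ := h
        rw [C.chart'.left_inv hx, hVU x ⟨(C.mem_interior_iff hx).mp hz, hx.2⟩]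
        ring
      · rfl
  have hs1 : Sm (interior C.M) U := hU₀.congr hUI
  have hs2 : Sm (C.Φ '' C.W) U :=
    C.chart'.sm_of_comp ((contDiffOn_const.sub hVs).congr hUΦ)
  have hs : Sm C.Ω U :=
    hs1.union_of_isOpen hs2 isOpen_interior (C.chart'.isOpen_image C.isOpen_W subset_rfl)
  have hl : ∀ x ∈ C.Ω, lap C.g U x = 0 := by
    intro z hz
    rcases hz with hz | ⟨x, hx, rfl⟩
    · rw [lap_congr EventuallyEq.rfl (eventually_of_mem (isOpen_interior.mem_nhds hz) hUI)]
      exact hl₀ z hz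
    · rw [C.lap_Φ hs hx,
        lap_congr EventuallyEq.rfl (eventually_of_mem (C.isOpen_W.mem_nhds hx) hUΦ),
        lap_sub _ C.isOpen_W contDiffOn_const hVs hx, lap_const, hVl x hx, sub_zero]
  refine ⟨U, hs, hl, ?_, asym C hus huc hB hs hl ?_⟩
  · intro x hx
    rw [hUΦ _ (C.refl_mem_W hx), hUΦ x hx, hVo x hx]
    ring
  · intro K hK hKI
    exact Tendsto.congr
      (fun k => dH1_congr isOpen_interior hK.measurableSet hKI (fun _ _ => rfl)
        (fun z hz => (hUI z hz).symm)) (ht₀ K hK hKI)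

end Pool.Agent.P.MP_56a1cd_gt
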