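import Pool.Agent.P.MP_56a1cd_gt.Mol
import Pool.Agent.P.MP_56a1cd_gt.Ibp

namespace Pool.Agent.P.MP_56a1cd_gt

open MeasureTheory Matrix Set Filter Topology
open scoped ContDiff ENNReal

variable {m n : ℕ}

namespace WeakAux

variable {U : Set (E n)} {φ u : E n → ℝ}

theorem mem (hφ : Test U φ) : MemLp φ 2 volume :=
  hφ.sm.continuous.memLp_of_hasCompactSupport hφ.cpt

theorem int (hu : MemLp u 2 volume) (hφ : Test U φ) : Integrable (fun x => u x * φ x) :=
  hu.integrable_mul (mem hφ)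

theorem memMul (hφ : Test U φ) (hu : MemLp u 2 volume) : MemLp (fun x => φ x * u x) 2 volume :=
  hu.mul' (hφ.sm.continuous.memLp_top_of_hasCompactSupport hφ.cpt volume)

theorem da (hφ : Test U φ) (x : E n) : DifferentiableAt ℝ φ x :=
  hφ.sm.differentiable (by simp) x

theorem zero (hφ : Test U φ) {x : E n} (hx : x ∉ U) : φ x = 0 :=
  image_eq_zero_of_notMem_tsupport fun h => hx (hφ.sub h)

theorem shift (hφ : Test univ φ) (y : E n) : Test univ fun x => φ (x - y) :=
  ⟨hφ.sm.comp (contDiff_id.sub contDiff_const),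
    hφ.cpt.comp_homeomorph (Homeomorph.subRight y), subset_univ _⟩

theorem intLoc (hu : LocallyIntegrableOn u U) (hφ : Test U φ) :
    Integrable (fun x => u x * φ x) :=
  (integrableOn_iff_integrable_of_support_subset
    ((Function.support_mul_subset_right _ _).trans (subset_tsupport φ))).1
    ((hu.integrableOn_compact_subset hφ.sub hφ.cpt).mul_continuousOn
      hφ.sm.continuous.continuousOn hφ.cpt)

theorem conv (u ψ : E n → ℝ) (y : E n) :
    convolution (fun t => u (-t)) ψ (ContinuousLinearMap.mul ℝ ℝ) volume y =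
      ∫ s, u s * ψ (s + y) := by
  rw [convolution_def, ← integral_neg_eq_self]
  simp [add_comm]

/-- The pairing with derivatives of test functions is bounded. -/
theorem bound (hu : MemLp u 2 volume) (i : Fin n) {C : ℝ}
    (h : ∀ t : ℝ, ∫ x, (u (x + Pi.single i t) - u x) ^ 2 ≤ C * t ^ 2) (hφ : Test univ φ) :
    |∫ x, u x * pd i φ x| ≤ √C * √(∫ x, φ x ^ 2) := by
  have hl : LocallyIntegrable (fun t => u (-t)) volume :=
    (hu.comp_measurePreserving (Measure.measurePreserving_neg volume)).locallyIntegrable one_le_two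
  have h1 : ContDiff ℝ 1 φ := hφ.sm.of_le (by simp)
  have hd := (hφ.cpt.hasFDerivAt_convolution_right (ContinuousLinearMap.mul ℝ ℝ) hl h1
    0).hasLineDerivAt (Pi.single i 1)
  rw [convolution_precompR_apply _ hl (hφ.cpt.fderiv ℝ) (h1.continuous_fderiv one_ne_zero),
    conv] at hd
  simp only [add_zero] at hd
  refine HasDerivAt.le_of_lip' hd (by positivity) (Eventually.of_forall fun t => ?_)
  have ht : MemLp (fun x : E n => u (x + (Pi.single i (-t) : E n))) 2 volume :=
    (hu.comp_measurePreserving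
      (measurePreserving_add_right volume (Pi.single i (-t) : E n)) :)
  have e : ∫ s, u s * φ (s + t • Pi.single i 1) = ∫ s, u (s + Pi.single i (-t)) * φ s := by
    rw [← integral_add_right_eq_self _ (Pi.single i (-t))]
    simp [← Pi.single_smul, Pi.single_neg]
  simp only [conv, zero_add, zero_smul, add_zero, sub_zero, Real.norm_eq_abs]
  rw [e, ← integral_sub (int ht hφ) (int hu hφ)]
  simp only [← sub_mul]
  refine (abs_integral_mul_le (ht.sub hu) (mem hφ)).trans ?_
  rw [mul_right_comm]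
  refine mul_le_mul_of_nonneg_right ((Real.sqrt_le_sqrt (h (-t))).trans_eq ?_) (Real.sqrt_nonneg _)
  rw [Real.sqrt_mul' _ (sq_nonneg _), Real.sqrt_sq_eq_abs, abs_neg]

/-- The space of test functions. -/
def T (n : ℕ) : Submodule ℝ (E n → ℝ) where
  carrier := {φ | Test univ φ}
  add_mem' h h' := ⟨h.sm.add h'.sm, h.cpt.add h'.cpt, subset_univ _⟩
  zero_mem' := ⟨contDiff_const, HasCompactSupport.zero, subset_univ _⟩
  smul_mem' c _ h := ⟨h.sm.const_smul c, h.cpt.smul_left (f := fun _ => c), subset_univ _⟩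

theorem inner_eq (v : Lp ℝ 2 (volume : Measure (E n))) (hu : MemLp u 2 volume) :
    inner ℝ v (hu.toLp u) = ∫ x, v x * u x := by
  rw [L2.inner_def]
  refine integral_congr_ae (hu.coeFn_toLp.mono fun x hx => ?_)
  simp [hx, mul_comm]

theorem norm_eq (hu : MemLp u 2 volume) : ‖hu.toLp u‖ = √(∫ x, u x ^ 2) := by
  rw [norm_eq_sqrt_real_inner, inner_eq]
  refine congrArg _ (integral_congr_ae (hu.coeFn_toLp.mono fun x hx => ?_))
  simp [hx, sq]

/-- Bounded functionals on test functions are represented by square integrable functions. -/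
theorem riesz (Λ : T n →ₗ[ℝ] ℝ) (c : ℝ) (h : ∀ φ : T n, |Λ φ| ≤ c * √(∫ x, φ.1 x ^ 2)) :
    ∃ v, MemLp v 2 volume ∧ ∀ φ : T n, Λ φ = ∫ x, v x * φ.1 x := by
  let ι : T n →ₗ[ℝ] Lp ℝ 2 (volume : Measure (E n)) :=
    ⟨⟨fun φ => (mem φ.2).toLp φ.1, fun φ ψ => (mem φ.2).toLp_add (mem ψ.2)⟩,
      fun c φ => MemLp.toLp_const_smul c (mem φ.2)⟩
  have h' : ∀ φ, ‖Λ φ‖ ≤ c * ‖ι φ‖ := fun φ => norm_eq (mem φ.2) ▸ h φ
  obtain ⟨Λ', e⟩ : Λ ∈ LinearMap.range ι.dualMap := by
    rw [LinearMap.range_dualMap_eq_dualAnnihilator_ker, Submodule.mem_dualAnnihilator]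
    intro φ hφ
    simpa [LinearMap.mem_ker.1 hφ] using h' φ
  have e' : ∀ φ, Λ' (ι φ) = Λ φ := fun φ => LinearMap.congr_fun e φ
  obtain ⟨g, hg, -⟩ := exists_extension_norm_eq (LinearMap.range ι)
    ((Λ'.domRestrict _).mkContinuous c (by
      rintro ⟨_, φ, rfl⟩
      exact (e' φ).symm ▸ h' φ))
  refine ⟨_, Lp.memLp ((InnerProductSpace.toDual ℝ _).symm g), fun φ => ?_⟩
  rw [← inner_eq _ (mem φ.2), InnerProductSpace.toDual_symm_apply, ← e']
  exact (hg ⟨_, φ, rfl⟩).symm

end WeakAux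

open WeakAux

theorem HK.memLp {k : ℕ} {u : E n → ℝ} (h : HK k u) : MemLp u 2 volume := by
  cases k
  exacts [h, h.1]

theorem HK.of_succ {k : ℕ} {u : E n → ℝ} (h : HK (k + 1) u) : HK k u := by
  induction k generalizing u with
  | zero => exact h.1
  | succ k ih => exact ⟨h.1, fun i => (h.2 i).imp fun _ hv => ⟨hv.1, ih hv.2⟩⟩

theorem WD.add {U : Set (E n)} {i : Fin n} {u v u' v' : E n → ℝ} (h : WD U i u v)
    (h' : WD U i u' v') (hu : MemLp u 2 volume) (hv : MemLp v 2 volume) (hu' : MemLp u' 2 volume)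
    (hv' : MemLp v' 2 volume) : WD U i (fun x => u x + u' x) (fun x => v x + v' x) := by
  intro φ hφ
  simp only [add_mul]
  rw [integral_add (int hu (hφ.pd i)) (int hu' (hφ.pd i)), integral_add (int hv hφ) (int hv' hφ),
    h φ hφ, h' φ hφ, neg_add]

theorem WD.cmul {U : Set (E n)} {i : Fin n} {u v : E n → ℝ} (h : WD U i u v) (c : ℝ) :
    WD U i (fun x => c * u x) (fun x => c * v x) := by
  intro φ hφ
  simp only [mul_assoc, integral_const_mul, h φ hφ, mul_neg]

/-- Localisation of a weak derivative. -/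
theorem WD.mul_test {U : Set (E n)} {i : Fin n} {u v χ : E n → ℝ} (h : WD U i u v)
    (hu : MemLp u 2 volume) (hv : MemLp v 2 volume) (hχ : Test U χ) :
    WD univ i (fun x => χ x * u x) (fun x => χ x * v x + pd i χ x * u x) := by
  intro φ hφ
  have h1 := h (fun x => χ x * φ x)
    ⟨hχ.sm.mul hφ.sm, hχ.cpt.mul_right, tsupport_mul_subset_left.trans hχ.sub⟩
  have e1 : ∀ x, u x * pd i (fun x => χ x * φ x) x =
      pd i χ x * u x * φ x + χ x * u x * pd i φ x := fun x => by
    rw [pd_mul (da hχ x) (da hφ x)]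
    ring
  have e2 : ∀ x, v x * (χ x * φ x) = χ x * v x * φ x := fun x => by ring
  simp only [e1, e2, add_mul] at h1 ⊢
  rw [integral_add (int (memMul (hχ.pd i) hu) hφ) (int (memMul hχ hu) (hφ.pd i))] at h1
  rw [integral_add (int (memMul hχ hv) hφ) (int (memMul (hχ.pd i) hu) hφ)]
  linarith

theorem WD.comm {i j : Fin n} {u p q r : E n → ℝ} (hp : WD univ i u p) (hq : WD univ j u q)
    (hr : WD univ j p r) : WD univ i q r := by
  intro φ hφ
  have h1 := hq _ (hφ.pd i)
  have h2 := hp _ (hφ.pd j)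
  have h3 := hr φ hφ
  simp only [pd_comm isOpen_univ hφ.sm.contDiffOn (mem_univ _) i j] at h2
  linarith

theorem WD.translate {i : Fin n} {u v : E n → ℝ} (h : WD univ i u v) (y : E n) :
    WD univ i (fun x => u (x + y)) (fun x => v (x + y)) := by
  intro φ hφ
  have h1 := h _ (shift hφ y)
  rw [← integral_add_right_eq_self _ y, ← integral_add_right_eq_self (fun x => v x * _) y] at h1
  simpa only [pd, fderiv_comp_sub, add_sub_cancel_right] using h1

theorem wd_of_sm {U : Set (E n)} (hU : IsOpen U) {u : E n → ℝ} (hu : Sm U u) (i : Fin n) :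
    WD U i u (pd i u) := by
  intro φ hφ
  have h1 := integral_pd_test (hφ.mul hU hu) i
  have e : ∀ x, pd i (fun x => u x * φ x) x = pd i u x * φ x + u x * pd i φ x := fun x => by
    by_cases hx : x ∈ U
    · exact pd_mul (sm_da hU hu hx) (da hφ x) i
    · rw [zero hφ hx, zero (hφ.pd i) hx, zero ((hφ.mul hU hu).pd i) hx]
      simp
  have h2 := hφ.mul hU (sm_pd hU hu i)
  have h3 := (hφ.pd i).mul hU hu
  simp only [e] at h1
  rw [integral_add (h2.sm.continuous.integrable_of_hasCompactSupport h2.cpt)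
    (h3.sm.continuous.integrable_of_hasCompactSupport h3.cpt)] at h1
  linarith

theorem WD.unique {U : Set (E n)} (hU : IsOpen U) {i : Fin n} {u u' v v' : E n → ℝ}
    (h : WD U i u v) (h' : WD U i u' v') (e : ∀ᵐ x, x ∈ U → u x = u' x)
    (hv : LocallyIntegrableOn v U) (hv' : LocallyIntegrableOn v' U) :
    ∀ᵐ x, x ∈ U → v x = v' x := by
  refine (hU.ae_eq_zero_of_integral_contDiff_smul_eq_zero (hv.sub hv')
    fun φ h1 h2 h3 => ?_).mono fun x hx hx' => sub_eq_zero.1 (hx hx')
  have hφ : Test U φ := ⟨h1, h2, h3⟩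
  have h4 : ∫ x, u x * pd i φ x = ∫ x, u' x * pd i φ x := integral_congr_ae (e.mono fun x hx => by
    by_cases hx' : x ∈ U
    · simp only [hx hx']
    · simp only [zero (hφ.pd i) hx', mul_zero])
  rw [h φ hφ, h' φ hφ, neg_inj] at h4
  simp only [smul_eq_mul, Pi.sub_apply, mul_comm (φ _), sub_mul]
  rw [integral_sub (intLoc hv hφ) (intLoc hv' hφ), h4, sub_self]

theorem HK.add {k : ℕ} {u v : E n → ℝ} (hu : HK k u) (hv : HK k v) :
    HK k (fun x => u x + v x) := by
  induction k generalizing u v with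
  | zero => exact MemLp.add hu hv
  | succ k ih =>
    refine ⟨hu.1.add hv.1, fun i => ?_⟩
    obtain ⟨p, h1, h2⟩ := hu.2 i
    obtain ⟨q, h3, h4⟩ := hv.2 i
    exact ⟨_, h1.add h3 hu.1 h2.memLp hv.1 h4.memLp, ih h2 h4⟩

theorem HK.cmul {k : ℕ} {u : E n → ℝ} (hu : HK k u) (c : ℝ) : HK k (fun x => c * u x) := by
  induction k generalizing u with
  | zero => exact MemLp.const_mul hu c
  | succ k ih =>
    refine ⟨hu.1.const_mul c, fun i => ?_⟩
    obtain ⟨p, h1, h2⟩ := hu.2 i
    exact ⟨_, h1.cmul c, ih h2⟩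

theorem HK.sub {k : ℕ} {u v : E n → ℝ} (hu : HK k u) (hv : HK k v) :
    HK k (fun x => u x - v x) := by
  simpa only [neg_one_mul, ← sub_eq_add_neg] using hu.add (hv.cmul (-1))

theorem hk_of_test {χ : E n → ℝ} (hχ : Test univ χ) (k : ℕ) : HK k χ := by
  induction k generalizing χ with
  | zero => exact mem hχ
  | succ k ih =>
    exact ⟨mem hχ, fun i => ⟨_, wd_of_sm isOpen_univ hχ.sm.contDiffOn i, ih (hχ.pd i)⟩⟩

theorem HK.sum {ι : Type*} (s : Finset ι) {k : ℕ} {u : ι → E n → ℝ} (hu : ∀ a ∈ s, HK k (u a)) :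
    HK k (fun x => ∑ a ∈ s, u a x) := by
  classical
  induction s using Finset.induction_on with
  | empty => exact hk_of_test (T n).zero_mem k
  | insert a s ha ih =>
    simpa only [Finset.sum_insert ha] using (hu a (Finset.mem_insert_self a s)).add
      (ih fun b hb => hu b (Finset.mem_insert_of_mem hb))

theorem HK.mul_test {k : ℕ} {u χ : E n → ℝ} (hu : HK k u) (hχ : Test univ χ) :
    HK k (fun x => χ x * u x) := by
  induction k generalizing u χ with
  | zero => exact memMul hχ hu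
  | succ k ih =>
    refine ⟨memMul hχ hu.1, fun i => ?_⟩
    obtain ⟨p, h1, h2⟩ := hu.2 i
    exact ⟨_, h1.mul_test hu.1 h2.memLp hχ, (ih h2 hχ).add (ih hu.of_succ (hχ.pd i))⟩

/-- Bounded difference quotients give a weak derivative. -/
theorem wd_of_quotients {u : E n → ℝ} (hu : MemLp u 2 volume) (i : Fin n) {C : ℝ}
    (h : ∀ t : ℝ, ∫ x, (u (x + Pi.single i t) - u x) ^ 2 ≤ C * t ^ 2) :
    ∃ v, MemLp v 2 volume ∧ WD univ i u v := by
  obtain ⟨v, h1, h2⟩ := riesz ⟨⟨fun φ => ∫ x, u x * pd i φ.1 x, fun φ ψ => by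
      rw [← integral_add (int hu (Test.pd φ.2 i)) (int hu (Test.pd ψ.2 i))]
      exact congrArg _ (funext fun x =>
        (congrArg _ (pd_add (da φ.2 x) (da ψ.2 x) i)).trans (mul_add _ _ _))⟩, fun c φ => by
      rw [RingHom.id_apply, smul_eq_mul, ← integral_const_mul]
      exact congrArg _ (funext fun x =>
        (congrArg _ (pd_const_mul c φ.1 x i)).trans (mul_left_comm _ _ _))⟩ √C
    fun φ => bound hu i h φ.2
  refine ⟨fun x => -v x, h1.neg, fun φ hφ => (h2 ⟨φ, hφ⟩).trans ?_⟩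
  simp only [neg_mul, integral_neg, neg_neg]

end Pool.Agent.P.MP_56a1cd_gt
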